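import Pool.Agent.MLD.Defs

/-!
The infimum of the log discrepancies of the divisors `E` over `A^3` with `ord_E m ≤ N`.
-/

open MvPolynomial

namespace M3

open MLD

universe u

/-- The infimum of the log discrepancies of the divisors `E` over `A^3` with centre the origin and
`ord_E m ≤ N`. -/
noncomputable def mldLe {k : Type u} [Field k] (N : ℕ) {r : ℕ} (lam : Fin r → ℝ)
    (a : Fin r → Ideal (MvPolynomial (Fin 3) k)) : EReal :=
  ⨅ E : {E : DivisorOver k (Fin 3) // E.CenterZero ∧ E.ordI (mm k (Fin 3)) ≤ N},
    E.1.aDisc lam a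

end M3
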