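import Pool.Agent.M3.Bdd3
import Pool.Agent.M3.XDefs

/-!
PIECE M3-X09: the main theorem on `A^3`: uniform ideal-adic semicontinuity of the infimum of the log
discrepancies of the divisors `E` with centre the origin and `ord_E m ≤ N`, and of the minimal log
discrepancy of R-ideals `a` with `mld (a m^ε) ≥ 0`.
-/

open MvPolynomial Filter

namespace M3

open MLD

universe u

section
variable {k : Type u} [Field k]

theorem mldLe_le {N : ℕ} {r : ℕ} (lam : Fin r → ℝ)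
    (a : Fin r → Ideal (MvPolynomial (Fin 3) k)) (E : DivisorOver k (Fin 3)) (hE : E.CenterZero)
    (hN : E.ordI (mm k (Fin 3)) ≤ N) : mldLe N lam a ≤ E.aDisc lam a :=
  iInf_le (fun E : {E : DivisorOver k (Fin 3) // E.CenterZero ∧ E.ordI (mm k (Fin 3)) ≤ N} =>
    E.1.aDisc lam a) ⟨E, hE, hN⟩

theorem le_mldLe {N : ℕ} {r : ℕ} (lam : Fin r → ℝ)
    (a : Fin r → Ideal (MvPolynomial (Fin 3) k)) (x : EReal)
    (h : ∀ E : DivisorOver k (Fin 3), E.CenterZero → E.ordI (mm k (Fin 3)) ≤ N →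
      x ≤ E.aDisc lam a) : x ≤ mldLe N lam a :=
  le_iInf fun E => h E.1 E.2.1 E.2.2

/-- dropping the exponents zero does not change the discrepancies -/
theorem xmain_drop {r : ℕ} (lam : Fin r → ℝ) (hlam : ∀ j, 0 ≤ lam j) :
    ∃ (r' : ℕ) (ι : Fin r' → Fin r), (∀ i, 0 < lam (ι i)) ∧
      ∀ (E : DivisorOver k (Fin 3)) (a : Fin r → Ideal (MvPolynomial (Fin 3) k)),
        E.aDisc lam a = E.aDisc (fun i => lam (ι i)) (fun i => a (ι i)) := by
  classical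
  let e := Fintype.equivFin {j : Fin r // 0 < lam j}
  refine ⟨Fintype.card {j : Fin r // 0 < lam j}, fun i => (e.symm i).1, fun i => (e.symm i).2,
    fun E a => ?_⟩
  unfold DivisorOver.aDisc
  congr 2
  have h1 : ∑ i, lam (e.symm i).1 * (E.ordI (a (e.symm i).1) : ℝ) =
      ∑ j : {j : Fin r // 0 < lam j}, lam j.1 * (E.ordI (a j.1) : ℝ) :=
    Equiv.sum_comp e.symm (fun j : {j : Fin r // 0 < lam j} => lam j.1 * (E.ordI (a j.1) : ℝ))
  have h2 : ∑ j ∈ Finset.univ.filter (fun j => 0 < lam j), lam j * (E.ordI (a j) : ℝ) =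
      ∑ j : {j : Fin r // 0 < lam j}, lam j.1 * (E.ordI (a j.1) : ℝ) :=
    Finset.sum_subtype (Finset.univ.filter (fun j => 0 < lam j)) (fun j => by simp)
      (fun j => lam j * (E.ordI (a j) : ℝ))
  have h3 : ∑ j ∈ Finset.univ.filter (fun j => 0 < lam j), lam j * (E.ordI (a j) : ℝ) =
      ∑ j, lam j * (E.ordI (a j) : ℝ) := by
    refine Finset.sum_subset (Finset.subset_univ _) fun j _ hj => ?_
    have h4 : ¬ 0 < lam j := fun h => hj (Finset.mem_filter.2 ⟨Finset.mem_univ _, h⟩)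
    rw [le_antisymm (not_lt.1 h4) (hlam j), zero_mul]
  rw [h1, ← h2, h3]

/-- grouping of equal exponents -/
theorem xmain_group {r R : ℕ} (lam : Fin r → ℝ) (t : Fin R → ℝ) (g : Fin r → Fin R)
    (hg : ∀ j, t (g j) = lam j) (a : Fin r → Ideal (MvPolynomial (Fin 3) k)) (ha : ∀ j, a j ≠ ⊥)
    (E : DivisorOver k (Fin 3)) :
    E.aDisc lam a = E.aDisc t (fun i => ∏ j ∈ Finset.univ.filter (fun j => g j = i), a j) := by
  unfold DivisorOver.aDisc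
  congr 2
  have h1 : ∀ i, E.ordI (∏ j ∈ Finset.univ.filter (fun j => g j = i), a j) =
      ∑ j ∈ Finset.univ.filter (fun j => g j = i), E.ordI (a j) := fun i =>
    ordI_prod E _ a fun j _ => ha j
  rw [← Finset.sum_fiberwise Finset.univ g (fun j => lam j * (E.ordI (a j) : ℝ))]
  apply Finset.sum_congr rfl
  intro i _
  rw [h1 i]
  push_cast
  rw [Finset.mul_sum]
  apply Finset.sum_congr rfl
  intro j hj
  rw [Finset.mem_filter] at hj
  rw [← hg j, hj.2]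

end

section
variable {k : Type u} [Field k] [IsAlgClosed k] [CharZero k]

theorem bddN {r : ℕ} (lam : Fin r → ℝ) (hlam : ∀ j, 0 ≤ lam j) (N : ℕ) :
    ∃ ℓ : ℕ, ∀ a : Fin r → Ideal (MvPolynomial (Fin 3) k), (∀ j, a j ≠ ⊥) →
      ∀ E : DivisorOver k (Fin 3), E.CenterZero → E.ordI (mm k (Fin 3)) ≤ N →
        ∃ E' : DivisorOver k (Fin 3), E'.CenterZero ∧ E'.ordI (mm k (Fin 3)) ≤ N ∧
          E'.logDisc ≤ ((ℓ : ℝ) : EReal) ∧
          (E'.aDisc lam a < 0 ∨ E'.aDisc lam a ≤ E.aDisc lam a) := by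
  obtain ⟨r', ι, h1, h2⟩ := xmain_drop (k := k) lam hlam
  obtain ⟨ℓ, hℓ⟩ := bdd3 (k := k) (fun i => lam (ι i)) h1 N
  refine ⟨ℓ, fun a ha E hE hN => ?_⟩
  obtain ⟨E', hE', hN', hl, h3⟩ := hℓ (fun i => a (ι i)) (fun i => ha _) E hE hN
  refine ⟨E', hE', hN', hl, ?_⟩
  rw [h2 E' a, h2 E a]
  exact h3

theorem tN_fixed {r : ℕ} (lam : Fin r → ℝ) (hlam : ∀ j, 0 ≤ lam j) (N : ℕ) :
    ∃ s : ℕ, 1 ≤ s ∧ ∀ a b : Fin r → Ideal (MvPolynomial (Fin 3) k), (∀ j, a j ≠ ⊥) →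
      (∀ j, b j ≠ ⊥) → (∀ j, a j ⊔ mm k (Fin 3) ^ s = b j ⊔ mm k (Fin 3) ^ s) →
      0 ≤ mldLe N lam b → mldLe N lam b ≤ mldLe N lam a := by
  obtain ⟨ℓ, hℓ⟩ := bddN (k := k) lam hlam N
  obtain ⟨s, hs1, hs⟩ := Q1_exists_s lam hlam ℓ
  refine ⟨s, hs1, fun a b ha hb hab h0 => le_mldLe lam a _ fun E hE hN => ?_⟩
  obtain ⟨E', hE', hN', hl, h3⟩ := hℓ a ha E hE hN
  have h4 := mldLe_le lam b E' hE' hN'
  rcases Q1_transfer lam hlam hs a b ha hb hab E' hE' hl with h5 | h5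
  · rcases h3 with h3 | h3
    · rw [← h5] at h3
      exact absurd (h0.trans h4) (not_le.2 h3)
    · rw [← h5] at h3
      exact h4.trans h3
  · exact absurd (h0.trans h4) (not_le.2 h5.2)

/-- finitely many exponents, arbitrary many ideals -/
theorem xmain_fin (S : Set ℝ) (hS : S.Finite) :
    ∃ (R : ℕ) (t : Fin R → ℝ), (∀ i, t i ∈ S) ∧ ∀ (r : ℕ) (lam : Fin r → ℝ), (∀ j, lam j ∈ S) →
      ∃ g : Fin r → Fin R, ∀ j, t (g j) = lam j := by
  classical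
  let e := hS.toFinset.equivFin
  refine ⟨hS.toFinset.card, fun i => ((e.symm i : hS.toFinset) : ℝ),
    fun i => hS.mem_toFinset.1 (e.symm i).2, fun r lam hlam =>
    ⟨fun j => e ⟨lam j, hS.mem_toFinset.2 (hlam j)⟩, fun j => ?_⟩⟩
  show ((e.symm (e ⟨lam j, _⟩) : hS.toFinset) : ℝ) = lam j
  rw [Equiv.symm_apply_apply]

omit [IsAlgClosed k] [CharZero k] in
theorem xmain_ne {r : ℕ} (a : Fin r → Ideal (MvPolynomial (Fin 3) k)) (ha : ∀ j, a j ≠ ⊥)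
    (T : Finset (Fin r)) : (∏ j ∈ T, a j) ≠ ⊥ := by
  classical
  induction T using Finset.induction_on with
  | empty =>
    rw [Finset.prod_empty, Ideal.one_eq_top]
    exact top_ne_bot
  | insert x T hx ih =>
    rw [Finset.prod_insert hx]
    intro h
    rcases Ideal.mul_eq_bot.1 h with h3 | h3
    · exact ha x h3
    · exact ih h3

theorem tN_one (S : Set ℝ) (hS : S.Finite) (hS0 : ∀ t ∈ S, 0 ≤ t) (N : ℕ) :
    ∃ s : ℕ, 1 ≤ s ∧ ∀ (r : ℕ) (lam : Fin r → ℝ)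
      (a b : Fin r → Ideal (MvPolynomial (Fin 3) k)), (∀ j, lam j ∈ S) → (∀ j, a j ≠ ⊥) →
      (∀ j, b j ≠ ⊥) → (∀ j, a j ⊔ mm k (Fin 3) ^ s = b j ⊔ mm k (Fin 3) ^ s) →
      0 ≤ mldLe N lam b → mldLe N lam b ≤ mldLe N lam a := by
  classical
  obtain ⟨R, t, ht, hg⟩ := xmain_fin S hS
  obtain ⟨s, hs1, hs⟩ := tN_fixed (k := k) t (fun i => hS0 _ (ht i)) N
  refine ⟨s, hs1, fun r lam a b hlam ha hb hab => ?_⟩
  obtain ⟨g, hg⟩ := hg r lam hlam
  have h1 : ∀ c : Fin r → Ideal (MvPolynomial (Fin 3) k), (∀ j, c j ≠ ⊥) → mldLe N lam c =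
      mldLe N t (fun i => ∏ j ∈ Finset.univ.filter (fun j => g j = i), c j) := by
    intro c hc
    unfold mldLe
    exact iInf_congr fun E => xmain_group lam t g hg c hc E.1
  rw [h1 a ha, h1 b hb]
  exact hs _ _ (fun i => xmain_ne a ha _) (fun i => xmain_ne b hb _)
    (fun i => Q1_prod _ a b _ fun j _ => hab j)

/-- uniform ideal-adic semicontinuity for the divisors with `ord_E m ≤ N` -/
theorem tN_main (S : Set ℝ) (hS : S.Finite) (hS0 : ∀ t ∈ S, 0 ≤ t) (N : ℕ) :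
    ∃ s : ℕ, 1 ≤ s ∧ ∀ (r : ℕ) (lam : Fin r → ℝ)
      (a b : Fin r → Ideal (MvPolynomial (Fin 3) k)), (∀ j, lam j ∈ S) → (∀ j, a j ≠ ⊥) →
      (∀ j, b j ≠ ⊥) → (∀ j, a j ⊔ mm k (Fin 3) ^ s = b j ⊔ mm k (Fin 3) ^ s) →
      (0 ≤ mldLe N lam a ↔ 0 ≤ mldLe N lam b) ∧
        (0 ≤ mldLe N lam a → 0 ≤ mldLe N lam b → mldLe N lam a = mldLe N lam b) := by
  obtain ⟨s, hs1, hs⟩ := tN_one (k := k) S hS hS0 N
  refine ⟨s, hs1, fun r lam a b hlam ha hb hab => ?_⟩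
  have h1 := hs r lam a b hlam ha hb hab
  have h2 := hs r lam b a hlam hb ha fun j => (hab j).symm
  exact ⟨⟨fun h => h.trans (h2 h), fun h => h.trans (h1 h)⟩,
    fun h h' => le_antisymm (h2 h) (h1 h')⟩

/-- if `a m^ε` is log canonical then only divisors with `ord_E m ≤ 3 / ε` matter -/
theorem teps_eq {r : ℕ} (lam : Fin r → ℝ) (hlam : ∀ j, 0 ≤ lam j) (ε : ℝ) (hε : 0 < ε)
    (a : Fin r → Ideal (MvPolynomial (Fin 3) k))
    (h : 0 ≤ mld (Fin.cons ε lam : Fin (r + 1) → ℝ)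
      (Fin.cons (mm k (Fin 3)) a : Fin (r + 1) → Ideal (MvPolynomial (Fin 3) k))) (N : ℕ)
    (hN : 3 / ε ≤ N) : 0 ≤ mldLe N lam a ∧ mld lam a = mldLe N lam a := by
  have key : ∀ E : DivisorOver k (Fin 3), E.CenterZero →
      ((ε * E.ordI (mm k (Fin 3)) : ℝ) : EReal) ≤ E.aDisc lam a := by
    intro E hE
    have h1 := h.trans (Q1_mld_le E hE _ _)
    by_cases ht : E.logDisc = ⊤
    · unfold DivisorOver.aDisc
      rw [ht, EReal.top_sub_coe]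
      exact le_top
    · obtain ⟨A, hA⟩ := exists_logDisc E ht
      rw [Q1_aDisc E _ _ hA] at h1 ⊢
      rw [Fin.sum_univ_succ] at h1
      simp only [Fin.cons_zero, Fin.cons_succ] at h1
      have h2 : (0 : ℝ) ≤ (A : ℝ) - (ε * (E.ordI (mm k (Fin 3)) : ℝ) +
        ∑ i, lam i * (E.ordI (a i) : ℝ)) := by exact_mod_cast h1
      exact EReal.coe_le_coe_iff.2 (by linarith)
  have h0 : 0 ≤ mldLe N lam a := le_mldLe lam a _ fun E hE _ => by
    refine le_trans ?_ (key E hE)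
    exact_mod_cast mul_nonneg hε.le (Nat.cast_nonneg _)
  refine ⟨h0, le_antisymm (le_mldLe lam a _ fun E hE _ => Q1_mld_le E hE lam a)
    (Q1_le_mld lam a _ fun E hE => ?_)⟩
  by_cases hEN : E.ordI (mm k (Fin 3)) ≤ N
  · exact mldLe_le lam a E hE hEN
  · have hN1 : 1 ≤ N := by
      by_contra h1
      have h2 : N = 0 := by omega
      rw [h2] at hN
      have : 0 < 3 / ε := by positivity
      simp only [Nat.cast_zero] at hN
      linarith
    obtain ⟨E₃, hE₃, hN₃, hl₃⟩ := Bdd3_blowup k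
    have h1 := mldLe_le lam a E₃ hE₃ (hN₃.trans hN1)
    obtain ⟨B, -, hB3, hB⟩ := logDisc_real E₃ ((3 : ℕ) : ℝ) hl₃
    rw [Q1_aDisc E₃ lam a hB] at h1
    have h2 : 0 ≤ ∑ j, lam j * (E₃.ordI (a j) : ℝ) :=
      Finset.sum_nonneg fun j _ => mul_nonneg (hlam j) (Nat.cast_nonneg _)
    refine h1.trans (le_trans ?_ (key E hE))
    rw [not_le] at hEN
    have h3 : (N : ℝ) < (E.ordI (mm k (Fin 3)) : ℝ) := by exact_mod_cast hEN
    have h4 : 3 ≤ ε * (N : ℝ) := by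
      rw [div_le_iff₀ hε] at hN
      linarith
    have h5 : ε * (N : ℝ) ≤ ε * (E.ordI (mm k (Fin 3)) : ℝ) :=
      mul_le_mul_of_nonneg_left h3.le hε.le
    exact EReal.coe_le_coe_iff.2 (by push_cast at hB3; linarith)

/-- uniform ideal-adic semicontinuity for R-ideals with log canonical `a m^ε` -/
theorem teps_main (S : Set ℝ) (hS : S.Finite) (hS0 : ∀ t ∈ S, 0 ≤ t) (ε : ℝ) (hε : 0 < ε) :
    ∃ s : ℕ, 1 ≤ s ∧ ∀ (r : ℕ) (lam : Fin r → ℝ)
      (a b : Fin r → Ideal (MvPolynomial (Fin 3) k)), (∀ j, lam j ∈ S) → (∀ j, a j ≠ ⊥) →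
      (∀ j, b j ≠ ⊥) → (∀ j, a j ⊔ mm k (Fin 3) ^ s = b j ⊔ mm k (Fin 3) ^ s) →
      0 ≤ mld (Fin.cons ε lam : Fin (r + 1) → ℝ)
        (Fin.cons (mm k (Fin 3)) a : Fin (r + 1) → Ideal (MvPolynomial (Fin 3) k)) →
      0 ≤ mld (Fin.cons ε lam : Fin (r + 1) → ℝ)
        (Fin.cons (mm k (Fin 3)) b : Fin (r + 1) → Ideal (MvPolynomial (Fin 3) k)) →
      mld lam a = mld lam b := by
  obtain ⟨N, hN⟩ := exists_nat_ge (3 / ε)
  obtain ⟨s, hs1, hs⟩ := tN_main (k := k) S hS hS0 N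
  refine ⟨s, hs1, fun r lam a b hlam ha hb hab h1 h2 => ?_⟩
  obtain ⟨h3, h4⟩ := teps_eq lam (fun j => hS0 _ (hlam j)) ε hε a h1 N hN
  obtain ⟨h5, h6⟩ := teps_eq lam (fun j => hS0 _ (hlam j)) ε hε b h2 N hN
  rw [h4, h6]
  exact (hs r lam a b hlam ha hb hab).2 h3 h5

end

end M3
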