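import Mathlib

/-!
PIECE M3-W: there are no infinite chains (purely combinatorial).

PROOF. Write `q k = b k / a k ≥ 1`, `p1 = ∑ lam j (vL k j).1`, `p2 = ∑ lam j (vL k j).2`; then
`l k (p1 + q k p2) = 1 + q k` (divide `hsum` by `a k`, use `hL`).  `l` is nondecreasing (`hstep`), so `l k ≥ 1`.
(1) `(vL k j).1 < 1 / lam j` by `hL1` (all terms are nonnegative, `l k ≥ 1`), and
`(vL k j).2 ≤ d k j / b k ≤ (a k + b k) / (b k lam j l k) ≤ 2 / lam j`.  So `vL k` takes finitely many
values: there is an infinite set of indices (a strictly increasing sequence `φ`, e.g.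
`exists_increasing_or_nonincreasing_subseq` or the pigeonhole principle, `Finite.exists_infinite_fiber`)
on which `vL k = v` is constant.
(2) On this subsequence `p1`, `p2` are constant, `l k p1 < 1` and `l k p2 > 1`
(`l k q p2 = 1 + q - l k p1 > q`), so `p1 < p2`, and `l = (1 + q) / (p1 + q p2)` is a strictly decreasing
function of `q ≥ 1`: `l k < l k'` iff `q k' < q k` and `l k = l k'` iff `q k = q k'`.  For `k < k'` in the
subsequence `(l k, q k) < (l k', q k')` lexicographically (transitivity of `hstep`; `hstep` says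
`l k < l (k+1)` or `l k = l (k+1)` and `q k < q (k+1)`).  If `l k = l k'` then `q k = q k'`, a contradiction.
So `l k < l k'` and `q k' < q k`: `q` is strictly decreasing along the subsequence.
(3) For every `k` some `j` has `(vR k j).2 < (vL k j).2`, since `∑ l lam (vR).2 < 1 < ∑ l lam (vL).2`.  For this
`j`: `a ((vR).1 - (vL).1) = b ((vL).2 - (vR).2)`, so `q k = ((vR).1 - (vL).1) / ((vL).2 - (vR).2)` with
`0 < (vL).2 - (vR).2 ≤ (vL).2 ≤ 2 / lam j` and `(vR).1 - (vL).1 = q k ((vL).2 - (vR).2) ≤ q (φ 0) * 2 / lam j`,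
so `q k` takes only finitely many values on the subsequence: a contradiction to (2).
-/

namespace M3

/-- Lexicographic order of the pairs (length, slope) is transitive along the chain. -/
private theorem BlkW_lex (l : ℕ → ℝ) (a b : ℕ → ℕ) (ha : ∀ k, 0 < a k)
    (hstep : ∀ k, l k < l (k + 1) ∨ (l k = l (k + 1) ∧ b k * a (k + 1) < b (k + 1) * a k))
    (k k' : ℕ) (h : k < k') : l k < l k' ∨ (l k = l k' ∧ b k * a k' < b k' * a k) := by
  induction k', h using Nat.le_induction with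
  | base => exact hstep k
  | succ n hn ih =>
    rcases ih with h1 | ⟨h1, h1'⟩ <;> rcases hstep n with h2 | ⟨h2, h2'⟩
    · exact Or.inl (h1.trans h2)
    · exact Or.inl (h2 ▸ h1)
    · exact Or.inl (h1 ▸ h2)
    · refine Or.inr ⟨h1.trans h2, ?_⟩
      have e1 : b k * a n * a (n + 1) < b n * a k * a (n + 1) :=
        Nat.mul_lt_mul_of_pos_right h1' (ha _)
      have e2 : b n * a (n + 1) * a k < b (n + 1) * a n * a k :=
        Nat.mul_lt_mul_of_pos_right h2' (ha _)
      have e3 : b k * a (n + 1) * a n < b (n + 1) * a k * a n := by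
        calc b k * a (n + 1) * a n = b k * a n * a (n + 1) := by ring
          _ < b n * a k * a (n + 1) := e1
          _ = b n * a (n + 1) * a k := by ring
          _ < b (n + 1) * a n * a k := e2
          _ = b (n + 1) * a k * a n := by ring
      exact Nat.lt_of_mul_lt_mul_right e3

theorem no_chain {r : ℕ} (lam : Fin r → ℝ) (hlam : ∀ j, 0 < lam j) (l : ℕ → ℝ) (a b : ℕ → ℕ)
    (d : ℕ → Fin r → ℕ) (vL vR : ℕ → Fin r → ℕ × ℕ) (hl : 1 ≤ l 0) (ha : ∀ k, 0 < a k)
    (hab : ∀ k, a k ≤ b k) (hsum : ∀ k, l k * ∑ j, lam j * d k j = a k + b k)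
    (hL : ∀ k j, a k * (vL k j).1 + b k * (vL k j).2 = d k j)
    (hR : ∀ k j, a k * (vR k j).1 + b k * (vR k j).2 = d k j)
    (hL1 : ∀ k, l k * ∑ j, lam j * (vL k j).1 < 1)
    (hR1 : ∀ k, l k * ∑ j, lam j * (vR k j).2 < 1)
    (hstep : ∀ k, l k < l (k + 1) ∨ (l k = l (k + 1) ∧ b k * a (k + 1) < b (k + 1) * a k)) :
    False := by
  have hlex := BlkW_lex l a b ha hstep
  have hl1 : ∀ k, 1 ≤ l k := by
    intro k
    rcases Nat.eq_zero_or_pos k with h | h
    · rw [h]; exact hl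
    · rcases hlex 0 k h with h1 | h1
      · linarith
      · rw [← h1.1]; exact hl
  have hA : ∀ k, (0 : ℝ) < a k := fun k => by exact_mod_cast ha k
  have hAB : ∀ k, (a k : ℝ) ≤ b k := fun k => by exact_mod_cast hab k
  have hB : ∀ k, (0 : ℝ) < b k := fun k => (hA k).trans_le (hAB k)
  have hp1 : ∀ k, 0 ≤ ∑ j, lam j * ((vL k j).1 : ℝ) := fun k =>
    Finset.sum_nonneg fun j _ => mul_nonneg (hlam j).le (Nat.cast_nonneg _)
  have hp2 : ∀ k, 0 ≤ ∑ j, lam j * ((vL k j).2 : ℝ) := fun k =>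
    Finset.sum_nonneg fun j _ => mul_nonneg (hlam j).le (Nat.cast_nonneg _)
  have hE : ∀ k, l k * ((a k : ℝ) * ∑ j, lam j * ((vL k j).1 : ℝ)
      + (b k : ℝ) * ∑ j, lam j * ((vL k j).2 : ℝ)) = a k + b k := by
    intro k
    rw [← hsum k]
    congr 1
    rw [Finset.mul_sum, Finset.mul_sum, ← Finset.sum_add_distrib]
    refine Finset.sum_congr rfl fun j _ => ?_
    have := hL k j
    have h2 : (a k : ℝ) * (vL k j).1 + (b k : ℝ) * (vL k j).2 = d k j := by exact_mod_cast this
    rw [← h2]; ring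
  have hlp2 : ∀ k, 1 < l k * ∑ j, lam j * ((vL k j).2 : ℝ) := by
    intro k
    have h1 := hE k
    have h2 := hL1 k
    have h3 : (a k : ℝ) * (l k * ∑ j, lam j * ((vL k j).1 : ℝ)) < a k * 1 :=
      mul_lt_mul_of_pos_left h2 (hA k)
    have h4 : (b k : ℝ) * 1 < (b k : ℝ) * (l k * ∑ j, lam j * ((vL k j).2 : ℝ)) := by
      nlinarith
    exact lt_of_mul_lt_mul_left h4 (hB k).le
  -- (1) finitely many values of vL
  have hb1 : ∀ k j, ((vL k j).1 : ℝ) ≤ 2 / lam j := by
    intro k j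
    rw [le_div_iff₀ (hlam j)]
    have h1 : lam j * ((vL k j).1 : ℝ) ≤ ∑ j, lam j * ((vL k j).1 : ℝ) :=
      Finset.single_le_sum (f := fun j => lam j * ((vL k j).1 : ℝ))
        (fun i _ => mul_nonneg (hlam i).le (Nat.cast_nonneg _)) (Finset.mem_univ j)
    have h2 := hL1 k
    have h3 := hl1 k
    have h4 : ∑ j, lam j * ((vL k j).1 : ℝ) ≤ l k * ∑ j, lam j * ((vL k j).1 : ℝ) :=
      le_mul_of_one_le_left (hp1 k) h3
    nlinarith
  have hb2 : ∀ k j, ((vL k j).2 : ℝ) ≤ 2 / lam j := by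
    intro k j
    rw [le_div_iff₀ (hlam j)]
    have h1 : lam j * ((vL k j).2 : ℝ) ≤ ∑ j, lam j * ((vL k j).2 : ℝ) :=
      Finset.single_le_sum (f := fun j => lam j * ((vL k j).2 : ℝ))
        (fun i _ => mul_nonneg (hlam i).le (Nat.cast_nonneg _)) (Finset.mem_univ j)
    have h3 := hl1 k
    have h4 : ∑ j, lam j * ((vL k j).2 : ℝ) ≤ l k * ∑ j, lam j * ((vL k j).2 : ℝ) :=
      le_mul_of_one_le_left (hp2 k) h3
    have h5 : (b k : ℝ) * (l k * ∑ j, lam j * ((vL k j).2 : ℝ)) ≤ b k * 2 := by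
      have h6 := hE k
      have h7 : 0 ≤ (a k : ℝ) * (l k * ∑ j, lam j * ((vL k j).1 : ℝ)) :=
        mul_nonneg (hA k).le (mul_nonneg (by linarith) (hp1 k))
      have h8 := hAB k
      nlinarith
    have h9 : l k * ∑ j, lam j * ((vL k j).2 : ℝ) ≤ 2 := le_of_mul_le_mul_left h5 (hB k)
    linarith [h1, h4, h9]
  obtain ⟨v, hv⟩ : ∃ v : Fin r → ℕ × ℕ, Set.Infinite {k | vL k = v} := by
    by_contra hcon
    push Not at hcon
    let M : Fin r → ℕ := fun j => ⌊2 / lam j⌋₊
    have hfin : Set.Finite (Set.univ.pi fun j : Fin r => (Set.Iic (M j) ×ˢ Set.Iic (M j))) :=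
      Set.Finite.pi fun j => (Set.finite_Iic _).prod (Set.finite_Iic _)
    have hcov : (Set.univ : Set ℕ) ⊆
        ⋃ v ∈ (Set.univ.pi fun j : Fin r => (Set.Iic (M j) ×ˢ Set.Iic (M j))),
          {k | vL k = v} := by
      intro k _
      refine Set.mem_iUnion₂.2 ⟨vL k, ?_, rfl⟩
      intro j _
      refine ⟨?_, ?_⟩
      · exact Nat.le_floor (hb1 k j)
      · exact Nat.le_floor (hb2 k j)
    have : (Set.univ : Set ℕ).Finite :=
      (hfin.biUnion (fun v _ => hcon v)).subset hcov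
    exact Set.infinite_univ this
  -- (2) the slope is strictly decreasing
  have hdec : ∀ k k', vL k = v → vL k' = v → k < k' →
      (b k' : ℝ) / a k' < (b k : ℝ) / a k := by
    intro k k' hk hk' hlt
    set P1 : ℝ := ∑ j, lam j * ((v j).1 : ℝ) with hP1
    set P2 : ℝ := ∑ j, lam j * ((v j).2 : ℝ) with hP2
    have e1 := hE k
    have e2 := hE k'
    have f1 := hL1 k
    have f2 := hL1 k'
    have g1 := hlp2 k
    have g2 := hlp2 k'
    have n1 := hp1 k
    rw [hk] at e1 f1 g1 n1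
    rw [hk'] at e2 f2 g2
    rw [← hP1, ← hP2] at e1 e2
    rw [← hP1] at f1 f2 n1
    rw [← hP2] at g1 g2
    have q1 : (b k : ℝ) / a k = (1 - l k * P1) / (l k * P2 - 1) := by
      rw [div_eq_div_iff (hA k).ne' (by linarith)]
      linarith [e1]
    have q2 : (b k' : ℝ) / a k' = (1 - l k' * P1) / (l k' * P2 - 1) := by
      rw [div_eq_div_iff (hA k').ne' (by linarith)]
      linarith [e2]
    have hll : l k < l k' := by
      rcases hlex k k' hlt with h | ⟨h, h'⟩
      · exact h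
      · exfalso
        rw [h] at q1
        have h3 : (b k : ℝ) / a k = (b k' : ℝ) / a k' := by rw [q1, q2]
        rw [div_eq_div_iff (hA k).ne' (hA k').ne'] at h3
        have h4 : b k * a k' = b k' * a k := by exact_mod_cast h3
        omega
    rw [q1, q2]
    have hP2pos : 0 < P2 := by
      have := hl1 k
      by_contra hc
      have : l k * P2 ≤ 0 := mul_nonpos_of_nonneg_of_nonpos (by linarith) (not_lt.1 hc)
      linarith
    rw [div_lt_div_iff₀ (by linarith) (by linarith)]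
    have a1 : 1 - l k' * P1 ≤ 1 - l k * P1 := by nlinarith
    have a2 : l k * P2 - 1 < l k' * P2 - 1 := by nlinarith
    have a3 : 0 < 1 - l k * P1 := by linarith
    have a4 : 0 < 1 - l k' * P1 := by linarith
    have a5 : 0 < l k * P2 - 1 := by linarith
    calc (1 - l k' * P1) * (l k * P2 - 1) ≤ (1 - l k * P1) * (l k * P2 - 1) :=
          mul_le_mul_of_nonneg_right a1 a5.le
      _ < (1 - l k * P1) * (l k' * P2 - 1) := mul_lt_mul_of_pos_left a2 a3
  -- (3) the slope takes finitely many values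
  obtain ⟨k0, hk0, hmin⟩ : ∃ k0, vL k0 = v ∧ ∀ k, vL k = v → k0 ≤ k := by
    have hne : ({k | vL k = v} : Set ℕ).Nonempty := hv.nonempty
    exact ⟨sInf {k | vL k = v}, Nat.sInf_mem hne, fun k hk => Nat.sInf_le hk⟩
  have hq0 : ∀ k, vL k = v → (b k : ℝ) / a k ≤ (b k0 : ℝ) / a k0 := by
    intro k hk
    rcases (hmin k hk).eq_or_lt with h | h
    · rw [h]
    · exact (hdec k0 k hk0 hk h).le
  let N : Fin r → ℕ := fun j => (v j).1 + ⌈(b k0 : ℝ) / a k0 * (v j).2⌉₊
  let F : Set ℝ := ⋃ j : Fin r, (fun x : ℕ × ℕ =>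
    ((x.1 : ℝ) - (v j).1) / (((v j).2 : ℝ) - x.2)) '' (Set.Iic (N j) ×ˢ Set.Iic ((v j).2))
  have hF : F.Finite := Set.finite_iUnion fun j =>
    ((Set.finite_Iic _).prod (Set.finite_Iic _)).image _
  have hmaps : Set.MapsTo (fun k => (b k : ℝ) / a k) {k | vL k = v} F := by
    intro k hk
    have hk' : vL k = v := hk
    obtain ⟨j, hj⟩ : ∃ j, (vR k j).2 < (v j).2 := by
      by_contra hcon
      push Not at hcon
      have h1 := hR1 k
      have h2 := hlp2 k
      rw [hk'] at h2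
      have h3 : ∑ j, lam j * ((v j).2 : ℝ) ≤ ∑ j, lam j * ((vR k j).2 : ℝ) :=
        Finset.sum_le_sum fun j _ =>
          mul_le_mul_of_nonneg_left (by exact_mod_cast hcon j) (hlam j).le
      have h4 := hl1 k
      have h5 : l k * ∑ j, lam j * ((v j).2 : ℝ) ≤ l k * ∑ j, lam j * ((vR k j).2 : ℝ) :=
        mul_le_mul_of_nonneg_left h3 (by linarith)
      linarith
    have hLj := hL k j
    have hRj := hR k j
    rw [hk'] at hLj
    have hLr : (a k : ℝ) * (v j).1 + (b k : ℝ) * (v j).2 = d k j := by exact_mod_cast hLj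
    have hRr : (a k : ℝ) * (vR k j).1 + (b k : ℝ) * (vR k j).2 = d k j := by exact_mod_cast hRj
    have hjr : ((vR k j).2 : ℝ) < (v j).2 := by exact_mod_cast hj
    have hq : (b k : ℝ) / a k =
        (((vR k j).1 : ℝ) - (v j).1) / (((v j).2 : ℝ) - (vR k j).2) := by
      rw [div_eq_div_iff (hA k).ne' (by linarith)]
      linarith
    refine Set.mem_iUnion.2 ⟨j, ⟨vR k j, ⟨?_, ?_⟩, hq.symm⟩⟩
    · show (vR k j).1 ≤ N j
      have h1 : ((vR k j).1 : ℝ) = (v j).1 + (b k : ℝ) / a k * (((v j).2 : ℝ) - (vR k j).2) := by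
        rw [hq, div_mul_cancel₀ _ (by linarith)]; ring
      have h2 : (b k : ℝ) / a k * (((v j).2 : ℝ) - (vR k j).2) ≤
          (b k0 : ℝ) / a k0 * (v j).2 := by
        have hnn : (0 : ℝ) ≤ (vR k j).2 := Nat.cast_nonneg _
        have hqn : (0 : ℝ) ≤ (b k0 : ℝ) / a k0 := div_nonneg (hB k0).le (hA k0).le
        exact mul_le_mul (hq0 k hk') (by linarith) (by linarith) hqn
      have h3 : ((vR k j).1 : ℝ) ≤ (v j).1 + (b k0 : ℝ) / a k0 * (v j).2 := by linarith
      have h4 := Nat.le_ceil ((b k0 : ℝ) / a k0 * (v j).2)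
      have h5 : ((vR k j).1 : ℝ) ≤ ((N j : ℕ) : ℝ) := by
        show _ ≤ (((v j).1 + ⌈(b k0 : ℝ) / a k0 * (v j).2⌉₊ : ℕ) : ℝ)
        push_cast
        linarith
      exact_mod_cast h5
    · exact hj.le
  have hinj : Set.InjOn (fun k => (b k : ℝ) / a k) {k | vL k = v} := by
    intro k hk k' hk' he
    by_contra hne
    rcases lt_or_gt_of_ne hne with h | h
    · exact absurd he (hdec k k' hk hk' h).ne'
    · exact absurd he (hdec k' k hk' hk h).ne
  exact (Set.infinite_of_injOn_mapsTo hinj hmaps hv) hF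

end M3
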