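import Pool.Agent.M3.Tay
import Pool.Agent.MLD.ArcDer

/-!
PIECE M3-B03: points of the polydisc which are not rational over the ground field.

PROOF. `exists_der_ne`: `x` is transcendental over `κ` (algebraically closed); extend `{x}` to a transcendence basis,
the derivation `∂/∂x` of `κ(basis)` extends to the algebraic extension `L` (characteristic zero).  (Compare
`Pool/Agent/MLD/ArcDer.lean` and other files of MLD for existence of derivations; Mathlib:
`Algebra.FormallySmooth`/`Differential`, `Derivation.liftOfSurjective`, `KaehlerDifferential` of a separably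
generated extension.)
`ev_ne`: `f` involves only the variable `i` (`hfi`).  Suppose `ev Q f = 0`, `f ≠ 0`.  Let `f^(b) := (dA i)^[b] f`.  Some
`ev Q (f^(b)) ≠ 0`: write `f = X^s * f₁` with `coeff 0 f₁ ≠ 0`, a polynomial in the variable `i` of degree `D`; then
`coeff 0 (f₁^(D))` is a nonzero constant, so `ev Q (f^(D)) ≠ 0`.  Let `b` be minimal; `b ≥ 1`; `g := f^(b-1)`, `ev Q g = 0`,
`ev Q (dA i g) ≠ 0`, `dA j g = 0`.  For every derivation `δ` of `L/κ`: `0 = dS δ (ev Q g) = ev Q (dA i g) * dS δ (Q i)`
(`dS_ev`), so `dS δ (Q i) = 0`: all coefficients of `Q i` are killed by all derivations, so they are in `κ` by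
`exists_der_ne`, a contradiction to `hQ`.
`exists_iter_ne`: `f ≠ 0`.  Let `f^β`, `β : ℕ`, be the coefficient of `(x_j)^β` of `f` as a function of `x_i` only:
`mc (f^β) e = mc f (e with e j replaced by β)` if `e j = 0` and `0` otherwise; some `f^β ≠ 0` so `ev Q (f^β) ≠ 0` by
`ev_ne`.  Let `s` be the minimum over all `β` of the orders of `ev Q (f^β)`.  Modulo `τ^(s+1)` only finitely many
`β` matter (`coeff m f` is a polynomial): let `D` be the largest `β` with order exactly `s`; then
`ev Q ((dA j)^[D] f) = ∑_β β (β-1) ⋯ (β-D+1) ev Q (f^β) (Q j)^(β-D)` has the coefficient of `τ^s` equal to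
`∑_(β ≤ D) …`: all terms `β < D` vanish, `β > D` have order `> s`, and `β = D` gives `D! coeff s (ev Q (f^D)) ≠ 0`.
-/

open MvPolynomial

namespace M3

universe u

theorem exists_der_ne {κ L : Type u} [Field κ] [IsAlgClosed κ] [CharZero κ] [Field L] [Algebra κ L]
    (x : L) (hx : x ∉ Set.range (algebraMap κ L)) : ∃ δ : Derivation κ L L, δ x ≠ 0 := by
  have ht : Transcendental κ x := by
    intro ha
    apply hx
    have hi : IsIntegral κ x := ha.isIntegral
    have h1 : (minpoly κ x).degree = 1 :=
      IsAlgClosed.degree_eq_one_of_irreducible κ (minpoly.irreducible hi)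
    exact minpoly.mem_range_of_degree_eq_one κ x h1
  have hc : AlgebraicIndependent κ (fun _ : Unit => x) :=
    algebraicIndependent_unique_type_iff.mpr ht
  obtain ⟨D, hD, _⟩ := MLD.arc_der (fun _ : Unit => x) hc ()
  exact ⟨D, by rw [hD]; exact one_ne_zero⟩

section
variable {κ L : Type u} [Field κ] [IsAlgClosed κ] [CharZero κ] [Field L] [Algebra κ L]

omit [IsAlgClosed κ] [CharZero κ] in
private theorem Irr_zero (j : Fin 2) (b : ℕ) : (dA j)^[b] (0 : AA κ) = 0 := by
  have h : dA j (0 : AA κ) = 0 := by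
    ext n e
    simp [dA]
  induction b with
  | zero => rfl
  | succ b ih => rw [Function.iterate_succ_apply, h, ih]

omit [IsAlgClosed κ] [CharZero κ] in
private theorem Irr_coeff (j : Fin 2) (b : ℕ) (f : AA κ) (n : ℕ) :
    PowerSeries.coeff n ((dA j)^[b] f) = (pderiv j)^[b] (PowerSeries.coeff n f) := by
  induction b generalizing f with
  | zero => rfl
  | succ b ih =>
    rw [Function.iterate_succ_apply, Function.iterate_succ_apply, ih]
    unfold dA
    rw [PowerSeries.coeff_mk]

omit [IsAlgClosed κ] in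
private theorem Irr_pderiv (j : Fin 2) (b : ℕ) (e : Fin 2 →₀ ℕ) :
    ∃ c : κ, c ≠ 0 ∧ ∀ p : MvPolynomial (Fin 2) κ,
      coeff e ((pderiv j)^[b] p) = coeff (e + Finsupp.single j b) p * c := by
  induction b with
  | zero => exact ⟨1, one_ne_zero, fun p => by simp⟩
  | succ b ih =>
    obtain ⟨c, hc, h⟩ := ih
    refine ⟨(((e + Finsupp.single j b) j : ℕ) + 1 : κ) * c, mul_ne_zero ?_ hc, fun p => ?_⟩
    · exact_mod_cast Nat.succ_ne_zero ((e + Finsupp.single j b) j)
    · rw [Function.iterate_succ_apply, h, coeff_pderiv, add_assoc, ← Finsupp.single_add, mul_assoc]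

private theorem Irr_ex {i j : Fin 2} (hij : i ≠ j) (Q : Fin 2 → PowerSeries L) {f : AA κ}
    (hf : f ≠ 0) : ∃ a b : ℕ, ev Q ((dA j)^[b] ((dA i)^[a] f)) ≠ 0 := by
  classical
  obtain ⟨s, hs, hmin⟩ : ∃ s, PowerSeries.coeff s f ≠ 0 ∧
      ∀ n < s, PowerSeries.coeff n f = 0 := by
    have h1 : ∃ s, PowerSeries.coeff s f ≠ 0 := by
      by_contra hc
      push Not at hc
      exact hf (PowerSeries.ext fun n => by rw [hc n, map_zero])
    exact ⟨Nat.find h1, Nat.find_spec h1, fun n hn => by
      by_contra hc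
      exact Nat.find_min h1 hn hc⟩
  set p := PowerSeries.coeff s f with hp
  obtain ⟨e, he, hmax⟩ := Finset.exists_max_image p.support (fun e => e i + e j)
    (support_nonempty.2 hs)
  obtain ⟨c, hc, hci⟩ := Irr_pderiv (κ := κ) i (e i) (Finsupp.single j (e j))
  obtain ⟨c', hc', hcj⟩ := Irr_pderiv (κ := κ) j (e j) 0
  have hee : Finsupp.single j (e j) + Finsupp.single i (e i) = e := by
    ext l
    have hl : l = i ∨ l = j := by omega
    rcases hl with rfl | rfl
    · simp [hij]
    · simp [hij.symm]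
  refine ⟨e i, e j, fun h0 => ?_⟩
  set g := (dA j)^[e j] ((dA i)^[e i] f) with hg
  have hgn : ∀ n, PowerSeries.coeff n g =
      (pderiv j)^[e j] ((pderiv i)^[e i] (PowerSeries.coeff n f)) := by
    intro n
    rw [hg, Irr_coeff, Irr_coeff]
  have hg0 : ∀ n < s, PowerSeries.coeff n g = 0 := by
    intro n hn
    rw [hgn, hmin n hn]
    have h1 : ∀ (l : Fin 2) (b : ℕ), (pderiv l)^[b] (0 : MvPolynomial (Fin 2) κ) = 0 := by
      intro l b
      induction b with
      | zero => rfl
      | succ b ih => rw [Function.iterate_succ_apply, map_zero, ih]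
    rw [h1, h1]
  have hgs : PowerSeries.coeff s g = C (coeff e p * c * c') := by
    rw [hgn]
    ext e'
    by_cases h1 : e' = 0
    · subst h1
      rw [hcj, zero_add, hci, hee, coeff_zero_C]
    · obtain ⟨c₁, _, h2⟩ := Irr_pderiv (κ := κ) j (e j) e'
      obtain ⟨c₂, _, h3⟩ := Irr_pderiv (κ := κ) i (e i) (e' + Finsupp.single j (e j))
      rw [h2, h3, coeff_C, if_neg (Ne.symm h1)]
      have h4 : coeff (e' + Finsupp.single j (e j) + Finsupp.single i (e i)) p = 0 := by
        by_contra h5
        have h6 := hmax _ (mem_support_iff.2 h5)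
        have h7 : e' i + e' j = 0 := by
          simp [hij, hij.symm] at h6
          omega
        apply h1
        ext l
        have hl : l = i ∨ l = j := by omega
        rcases hl with rfl | rfl
        · simp; omega
        · simp; omega
      rw [h4, zero_mul, zero_mul]
  have h1 : PowerSeries.coeff s (ev Q g) = algebraMap κ L (coeff e p * c * c') := by
    rw [coeff_ev, Finset.sum_eq_single (s, 0)]
    · rw [hgs, ← algebraMap_eq, AlgHom.commutes]
      simp [PowerSeries.algebraMap_apply]
    · rintro ⟨n, m⟩ hnm hne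
      rw [Finset.HasAntidiagonal.mem_antidiagonal] at hnm
      have hn : n < s := by
        rcases Nat.lt_or_ge n s with h | h
        · exact h
        · exfalso
          apply hne
          have h2 : n = s := by simp at hnm; omega
          have h3 : m = 0 := by simp at hnm; omega
          rw [h2, h3]
      rw [hg0 n hn, map_zero, map_zero]
    · intro h
      exfalso
      apply h
      rw [Finset.HasAntidiagonal.mem_antidiagonal]
      rfl
  rw [h0, map_zero] at h1
  have h2 : coeff e p * c * c' ≠ 0 := mul_ne_zero (mul_ne_zero (mem_support_iff.1 he) hc) hc'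
  exact h2 ((algebraMap κ L).injective (by rw [← h1, map_zero]))

private theorem Irr_iter {Q : Fin 2 → PowerSeries L} {i j : Fin 2} (hij : i ≠ j)
    (hQ : ∀ w : PowerSeries κ, Q i ≠ PowerSeries.map (algebraMap κ L) w) {f : AA κ} (hf : f ≠ 0) :
    ∃ b : ℕ, ev Q ((dA j)^[b] f) ≠ 0 := by
  by_contra hall
  push Not at hall
  obtain ⟨δ, hδ⟩ : ∃ δ : Derivation κ L L, dS δ (Q i) ≠ 0 := by
    obtain ⟨n, hn⟩ : ∃ n, PowerSeries.coeff n (Q i) ∉ Set.range (algebraMap κ L) := by
      by_contra hc
      push Not at hc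
      choose w hw using hc
      apply hQ (PowerSeries.mk w)
      ext n
      rw [PowerSeries.coeff_map, PowerSeries.coeff_mk, hw]
    obtain ⟨δ, hδ⟩ := exists_der_ne _ hn
    refine ⟨δ, fun h => hδ ?_⟩
    have h1 := congrArg (PowerSeries.coeff n) h
    unfold dS at h1
    rw [PowerSeries.coeff_mk, map_zero] at h1
    exact h1
  have step : ∀ h : AA κ, (∀ b, ev Q ((dA j)^[b] h) = 0) →
      ∀ b, ev Q ((dA j)^[b] (dA i h)) = 0 := by
    intro h hh b
    have hcomm : (dA j)^[b] (dA i h) = dA i ((dA j)^[b] h) :=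
      (Function.Commute.iterate_left (fun g => dA_comm j i g) b h)
    rw [hcomm]
    have h1 := dS_ev δ Q ((dA j)^[b] h)
    rw [hh b] at h1
    have h2 : dS δ (0 : PowerSeries L) = 0 := by
      ext n
      simp [dS]
    have h3 : ev Q (dA j ((dA j)^[b] h)) = 0 := by
      rw [← Function.iterate_succ_apply' (dA j) b h]
      exact hh (b + 1)
    rw [h2] at h1
    have h4 : ev Q (dA i ((dA j)^[b] h)) * dS δ (Q i) = 0 := by
      have hc : (i = 0 ∧ j = 1) ∨ (i = 1 ∧ j = 0) := by omega
      rcases hc with ⟨hi, hj⟩ | ⟨hi, hj⟩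
      · subst hi; subst hj
        rw [h3, zero_mul, add_zero] at h1
        exact h1.symm
      · subst hi; subst hj
        rw [h3, zero_mul, zero_add] at h1
        exact h1.symm
    exact (mul_eq_zero.1 h4).resolve_right hδ
  have all : ∀ a b, ev Q ((dA j)^[b] ((dA i)^[a] f)) = 0 := by
    intro a
    induction a with
    | zero => exact hall
    | succ a ih =>
      intro b
      rw [Function.iterate_succ_apply']
      exact step _ ih b
  obtain ⟨a, b, hab⟩ := Irr_ex hij Q hf
  exact hab (all a b)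

theorem ev_ne {Q : Fin 2 → PowerSeries L} {i j : Fin 2} (hij : i ≠ j)
    (hQ : ∀ w : PowerSeries κ, Q i ≠ PowerSeries.map (algebraMap κ L) w) {f : AA κ} (hf : f ≠ 0)
    (hfi : ∀ e, e j ≠ 0 → mc f e = 0) : ev Q f ≠ 0 := by
  have h0 : dA j f = 0 := by
    ext n e
    unfold dA
    rw [PowerSeries.coeff_mk, coeff_pderiv, map_zero, coeff_zero, ← coeff_mc, hfi _ (by simp),
      map_zero, zero_mul]
  obtain ⟨b, hb⟩ := Irr_iter hij hQ hf
  rcases b with _ | b
  · exact hb
  · exfalso
    apply hb
    rw [Function.iterate_succ_apply, h0, Irr_zero, ev_zero]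

theorem exists_iter_ne {Q : Fin 2 → PowerSeries L} {i j : Fin 2} (hij : i ≠ j)
    (hQ : ∀ w : PowerSeries κ, Q i ≠ PowerSeries.map (algebraMap κ L) w) {f : AA κ} (hf : f ≠ 0) :
    ∃ b : ℕ, ev Q ((dA j)^[b] f) ≠ 0 := Irr_iter hij hQ hf

end

end M3
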