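import Pool.Agent.M3.CodB

/-!
PIECE M3-A05: codimension and charts.

PROOF. Let `Q := (fun j => ev P (chA c p N₀ N₁ j))`, i.e. `Q 0 = c + τ^N₀ * P 0`, `Q 1 = p(P 0) + τ^N₁ * P 1` (coefficients
of `c`, `p` in `k`; `ev_cA`, `ev_xA`, `ev_mul`, ...).  Coefficients: `Q_0,n = c_n` for `n < N₀` and `c_n + P_0,(n - N₀)` for `n ≥ N₀`;
`Q_1,n = (p(P 0))_n + P_1,(n - N₁)` (the last term only for `n ≥ N₁`), and because `τ^N₀` divides all `p.coeff j`,
`j ≥ 1`, `(p(P 0))_n` is a polynomial over `k` in `P_0,i`, `i + N₀ ≤ n`.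
So for `m ≥ max N₀ N₁` the coefficients of `Q` below `m` and the family consisting of `P_0,i` (`i + N₀ < m`) and
`P_1,i` (`i + N₁ < m`) generate the same field over `k`.  By `alg_exchange` (in both directions) the maximal
number of algebraically independent members is the same, call it `R m`.
(a) If `Cod k P C`: take level `m'' := m - min N₀ N₁`: at least `2 m'' - C` independent ones among
`P_0,i`, `P_1,i`, `i < m''`, drop those with `i + N₀ ≥ m` or `i + N₁ ≥ m`, at most `(m'' - (m - N₀)) + (m'' - (m - N₁))`: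
`R m ≥ 2 m - N₀ - N₁ - C`.  So `CodLe k Q m (C + N₀ + N₁)`; for `m` smaller than `max N₀ N₁` use
`CodLe.level`.
(b) If `Cod k Q C`: `R m ≥ 2 m - C` for all `m ≥ max N₀ N₁`.  For a given level `m'` let `m := m' + max N₀ N₁`; drop the
members with `i ≥ m'`: at most `(m - N₀ - m') + (m - N₁ - m')`, so at least `2 m' + N₀ + N₁ - C` remain:
`2 m' ≤ T.card + (C - N₀ - N₁)` if `N₀ + N₁ ≤ C`.  And `N₀ + N₁ ≤ C` because `R m ≤ (m - N₀) + (m - N₁)`, the number
of all members.
`cod_isCh`: induction on `IsCh` (`ev_ev`), for the swap: permute the two components.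
-/

open MvPolynomial

namespace M3

universe u

section
variable {k : Type u} [Field k] {L : Type*} [Field L] [Algebra k L]

/-- the field generated by the coefficients of `P` at the positions in `A` -/
private theorem mem_adj {P : Fin 2 → PowerSeries L} {A : Finset (Fin 2 × ℕ)} {t : Fin 2 × ℕ}
    (ht : t ∈ A) : PowerSeries.coeff t.2 (P t.1) ∈ IntermediateField.adjoin k
      (Set.range (fun t : A => PowerSeries.coeff t.1.2 (P t.1.1))) :=
  IntermediateField.subset_adjoin _ _ ⟨⟨t, ht⟩, rfl⟩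

private theorem indep_sub {P : Fin 2 → PowerSeries L} {S S' : Finset (Fin 2 × ℕ)}
    (h : AlgebraicIndependent k (fun t : S => PowerSeries.coeff t.1.2 (P t.1.1)))
    (hS : S' ⊆ S) :
    AlgebraicIndependent k (fun t : S' => PowerSeries.coeff t.1.2 (P t.1.1)) :=
  h.comp (fun t : S' => (⟨t.1, hS t.2⟩ : S)) (fun a b hab => Subtype.ext (by
    simpa using hab))

private theorem codLe_iff (P : Fin 2 → PowerSeries L) (m C : ℕ) :
    CodLe k P m C ↔ ∃ S : Finset (Fin 2 × ℕ), (∀ t ∈ S, t.2 < m) ∧ 2 * m ≤ S.card + C ∧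
      AlgebraicIndependent k (fun t : S => PowerSeries.coeff t.1.2 (P t.1.1)) := by
  classical
  constructor
  · rintro ⟨T, h1, h2⟩
    let e : Fin 2 × Fin m ↪ Fin 2 × ℕ := ⟨fun t => (t.1, t.2.val), fun a b h => by
      rw [Prod.mk.injEq] at h
      exact Prod.ext h.1 (Fin.ext h.2)⟩
    refine ⟨T.map e, ?_, by rw [Finset.card_map]; exact h1, ?_⟩
    · intro t ht
      obtain ⟨s, _, rfl⟩ := Finset.mem_map.mp ht
      exact s.2.isLt
    · have hc : ∀ t : (T.map e : Finset (Fin 2 × ℕ)), ∃ s : T, e s.1 = t.1 := by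
        intro t
        obtain ⟨s, hs, hst⟩ := Finset.mem_map.mp t.2
        exact ⟨⟨s, hs⟩, hst⟩
      choose g hg using hc
      have hgi : Function.Injective g := by
        intro a b hab
        apply Subtype.ext
        rw [← hg a, ← hg b, hab]
      have := h2.comp g hgi
      convert this using 2 with t
      have := hg t
      show _ = PowerSeries.coeff ((g t).1.2.val) (P (g t).1.1)
      rw [← this]
      rfl
  · rintro ⟨S, h0, h1, h2⟩
    let f : S → Fin 2 × Fin m := fun t => (t.1.1, ⟨t.1.2, h0 t.1 t.2⟩)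
    have hf : Function.Injective f := by
      intro a b hab
      simp only [f, Prod.mk.injEq, Fin.mk.injEq] at hab
      exact Subtype.ext (Prod.ext hab.1 hab.2)
    refine ⟨Finset.univ.image f, ?_, ?_⟩
    · rw [Finset.card_image_of_injective _ hf, Finset.card_univ, Fintype.card_coe]
      exact h1
    · have hc : ∀ t : (Finset.univ.image f : Finset (Fin 2 × Fin m)), ∃ s : S, f s = t.1 := by
        intro t
        obtain ⟨s, _, hst⟩ := Finset.mem_image.mp t.2
        exact ⟨s, hst⟩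
      choose g hg using hc
      have hgi : Function.Injective g := by
        intro a b hab
        apply Subtype.ext
        rw [← hg a, ← hg b, hab]
      have := h2.comp g hgi
      convert this using 2 with t
      have := hg t
      show _ = PowerSeries.coeff ((g t).1.2) (P (g t).1.1)
      rw [← this]

private theorem exch {P Q : Fin 2 → PowerSeries L} {A S : Finset (Fin 2 × ℕ)}
    (h : ∀ s ∈ S, PowerSeries.coeff s.2 (Q s.1) ∈ IntermediateField.adjoin k
      (Set.range (fun t : A => PowerSeries.coeff t.1.2 (P t.1.1))))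
    (hS : AlgebraicIndependent k (fun t : S => PowerSeries.coeff t.1.2 (Q t.1.1))) :
    ∃ S' : Finset (Fin 2 × ℕ), S' ⊆ A ∧ S.card ≤ S'.card ∧
      AlgebraicIndependent k (fun t : S' => PowerSeries.coeff t.1.2 (P t.1.1)) := by
  classical
  obtain ⟨T, hT, hTi⟩ := alg_exchange (k := k)
    (fun t : A => PowerSeries.coeff t.1.2 (P t.1.1))
    (fun s : S => PowerSeries.coeff s.1.2 (Q s.1.1))
    (fun s => isAlgebraic_algebraMap (⟨_, h s.1 s.2⟩ : IntermediateField.adjoin k
      (Set.range (fun t : A => PowerSeries.coeff t.1.2 (P t.1.1)))))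
    Finset.univ (hS.comp (fun t : (Finset.univ : Finset S) => t.1) Subtype.val_injective)
  refine ⟨T.map (Function.Embedding.subtype _), ?_, ?_, ?_⟩
  · intro t ht
    obtain ⟨s, _, rfl⟩ := Finset.mem_map.mp ht
    exact s.2
  · rw [Finset.card_map]
    rwa [Finset.card_univ, Fintype.card_coe] at hT
  · have hc : ∀ t : (T.map (Function.Embedding.subtype _) : Finset (Fin 2 × ℕ)),
        ∃ s : T, s.1.1 = t.1 := by
      intro t
      obtain ⟨s, hs, hst⟩ := Finset.mem_map.mp t.2
      exact ⟨⟨s, hs⟩, hst⟩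
    choose g hg using hc
    have hgi : Function.Injective g := by
      intro a b hab
      apply Subtype.ext
      rw [← hg a, ← hg b, hab]
    have := hTi.comp g hgi
    convert this using 2 with t
    have := hg t
    show _ = PowerSeries.coeff ((g t).1.1.2) (P (g t).1.1.1)
    rw [← this]

private theorem cnt (S : Finset (Fin 2 × ℕ)) (a b : Fin 2 → ℕ)
    (h : ∀ t ∈ S, a t.1 ≤ t.2 ∧ t.2 < b t.1) : S.card ≤ (b 0 - a 0) + (b 1 - a 1) := by
  classical
  have h1 : S ⊆ (Finset.univ.sigma (fun j : Fin 2 => Finset.Ico (a j) (b j))).map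
      (Equiv.sigmaEquivProd (Fin 2) ℕ).toEmbedding := by
    intro t ht
    rw [Finset.mem_map]
    refine ⟨⟨t.1, t.2⟩, ?_, rfl⟩
    rw [Finset.mem_sigma]
    exact ⟨Finset.mem_univ _, Finset.mem_Ico.mpr (h t ht)⟩
  refine (Finset.card_le_card h1).trans ?_
  rw [Finset.card_map, Finset.card_sigma, Fin.sum_univ_two, Nat.card_Ico, Nat.card_Ico]

private theorem coeffs_mul (F : IntermediateField k L) (M : ℕ) {g h : PowerSeries L}
    (hg : ∀ i < M, PowerSeries.coeff i g ∈ F) (hh : ∀ i < M, PowerSeries.coeff i h ∈ F) :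
    ∀ i < M, PowerSeries.coeff i (g * h) ∈ F := by
  intro i hi
  rw [PowerSeries.coeff_mul]
  refine sum_mem fun p hp => ?_
  have hp' := Finset.HasAntidiagonal.mem_antidiagonal.mp hp
  exact mul_mem (hg _ (by omega)) (hh _ (by omega))

private theorem coeffs_pow (F : IntermediateField k L) (M : ℕ) {g : PowerSeries L}
    (hg : ∀ i < M, PowerSeries.coeff i g ∈ F) (j : ℕ) :
    ∀ i < M, PowerSeries.coeff i (g ^ j) ∈ F := by
  induction j with
  | zero =>
    intro i _
    rw [pow_zero, PowerSeries.coeff_one]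
    split
    · exact one_mem F
    · exact zero_mem F
  | succ j ih =>
    rw [pow_succ]
    exact coeffs_mul F M ih hg

private theorem coeffs_poly (F : IntermediateField k L) (m N₀ : ℕ)
    (p : Polynomial (PowerSeries k))
    (hp : ∀ j, 1 ≤ j → (PowerSeries.X : PowerSeries k) ^ N₀ ∣ p.coeff j) {g : PowerSeries L}
    (hg : ∀ i, i + N₀ < m → PowerSeries.coeff i g ∈ F) (n : ℕ) (hn : n < m) :
    PowerSeries.coeff n (p.eval₂ (PowerSeries.map (algebraMap k L)) g) ∈ F := by
  rw [Polynomial.eval₂_eq_sum_range, map_sum]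
  refine sum_mem fun j _ => ?_
  rcases Nat.eq_zero_or_pos j with rfl | hj
  · rw [pow_zero, mul_one, PowerSeries.coeff_map]
    exact F.algebraMap_mem _
  · obtain ⟨q, hq⟩ := hp j hj
    have h1 : PowerSeries.map (algebraMap k L) ((PowerSeries.X : PowerSeries k) ^ N₀ * q) *
        g ^ j = PowerSeries.X ^ N₀ * (PowerSeries.map (algebraMap k L) q * g ^ j) := by
      rw [map_mul, map_pow, PowerSeries.map_X, mul_assoc]
    rw [hq, h1, PowerSeries.coeff_X_pow_mul']
    split
    · rename_i h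
      refine coeffs_mul F (m - N₀) (fun i _ => ?_)
        (coeffs_pow F (m - N₀) (fun i hi => hg i (by omega)) j) _ (by omega)
      rw [PowerSeries.coeff_map]
      exact F.algebraMap_mem _
    · exact zero_mem F

private theorem ev_poly (P : Fin 2 → PowerSeries L) (p : Polynomial (PowerSeries k)) :
    ev P (p.eval₂ cA (xA 0)) = p.eval₂ (PowerSeries.map (algebraMap k L)) (P 0) := by
  rw [← evH_apply, Polynomial.hom_eval₂, evH_apply, ev_xA]
  congr 1
  ext c : 1
  exact ev_cA P c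

private theorem chA_zero (c : PowerSeries k) (p : Polynomial (PowerSeries k)) (N₀ N₁ : ℕ)
    (P : Fin 2 → PowerSeries L) : ev P (chA c p N₀ N₁ 0) =
      PowerSeries.map (algebraMap k L) c + PowerSeries.X ^ N₀ * P 0 := by
  show ev P (cA c + PowerSeries.X ^ N₀ * xA 0) = _
  rw [ev_add, ev_cA, ev_mul, ev_pow, ev_X, ev_xA]

private theorem chA_one (c : PowerSeries k) (p : Polynomial (PowerSeries k)) (N₀ N₁ : ℕ)
    (P : Fin 2 → PowerSeries L) : ev P (chA c p N₀ N₁ 1) =
      p.eval₂ (PowerSeries.map (algebraMap k L)) (P 0) + PowerSeries.X ^ N₁ * P 1 := by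
  show ev P (p.eval₂ cA (xA 0) + PowerSeries.X ^ N₁ * xA 1) = _
  rw [ev_add, ev_poly, ev_mul, ev_pow, ev_X, ev_xA]

/-- the coefficients of the new arc are in the field generated by the old ones -/
private theorem mem_new (F : IntermediateField k L) (c : PowerSeries k)
    (p : Polynomial (PowerSeries k)) (N₀ N₁ : ℕ)
    (hp : ∀ j, 1 ≤ j → (PowerSeries.X : PowerSeries k) ^ N₀ ∣ p.coeff j)
    {P : Fin 2 → PowerSeries L} (m : ℕ)
    (h0 : ∀ i, i + N₀ < m → PowerSeries.coeff i (P 0) ∈ F)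
    (h1 : ∀ i, i + N₁ < m → PowerSeries.coeff i (P 1) ∈ F) (j : Fin 2) (n : ℕ) (hn : n < m) :
    PowerSeries.coeff n (ev P (chA c p N₀ N₁ j)) ∈ F := by
  fin_cases j
  · show PowerSeries.coeff n (ev P (chA c p N₀ N₁ 0)) ∈ F
    rw [chA_zero, map_add, PowerSeries.coeff_map, PowerSeries.coeff_X_pow_mul']
    refine add_mem (F.algebraMap_mem _) ?_
    split
    · exact h0 _ (by omega)
    · exact zero_mem F
  · show PowerSeries.coeff n (ev P (chA c p N₀ N₁ 1)) ∈ F
    rw [chA_one, map_add, PowerSeries.coeff_X_pow_mul']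
    refine add_mem (coeffs_poly F m N₀ p hp h0 n hn) ?_
    split
    · exact h1 _ (by omega)
    · exact zero_mem F

/-- the coefficients of the old arc are in the field generated by the new ones -/
private theorem mem_old (F : IntermediateField k L) (c : PowerSeries k)
    (p : Polynomial (PowerSeries k)) (N₀ N₁ : ℕ)
    (hp : ∀ j, 1 ≤ j → (PowerSeries.X : PowerSeries k) ^ N₀ ∣ p.coeff j)
    {P : Fin 2 → PowerSeries L} (m : ℕ)
    (h : ∀ j, ∀ n, n < m → PowerSeries.coeff n (ev P (chA c p N₀ N₁ j)) ∈ F) :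
    (∀ i, i + N₀ < m → PowerSeries.coeff i (P 0) ∈ F) ∧
    (∀ i, i + N₁ < m → PowerSeries.coeff i (P 1) ∈ F) := by
  have h0 : ∀ i, i + N₀ < m → PowerSeries.coeff i (P 0) ∈ F := by
    intro i hi
    have h1 := h 0 (i + N₀) hi
    rw [chA_zero, map_add, PowerSeries.coeff_map, PowerSeries.coeff_X_pow_mul] at h1
    have h2 := sub_mem h1 (F.algebraMap_mem (PowerSeries.coeff (i + N₀) c))
    rwa [add_sub_cancel_left] at h2
  refine ⟨h0, fun i hi => ?_⟩
  have h1 := h 1 (i + N₁) hi
  rw [chA_one, map_add, PowerSeries.coeff_X_pow_mul] at h1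
  have h2 := sub_mem h1 (coeffs_poly F m N₀ p hp h0 (i + N₁) hi)
  rwa [add_sub_cancel_left] at h2

theorem cod_chA (c : PowerSeries k) (p : Polynomial (PowerSeries k)) (N₀ N₁ : ℕ)
    (hp : ∀ j, 1 ≤ j → (PowerSeries.X : PowerSeries k) ^ N₀ ∣ p.coeff j)
    {P : Fin 2 → PowerSeries L} {C : ℕ} (hP : Cod k P C) :
    Cod k (fun j => ev P (chA c p N₀ N₁ j)) (C + N₀ + N₁) := by
  classical
  intro m
  obtain ⟨S, hS0, hS1, hS2⟩ := (codLe_iff P m C).mp (hP m)
  rw [codLe_iff]
  let N : Fin 2 → ℕ := ![N₀, N₁]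
  let A : Finset (Fin 2 × ℕ) := Finset.univ ×ˢ Finset.range m
  let S₁ := S.filter (fun t => t.2 + N t.1 < m)
  let S₂ := S.filter (fun t => ¬ t.2 + N t.1 < m)
  have hc : S₁.card + S₂.card = S.card := Finset.card_filter_add_card_filter_not _
  have hc2 : S₂.card ≤ N₀ + N₁ := by
    refine (cnt S₂ (fun j => m - N j) (fun _ => m) ?_).trans ?_
    · intro t ht
      rw [Finset.mem_filter] at ht
      have := hS0 t ht.1
      omega
    · show (m - (m - N₀)) + (m - (m - N₁)) ≤ N₀ + N₁
      omega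
  have hmem := mem_old (k := k) (IntermediateField.adjoin k (Set.range (fun t : A =>
    PowerSeries.coeff t.1.2 (ev P (chA c p N₀ N₁ t.1.1))))) c p N₀ N₁ hp (P := P) m
    (fun j n hn => mem_adj (k := k) (P := fun j => ev P (chA c p N₀ N₁ j)) (A := A)
      (t := (j, n)) (by
        simp only [A, Finset.mem_product, Finset.mem_univ, true_and, Finset.mem_range]
        exact hn))
  obtain ⟨S', hS'A, hS'c, hS'i⟩ := exch (k := k) (P := fun j => ev P (chA c p N₀ N₁ j))
    (Q := P) (A := A) (S := S₁) (by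
      rintro ⟨j, n⟩ hs
      rw [Finset.mem_filter] at hs
      fin_cases j
      · exact hmem.1 n hs.2
      · exact hmem.2 n hs.2) (indep_sub hS2 (Finset.filter_subset _ _))
  refine ⟨S', fun t ht => ?_, by omega, hS'i⟩
  have := hS'A ht
  simpa [A] using this

theorem cod_chA_inv (c : PowerSeries k) (p : Polynomial (PowerSeries k)) (N₀ N₁ : ℕ)
    (hp : ∀ j, 1 ≤ j → (PowerSeries.X : PowerSeries k) ^ N₀ ∣ p.coeff j)
    {P : Fin 2 → PowerSeries L} {C : ℕ}
    (hP : Cod k (fun j => ev P (chA c p N₀ N₁ j)) C) :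
    N₀ + N₁ ≤ C ∧ Cod k P (C - N₀ - N₁) := by
  classical
  have key : ∀ m', ∃ S : Finset (Fin 2 × ℕ), (∀ t ∈ S, t.2 + (![N₀, N₁] : Fin 2 → ℕ) t.1 <
      m' + N₀ + N₁) ∧ 2 * (m' + N₀ + N₁) ≤ S.card + C ∧
      AlgebraicIndependent k (fun t : S => PowerSeries.coeff t.1.2 (P t.1.1)) := by
    intro m'
    obtain ⟨S, hS0, hS1, hS2⟩ := (codLe_iff _ (m' + N₀ + N₁) C).mp (hP (m' + N₀ + N₁))
    let A : Finset (Fin 2 × ℕ) := (Finset.univ ×ˢ Finset.range (m' + N₀ + N₁)).filter
      (fun t => t.2 + (![N₀, N₁] : Fin 2 → ℕ) t.1 < m' + N₀ + N₁)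
    have hA : ∀ t : Fin 2 × ℕ, t.2 + (![N₀, N₁] : Fin 2 → ℕ) t.1 < m' + N₀ + N₁ → t ∈ A := by
      intro t ht
      rw [Finset.mem_filter]
      refine ⟨?_, ht⟩
      rw [Finset.mem_product, Finset.mem_range]
      exact ⟨Finset.mem_univ _, by omega⟩
    obtain ⟨S', hS'A, hS'c, hS'i⟩ := exch (k := k) (Q := fun j => ev P (chA c p N₀ N₁ j))
      (P := P) (A := A) (S := S) (by
        rintro ⟨j, n⟩ hs
        exact mem_new (k := k) _ c p N₀ N₁ hp (P := P) (m' + N₀ + N₁)
          (fun i hi => mem_adj (k := k) (P := P) (A := A) (t := (0, i)) (hA _ hi))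
          (fun i hi => mem_adj (k := k) (P := P) (A := A) (t := (1, i)) (hA _ hi)) j n
          (hS0 _ hs)) hS2
    refine ⟨S', fun t ht => ?_, by omega, hS'i⟩
    exact (Finset.mem_filter.mp (hS'A ht)).2
  have h1 : N₀ + N₁ ≤ C := by
    obtain ⟨S, h0, h1, _⟩ := key 0
    have := cnt S (fun _ => 0) (fun j => 0 + N₀ + N₁ - (![N₀, N₁] : Fin 2 → ℕ) j) (by
      intro t ht
      have := h0 t ht
      omega)
    have h3 : S.card ≤ (0 + N₀ + N₁ - N₀ - 0) + (0 + N₀ + N₁ - N₁ - 0) := this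
    omega
  refine ⟨h1, fun m' => ?_⟩
  obtain ⟨S, h0, h2, h3⟩ := key m'
  rw [codLe_iff]
  have hc : (S.filter (fun t => t.2 < m')).card + (S.filter (fun t => ¬ t.2 < m')).card =
    S.card := Finset.card_filter_add_card_filter_not _
  have hc2 : (S.filter (fun t => ¬ t.2 < m')).card ≤
      (m' + N₀ + N₁ - N₀ - m') + (m' + N₀ + N₁ - N₁ - m') := by
    refine (cnt _ (fun _ => m') (fun j => m' + N₀ + N₁ - (![N₀, N₁] : Fin 2 → ℕ) j) ?_)
    intro t ht
    rw [Finset.mem_filter] at ht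
    have := h0 t ht.1
    omega
  refine ⟨S.filter (fun t => t.2 < m'), fun t ht => (Finset.mem_filter.mp ht).2, ?_,
    indep_sub h3 (Finset.filter_subset _ _)⟩
  omega

private theorem cod_swap_aux {P : Fin 2 → PowerSeries L} {C : ℕ} (h : Cod k P C) :
    Cod k (fun j => ev P (swA k j)) C := by
  classical
  intro m
  obtain ⟨T, hT1, hT2⟩ := h m
  let e : Fin 2 × Fin m ≃ Fin 2 × Fin m := (Equiv.swap (0 : Fin 2) 1).prodCongr (Equiv.refl _)
  refine ⟨T.map e.toEmbedding, by rw [Finset.card_map]; exact hT1, ?_⟩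
  have hc : ∀ t : (T.map e.toEmbedding : Finset (Fin 2 × Fin m)), ∃ s : T, e s.1 = t.1 := by
    intro t
    obtain ⟨s, hs, hst⟩ := Finset.mem_map.mp t.2
    exact ⟨⟨s, hs⟩, hst⟩
  choose g hg using hc
  have hgi : Function.Injective g := by
    intro a b hab
    apply Subtype.ext
    rw [← hg a, ← hg b, hab]
  have := hT2.comp g hgi
  convert this using 2 with t
  have := hg t
  show _ = PowerSeries.coeff ((g t).1.2.val) (P (g t).1.1)
  rw [← this]
  generalize (g t).1 = s
  obtain ⟨j, n⟩ := s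
  fin_cases j
  · show PowerSeries.coeff n.val (ev P (xA 0)) = PowerSeries.coeff n.val (P 0)
    rw [ev_xA]
  · show PowerSeries.coeff n.val (ev P (xA 1)) = PowerSeries.coeff n.val (P 1)
    rw [ev_xA]

theorem cod_swap {P : Fin 2 → PowerSeries L} {C : ℕ} :
    Cod k (fun j => ev P (swA k j)) C ↔ Cod k P C := by
  refine ⟨fun h => ?_, cod_swap_aux⟩
  have h1 := cod_swap_aux h
  have h2 : (fun j => ev (fun j => ev P (swA k j)) (swA k j)) = P := by
    funext j
    fin_cases j
    · show ev (fun j => ev P (swA k j)) (xA 1) = P 0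
      rw [ev_xA]
      show ev P (xA 0) = P 0
      rw [ev_xA]
    · show ev (fun j => ev P (swA k j)) (xA 0) = P 1
      rw [ev_xA]
      show ev P (xA 1) = P 1
      rw [ev_xA]
  rwa [h2] at h1

theorem cod_isCh {χ : Fin 2 → AA k} {N : ℕ} (hχ : IsCh χ N) {P : Fin 2 → PowerSeries L} {C : ℕ}
    (hP : Cod k P C) : Cod k (fun j => ev P (χ j)) (C + N) := by
  induction hχ generalizing P C with
  | refl =>
    have : (fun j => ev P (xA j : AA k)) = P := by
      funext j
      exact ev_xA P j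
    rw [this]
    exact hP
  | swap _ ih =>
    have h1 := ih (cod_swap.mpr hP)
    convert h1 using 2 with j
    rw [ev_ev]
  | @step χ' N' c p N₀ N₁ _ hp ih =>
    have h1 := ih (cod_chA c p N₀ N₁ hp hP)
    have h2 := h1.mono (C' := C + (N' + N₀ + N₁)) (by omega)
    convert h2 using 2 with j
    rw [ev_ev]

theorem cod_isCh_inv {χ : Fin 2 → AA k} {N : ℕ} (hχ : IsCh χ N) {P : Fin 2 → PowerSeries L}
    {C : ℕ} (hP : Cod k (fun j => ev P (χ j)) C) : N ≤ C ∧ Cod k P (C - N) := by
  induction hχ generalizing P C with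
  | refl =>
    have : (fun j => ev P (xA j : AA k)) = P := by
      funext j
      exact ev_xA P j
    rw [this] at hP
    exact ⟨Nat.zero_le _, hP⟩
  | @swap χ' N' _ ih =>
    have h0 : Cod k (fun j => ev (fun j => ev P (swA k j)) (χ' j)) C := by
      convert hP using 2 with j
      rw [ev_ev]
    obtain ⟨h1, h2⟩ := ih h0
    exact ⟨h1, cod_swap.mp h2⟩
  | @step χ' N' c p N₀ N₁ _ hp ih =>
    have h0 : Cod k (fun j => ev (fun j => ev P (chA c p N₀ N₁ j)) (χ' j)) C := by
      convert hP using 2 with j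
      rw [ev_ev]
    obtain ⟨h1, h2⟩ := ih h0
    obtain ⟨h3, h4⟩ := cod_chA_inv c p N₀ N₁ hp h2
    exact ⟨by omega, h4.mono (by omega)⟩

/-- `LowB` is preserved by charts -/
theorem lowB_isCh {r : ℕ} {J : Type} {lam : Fin r → ℝ} {grp : J → Fin r} {f : J → AA k}
    {χ : Fin 2 → AA k} {N : ℕ} (hχ : IsCh χ N) (hL : LowB lam grp f) :
    LowB lam grp (fun h => ev χ (f h)) := by
  obtain ⟨K, hK⟩ := hL
  refine ⟨K + N, ?_⟩
  intro L _ _ P C n hC hO
  have h1 := hK L (fun j => ev P (χ j)) (C + N) n (cod_isCh hχ hC) (fun h => by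
    have := hO h
    rwa [ev_ev] at this)
  push_cast at h1
  linarith

end

end M3
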