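import Pool.Agent.M3.Lim
import Pool.Agent.M3.CodCh

/-!
PIECE M3-L03: charts over the ultrapower are limits of charts over `k`; lifting of arcs; transfer of domination.

PROOF. `isCh_lim`: induction on `IsCh`, with `P`, `w` general.  `refl`: `χ' := xA`, `P' := P`.
`swap`: `ev w (ev (swA _) (χ j)) = ev w' (χ j)` with `w' j := ev w (swA _ j)` the swapped point (`ev_ev`); apply the
induction hypothesis to `w'` and swap `P'`.
`step c p N₀ N₁`: by `ev_ev` the point is `χ(w')`, `w' := (c + τ^N₀ w_0, p(w_0) + τ^N₁ w_1)`; the induction hypothesis gives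
`χ'`, `P'` with `P' → ratP w'`.  Choose sequences `c_i → c` (`exists_seqS`) and `p_i → p`: for every `j ≤ natDegree p` choose
`p_(i,j) → p.coeff j`, for `j ≥ 1` of the form `X^N₀ * p'_(i,j)` with `p'_(i,j) → p'_j`, `p.coeff j = X^N₀ * p'_j`;
`p_i := ∑ j ≤ natDegree p, monomial j p_(i,j)`.  Then `chA c_i p_i N₀ N₁ → chA c p N₀ N₁` (`IsLim.add`, `IsLim.mul`,
`IsLim.cA`, ...; `eval₂` of a polynomial of bounded degree is a finite sum).  Lift: `P'_(i,0) - c_i` tends to `τ^N₀ w_0`, so for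
almost all `i` it is divisible by `X^N₀`; `P''_(i,0) :=` the quotient (shift the coefficients), its limit is `ratP w 0`.
Then `P'_(i,1) - p_i(P''_(i,0))` tends to `τ^N₁ w_1`, for almost all `i` divisible by `X^N₁`; `P''_(i,1) :=` the quotient.
(For the remaining `i` define `P''` by the same shift.)

`adm_isCh`: for almost all `i`: `P i = χ'_i(P' i)`, `cod_isCh_inv` gives `N ≤ C i` and `Cod k (P' i) (C i - N)`; the
orders: `ev (P' i) (ev (χ' i) (c i h)) = ev (P i) (c i h)` (`ev_ev`).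
`dom_isCh`: given `Q`, `C₁ ≤ ℓ`, `n₁ ≤ ℓ` for the family `ev (χ' i) (c i h)` take `χ'_i(Q)` (`cod_isCh`), `C₁ + N`,
`n₁`, the bound `ℓ + N`; `C₁ + N - ∑ lam n₁ ≤ (C i - N) + N - ∑ lam n i`.
`dom_mul`: for `c i h = X^(e (grp h)) * c' i h` and `Q`, `C₁`, `n₁` from the hypothesis take `Q`, `C₁`, `n₁ j + e j`;
`n i j ≤ (n i j - e j) + e j` (natural subtraction).  `adm_div`: `X^(n i j) ∣ X^(e j) * ev (P i) (c' i h)` implies
`X^(n i j - e j) ∣ ev (P i) (c' i h)`.
`dom_mono`: trivial.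
-/

open MvPolynomial

namespace M3

universe u

section
variable {k : Type u} [Field k]


/-- arcs over `Om k`: the limit is componentwise -/
private theorem LimCh_limP {P : ℕ → Fin 2 → PowerSeries (Om k)}
    {Q : Fin 2 → PowerSeries (Gm (Om k))} :
    IsLimP P Q ↔ ∀ j, IsLimS (fun i => P i j) (Q j) := Iff.rfl

private theorem LimCh_sub {K : Type u} [Field K] {z z' : ℕ → PowerSeries K}
    {w w' : PowerSeries (Gm K)} (h : IsLimS z w) (h' : IsLimS z' w') :
    IsLimS (fun i => z i - z' i) (w - w') := by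
  intro m
  rw [map_sub, h m, h' m, ← gm_sub]
  congr 1

private theorem LimCh_sum {K : Type u} [Field K] {ι : Type*} (s : Finset ι)
    {z : ι → ℕ → PowerSeries K} {w : ι → PowerSeries (Gm K)}
    (h : ∀ j ∈ s, IsLimS (z j) (w j)) : IsLimS (fun i => ∑ j ∈ s, z j i) (∑ j ∈ s, w j) := by
  intro m
  rw [map_sum, Finset.sum_congr rfl fun j hj => h j hj m, ← gm_sum]
  congr 1
  funext i
  rw [map_sum]

private theorem LimCh_pow {K : Type u} [Field K] {z : ℕ → PowerSeries K}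
    {w : PowerSeries (Gm K)} (h : IsLimS z w) (n : ℕ) : IsLimS (fun i => z i ^ n) (w ^ n) := by
  induction n with
  | zero =>
    have h1 := IsLimS.X_pow (k := K) 0
    simpa using h1
  | succ n ih =>
    have h1 := ih.mul h
    simpa [pow_succ] using h1

private theorem LimCh_sumA {ι : Type*} (s : Finset ι) {z : ι → ℕ → AA k} {w : ι → AA (Gm k)}
    (h : ∀ j ∈ s, IsLim (z j) (w j)) : IsLim (fun i => ∑ j ∈ s, z j i) (∑ j ∈ s, w j) := by
  classical
  induction s using Finset.induction_on with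
  | empty =>
    intro m
    refine ⟨⟨0, Filter.Eventually.of_forall fun i => by simp⟩, fun e => ?_⟩
    simp only [Finset.sum_empty, map_zero, coeff_zero]
    exact gm_zero.symm
  | insert a s ha ih =>
    have h1 := (h a (Finset.mem_insert_self a s)).add
      (ih fun j hj => h j (Finset.mem_insert_of_mem hj))
    rw [Finset.sum_insert ha]
    have h2 : (fun i => ∑ j ∈ insert a s, z j i) = fun i => z a i + ∑ j ∈ s, z j i := by
      funext i
      rw [Finset.sum_insert ha]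
    rw [h2]
    exact h1

private theorem LimCh_powA {z : ℕ → AA k} {w : AA (Gm k)} (h : IsLim z w) (n : ℕ) :
    IsLim (fun i => z i ^ n) (w ^ n) := by
  induction n with
  | zero =>
    have h1 := IsLim.X_pow (k := k) 0
    simpa using h1
  | succ n ih =>
    have h1 := ih.mul h
    simpa [pow_succ] using h1

/-- constants -/
private theorem LimCh_map {z : ℕ → PowerSeries k} {w : PowerSeries (Gm k)} (h : IsLimS z w) :
    IsLimS (fun i => PowerSeries.map (algebraMap k (Om k)) (z i))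
      (PowerSeries.map (algebraMap (Gm k) (Gm (Om k))) w) := by
  intro m
  rw [PowerSeries.coeff_map, h m, algebraMap_gm]
  congr 1

/-- the quotient by `X ^ N` -/
private noncomputable def LimCh_sh {K : Type u} [Field K] (N : ℕ) (z : PowerSeries K) :
    PowerSeries K := PowerSeries.mk fun n => PowerSeries.coeff (n + N) z

private theorem LimCh_sh_mul {K : Type u} [Field K] (N : ℕ) (q : PowerSeries K) :
    LimCh_sh N (PowerSeries.X ^ N * q) = q := by
  ext n
  rw [LimCh_sh, PowerSeries.coeff_mk, PowerSeries.coeff_X_pow_mul]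

private theorem LimCh_shift {K : Type u} [Field K] {z : ℕ → PowerSeries K}
    {w : PowerSeries (Gm K)} {N : ℕ} (h : IsLimS z (PowerSeries.X ^ N * w)) :
    IsLimS (fun i => LimCh_sh N (z i)) w ∧
      ∀ᶠ i in Uf, z i = PowerSeries.X ^ N * LimCh_sh N (z i) := by
  constructor
  · intro m
    have h1 := h (m + N)
    rw [PowerSeries.coeff_X_pow_mul] at h1
    rw [h1]
    congr 1
    funext i
    change _ = PowerSeries.coeff m (PowerSeries.mk fun n => PowerSeries.coeff (n + N) (z i))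
    rw [PowerSeries.coeff_mk]
  · have h1 := (isLimS_dvd h N).1 (dvd_mul_right _ _)
    filter_upwards [h1] with i hi
    obtain ⟨q, hq⟩ := hi
    rw [hq, LimCh_sh_mul]

/-- the second component of a chart -/
private theorem LimCh_eval {R : Type*} [CommRing R] {k' : Type u} [CommRing k'] [Algebra k' R]
    (P : Fin 2 → PowerSeries R) (p : Polynomial (PowerSeries k')) :
    ev P (p.eval₂ cA (xA 0)) = ∑ j ∈ Finset.range (p.natDegree + 1),
      PowerSeries.map (algebraMap k' R) (p.coeff j) * P 0 ^ j := by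
  rw [Polynomial.eval₂_eq_sum_range, ← evH_apply, map_sum]
  refine Finset.sum_congr rfl fun j _ => ?_
  rw [map_mul, map_pow, evH_apply, evH_apply, ev_cA, ev_xA]

/-- limits of polynomials -/
private theorem LimCh_poly (p : Polynomial (PowerSeries (Gm k))) (N₀ : ℕ)
    (hp : ∀ j, 1 ≤ j → PowerSeries.X ^ N₀ ∣ p.coeff j) :
    ∃ a : ℕ → ℕ → PowerSeries k, (∀ j, IsLimS (a j) (p.coeff j)) ∧
      ∀ j, 1 ≤ j → ∀ i, PowerSeries.X ^ N₀ ∣ a j i := by
  have h : ∀ j, ∃ a : ℕ → PowerSeries k, IsLimS a (p.coeff j) ∧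
      (1 ≤ j → ∀ i, PowerSeries.X ^ N₀ ∣ a i) := by
    intro j
    rcases Nat.eq_zero_or_pos j with rfl | hj
    · obtain ⟨z, hz⟩ := exists_seqS (p.coeff 0)
      exact ⟨z, hz, fun h => absurd h (by omega)⟩
    · obtain ⟨q, hq⟩ := hp j hj
      obtain ⟨z, hz⟩ := exists_seqS q
      refine ⟨fun i => PowerSeries.X ^ N₀ * z i, ?_, fun _ i => dvd_mul_right _ _⟩
      rw [hq]
      exact (IsLimS.X_pow N₀).mul hz
  choose a h1 h2 using h
  exact ⟨a, h1, h2⟩

/-- the approximating polynomials -/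
private noncomputable def LimCh_pol (d : ℕ) (a : ℕ → PowerSeries k) : Polynomial (PowerSeries k) :=
  ∑ j ∈ Finset.range (d + 1), Polynomial.monomial j (a j)

private theorem LimCh_pol_coeff (d : ℕ) (a : ℕ → PowerSeries k) (j : ℕ) :
    (LimCh_pol d a).coeff j = if j < d + 1 then a j else 0 := by
  unfold LimCh_pol
  rw [Polynomial.finsetSum_coeff]
  simp only [Polynomial.coeff_monomial]
  rw [Finset.sum_ite_eq']
  simp only [Finset.mem_range]

private theorem LimCh_pol_eval {S : Type*} [CommRing S] (φ : PowerSeries k →+* S) (y : S) (d : ℕ)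
    (a : ℕ → PowerSeries k) :
    (LimCh_pol d a).eval₂ φ y = ∑ j ∈ Finset.range (d + 1), φ (a j) * y ^ j := by
  unfold LimCh_pol
  rw [Polynomial.eval₂_finsetSum]
  refine Finset.sum_congr rfl fun j _ => ?_
  rw [Polynomial.eval₂_monomial]

private theorem LimCh_ev_pol {R : Type*} [CommRing R] [Algebra k R] (P : Fin 2 → PowerSeries R)
    (d : ℕ) (a : ℕ → PowerSeries k) :
    ev P ((LimCh_pol d a).eval₂ cA (xA 0)) = ∑ j ∈ Finset.range (d + 1),
      PowerSeries.map (algebraMap k R) (a j) * P 0 ^ j := by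
  rw [LimCh_pol_eval, ← evH_apply, map_sum]
  refine Finset.sum_congr rfl fun j _ => ?_
  rw [map_mul, map_pow, evH_apply, evH_apply, ev_cA, ev_xA]

/-- lifting along one chart -/
private theorem LimCh_step (c : PowerSeries (Gm k)) (p : Polynomial (PowerSeries (Gm k)))
    (N₀ N₁ : ℕ) (hp : ∀ j, 1 ≤ j → PowerSeries.X ^ N₀ ∣ p.coeff j)
    (P : ℕ → Fin 2 → PowerSeries (Om k)) (w : Fin 2 → PowerSeries (Gm k))
    (hP : IsLimP P (ratP (fun j => ev w (chA c p N₀ N₁ j)))) :
    ∃ (c' : ℕ → PowerSeries k) (p' : ℕ → Polynomial (PowerSeries k))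
      (P' : ℕ → Fin 2 → PowerSeries (Om k)),
      (∀ i j, 1 ≤ j → PowerSeries.X ^ N₀ ∣ (p' i).coeff j) ∧
      (∀ j, IsLim (fun i => chA (c' i) (p' i) N₀ N₁ j) (chA c p N₀ N₁ j)) ∧
      IsLimP P' (ratP w) ∧
      ∀ᶠ i in Uf, P i = fun j => ev (P' i) (chA (c' i) (p' i) N₀ N₁ j) := by
  obtain ⟨c', hc'⟩ := exists_seqS c
  obtain ⟨a, ha, hdvd⟩ := LimCh_poly p N₀ hp
  set d := p.natDegree with hd
  have hw0 : ev w (chA c p N₀ N₁ 0) = c + PowerSeries.X ^ N₀ * w 0 := by
    change ev w (cA c + PowerSeries.X ^ N₀ * xA 0) = _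
    rw [ev_add, ev_mul, ev_pow, ev_X, ev_xA, ev_cA]
    congr 1
  have hw1 : ev w (chA c p N₀ N₁ 1) = (∑ j ∈ Finset.range (d + 1), p.coeff j * w 0 ^ j) +
      PowerSeries.X ^ N₁ * w 1 := by
    change ev w (p.eval₂ cA (xA 0) + PowerSeries.X ^ N₁ * xA 1) = _
    rw [ev_add, ev_mul, ev_pow, ev_X, ev_xA, LimCh_eval]
    congr 1
  have hP0 := hP 0
  have hP1 := hP 1
  -- the first component
  have h0 : IsLimS (fun i => P i 0 - PowerSeries.map (algebraMap k (Om k)) (c' i))
      (PowerSeries.X ^ N₀ * ratP w 0) := by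
    have h1 : PowerSeries.X ^ N₀ * ratP w 0 = ratP (fun j => ev w (chA c p N₀ N₁ j)) 0 -
        PowerSeries.map (algebraMap (Gm k) (Gm (Om k))) c := by
      change _ * PowerSeries.map (algebraMap (Gm k) (Gm (Om k))) (w 0) =
        PowerSeries.map (algebraMap (Gm k) (Gm (Om k))) (ev w (chA c p N₀ N₁ 0)) - _
      rw [hw0, map_add, map_mul, map_pow, PowerSeries.map_X]
      ring
    rw [h1]
    exact LimCh_sub hP0 (LimCh_map hc')
  obtain ⟨hQ0, hE0⟩ := LimCh_shift h0
  set Q0 : ℕ → PowerSeries (Om k) := fun i =>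
    LimCh_sh N₀ (P i 0 - PowerSeries.map (algebraMap k (Om k)) (c' i)) with hQ0d
  -- the second component
  have h1 : IsLimS (fun i => P i 1 - ∑ j ∈ Finset.range (d + 1),
      PowerSeries.map (algebraMap k (Om k)) (a j i) * Q0 i ^ j)
      (PowerSeries.X ^ N₁ * ratP w 1) := by
    have h2 : PowerSeries.X ^ N₁ * ratP w 1 = ratP (fun j => ev w (chA c p N₀ N₁ j)) 1 -
        ∑ j ∈ Finset.range (d + 1),
          PowerSeries.map (algebraMap (Gm k) (Gm (Om k))) (p.coeff j) * ratP w 0 ^ j := by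
      change _ * PowerSeries.map (algebraMap (Gm k) (Gm (Om k))) (w 1) =
        PowerSeries.map (algebraMap (Gm k) (Gm (Om k))) (ev w (chA c p N₀ N₁ 1)) -
        ∑ j ∈ Finset.range (d + 1),
          PowerSeries.map (algebraMap (Gm k) (Gm (Om k))) (p.coeff j) *
            PowerSeries.map (algebraMap (Gm k) (Gm (Om k))) (w 0) ^ j
      rw [hw1, map_add, map_mul, map_pow, PowerSeries.map_X, map_sum]
      simp only [map_mul, map_pow]
      ring
    rw [h2]
    exact LimCh_sub hP1 (LimCh_sum _ fun j _ => (LimCh_map (ha j)).mul (LimCh_pow hQ0 j))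
  obtain ⟨hQ1, hE1⟩ := LimCh_shift h1
  set Q1 : ℕ → PowerSeries (Om k) := fun i =>
    LimCh_sh N₁ (P i 1 - ∑ j ∈ Finset.range (d + 1),
      PowerSeries.map (algebraMap k (Om k)) (a j i) * Q0 i ^ j) with hQ1d
  refine ⟨c', fun i => LimCh_pol d (fun j => a j i), fun i => ![Q0 i, Q1 i], ?_, ?_, ?_, ?_⟩
  · intro i j hj
    rw [LimCh_pol_coeff]
    split_ifs
    · exact hdvd j hj i
    · exact dvd_zero _
  · intro j
    fin_cases j
    · change IsLim (fun i => cA (c' i) + PowerSeries.X ^ N₀ * xA 0)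
        (cA c + PowerSeries.X ^ N₀ * xA 0)
      exact (IsLim.cA hc').add ((IsLim.X_pow N₀).mul (IsLim.xA 0))
    · change IsLim (fun i => (LimCh_pol d fun j => a j i).eval₂ cA (xA 0) +
        PowerSeries.X ^ N₁ * xA 1) (p.eval₂ cA (xA 0) + PowerSeries.X ^ N₁ * xA 1)
      refine IsLim.add ?_ ((IsLim.X_pow N₁).mul (IsLim.xA 1))
      rw [Polynomial.eval₂_eq_sum_range]
      simp only [LimCh_pol_eval]
      exact LimCh_sumA _ fun j _ => (IsLim.cA (ha j)).mul (LimCh_powA (IsLim.xA 0) j)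
  · intro j
    fin_cases j
    · exact hQ0
    · exact hQ1
  · filter_upwards [hE0, hE1] with i hi0 hi1
    funext j
    fin_cases j
    · change P i 0 = ev ![Q0 i, Q1 i] (cA (c' i) + PowerSeries.X ^ N₀ * xA 0)
      rw [ev_add, ev_mul, ev_pow, ev_X, ev_xA, ev_cA]
      change P i 0 = _ + PowerSeries.X ^ N₀ * Q0 i
      rw [← hi0]
      ring
    · change P i 1 = ev ![Q0 i, Q1 i] ((LimCh_pol d fun j => a j i).eval₂ cA (xA 0) +
        PowerSeries.X ^ N₁ * xA 1)
      rw [ev_add, ev_mul, ev_pow, ev_X, ev_xA, LimCh_ev_pol]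
      change P i 1 = (∑ j ∈ Finset.range (d + 1),
        PowerSeries.map (algebraMap k (Om k)) (a j i) * Q0 i ^ j) + PowerSeries.X ^ N₁ * Q1 i
      rw [← hi1]
      ring

theorem isCh_lim {χ : Fin 2 → AA (Gm k)} {N : ℕ} (hχ : IsCh χ N)
    (P : ℕ → Fin 2 → PowerSeries (Om k)) (w : Fin 2 → PowerSeries (Gm k))
    (hP : IsLimP P (ratP (fun j => ev w (χ j)))) :
    ∃ (χ' : ℕ → Fin 2 → AA k) (P' : ℕ → Fin 2 → PowerSeries (Om k)),
      (∀ i, IsCh (χ' i) N) ∧ (∀ j, IsLim (fun i => χ' i j) (χ j)) ∧ IsLimP P' (ratP w) ∧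
      ∀ᶠ i in Uf, P i = fun j => ev (P' i) (χ' i j) := by
  induction hχ generalizing P w with
  | refl =>
    refine ⟨fun _ => xA, P, fun _ => IsCh.refl, fun j => IsLim.xA j, ?_, ?_⟩
    · have h1 : (fun j => ev w (xA j : AA (Gm k))) = w := funext fun j => ev_xA w j
      rw [h1] at hP
      exact hP
    · refine Filter.Eventually.of_forall fun i => funext fun j => ?_
      rw [ev_xA]
  | @swap χ N hχ ih =>
    have h1 : (fun j => ev w (ev (swA (Gm k)) (χ j))) =
        fun j => ev (fun l => ev w (swA (Gm k) l)) (χ j) := funext fun j => ev_ev _ _ _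
    rw [h1] at hP
    obtain ⟨χ', P', h2, h3, h4, h5⟩ := ih P _ hP
    refine ⟨fun i j => ev (swA k) (χ' i j), fun i => ![P' i 1, P' i 0], fun i => (h2 i).swap,
      fun j => IsLim.ev (fun l => ?_) (h3 j), ?_, ?_⟩
    · fin_cases l
      · exact IsLim.xA 1
      · exact IsLim.xA 0
    · intro j
      have f0 : ev w (swA (Gm k) 0) = w 1 := ev_xA w 1
      have f1 : ev w (swA (Gm k) 1) = w 0 := ev_xA w 0
      have e0 : IsLimS (fun i => P' i 0)
          (PowerSeries.map (algebraMap (Gm k) (Gm (Om k))) (ev w (swA (Gm k) 0))) := h4 0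
      have e1 : IsLimS (fun i => P' i 1)
          (PowerSeries.map (algebraMap (Gm k) (Gm (Om k))) (ev w (swA (Gm k) 1))) := h4 1
      rw [f0] at e0
      rw [f1] at e1
      fin_cases j
      · exact e1
      · exact e0
    · filter_upwards [h5] with i hi
      rw [hi]
      funext j
      rw [ev_ev]
      congr 1
      funext l
      fin_cases l
      · change P' i 0 = ev ![P' i 1, P' i 0] (xA 1)
        rw [ev_xA]
        rfl
      · change P' i 1 = ev ![P' i 1, P' i 0] (xA 0)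
        rw [ev_xA]
        rfl
  | @step χ N c p N₀ N₁ hχ hp ih =>
    have h1 : (fun j => ev w (ev (chA c p N₀ N₁) (χ j))) =
        fun j => ev (fun l => ev w (chA c p N₀ N₁ l)) (χ j) := funext fun j => ev_ev _ _ _
    rw [h1] at hP
    obtain ⟨χ', P', h2, h3, h4, h5⟩ := ih P _ hP
    obtain ⟨c', p', P'', g1, g2, g3, g4⟩ := LimCh_step c p N₀ N₁ hp P' w h4
    refine ⟨fun i j => ev (chA (c' i) (p' i) N₀ N₁) (χ' i j), P'',
      fun i => (h2 i).step (c' i) (p' i) N₀ N₁ (g1 i),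
      fun j => IsLim.ev g2 (h3 j), g3, ?_⟩
    filter_upwards [h5, g4] with i hi hi'
    rw [hi]
    funext j
    rw [ev_ev, ← hi']

variable {r : ℕ} {J : Type} {lam : Fin r → ℝ} {grp : J → Fin r} {c : ℕ → J → AA k}
  {P : ℕ → Fin 2 → PowerSeries (Om k)} {C : ℕ → ℕ} {n : ℕ → Fin r → ℕ}

theorem adm_isCh (hA : Adm grp c P C n) {χ' : ℕ → Fin 2 → AA k} {N : ℕ}
    (hχ : ∀ i, IsCh (χ' i) N) {P' : ℕ → Fin 2 → PowerSeries (Om k)}
    (hP : ∀ᶠ i in Uf, P i = fun j => ev (P' i) (χ' i j)) :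
    (∀ᶠ i in Uf, N ≤ C i) ∧
      Adm grp (fun i h => ev (χ' i) (c i h)) P' (fun i => C i - N) n := by
  have h1 : ∀ᶠ i in Uf, N ≤ C i ∧ Cod k (P' i) (C i - N) ∧
      OrdGe grp (fun h => ev (χ' i) (c i h)) (P' i) (n i) := by
    filter_upwards [hA, hP] with i hi hi'
    rw [hi'] at hi
    obtain ⟨h2, h3⟩ := cod_isCh_inv (hχ i) hi.1
    refine ⟨h2, h3, fun h => ?_⟩
    rw [ev_ev]
    exact hi.2 h
  exact ⟨h1.mono fun i hi => hi.1, h1.mono fun i hi => hi.2⟩

theorem dom_isCh {χ' : ℕ → Fin 2 → AA k} {N : ℕ} (hχ : ∀ i, IsCh (χ' i) N)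
    (hN : ∀ᶠ i in Uf, N ≤ C i)
    (hD : Dom lam grp (fun i h => ev (χ' i) (c i h)) (fun i => C i - N) n) :
    Dom lam grp c C n := by
  obtain ⟨ℓ, hℓ⟩ := hD
  refine ⟨ℓ + N, ?_⟩
  filter_upwards [hℓ, hN] with i hi hi'
  obtain ⟨Q, C', n', h1, h2, h3, h4, h5⟩ := hi
  refine ⟨fun j => ev Q (χ' i j), C' + N, n', by omega, fun j => (h2 j).trans (by omega),
    cod_isCh (hχ i) h3, fun h => ?_, ?_⟩
  · have h6 := h4 h
    rw [ev_ev] at h6
    exact h6
  · push_cast [Nat.cast_sub hi'] at h5 ⊢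
    linarith

theorem adm_div (hA : Adm grp c P C n) {c' : ℕ → J → AA k} (e : ℕ → Fin r → ℕ)
    (hc : ∀ᶠ i in Uf, ∀ h, c i h = PowerSeries.X ^ e i (grp h) * c' i h) :
    Adm grp c' P C (fun i j => n i j - e i j) := by
  filter_upwards [hA, hc] with i hi hi'
  refine ⟨hi.1, fun h => ?_⟩
  have h1 := hi.2 h
  rw [hi' h, ev_mul, ev_pow, ev_X] at h1
  rcases Nat.lt_or_ge (n i (grp h)) (e i (grp h)) with h2 | h2
  · have h3 : n i (grp h) - e i (grp h) = 0 := by omega
    change PowerSeries.X ^ (n i (grp h) - e i (grp h)) ∣ _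
    rw [h3, pow_zero]
    exact one_dvd _
  · change PowerSeries.X ^ (n i (grp h) - e i (grp h)) ∣ _
    have h3 : n i (grp h) = e i (grp h) + (n i (grp h) - e i (grp h)) := by omega
    rw [h3, pow_add] at h1
    exact (mul_dvd_mul_iff_left (pow_ne_zero _ PowerSeries.X_ne_zero)).1 h1

theorem dom_mul (hlam : ∀ j, 0 ≤ lam j) {c' : ℕ → J → AA k} (e : Fin r → ℕ)
    (hc : ∀ᶠ i in Uf, ∀ h, c i h = PowerSeries.X ^ e (grp h) * c' i h)
    (hD : Dom lam grp c' C (fun i j => n i j - e j)) : Dom lam grp c C n := by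
  obtain ⟨ℓ, hℓ⟩ := hD
  refine ⟨ℓ + ∑ j, e j, ?_⟩
  filter_upwards [hℓ, hc] with i hi hi'
  obtain ⟨Q, C', n', h1, h2, h3, h4, h5⟩ := hi
  refine ⟨Q, C', fun j => n' j + e j, by omega, fun j => ?_, h3, fun h => ?_, ?_⟩
  · have h6 : e j ≤ ∑ j, e j := Finset.single_le_sum (fun _ _ => Nat.zero_le _) (Finset.mem_univ j)
    have h7 := h2 j
    change n' j + e j ≤ _
    omega
  · change PowerSeries.X ^ (n' (grp h) + e (grp h)) ∣ _
    rw [hi' h, ev_mul, ev_pow, ev_X, pow_add, mul_comm]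
    exact mul_dvd_mul_left _ (h4 h)
  · have h6 : ∑ j, lam j * (n i j : ℝ) ≤ ∑ j, lam j * ((n i j - e j : ℕ) : ℝ) +
        ∑ j, lam j * (e j : ℝ) := by
      rw [← Finset.sum_add_distrib]
      refine Finset.sum_le_sum fun j _ => ?_
      rw [← mul_add]
      refine mul_le_mul_of_nonneg_left ?_ (hlam j)
      have h8 : n i j ≤ (n i j - e j) + e j := by omega
      exact_mod_cast h8
    have h7 : ∑ j, lam j * ((n' j + e j : ℕ) : ℝ) = ∑ j, lam j * (n' j : ℝ) +
        ∑ j, lam j * (e j : ℝ) := by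
      rw [← Finset.sum_add_distrib]
      refine Finset.sum_congr rfl fun j _ => ?_
      push_cast
      ring
    rw [h7]
    linarith

/-- sequences with nonnegative value for almost all indices are dominated by a generic arc -/
theorem dom_of_nonneg (h : ∀ᶠ i in Uf, 0 ≤ (C i : ℝ) - ∑ j, lam j * n i j) :
    Dom lam grp c C n := by
  obtain ⟨Q, hQ⟩ := exists_generic k
  refine ⟨0, h.mono fun i hi => ⟨Q, 0, fun _ => 0, le_refl _, fun _ => le_refl _, hQ,
    fun h => ?_, ?_⟩⟩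
  · rw [pow_zero]
    exact one_dvd _
  · simpa using hi

/-- constant bounds: a sequence with bounded codimension and orders is dominated by itself -/
theorem dom_of_bdd (hA : Adm grp c P C n) (ℓ : ℕ) (hC : ∀ᶠ i in Uf, C i ≤ ℓ)
    (hn : ∀ᶠ i in Uf, ∀ j, n i j ≤ ℓ) : Dom lam grp c C n := by
  refine ⟨ℓ, ?_⟩
  filter_upwards [hA, hC, hn] with i h1 h2 h3
  exact ⟨P i, C i, n i, h2, h3, h1.1, h1.2, le_refl _⟩

/-- domination by sequences with bounded data, existence of the arc over any extension field -/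
theorem dom_of_arc (ℓ : ℕ)
    (h : ∀ᶠ i in Uf, ∃ (L : Type u) (_ : Field L) (_ : Algebra k L) (Q : Fin 2 → PowerSeries L)
      (C' : ℕ) (n' : Fin r → ℕ), C' ≤ ℓ ∧ (∀ j, n' j ≤ ℓ) ∧ Cod k Q C' ∧
        OrdGe grp (c i) Q n' ∧ (C' : ℝ) - ∑ j, lam j * n' j ≤ C i - ∑ j, lam j * n i j) :
    Dom lam grp c C n := by
  refine ⟨ℓ, ?_⟩
  filter_upwards [h] with i hi
  obtain ⟨L, _, _, Q, C', n', h1, h2, h3, h4, h5⟩ := hi
  obtain ⟨Q', h6, h7⟩ := exists_Om (k := k) Q
  exact ⟨Q', C', n', h1, h2, fun m => h6 m C' (h3 m), fun h => (h7 (c i h) _).1 (h4 h), h5⟩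

end

end M3
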