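import Pool.Agent.M3.HomP

/-!
PIECE M3-G04: masses of factors of weighted homogeneous families.

PROOF. Let `p` be irreducible; for `j : Fin r` let `B_p j` be the largest `B` such that `p^B ∣ F h` for all `h` in the group `j`
(exists since some `F h ≠ 0`); so for every `j` some `h` in the group has `¬ p^(B_p j + 1) ∣ F h`, and
`m_p := ∑ lam j * B_p j` is the mass.  If all `B_p j = 0` then `m_p = 0 < t`: `MLe`, `MLt` hold.  So let
`B_p j ≥ 1` for some `j`: then `p` divides some `F h ≠ 0`, and it is homogeneous (`hom_dvd`), of weight `δ`.  For all `j`: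
`B_p j * δ ≤ d j` (`p^(B_p j)` divides a nonzero `F h` of weight `d j`).  If `p` is associated to `X 0` or `X 1` then `m_p < t` by
`mx`, `my`.  Otherwise `X 0 ∤ p`, `X 1 ∤ p`, so `p` has a monomial `X 1^(β)` and a monomial `X 0^(α)` (a homogeneous
polynomial not divisible by `X 0` has a monomial with exponent `0` of `X 0`), `a α = b β = δ`, so `δ = a b n`, `n ≥ 1`
(coprime).  So `a b n m_p ≤ ∑ lam j d j = (a + b) t`.
Suppose `m_p ≥ t`: `a b n ≤ a + b`.  If `a ≥ 2`: `b > a` (coprime, `a ≤ b`), so `a b ≥ 2 b > a + b`, a contradiction.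
So `a = 1`: `b n ≤ 1 + b`.
 - `n = 1`: `p = u (X 1 - c X 0^b)` with `u, c ∈ K`, `u ≠ 0`, `c ≠ 0` (the only monomials of weight `b` are
   `X 0^b`, `X 1` if `b ≥ 2`, and for `b = 1` also only `X 0`, `X 1`).  This is the second alternative with `B := B_p` (note
   `t ≤ m_p`).
 - `n ≥ 2`: `2 b ≤ b n ≤ 1 + b` so `b = 1`, `n = 2`, and `2 m_p ≤ 2 t`, so `m_p = t`: `MLe` holds and `b = 1`.
So if the second alternative does not hold, then for all irreducible `p`: `m_p < t`, or `b = 1` and `m_p ≤ t`.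
-/

open MvPolynomial

namespace M3

universe u

private lemma MassAlt_wt {a b : ℕ} (e : Fin 2 →₀ ℕ) : Finsupp.weight ![a, b] e = wt a b e := by
  rw [Finsupp.weight_apply, Finsupp.sum_fintype _ _ (by simp), Fin.sum_univ_two]
  simp [wt, mul_comm]

private lemma MassAlt_iff {K : Type u} [Field K] {a b d : ℕ} {p : MvPolynomial (Fin 2) K} :
    HomW a b d p ↔ IsWeightedHomogeneous ![a, b] p d := by
  constructor
  · intro h e he
    rw [MassAlt_wt]
    exact h e he
  · intro h e he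
    rw [← MassAlt_wt]
    exact h he

private lemma MassAlt_zero {K : Type u} [Field K] {p : MvPolynomial (Fin 2) K} {i : Fin 2}
    (h : ¬ X i ∣ p) : ∃ e, coeff e p ≠ 0 ∧ e i = 0 := by
  by_contra hcon
  push Not at hcon
  apply h
  rw [X_dvd_iff_modMonomial_eq_zero]
  ext e
  rw [coeff_zero]
  by_cases he : Finsupp.single i 1 ≤ e
  · exact coeff_modMonomial_of_le _ he
  · rw [coeff_modMonomial_of_not_le _ he]
    by_contra hc
    apply he
    rw [Finsupp.single_le_iff]
    exact Nat.one_le_iff_ne_zero.mpr (hcon e hc)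

private lemma MassAlt_pow {K : Type u} [Field K] {a b d δ B : ℕ} (ha : 0 < a) (hb : 0 < b)
    {p F : MvPolynomial (Fin 2) K} (hF : F ≠ 0) (hom : HomW a b d F) (hp : HomW a b δ p)
    (h : p ^ B ∣ F) : B * δ ≤ d := by
  obtain ⟨q, hq⟩ := h
  obtain ⟨e, he⟩ := hom_dvd ha hb hF hom (p := q) ⟨p ^ B, by rw [hq, mul_comm]⟩
  have h1 := ((MassAlt_iff.mp hp).pow B).mul (MassAlt_iff.mp he)
  rw [← hq] at h1
  have h2 := h1.inj_right hF (MassAlt_iff.mp hom)
  rw [smul_eq_mul] at h2
  omega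

private lemma MassAlt_mult {K : Type u} [Field K] {r : ℕ} {J : Type} {grp : J → Fin r}
    {F : J → MvPolynomial (Fin 2) K} (ne : ∀ j, ∃ h, grp h = j ∧ F h ≠ 0)
    {p : MvPolynomial (Fin 2) K} (hp : Irreducible p) :
    ∃ B : Fin r → ℕ, (∀ h, p ^ B (grp h) ∣ F h) ∧
      ∀ j, ∃ h, grp h = j ∧ ¬ p ^ (B j + 1) ∣ F h := by
  classical
  have hex : ∀ j, ∃ n, ∃ h, grp h = j ∧ ¬ p ^ (n + 1) ∣ F h := by
    intro j
    obtain ⟨h, h1, h2⟩ := ne j
    obtain ⟨n, hn⟩ := FiniteMultiplicity.of_not_isUnit hp.not_isUnit h2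
    exact ⟨n, h, h1, hn⟩
  refine ⟨fun j => Nat.find (hex j), fun h => ?_, fun j => Nat.find_spec (hex j)⟩
  rcases Nat.eq_zero_or_pos (Nat.find (hex (grp h))) with h0 | h0
  · show p ^ Nat.find (hex (grp h)) ∣ F h
    rw [h0, pow_zero]
    exact one_dvd _
  · show p ^ Nat.find (hex (grp h)) ∣ F h
    have h1 := Nat.find_min (hex (grp h)) (m := Nat.find (hex (grp h)) - 1) (by omega)
    push Not at h1
    have h2 := h1 h rfl
    rwa [Nat.sub_add_cancel h0] at h2

private lemma MassAlt_assoc {K : Type u} [Field K] {r : ℕ} {J : Type} {lam : Fin r → ℝ}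
    (hlam : ∀ j, 0 < lam j) {grp : J → Fin r} {F : J → MvPolynomial (Fin 2) K} {t : ℝ}
    {p q : MvPolynomial (Fin 2) K} (hq : q ∣ p) (mx : MLt lam grp F q t) {B : Fin r → ℕ}
    (hB : ∀ h, p ^ B (grp h) ∣ F h) : ∑ j, lam j * B j < t := by
  obtain ⟨B', h1, h2⟩ := mx
  refine lt_of_le_of_lt (Finset.sum_le_sum fun j _ => ?_) h2
  apply mul_le_mul_of_nonneg_left _ (hlam j).le
  obtain ⟨h, h3, h4⟩ := h1 j
  have h5 := hB h
  rw [h3] at h5
  exact_mod_cast mult_le h4 ((pow_dvd_pow_of_dvd hq _).trans h5)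

private lemma MassAlt_key {K : Type u} [Field K] {r : ℕ} {J : Type} {a b : ℕ} (ha : 0 < a)
    (hab : a ≤ b) (hcop : Nat.Coprime a b) {lam : Fin r → ℝ} (hlam : ∀ j, 0 < lam j)
    {grp : J → Fin r} {d : Fin r → ℕ} {F : J → MvPolynomial (Fin 2) K}
    (hom : ∀ h e, coeff e (F h) ≠ 0 → wt a b e = d (grp h))
    (ne : ∀ j, ∃ h, grp h = j ∧ F h ≠ 0) {t : ℝ} (ht : 0 < t)
    (sum : ∑ j, lam j * d j = (a + b) * t) (mx : MLt lam grp F (X 0) t)
    (my : MLt lam grp F (X 1) t) {p : MvPolynomial (Fin 2) K} (hp : Irreducible p)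
    {B : Fin r → ℕ} (hB : ∀ h, p ^ B (grp h) ∣ F h)
    (hB' : ∀ j, ∃ h, grp h = j ∧ ¬ p ^ (B j + 1) ∣ F h) :
    ∑ j, lam j * B j < t ∨ (b = 1 ∧ ∑ j, lam j * B j ≤ t) ∨
    (a = 1 ∧ ∃ (c : K) (B : Fin r → ℕ), c ≠ 0 ∧ (∀ h, (X 1 - C c * X 0 ^ b) ^ B (grp h) ∣ F h) ∧
      (∀ j, ∃ h, grp h = j ∧ ¬ (X 1 - C c * X 0 ^ b) ^ (B j + 1) ∣ F h) ∧
      t ≤ ∑ j, lam j * B j) := by
  have hb : 0 < b := ha.trans_le hab
  by_cases hall : ∀ j, B j = 0
  · left
    simp only [hall, Nat.cast_zero, mul_zero, Finset.sum_const_zero]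
    exact ht
  push Not at hall
  obtain ⟨j0, hj0⟩ := hall
  by_cases hx : (X 0 : MvPolynomial (Fin 2) K) ∣ p
  · exact Or.inl (MassAlt_assoc hlam hx mx hB)
  by_cases hy : (X 1 : MvPolynomial (Fin 2) K) ∣ p
  · exact Or.inl (MassAlt_assoc hlam hy my hB)
  by_cases hm : ∑ j, lam j * B j < t
  · exact Or.inl hm
  rw [not_lt] at hm
  right
  obtain ⟨h0, hh0, hF0⟩ := ne j0
  have hp0 : p ∣ F h0 := by
    have h1 := hB h0
    rw [hh0] at h1
    exact (dvd_pow_self p hj0).trans h1
  obtain ⟨δ, hδ⟩ := hom_dvd ha hb hF0 (hom h0) hp0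
  have hle : ∀ j, B j * δ ≤ d j := by
    intro j
    obtain ⟨h, h1, h2⟩ := ne j
    have h3 := hB h
    rw [h1] at h3
    have h4 := MassAlt_pow ha hb h2 (hom h) hδ h3
    rwa [h1] at h4
  have hsum : (δ : ℝ) * ∑ j, lam j * B j ≤ (a + b) * t := by
    rw [← sum, Finset.mul_sum]
    refine Finset.sum_le_sum fun j _ => ?_
    have h1 : ((B j * δ : ℕ) : ℝ) ≤ d j := by exact_mod_cast hle j
    push_cast at h1
    nlinarith [hlam j]
  obtain ⟨e1, he1, he1'⟩ := MassAlt_zero hx
  obtain ⟨e0, he0, he0'⟩ := MassAlt_zero hy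
  have w1 := hδ e1 he1
  have w0 := hδ e0 he0
  rw [wt, he1', mul_zero, zero_add] at w1
  rw [wt, he0', mul_zero, add_zero] at w0
  have hdv : a ∣ e1 1 := by
    have h1 : a ∣ b * e1 1 := by rw [w1, ← w0]; exact dvd_mul_right _ _
    exact hcop.dvd_of_dvd_mul_left h1
  obtain ⟨n, hn⟩ := hdv
  have hδn : δ = a * b * n := by rw [← w1, hn]; ring
  have hn0 : 0 < n := by
    rcases Nat.eq_zero_or_pos n with h | h
    · exfalso
      rw [h, mul_zero] at hδn
      apply hp.not_isUnit
      have hc : p = C (coeff 0 p) := by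
        ext e
        rw [coeff_C]
        by_cases he : (0 : Fin 2 →₀ ℕ) = e
        · rw [if_pos he, he]
        · rw [if_neg he]
          by_contra hne
          have h1 := hδ e hne
          rw [hδn, wt] at h1
          apply he
          have h2 : e 0 = 0 := by
            by_contra h0
            have : 0 < a * e 0 := Nat.mul_pos ha (Nat.pos_of_ne_zero h0)
            omega
          have h3 : e 1 = 0 := by
            by_contra h0
            have : 0 < b * e 1 := Nat.mul_pos hb (Nat.pos_of_ne_zero h0)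
            omega
          ext i
          fin_cases i
          · simp [h2]
          · simp [h3]
      have h00 : coeff 0 p ≠ 0 := by
        intro h0
        rw [h0, C_0] at hc
        exact hp.ne_zero hc
      rw [hc]
      exact (IsUnit.mk0 _ h00).map C
    · exact h
  have hkey : a * b * n ≤ a + b := by
    have h1 : ((a * b * n : ℕ) : ℝ) * t ≤ (a + b) * t := by
      rw [← hδn]
      refine le_trans ?_ hsum
      exact mul_le_mul_of_nonneg_left hm (Nat.cast_nonneg _)
    have h2 : ((a * b * n : ℕ) : ℝ) ≤ ((a + b : ℕ) : ℝ) := by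
      push_cast at h1 ⊢
      exact le_of_mul_le_mul_right h1 ht
    exact_mod_cast h2
  have hab1 : a * b ≤ a + b := by nlinarith
  have ha1 : a = 1 := by
    by_contra hne
    have h2 : 2 ≤ a := by omega
    have h3 : a ≠ b := by
      intro h
      rw [h, Nat.coprime_self] at hcop
      omega
    have h4 : a < b := lt_of_le_of_ne hab h3
    nlinarith
  subst ha1
  rw [one_mul] at hδn hkey
  by_cases hn1 : n = 1
  · right
    refine ⟨rfl, ?_⟩
    rw [hn1, mul_one] at hδn
    have q1 : e1 = Finsupp.single 1 1 := by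
      have h1 : e1 1 = 1 := by rw [hn, hn1]
      ext i
      fin_cases i
      · simpa using he1'
      · simpa using h1
    have q0 : e0 = Finsupp.single 0 b := by
      have h1 : e0 0 = b := by rw [← hδn, ← w0, one_mul]
      ext i
      fin_cases i
      · simpa using h1
      · simpa using he0'
    have hpe : p = C (coeff e1 p) * X 1 + C (coeff e0 p) * X 0 ^ b := by
      have m1 : (C (coeff e1 p) * X 1 : MvPolynomial (Fin 2) K) = monomial e1 (coeff e1 p) := by
        rw [q1, C_mul_X_eq_monomial]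
      have m0 : (C (coeff e0 p) * X 0 ^ b : MvPolynomial (Fin 2) K) =
          monomial e0 (coeff e0 p) := by
        rw [q0, C_mul_X_pow_eq_monomial]
      rw [m1, m0]
      ext e
      rw [coeff_add, coeff_monomial, coeff_monomial]
      have hne10 : e1 ≠ e0 := by
        intro h
        have := DFunLike.congr_fun h 1
        rw [q1, q0] at this
        simp at this
      by_cases h1 : e1 = e
      · subst h1
        rw [if_pos rfl, if_neg hne10.symm, add_zero]
      · rw [if_neg h1, zero_add]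
        by_cases h2 : e0 = e
        · subst h2
          rw [if_pos rfl]
        · rw [if_neg h2]
          by_contra hc
          have h3 := hδ e hc
          rw [hδn, wt, one_mul] at h3
          have h4 : e 1 ≤ 1 := by nlinarith [Nat.zero_le (e 0)]
          interval_cases h5 : e 1
          · apply h2
            rw [q0]
            ext i
            fin_cases i
            · simp
              omega
            · simp [h5]
          · apply h1
            rw [q1]
            ext i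
            fin_cases i
            · simp
              omega
            · simp [h5]
    have hq : p = C (coeff e1 p) * (X 1 - C (-(coeff e0 p / coeff e1 p)) * X 0 ^ b) := by
      rw [mul_sub, ← mul_assoc, ← C_mul]
      have h1 : coeff e1 p * -(coeff e0 p / coeff e1 p) = - coeff e0 p := by
        field_simp
      rw [h1, C_neg]
      nth_rewrite 1 [hpe]
      ring
    have hass : Associated p (X 1 - C (-(coeff e0 p / coeff e1 p)) * X 0 ^ b) := by
      have hu : IsUnit (C (coeff e1 p) : MvPolynomial (Fin 2) K) := (IsUnit.mk0 _ he1).map C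
      nth_rewrite 1 [hq]
      exact associated_unit_mul_left _ _ hu
    refine ⟨-(coeff e0 p / coeff e1 p), B, ?_, fun h => ?_, fun j => ?_, hm⟩
    · exact neg_ne_zero.mpr (div_ne_zero he0 he1)
    · exact ((hass.pow_pow (n := B (grp h))).symm.dvd).trans (hB h)
    · obtain ⟨h, h1, h2⟩ := hB' j
      exact ⟨h, h1, fun h3 => h2 (((hass.pow_pow (n := B j + 1)).dvd).trans h3)⟩
  · left
    have h2 : 2 ≤ n := by omega
    have hb1 : b = 1 := by nlinarith
    subst hb1
    refine ⟨rfl, ?_⟩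
    have h3 : (2 : ℝ) * ∑ j, lam j * B j ≤ 2 * t := by
      have h4 : n = 2 := by omega
      rw [hδn, h4] at hsum
      push_cast at hsum
      linarith
    linarith

theorem mass_alt {K : Type u} [Field K] {r : ℕ} {J : Type} [Fintype J] {a b : ℕ} (ha : 0 < a)
    (hab : a ≤ b) (hcop : Nat.Coprime a b) {lam : Fin r → ℝ} (hlam : ∀ j, 0 < lam j)
    {grp : J → Fin r} {d : Fin r → ℕ} {F : J → MvPolynomial (Fin 2) K}
    (hom : ∀ h e, coeff e (F h) ≠ 0 → wt a b e = d (grp h))
    (ne : ∀ j, ∃ h, grp h = j ∧ F h ≠ 0) {t : ℝ} (ht : 0 < t)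
    (sum : ∑ j, lam j * d j = (a + b) * t) (mx : MLt lam grp F (X 0) t)
    (my : MLt lam grp F (X 1) t) :
    ((∀ p, Irreducible p → MLe lam grp F p t) ∧
      (b = 1 ∨ ∀ p, Irreducible p → MLt lam grp F p t)) ∨
    (a = 1 ∧ ∃ (c : K) (B : Fin r → ℕ), c ≠ 0 ∧ (∀ h, (X 1 - C c * X 0 ^ b) ^ B (grp h) ∣ F h) ∧
      (∀ j, ∃ h, grp h = j ∧ ¬ (X 1 - C c * X 0 ^ b) ^ (B j + 1) ∣ F h) ∧
      t ≤ ∑ j, lam j * B j) := by
  by_cases halt : (a = 1 ∧ ∃ (c : K) (B : Fin r → ℕ), c ≠ 0 ∧
      (∀ h, (X 1 - C c * X 0 ^ b) ^ B (grp h) ∣ F h) ∧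
      (∀ j, ∃ h, grp h = j ∧ ¬ (X 1 - C c * X 0 ^ b) ^ (B j + 1) ∣ F h) ∧
      t ≤ ∑ j, lam j * B j)
  · exact Or.inr halt
  left
  have key : ∀ p, Irreducible p → ∃ B : Fin r → ℕ,
      (∀ j, ∃ h, grp h = j ∧ ¬ p ^ (B j + 1) ∣ F h) ∧
      (∑ j, lam j * B j < t ∨ (b = 1 ∧ ∑ j, lam j * B j ≤ t)) := by
    intro p hp
    obtain ⟨B, h1, h2⟩ := MassAlt_mult ne hp
    refine ⟨B, h2, ?_⟩
    rcases MassAlt_key ha hab hcop hlam hom ne ht sum mx my hp h1 h2 with h | h | h
    · exact Or.inl h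
    · exact Or.inr h
    · exact absurd h halt
  refine ⟨fun p hp => ?_, ?_⟩
  · obtain ⟨B, h1, h2⟩ := key p hp
    exact ⟨B, h1, h2.elim (fun h => h.le) fun h => h.2⟩
  · by_cases hb : b = 1
    · exact Or.inl hb
    · right
      intro p hp
      obtain ⟨B, h1, h2⟩ := key p hp
      exact ⟨B, h1, h2.elim id fun h => absurd h.1 hb⟩

end M3
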