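import Mathlib

/-!
PIECE M3-G02: where the diagonal meets the Newton polygon (purely combinatorial).

The first alternative says: some positive weight has unique minima `v j` on the sets `S j` and
`∑ lam j * v j ≤ (1, 1)`.  The second one: the diagonal crosses the interior of a compact edge with normal vector
`(a, b)`, with end points `∑ lam j * vL j` (above the diagonal) and `∑ lam j * vR j` (below the diagonal).

PROOF. For each `j` the set `M j` of minimal elements of `S j` for the product order is finite (Dickson's lemma,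
`Set.IsPWO`/`Set.PartiallyWellOrderedOn`), and for a positive weight `w` the minima of `w·e` over `S j` are in `M j`.
Let `φ_j(w) := min over M j of w·e` for real `w ≥ 0`, `φ(w) := ∑ lam j φ_j(w)`; `φ` is continuous, concave,
homogeneous, and `φ(w) ≤ w₀ + w₁` for all `w ≥ 0` (integral positive by `h`, rational positive by homogeneity, all
by continuity).
Way 1 (sectors). Let `D` be the finite set of slopes `θ = w₁ / w₀` for which two elements of some `M j` have the same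
weight.  Between two consecutive elements of `D ∪ {0, ∞}` the minimizers `v_j` of all `φ_j` are unique and constant; let
`V^0, V^1, …, V^l` (`V = ∑ lam j v_j`) be these points for the sectors ordered by increasing slope; crossing an
element of `D` the first coordinates weakly increase and the second weakly decrease, and at `w ∈ D` the point
`V^(i-1)` is the one with least first coordinate on the face and `V^i` the one with the least second coordinate
(for each `j`: `vL j`, `vR j`).  If some `V^i ≤ (1, 1)` choose an integral weight in its sector: first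
alternative.  Otherwise: `V^0.1 ≤ 1` (let `w → (1, 0)` in `φ(w) ≤ w₀ + w₁`), so `V^0.2 > 1`; similarly `V^l.2 ≤ 1`,
`V^l.1 > 1`.  Let `i` be minimal with `V^i.2 ≤ 1`; `V^i.1 > 1`, `V^(i-1).2 > 1` and `V^(i-1).1 ≤ 1` (otherwise
`φ(w) > w₀ + w₁` in that sector).  Let `(a, b)` be the coprime integral weight of the slope between the sectors
`i - 1` and `i` (slopes of pairs of points of `ℕ²` are rational and positive), `d j := φ_j(a, b)`,
`t := φ(a, b) / (a + b) ≤ 1`.  `vL`, `vR` as above.  `V^(i-1)` and `V^i` are on the line `a x + b y = (a + b) t`, which contains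
`(t, t)`; `V^(i-1).1 < V^(i-1).2` gives `V^(i-1).1 < t`; `V^i.1 > V^i.2` gives `V^i.2 < t`.  `0 < t` because
`0 ≤ V^(i-1).1 < t`.
Way 2 (compactness): let `θ₀` maximize `φ(1 - θ, θ)` on `[0, 1]` and discuss the faces at `θ₀` (if `θ₀ ∈ {0, 1}`, if the face is
one point or if an end point is on the diagonal one gets the first alternative after a small rational perturbation
of the weight; otherwise the second one; the inequalities `1 < ..` at the end can be forced by taking the first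
alternative when they fail: if `∑ lam (vL j).2 ≤ 1` then `∑ lam (vL j).1 < t ≤ 1` and the points `vL j` are the unique
minima for a weight of slightly smaller slope).
The proof below is by Stern-Brocot descent: for a unimodular pair of weights `w = (p, q)`, `w' = (p', q')` with minima
`v` (above the diagonal) and `v'` (below the diagonal) look at the minima `L`, `R` of the mediant `w + w'`; either one of
them is `≤ (1, 1)`, or the mediant is the weight of the second alternative, or the mediant replaces `w` or `w'` and the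
natural number `∑ (w·v' - w·v) + (w'·v - w'·v')` drops.
-/

namespace M3

private lemma polyg_exMin (S : Set (ℕ × ℕ)) (hS : S.Nonempty) (f g : ℕ × ℕ → ℕ) :
    ∃ v ∈ S, ∀ e ∈ S, f v ≤ f e ∧ (f e = f v → g v ≤ g e) := by
  obtain ⟨v, hv, hvm⟩ : ∃ v ∈ S, ∀ e ∈ S, f v ≤ f e :=
    ⟨Function.argminOn f S hS, Function.argminOn_mem f S hS,
      fun e he => Function.argminOn_le f S he⟩
  have hT : (S ∩ f ⁻¹' {f v}).Nonempty := ⟨v, hv, rfl⟩
  obtain ⟨u, hu, hum⟩ : ∃ u ∈ S ∩ f ⁻¹' {f v}, ∀ e ∈ S ∩ f ⁻¹' {f v}, g u ≤ g e :=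
    ⟨Function.argminOn g _ hT, Function.argminOn_mem g _ hT,
      fun e he => Function.argminOn_le g _ he⟩
  have hu2 : f u = f v := hu.2
  refine ⟨u, hu.1, fun e he => ⟨hu2 ▸ hvm e he, fun h => hum e ⟨he, ?_⟩⟩⟩
  exact h.trans hu2

/-- the first alternative -/
private def polygA {r : ℕ} (lam : Fin r → ℝ) (S : Fin r → Set (ℕ × ℕ)) : Prop :=
  ∃ (w₀ w₁ : ℕ) (v : Fin r → ℕ × ℕ), 0 < w₀ ∧ 0 < w₁ ∧ (∀ j, v j ∈ S j) ∧
      (∀ j, ∀ e ∈ S j, e ≠ v j → w₀ * (v j).1 + w₁ * (v j).2 < w₀ * e.1 + w₁ * e.2) ∧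
      ∑ j, lam j * (v j).1 ≤ 1 ∧ ∑ j, lam j * (v j).2 ≤ 1

/-- the second alternative -/
private def polygB {r : ℕ} (lam : Fin r → ℝ) (S : Fin r → Set (ℕ × ℕ)) : Prop :=
    ∃ (a b : ℕ) (t : ℝ) (d : Fin r → ℕ) (vL vR : Fin r → ℕ × ℕ), 0 < a ∧ 0 < b ∧
      Nat.Coprime a b ∧ 0 < t ∧ t ≤ 1 ∧ ∑ j, lam j * d j = (a + b) * t ∧
      (∀ j, ∀ e ∈ S j, d j ≤ a * e.1 + b * e.2) ∧
      (∀ j, vL j ∈ S j ∧ a * (vL j).1 + b * (vL j).2 = d j ∧
        ∀ e ∈ S j, a * e.1 + b * e.2 = d j → (vL j).1 ≤ e.1) ∧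
      (∀ j, vR j ∈ S j ∧ a * (vR j).1 + b * (vR j).2 = d j ∧
        ∀ e ∈ S j, a * e.1 + b * e.2 = d j → (vR j).2 ≤ e.2) ∧
      ∑ j, lam j * (vL j).1 < t ∧ ∑ j, lam j * (vR j).2 < t ∧
      1 < ∑ j, lam j * (vL j).2 ∧ 1 < ∑ j, lam j * (vR j).1

/-- `v` is the minimum for the weight `(p, q)`, with least second coordinate -/
private def polygR {r : ℕ} (S : Fin r → Set (ℕ × ℕ)) (p q : ℕ) (v : Fin r → ℕ × ℕ) : Prop :=
  ∀ j, v j ∈ S j ∧ ∀ e ∈ S j, p * (v j).1 + q * (v j).2 ≤ p * e.1 + q * e.2 ∧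
    (p * e.1 + q * e.2 = p * (v j).1 + q * (v j).2 → (v j).2 ≤ e.2)

/-- `v` is the minimum for the weight `(p, q)`, with least first coordinate -/
private def polygL {r : ℕ} (S : Fin r → Set (ℕ × ℕ)) (p q : ℕ) (v : Fin r → ℕ × ℕ) : Prop :=
  ∀ j, v j ∈ S j ∧ ∀ e ∈ S j, p * (v j).1 + q * (v j).2 ≤ p * e.1 + q * e.2 ∧
    (p * e.1 + q * e.2 = p * (v j).1 + q * (v j).2 → (v j).1 ≤ e.1)

private lemma polyg_exR {r : ℕ} (S : Fin r → Set (ℕ × ℕ)) (hS : ∀ j, (S j).Nonempty) (p q : ℕ) :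
    ∃ v, polygR S p q v := by
  choose v hv hv' using fun j => polyg_exMin (S j) (hS j) (fun e => p * e.1 + q * e.2) (fun e => e.2)
  exact ⟨v, fun j => ⟨hv j, hv' j⟩⟩

private lemma polyg_exL {r : ℕ} (S : Fin r → Set (ℕ × ℕ)) (hS : ∀ j, (S j).Nonempty) (p q : ℕ) :
    ∃ v, polygL S p q v := by
  choose v hv hv' using fun j => polyg_exMin (S j) (hS j) (fun e => p * e.1 + q * e.2) (fun e => e.1)
  exact ⟨v, fun j => ⟨hv j, hv' j⟩⟩

private lemma polyg_altR {r : ℕ} {lam : Fin r → ℝ} {S : Fin r → Set (ℕ × ℕ)} {p q : ℕ}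
    {v : Fin r → ℕ × ℕ} (hp : 0 < p) (hv : polygR S p q v)
    (h1 : ∑ j, lam j * (v j).1 ≤ 1) (h2 : ∑ j, lam j * (v j).2 ≤ 1) : polygA lam S := by
  obtain ⟨N, hN⟩ : ∃ N : ℕ, ∀ j, (v j).2 < N :=
    ⟨∑ j, (v j).2 + 1, fun j => Nat.lt_succ_of_le
      (Finset.single_le_sum (f := fun j => (v j).2) (fun _ _ => Nat.zero_le _) (Finset.mem_univ j))⟩
  refine ⟨(N + 1) * p, (N + 1) * q + 1, v, by positivity, by positivity, fun j => (hv j).1,
    fun j e he hne => ?_, h1, h2⟩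
  obtain ⟨hle, htie⟩ := (hv j).2 e he
  have hNj := hN j
  rcases hle.lt_or_eq with hlt | heq
  · have : (N + 1) * (p * (v j).1 + q * (v j).2 + 1) ≤ (N + 1) * (p * e.1 + q * e.2) :=
      Nat.mul_le_mul_left _ hlt
    nlinarith
  · have h3 := htie heq.symm
    have h4 : (v j).2 ≠ e.2 := by
      intro h5
      apply hne
      rw [h5] at heq
      have h6 : p * (v j).1 = p * e.1 := by omega
      exact Prod.ext (Nat.eq_of_mul_eq_mul_left hp h6.symm) h5.symm
    have h7 : (v j).2 < e.2 := lt_of_le_of_ne h3 h4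
    have : (N + 1) * (p * (v j).1 + q * (v j).2) = (N + 1) * (p * e.1 + q * e.2) := by rw [heq]
    nlinarith

private lemma polyg_altL {r : ℕ} {lam : Fin r → ℝ} {S : Fin r → Set (ℕ × ℕ)} {p q : ℕ}
    {v : Fin r → ℕ × ℕ} (hq : 0 < q) (hv : polygL S p q v)
    (h1 : ∑ j, lam j * (v j).1 ≤ 1) (h2 : ∑ j, lam j * (v j).2 ≤ 1) : polygA lam S := by
  obtain ⟨N, hN⟩ : ∃ N : ℕ, ∀ j, (v j).1 < N :=
    ⟨∑ j, (v j).1 + 1, fun j => Nat.lt_succ_of_le
      (Finset.single_le_sum (f := fun j => (v j).1) (fun _ _ => Nat.zero_le _) (Finset.mem_univ j))⟩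
  refine ⟨(N + 1) * p + 1, (N + 1) * q, v, by positivity, by positivity, fun j => (hv j).1,
    fun j e he hne => ?_, h1, h2⟩
  obtain ⟨hle, htie⟩ := (hv j).2 e he
  have hNj := hN j
  rcases hle.lt_or_eq with hlt | heq
  · have : (N + 1) * (p * (v j).1 + q * (v j).2 + 1) ≤ (N + 1) * (p * e.1 + q * e.2) :=
      Nat.mul_le_mul_left _ hlt
    nlinarith
  · have h3 := htie heq.symm
    have h4 : (v j).1 ≠ e.1 := by
      intro h5
      apply hne
      rw [h5] at heq
      have h6 : q * (v j).2 = q * e.2 := by omega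
      exact Prod.ext h5.symm (Nat.eq_of_mul_eq_mul_left hq h6.symm)
    have h7 : (v j).1 < e.1 := lt_of_le_of_ne h3 h4
    have : (N + 1) * (p * (v j).1 + q * (v j).2) = (N + 1) * (p * e.1 + q * e.2) := by rw [heq]
    nlinarith

private lemma polyg_sum {r : ℕ} (lam : Fin r → ℝ) (p q : ℕ) (v : Fin r → ℕ × ℕ) :
    ∑ j, lam j * ((p * (v j).1 + q * (v j).2 : ℕ) : ℝ) =
      p * ∑ j, lam j * (v j).1 + q * ∑ j, lam j * (v j).2 := by
  rw [Finset.mul_sum, Finset.mul_sum, ← Finset.sum_add_distrib]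
  refine Finset.sum_congr rfl fun j _ => ?_
  push_cast
  ring

private lemma polyg_main {r : ℕ} {lam : Fin r → ℝ} (hlam : ∀ j, 0 < lam j)
    (S : Fin r → Set (ℕ × ℕ)) (hS : ∀ j, (S j).Nonempty)
    (h : ∀ w₀ w₁ : ℕ, 0 < w₀ → 0 < w₁ → ∀ φ : Fin r → ℕ,
      (∀ j, ∀ e ∈ S j, φ j ≤ w₀ * e.1 + w₁ * e.2) → ∑ j, lam j * φ j ≤ (w₀ : ℝ) + w₁)
    (n : ℕ) : ∀ (p q p' q' : ℕ) (v v' : Fin r → ℕ × ℕ), p * q' = q * p' + 1 →
      polygR S p q v → polygL S p' q' v' →
      ∑ j, lam j * (v j).1 ≤ 1 → 1 < ∑ j, lam j * (v' j).1 →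
      1 < ∑ j, lam j * (v j).2 → ∑ j, lam j * (v' j).2 ≤ 1 →
      ∑ j, ((p * (v' j).1 + q * (v' j).2) + (p' * (v j).1 + q' * (v j).2)) ≤
        n + ∑ j, ((p * (v j).1 + q * (v j).2) + (p' * (v' j).1 + q' * (v' j).2)) →
      polygA lam S ∨ polygB lam S := by
  induction n with
  | zero =>
    intro p q p' q' v v' hdet hv hv' h1 h2 h3 h4 hn
    exfalso
    rw [zero_add] at hn
    have hle : ∀ j ∈ Finset.univ, (p * (v j).1 + q * (v j).2) + (p' * (v' j).1 + q' * (v' j).2) ≤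
        (p * (v' j).1 + q * (v' j).2) + (p' * (v j).1 + q' * (v j).2) := fun j _ =>
      add_le_add ((hv j).2 _ (hv' j).1).1 ((hv' j).2 _ (hv j).1).1
    have heq := (Finset.sum_eq_sum_iff_of_le hle).1 (le_antisymm (Finset.sum_le_sum hle) hn)
    have : ∑ j, lam j * ((v' j).1 : ℝ) ≤ ∑ j, lam j * ((v j).1 : ℝ) := by
      refine Finset.sum_le_sum fun j _ => mul_le_mul_of_nonneg_left ?_ (hlam j).le
      have h5 := heq j (Finset.mem_univ j)
      have h6 := ((hv j).2 _ (hv' j).1).1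
      have h7 := ((hv' j).2 _ (hv j).1).1
      exact_mod_cast ((hv' j).2 _ (hv j).1).2 (by omega)
    linarith
  | succ n ih =>
    intro p q p' q' v v' hdet hv hv' h1 h2 h3 h4 hn
    have hp : 0 < p := by
      rcases Nat.eq_zero_or_pos p with h0 | h0
      · simp [h0] at hdet
      · exact h0
    have hq' : 0 < q' := by
      rcases Nat.eq_zero_or_pos q' with h0 | h0
      · simp [h0] at hdet
      · exact h0
    have ha : 0 < p + p' := by omega
    have hb : 0 < q + q' := by omega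
    have hsp : ∀ u : ℕ × ℕ, (p + p') * u.1 + (q + q') * u.2 =
        (p * u.1 + q * u.2) + (p' * u.1 + q' * u.2) := fun u => by ring
    have hst1 : ∑ j, (p * (v j).1 + q * (v j).2) < ∑ j, (p * (v' j).1 + q * (v' j).2) := by
      have hle : ∀ j ∈ Finset.univ, (p * (v j).1 + q * (v j).2) ≤ (p * (v' j).1 + q * (v' j).2) :=
        fun j _ => ((hv j).2 _ (hv' j).1).1
      refine lt_of_le_of_ne (Finset.sum_le_sum hle) fun heq => ?_
      have heq := (Finset.sum_eq_sum_iff_of_le hle).1 heq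
      have : ∑ j, lam j * ((v j).2 : ℝ) ≤ ∑ j, lam j * ((v' j).2 : ℝ) := by
        refine Finset.sum_le_sum fun j _ => mul_le_mul_of_nonneg_left ?_ (hlam j).le
        exact_mod_cast ((hv j).2 _ (hv' j).1).2 (heq j (Finset.mem_univ j)).symm
      linarith
    have hst2 : ∑ j, (p' * (v' j).1 + q' * (v' j).2) < ∑ j, (p' * (v j).1 + q' * (v j).2) := by
      have hle : ∀ j ∈ Finset.univ,
          (p' * (v' j).1 + q' * (v' j).2) ≤ (p' * (v j).1 + q' * (v j).2) :=
        fun j _ => ((hv' j).2 _ (hv j).1).1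
      refine lt_of_le_of_ne (Finset.sum_le_sum hle) fun heq => ?_
      have heq := (Finset.sum_eq_sum_iff_of_le hle).1 heq
      have : ∑ j, lam j * ((v' j).1 : ℝ) ≤ ∑ j, lam j * ((v j).1 : ℝ) := by
        refine Finset.sum_le_sum fun j _ => mul_le_mul_of_nonneg_left ?_ (hlam j).le
        exact_mod_cast ((hv' j).2 _ (hv j).1).2 (heq j (Finset.mem_univ j)).symm
      linarith
    obtain ⟨L, hL⟩ := polyg_exL S hS (p + p') (q + q')
    obtain ⟨R, hR⟩ := polyg_exR S hS (p + p') (q + q')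
    by_cases hL1 : ∑ j, lam j * ((L j).1 : ℝ) ≤ 1 ∧ ∑ j, lam j * ((L j).2 : ℝ) ≤ 1
    · exact Or.inl (polyg_altL hb hL hL1.1 hL1.2)
    by_cases hR1 : ∑ j, lam j * ((R j).1 : ℝ) ≤ 1 ∧ ∑ j, lam j * ((R j).2 : ℝ) ≤ 1
    · exact Or.inl (polyg_altR ha hR hR1.1 hR1.2)
    have hdL := h (p + p') (q + q') ha hb (fun j => (p + p') * (L j).1 + (q + q') * (L j).2)
      (fun j e he => ((hL j).2 e he).1)
    have hdR := h (p + p') (q + q') ha hb (fun j => (p + p') * (R j).1 + (q + q') * (R j).2)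
      (fun j e he => ((hR j).2 e he).1)
    rw [polyg_sum] at hdL hdR
    have haR : (0 : ℝ) < ((p + p' : ℕ) : ℝ) := by exact_mod_cast ha
    have hbR : (0 : ℝ) < ((q + q' : ℕ) : ℝ) := by exact_mod_cast hb
    by_cases hLL : 1 < ∑ j, lam j * ((L j).1 : ℝ)
    · -- replace the right end
      have hL2 : ∑ j, lam j * ((L j).2 : ℝ) ≤ 1 := by
        by_contra hcon
        push Not at hcon
        nlinarith
      refine ih p q (p + p') (q + q') v L (by nlinarith) hv hL h1 hLL h3 hL2 ?_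
      have hF : ∑ j, (p' * (v' j).1 + q' * (v' j).2) ≤ ∑ j, (p' * (L j).1 + q' * (L j).2) :=
        Finset.sum_le_sum fun j _ => ((hv' j).2 _ (hL j).1).1
      simp only [hsp]
      simp only [Finset.sum_add_distrib] at hn hst1 hst2 hF ⊢
      omega
    · by_cases hRU : 1 < ∑ j, lam j * ((R j).2 : ℝ)
      · have hR2 : ∑ j, lam j * ((R j).1 : ℝ) ≤ 1 := by
          by_contra hcon
          push Not at hcon
          nlinarith
        refine ih (p + p') (q + q') p' q' R v' (by nlinarith) hR hv' hR2 h2 hRU h4 ?_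
        have hF : ∑ j, (p * (v j).1 + q * (v j).2) ≤ ∑ j, (p * (R j).1 + q * (R j).2) :=
          Finset.sum_le_sum fun j _ => ((hv j).2 _ (hR j).1).1
        simp only [hsp]
        simp only [Finset.sum_add_distrib] at hn hst1 hst2 hF ⊢
        omega
      · right
        have hL3 : 1 < ∑ j, lam j * ((L j).2 : ℝ) := by
          by_contra hcon
          exact hL1 ⟨not_lt.1 hLL, not_lt.1 hcon⟩
        have hR3 : 1 < ∑ j, lam j * ((R j).1 : ℝ) := by
          by_contra hcon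
          exact hR1 ⟨not_lt.1 hcon, not_lt.1 hRU⟩
        have hd : ∀ j, (p + p') * (R j).1 + (q + q') * (R j).2 =
            (p + p') * (L j).1 + (q + q') * (L j).2 := fun j =>
          le_antisymm ((hR j).2 _ (hL j).1).1 ((hL j).2 _ (hR j).1).1
        have hsum : ∑ j, lam j * (((p + p') * (L j).1 + (q + q') * (L j).2 : ℕ) : ℝ) =
            ∑ j, lam j * (((p + p') * (R j).1 + (q + q') * (R j).2 : ℕ) : ℝ) :=
          Finset.sum_congr rfl fun j _ => by rw [hd j]
        have hS0 : (0 : ℝ) < ((p + p' : ℕ) : ℝ) + ((q + q' : ℕ) : ℝ) := by positivity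
        have hLs := polyg_sum lam (p + p') (q + q') L
        have hRs := polyg_sum lam (p + p') (q + q') R
        rw [← hsum] at hRs
        have hR0 : (0 : ℝ) ≤ ∑ j, lam j * ((R j).2 : ℝ) :=
          Finset.sum_nonneg fun j _ => mul_nonneg (hlam j).le (Nat.cast_nonneg _)
        have hkey : ∑ j, lam j * (((p + p') * (L j).1 + (q + q') * (L j).2 : ℕ) : ℝ) =
            (((p + p' : ℕ) : ℝ) + ((q + q' : ℕ) : ℝ)) *
            ((∑ j, lam j * (((p + p') * (L j).1 + (q + q') * (L j).2 : ℕ) : ℝ)) /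
              (((p + p' : ℕ) : ℝ) + ((q + q' : ℕ) : ℝ))) := by
          field_simp
        have hLt : ∑ j, lam j * ((L j).1 : ℝ) <
            (∑ j, lam j * (((p + p') * (L j).1 + (q + q') * (L j).2 : ℕ) : ℝ)) /
              (((p + p' : ℕ) : ℝ) + ((q + q' : ℕ) : ℝ)) := by
          rw [lt_div_iff₀ hS0, hLs]
          nlinarith
        have hRt : ∑ j, lam j * ((R j).2 : ℝ) <
            (∑ j, lam j * (((p + p') * (L j).1 + (q + q') * (L j).2 : ℕ) : ℝ)) /
              (((p + p' : ℕ) : ℝ) + ((q + q' : ℕ) : ℝ)) := by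
          rw [lt_div_iff₀ hS0, hRs]
          nlinarith
        refine ⟨p + p', q + q', _, fun j => (p + p') * (L j).1 + (q + q') * (L j).2, L, R, ha, hb,
          ?_, lt_of_le_of_lt hR0 hRt, ?_, hkey, fun j e he => ((hL j).2 e he).1,
          fun j => ⟨(hL j).1, rfl, fun e he => ((hL j).2 e he).2⟩,
          fun j => ⟨(hR j).1, hd j, fun e he h5 => ((hR j).2 e he).2 (h5.trans (hd j).symm)⟩,
          hLt, hRt, hL3, hR3⟩
        · rw [← Nat.isCoprime_iff_coprime]
          refine ⟨(q' : ℤ), -(p' : ℤ), ?_⟩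
          have : (p : ℤ) * q' = q * p' + 1 := by exact_mod_cast hdet
          push_cast
          linarith
        · rw [div_le_one hS0, hLs]
          exact hdL

theorem polygon {r : ℕ} {lam : Fin r → ℝ} (hlam : ∀ j, 0 < lam j) (S : Fin r → Set (ℕ × ℕ))
    (hS : ∀ j, (S j).Nonempty)
    (h : ∀ w₀ w₁ : ℕ, 0 < w₀ → 0 < w₁ → ∀ φ : Fin r → ℕ,
      (∀ j, ∀ e ∈ S j, φ j ≤ w₀ * e.1 + w₁ * e.2) → ∑ j, lam j * φ j ≤ (w₀ : ℝ) + w₁) :
    (∃ (w₀ w₁ : ℕ) (v : Fin r → ℕ × ℕ), 0 < w₀ ∧ 0 < w₁ ∧ (∀ j, v j ∈ S j) ∧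
      (∀ j, ∀ e ∈ S j, e ≠ v j → w₀ * (v j).1 + w₁ * (v j).2 < w₀ * e.1 + w₁ * e.2) ∧
      ∑ j, lam j * (v j).1 ≤ 1 ∧ ∑ j, lam j * (v j).2 ≤ 1) ∨
    ∃ (a b : ℕ) (t : ℝ) (d : Fin r → ℕ) (vL vR : Fin r → ℕ × ℕ), 0 < a ∧ 0 < b ∧
      Nat.Coprime a b ∧ 0 < t ∧ t ≤ 1 ∧ ∑ j, lam j * d j = (a + b) * t ∧
      (∀ j, ∀ e ∈ S j, d j ≤ a * e.1 + b * e.2) ∧
      (∀ j, vL j ∈ S j ∧ a * (vL j).1 + b * (vL j).2 = d j ∧
        ∀ e ∈ S j, a * e.1 + b * e.2 = d j → (vL j).1 ≤ e.1) ∧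
      (∀ j, vR j ∈ S j ∧ a * (vR j).1 + b * (vR j).2 = d j ∧
        ∀ e ∈ S j, a * e.1 + b * e.2 = d j → (vR j).2 ≤ e.2) ∧
      ∑ j, lam j * (vL j).1 < t ∧ ∑ j, lam j * (vR j).2 < t ∧
      1 < ∑ j, lam j * (vL j).2 ∧ 1 < ∑ j, lam j * (vR j).1 := by
  change polygA lam S ∨ polygB lam S
  obtain ⟨v, hv⟩ := polyg_exR S hS 1 0
  obtain ⟨v', hv'⟩ := polyg_exL S hS 0 1
  have h1 : ∑ j, lam j * ((v j).1 : ℝ) ≤ 1 := by
    by_contra hcon
    push Not at hcon
    obtain ⟨N, hN⟩ := exists_nat_gt (1 / (∑ j, lam j * ((v j).1 : ℝ) - 1))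
    have h0 : 0 < ∑ j, lam j * ((v j).1 : ℝ) - 1 := by linarith
    rw [div_lt_iff₀ h0] at hN
    have := h (N + 1) 1 (by omega) (by omega) (fun j => (N + 1) * (v j).1) fun j e he => by
      have h2 := ((hv j).2 e he).1
      simp only [one_mul, zero_mul, add_zero] at h2
      have h3 := Nat.mul_le_mul_left (N + 1) h2
      omega
    push_cast at this
    have h4 : ∑ j, lam j * (((N : ℝ) + 1) * ((v j).1 : ℝ)) =
        ((N : ℝ) + 1) * ∑ j, lam j * ((v j).1 : ℝ) := by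
      rw [Finset.mul_sum]
      exact Finset.sum_congr rfl fun j _ => by ring
    rw [h4] at this
    nlinarith
  have h2 : ∑ j, lam j * ((v' j).2 : ℝ) ≤ 1 := by
    by_contra hcon
    push Not at hcon
    obtain ⟨N, hN⟩ := exists_nat_gt (1 / (∑ j, lam j * ((v' j).2 : ℝ) - 1))
    have h0 : 0 < ∑ j, lam j * ((v' j).2 : ℝ) - 1 := by linarith
    rw [div_lt_iff₀ h0] at hN
    have := h 1 (N + 1) (by omega) (by omega) (fun j => (N + 1) * (v' j).2) fun j e he => by
      have h2 := ((hv' j).2 e he).1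
      simp only [one_mul, zero_mul, zero_add] at h2
      have h3 := Nat.mul_le_mul_left (N + 1) h2
      omega
    push_cast at this
    have h4 : ∑ j, lam j * (((N : ℝ) + 1) * ((v' j).2 : ℝ)) =
        ((N : ℝ) + 1) * ∑ j, lam j * ((v' j).2 : ℝ) := by
      rw [Finset.mul_sum]
      exact Finset.sum_congr rfl fun j _ => by ring
    rw [h4] at this
    nlinarith
  by_cases h3 : ∑ j, lam j * ((v j).2 : ℝ) ≤ 1
  · exact Or.inl (polyg_altR one_pos hv h1 h3)
  by_cases h4 : ∑ j, lam j * ((v' j).1 : ℝ) ≤ 1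
  · exact Or.inl (polyg_altL one_pos hv' h4 h2)
  exact polyg_main hlam S hS h _ 1 0 0 1 v v' rfl hv hv' h1 (not_le.1 h4) (not_le.1 h3) h2
    (Nat.le_add_right _ _)

end M3
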