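import Pool.Agent.M3.DegA

/-!
PIECE M3-D03: inequalities for arcs from the residue modulo `τ`.

PROOF. `cod_lin`: say `q ≠ 0` (the other case is symmetric).  With `w := C p * P 0 + C q * P 1 + C s` (over `k`):
`coeff n (P 1) = q⁻¹ (coeff n w - p coeff n (P 0) - ...)`, so for `n < a` the coefficient `P_1,n` is
in the field generated over `k` by `P_0,n`: the `2 m` coefficients are algebraic over the field generated by the
`2 m - a` ones without `P_1,n`, `n < a`; `alg_exchange` gives `T.card ≤ 2 m - a`, so `a ≤ C`.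
`pia_mono`: choose `m ≥` all `n j`, apply `deg_mod` : `X^(n j) ∣ aeval P₀ (C (κ j) * X 0 ^ α j * X 1 ^ β j)`
`= κ_j P₀_0^(α j) P₀_1^(β j)`.  Let `A` be the minimum of `m` and the order of `P₀ 0`, `B` the same for `P₀ 1`.
`cod_vanish`: `A + B ≤ C`.  And `n j ≤ A α j + B β j`: if all factors which occur have order `< m` this is the
multiplicativity of the order; otherwise e.g. `α j ≥ 1` and `A = m ≥ n j`.  So
`∑ lam j n j ≤ A ∑ lam j α j + B ∑ lam j β j ≤ A + B ≤ C`.
`pia_lin`: the same with `w := C p * P₀ 0 + C q * P₀ 1 + C s`, `A := min m (order w)`, `n j ≤ A B j` (if `B j = 0`: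
`X^(n j) ∣ κ_j` gives `n j = 0`), `A ≤ C` by `cod_lin`.
-/

open MvPolynomial

namespace M3

universe u

section
variable {k : Type u} [Field k] {L : Type u} [Field L] [Algebra k L]

private theorem pia_card {m a : ℕ} (j : Fin 2) (ha : a ≤ m) :
    Fintype.card {t : Fin 2 × Fin m // ¬ (t.1 = j ∧ t.2.val < a)} + a ≤ 2 * m := by
  let e : {t : Fin 2 × Fin m // ¬ (t.1 = j ∧ t.2.val < a)} ⊕ Fin a → Fin 2 × Fin m :=
    Sum.elim Subtype.val fun i => (j, ⟨i.val, lt_of_lt_of_le i.2 ha⟩)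
  have he : Function.Injective e := by
    rintro (x | x) (y | y) h
    · exact congrArg _ (Subtype.ext h)
    · exact absurd ⟨congrArg Prod.fst h, by
        have := congrArg (fun z : Fin 2 × Fin m => z.2.val) h
        change x.1.2.val = y.val at this
        omega⟩ x.2
    · exact absurd ⟨(congrArg Prod.fst h).symm, by
        have := congrArg (fun z : Fin 2 × Fin m => z.2.val) h
        change x.val = y.1.2.val at this
        omega⟩ y.2
    · have := congrArg (fun z : Fin 2 × Fin m => z.2.val) h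
      change x.val = y.val at this
      exact congrArg _ (Fin.ext this)
  have := Fintype.card_le_of_injective e he
  rw [Fintype.card_sum, Fintype.card_fin, Fintype.card_prod, Fintype.card_fin,
    Fintype.card_fin] at this
  exact this

private theorem pia_aux {P : Fin 2 → PowerSeries L} {m C a : ℕ} (h : CodLe k P m C) (j j' : Fin 2)
    (hj : j' ≠ j) (c s : k) (ha : a ≤ m) (hd : ∀ n < a, PowerSeries.coeff n (P j) =
      algebraMap k L c * PowerSeries.coeff n (P j') + (if n = 0 then algebraMap k L s else 0)) :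
    a ≤ C := by
  obtain ⟨T, hT, hT'⟩ := h
  let x : {t : Fin 2 × Fin m // ¬ (t.1 = j ∧ t.2.val < a)} → L :=
    fun t => PowerSeries.coeff t.1.2.val (P t.1.1)
  let y : Fin 2 × Fin m → L := fun t => PowerSeries.coeff t.2.val (P t.1)
  have hy : ∀ t, y t ∈ IntermediateField.adjoin k (Set.range x) := by
    intro t
    have hx : ∀ t' : Fin 2 × Fin m, ¬ (t'.1 = j ∧ t'.2.val < a) →
        y t' ∈ IntermediateField.adjoin k (Set.range x) := fun t' ht' =>
      IntermediateField.subset_adjoin k _ ⟨⟨t', ht'⟩, rfl⟩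
    by_cases ht : t.1 = j ∧ t.2.val < a
    · have h1 : y t = algebraMap k L c * y (j', t.2) +
          (if t.2.val = 0 then algebraMap k L s else 0) := by
        change PowerSeries.coeff t.2.val (P t.1) = _
        rw [ht.1]
        exact hd _ ht.2
      rw [h1]
      refine add_mem (mul_mem (IntermediateField.algebraMap_mem _ c) (hx _ fun h2 => hj h2.1)) ?_
      split_ifs
      · exact IntermediateField.algebraMap_mem _ s
      · exact zero_mem _
    · exact hx t ht
  obtain ⟨T₂, hT₂, -⟩ := alg_exchange x y (fun t => by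
    exact isAlgebraic_algebraMap
      (⟨y t, hy t⟩ : IntermediateField.adjoin k (Set.range x))) T hT'
  have h1 := T₂.card_le_univ
  have h2 := pia_card (m := m) j ha
  omega

theorem cod_lin {P : Fin 2 → PowerSeries L} {m C a : ℕ} (h : CodLe k P m C) {p q s : k}
    (hpq : ¬ (p = 0 ∧ q = 0)) (ha : a ≤ m)
    (hd : (PowerSeries.X : PowerSeries L) ^ a ∣
      aeval P (MvPolynomial.C p * X 0 + MvPolynomial.C q * X 1 + MvPolynomial.C s)) : a ≤ C := by
  have hc : ∀ n < a, algebraMap k L p * PowerSeries.coeff n (P 0) +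
      algebraMap k L q * PowerSeries.coeff n (P 1) + (if n = 0 then algebraMap k L s else 0) = 0 := by
    intro n hn
    have h1 := PowerSeries.X_pow_dvd_iff.1 hd n hn
    simp only [map_add, map_mul, aeval_C, aeval_X, PowerSeries.algebraMap_apply,
      PowerSeries.coeff_C_mul, PowerSeries.coeff_C] at h1
    exact h1
  by_cases hq : q = 0
  · have hp : p ≠ 0 := fun hp => hpq ⟨hp, hq⟩
    have hp' : algebraMap k L p ≠ 0 := (map_ne_zero _).2 hp
    refine pia_aux h 0 1 (by decide) (-q / p) (-s / p) ha ?_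
    intro n hn
    have h1 := hc n hn
    rw [map_div₀, map_div₀, map_neg, map_neg]
    split_ifs at h1 ⊢
    · field_simp
      linear_combination h1
    · field_simp
      linear_combination h1
  · have hq' : algebraMap k L q ≠ 0 := (map_ne_zero _).2 hq
    refine pia_aux h 1 0 (by decide) (-p / q) (-s / q) ha ?_
    intro n hn
    have h1 := hc n hn
    rw [map_div₀, map_div₀, map_neg, map_neg]
    split_ifs at h1 ⊢
    · field_simp
      linear_combination h1
    · field_simp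
      linear_combination h1

private theorem pia_ord {M : Type*} [Field M] (Q : PowerSeries M) (m : ℕ) :
    ∃ A ≤ m, (PowerSeries.X : PowerSeries M) ^ A ∣ Q ∧
      (A = m ∨ ∃ u, IsUnit u ∧ Q = PowerSeries.X ^ A * u) := by
  classical
  by_cases hm : (PowerSeries.X : PowerSeries M) ^ m ∣ Q
  · exact ⟨m, le_rfl, hm, Or.inl rfl⟩
  · rw [PowerSeries.X_pow_dvd_iff] at hm
    push Not at hm
    obtain ⟨i, hi, hi'⟩ := hm
    obtain ⟨A, hA1, hA2, hA3⟩ : ∃ A, (∀ l < A, PowerSeries.coeff l Q = 0) ∧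
        PowerSeries.coeff A Q ≠ 0 ∧ A ≤ i := by
      have hex : ∃ i, PowerSeries.coeff i Q ≠ 0 := ⟨i, hi'⟩
      refine ⟨Nat.find hex, fun l hl => ?_, Nat.find_spec hex, Nat.find_min' hex hi'⟩
      by_contra h2
      exact Nat.find_min hex hl h2
    obtain ⟨u, hu⟩ := PowerSeries.X_pow_dvd_iff.2 hA1
    refine ⟨A, hA3.trans hi.le, ⟨u, hu⟩, Or.inr ⟨u, ?_, hu⟩⟩
    rw [PowerSeries.isUnit_iff_constantCoeff, isUnit_iff_ne_zero]
    have h4 : PowerSeries.coeff A Q = PowerSeries.coeff 0 u := by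
      rw [hu]
      have := PowerSeries.coeff_X_pow_mul u A 0
      rw [zero_add] at this
      exact this
    rw [h4, PowerSeries.coeff_zero_eq_constantCoeff] at hA2
    exact hA2

private theorem pia_pow {M : Type*} [Field M] {Q : PowerSeries M} {m A : ℕ}
    (hA : A = m ∨ ∃ u, IsUnit u ∧ Q = PowerSeries.X ^ A * u) (α : ℕ) :
    m ≤ A * α ∨ ∃ u, IsUnit u ∧ Q ^ α = PowerSeries.X ^ (A * α) * u := by
  rcases Nat.eq_zero_or_pos α with rfl | hα
  · exact Or.inr ⟨1, isUnit_one, by simp⟩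
  · rcases hA with rfl | ⟨u, hu, hQ⟩
    · exact Or.inl (Nat.le_mul_of_pos_right _ hα)
    · exact Or.inr ⟨u ^ α, hu.pow α, by rw [hQ, mul_pow, ← pow_mul]⟩

private theorem pia_bd {M : Type*} [Field M] {Q R : PowerSeries M} {m A B N α β : ℕ}
    (hA : A = m ∨ ∃ u, IsUnit u ∧ Q = PowerSeries.X ^ A * u)
    (hB : B = m ∨ ∃ u, IsUnit u ∧ R = PowerSeries.X ^ B * u) (hN : N ≤ m)
    (h : (PowerSeries.X : PowerSeries M) ^ N ∣ Q ^ α * R ^ β) : N ≤ A * α + B * β := by
  rcases pia_pow hA α with h1 | ⟨u, hu, h1⟩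
  · omega
  · rcases pia_pow hB β with h2 | ⟨v, hv, h2⟩
    · omega
    · have h3 : Q ^ α * R ^ β = PowerSeries.X ^ (A * α + B * β) * (u * v) := by
        rw [h1, h2, pow_add]
        ring
      rw [h3, (hu.mul hv).dvd_mul_right, PowerSeries.X_pow_dvd_iff] at h
      by_contra h4
      have h5 := h _ (not_le.1 h4)
      rw [PowerSeries.coeff_X_pow_self] at h5
      exact one_ne_zero h5

private theorem pia_unit {M : Type*} [Field M] [Algebra k M] {g : k} (hg : g ≠ 0) :
    IsUnit (algebraMap k (PowerSeries M) g) :=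
  (isUnit_iff_ne_zero.2 hg).map (algebraMap k (PowerSeries M))

theorem pia_mono {r : ℕ} {lam : Fin r → ℝ} (hlam : ∀ j, 0 ≤ lam j) {f : Fin r → AA k}
    {α β : Fin r → ℕ} {g : Fin r → k} (hg : ∀ j, g j ≠ 0)
    (hf : ∀ j, PowerSeries.coeff 0 (f j) = MvPolynomial.C (g j) * X 0 ^ α j * X 1 ^ β j)
    (hα : ∑ j, lam j * α j ≤ 1) (hβ : ∑ j, lam j * β j ≤ 1) {P : Fin 2 → PowerSeries L} {C : ℕ}
    (hC : Cod k P C) {n : Fin r → ℕ}
    (hn : ∀ j, (PowerSeries.X : PowerSeries L) ^ n j ∣ ev P (f j)) :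
    ∑ j, lam j * n j ≤ (C : ℝ) := by
  obtain ⟨L₀, _, _, P₀, hcod, hdiv⟩ := deg_mod P (∑ j, n j) C (hC _)
  have hm : ∀ j, n j ≤ ∑ j, n j := fun j => Finset.single_le_sum (fun _ _ => Nat.zero_le _)
    (Finset.mem_univ j)
  obtain ⟨A, hA, hA1, hA2⟩ := pia_ord (P₀ 0) (∑ j, n j)
  obtain ⟨B, hB, hB1, hB2⟩ := pia_ord (P₀ 1) (∑ j, n j)
  have hAB : A + B ≤ C := cod_vanish hcod hA1 hB1 hA hB
  have hle : ∀ j, n j ≤ A * α j + B * β j := by
    intro j
    refine pia_bd hA2 hB2 (hm j) ?_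
    have h1 := hdiv (f j) (n j) (hm j) (hn j)
    rw [hf j, map_mul, map_mul, map_pow, map_pow, aeval_C, aeval_X, aeval_X, mul_assoc] at h1
    exact (pia_unit (hg j)).dvd_mul_left.1 h1
  have h3 : ∑ j, lam j * n j ≤ ∑ j, (A * (lam j * α j) + B * (lam j * β j)) := by
    refine Finset.sum_le_sum fun j _ => ?_
    have h4 : (n j : ℝ) ≤ A * α j + B * β j := by exact_mod_cast hle j
    have h5 := mul_le_mul_of_nonneg_left h4 (hlam j)
    linarith
  rw [Finset.sum_add_distrib, ← Finset.mul_sum, ← Finset.mul_sum] at h3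
  have h6 : (A : ℝ) * ∑ j, lam j * α j ≤ A := mul_le_of_le_one_right (Nat.cast_nonneg _) hα
  have h7 : (B : ℝ) * ∑ j, lam j * β j ≤ B := mul_le_of_le_one_right (Nat.cast_nonneg _) hβ
  have h8 : (A : ℝ) + B ≤ C := by exact_mod_cast hAB
  linarith

theorem pia_lin {r : ℕ} {lam : Fin r → ℝ} (hlam : ∀ j, 0 ≤ lam j) {f : Fin r → AA k}
    {B : Fin r → ℕ} {g : Fin r → k} (hg : ∀ j, g j ≠ 0) {p q s : k} (hpq : ¬ (p = 0 ∧ q = 0))
    (hf : ∀ j, PowerSeries.coeff 0 (f j) = MvPolynomial.C (g j) *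
      (MvPolynomial.C p * X 0 + MvPolynomial.C q * X 1 + MvPolynomial.C s) ^ B j)
    (hB : ∑ j, lam j * B j ≤ 1) {P : Fin 2 → PowerSeries L} {C : ℕ}
    (hC : Cod k P C) {n : Fin r → ℕ}
    (hn : ∀ j, (PowerSeries.X : PowerSeries L) ^ n j ∣ ev P (f j)) :
    ∑ j, lam j * n j ≤ (C : ℝ) := by
  obtain ⟨L₀, _, _, P₀, hcod, hdiv⟩ := deg_mod P (∑ j, n j) C (hC _)
  have hm : ∀ j, n j ≤ ∑ j, n j := fun j => Finset.single_le_sum (fun _ _ => Nat.zero_le _)
    (Finset.mem_univ j)
  obtain ⟨A, hA, hA1, hA2⟩ := pia_ord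
    (aeval P₀ (MvPolynomial.C p * X 0 + MvPolynomial.C q * X 1 + MvPolynomial.C s)) (∑ j, n j)
  have hAC : A ≤ C := cod_lin hcod hpq hA hA1
  have hle : ∀ j, n j ≤ A * B j := by
    intro j
    have h1 := hdiv (f j) (n j) (hm j) (hn j)
    rw [hf j, map_mul, map_pow, aeval_C] at h1
    have h2 := (pia_unit (hg j)).dvd_mul_left.1 h1
    have h3 := pia_bd (B := 0) (β := 0) (R := 1) (α := B j) hA2
      (Or.inr ⟨1, isUnit_one, by rw [pow_zero, mul_one]⟩) (hm j)
      (by rw [pow_zero, mul_one]; exact h2)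
    omega
  have h3 : ∑ j, lam j * n j ≤ ∑ j, A * (lam j * B j) := by
    refine Finset.sum_le_sum fun j _ => ?_
    have h4 : (n j : ℝ) ≤ A * B j := by exact_mod_cast hle j
    have h5 := mul_le_mul_of_nonneg_left h4 (hlam j)
    linarith
  rw [← Finset.mul_sum] at h3
  have h6 : (A : ℝ) * ∑ j, lam j * B j ≤ A := mul_le_of_le_one_right (Nat.cast_nonneg _) hB
  have h8 : (A : ℝ) ≤ C := by exact_mod_cast hAC
  linarith

end

end M3
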