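import Pool.Agent.M3.LimCh
import Pool.Agent.M3.Pia

/-!
PIECE M3-G03: domination if the Newton polygon has a vertex `≤ (1, 1)`.

PROOF. For `s : ℕ` let `ψ_s := ![X^(s w₀) * xA 0, X^(s w₁) * xA 1]`.  For the group `j` let `e j := min over the h in the group with
mc (f h) (v j) ≠ 0 of the order of mc (f h) (v j)`, plus `s * wt w₀ w₁ (v j)`; let `h_j` be a member which realizes the
minimum `o j`.  `mc (ev ψ_s (f h)) e' = X^(s wt e') * mc (f h) e'` (`mc_scale`).  For `e' ≠ v j` with `mc (f h) e' ≠ 0`: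
`s wt e' ≥ s wt (v j) + s > e j` if `s > o j`.  So for `s` large (`s > o j` for all `j`): `X^(e j) ∣ ev ψ_s (f h)` for all `h` in the
group and `coeff (e j) (ev ψ_s (f h_j)) = monomial (v j) (g j)`, `g j ≠ 0` the leading coefficient of `mc (f h_j) (v j)`.
`IsLim.ev`, `isLim_dvd`: for almost all `i`: `X^(e j) ∣ ev ψ_s (c i h)`, and `coeff (e j) (ev ψ_s (c i h_j)) = monomial (v j) (g_i j)` with
`g_i j ≠ 0` (bounded degree, limit of the coefficients; `poly_eventually_zero` applied to the difference).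
`P i → 0`: for almost all `i` `X^(s w₀) ∣ P i 0`, `X^(s w₁) ∣ P i 1`, `P i = ev P'_i ψ_s`, and with `cod_chA_inv` (`ψ_s = chA 0 0 (s w₀) (s w₁)`)
`N := s w₀ + s w₁ ≤ C i`, `Cod k (P'_i) (C i - N)`.  `n' j := n i j - e j` satisfies `X^(n' j) ∣ ev P'_i (ev ψ_s (c i h_j) / X^(e j))`.
`pia_mono` (`∑ lam j (v j) 0 ≤ 1`, `∑ lam j (v j) 1 ≤ 1`): `∑ lam j n' j ≤ C i - N`.  So `C i - ∑ lam j n i j ≥ N - ∑ lam j e j`.
The arc `ev U ψ_s`, `U` generic (`exists_generic`), has `Cod k _ N`, orders `≥ e j`: `dom_of_arc` with `ℓ := N + ∑ e j`.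
-/

open MvPolynomial

namespace M3

universe u

private theorem md_ofMin {κ : Type u} [Field κ] {r : ℕ} {J : Type} [Fintype J]
    {grp : J → Fin r} {f : J → AA κ} (v : Fin r → Fin 2 →₀ ℕ)
    (hv : ∀ j, ∃ h, grp h = j ∧ mc (f h) (v j) ≠ 0) :
    ∃ (o : Fin r → ℕ) (hh : Fin r → J), ∀ j, grp (hh j) = j ∧
      PowerSeries.coeff (o j) (mc (f (hh j)) (v j)) ≠ 0 ∧
      ∀ h, grp h = j → (PowerSeries.X : PowerSeries κ) ^ o j ∣ mc (f h) (v j) := by
  classical
  have key : ∀ j, ∃ (o : ℕ) (h₀ : J), grp h₀ = j ∧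
      PowerSeries.coeff o (mc (f h₀) (v j)) ≠ 0 ∧
      ∀ h, grp h = j → (PowerSeries.X : PowerSeries κ) ^ o ∣ mc (f h) (v j) := by
    intro j
    let s : Finset J := Finset.univ.filter (fun h => grp h = j ∧ mc (f h) (v j) ≠ 0)
    have hs : s.Nonempty := by
      obtain ⟨h, h1, h2⟩ := hv j
      exact ⟨h, by simp [s, h1, h2]⟩
    obtain ⟨h₀, hm, hmin⟩ := Finset.exists_min_image s
      (fun h => (mc (f h) (v j)).order.toNat) hs
    have hm' : grp h₀ = j ∧ mc (f h₀) (v j) ≠ 0 := by simpa [s] using hm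
    refine ⟨(mc (f h₀) (v j)).order.toNat, h₀, hm'.1, PowerSeries.coeff_order hm'.2, ?_⟩
    intro h hj
    by_cases h0 : mc (f h) (v j) = 0
    · rw [h0]; exact dvd_zero _
    · have h1 : h ∈ s := by simp [s, hj, h0]
      exact (pow_dvd_pow _ (hmin h h1)).trans PowerSeries.X_pow_order_dvd
  choose o hh h using key
  exact ⟨o, hh, h⟩

private theorem md_ch {κ : Type u} [CommRing κ] (A B : ℕ) :
    chA (0 : PowerSeries κ) 0 A B =
      ![PowerSeries.X ^ A * xA 0, PowerSeries.X ^ B * xA 1] := by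
  unfold chA
  rw [map_zero, Polynomial.eval₂_zero, zero_add, zero_add]

private theorem md_limpsi {k : Type u} [Field k] (A B : ℕ) (j : Fin 2) :
    IsLim (fun _ : ℕ => (![PowerSeries.X ^ A * xA 0, PowerSeries.X ^ B * xA 1] :
      Fin 2 → AA k) j)
      ((![PowerSeries.X ^ A * xA 0, PowerSeries.X ^ B * xA 1] : Fin 2 → AA (Gm k)) j) := by
  fin_cases j
  · exact (IsLim.X_pow A).mul (IsLim.xA 0)
  · exact (IsLim.X_pow B).mul (IsLim.xA 1)

private theorem md_mono {κ : Type u} [CommRing κ] (e : Fin 2 →₀ ℕ) (a : κ) :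
    monomial e a = C a * X 0 ^ e 0 * X 1 ^ e 1 := by
  rw [monomial_eq, Finsupp.prod_fintype _ _ (by intro i; simp), Fin.prod_univ_two, mul_assoc]

/-- from the limit of one coefficient to the coefficients of the sequence -/
private theorem md_coeff {k : Type u} [Field k] {c : ℕ → AA k} {f : AA (Gm k)} (h : IsLim c f)
    (m : ℕ) (e : Fin 2 →₀ ℕ) {g : Gm k} (hg : g ≠ 0)
    (hf : PowerSeries.coeff m f = monomial e g) :
    ∀ᶠ i in Uf, ∃ g' : k, g' ≠ 0 ∧ PowerSeries.coeff m (c i) = monomial e g' := by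
  classical
  obtain ⟨⟨D, hD⟩, hco⟩ := h m
  have h1 : ∀ᶠ i in Uf, PowerSeries.coeff m (c i) -
      monomial e (coeff e (PowerSeries.coeff m (c i))) = 0 := by
    refine poly_eventually_zero (D := max D (e.sum fun _ n => n)) ?_ ?_
    · filter_upwards [hD] with i hi
      refine (totalDegree_sub _ _).trans (max_le_max hi ?_)
      exact totalDegree_monomial_le _ _
    · intro e'
      by_cases he : e' = e
      · subst he
        have : (fun i => coeff e' (PowerSeries.coeff m (c i) -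
            monomial e' (coeff e' (PowerSeries.coeff m (c i))))) = fun _ => (0 : k) := by
          funext i
          rw [coeff_sub, coeff_monomial, if_pos rfl, sub_self]
        rw [this]
        exact gm_zero
      · have : (fun i => coeff e' (PowerSeries.coeff m (c i) -
            monomial e (coeff e (PowerSeries.coeff m (c i))))) =
            fun i => coeff e' (PowerSeries.coeff m (c i)) := by
          funext i
          rw [coeff_sub, coeff_monomial, if_neg (fun hh => he hh.symm), sub_zero]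
        rw [this, ← hco e', hf, coeff_monomial, if_neg (fun hh => he hh.symm)]
  have h2 : ∀ᶠ i in Uf, coeff e (PowerSeries.coeff m (c i)) ≠ 0 := by
    have h3 : gm (fun i => coeff e (PowerSeries.coeff m (c i))) = g := by
      rw [← hco e, hf, coeff_monomial, if_pos rfl]
    refine Ultrafilter.eventually_not.2 ?_
    intro h4
    exact hg (by rw [← h3]; exact gm_eq_zero.2 h4)
  filter_upwards [h1, h2] with i h1 h2
  exact ⟨_, h2, sub_eq_zero.1 h1⟩

/-- small arcs are divisible by powers of `τ` -/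
private theorem md_small {k : Type u} [Field k] {P : ℕ → Fin 2 → PowerSeries (Om k)}
    (hP : IsLimP P (ratP 0)) (j : Fin 2) (A : ℕ) :
    ∀ᶠ i in Uf, (PowerSeries.X : PowerSeries (Om k)) ^ A ∣ P i j := by
  have h1 : ∀ m ∈ Finset.range A, ∀ᶠ i in Uf, PowerSeries.coeff m (P i j) = 0 := by
    intro m _
    have h2 := hP j m
    unfold ratP at h2
    rw [Pi.zero_apply, map_zero, map_zero] at h2
    exact gm_eq_zero.1 h2.symm
  have h2 : ∀ᶠ i in Uf, ∀ m ∈ Finset.range A, PowerSeries.coeff m (P i j) = 0 :=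
    (Finset.eventually_all _).2 h1
  filter_upwards [h2] with i hi
  rw [PowerSeries.X_pow_dvd_iff]
  intro m hm
  exact hi m (Finset.mem_range.2 hm)

theorem mono_dom {k : Type u} [Field k] [IsAlgClosed k] [CharZero k] {r : ℕ} {J : Type}
    [Fintype J] {lam : Fin r → ℝ} (hlam : ∀ j, 0 < lam j) {grp : J → Fin r} {f : J → AA (Gm k)}
    {c : ℕ → J → AA k} (hc : ∀ h, IsLim (fun i => c i h) (f h))
    {P : ℕ → Fin 2 → PowerSeries (Om k)} {C : ℕ → ℕ} {n : ℕ → Fin r → ℕ}
    (hA : Adm grp c P C n) (hP : IsLimP P (ratP 0)) {w₀ w₁ : ℕ} (hw₀ : 0 < w₀) (hw₁ : 0 < w₁)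
    (v : Fin r → Fin 2 →₀ ℕ) (hv : ∀ j, ∃ h, grp h = j ∧ mc (f h) (v j) ≠ 0)
    (huniq : ∀ h e, mc (f h) e ≠ 0 → e ≠ v (grp h) → wt w₀ w₁ (v (grp h)) < wt w₀ w₁ e)
    (h0 : ∑ j, lam j * (v j) 0 ≤ 1) (h1 : ∑ j, lam j * (v j) 1 ≤ 1) : Dom lam grp c C n := by
  classical
  obtain ⟨o, hh, ho⟩ := md_ofMin (grp := grp) v hv
  obtain ⟨s, hs⟩ : ∃ s : ℕ, ∀ j, o j < s :=
    ⟨(∑ j, o j) + 1, fun j => Nat.lt_succ_of_le
      (Finset.single_le_sum (f := o) (fun _ _ => Nat.zero_le _) (Finset.mem_univ j))⟩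
  set A : ℕ := s * w₀ with hA_def
  set B : ℕ := s * w₁ with hB_def
  set e : Fin r → ℕ := fun j => o j + s * wt w₀ w₁ (v j) with he_def
  have hwt : ∀ x : Fin 2 →₀ ℕ, A * x 0 + B * x 1 = s * wt w₀ w₁ x := by
    intro x
    simp only [hA_def, hB_def, wt]
    ring
  -- the limit functions
  have hdvd' : ∀ h, (PowerSeries.X : AA (Gm k)) ^ e (grp h) ∣
      ev ![PowerSeries.X ^ A * xA 0, PowerSeries.X ^ B * xA 1] (f h) := by
    intro h
    rw [X_pow_dvd_iff_mc]
    intro x
    rw [mc_scale, hwt]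
    by_cases hx : x = v (grp h)
    · rw [hx, he_def]
      simp only
      rw [add_comm, pow_add]
      exact mul_dvd_mul_left _ ((ho (grp h)).2.2 h rfl)
    · by_cases h0 : mc (f h) x = 0
      · rw [h0, mul_zero]; exact dvd_zero _
      · refine Dvd.dvd.mul_right (pow_dvd_pow _ ?_) _
        have h1 := huniq h x h0 hx
        have h2 := hs (grp h)
        have h3 : s * (wt w₀ w₁ (v (grp h)) + 1) ≤ s * wt w₀ w₁ x := Nat.mul_le_mul_left _ h1
        rw [mul_add, mul_one] at h3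
        show o (grp h) + s * wt w₀ w₁ (v (grp h)) ≤ _
        omega
  have hcoef' : ∀ j, ∃ g : Gm k, g ≠ 0 ∧ PowerSeries.coeff (e j)
      (ev ![PowerSeries.X ^ A * xA 0, PowerSeries.X ^ B * xA 1] (f (hh j))) =
      monomial (v j) g := by
    intro j
    refine ⟨PowerSeries.coeff (o j) (mc (f (hh j)) (v j)), (ho j).2.1, ?_⟩
    ext x
    rw [← coeff_mc, mc_scale, hwt, coeff_monomial]
    by_cases hx : v j = x
    · rw [if_pos hx, ← hx]
      exact PowerSeries.coeff_X_pow_mul _ _ _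
    · rw [if_neg hx, PowerSeries.coeff_X_pow_mul']
      by_cases h0 : mc (f (hh j)) x = 0
      · rw [h0, map_zero, ite_self]
      · have hg := (ho j).1
        have h1 := huniq (hh j) x h0 (by rw [hg]; exact fun h => hx h.symm)
        rw [hg] at h1
        have h2 := hs j
        have h3 : s * (wt w₀ w₁ (v j) + 1) ≤ s * wt w₀ w₁ x := Nat.mul_le_mul_left _ h1
        rw [mul_add, mul_one] at h3
        rw [if_neg]
        show ¬ (s * wt w₀ w₁ x ≤ o j + s * wt w₀ w₁ (v j))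
        omega
  -- the sequence
  have hlim : ∀ h, IsLim (fun i => ev ![PowerSeries.X ^ A * xA 0, PowerSeries.X ^ B * xA 1]
      (c i h)) (ev ![PowerSeries.X ^ A * xA 0, PowerSeries.X ^ B * xA 1] (f h)) := fun h =>
    IsLim.ev (χ' := fun _ => ![PowerSeries.X ^ A * xA 0, PowerSeries.X ^ B * xA 1])
      (md_limpsi A B) (hc h)
  have hdvd : ∀ᶠ i in Uf, ∀ h, (PowerSeries.X : AA k) ^ e (grp h) ∣
      ev ![PowerSeries.X ^ A * xA 0, PowerSeries.X ^ B * xA 1] (c i h) := by
    rw [Filter.eventually_all]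
    intro h
    exact (isLim_dvd (hlim h) _).1 (hdvd' h)
  have hcoef : ∀ᶠ i in Uf, ∀ j, ∃ g : k, g ≠ 0 ∧ PowerSeries.coeff (e j)
      (ev ![PowerSeries.X ^ A * xA 0, PowerSeries.X ^ B * xA 1] (c i (hh j))) =
      monomial (v j) g := by
    rw [Filter.eventually_all]
    intro j
    obtain ⟨g, hg, hg'⟩ := hcoef' j
    exact md_coeff (hlim (hh j)) (e j) (v j) hg hg'
  obtain ⟨U, hU⟩ := exists_generic k
  refine ⟨A + B + ∑ j, e j, ?_⟩
  filter_upwards [hA, hdvd, hcoef, md_small hP 0 A, md_small hP 1 B] with i hAi hd hco hp0 hp1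
  obtain ⟨hcod, hord⟩ := hAi
  obtain ⟨p0, hp0⟩ := hp0
  obtain ⟨p1, hp1⟩ := hp1
  have hPi : P i = fun j => ev ![p0, p1] (chA (0 : PowerSeries k) 0 A B j) := by
    funext j
    rw [md_ch]
    fin_cases j
    · show P i 0 = ev ![p0, p1] (PowerSeries.X ^ A * xA 0)
      rw [ev_mul, ev_pow, ev_X, ev_xA, hp0]
      rfl
    · show P i 1 = ev ![p0, p1] (PowerSeries.X ^ B * xA 1)
      rw [ev_mul, ev_pow, ev_X, ev_xA, hp1]
      rfl
  have hpz : ∀ j, 1 ≤ j → (PowerSeries.X : PowerSeries k) ^ A ∣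
      (0 : Polynomial (PowerSeries k)).coeff j := by
    intro j _
    rw [Polynomial.coeff_zero]
    exact dvd_zero _
  obtain ⟨hAB, hcod'⟩ := cod_chA_inv (k := k) (0 : PowerSeries k) 0 A B hpz
    (P := ![p0, p1]) (C := C i) (by rw [← hPi]; exact hcod)
  refine ⟨fun j => ev U (chA (0 : PowerSeries k) 0 A B j), A + B, e, Nat.le_add_right _ _,
    fun j => ?_, ?_, ?_, ?_⟩
  · exact (Finset.single_le_sum (f := e) (fun _ _ => Nat.zero_le _)
      (Finset.mem_univ j)).trans (Nat.le_add_left _ _)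
  · have h1 := cod_chA (k := k) (0 : PowerSeries k) 0 A B hpz hU
    rw [zero_add] at h1
    exact h1
  · intro h
    rw [md_ch, ← ev_ev]
    exact ev_dvd _ (hd h)
  · -- the inequality
    choose g hg hg' using hco
    choose F hF using hd
    have hF0 : ∀ j, PowerSeries.coeff 0 (F (hh j)) = MvPolynomial.C (g j) * X 0 ^ (v j) 0 * X 1 ^ (v j) 1 := by
      intro j
      rw [← md_mono, ← hg' j, hF (hh j), (ho j).1]
      have := PowerSeries.coeff_X_pow_mul (F (hh j)) (e j) 0
      rw [zero_add] at this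
      exact this.symm
    have hn' : ∀ j, (PowerSeries.X : PowerSeries (Om k)) ^ (n i j - e j) ∣
        ev ![p0, p1] (F (hh j)) := by
      intro j
      have h1 := hord (hh j)
      rw [(ho j).1, hPi, md_ch, ← ev_ev, hF (hh j), ev_mul, ev_pow, ev_X, (ho j).1] at h1
      rcases le_total (n i j) (e j) with h2 | h2
      · rw [Nat.sub_eq_zero_of_le h2, pow_zero]
        exact one_dvd _
      · have h3 : (PowerSeries.X : PowerSeries (Om k)) ^ n i j =
            PowerSeries.X ^ e j * PowerSeries.X ^ (n i j - e j) := by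
          rw [← pow_add, Nat.add_sub_cancel' h2]
        rw [h3] at h1
        exact (mul_dvd_mul_iff_left (pow_ne_zero _ PowerSeries.X_ne_zero)).1 h1
    have h1 : ∑ j, lam j * ((n i j - e j : ℕ) : ℝ) ≤ ((C i - A - B : ℕ) : ℝ) :=
      pia_mono (fun j => (hlam j).le) (f := fun j => F (hh j)) hg hF0 h0 h1 hcod' hn'
    have h2 : ∑ j, lam j * (n i j : ℝ) ≤
        ∑ j, lam j * ((n i j - e j : ℕ) : ℝ) + ∑ j, lam j * (e j : ℝ) := by
      rw [← Finset.sum_add_distrib]
      refine Finset.sum_le_sum fun j _ => ?_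
      rw [← mul_add]
      refine mul_le_mul_of_nonneg_left ?_ (hlam j).le
      have : n i j ≤ (n i j - e j) + e j := by omega
      exact_mod_cast this
    have h3 : ((C i - A - B : ℕ) : ℝ) = (C i : ℝ) - A - B := by
      rw [Nat.sub_sub, Nat.cast_sub hAB]
      push_cast
      ring
    push_cast
    linarith

end M3
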