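import Pool.Agent.M3.Defs

/-!
PIECE M3-H01: weighted homogeneous polynomials in two variables over a field.

PROOF. `hom_dvd`: if `F = p * q ≠ 0` is homogeneous, let `p⁺`, `p⁻` be the components of highest and lowest weight of `p`, `q⁺`,
`q⁻` those of `q`; `p⁺ q⁺` and `p⁻ q⁻` are nonzero (domain) components of `F` of weights `deg p⁺ + deg q⁺` and
`deg p⁻ + deg q⁻`, so they coincide and `deg p⁺ = deg p⁻`.
`hom_coprime`: `p`, `q` relatively prime in `K[x_0, x_1]`.  By Gauss's lemma they are relatively prime in `K(x_0)[x_1]`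
(`K[x_0, x_1] ≅ K[x_0][x_1]`, `MvPolynomial.finTwo...`, `Polynomial.IsPrimitive...`; if one of them is a constant or a
power of `x_0` times a unit treat it separately), so there are `A`, `B` and `0 ≠ R ∈ K[x_0]` with `A p + B q = R`; let `c x_0^N` be a
monomial of `R`; the component of weight `a N` of the equation (components of `A` of weight `a N - d`, of `B` of
weight `a N - e`) gives `A' p + B' q = c x_0^N`.  The same for `x_1`.
(Alternative without Gauss: the ideal `(p, q)`; a minimal prime of height one over it would be principal `(π)` because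
`K[x_0, x_1]` is factorial, and `π ∣ p, q`; so all minimal primes have height 2, they are homogeneous …; the first
way or resultants, `Polynomial.resultant`, are more elementary.  Another way: dimension count: multiplication
`(A, B) ↦ A p + B q` on homogeneous components, using that `A p = B q` implies `q ∣ A`.)
`irr_grad`: Euler: `a x_0 p_0 + b x_1 p_1 = d p` with `d > 0` the weight of `p` (an irreducible `p` is not constant).
If `π` is irreducible and divides `p_0` and `p_1` then `π ∣ p` (characteristic zero), so `π` is associated to `p`, `p ∣ p_0`,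
`p ∣ p_1`, so `p_0 = p_1 = 0` (degrees), so `p` is constant, a contradiction.
`common_factors`: unique factorization (`MvPolynomial` over a field is a `UniqueFactorizationMonoid`): choose one
representative of each class of irreducible factors of the `F h`, `F h ≠ 0`.
-/

open MvPolynomial

namespace M3

universe u

section
variable {K : Type u} [Field K] {a b : ℕ}

/-- `p` is homogeneous of weight `d` -/
def HomW (a b d : ℕ) (p : MvPolynomial (Fin 2) K) : Prop := ∀ e, coeff e p ≠ 0 → wt a b e = d

private lemma HomP_wt (e : Fin 2 →₀ ℕ) : Finsupp.weight ![a, b] e = wt a b e := by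
  rw [Finsupp.weight_apply, Finsupp.sum_fintype _ _ (by simp), Fin.sum_univ_two]
  simp [wt, mul_comm]

private lemma HomP_iff {d : ℕ} {p : MvPolynomial (Fin 2) K} :
    HomW a b d p ↔ IsWeightedHomogeneous ![a, b] p d := by
  constructor
  · intro h e he
    rw [HomP_wt]
    exact h e he
  · intro h e he
    rw [← HomP_wt]
    exact h he

/-- the grading as a homomorphism -/
private noncomputable def HomP_phi (a b : ℕ) :
    MvPolynomial (Fin 2) K →ₐ[K] Polynomial (MvPolynomial (Fin 2) K) :=
  aeval ![Polynomial.C (X 0) * Polynomial.X ^ a, Polynomial.C (X 1) * Polynomial.X ^ b]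

private lemma HomP_phi_monomial (e : Fin 2 →₀ ℕ) (c : K) :
    HomP_phi a b (monomial e c) = Polynomial.monomial (wt a b e) (monomial e c) := by
  rw [HomP_phi, aeval_monomial, Finsupp.prod_fintype _ _ (by simp), Fin.prod_univ_two,
    monomial_eq (s := e), Finsupp.prod_fintype _ _ (by simp), Fin.prod_univ_two,
    ← Polynomial.C_mul_X_pow_eq_monomial]
  simp only [Matrix.cons_val_zero, Matrix.cons_val_one, map_mul, map_pow, wt]
  have : algebraMap K (Polynomial (MvPolynomial (Fin 2) K)) c = Polynomial.C (C c) := rfl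
  rw [this]
  ring

private lemma HomP_coeff (p : MvPolynomial (Fin 2) K) (n : ℕ) (e : Fin 2 →₀ ℕ) :
    coeff e ((HomP_phi a b p).coeff n) = if wt a b e = n then coeff e p else 0 := by
  induction p using MvPolynomial.induction_on' with
  | monomial u c =>
    rw [HomP_phi_monomial, Polynomial.coeff_monomial]
    by_cases h : wt a b u = n
    · rw [if_pos h]
      by_cases hu : u = e
      · subst hu
        rw [if_pos h]
      · rw [coeff_monomial, if_neg hu]
        split_ifs <;> rfl
    · rw [if_neg h]
      by_cases hu : u = e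
      · subst hu
        rw [if_neg h, coeff_zero]
      · rw [coeff_monomial, if_neg hu, coeff_zero]
        split_ifs <;> rfl
  | add p q hp hq =>
    rw [map_add, Polynomial.coeff_add, coeff_add, hp, hq, coeff_add]
    split_ifs <;> simp

private lemma HomP_phi_hom {d : ℕ} {p : MvPolynomial (Fin 2) K} (h : HomW a b d p) :
    HomP_phi a b p = Polynomial.C p * Polynomial.X ^ d := by
  rw [Polynomial.C_mul_X_pow_eq_monomial]
  ext n e
  rw [HomP_coeff, Polynomial.coeff_monomial]
  by_cases hc : coeff e p = 0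
  · rw [hc]
    split_ifs <;> simp [hc]
  · rw [h e hc]
    split_ifs <;> simp

private lemma HomP_hom_of_phi {k : ℕ} {p c : MvPolynomial (Fin 2) K}
    (h : HomP_phi a b p = Polynomial.monomial k c) : HomW a b k p := by
  intro e he
  have h1 := HomP_coeff (a := a) (b := b) p (wt a b e) e
  rw [if_pos rfl, h, Polynomial.coeff_monomial] at h1
  by_contra hne
  rw [if_neg (fun h => hne h.symm), coeff_zero] at h1
  exact he h1.symm

private lemma HomP_monomial_of_mul {R : Type*} [CommRing R] [IsDomain R] {P Q : Polynomial R}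
    {c : R} {d : ℕ} (hc : c ≠ 0) (h : P * Q = Polynomial.monomial d c) :
    ∃ k c', P = Polynomial.monomial k c' := by
  have hPQ : P * Q ≠ 0 := by
    rw [h]
    exact (Polynomial.monomial_eq_zero_iff c d).not.mpr hc
  have hP : P ≠ 0 := left_ne_zero_of_mul hPQ
  have hQ : Q ≠ 0 := right_ne_zero_of_mul hPQ
  have h1 := Polynomial.natDegree_mul hP hQ
  have h2 := Polynomial.natTrailingDegree_mul hP hQ
  rw [h, Polynomial.natDegree_monomial_eq _ hc] at h1
  rw [h, Polynomial.natTrailingDegree_monomial hc] at h2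
  have h3 := Polynomial.natTrailingDegree_le_natDegree P
  have h4 := Polynomial.natTrailingDegree_le_natDegree Q
  have h5 : P.natTrailingDegree = P.natDegree := by omega
  refine ⟨P.natDegree, P.coeff P.natDegree, ?_⟩
  ext n
  rw [Polynomial.coeff_monomial]
  by_cases hn : P.natDegree = n
  · rw [if_pos hn, hn]
  · rw [if_neg hn]
    by_contra hne
    have h6 := Polynomial.le_natDegree_of_ne_zero hne
    have h7 := Polynomial.natTrailingDegree_le_of_ne_zero hne
    omega

theorem hom_dvd (ha : 0 < a) (hb : 0 < b) {F p : MvPolynomial (Fin 2) K} {d : ℕ} (hF : F ≠ 0)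
    (h : HomW a b d F) (hp : p ∣ F) : ∃ e, HomW a b e p := by
  obtain ⟨q, hq⟩ := hp
  have h1 : HomP_phi a b p * HomP_phi a b q = Polynomial.monomial d F := by
    rw [← map_mul, ← hq, HomP_phi_hom h, Polynomial.C_mul_X_pow_eq_monomial]
  obtain ⟨k, c, hk⟩ := HomP_monomial_of_mul hF h1
  exact ⟨k, HomP_hom_of_phi hk⟩

private lemma HomP_gauss {R : Type*} [CommRing R] [IsDomain R] [UniqueFactorizationMonoid R]
    {P Q : Polynomial R} (h : IsRelPrime P Q) (h0 : ¬ (P = 0 ∧ Q = 0)) :
    ∃ (A B : Polynomial R) (r : R), r ≠ 0 ∧ A * P + B * Q = Polynomial.C r := by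
  letI : NormalizedGCDMonoid R := Nonempty.some inferInstance
  have hinj : Function.Injective (algebraMap R (FractionRing R)) :=
    IsFractionRing.injective R (FractionRing R)
  have hcop : IsCoprime (P.map (algebraMap R (FractionRing R)))
      (Q.map (algebraMap R (FractionRing R))) := by
    apply IsRelPrime.isCoprime
    intro g hgP hgQ
    have hg : g ≠ 0 := by
      rintro rfl
      exact h0 ⟨(Polynomial.map_eq_zero_iff hinj).mp (zero_dvd_iff.mp hgP),
        (Polynomial.map_eq_zero_iff hinj).mp (zero_dvd_iff.mp hgQ)⟩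
    apply Polynomial.isUnit_or_eq_zero_of_isUnit_integerNormalization_primPart (R := R) hg
    have hprim : (IsLocalization.integerNormalization (nonZeroDivisors R) g).primPart.IsPrimitive :=
      Polynomial.isPrimitive_primPart _
    have hdvd : (IsLocalization.integerNormalization (nonZeroDivisors R) g).primPart.map
        (algebraMap R (FractionRing R)) ∣ g := by
      obtain ⟨c, c0, hc⟩ := IsLocalization.integerNormalization_spec (nonZeroDivisors R) g
      rw [Algebra.smul_def, Polynomial.algebraMap_apply] at hc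
      have hu : IsUnit (Polynomial.C (algebraMap R (FractionRing R) c)) := by
        refine (IsUnit.mk0 _ ?_).map Polynomial.C
        intro hz
        exact (mem_nonZeroDivisors_iff_ne_zero.mp c0)
          ((injective_iff_map_eq_zero _).mp hinj _ hz)
      have h2 : (IsLocalization.integerNormalization (nonZeroDivisors R) g).primPart.map
          (algebraMap R (FractionRing R)) ∣ Polynomial.C (algebraMap R (FractionRing R) c) * g := by
        have h3 : (IsLocalization.integerNormalization (nonZeroDivisors R) g).primPart ∣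
            IsLocalization.integerNormalization (nonZeroDivisors R) g :=
          Polynomial.primPart_dvd _
        have h4 := Polynomial.map_dvd (algebraMap R (FractionRing R)) h3
        rw [hc] at h4
        exact h4
      exact hu.dvd_mul_left.mp h2
    exact h (hprim.dvd_of_fraction_map_dvd_fraction_map (hdvd.trans hgP))
      (hprim.dvd_of_fraction_map_dvd_fraction_map (hdvd.trans hgQ))
  obtain ⟨A, B, hAB⟩ := hcop
  obtain ⟨c1, c10, hc1⟩ := IsLocalization.integerNormalization_spec (nonZeroDivisors R) A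
  obtain ⟨c2, c20, hc2⟩ := IsLocalization.integerNormalization_spec (nonZeroDivisors R) B
  rw [Algebra.smul_def, Polynomial.algebraMap_apply] at hc1 hc2
  refine ⟨Polynomial.C c2 * IsLocalization.integerNormalization (nonZeroDivisors R) A,
    Polynomial.C c1 * IsLocalization.integerNormalization (nonZeroDivisors R) B, c1 * c2,
    mul_ne_zero (mem_nonZeroDivisors_iff_ne_zero.mp c10)
      (mem_nonZeroDivisors_iff_ne_zero.mp c20), ?_⟩
  apply Polynomial.map_injective (algebraMap R (FractionRing R)) hinj
  rw [Polynomial.map_add, Polynomial.map_mul, Polynomial.map_mul, Polynomial.map_mul,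
    Polynomial.map_mul, hc1, hc2, Polynomial.map_C, Polynomial.map_C, Polynomial.map_C,
    map_mul, map_mul]
  have h5 : Polynomial.C (algebraMap R (FractionRing R) c2) *
      (Polynomial.C (algebraMap R (FractionRing R) c1) * A) *
        P.map (algebraMap R (FractionRing R)) +
      Polynomial.C (algebraMap R (FractionRing R) c1) *
      (Polynomial.C (algebraMap R (FractionRing R) c2) * B) *
        Q.map (algebraMap R (FractionRing R)) =
      Polynomial.C (algebraMap R (FractionRing R) c1) *
        Polynomial.C (algebraMap R (FractionRing R) c2) *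
      (A * P.map (algebraMap R (FractionRing R)) + B * Q.map (algebraMap R (FractionRing R))) := by
    ring
  rw [h5, hAB, mul_one]

private lemma HomP_relPrime {A B : Type*} [CommRing A] [CommRing B] (E : A ≃+* B) {x y : A}
    (h : IsRelPrime x y) : IsRelPrime (E x) (E y) := by
  intro d h1 h2
  have h3 : E.symm d ∣ x := by simpa using map_dvd E.symm h1
  have h4 : E.symm d ∣ y := by simpa using map_dvd E.symm h2
  simpa using (h h3 h4).map E

private lemma HomP_coprime1 (hb : 0 < b) {p q : MvPolynomial (Fin 2) K} {d e : ℕ}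
    (hp : HomW a b d p) (hq : HomW a b e q) (h : IsRelPrime p q) :
    ∃ N : ℕ, ∃ A B, A * p + B * q = X 1 ^ N := by
  have h0 : ¬ (p = 0 ∧ q = 0) := by
    rintro ⟨rfl, rfl⟩
    have hX : IsUnit (X 0 : MvPolynomial (Fin 2) K) := h (dvd_zero _) (dvd_zero _)
    obtain ⟨r, -, hr⟩ := isUnit_iff_eq_C_of_isReduced.mp hX
    have h1 := congrArg (coeff (Finsupp.single 0 1)) hr
    have h2 : ¬ ((0 : Fin 2 →₀ ℕ) = Finsupp.single 0 1) := by
      intro h2
      have h3 := DFunLike.congr_fun h2 0
      simp at h3
    rw [coeff_C, if_neg h2] at h1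
    simp [coeff_X'] at h1
  have hrel := HomP_relPrime (finSuccEquiv K 1).toRingEquiv h
  have h0' : ¬ ((finSuccEquiv K 1).toRingEquiv p = 0 ∧ (finSuccEquiv K 1).toRingEquiv q = 0) := by
    rintro ⟨h1, h2⟩
    exact h0 ⟨(map_eq_zero_iff _ (finSuccEquiv K 1).toRingEquiv.injective).mp h1,
      (map_eq_zero_iff _ (finSuccEquiv K 1).toRingEquiv.injective).mp h2⟩
  obtain ⟨A, B, r, hr, hAB⟩ := HomP_gauss hrel h0'
  obtain ⟨m, hm⟩ := ne_zero_iff.mp hr
  have hR : (finSuccEquiv K 1).symm A * p + (finSuccEquiv K 1).symm B * q =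
      (finSuccEquiv K 1).symm (Polynomial.C r) := by
    apply (finSuccEquiv K 1).injective
    rw [map_add, map_mul, map_mul, AlgEquiv.apply_symm_apply, AlgEquiv.apply_symm_apply,
      AlgEquiv.apply_symm_apply]
    exact hAB
  have hco : ∀ u : Fin 2 →₀ ℕ, coeff u ((finSuccEquiv K 1).symm (Polynomial.C r)) =
      if u 0 = 0 then coeff u.tail r else 0 := by
    intro u
    have h1 := finSuccEquiv_coeff_coeff (R := K) u.tail
      ((finSuccEquiv K 1).symm (Polynomial.C r)) (u 0)
    rw [Finsupp.cons_tail] at h1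
    rw [← h1, AlgEquiv.apply_symm_apply, Polynomial.coeff_C]
    split_ifs <;> simp
  set R1 := (finSuccEquiv K 1).symm (Polynomial.C r) with hR1
  have hphi := congrArg (fun f => (HomP_phi a b f).coeff (b * m 0)) hR
  simp only [map_add, map_mul, HomP_phi_hom hp, HomP_phi_hom hq] at hphi
  have hRc : (HomP_phi a b R1).coeff (b * m 0) = C (coeff m r) * X 1 ^ (m 0) := by
    rw [C_mul_X_pow_eq_monomial]
    ext u
    rw [HomP_coeff, hco, coeff_monomial]
    by_cases hu : Finsupp.single 1 (m 0) = u
    · rw [if_pos hu, ← hu]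
      have h1 : wt a b (Finsupp.single 1 (m 0)) = b * m 0 := by simp [wt]
      have h2 : (Finsupp.single (1 : Fin 2) (m 0)).tail = m := by
        refine Finsupp.ext fun i => ?_
        fin_cases i
        simp [Finsupp.tail_apply]
      rw [if_pos h1, h2]
      simp
    · rw [if_neg hu]
      by_cases h1 : wt a b u = b * m 0
      · rw [if_pos h1]
        by_cases h2 : u 0 = 0
        · exfalso
          apply hu
          rw [wt, h2, mul_zero, zero_add] at h1
          have h3 := Nat.eq_of_mul_eq_mul_left hb h1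
          ext i
          fin_cases i
          · simp [h2]
          · simp [h3]
        · rw [if_neg h2]
      · rw [if_neg h1]
  rw [hRc] at hphi
  rw [Polynomial.coeff_add, ← mul_assoc, ← mul_assoc, Polynomial.coeff_mul_X_pow',
    Polynomial.coeff_mul_X_pow', Polynomial.coeff_mul_C, Polynomial.coeff_mul_C] at hphi
  refine ⟨m 0, C (coeff m r)⁻¹ * (if d ≤ b * m 0 then
      (HomP_phi a b ((finSuccEquiv K 1).symm A)).coeff (b * m 0 - d) else 0),
    C (coeff m r)⁻¹ * (if e ≤ b * m 0 then
      (HomP_phi a b ((finSuccEquiv K 1).symm B)).coeff (b * m 0 - e) else 0), ?_⟩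
  have h6 : (X 1 : MvPolynomial (Fin 2) K) ^ (m 0) =
      C (coeff m r)⁻¹ * (C (coeff m r) * X 1 ^ (m 0)) := by
    rw [← mul_assoc, ← C_mul, inv_mul_cancel₀ hm, C_1, one_mul]
  rw [h6, ← hphi]
  split_ifs <;> ring

theorem hom_coprime (ha : 0 < a) (hb : 0 < b) {p q : MvPolynomial (Fin 2) K} {d e : ℕ}
    (hp : HomW a b d p) (hq : HomW a b e q) (h : IsRelPrime p q) :
    ∃ N : ℕ, (∃ A B, A * p + B * q = X 0 ^ N) ∧ ∃ A B, A * p + B * q = X 1 ^ N := by
  obtain ⟨N1, A1, B1, h1⟩ := HomP_coprime1 hb hp hq h
  have hswap : ∀ {f : MvPolynomial (Fin 2) K} {k : ℕ}, HomW a b k f →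
      HomW b a k (rename (Equiv.swap (0 : Fin 2) 1) f) := by
    intro f k hf u hu
    obtain ⟨v, rfl, hv⟩ := coeff_rename_ne_zero _ _ _ hu
    have h2 := hf v hv
    have e0 : (Finsupp.mapDomain (Equiv.swap (0 : Fin 2) 1) v) 0 = v 1 := by
      have := Finsupp.mapDomain_apply (Equiv.swap (0 : Fin 2) 1).injective v 1
      simpa using this
    have e1 : (Finsupp.mapDomain (Equiv.swap (0 : Fin 2) 1) v) 1 = v 0 := by
      have := Finsupp.mapDomain_apply (Equiv.swap (0 : Fin 2) 1).injective v 0
      simpa using this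
    rw [wt, e0, e1, ← h2, wt, add_comm]
  have hrel := HomP_relPrime (renameEquiv K (Equiv.swap (0 : Fin 2) 1)).toRingEquiv h
  obtain ⟨N0, A0, B0, h0⟩ := HomP_coprime1 (a := b) (b := a) ha (hswap hp) (hswap hq) hrel
  have h3 := congrArg (rename (Equiv.swap (0 : Fin 2) 1)) h0
  have hinv : ∀ f : MvPolynomial (Fin 2) K,
      rename (Equiv.swap (0 : Fin 2) 1) (rename (Equiv.swap (0 : Fin 2) 1) f) = f := by
    intro f
    rw [rename_rename]
    have : (⇑(Equiv.swap (0 : Fin 2) 1) ∘ ⇑(Equiv.swap (0 : Fin 2) 1)) = id := by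
      funext i
      simp
    rw [this, rename_id_apply]
  rw [map_add, map_mul, map_mul, hinv, hinv, map_pow, rename_X, Equiv.swap_apply_right] at h3
  refine ⟨N0 + N1, ⟨rename (Equiv.swap (0 : Fin 2) 1) A0 * X 0 ^ N1,
    rename (Equiv.swap (0 : Fin 2) 1) B0 * X 0 ^ N1, ?_⟩, ⟨A1 * X 1 ^ N0, B1 * X 1 ^ N0, ?_⟩⟩
  · rw [pow_add, ← h3]
    ring
  · rw [pow_add, ← h1]
    ring

/-- a homogeneous polynomial is determined by its value after `x ↦ s^a x`, `y ↦ s^b y` -/
theorem hom_scale {d : ℕ} {p : MvPolynomial (Fin 2) K} (hp : HomW a b d p) {R : Type*}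
    [CommRing R] [Algebra K R] (s x y : R) :
    aeval ![s ^ a * x, s ^ b * y] p = s ^ d * aeval ![x, y] p := by
  rw [aeval_def, aeval_def, eval₂_eq', eval₂_eq', Finset.mul_sum]
  refine Finset.sum_congr rfl fun e he => ?_
  have h1 := hp e (mem_support_iff.mp he)
  rw [Fin.prod_univ_two, Fin.prod_univ_two]
  simp only [Matrix.cons_val_zero, Matrix.cons_val_one]
  rw [← h1, wt, mul_pow, mul_pow, pow_add, pow_mul, pow_mul]
  ring

theorem hom_pderiv {d : ℕ} {p : MvPolynomial (Fin 2) K} (hp : HomW a b d p) (j : Fin 2) :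
    HomW a b (d - ![a, b] j) (pderiv j p) := by
  rcases le_or_gt (![a, b] j) d with h | h
  · rw [HomP_iff] at hp ⊢
    exact hp.pderiv (Nat.sub_add_cancel h)
  · have h0 : pderiv j p = 0 := by
      apply pderiv_eq_zero_of_notMem_vars
      intro hj
      rw [mem_vars] at hj
      obtain ⟨e, he, hje⟩ := hj
      have h1 := hp e (mem_support_iff.mp he)
      have h2 : e j ≠ 0 := Finsupp.mem_support_iff.mp hje
      have h3 : 1 ≤ e j := Nat.one_le_iff_ne_zero.mpr h2
      unfold wt at h1
      fin_cases j
      · simp at h h3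
        nlinarith
      · simp at h h3
        nlinarith
    rw [h0]
    intro e he
    exact absurd (coeff_zero e) he

private lemma HomP_dvd_smul {p q : MvPolynomial (Fin 2) K} (c : K) (h : p ∣ q) : p ∣ c • q := by
  rw [smul_eq_C_mul]
  exact h.mul_left _

theorem irr_grad [CharZero K] (ha : 0 < a) (hb : 0 < b) {p : MvPolynomial (Fin 2) K} {d : ℕ}
    (hp : HomW a b d p) (hi : Irreducible p) : IsRelPrime (pderiv 0 p) (pderiv 1 p) := by
  have hE : ((a : K) • (X 0 * pderiv 0 p) + (b : K) • (X 1 * pderiv 1 p) :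
      MvPolynomial (Fin 2) K) = (d : K) • p := by
    have h1 := (HomP_iff.mp hp).sum_weight_X_mul_pderiv
    rw [Fin.sum_univ_two] at h1
    simp only [Matrix.cons_val_zero, Matrix.cons_val_one] at h1
    rw [Nat.cast_smul_eq_nsmul, Nat.cast_smul_eq_nsmul, Nat.cast_smul_eq_nsmul]
    exact h1
  have hd : d ≠ 0 := by
    intro hd
    have hc : p = C (coeff 0 p) := by
      ext e
      rw [coeff_C]
      by_cases he : (0 : Fin 2 →₀ ℕ) = e
      · rw [if_pos he, he]
      · rw [if_neg he]
        by_contra hne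
        have h1 := hp e hne
        rw [hd, wt] at h1
        apply he
        have h2 : e 0 = 0 := by
          by_contra h0
          have : 0 < a * e 0 := Nat.mul_pos ha (Nat.pos_of_ne_zero h0)
          omega
        have h3 : e 1 = 0 := by
          by_contra h0
          have : 0 < b * e 1 := Nat.mul_pos hb (Nat.pos_of_ne_zero h0)
          omega
        ext i
        fin_cases i
        · simp [h2]
        · simp [h3]
    by_cases h0 : coeff 0 p = 0
    · rw [h0, C_0] at hc
      exact hi.ne_zero hc
    · apply hi.not_isUnit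
      rw [hc]
      exact (IsUnit.mk0 _ h0).map C
  have hdK : (d : K) ≠ 0 := Nat.cast_ne_zero.mpr hd
  have hdp : ∀ j : Fin 2, p ∣ pderiv j p → pderiv j p = 0 := by
    rintro j ⟨r, hr⟩
    by_contra hne
    obtain ⟨f, hf⟩ := hom_dvd ha hb hne (hom_pderiv hp j) ⟨p, by rw [hr, mul_comm]⟩
    have h1 := (HomP_iff.mp hp).mul (HomP_iff.mp hf)
    rw [← hr] at h1
    have h2 := h1.inj_right hne (HomP_iff.mp (hom_pderiv hp j))
    have h3 : 0 < ![a, b] j := by
      fin_cases j
      · simpa using ha
      · simpa using hb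
    omega
  have hne : ¬ (pderiv 0 p = 0 ∧ pderiv 1 p = 0) := by
    rintro ⟨h1, h2⟩
    rw [h1, h2, mul_zero, mul_zero, smul_zero, smul_zero, add_zero] at hE
    exact (smul_ne_zero hdK hi.ne_zero) hE.symm
  intro g hg0 hg1
  by_contra hgu
  have hg : g ≠ 0 := by
    rintro rfl
    exact hne ⟨zero_dvd_iff.mp hg0, zero_dvd_iff.mp hg1⟩
  obtain ⟨π, hπ, hπg⟩ := WfDvdMonoid.exists_irreducible_factor hgu hg
  have hπp : π ∣ p := by
    have h1 : π ∣ (d : K) • p := by
      rw [← hE]
      exact dvd_add (HomP_dvd_smul _ (((hπg.trans hg0)).mul_left _))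
        (HomP_dvd_smul _ (((hπg.trans hg1)).mul_left _))
    have h2 : p = (d : K)⁻¹ • ((d : K) • p) := by rw [smul_smul, inv_mul_cancel₀ hdK, one_smul]
    rw [h2]
    exact HomP_dvd_smul _ h1
  have hass : Associated π p := hπ.associated_of_dvd hi hπp
  exact hne ⟨hdp 0 (hass.symm.dvd.trans (hπg.trans hg0)),
    hdp 1 (hass.symm.dvd.trans (hπg.trans hg1))⟩

theorem common_factors {J : Type} [Finite J] (F : J → MvPolynomial (Fin 2) K) :
    ∃ (s : Finset (MvPolynomial (Fin 2) K)) (m : J → MvPolynomial (Fin 2) K → ℕ) (u : J → K),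
      (∀ p ∈ s, Irreducible p) ∧ (∀ p ∈ s, ∀ q ∈ s, p ≠ q → IsRelPrime p q) ∧
      ∀ h, F h ≠ 0 → u h ≠ 0 ∧ F h = C (u h) * ∏ p ∈ s, p ^ m h p := by
  classical
  cases nonempty_fintype J
  let rep : MvPolynomial (Fin 2) K → MvPolynomial (Fin 2) K := fun x => Quot.out (Associates.mk x)
  have hrep : ∀ x, Associated (rep x) x := fun x => Associates.mk_quot_out x
  have hrep2 : ∀ x y, Associated x y → rep x = rep y := by
    intro x y hxy
    show Quot.out (Associates.mk x) = Quot.out (Associates.mk y)
    rw [Associates.mk_eq_mk_iff_associated.mpr hxy]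
  have h1 : ∀ h, ∃ (f : Multiset (MvPolynomial (Fin 2) K)) (u : K), F h ≠ 0 →
      (∀ q ∈ f, Irreducible q ∧ rep q = q) ∧ u ≠ 0 ∧ F h = C u * f.prod := by
    intro h
    by_cases hF : F h = 0
    · exact ⟨0, 0, fun h' => absurd hF h'⟩
    obtain ⟨f0, hf0, hprod⟩ := WfDvdMonoid.exists_factors (F h) hF
    have hass : Associated (f0.map rep).prod f0.prod := by
      clear hf0 hprod
      induction f0 using Multiset.induction_on with
      | empty => simp
      | cons x f ih =>
        rw [Multiset.map_cons, Multiset.prod_cons, Multiset.prod_cons]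
        exact (hrep x).mul_mul ih
    obtain ⟨v, hv⟩ := hass.trans hprod
    obtain ⟨r, hr, hr2⟩ := isUnit_iff_eq_C_of_isReduced.mp v.isUnit
    refine ⟨f0.map rep, r, fun _ => ⟨?_, hr.ne_zero, ?_⟩⟩
    · intro q hq
      obtain ⟨x, hx, rfl⟩ := Multiset.mem_map.mp hq
      exact ⟨(hrep x).symm.irreducible (hf0 x hx), hrep2 _ _ (hrep x)⟩
    · rw [← hv, hr2, mul_comm]
  choose f u hfu using h1
  refine ⟨Finset.univ.biUnion fun h => if F h = 0 then ∅ else (f h).toFinset,
    fun h p => (f h).count p, u, ?_, ?_, ?_⟩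
  · intro p hp
    obtain ⟨h, -, hh⟩ := Finset.mem_biUnion.mp hp
    by_cases hF : F h = 0
    · rw [if_pos hF] at hh
      exact absurd hh (Finset.notMem_empty _)
    · rw [if_neg hF, Multiset.mem_toFinset] at hh
      exact ((hfu h hF).1 p hh).1
  · intro p hp q hq hpq
    obtain ⟨h, -, hh⟩ := Finset.mem_biUnion.mp hp
    obtain ⟨h', -, hh'⟩ := Finset.mem_biUnion.mp hq
    by_cases hF : F h = 0
    · rw [if_pos hF] at hh
      exact absurd hh (Finset.notMem_empty _)
    by_cases hF' : F h' = 0
    · rw [if_pos hF'] at hh'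
      exact absurd hh' (Finset.notMem_empty _)
    rw [if_neg hF, Multiset.mem_toFinset] at hh
    rw [if_neg hF', Multiset.mem_toFinset] at hh'
    obtain ⟨i1, r1⟩ := (hfu h hF).1 p hh
    obtain ⟨i2, r2⟩ := (hfu h' hF').1 q hh'
    rw [i1.isRelPrime_iff_not_dvd]
    intro hdvd
    apply hpq
    rw [← r1, ← r2]
    exact hrep2 _ _ (i1.associated_of_dvd i2 hdvd)
  · intro h hF
    obtain ⟨-, h2, h3⟩ := hfu h hF
    refine ⟨h2, ?_⟩
    rw [h3]
    congr 1
    apply Finset.prod_multiset_count_of_subset
    intro p hp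
    refine Finset.mem_biUnion.mpr ⟨h, Finset.mem_univ _, ?_⟩
    rw [if_neg hF]
    exact hp

/-- multiplicities are bounded by the numbers in the definition of the mass -/
theorem mult_le {p F : MvPolynomial (Fin 2) K} {B m : ℕ} (h : ¬ p ^ (B + 1) ∣ F)
    (hm : p ^ m ∣ F) : m ≤ B := by
  by_contra hcon
  exact h ((pow_dvd_pow p (by omega)).trans hm)

end

end M3
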