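import Pool.Agent.M3.Mc
import Pool.Agent.M3.HomP

/-!
PIECE M3-G05: the Newton polygon after the substitution `y = c x^b + y'`.

PROOF. Let `ch := chA 0 (Polynomial.monomial b γ) N N`, i.e. `x = τ^N x'`, `y = γ x'^b + τ^N y'`, `γ = c τ^(b N)` in `KK κ`.
(0) The substitution is compatible with the weights `(1, b)`: a monomial `x^e` of weight `w` becomes a homogeneous
polynomial in `x', y'` of weight `w`, times powers of `τ`.  So all monomials of `ev ch (f h)` have weight `≥ d (grp h)`, and the part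
of weight `d (grp h)` of `ev ch (f h)` is `ev ch (topA 1 b d (f h)) = ev ch (toAA (F h))` (`f h = topA + ` terms of higher weight; check
`mc (ev ch g) e = 0` for `wt 1 b e < d` if all monomials of `g` have weight `≥ d`: coefficients of `τ^n` involve only finitely
many monomials).
(1) `ev ch (toAA (F h)) = toAA (F' h)` with `F' h := aeval ![C (X^N) * X 0, C γ * X 0^b + C (X^N) * X 1] (F h)`.  Over `KK κ`:
`toKK (F' h) = Φ (toKK (F h))`, `Φ` the `KK κ`-algebra automorphism `X 0 ↦ T X 0`, `X 1 ↦ c T^b X 0^b + T X 1`, `T = τ^N`.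
`Φ (X 1 - c X 0^b) = T X 1`.  So `(X 1 - c X 0^b)^B ∣ toKK (F h)` iff `X 1^B ∣ toKK (F' h)` iff all monomials of `F' h` have `e 1 ≥ B`.
(2) So by `hB1` all monomials `e` of `F' h` (those of weight `d` of `f'`) have `e 1 ≥ B (grp h)`, and by `hB2` for every `j` some `F' h`
has a monomial with `e 1 ≤ B j`, hence `= B j`.
-/

open MvPolynomial

namespace M3

universe u

section
variable {κ : Type u} [Field κ]

private lemma ShiftF_wt {a b : ℕ} (e : Fin 2 →₀ ℕ) : Finsupp.weight ![a, b] e = wt a b e := by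
  rw [Finsupp.weight_apply, Finsupp.sum_fintype _ _ (by simp), Fin.sum_univ_two]
  simp [wt, mul_comm]

/-- all coefficients are homogeneous of weight `d` -/
private def ShiftF_H (b d : ℕ) (g : AA κ) : Prop :=
  ∀ n, PowerSeries.coeff n g ∈ weightedHomogeneousSubmodule κ ![1, b] d

private lemma ShiftF_add {b d : ℕ} {g g' : AA κ} (h : ShiftF_H b d g) (h' : ShiftF_H b d g') :
    ShiftF_H b d (g + g') := by
  intro n
  rw [map_add]
  exact add_mem (h n) (h' n)

private lemma ShiftF_mul {b d d' : ℕ} {g g' : AA κ} (h : ShiftF_H b d g)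
    (h' : ShiftF_H b d' g') : ShiftF_H b (d + d') (g * g') := by
  intro n
  rw [PowerSeries.coeff_mul]
  refine sum_mem fun p _ => ?_
  rw [mem_weightedHomogeneousSubmodule]
  exact ((mem_weightedHomogeneousSubmodule _ _ _ _).1 (h _)).mul
    ((mem_weightedHomogeneousSubmodule _ _ _ _).1 (h' _))

private lemma ShiftF_one {b : ℕ} : ShiftF_H b 0 (1 : AA κ) := by
  intro n
  rw [PowerSeries.coeff_one]
  split_ifs
  · rw [mem_weightedHomogeneousSubmodule]
    exact isWeightedHomogeneous_one _ _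
  · exact zero_mem _

private lemma ShiftF_pow {b d : ℕ} {g : AA κ} (h : ShiftF_H b d g) (n : ℕ) :
    ShiftF_H b (n * d) (g ^ n) := by
  induction n with
  | zero =>
    rw [zero_mul, pow_zero]
    exact ShiftF_one
  | succ n ih =>
    rw [pow_succ, add_mul, one_mul]
    exact ShiftF_mul ih h

private lemma ShiftF_X {b d : ℕ} {g : AA κ} (h : ShiftF_H b d g) (N : ℕ) :
    ShiftF_H b d (PowerSeries.X ^ N * g) := by
  intro n
  rw [PowerSeries.coeff_X_pow_mul']
  split_ifs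
  · exact h _
  · exact zero_mem _

private lemma ShiftF_cA {b : ℕ} (c : PowerSeries κ) : ShiftF_H b 0 (cA c) := by
  intro n
  unfold cA
  rw [PowerSeries.coeff_map, mem_weightedHomogeneousSubmodule]
  exact isWeightedHomogeneous_C _ _

private lemma ShiftF_xA {b : ℕ} (j : Fin 2) : ShiftF_H b ((![1, b] : Fin 2 → ℕ) j) (xA j : AA κ) := by
  intro n
  unfold xA
  rw [PowerSeries.coeff_C]
  split_ifs
  · rw [mem_weightedHomogeneousSubmodule]
    exact isWeightedHomogeneous_X _ _ _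
  · exact zero_mem _

/-- the chart -/
private noncomputable abbrev ShiftF_P (b N : ℕ) (γ : PowerSeries κ) : Fin 2 → AA κ :=
  chA 0 (Polynomial.monomial b γ) N N

private lemma ShiftF_P0 (b N : ℕ) (γ : PowerSeries κ) :
    ShiftF_P b N γ 0 = PowerSeries.X ^ N * xA 0 := by
  unfold ShiftF_P chA
  simp

private lemma ShiftF_P1 (b N : ℕ) (γ : PowerSeries κ) :
    ShiftF_P b N γ 1 = cA γ * xA 0 ^ b + PowerSeries.X ^ N * xA 1 := by
  unfold ShiftF_P chA
  simp

private lemma ShiftF_mono (b N : ℕ) (γ : PowerSeries κ) (u : Fin 2 →₀ ℕ) (a : κ) :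
    ShiftF_H b (wt 1 b u) (aeval (ShiftF_P b N γ) (monomial u a)) := by
  rw [aeval_monomial, Finsupp.prod_fintype _ _ (fun i => pow_zero _), Fin.prod_univ_two,
    ShiftF_P0, ShiftF_P1]
  have h0 : ShiftF_H b 0 (algebraMap κ (AA κ) a) := by
    have h4 : algebraMap κ (AA κ) a = cA (PowerSeries.C a) := by
      unfold cA
      rw [PowerSeries.map_C, PowerSeries.algebraMap_apply, MvPolynomial.algebraMap_eq]
    rw [h4]
    exact ShiftF_cA _
  have h1 : ShiftF_H b 1 (PowerSeries.X ^ N * xA 0 : AA κ) := ShiftF_X (ShiftF_xA 0) N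
  have h2 : ShiftF_H b b (cA γ * xA 0 ^ b + PowerSeries.X ^ N * xA 1 : AA κ) := by
    refine ShiftF_add ?_ (ShiftF_X (ShiftF_xA 1) N)
    have h3 := ShiftF_mul (ShiftF_cA (b := b) γ) (ShiftF_pow (ShiftF_xA (κ := κ) (b := b) 0) b)
    simpa using h3
  have h5 := ShiftF_mul h0 (ShiftF_mul (ShiftF_pow h1 (u 0)) (ShiftF_pow h2 (u 1)))
  have h6 : 0 + (u 0 * 1 + u 1 * b) = wt 1 b u := by
    unfold wt
    ring
  rwa [h6] at h5

private lemma ShiftF_supp {b N : ℕ} {γ : PowerSeries κ} {q : MvPolynomial (Fin 2) κ} {j : ℕ}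
    {e : Fin 2 →₀ ℕ} (h : coeff e (PowerSeries.coeff j (aeval (ShiftF_P b N γ) q)) ≠ 0) :
    ∃ u, coeff u q ≠ 0 ∧ wt 1 b e = wt 1 b u := by
  rw [← support_sum_monomial_coeff q, map_sum, map_sum, coeff_sum] at h
  obtain ⟨u, hu, hne⟩ := Finset.exists_ne_zero_of_sum_ne_zero h
  refine ⟨u, mem_support_iff.1 hu, ?_⟩
  have h1 := ShiftF_mono b N γ u (coeff u q) j
  rw [mem_weightedHomogeneousSubmodule] at h1
  rw [← ShiftF_wt]
  exact h1 hne

private lemma ShiftF_ev {b N : ℕ} {γ : PowerSeries κ} {f : AA κ} {e : Fin 2 →₀ ℕ}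
    (h : mc (ev (ShiftF_P b N γ) f) e ≠ 0) : ∃ u, mc f u ≠ 0 ∧ wt 1 b e = wt 1 b u := by
  obtain ⟨n, hn⟩ : ∃ n, PowerSeries.coeff n (mc (ev (ShiftF_P b N γ) f) e) ≠ 0 := by
    by_contra hcon
    push Not at hcon
    apply h
    ext n
    rw [hcon n, map_zero]
  rw [coeff_mc, coeff_ev, coeff_sum] at hn
  obtain ⟨p, -, hp⟩ := Finset.exists_ne_zero_of_sum_ne_zero hn
  obtain ⟨u, hu, hw⟩ := ShiftF_supp hp
  refine ⟨u, fun h0 => hu ?_, hw⟩
  rw [← coeff_mc, h0, map_zero]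

private lemma ShiftF_top {b N d : ℕ} {γ : PowerSeries κ} {f : AA κ}
    (hd : ∀ e, mc f e ≠ 0 → d ≤ wt 1 b e) {e : Fin 2 →₀ ℕ} (he : wt 1 b e = d) :
    mc (ev (ShiftF_P b N γ) f) e = mc (ev (ShiftF_P b N γ) (topA 1 b d f)) e := by
  have h1 : mc (ev (ShiftF_P b N γ) (f - topA 1 b d f)) e = 0 := by
    by_contra hne
    obtain ⟨u, hu, hw⟩ := ShiftF_ev hne
    rw [mc_sub, mc_topA] at hu
    by_cases h2 : wt 1 b u = d
    · rw [if_pos h2, sub_self] at hu
      exact hu rfl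
    · exact h2 (hw ▸ he)
  rw [ev_sub, mc_sub, sub_eq_zero] at h1
  exact h1

/-- the substitution on polynomials over `k[[τ]]` -/
private noncomputable def ShiftF_F (b N : ℕ) (γ : PowerSeries κ)
    (F : MvPolynomial (Fin 2) (PowerSeries κ)) : MvPolynomial (Fin 2) (PowerSeries κ) :=
  aeval ![C (PowerSeries.X ^ N) * X 0, C γ * X 0 ^ b + C (PowerSeries.X ^ N) * X 1] F

private lemma ShiftF_toAA (b N : ℕ) (γ : PowerSeries κ)
    (F : MvPolynomial (Fin 2) (PowerSeries κ)) :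
    ev (ShiftF_P b N γ) (toAA F) = toAA (ShiftF_F b N γ F) := by
  have hX : cA (PowerSeries.X ^ N : PowerSeries κ) = (PowerSeries.X ^ N : AA κ) := by
    unfold cA
    rw [map_pow, PowerSeries.map_X]
  have h : (evH (ShiftF_P b N γ)).comp toAA = (toAA (k := κ)).comp
      (aeval (R := PowerSeries κ) ![C (PowerSeries.X ^ N) * X 0,
        C γ * X 0 ^ b + C (PowerSeries.X ^ N) * X 1]).toRingHom := by
    refine MvPolynomial.ringHom_ext (fun c => ?_) (fun j => ?_)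
    · rw [RingHom.comp_apply, evH_apply, toAA_C, ev_cA, RingHom.comp_apply]
      show _ = toAA (aeval _ (C c))
      rw [aeval_C, MvPolynomial.algebraMap_eq, MvPolynomial.algebraMap_eq, toAA_C]
      rfl
    · rw [RingHom.comp_apply, evH_apply, toAA_X, ev_xA, RingHom.comp_apply]
      show _ = toAA (aeval _ (X j))
      rw [aeval_X]
      fin_cases j
      · show ShiftF_P b N γ 0 = toAA (C (PowerSeries.X ^ N) * X 0)
        rw [ShiftF_P0, map_mul, toAA_C, toAA_X, hX]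
      · show ShiftF_P b N γ 1 = toAA (C γ * X 0 ^ b + C (PowerSeries.X ^ N) * X 1)
        rw [ShiftF_P1, map_add, map_mul, map_mul, map_pow, toAA_C, toAA_C, toAA_X, toAA_X, hX]
  exact RingHom.congr_fun h F

private lemma ShiftF_X1 {K : Type u} [Field K] {n : ℕ} {p : MvPolynomial (Fin 2) K}
    (h : X 1 ^ n ∣ p) {e : Fin 2 →₀ ℕ} (he : coeff e p ≠ 0) : n ≤ e 1 := by
  obtain ⟨q, rfl⟩ := h
  rw [X_pow_eq_monomial, coeff_monomial_mul'] at he
  by_contra hn
  rw [if_neg] at he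
  · exact he rfl
  · intro h1
    have h2 := h1 1
    rw [Finsupp.single_eq_same] at h2
    exact hn h2

private lemma ShiftF_X1' {K : Type u} [Field K] {n : ℕ} {p : MvPolynomial (Fin 2) K}
    (h : ¬ X 1 ^ n ∣ p) : ∃ e : Fin 2 →₀ ℕ, coeff e p ≠ 0 ∧ e 1 < n := by
  by_contra hcon
  push Not at hcon
  apply h
  rw [X_pow_eq_monomial, monomial_one_dvd_iff_modMonomial_eq_zero]
  ext e
  rw [coeff_zero]
  by_cases he : Finsupp.single 1 n ≤ e
  · exact coeff_modMonomial_of_le _ he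
  · rw [coeff_modMonomial_of_not_le _ he]
    by_contra hc
    apply he
    rw [Finsupp.single_le_iff]
    exact hcon e hc

/-- the substitution over the field of Laurent series -/
private noncomputable def ShiftF_Phi (b : ℕ) (c T : KK κ) :
    MvPolynomial (Fin 2) (KK κ) →ₐ[KK κ] MvPolynomial (Fin 2) (KK κ) :=
  aeval ![C T * X 0, C (c * T ^ b) * X 0 ^ b + C T * X 1]

private lemma ShiftF_Phi0 (b : ℕ) (c T : KK κ) : ShiftF_Phi b c T (X 0) = C T * X 0 := by
  unfold ShiftF_Phi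
  rw [aeval_X]
  rfl

private lemma ShiftF_Phi1 (b : ℕ) (c T : KK κ) :
    ShiftF_Phi b c T (X 1) = C (c * T ^ b) * X 0 ^ b + C T * X 1 := by
  unfold ShiftF_Phi
  rw [aeval_X]
  rfl

private lemma ShiftF_PhiC (b : ℕ) (c T t : KK κ) : ShiftF_Phi b c T (C t) = C t := by
  unfold ShiftF_Phi
  rw [aeval_C, MvPolynomial.algebraMap_eq]

private lemma ShiftF_PhiL (b : ℕ) (c T : KK κ) :
    ShiftF_Phi b c T (X 1 - C c * X 0 ^ b) = C T * X 1 := by
  rw [map_sub, map_mul, map_pow, ShiftF_Phi0, ShiftF_Phi1, ShiftF_PhiC, mul_pow, ← C_pow, C_mul]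
  ring

private lemma ShiftF_Phi_dvd (b : ℕ) {c T : KK κ} (hT : T ≠ 0) {n : ℕ}
    {G : MvPolynomial (Fin 2) (KK κ)} (h : X 1 ^ n ∣ ShiftF_Phi b c T G) :
    (X 1 - C c * X 0 ^ b) ^ n ∣ G := by
  let Ψ : MvPolynomial (Fin 2) (KK κ) →ₐ[KK κ] MvPolynomial (Fin 2) (KK κ) :=
    aeval ![C T⁻¹ * X 0, C T⁻¹ * (X 1 - C c * X 0 ^ b)]
  have hcc : (C T * C T⁻¹ : MvPolynomial (Fin 2) (KK κ)) = 1 := by
    rw [← C_mul, mul_inv_cancel₀ hT, C_1]
  have h1 : Ψ (X 0) = C T⁻¹ * X 0 := by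
    show aeval _ (X 0) = _
    rw [aeval_X]
    rfl
  have h3 : Ψ (X 1) = C T⁻¹ * (X 1 - C c * X 0 ^ b) := by
    show aeval _ (X 1) = _
    rw [aeval_X]
    rfl
  have h2 : ∀ t, Ψ (C t) = C t := by
    intro t
    show aeval _ (C t) = _
    rw [aeval_C, MvPolynomial.algebraMap_eq]
  have hΨ : Ψ.comp (ShiftF_Phi b c T) = AlgHom.id _ _ := by
    refine MvPolynomial.algHom_ext fun j => ?_
    rw [AlgHom.comp_apply, AlgHom.id_apply]
    fin_cases j
    · show Ψ (ShiftF_Phi b c T (X 0)) = X 0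
      rw [ShiftF_Phi0, map_mul, h1, h2, ← mul_assoc, hcc, one_mul]
    · show Ψ (ShiftF_Phi b c T (X 1)) = X 1
      rw [ShiftF_Phi1, map_add, map_mul Ψ, map_mul Ψ, map_pow Ψ, h1, h2, h2, h3,
        C_mul, mul_pow, ← C_pow T⁻¹]
      have h4 : (C (T ^ b) * C (T⁻¹ ^ b) : MvPolynomial (Fin 2) (KK κ)) = 1 := by
        rw [← C_mul, ← mul_pow, mul_inv_cancel₀ hT, one_pow, C_1]
      calc (C c * C (T ^ b) * (C (T⁻¹ ^ b) * X 0 ^ b) + C T * (C T⁻¹ * (X 1 - C c * X 0 ^ b)) :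
            MvPolynomial (Fin 2) (KK κ)) = C c * (C (T ^ b) * C (T⁻¹ ^ b)) * X 0 ^ b +
            (C T * C T⁻¹) * (X 1 - C c * X 0 ^ b) := by ring
        _ = X 1 := by rw [h4, hcc]; ring
  have h5 := map_dvd Ψ h
  rw [← AlgHom.comp_apply, hΨ, AlgHom.id_apply, map_pow, h3] at h5
  exact (pow_dvd_pow_of_dvd (dvd_mul_left _ _) n).trans h5

private lemma ShiftF_toKK {b N : ℕ} {γ : PowerSeries κ} {c : KK κ}
    (hγ : algebraMap (PowerSeries κ) (KK κ) γ =
      c * algebraMap (PowerSeries κ) (KK κ) (PowerSeries.X ^ (b * N)))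
    (F : MvPolynomial (Fin 2) (PowerSeries κ)) :
    toKK (ShiftF_F b N γ F) =
      ShiftF_Phi b c (algebraMap (PowerSeries κ) (KK κ) (PowerSeries.X ^ N)) (toKK F) := by
  have hT : c * (algebraMap (PowerSeries κ) (KK κ) (PowerSeries.X ^ N)) ^ b =
      algebraMap (PowerSeries κ) (KK κ) γ := by
    rw [hγ, ← map_pow, ← pow_mul, mul_comm N b]
  set T : KK κ := algebraMap (PowerSeries κ) (KK κ) (PowerSeries.X ^ N) with hTdef
  have hC : ∀ r : PowerSeries κ, toKK (C r) = C (algebraMap (PowerSeries κ) (KK κ) r) := by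
    intro r
    unfold toKK
    rw [map_C]
  have hX : ∀ j : Fin 2, toKK (X j : MvPolynomial (Fin 2) (PowerSeries κ)) = X j := by
    intro j
    unfold toKK
    rw [map_X]
  have h : (toKK (k := κ)).comp (aeval (R := PowerSeries κ) ![C (PowerSeries.X ^ N) * X 0,
      C γ * X 0 ^ b + C (PowerSeries.X ^ N) * X 1]).toRingHom =
      (ShiftF_Phi b c T).toRingHom.comp toKK := by
    refine MvPolynomial.ringHom_ext (fun r => ?_) (fun j => ?_)
    · rw [RingHom.comp_apply, RingHom.comp_apply, hC]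
      show toKK (aeval _ (C r)) = ShiftF_Phi b c T (C _)
      rw [aeval_C, MvPolynomial.algebraMap_eq, hC, ShiftF_PhiC]
    · rw [RingHom.comp_apply, RingHom.comp_apply, hX]
      show toKK (aeval _ (X j)) = ShiftF_Phi b c T (X j)
      rw [aeval_X]
      fin_cases j
      · show toKK (C (PowerSeries.X ^ N) * X 0) = ShiftF_Phi b c T (X 0)
        rw [ShiftF_Phi0, map_mul, hC, hX]
      · show toKK (C γ * X 0 ^ b + C (PowerSeries.X ^ N) * X 1) = ShiftF_Phi b c T (X 1)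
        rw [ShiftF_Phi1, map_add, map_mul, map_mul, map_pow, hC, hC, hX, hX, hT]
  exact RingHom.congr_fun h F

end

theorem shift_face {κ : Type u} [Field κ] {r : ℕ} {J : Type} {b : ℕ} (hb : 0 < b)
    {grp : J → Fin r} {f : J → AA κ} {d B : Fin r → ℕ}
    (hd : ∀ h e, mc (f h) e ≠ 0 → d (grp h) ≤ wt 1 b e)
    {F : J → MvPolynomial (Fin 2) (PowerSeries κ)}
    (hF : ∀ h, toAA (F h) = topA 1 b (d (grp h)) (f h)) (c : KK κ) (γ : PowerSeries κ) (N : ℕ)
    (hγ : algebraMap (PowerSeries κ) (KK κ) γ =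
      c * algebraMap (PowerSeries κ) (KK κ) (PowerSeries.X ^ (b * N)))
    (hB1 : ∀ h, (X 1 - C c * X 0 ^ b) ^ B (grp h) ∣ toKK (F h))
    (hB2 : ∀ j, ∃ h, grp h = j ∧ ¬ (X 1 - C c * X 0 ^ b) ^ (B j + 1) ∣ toKK (F h)) :
    (∀ h e, mc (ev (chA 0 (Polynomial.monomial b γ) N N) (f h)) e ≠ 0 →
      d (grp h) ≤ wt 1 b e) ∧
    (∀ h e, mc (ev (chA 0 (Polynomial.monomial b γ) N N) (f h)) e ≠ 0 →
      wt 1 b e = d (grp h) → B (grp h) ≤ e 1) ∧
    ∀ j, ∃ h, grp h = j ∧ ∃ e, mc (ev (chA 0 (Polynomial.monomial b γ) N N) (f h)) e ≠ 0 ∧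
      e 1 = B j ∧ wt 1 b e = d j := by
  have hinj : Function.Injective (algebraMap (PowerSeries κ) (KK κ)) :=
    IsFractionRing.injective _ _
  set T : KK κ := algebraMap (PowerSeries κ) (KK κ) (PowerSeries.X ^ N) with hT
  have hT0 : T ≠ 0 := by
    rw [hT, Ne, map_eq_zero_iff _ hinj]
    exact pow_ne_zero _ PowerSeries.X_ne_zero
  have hco : ∀ (G : MvPolynomial (Fin 2) (PowerSeries κ)) (e : Fin 2 →₀ ℕ),
      coeff e (toKK G) ≠ 0 ↔ coeff e G ≠ 0 := by
    intro G e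
    unfold toKK
    rw [coeff_map, Ne, map_eq_zero_iff _ hinj]
  have hmc : ∀ h e, mc (ev (ShiftF_P b N γ) (toAA (F h))) e = coeff e (ShiftF_F b N γ (F h)) := by
    intro h e
    rw [ShiftF_toAA, mc_toAA]
  have htop : ∀ h e, wt 1 b e = d (grp h) →
      mc (ev (ShiftF_P b N γ) (f h)) e = coeff e (ShiftF_F b N γ (F h)) := by
    intro h e he
    rw [ShiftF_top (hd h) he, ← hF h, hmc]
  have hwt : ∀ h e, coeff e (ShiftF_F b N γ (F h)) ≠ 0 → wt 1 b e = d (grp h) := by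
    intro h e he
    rw [← hmc, hF h] at he
    obtain ⟨u, hu, hw⟩ := ShiftF_ev he
    rw [mc_topA] at hu
    by_cases h2 : wt 1 b u = d (grp h)
    · rw [hw, h2]
    · rw [if_neg h2] at hu
      exact absurd rfl hu
  have hB : ∀ h e, coeff e (ShiftF_F b N γ (F h)) ≠ 0 → B (grp h) ≤ e 1 := by
    intro h e he
    rw [← hco, ShiftF_toKK hγ] at he
    refine ShiftF_X1 ?_ he
    have h1 := map_dvd (ShiftF_Phi b c T) (hB1 h)
    rw [map_pow, ShiftF_PhiL] at h1
    exact (pow_dvd_pow_of_dvd (dvd_mul_left _ _) _).trans h1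
  refine ⟨fun h e he => ?_, fun h e he hw => ?_, fun j => ?_⟩
  · obtain ⟨u, hu, hw⟩ := ShiftF_ev he
    rw [hw]
    exact hd h u hu
  · refine hB h e ?_
    rw [← htop h e hw]
    exact he
  · obtain ⟨h, h1, h2⟩ := hB2 j
    have h3 : ¬ X 1 ^ (B j + 1) ∣ ShiftF_Phi b c T (toKK (F h)) := fun h4 =>
      h2 (ShiftF_Phi_dvd b hT0 h4)
    rw [hT, ← ShiftF_toKK hγ] at h3
    obtain ⟨e, he, hlt⟩ := ShiftF_X1' h3
    rw [hco] at he
    have h5 := hB h e he
    have h6 := hwt h e he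
    rw [h1] at h5 h6
    refine ⟨h, h1, e, ?_, by omega, h6⟩
    have h7 := htop h e (by rw [h1]; exact h6)
    show mc (ev (ShiftF_P b N γ) (f h)) e ≠ 0
    rw [h7]
    exact he

end M3
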