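import Pool.Agent.M3.LimCh

/-!
PIECE M3-G06: slow rescaling.

PROOF. For `ρ : ℕ` let `ψ_ρ := ![X^(a ρ) * xA 0, X^(b ρ) * xA 1] = chA 0 0 (a ρ) (b ρ)`.  For `M : ℕ` let `E_M` be the set of `i` such that
(i) `X^(b M) ∣ P i 0`, `X^(b M) ∣ P i 1` (hence also `X^(a M)`; use `max a b`), (ii) for every `h` and every `e` with `wt a b e < d (grp h)`:
`X^(M (d (grp h) + 1)) ∣ mc (c i h) e`, (iii) `Cod k (P i) (C i)`, `OrdGe grp (c i) (P i) (n i)`, (iv) `M ≤ i`.
`E_M ∈ Uf` for all `M`: (ii) concerns finitely many `e` (`a, b > 0`) and the limit `mc (f h) e` is `0` (`IsLim.mc`, `isLimS_dvd`),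
(i) `P i → 0`, (iv) `Uf` is the hyperfilter.  `ρ i :=` the largest `M ≤ i` with `i ∈ E_M` (`0` if there is none; `E_0 ∈ Uf`);
`i ∈ E_(ρ i)` for almost all `i`, and `ρ i ≥ M` on `E_M`, so `ρ → ∞`: for every `M`, `ρ i ≥ M` for almost all `i`.
For such `i` define: `P' i` := the arc with `P i = ev (P' i) ψ_(ρ i)` (divide by `X^(a ρ)`, `X^(b ρ)`), `C' i := C i - (a + b) ρ i`,
`n' i j := n i j - d j ρ i`.  `mc (ev ψ_ρ (c i h)) e = X^(ρ wt a b e) * mc (c i h) e` (`mc_scale`) is divisible by `X^(d ρ)`, `d = d (grp h)`: for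
`wt e ≥ d` clear, for `wt e < d` by (ii).  So `ev ψ_ρ (c i h) = X^(d ρ) * c' i h`, with
`mc (c' i h) e = X^(ρ (wt e - d)) * mc (c i h) e` for `wt e ≥ d`, and `X^(d ρ) mc (c' i h) e = X^(ρ wt e) mc (c i h) e ∈ X^(ρ (d + 1))` for `wt e < d`,
so `X^ρ ∣ mc (c' i h) e`.  (For the remaining `i` put `c' i := 0`.)
(1) `IsLim (c' · h) (toAA (F h))`: for given `m` and `ρ i > m` the coefficient of `τ^m` of `c' i h` only has monomials of weight
exactly `d`, with the coefficient of `c i h`; so the degree is bounded (`≤ d`) and the limit is that of `f h` in weight `d`.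
(2) `Adm`: `cod_chA_inv`, `ev_ev`, and `X^(n i j) ∣ X^(d ρ) * ev (P' i) (c' i h)`.
(3) Domination. Let `D := Dom (l lam) c' C' n'` with bound `ℓ`: for almost all `i` an arc `Q` over `Om k`, `C₁ ≤ ℓ`, `n₁ ≤ ℓ`,
`C₁ - ∑ l lam j n₁ j ≤ C' i - ∑ l lam j n' i j`.
Case `l = 1`.  Fix `ρ₀ := ℓ + 1`.  For almost all `i`, `ρ i > ℓ`, and `ev ψ_(ρ₀) (c i h) = X^(d ρ₀) * c₀ i h` where (as above, `ρ₀` in place of `ρ i`,
`i ∈ E_(ρ₀)`) `c₀ i h ≡ c' i h` modulo `X^ℓ`: both are congruent modulo `X^(ℓ+1)` to the part of weight `d` of `c i h`.  So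
`X^(n₁ (grp h)) ∣ ev Q (c₀ i h)`, and the arc `Q₀ := ev Q ψ_(ρ₀)` has `Cod k Q₀ (C₁ + (a+b) ρ₀)` (`cod_chA`) and orders `n₁ j + d j ρ₀`, with the value
`C₁ + (a+b) ρ₀ - ∑ lam j (n₁ j + d j ρ₀) = C₁ - ∑ lam j n₁ j` (`∑ lam j d j = a + b`)
`≤ C' i - ∑ lam j n' i j ≤ C i - (a+b) ρ i - ∑ lam j (n i j - d j ρ i) = C i - ∑ lam j n i j` (real subtraction, `n' ≥ n - d ρ`).
So `Dom lam c C n` with the bound `ℓ + (a + b) ρ₀ + ∑ d j ρ₀`.
Case `l > 1`.  `C' i - ∑ l lam j n' i j ≥ -K`, `K := l ∑ lam j ℓ`.  `n i j ≤ n' i j + d j ρ i` and `C i ≥ C' i + (a+b) ρ i`, so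
`C i - ∑ lam j n i j ≥ C' i + (a+b) ρ i - ∑ lam j n' i j - ρ i ∑ lam j d j ≥ (l - 1) ∑ lam j n' i j - K + (a + b)(1 - 1/l) ρ i ≥ 0` for almost all `i`
(`ρ i → ∞`).  `dom_of_nonneg`.
-/

open MvPolynomial

namespace M3

universe u

private theorem slow_cancel {K : Type*} [Field K] {m n : ℕ} {y : PowerSeries K}
    (h : (PowerSeries.X : PowerSeries K) ^ n ∣ PowerSeries.X ^ m * y) :
    (PowerSeries.X : PowerSeries K) ^ (n - m) ∣ y := by
  rcases le_total n m with hnm | hnm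
  · rw [Nat.sub_eq_zero_of_le hnm, pow_zero]
    exact one_dvd _
  · obtain ⟨q, rfl⟩ := Nat.exists_eq_add_of_le hnm
    rw [pow_add] at h
    rw [Nat.add_sub_cancel_left]
    exact (mul_dvd_mul_iff_left (pow_ne_zero _ PowerSeries.X_ne_zero)).1 h

private theorem slow_div {k : Type u} [Field k] (a b ρ dd : ℕ) (g : AA k)
    (hg : ∀ e, wt a b e < dd → (PowerSeries.X : PowerSeries k) ^ (ρ * (dd + 1)) ∣ mc g e) :
    ∃ g' : AA k, ev ![PowerSeries.X ^ (a * ρ) * xA 0, PowerSeries.X ^ (b * ρ) * xA 1] g =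
        PowerSeries.X ^ (dd * ρ) * g' ∧
      (∀ e, dd ≤ wt a b e → mc g' e = PowerSeries.X ^ (ρ * (wt a b e - dd)) * mc g e) ∧
      (∀ e, wt a b e < dd → (PowerSeries.X : PowerSeries k) ^ ρ ∣ mc g' e) := by
  have hx : (PowerSeries.X : PowerSeries k) ≠ 0 := PowerSeries.X_ne_zero
  have hsc : ∀ e, mc (ev ![PowerSeries.X ^ (a * ρ) * xA 0, PowerSeries.X ^ (b * ρ) * xA 1] g) e =
      PowerSeries.X ^ (ρ * wt a b e) * mc g e := by
    intro e
    rw [mc_scale]
    congr 2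
    unfold wt
    ring
  obtain ⟨g', hg'⟩ := (X_pow_dvd_iff_mc
      (ev ![PowerSeries.X ^ (a * ρ) * xA 0, PowerSeries.X ^ (b * ρ) * xA 1] g)
      (dd * ρ)).2 (fun e => by
    rw [hsc e]
    rcases lt_or_ge (wt a b e) dd with h | h
    · refine Dvd.dvd.mul_left ((pow_dvd_pow _ ?_).trans (hg e h)) _
      nlinarith
    · refine Dvd.dvd.mul_right (pow_dvd_pow _ ?_) _
      rw [Nat.mul_comm]
      exact Nat.mul_le_mul_left _ h)
  have hm : ∀ e, PowerSeries.X ^ (dd * ρ) * mc g' e = PowerSeries.X ^ (ρ * wt a b e) * mc g e := by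
    intro e
    rw [← hsc e, hg', mc_X_pow_mul]
  refine ⟨g', hg', fun e he => ?_, fun e he => ?_⟩
  · apply mul_left_cancel₀ (pow_ne_zero (dd * ρ) hx)
    rw [hm e, ← mul_assoc, ← pow_add]
    congr 2
    obtain ⟨q, hq⟩ := Nat.exists_eq_add_of_le he
    rw [hq, Nat.add_sub_cancel_left]
    ring
  · have h1 : (PowerSeries.X : PowerSeries k) ^ (ρ * (dd + 1)) ∣
        PowerSeries.X ^ (dd * ρ) * mc g' e := by
      rw [hm e]
      exact Dvd.dvd.mul_left (hg e he) _
    have h2 := slow_cancel h1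
    have h3 : ρ * (dd + 1) - dd * ρ = ρ := by
      have : ρ * (dd + 1) = dd * ρ + ρ := by ring
      rw [this, Nat.add_sub_cancel_left]
    rwa [h3] at h2

private theorem slow_seq {E : ℕ → ℕ → Prop} (hE : ∀ M, ∀ᶠ i in Uf, E M i)
    (hE' : ∀ M i, E M i → M ≤ i) :
    ∃ ρ : ℕ → ℕ, (∀ᶠ i in Uf, E (ρ i) i) ∧ ∀ M, ∀ᶠ i in Uf, M ≤ ρ i := by
  classical
  refine ⟨fun i => Nat.findGreatest (fun M => E M i) i, ?_, fun M => ?_⟩
  · refine (hE 0).mono fun i hi => ?_
    exact Nat.findGreatest_spec (P := fun M => E M i) (Nat.zero_le i) hi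
  · refine (hE M).mono fun i hi => ?_
    exact Nat.le_findGreatest (P := fun M => E M i) (hE' M i hi) hi

private theorem slow_chA {k : Type u} [Field k] (N₀ N₁ : ℕ) :
    chA (0 : PowerSeries k) 0 N₀ N₁ =
      ![PowerSeries.X ^ N₀ * xA 0, PowerSeries.X ^ N₁ * xA 1] := by
  unfold chA
  simp

private theorem slow_fin (a b : ℕ) (ha : 0 < a) (hb : 0 < b) (d : ℕ) :
    {e : Fin 2 →₀ ℕ | wt a b e < d}.Finite := by
  refine Set.Finite.subset (Set.finite_Iic
    (Finsupp.single (0 : Fin 2) d + Finsupp.single (1 : Fin 2) d)) fun e he => ?_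
  have he' : a * e 0 + b * e 1 < d := he
  have h0 : e 0 ≤ a * e 0 := Nat.le_mul_of_pos_left _ ha
  have h1 : e 1 ≤ b * e 1 := Nat.le_mul_of_pos_left _ hb
  intro j
  fin_cases j
  · simp
    omega
  · simp
    omega

theorem slow {k : Type u} [Field k] [IsAlgClosed k] [CharZero k] {r : ℕ} {J : Type} [Fintype J]
    {lam : Fin r → ℝ} (hlam : ∀ j, 0 < lam j) {grp : J → Fin r} {f : J → AA (Gm k)}
    {c : ℕ → J → AA k} (hc : ∀ h, IsLim (fun i => c i h) (f h))
    {P : ℕ → Fin 2 → PowerSeries (Om k)} {C : ℕ → ℕ} {n : ℕ → Fin r → ℕ}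
    (hA : Adm grp c P C n) (hP : IsLimP P (ratP 0)) {a b : ℕ} (ha : 0 < a) (hb : 0 < b)
    {d : Fin r → ℕ} (hd : ∀ h e, mc (f h) e ≠ 0 → d (grp h) ≤ wt a b e)
    {F : J → MvPolynomial (Fin 2) (PowerSeries (Gm k))}
    (hF : ∀ h, toAA (F h) = topA a b (d (grp h)) (f h)) {l : ℝ} (hl : 1 ≤ l)
    (hsum : l * ∑ j, lam j * d j = a + b) :
    ∃ (c' : ℕ → J → AA k) (P' : ℕ → Fin 2 → PowerSeries (Om k)) (C' : ℕ → ℕ)
      (n' : ℕ → Fin r → ℕ), (∀ h, IsLim (fun i => c' i h) (toAA (F h))) ∧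
      Adm grp c' P' C' n' ∧ (Dom (fun j => l * lam j) grp c' C' n' → Dom lam grp c C n) := by
  classical
  -- the sets `E_M`
  let E : ℕ → ℕ → Prop := fun M i =>
    ((PowerSeries.X : PowerSeries (Om k)) ^ (a * M) ∣ P i 0 ∧
      (PowerSeries.X : PowerSeries (Om k)) ^ (b * M) ∣ P i 1) ∧
    (∀ h e, wt a b e < d (grp h) →
      (PowerSeries.X : PowerSeries k) ^ (M * (d (grp h) + 1)) ∣ mc (c i h) e) ∧
    (Cod k (P i) (C i) ∧ OrdGe grp (c i) (P i) (n i)) ∧ M ≤ i
  have hP0 : ∀ j N, ∀ᶠ i in Uf, (PowerSeries.X : PowerSeries (Om k)) ^ N ∣ P i j := by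
    intro j N
    have h1 : ∀ m, ∀ᶠ i in Uf, PowerSeries.coeff m (P i j) = 0 := by
      intro m
      have h2 := hP j m
      have h3 : PowerSeries.coeff m (ratP (0 : Fin 2 → PowerSeries (Gm k)) j) = 0 := by
        simp [ratP]
      rw [h3] at h2
      exact gm_eq_zero.1 h2.symm
    have h4 : ∀ᶠ i in Uf, ∀ m ∈ Finset.range N, PowerSeries.coeff m (P i j) = 0 := by
      rw [Filter.eventually_all_finset]
      exact fun m _ => h1 m
    refine h4.mono fun i hi => ?_
    rw [PowerSeries.X_pow_dvd_iff]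
    exact fun m hm => hi m (Finset.mem_range.2 hm)
  have hE : ∀ M, ∀ᶠ i in Uf, E M i := by
    intro M
    refine ((hP0 0 _).and (hP0 1 _)).and (Filter.Eventually.and ?_ (hA.and ?_))
    · rw [Filter.eventually_all]
      intro h
      have hfin := slow_fin a b ha hb (d (grp h))
      have h5 : ∀ᶠ i in Uf, ∀ e ∈ {e : Fin 2 →₀ ℕ | wt a b e < d (grp h)},
          (PowerSeries.X : PowerSeries k) ^ (M * (d (grp h) + 1)) ∣ mc (c i h) e := by
        rw [Filter.eventually_all_finite hfin]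
        intro e he
        refine (isLimS_dvd ((hc h).mc e) _).1 ?_
        have h6 : mc (f h) e = 0 := by
          by_contra hne
          exact absurd (hd h e hne) (not_le.2 he)
        rw [h6]
        exact dvd_zero _
      exact h5.mono fun i hi e he => hi e he
    · have h7 : ∀ᶠ i in (Filter.atTop : Filter ℕ), M ≤ i := Filter.eventually_ge_atTop M
      rw [← Nat.cofinite_eq_atTop] at h7
      exact Filter.hyperfilter_le_cofinite h7
  obtain ⟨ρ, hρE, hρ⟩ := slow_seq hE (fun M i h => h.2.2.2)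
  -- the new data
  have hex : ∀ i h, ∃ g' : AA k, E (ρ i) i →
      ev ![PowerSeries.X ^ (a * ρ i) * xA 0, PowerSeries.X ^ (b * ρ i) * xA 1] (c i h) =
        PowerSeries.X ^ (d (grp h) * ρ i) * g' ∧
      (∀ e, d (grp h) ≤ wt a b e →
        mc g' e = PowerSeries.X ^ (ρ i * (wt a b e - d (grp h))) * mc (c i h) e) ∧
      (∀ e, wt a b e < d (grp h) → (PowerSeries.X : PowerSeries k) ^ ρ i ∣ mc g' e) := by
    intro i h
    by_cases hi : E (ρ i) i
    · obtain ⟨g', h1⟩ := slow_div a b (ρ i) (d (grp h)) (c i h) (hi.2.1 h)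
      exact ⟨g', fun _ => h1⟩
    · exact ⟨0, fun h' => absurd h' hi⟩
  choose c' hc' using hex
  have hexP : ∀ i, ∃ P' : Fin 2 → PowerSeries (Om k), E (ρ i) i →
      P i = fun j => ev P' (chA (0 : PowerSeries k) 0 (a * ρ i) (b * ρ i) j) := by
    intro i
    by_cases hi : E (ρ i) i
    · obtain ⟨⟨⟨q0, h0⟩, ⟨q1, h1⟩⟩, -⟩ := hi
      refine ⟨![q0, q1], fun _ => ?_⟩
      funext j
      rw [slow_chA]
      fin_cases j
      · show P i 0 = ev ![q0, q1] (PowerSeries.X ^ (a * ρ i) * xA 0)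
        rw [ev_mul, ev_pow, ev_X, ev_xA, h0]
        rfl
      · show P i 1 = ev ![q0, q1] (PowerSeries.X ^ (b * ρ i) * xA 1)
        rw [ev_mul, ev_pow, ev_X, ev_xA, h1]
        rfl
    · exact ⟨0, fun h' => absurd h' hi⟩
  choose P' hP' using hexP
  have hp0 : ∀ N j : ℕ, 1 ≤ j →
      (PowerSeries.X : PowerSeries k) ^ N ∣ (0 : Polynomial (PowerSeries k)).coeff j := by
    intro N j _
    rw [Polynomial.coeff_zero]
    exact dvd_zero _
  have hcod : ∀ i, E (ρ i) i →
      a * ρ i + b * ρ i ≤ C i ∧ Cod k (P' i) (C i - a * ρ i - b * ρ i) := by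
    intro i hi
    have h1 := hi.2.2.1.1
    rw [hP' i hi] at h1
    exact cod_chA_inv 0 0 (a * ρ i) (b * ρ i) (hp0 _) h1
  refine ⟨c', P', fun i => C i - a * ρ i - b * ρ i, fun i j => n i j - d j * ρ i, ?_, ?_, ?_⟩
  · -- limits
    intro h m
    have key : ∀ i, E (ρ i) i → m + 1 ≤ ρ i → ∀ e : Fin 2 →₀ ℕ,
        coeff e (PowerSeries.coeff m (c' i h)) =
          if wt a b e = d (grp h) then coeff e (PowerSeries.coeff m (c i h)) else 0 := by
      intro i hi hm e
      obtain ⟨-, h2, h3⟩ := hc' i h hi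
      rw [← coeff_mc]
      split_ifs with he
      · rw [h2 e he.ge, he, Nat.sub_self, Nat.mul_zero, pow_zero, one_mul, coeff_mc]
      · rcases lt_or_gt_of_ne he with hlt | hgt
        · exact PowerSeries.X_pow_dvd_iff.1 (h3 e hlt) m (by omega)
        · rw [h2 e hgt.le]
          refine PowerSeries.X_pow_dvd_iff.1 (Dvd.intro _ rfl) m ?_
          have h4 : 1 ≤ wt a b e - d (grp h) := by omega
          calc m < ρ i := by omega
            _ = ρ i * 1 := (Nat.mul_one _).symm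
            _ ≤ ρ i * (wt a b e - d (grp h)) := Nat.mul_le_mul_left _ h4
    refine ⟨⟨d (grp h), ?_⟩, fun e => ?_⟩
    · filter_upwards [hρE, hρ (m + 1)] with i hi hm
      unfold MvPolynomial.totalDegree
      refine Finset.sup_le fun e he => ?_
      have h5 := MvPolynomial.mem_support_iff.1 he
      rw [key i hi hm e] at h5
      have h6 : wt a b e = d (grp h) := by
        by_contra hne
        exact h5 (if_neg hne)
      have h7 : (e.sum fun _ e => e) = e 0 + e 1 := by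
        rw [Finsupp.sum_fintype _ _ (fun _ => rfl), Fin.sum_univ_two]
      rw [h7, ← h6]
      have h0 : e 0 ≤ a * e 0 := Nat.le_mul_of_pos_left _ ha
      have h1 : e 1 ≤ b * e 1 := Nat.le_mul_of_pos_left _ hb
      unfold wt
      omega
    · have h8 : coeff e (PowerSeries.coeff m (toAA (F h))) =
          if wt a b e = d (grp h) then coeff e (PowerSeries.coeff m (f h)) else 0 := by
        rw [← coeff_mc, hF h, mc_topA]
        split_ifs with he
        · rw [coeff_mc]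
        · exact map_zero _
      rw [h8]
      split_ifs with he
      · rw [(hc h m).2 e, gm_eq]
        filter_upwards [hρE, hρ (m + 1)] with i hi hm
        rw [key i hi hm e, if_pos he]
      · symm
        rw [gm_eq_zero]
        filter_upwards [hρE, hρ (m + 1)] with i hi hm
        rw [key i hi hm e, if_neg he]
  · -- admissibility
    unfold Adm
    filter_upwards [hρE] with i hi
    refine ⟨(hcod i hi).2, fun h => ?_⟩
    have h1 := hi.2.2.1.2 h
    rw [hP' i hi, ← ev_ev, slow_chA, (hc' i h hi).1, ev_mul, ev_pow, ev_X] at h1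
    exact slow_cancel h1
  · -- domination
    rintro ⟨ℓ, hℓ⟩
    have hC : ∀ i, E (ρ i) i →
        ((C i - a * ρ i - b * ρ i : ℕ) : ℝ) = C i - (a + b) * ρ i := by
      intro i hi
      have h1 := (hcod i hi).1
      rw [Nat.sub_sub, Nat.cast_sub h1]
      push_cast
      ring
    have hn : ∀ i, (∑ j, lam j * (n i j : ℝ)) ≤
        ∑ j, lam j * ((n i j - d j * ρ i : ℕ) : ℝ) + ρ i * ∑ j, lam j * (d j : ℝ) := by
      intro i
      rw [Finset.mul_sum, ← Finset.sum_add_distrib]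
      refine Finset.sum_le_sum fun j _ => ?_
      have h2 : n i j ≤ (n i j - d j * ρ i) + d j * ρ i := by omega
      have h3 : (n i j : ℝ) ≤ ((n i j - d j * ρ i : ℕ) : ℝ) + d j * ρ i := by
        exact_mod_cast h2
      have h4 := mul_le_mul_of_nonneg_left h3 (hlam j).le
      calc lam j * (n i j : ℝ) ≤ lam j * (((n i j - d j * ρ i : ℕ) : ℝ) + d j * ρ i) := h4
        _ = _ := by ring
    rcases eq_or_lt_of_le hl with h1 | h1
    · -- `l = 1`
      have hs : (∑ j, lam j * (d j : ℝ)) = a + b := by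
        rw [← hsum, ← h1, one_mul]
      refine ⟨ℓ + a * (ℓ + 1) + b * (ℓ + 1) + (∑ j, d j) * (ℓ + 1), ?_⟩
      filter_upwards [hℓ, hρE, hρ (ℓ + 1), hE (ℓ + 1)] with i hi hEi hρi hEℓ
      obtain ⟨Q, C₁, n₁, hC₁, hn₁, hQ, hord, hval⟩ := hi
      refine ⟨fun j => ev Q (chA (0 : PowerSeries k) 0 (a * (ℓ + 1)) (b * (ℓ + 1)) j),
        C₁ + a * (ℓ + 1) + b * (ℓ + 1), fun j => n₁ j + d j * (ℓ + 1), by omega, fun j => ?_,
        cod_chA 0 0 _ _ (hp0 _) hQ, fun h => ?_, ?_⟩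
      · have h2 : d j ≤ ∑ j, d j := Finset.single_le_sum (f := d) (fun _ _ => Nat.zero_le _)
          (Finset.mem_univ j)
        have h3 := Nat.mul_le_mul_right (ℓ + 1) h2
        have h4 := hn₁ j
        show n₁ j + d j * (ℓ + 1) ≤ _
        omega
      · obtain ⟨g, hg1, hg2, hg3⟩ := slow_div a b (ℓ + 1) (d (grp h)) (c i h) (hEℓ.2.1 h)
        obtain ⟨-, h2, h3⟩ := hc' i h hEi
        show (PowerSeries.X : PowerSeries (Om k)) ^ (n₁ (grp h) + d (grp h) * (ℓ + 1)) ∣ _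
        rw [← ev_ev, slow_chA, hg1, ev_mul, ev_pow, ev_X, Nat.add_comm (n₁ (grp h)), pow_add]
        refine mul_dvd_mul_left _ ?_
        have hdiff : (PowerSeries.X : AA k) ^ (ℓ + 1) ∣ g - c' i h := by
          rw [X_pow_dvd_iff_mc]
          intro e
          rw [mc_sub]
          rcases lt_trichotomy (wt a b e) (d (grp h)) with he | he | he
          · exact dvd_sub (hg3 e he) ((pow_dvd_pow _ hρi).trans (h3 e he))
          · rw [hg2 e he.ge, h2 e he.ge, he, Nat.sub_self, Nat.mul_zero, Nat.mul_zero, sub_self]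
            exact dvd_zero _
          · rw [hg2 e he.le, h2 e he.le]
            have h4 : 1 ≤ wt a b e - d (grp h) := by omega
            refine dvd_sub (Dvd.dvd.mul_right (pow_dvd_pow _ ?_) _)
              (Dvd.dvd.mul_right (pow_dvd_pow _ ?_) _)
            · calc ℓ + 1 = (ℓ + 1) * 1 := (Nat.mul_one _).symm
                _ ≤ _ := Nat.mul_le_mul_left _ h4
            · calc ℓ + 1 ≤ ρ i := hρi
                _ = ρ i * 1 := (Nat.mul_one _).symm
                _ ≤ _ := Nat.mul_le_mul_left _ h4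
        have h5 : ev Q g = ev Q (c' i h) + ev Q (g - c' i h) := by
          rw [ev_sub]
          ring
        rw [h5]
        refine dvd_add (hord h) ((pow_dvd_pow _ ?_).trans (ev_dvd Q hdiff))
        have := hn₁ (grp h)
        omega
      · have hn' := hn i
        have hC' := hC i hEi
        rw [← h1] at hval
        simp only [one_mul] at hval
        rw [hC'] at hval
        rw [hs] at hn'
        have h6 : (∑ j, lam j * ((n₁ j + d j * (ℓ + 1) : ℕ) : ℝ)) =
            ∑ j, lam j * (n₁ j : ℝ) + (ℓ + 1) * ∑ j, lam j * (d j : ℝ) := by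
          rw [Finset.mul_sum, ← Finset.sum_add_distrib]
          refine Finset.sum_congr rfl fun j _ => ?_
          push_cast
          ring
        rw [h6, hs]
        push_cast
        linarith
    · -- `1 < l`
      have hT : 0 < ∑ j, lam j * (d j : ℝ) := by
        have h2 : (0 : ℝ) < a + b := by positivity
        rw [← hsum] at h2
        exact pos_of_mul_pos_right h2 (by linarith)
      obtain ⟨M, hM⟩ := exists_nat_ge ((∑ j, l * lam j * (ℓ : ℝ)) /
        ((l - 1) * ∑ j, lam j * (d j : ℝ)))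
      have hpos : 0 < (l - 1) * ∑ j, lam j * (d j : ℝ) := mul_pos (by linarith) hT
      rw [div_le_iff₀ hpos] at hM
      apply dom_of_nonneg
      filter_upwards [hℓ, hρE, hρ M] with i hi hEi hρi
      obtain ⟨Q, C₁, n₁, hC₁, hn₁, hQ, hord, hval⟩ := hi
      have hn' := hn i
      have hC' := hC i hEi
      rw [hC'] at hval
      have h3 : (∑ j, l * lam j * (n₁ j : ℝ)) ≤ ∑ j, l * lam j * (ℓ : ℝ) := by
        refine Finset.sum_le_sum fun j _ => ?_
        have h4 : (n₁ j : ℝ) ≤ ℓ := by exact_mod_cast hn₁ j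
        exact mul_le_mul_of_nonneg_left h4 (mul_nonneg (by linarith) (hlam j).le)
      have h5 : (∑ j, l * lam j * ((n i j - d j * ρ i : ℕ) : ℝ)) =
          l * ∑ j, lam j * ((n i j - d j * ρ i : ℕ) : ℝ) := by
        rw [Finset.mul_sum]
        exact Finset.sum_congr rfl fun j _ => by ring
      have h6 : 0 ≤ ∑ j, lam j * ((n i j - d j * ρ i : ℕ) : ℝ) :=
        Finset.sum_nonneg fun j _ => mul_nonneg (hlam j).le (Nat.cast_nonneg _)
      have h7 : (0 : ℝ) ≤ C₁ := Nat.cast_nonneg _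
      have h8 : (M : ℝ) ≤ ρ i := by exact_mod_cast hρi
      have h9 := mul_le_mul_of_nonneg_right h8 hpos.le
      rw [h5] at hval
      set S := ∑ j, lam j * ((n i j - d j * ρ i : ℕ) : ℝ) with hS
      set T := ∑ j, lam j * (d j : ℝ) with hTdef
      have h10 : 0 ≤ (l - 1) * S := mul_nonneg (by linarith) h6
      have h11 : ((a : ℝ) + b) * ρ i = l * T * ρ i := by rw [hsum]
      nlinarith

end M3
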