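import Pool.Agent.M3.Ev

/-!
PIECE M3-A02: monomial coefficients of functions on the polydisc.

PROOF. All formulas are checked on the coefficients of `τ^n`.  `mc_toAA`: `F ↦ mc (toAA F) e` is additive; for
`F = monomial e' c = C c * X 0 ^ e' 0 * X 1 ^ e' 1` one has `toAA F = cA c * PowerSeries.C (X 0 ^ e' 0 * X 1 ^ e' 1)`,
whose `n`-th coefficient is `C (coeff n c) * (monomial e' 1)`.  `mc_scale`: `ev ![X^A * xA 0, X^B * xA 1]` of
`PowerSeries.C (monomial e c)` is `X^(A e 0 + B e 1) * PowerSeries.C (monomial e c)`; for general `f` compare the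
coefficients of `τ^n`: only the (finitely many) monomials of `coeff i f`, `i ≤ n`, contribute.
`exists_toAA`: `F := ∑ e ∈ (box), monomial e (mc f e)`.
-/

open MvPolynomial

namespace M3

universe u

section
variable {k : Type u} [CommRing k]

theorem coeff_mc (f : AA k) (e : Fin 2 →₀ ℕ) (n : ℕ) :
    PowerSeries.coeff n (mc f e) = coeff e (PowerSeries.coeff n f) := by
  unfold mc
  rw [PowerSeries.coeff_mk]

theorem mc_ext {f g : AA k} (h : ∀ e, mc f e = mc g e) : f = g := by
  refine PowerSeries.ext fun n => MvPolynomial.ext _ _ fun e => ?_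
  rw [← coeff_mc, ← coeff_mc, h]

theorem mc_zero (e : Fin 2 →₀ ℕ) : mc (0 : AA k) e = 0 := by
  ext n
  rw [coeff_mc, map_zero, map_zero, coeff_zero]

theorem mc_add (f g : AA k) (e : Fin 2 →₀ ℕ) : mc (f + g) e = mc f e + mc g e := by
  ext n
  rw [coeff_mc, map_add, map_add, coeff_mc, coeff_mc, coeff_add]

theorem mc_sub (f g : AA k) (e : Fin 2 →₀ ℕ) : mc (f - g) e = mc f e - mc g e := by
  ext n
  rw [coeff_mc, map_sub, map_sub, coeff_mc, coeff_mc, coeff_sub]

theorem mc_cA_mul (c : PowerSeries k) (f : AA k) (e : Fin 2 →₀ ℕ) :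
    mc (cA c * f) e = c * mc f e := by
  ext n
  rw [coeff_mc, PowerSeries.coeff_mul, PowerSeries.coeff_mul, coeff_sum]
  refine Finset.sum_congr rfl fun p _ => ?_
  rw [coeff_mc]
  unfold cA
  rw [PowerSeries.coeff_map, coeff_C_mul]

theorem mc_X_pow_mul (N : ℕ) (f : AA k) (e : Fin 2 →₀ ℕ) :
    mc (PowerSeries.X ^ N * f) e = PowerSeries.X ^ N * mc f e := by
  ext n
  rw [coeff_mc, PowerSeries.coeff_X_pow_mul', PowerSeries.coeff_X_pow_mul']
  split_ifs
  · rw [coeff_mc]
  · rw [coeff_zero]

theorem mc_cA (c : PowerSeries k) (e : Fin 2 →₀ ℕ) : mc (cA c) e = if e = 0 then c else 0 := by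
  ext n
  rw [coeff_mc]
  unfold cA
  rw [PowerSeries.coeff_map, coeff_C]
  by_cases h : e = 0
  · rw [if_pos h, if_pos h.symm]
  · rw [if_neg h, if_neg (fun q => h q.symm), map_zero]

private theorem mcC (p : MvPolynomial (Fin 2) k) (e : Fin 2 →₀ ℕ) :
    mc (PowerSeries.C p) e = PowerSeries.C (coeff e p) := by
  ext n
  rw [coeff_mc, PowerSeries.coeff_C, PowerSeries.coeff_C]
  split_ifs
  · rfl
  · rw [coeff_zero]

theorem mc_xA (j : Fin 2) (e : Fin 2 →₀ ℕ) :
    mc (xA j : AA k) e = if e = Finsupp.single j 1 then 1 else 0 := by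
  unfold xA
  rw [mcC, coeff_X]
  by_cases h : e = Finsupp.single j 1
  · rw [if_pos h, if_pos h.symm, map_one]
  · rw [if_neg h, if_neg (fun q => h q.symm), map_zero]

private theorem mc_prod (e' : Fin 2 →₀ ℕ) :
    (e'.prod fun i m => (xA i : AA k) ^ m) = PowerSeries.C (monomial e' 1) := by
  rw [monomial_eq, map_one, one_mul, Finsupp.prod, Finsupp.prod, map_prod]
  refine Finset.prod_congr rfl fun i _ => ?_
  rw [map_pow]
  rfl

private theorem mc_toAA_mono (e' : Fin 2 →₀ ℕ) (c : PowerSeries k) :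
    toAA (monomial e' c) = cA c * PowerSeries.C (monomial e' 1) := by
  unfold toAA
  rw [coe_eval₂Hom, eval₂_monomial, mc_prod]

private theorem coeff_toAA_mono (e' : Fin 2 →₀ ℕ) (c : PowerSeries k) (n : ℕ) :
    PowerSeries.coeff n (toAA (monomial e' c)) = monomial e' (PowerSeries.coeff n c) := by
  rw [mc_toAA_mono, PowerSeries.coeff_mul_C]
  unfold cA
  rw [PowerSeries.coeff_map, C_mul_monomial, mul_one]

theorem mc_toAA (F : MvPolynomial (Fin 2) (PowerSeries k)) (e : Fin 2 →₀ ℕ) :
    mc (toAA F) e = coeff e F := by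
  induction F using MvPolynomial.induction_on' with
  | monomial u a =>
    ext n
    rw [coeff_mc, coeff_toAA_mono, coeff_monomial, coeff_monomial]
    split_ifs
    · rfl
    · rw [map_zero]
  | add p q hp hq => rw [map_add, mc_add, hp, hq, coeff_add]

theorem toAA_inj : Function.Injective (toAA (k := k)) := by
  intro F G h
  ext1 e
  rw [← mc_toAA, ← mc_toAA, h]

theorem toAA_C (c : PowerSeries k) : toAA (C c) = cA c := by
  unfold toAA
  rw [coe_eval₂Hom, eval₂_C]

theorem toAA_X (j : Fin 2) : toAA (X j : MvPolynomial (Fin 2) (PowerSeries k)) = xA j := by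
  unfold toAA
  rw [coe_eval₂Hom, eval₂_X]

theorem exists_toAA (f : AA k) (D : ℕ) (h : ∀ e, D < e 0 + e 1 → mc f e = 0) :
    ∃ F, toAA F = f := by
  classical
  let S : Finset (Fin 2 →₀ ℕ) := Finset.Iic (Finsupp.single 0 D + Finsupp.single 1 D)
  refine ⟨∑ e ∈ S, monomial e (mc f e), mc_ext fun e => ?_⟩
  rw [mc_toAA, coeff_sum]
  have h1 : ∀ e' ∈ S, coeff e (monomial e' (mc f e')) = if e' = e then mc f e' else 0 :=
    fun e' _ => coeff_monomial _ _ _
  rw [Finset.sum_congr rfl h1, Finset.sum_ite_eq']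
  by_cases hS : e ∈ S
  · rw [if_pos hS]
  · rw [if_neg hS]
    symm
    apply h
    by_contra hn
    apply hS
    rw [Finset.mem_Iic, Finsupp.le_def]
    intro i
    fin_cases i
    · simp
      omega
    · simp
      omega

theorem X_pow_dvd_iff_mc (f : AA k) (N : ℕ) :
    (PowerSeries.X : AA k) ^ N ∣ f ↔ ∀ e, (PowerSeries.X : PowerSeries k) ^ N ∣ mc f e := by
  simp only [PowerSeries.X_pow_dvd_iff]
  constructor
  · intro h e m hm
    rw [coeff_mc, h m hm, coeff_zero]
  · intro h m hm
    ext e
    rw [← coeff_mc, h e m hm, coeff_zero]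

theorem mc_topA (a b d : ℕ) (f : AA k) (e : Fin 2 →₀ ℕ) :
    mc (topA a b d f) e = if wt a b e = d then mc f e else 0 := by
  have hw : Finsupp.weight ![a, b] e = wt a b e := by
    rw [Finsupp.weight_apply, Finsupp.sum_fintype _ _ (fun i => by simp), Fin.sum_univ_two]
    unfold wt
    simp [mul_comm]
  ext n
  rw [coeff_mc]
  unfold topA
  rw [PowerSeries.coeff_mk, coeff_weightedHomogeneousComponent, hw]
  split_ifs
  · rw [coeff_mc]
  · rw [map_zero]

private theorem mc_ev {P : Fin 2 → AA k} {e e' : Fin 2 →₀ ℕ} {M : PowerSeries k}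
    (h : ∀ p : MvPolynomial (Fin 2) k, mc (aeval P p) e = M * PowerSeries.C (coeff e' p))
    (f : AA k) : mc (ev P f) e = M * mc f e' := by
  ext n
  rw [coeff_mc, coeff_ev, coeff_sum, mul_comm M, PowerSeries.coeff_mul]
  refine Finset.sum_congr rfl fun p _ => ?_
  rw [← coeff_mc, h, PowerSeries.coeff_mul_C, coeff_mc, mul_comm]

theorem mc_scale (A B : ℕ) (f : AA k) (e : Fin 2 →₀ ℕ) :
    mc (ev ![PowerSeries.X ^ A * xA 0, PowerSeries.X ^ B * xA 1] f) e =
      PowerSeries.X ^ (A * e 0 + B * e 1) * mc f e := by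
  apply mc_ev
  intro p
  induction p using MvPolynomial.induction_on' with
  | monomial u a =>
    have h1 : aeval (![PowerSeries.X ^ A * xA 0, PowerSeries.X ^ B * xA 1] : Fin 2 → AA k)
        (monomial u a) = PowerSeries.X ^ (A * u 0 + B * u 1) * PowerSeries.C (monomial u a) := by
      rw [aeval_monomial, Finsupp.prod_fintype _ _ (fun i => pow_zero _), Fin.prod_univ_two]
      have h2 : (PowerSeries.C (monomial u a) : AA k) =
          algebraMap k (AA k) a * (xA 0 ^ u 0 * xA 1 ^ u 1) := by
        have h3 := mc_prod (k := k) u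
        rw [Finsupp.prod_fintype _ _ (fun i => pow_zero _), Fin.prod_univ_two] at h3
        rw [h3]
        have h4 : algebraMap k (AA k) a = PowerSeries.C (MvPolynomial.C a) := by
          rw [PowerSeries.algebraMap_apply, MvPolynomial.algebraMap_eq]
        rw [h4, ← map_mul, C_mul_monomial, mul_one]
      rw [h2]
      simp only [Matrix.cons_val_zero, Matrix.cons_val_one]
      ring
    rw [h1, mc_X_pow_mul, mcC, coeff_monomial]
    by_cases hu : u = e
    · rw [if_pos hu, hu]
    · rw [if_neg hu]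
      simp
  | add p q hp hq => rw [map_add, mc_add, hp, hq, coeff_add, map_add, mul_add]

theorem mc_swap (f : AA k) (e : Fin 2 →₀ ℕ) :
    mc (ev (swA k) f) e = mc f (Finsupp.single 0 (e 1) + Finsupp.single 1 (e 0)) := by
  rw [← one_mul (mc f _)]
  apply mc_ev
  intro p
  induction p using MvPolynomial.induction_on' with
  | monomial u a =>
    have h1 : aeval (swA k) (monomial u a) =
        PowerSeries.C (monomial (Finsupp.single 0 (u 1) + Finsupp.single 1 (u 0)) a) := by
      rw [aeval_monomial, Finsupp.prod_fintype _ _ (fun i => pow_zero _), Fin.prod_univ_two]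
      have h3 := mc_prod (k := k) (Finsupp.single 0 (u 1) + Finsupp.single 1 (u 0))
      rw [Finsupp.prod_fintype _ _ (fun i => pow_zero _), Fin.prod_univ_two] at h3
      have h4 : algebraMap k (AA k) a = PowerSeries.C (MvPolynomial.C a) := by
          rw [PowerSeries.algebraMap_apply, MvPolynomial.algebraMap_eq]
      have h5 : (monomial (Finsupp.single 0 (u 1) + Finsupp.single 1 (u 0)) a :
          MvPolynomial (Fin 2) k) =
          MvPolynomial.C a * monomial (Finsupp.single 0 (u 1) + Finsupp.single 1 (u 0)) 1 := by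
        rw [C_mul_monomial, mul_one]
      rw [h5, map_mul, ← h3, h4]
      unfold swA
      simp [mul_comm]
    rw [h1, mcC, coeff_monomial, coeff_monomial, one_mul]
    by_cases hu : u = Finsupp.single 0 (e 1) + Finsupp.single 1 (e 0)
    · rw [if_pos hu, if_pos]
      rw [hu]
      ext i
      fin_cases i <;> simp
    · rw [if_neg hu, if_neg]
      intro h
      apply hu
      rw [← h]
      ext i
      fin_cases i <;> simp
  | add p q hp hq => rw [map_add, mc_add, hp, hq, coeff_add, map_add, mul_add]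

/-- the value of a polynomial -/
theorem ev_toAA {R : Type*} [CommRing R] [Algebra k R] (P : Fin 2 → PowerSeries R)
    (F : MvPolynomial (Fin 2) (PowerSeries k)) :
    ev P (toAA F) = eval₂ (PowerSeries.map (algebraMap k R)) P F := by
  have h : (evH P).comp toAA = eval₂Hom (PowerSeries.map (algebraMap k R)) P := by
    refine MvPolynomial.ringHom_ext (fun c => ?_) (fun j => ?_)
    · rw [RingHom.comp_apply, evH_apply, toAA_C, ev_cA, coe_eval₂Hom, eval₂_C]
    · rw [RingHom.comp_apply, evH_apply, toAA_X, ev_xA, coe_eval₂Hom, eval₂_X]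
  exact RingHom.congr_fun h F

/-- derivatives -/
theorem dA_toAA (j : Fin 2) (F : MvPolynomial (Fin 2) (PowerSeries k)) :
    dA j (toAA F) = toAA (pderiv j F) := by
  induction F using MvPolynomial.induction_on' with
  | monomial u a =>
    ext1 n
    unfold dA
    rw [PowerSeries.coeff_mk, coeff_toAA_mono, pderiv_monomial, pderiv_monomial, coeff_toAA_mono]
    congr 1
    have h1 : ((u j : ℕ) : PowerSeries k) = PowerSeries.C ((u j : ℕ) : k) := by
      rw [map_natCast]
    rw [h1, PowerSeries.coeff_mul_C]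
  | add p q hp hq =>
    have h1 : dA j (toAA (p + q)) = dA j (toAA p) + dA j (toAA q) := by
      ext1 n
      unfold dA
      rw [map_add, PowerSeries.coeff_mk, map_add, map_add, map_add, PowerSeries.coeff_mk,
        PowerSeries.coeff_mk]
    rw [h1, hp, hq, map_add, map_add]

end

end M3
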