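import Pool.Agent.M3.Degen
import Pool.Agent.M3.Mc

/-!
PIECE M3-D02: semicontinuity of arcs: reduction modulo `τ` (`deg_mod`), top degree part (`deg_top`).

PROOF. Let `ι := Fin 2 × Fin m`, `c (j, n) := coeff n (P j)`, `T` the independent subfamily of `CodLe k P m C`,
`R := MvPolynomial (Option ι) k`, and `U : Fin 2 → PowerSeries R`, `U j := ∑ n : Fin m, C (X (some (j, n))) * X^n` the
universal arc.  For `φ : R →ₐ[k] S` the image of `U` is `∑ φ(X (some (j,n))) τ^n`.
`deg_mod`: weights `ω (j, n) := n`.  `Φ n := ∑ (X none)^i * coeff l (aeval U f_i)` over `i + l = n`, `f_i = coeff i f`.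
Under the substitution `X none ↦ X`, `X (some t) ↦ C (c t) * X^(ω t)` (`Polynomial L`) `Φ n` becomes
`X^n * C (coeff n (ev P_m f))`, `P_m` the truncation of `P` at `m` (replace `τ` by `X τ`), and
`coeff n (ev P_m f) = coeff n (ev P f)` for `n < m` (`ev_congr`), which vanishes for `n < r`.  So `degen_w` shows
that `Φ n` vanishes at `X none ↦ 0`, `X (some t) ↦ c₀ t`, where it becomes the coefficient of `aeval P₀ f_0`,
`P₀ j := ∑ n : Fin m, C (c₀ (j, n)) * X^n`.  `CodLe k P₀ m C` from `T₀`.
`deg_top`: weights `ω (j, n) := ![a, b] j`.  Given `f`, `d`: `Φ n` is the sum over `i + l = n` of the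
coefficients of `τ^l` of
`∑ e ∈ (coeff i f).support with wt a b e ≤ d, (X none)^(d - wt a b e) * coeff e (coeff i f) * U^e`.
Under the substitution in `Polynomial L`, `Φ n`, `n < m`, becomes
`X^d * C (coeff n (ev P f))` (for `i < m` all monomials of `coeff i f` have weight `≤ d`), and under
`X none ↦ 0`, `X (some t) ↦ c₀ t` it becomes `coeff n (ev P₀ (topA a b d f))`.
(The same `L₀`, `P₀` work for all `f`, `d`, `r`.)
-/

open MvPolynomial

namespace M3

universe u

/-- the arc with given coefficients -/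
private noncomputable def dArc {R : Type*} [CommRing R] (m : ℕ) (c : Fin 2 × Fin m → R) :
    Fin 2 → PowerSeries R :=
  fun j => PowerSeries.mk fun n => if h : n < m then c (j, ⟨n, h⟩) else 0

private theorem dArc_coeff {R : Type*} [CommRing R] {m : ℕ} (c : Fin 2 × Fin m → R) (j : Fin 2)
    (n : ℕ) : PowerSeries.coeff n (dArc m c j) = if h : n < m then c (j, ⟨n, h⟩) else 0 := by
  rw [dArc, PowerSeries.coeff_mk]

private theorem dArc_map {R S : Type*} [CommRing R] [CommRing S] (φ : R →+* S) {m : ℕ}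
    (c : Fin 2 × Fin m → R) (j : Fin 2) :
    PowerSeries.map φ (dArc m c j) = dArc m (fun t => φ (c t)) j := by
  ext n
  rw [PowerSeries.coeff_map, dArc_coeff, dArc_coeff]
  split_ifs
  · rfl
  · exact map_zero φ

private theorem dArc_dvd {R : Type*} [CommRing R] (m : ℕ) (P : Fin 2 → PowerSeries R) (j : Fin 2) :
    (PowerSeries.X : PowerSeries R) ^ m ∣
      P j - dArc m (fun t => PowerSeries.coeff t.2.val (P t.1)) j := by
  rw [PowerSeries.X_pow_dvd_iff]
  intro n hn
  rw [map_sub, dArc_coeff, dif_pos hn, sub_self]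

private theorem aeval_mapA {k : Type*} [CommRing k] {R S : Type*} [CommRing R] [CommRing S]
    [Algebra k R] [Algebra k S] (φ : PowerSeries R →+* PowerSeries S)
    (hφ : ∀ x : k, φ (algebraMap k (PowerSeries R) x) = algebraMap k (PowerSeries S) x)
    (P : Fin 2 → PowerSeries R) (p : MvPolynomial (Fin 2) k) :
    φ (aeval P p) = aeval (fun j => φ (P j)) p := by
  induction p using MvPolynomial.induction_on with
  | C a => rw [aeval_C, aeval_C, hφ]
  | add p q hp hq => rw [map_add, map_add, map_add, hp, hq]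
  | mul_X p j hp => rw [map_mul, map_mul, map_mul, hp, aeval_X, aeval_X]

private theorem map_algMap {k : Type*} [CommRing k] {R S : Type*} [CommRing R] [CommRing S]
    [Algebra k R] [Algebra k S] (φ : R →+* S) (hφ : ∀ x : k, φ (algebraMap k R x) = algebraMap k S x)
    (x : k) : PowerSeries.map φ (algebraMap k (PowerSeries R) x) =
      algebraMap k (PowerSeries S) x := by
  rw [PowerSeries.algebraMap_apply, PowerSeries.algebraMap_apply, PowerSeries.map_C, hφ]

private theorem aeval_two {k : Type*} [CommRing k] {S : Type*} [CommRing S] [Algebra k S]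
    (P : Fin 2 → PowerSeries S) (p : MvPolynomial (Fin 2) k) :
    aeval P p = ∑ e ∈ p.support, algebraMap k (PowerSeries S) (coeff e p) *
      (P 0 ^ e 0 * P 1 ^ e 1) := by
  rw [aeval_def, eval₂_eq']
  refine Finset.sum_congr rfl fun e _ => ?_
  rw [Fin.prod_univ_two]

private theorem dArc_cod {k : Type u} [Field k] {L₀ : Type u} [Field L₀] [Algebra k L₀] {m C : ℕ}
    (c₀ : Fin 2 × Fin m → L₀) (T T₀ : Finset (Fin 2 × Fin m)) (hT : 2 * m ≤ T.card + C)
    (hT₀ : T.card ≤ T₀.card) (h : AlgebraicIndependent k (fun t : T₀ => c₀ t)) :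
    CodLe k (dArc m c₀) m C := by
  refine ⟨T₀, by omega, ?_⟩
  have h1 : (fun t : T₀ => PowerSeries.coeff t.1.2.val (dArc m c₀ t.1.1)) =
      fun t : T₀ => c₀ t := by
    funext t
    rw [dArc_coeff, dif_pos t.1.2.2]
  rw [h1]
  exact h

section mod
variable {k : Type u} [Field k]

/-- the universal coefficient for the reduction modulo `τ` -/
private noncomputable def phM (m : ℕ) (f : AA k) (n : ℕ) :
    MvPolynomial (Option (Fin 2 × Fin m)) k :=
  ∑ p ∈ Finset.HasAntidiagonal.antidiagonal n, (X none) ^ p.1 *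
    PowerSeries.coeff p.2 (aeval (dArc m fun t => X (some t)) (PowerSeries.coeff p.1 f))

private theorem phM_apply {S : Type*} [CommRing S] [Algebra k S] (m : ℕ)
    (φ : MvPolynomial (Option (Fin 2 × Fin m)) k →ₐ[k] S) (f : AA k) (n : ℕ) :
    φ (phM m f n) = ∑ p ∈ Finset.HasAntidiagonal.antidiagonal n, (φ (X none)) ^ p.1 *
      PowerSeries.coeff p.2 (aeval (dArc m fun t => φ (X (some t))) (PowerSeries.coeff p.1 f)) := by
  rw [phM, map_sum]
  refine Finset.sum_congr rfl fun p _ => ?_
  rw [map_mul, map_pow]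
  congr 1
  have h1 := aeval_mapA (PowerSeries.map (φ : MvPolynomial (Option (Fin 2 × Fin m)) k →+* S))
    (map_algMap _ fun x => φ.commutes x) (dArc m fun t => X (some t)) (PowerSeries.coeff p.1 f)
  have h2 : (fun j => PowerSeries.map (φ : MvPolynomial (Option (Fin 2 × Fin m)) k →+* S)
      (dArc m (fun t => X (some t)) j)) = dArc m fun t => φ (X (some t)) := by
    funext j
    rw [dArc_map]
    rfl
  rw [h2] at h1
  rw [← h1, PowerSeries.coeff_map]
  rfl

private theorem phM_laur {L : Type u} [Field L] [Algebra k L] (m : ℕ) (c : Fin 2 × Fin m → L)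
    (f : AA k) (n : ℕ) :
    aeval (fun o : Option (Fin 2 × Fin m) => o.elim (Polynomial.X : Polynomial L)
      (fun t => Polynomial.C (c t) * Polynomial.X ^ t.2.val)) (phM m f n) =
    Polynomial.X ^ n * Polynomial.C (PowerSeries.coeff n (ev (dArc m c) f)) := by
  rw [phM_apply, coeff_ev, map_sum, Finset.mul_sum]
  refine Finset.sum_congr rfl fun p hp => ?_
  have hp' := Finset.HasAntidiagonal.mem_antidiagonal.1 hp
  simp only [aeval_X, Option.elim]
  let ψ : PowerSeries L →+* PowerSeries (Polynomial L) :=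
    (PowerSeries.rescale (Polynomial.X : Polynomial L)).comp (PowerSeries.map Polynomial.C)
  have hψ : ∀ j n, PowerSeries.coeff n (ψ j) =
      (Polynomial.X : Polynomial L) ^ n * Polynomial.C (PowerSeries.coeff n j) := by
    intro j n
    rw [RingHom.comp_apply, PowerSeries.coeff_rescale, PowerSeries.coeff_map]
  have h0 : ∀ x : k, ψ (algebraMap k (PowerSeries L) x) =
      algebraMap k (PowerSeries (Polynomial L)) x := by
    intro x
    ext1 n
    rw [hψ, PowerSeries.algebraMap_apply, PowerSeries.algebraMap_apply, PowerSeries.coeff_C,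
      PowerSeries.coeff_C]
    split_ifs with h
    · rw [h, pow_zero, one_mul, Polynomial.algebraMap_apply]
    · rw [map_zero, mul_zero]
  have h1 := aeval_mapA ψ h0 (dArc m c) (PowerSeries.coeff p.1 f)
  have h2 : (fun j => ψ (dArc m c j)) =
      dArc m fun t => Polynomial.C (c t) * Polynomial.X ^ t.2.val := by
    funext j
    ext1 n
    rw [hψ, dArc_coeff, dArc_coeff]
    split_ifs
    · rw [mul_comm]
    · rw [map_zero, mul_zero]
  rw [h2] at h1
  rw [← h1, hψ, ← mul_assoc, ← pow_add, hp']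

end mod

theorem deg_mod {k : Type u} [Field k] {L : Type u} [Field L] [Algebra k L]
    (P : Fin 2 → PowerSeries L) (m C : ℕ) (h : CodLe k P m C) :
    ∃ (L₀ : Type u) (_ : Field L₀) (_ : Algebra k L₀) (P₀ : Fin 2 → PowerSeries L₀),
      CodLe k P₀ m C ∧ ∀ (f : AA k) (r : ℕ), r ≤ m →
        (PowerSeries.X : PowerSeries L) ^ r ∣ ev P f →
        (PowerSeries.X : PowerSeries L₀) ^ r ∣ aeval P₀ (PowerSeries.coeff 0 f) := by
  classical
  obtain ⟨T, hT, hind⟩ := h
  obtain ⟨L₀, iF, iA, c₀, ⟨T₀, hT₀, hind₀⟩, hΦ⟩ := degen_w (k := k)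
    (fun t : Fin 2 × Fin m => PowerSeries.coeff t.2.val (P t.1)) (fun t => t.2.val) T hind
  refine ⟨L₀, iF, iA, dArc m c₀, dArc_cod c₀ T T₀ hT hT₀ hind₀, ?_⟩
  intro f r hr hd
  rw [PowerSeries.X_pow_dvd_iff]
  intro n hn
  have h1 := hΦ (phM m f n) (by
    rw [phM_laur]
    have h2 := PowerSeries.X_pow_dvd_iff.1 (ev_congr (dArc_dvd m P) f) n (by omega)
    rw [map_sub, PowerSeries.X_pow_dvd_iff.1 hd n hn, zero_sub, neg_eq_zero] at h2
    rw [h2, map_zero, mul_zero])
  rw [phM_apply, Finset.sum_eq_single (0, n)] at h1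
  · simpa only [aeval_X, Option.elim, pow_zero, one_mul] using h1
  · rintro ⟨i, l⟩ hil hne
    have h3 := Finset.HasAntidiagonal.mem_antidiagonal.1 hil
    have h4 : i ≠ 0 := by
      rintro rfl
      apply hne
      ext
      · rfl
      · simpa using h3
    rw [aeval_X]
    simp only [Option.elim]
    rw [zero_pow h4, zero_mul]
  · intro h3
    exact absurd (Finset.HasAntidiagonal.mem_antidiagonal.2 (by simp)) h3

section top
variable {k : Type u} [Field k]

/-- the universal coefficient for the top degree part -/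
private noncomputable def phT (m a b d : ℕ) (f : AA k) (n : ℕ) :
    MvPolynomial (Option (Fin 2 × Fin m)) k :=
  ∑ p ∈ Finset.HasAntidiagonal.antidiagonal n,
    ∑ e ∈ (PowerSeries.coeff p.1 f).support.filter (fun e => wt a b e ≤ d),
      (X none) ^ (d - wt a b e) * (C (coeff e (PowerSeries.coeff p.1 f)) *
        PowerSeries.coeff p.2 ((dArc m fun t => X (some t)) 0 ^ e 0 *
          (dArc m fun t => X (some t)) 1 ^ e 1))

private theorem phT_apply {S : Type*} [CommRing S] [Algebra k S] (m a b d : ℕ)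
    (φ : MvPolynomial (Option (Fin 2 × Fin m)) k →ₐ[k] S) (f : AA k) (n : ℕ) :
    φ (phT m a b d f n) = ∑ p ∈ Finset.HasAntidiagonal.antidiagonal n,
      ∑ e ∈ (PowerSeries.coeff p.1 f).support.filter (fun e => wt a b e ≤ d),
      (φ (X none)) ^ (d - wt a b e) * (algebraMap k S (coeff e (PowerSeries.coeff p.1 f)) *
        PowerSeries.coeff p.2 ((dArc m fun t => φ (X (some t))) 0 ^ e 0 *
          (dArc m fun t => φ (X (some t))) 1 ^ e 1)) := by
  rw [phT, map_sum]
  refine Finset.sum_congr rfl fun p _ => ?_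
  rw [map_sum]
  refine Finset.sum_congr rfl fun e _ => ?_
  rw [map_mul, map_pow, map_mul]
  congr 2
  · rw [← MvPolynomial.algebraMap_eq, AlgHom.commutes]
  · have h1 : ∀ j, PowerSeries.map (φ : MvPolynomial (Option (Fin 2 × Fin m)) k →+* S)
        (dArc m (fun t => X (some t)) j) = dArc m (fun t => φ (X (some t))) j := by
      intro j
      rw [dArc_map]
      rfl
    rw [← h1 0, ← h1 1, ← map_pow, ← map_pow, ← map_mul, PowerSeries.coeff_map]
    rfl

private theorem phT_laur {L : Type u} [Field L] [Algebra k L] (m a b d : ℕ)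
    (c : Fin 2 × Fin m → L) (f : AA k) (n : ℕ)
    (hf : ∀ i ≤ n, ∀ e, coeff e (PowerSeries.coeff i f) ≠ 0 → wt a b e ≤ d) :
    aeval (fun o : Option (Fin 2 × Fin m) => o.elim (Polynomial.X : Polynomial L)
      (fun t => Polynomial.C (c t) * Polynomial.X ^ (![a, b] t.1))) (phT m a b d f n) =
    Polynomial.X ^ d * Polynomial.C (PowerSeries.coeff n (ev (dArc m c) f)) := by
  rw [phT_apply, coeff_ev, map_sum, Finset.mul_sum]
  refine Finset.sum_congr rfl fun p hp => ?_
  have hp' := Finset.HasAntidiagonal.mem_antidiagonal.1 hp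
  simp only [aeval_X, Option.elim]
  rw [aeval_two, map_sum, map_sum, Finset.mul_sum]
  have h0 : (PowerSeries.coeff p.1 f).support.filter (fun e => wt a b e ≤ d) =
      (PowerSeries.coeff p.1 f).support := by
    apply Finset.filter_true_of_mem
    intro e he
    exact hf p.1 (by omega) e (mem_support_iff.1 he)
  rw [h0]
  refine Finset.sum_congr rfl fun e he => ?_
  have he' : wt a b e ≤ d := hf p.1 (by omega) e (mem_support_iff.1 he)
  have h1 : ∀ j, dArc m (fun t => Polynomial.C (c t) * Polynomial.X ^ (![a, b] t.1)) j =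
      PowerSeries.C ((Polynomial.X : Polynomial L) ^ (![a, b] j)) *
        PowerSeries.map Polynomial.C (dArc m c j) := by
    intro j
    ext1 l
    rw [PowerSeries.coeff_C_mul, PowerSeries.coeff_map, dArc_coeff, dArc_coeff]
    split_ifs
    · rw [mul_comm]
    · rw [map_zero, mul_zero]
  rw [h1 0, h1 1, mul_pow, mul_pow, ← map_pow, ← map_pow, ← map_pow, ← map_pow]
  have h2 : PowerSeries.C (((Polynomial.X : Polynomial L) ^ (![a, b] 0)) ^ e 0) *
      PowerSeries.map Polynomial.C (dArc m c 0 ^ e 0) *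
      (PowerSeries.C (((Polynomial.X : Polynomial L) ^ (![a, b] 1)) ^ e 1) *
      PowerSeries.map Polynomial.C (dArc m c 1 ^ e 1)) =
      PowerSeries.C ((Polynomial.X : Polynomial L) ^ wt a b e) *
        PowerSeries.map Polynomial.C (dArc m c 0 ^ e 0 * dArc m c 1 ^ e 1) := by
    have h3 : (Polynomial.X : Polynomial L) ^ wt a b e =
        ((Polynomial.X : Polynomial L) ^ (![a, b] 0)) ^ e 0 *
          ((Polynomial.X : Polynomial L) ^ (![a, b] 1)) ^ e 1 := by
      rw [← pow_mul, ← pow_mul, ← pow_add]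
      rfl
    rw [h3, map_mul, map_mul]
    ring
  rw [h2, PowerSeries.coeff_C_mul, PowerSeries.coeff_map]
  have h4 : algebraMap k (PowerSeries L) (coeff e (PowerSeries.coeff p.1 f)) =
      PowerSeries.C (algebraMap k L (coeff e (PowerSeries.coeff p.1 f))) :=
    PowerSeries.algebraMap_apply
  rw [h4, PowerSeries.coeff_C_mul, Polynomial.C_mul, Polynomial.algebraMap_apply]
  have h5 : (Polynomial.X : Polynomial L) ^ d = Polynomial.X ^ (d - wt a b e) *
      Polynomial.X ^ wt a b e := by
    rw [← pow_add, Nat.sub_add_cancel he']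
  rw [h5]
  ring

end top

theorem deg_top {k : Type u} [Field k] {L : Type u} [Field L] [Algebra k L]
    (P : Fin 2 → PowerSeries L) (m C : ℕ) (h : CodLe k P m C) (a b : ℕ) :
    ∃ (L₀ : Type u) (_ : Field L₀) (_ : Algebra k L₀) (P₀ : Fin 2 → PowerSeries L₀),
      CodLe k P₀ m C ∧ ∀ (f : AA k) (d r : ℕ), r ≤ m →
        (∀ n < m, ∀ e, coeff e (PowerSeries.coeff n f) ≠ 0 → wt a b e ≤ d) →
        (PowerSeries.X : PowerSeries L) ^ r ∣ ev P f →
        (PowerSeries.X : PowerSeries L₀) ^ r ∣ ev P₀ (topA a b d f) := by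
  classical
  obtain ⟨T, hT, hind⟩ := h
  obtain ⟨L₀, iF, iA, c₀, ⟨T₀, hT₀, hind₀⟩, hΦ⟩ := degen_w (k := k)
    (fun t : Fin 2 × Fin m => PowerSeries.coeff t.2.val (P t.1)) (fun t => ![a, b] t.1) T hind
  refine ⟨L₀, iF, iA, dArc m c₀, dArc_cod c₀ T T₀ hT hT₀ hind₀, ?_⟩
  intro f d r hr hf hd
  rw [PowerSeries.X_pow_dvd_iff]
  intro n hn
  have h1 := hΦ (phT m a b d f n) (by
    rw [phT_laur m a b d _ f n (fun i hi => hf i (by omega))]
    have h2 := PowerSeries.X_pow_dvd_iff.1 (ev_congr (dArc_dvd m P) f) n (by omega)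
    rw [map_sub, PowerSeries.X_pow_dvd_iff.1 hd n hn, zero_sub, neg_eq_zero] at h2
    rw [h2, map_zero, mul_zero])
  rw [phT_apply] at h1
  rw [coeff_ev, ← h1]
  refine Finset.sum_congr rfl fun p hp => ?_
  simp only [aeval_X, Option.elim]
  rw [aeval_two, map_sum]
  have h3 : PowerSeries.coeff p.1 (topA a b d f) =
      weightedHomogeneousComponent ![a, b] d (PowerSeries.coeff p.1 f) := by
    rw [topA, PowerSeries.coeff_mk]
  have hw : ∀ e : Fin 2 →₀ ℕ, Finsupp.weight ![a, b] e = wt a b e := by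
    intro e
    rw [Finsupp.weight_apply, Finsupp.sum_fintype _ _ (by simp), Fin.sum_univ_two]
    simp [wt, mul_comm]
  rw [h3]
  have h4 : (weightedHomogeneousComponent ![a, b] d (PowerSeries.coeff p.1 f)).support ⊆
      (PowerSeries.coeff p.1 f).support.filter (fun e => wt a b e ≤ d) := by
    intro e he
    rw [mem_support_iff, coeff_weightedHomogeneousComponent, hw] at he
    rw [Finset.mem_filter, mem_support_iff]
    split_ifs at he with h5
    · exact ⟨he, h5.le⟩
    · exact absurd rfl he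
  rw [Finset.sum_subset h4]
  · refine Finset.sum_congr rfl fun e he => ?_
    rw [Finset.mem_filter] at he
    rw [coeff_weightedHomogeneousComponent, hw]
    by_cases h5 : wt a b e = d
    · rw [if_pos h5, h5, Nat.sub_self, pow_zero, one_mul, PowerSeries.algebraMap_apply,
        PowerSeries.coeff_C_mul]
    · rw [if_neg h5, map_zero, zero_mul, map_zero, zero_pow (by omega), zero_mul]
  · intro e _ he
    rw [notMem_support_iff.1 he, map_zero, zero_mul, map_zero]

end M3
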