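import Pool.Agent.M3.UDef

/-!
PIECE M3-U07: counting monomials.

PROOF. `lat_low`: the pairs `(i, l)` with `l ≤ n a` and `i ≤ (n a b - b l) / a`: for fixed `l` there are
`⌊(n a b - b l) / a⌋ + 1 ≥ (n a b - b l) / a` values of `i` (real numbers); the sum over `l = 0, …, n a` of `n b - b l / a` is
`(n a + 1) n b - (b / a) n a (n a + 1) / 2 = n b (n a + 1) / 2 ≥ n^2 a b / 2`.
`lat_up`: for fixed `l ≤ M / b'` there are at most `(M - b' l) / a' + 1` values of `i`; the number of `l` is at most `M / b' + 1`; sum: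
`∑_{l = 0}^{⌊M/b'⌋} ((M - b' l) / a' + 1)`; since `M - b' l ≤ M` decreases by `b'` in every step the sum is at most
`M^2 / (2 a' b') + M / a' + M / b' + 1` (with `q = ⌊M/b'⌋`: `(q+1) M / a' - b' q (q+1) / (2 a') + q + 1`, and
`(q + 1) (M - b' q / 2) ≤ M^2 / (2 b') + M` for `0 ≤ q ≤ M / b'`: put `M = b' (q + t)`, `0 ≤ t < 1`: the left side is
`b' (q + 1) (q / 2 + t)`, the right side `b' (q + t)^2 / 2 + b' (q + t)`, difference `b' (q / 2 + t^2 / 2 + ...) ≥ 0`).
Any bound `M^2 / (2 a' b') + c (M + 1)` with `c` independent of `M` is enough (state it as you like).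
`card_le`: the linear map `f ↦ (part of aeval χ f of weight ≤ N)` from the space with basis the monomials of weight
`wt a b e ≤ D` to the space with basis the monomials with `wt a' b' e ≤ N` is injective: if the image of `f` is zero, all monomials
of `aeval χ f` have weight `≥ N + 1`, so `f = 0` by `h`.  (Finite sets of exponents `e`; e.g. `LinearMap` between
`{e // wt a b e ≤ D} → K` and `{e // wt a' b' e ≤ N} → K`, `LinearMap.finrank_le_finrank_of_injective`,
`Module.finrank_fintype_fun_eq_card`.)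
`count_le`: `card_le` with `D = n a b`, `N = g n a b`; `n^2 a b / 2 ≤ (g n a b)^2 / (2 a' b') + c (g n a b + 1)` for all `n`, divide by `n^2` and let
`n → ∞`.
-/

open MvPolynomial

namespace M3

universe u

/-- the exponents of weight at most `D` -/
noncomputable def lat (a b D : ℕ) : Finset (Fin 2 →₀ ℕ) :=
  ((Finset.range (D + 1)) ×ˢ (Finset.range (D + 1))).image
    (fun p : ℕ × ℕ => Finsupp.single 0 p.1 + Finsupp.single 1 p.2) |>.filter (fun e => wt a b e ≤ D)

theorem mem_lat {a b D : ℕ} (ha : 0 < a) (hb : 0 < b) (e : Fin 2 →₀ ℕ) :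
    e ∈ lat a b D ↔ wt a b e ≤ D := by
  unfold lat
  rw [Finset.mem_filter, Finset.mem_image]
  constructor
  · exact fun h => h.2
  · intro h
    refine ⟨⟨(e 0, e 1), ?_, ?_⟩, h⟩
    · have h' : a * e 0 + b * e 1 ≤ D := h
      have h0 : e 0 ≤ a * e 0 := Nat.le_mul_of_pos_left _ ha
      have h1 : e 1 ≤ b * e 1 := Nat.le_mul_of_pos_left _ hb
      rw [Finset.mem_product, Finset.mem_range, Finset.mem_range]
      constructor
      · change e 0 < D + 1
        omega
      · change e 1 < D + 1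
        omega
    · ext i
      fin_cases i <;> simp

private theorem uc_inj {i l i' l' : ℕ} (h : (Finsupp.single 0 i + Finsupp.single 1 l : Fin 2 →₀ ℕ) =
    Finsupp.single 0 i' + Finsupp.single 1 l') : i = i' ∧ l = l' := by
  have h0 := DFunLike.congr_fun h 0
  have h1 := DFunLike.congr_fun h 1
  simp at h0 h1
  exact ⟨h0, h1⟩

private theorem uc_wt (a b i l : ℕ) :
    wt a b (Finsupp.single 0 i + Finsupp.single 1 l : Fin 2 →₀ ℕ) = a * i + b * l := by
  simp [wt]

theorem lat_low {a b : ℕ} (ha : 0 < a) (hb : 0 < b) (n : ℕ) :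
    (n : ℝ) ^ 2 * (a * b) ≤ 2 * (lat a b (n * (a * b))).card := by
  classical
  have key : n ^ 2 * (a * b) ≤ 2 * (lat a b (n * (a * b))).card := by
    obtain ⟨R, hR⟩ : ∃ R, R = (Finset.range (n * b)) ×ˢ (Finset.range (n * a)) := ⟨_, rfl⟩
    obtain ⟨A, hA⟩ : ∃ A, A = R.filter (fun p : ℕ × ℕ => a * p.1 + b * p.2 ≤ n * (a * b)) :=
      ⟨_, rfl⟩
    obtain ⟨B, hB⟩ : ∃ B, B = R.filter (fun p : ℕ × ℕ => ¬ a * p.1 + b * p.2 ≤ n * (a * b)) :=
      ⟨_, rfl⟩
    have hcard : R.card = n ^ 2 * (a * b) := by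
      rw [hR, Finset.card_product, Finset.card_range, Finset.card_range]
      ring
    have hsplit : A.card + B.card = R.card := by
      rw [hA, hB]
      exact Finset.card_filter_add_card_filter_not _
    have h1 : A.card ≤ (lat a b (n * (a * b))).card := by
      apply Finset.card_le_card_of_injOn
        (fun p : ℕ × ℕ => (Finsupp.single 0 p.1 + Finsupp.single 1 p.2 : Fin 2 →₀ ℕ))
      · intro p hp
        rw [hA] at hp
        have hp' := (Finset.mem_filter.1 hp).2
        rw [Finset.mem_coe, mem_lat ha hb, uc_wt]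
        exact hp'
      · intro p _ q _ hpq
        obtain ⟨e1, e2⟩ := uc_inj hpq
        exact Prod.ext e1 e2
    have h2 : B.card ≤ (lat a b (n * (a * b))).card := by
      apply Finset.card_le_card_of_injOn
        (fun p : ℕ × ℕ => (Finsupp.single 0 (n * b - p.1) + Finsupp.single 1 (n * a - p.2) :
          Fin 2 →₀ ℕ))
      · intro p hp
        rw [hB] at hp
        obtain ⟨hpR, hp'⟩ := Finset.mem_filter.1 hp
        rw [hR, Finset.mem_product, Finset.mem_range, Finset.mem_range] at hpR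
        rw [Finset.mem_coe, mem_lat ha hb, uc_wt]
        obtain ⟨x, hx⟩ : ∃ x, n * b = p.1 + x := Nat.exists_eq_add_of_le hpR.1.le
        obtain ⟨y, hy⟩ : ∃ y, n * a = p.2 + y := Nat.exists_eq_add_of_le hpR.2.le
        have e1 : n * b - p.1 = x := by omega
        have e2 : n * a - p.2 = y := by omega
        rw [e1, e2]
        have e3 : n * (a * b) = a * p.1 + a * x := by rw [← mul_add, ← hx]; ring
        have e4 : n * (a * b) = b * p.2 + b * y := by rw [← mul_add, ← hy]; ring
        omega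
      · intro p hp q hq hpq
        rw [hB] at hp hq
        have hp' := (Finset.mem_filter.1 hp).1
        have hq' := (Finset.mem_filter.1 hq).1
        rw [hR, Finset.mem_product, Finset.mem_range, Finset.mem_range] at hp' hq'
        obtain ⟨e1, e2⟩ := uc_inj hpq
        exact Prod.ext (by omega) (by omega)
    omega
  exact_mod_cast key

private theorem uc_sum (a b M : ℝ) (q : ℕ) :
    2 * ∑ l ∈ Finset.range (q + 1), (M - b * l + a) =
      2 * (q + 1) * (M + a) - b * q * (q + 1) := by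
  induction q with
  | zero => simp
  | succ q ih =>
    rw [Finset.sum_range_succ, mul_add, ih]
    push_cast
    ring

theorem lat_up {a b : ℕ} (ha : 0 < a) (hb : 0 < b) :
    ∃ c : ℝ, ∀ M : ℕ, (2 * (a * b) : ℝ) * (lat a b M).card ≤ (M : ℝ) ^ 2 + c * (M + 1) := by
  refine ⟨2 * a + 2 * b + 2 * a * b, fun M => ?_⟩
  have ha' : (0 : ℝ) < a := Nat.cast_pos.2 ha
  have hb' : (0 : ℝ) < b := Nat.cast_pos.2 hb
  have h1 : (lat a b M).card ≤
      ((Finset.range (M / b + 1)).sigma (fun l => Finset.range ((M - b * l) / a + 1))).card := by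
    apply Finset.card_le_card_of_injOn (fun e : Fin 2 →₀ ℕ => (⟨e 1, e 0⟩ : Σ _ : ℕ, ℕ))
    · intro e he
      rw [Finset.mem_coe, mem_lat ha hb] at he
      have he' : a * e 0 + b * e 1 ≤ M := he
      rw [Finset.mem_coe, Finset.mem_sigma, Finset.mem_range, Finset.mem_range]
      constructor
      · change e 1 < M / b + 1
        rw [Nat.lt_succ_iff, Nat.le_div_iff_mul_le hb, mul_comm]
        omega
      · change e 0 < (M - b * e 1) / a + 1
        rw [Nat.lt_succ_iff, Nat.le_div_iff_mul_le ha, mul_comm]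
        omega
    · intro e _ e' _ hee
      simp only [Sigma.mk.injEq, heq_eq_eq] at hee
      ext i
      fin_cases i
      · exact hee.2
      · exact hee.1
  rw [Finset.card_sigma] at h1
  simp only [Finset.card_range] at h1
  have h2 : (a : ℝ) * (lat a b M).card ≤
      ∑ l ∈ Finset.range (M / b + 1), ((M : ℝ) - b * l + a) := by
    have h3 : ((lat a b M).card : ℝ) ≤
        ∑ l ∈ Finset.range (M / b + 1), ((((M - b * l) / a + 1 : ℕ)) : ℝ) := by
      exact_mod_cast h1
    calc (a : ℝ) * (lat a b M).card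
        ≤ a * ∑ l ∈ Finset.range (M / b + 1), ((((M - b * l) / a + 1 : ℕ)) : ℝ) :=
          mul_le_mul_of_nonneg_left h3 ha'.le
      _ = ∑ l ∈ Finset.range (M / b + 1), (a : ℝ) * ((((M - b * l) / a + 1 : ℕ)) : ℝ) :=
          Finset.mul_sum _ _ _
      _ ≤ ∑ l ∈ Finset.range (M / b + 1), ((M : ℝ) - b * l + a) := by
          refine Finset.sum_le_sum fun l hl => ?_
          rw [Finset.mem_range, Nat.lt_succ_iff, Nat.le_div_iff_mul_le hb, mul_comm] at hl
          have h4 : a * ((M - b * l) / a) ≤ M - b * l := Nat.mul_div_le _ _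
          have h5 : a * ((M - b * l) / a) + b * l ≤ M := by omega
          have h6 : (a : ℝ) * (((M - b * l) / a : ℕ) : ℝ) + b * l ≤ M := by exact_mod_cast h5
          rw [Nat.cast_add, Nat.cast_one]
          linarith
  have h7 := uc_sum (a : ℝ) b M (M / b)
  obtain ⟨q, hq⟩ : ∃ q : ℕ, q = M / b := ⟨_, rfl⟩
  rw [← hq] at h2 h7
  have h8 : (b : ℝ) * q ≤ M := by
    have : b * q ≤ M := by rw [hq]; exact Nat.mul_div_le _ _
    exact_mod_cast this
  have hq0 : (0 : ℝ) ≤ q := Nat.cast_nonneg q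
  have hM0 : (0 : ℝ) ≤ M := Nat.cast_nonneg M
  have h9 : (2 * (a * b) : ℝ) * (lat a b M).card ≤
      b * (2 * (q + 1) * (M + a) - b * q * (q + 1)) := by
    rw [← h7]
    have := mul_le_mul_of_nonneg_left h2 (by positivity : (0 : ℝ) ≤ 2 * b)
    linarith
  refine h9.trans ?_
  nlinarith [sq_nonneg ((M : ℝ) - b * q), mul_nonneg hb'.le hq0, mul_nonneg ha'.le hM0,
    mul_nonneg hb'.le hM0, mul_nonneg (mul_nonneg hb'.le hq0) hb'.le,
    mul_nonneg ha'.le (sub_nonneg.2 h8), mul_nonneg (mul_nonneg ha'.le hb'.le) hM0]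

theorem card_le {K : Type u} [Field K] {a b a' b' : ℕ} (ha : 0 < a) (hb : 0 < b) (ha' : 0 < a')
    (hb' : 0 < b') {χ : Fin 2 → MvPolynomial (Fin 2) K} {D N : ℕ}
    (h : ∀ f : MvPolynomial (Fin 2) K, f ≠ 0 → WLe a b D f → ¬ WGe a' b' (N + 1) (aeval χ f)) :
    (lat a b D).card ≤ (lat a' b' N).card := by
  classical
  let S := lat a b D
  let T := lat a' b' N
  let L1 : (S → K) →ₗ[K] MvPolynomial (Fin 2) K :=
    ∑ e : S, (MvPolynomial.monomial (e : Fin 2 →₀ ℕ)).comp (LinearMap.proj e)
  let L3 : MvPolynomial (Fin 2) K →ₗ[K] (T → K) :=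
    { toFun := fun f e => coeff (e : Fin 2 →₀ ℕ) f
      map_add' := fun f g => by ext e; simp
      map_smul' := fun c f => by ext e; simp }
  have hL1 : ∀ (c : S → K) (e : Fin 2 →₀ ℕ), coeff e (L1 c) =
      if he : e ∈ S then c ⟨e, he⟩ else 0 := by
    intro c e
    have h1 : L1 c = ∑ e : S, monomial (e : Fin 2 →₀ ℕ) (c e) := by
      simp [L1, LinearMap.sum_apply]
    rw [h1, coeff_sum]
    simp only [coeff_monomial]
    split_ifs with he
    · rw [Finset.sum_eq_single ⟨e, he⟩]
      · rw [if_pos rfl]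
      · intro x _ hx
        rw [if_neg]
        intro h2
        exact hx (Subtype.ext h2)
      · intro h2
        exact absurd (Finset.mem_univ _) h2
    · apply Finset.sum_eq_zero
      intro x _
      rw [if_neg]
      rintro rfl
      exact he x.2
  have hinj : Function.Injective ((L3 ∘ₗ (aeval χ).toLinearMap) ∘ₗ L1) := by
    rw [← LinearMap.ker_eq_bot, LinearMap.ker_eq_bot']
    intro c hc
    by_contra hne
    have hf : L1 c ≠ 0 := by
      intro h0
      apply hne
      ext e
      have := hL1 c e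
      rw [h0, coeff_zero, dif_pos e.2] at this
      exact this.symm
    have hW : WLe a b D (L1 c) := by
      intro e he
      rw [hL1] at he
      by_cases heS : e ∈ S
      · exact (mem_lat ha hb e).1 heS
      · rw [dif_neg heS] at he
        exact absurd rfl he
    apply h _ hf hW
    intro e he
    by_contra hlt
    have heT : e ∈ T := (mem_lat ha' hb' e).2 (by omega)
    apply he
    exact congrFun hc ⟨e, heT⟩
  have h1 := LinearMap.finrank_le_finrank_of_injective hinj
  rw [Module.finrank_fintype_fun_eq_card, Module.finrank_fintype_fun_eq_card, Fintype.card_coe,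
    Fintype.card_coe] at h1
  exact h1

theorem count_le {K : Type u} [Field K] {a b a' b' g : ℕ} (ha : 0 < a) (hb : 0 < b)
    (ha' : 0 < a') (hb' : 0 < b') {χ : Fin 2 → MvPolynomial (Fin 2) K}
    (h : ∀ f : MvPolynomial (Fin 2) K, f ≠ 0 → ∀ D, WLe a b D f →
      ¬ WGe a' b' (g * D + 1) (aeval χ f)) :
    a' * b' ≤ g ^ 2 * (a * b) := by
  by_contra hlt
  obtain ⟨c, hc⟩ := lat_up ha' hb'
  have key : ∀ n : ℕ, (n : ℝ) ^ 2 * (a * b) * (a' * b') ≤
      ((g * (n * (a * b)) : ℕ) : ℝ) ^ 2 + c * (((g * (n * (a * b)) : ℕ) : ℝ) + 1) := by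
    intro n
    have h1 := lat_low ha hb n
    have h2 : (lat a b (n * (a * b))).card ≤ (lat a' b' (g * (n * (a * b)))).card :=
      card_le ha hb ha' hb' (fun f hf hW => h f hf _ hW)
    have h3 := hc (g * (n * (a * b)))
    have h4 : ((lat a b (n * (a * b))).card : ℝ) ≤ (lat a' b' (g * (n * (a * b)))).card := by
      exact_mod_cast h2
    have h5 : (0 : ℝ) ≤ (a' : ℝ) * b' := by positivity
    calc (n : ℝ) ^ 2 * (a * b) * (a' * b')
        ≤ (2 * (lat a b (n * (a * b))).card) * (a' * b') := mul_le_mul_of_nonneg_right h1 h5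
      _ ≤ (2 * (lat a' b' (g * (n * (a * b)))).card) * (a' * b') := by
          apply mul_le_mul_of_nonneg_right _ h5
          linarith
      _ = (2 * (a' * b') : ℝ) * (lat a' b' (g * (n * (a * b)))).card := by ring
      _ ≤ _ := h3
  have hA : (1 : ℝ) ≤ a * b := by
    have : 1 ≤ a * b := Nat.mul_pos ha hb
    exact_mod_cast this
  have hd : ((g : ℝ) ^ 2 * (a * b)) + 1 ≤ a' * b' := by
    have : g ^ 2 * (a * b) + 1 ≤ a' * b' := by omega
    exact_mod_cast this
  obtain ⟨n, hn⟩ := exists_nat_gt (max c 0 * (g * (a * b) + 1) + 1)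
  have hc0 : 0 ≤ max c 0 := le_max_right _ _
  have hcc : c ≤ max c 0 := le_max_left _ _
  have hg : (0 : ℝ) ≤ g * (a * b) := by positivity
  have hn1 : (1 : ℝ) ≤ n := by
    have : 0 ≤ max c 0 * (g * (a * b) + 1) := by positivity
    linarith
  have k1 := key n
  push_cast at k1
  have k2 : (n : ℝ) ^ 2 * (a * b) ≤ c * (g * (n * (a * b)) + 1) := by
    have k3 : (n : ℝ) ^ 2 * (a * b) * ((g : ℝ) ^ 2 * (a * b) + 1) ≤
        (n : ℝ) ^ 2 * (a * b) * (a' * b') := mul_le_mul_of_nonneg_left hd (by positivity)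
    nlinarith [k1, k3]
  have k4 : c * (g * (n * (a * b)) + 1) ≤ max c 0 * (g * (a * b) + 1) * n := by
    have : (g : ℝ) * (n * (a * b)) + 1 ≤ (g * (a * b) + 1) * n := by nlinarith
    calc c * (g * (n * (a * b)) + 1) ≤ max c 0 * (g * (n * (a * b)) + 1) :=
          mul_le_mul_of_nonneg_right hcc (by positivity)
      _ ≤ max c 0 * ((g * (a * b) + 1) * n) := mul_le_mul_of_nonneg_left this hc0
      _ = _ := by ring
  have k5 : (n : ℝ) * n ≤ (n : ℝ) ^ 2 * (a * b) := by nlinarith
  nlinarith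

/-- elementary arithmetic: `(b' - a')^2 = (a' + b')^2 - 4 a' b' ≥ g^2 (b - a)^2`, so `b' - a' ≥ g (b - a)`, `b' ≥ g b`, `a' ≤ g a` -/
theorem ball_arith {a b a' b' g : ℕ} (ha : 0 < a) (hab : a ≤ b) (hc : Nat.Coprime a b)
    (ha' : 0 < a') (hab' : a' ≤ b') (hc' : Nat.Coprime a' b') (h1 : a' + b' = g * (a + b))
    (h2 : a' * b' ≤ g ^ 2 * (a * b)) :
    b * a' ≤ b' * a ∧ (b * a' = b' * a → a' = a ∧ b' = b ∧ g = 1) := by
  have hle : a' ≤ g * a := by
    by_contra hlt
    rw [not_le] at hlt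
    obtain ⟨d, hd⟩ := Nat.exists_eq_add_of_lt hlt
    have e1 : b' + (d + 1) = g * b := by nlinarith [h1, hd]
    have e2 : a' + (d + 1) ≤ g * b := by omega
    have h3 : (a' * b' : ℤ) ≤ g ^ 2 * (a * b) := by exact_mod_cast h2
    have hd' : (a' : ℤ) = g * a + (d + 1) := by rw [hd]; push_cast; ring
    have e1' : (b' : ℤ) = g * b - (d + 1) := by
      have : ((b' + (d + 1) : ℕ) : ℤ) = ((g * b : ℕ) : ℤ) := by rw [e1]
      push_cast at this
      linarith
    have e3 : (a' : ℤ) ≤ b' := by exact_mod_cast hab'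
    rw [hd', e1'] at h3
    rw [hd', e1'] at e3
    have hdpos : (0 : ℤ) < d + 1 := by positivity
    nlinarith [mul_nonneg hdpos.le (sub_nonneg.2 e3), mul_pos hdpos hdpos]
  have hge : g * b ≤ b' := by nlinarith [h1, hle]
  refine ⟨?_, ?_⟩
  · calc b * a' ≤ b * (g * a) := Nat.mul_le_mul_left _ hle
      _ = (g * b) * a := by ring
      _ ≤ b' * a := Nat.mul_le_mul_right _ hge
  · intro h
    have d1 : a ∣ a' := by
      have : a ∣ b * a' := by rw [h]; exact Dvd.intro_left _ rfl
      exact hc.dvd_of_dvd_mul_left this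
    have d2 : a' ∣ a := by
      have : a' ∣ b' * a := by rw [← h]; exact Dvd.intro_left _ rfl
      exact hc'.dvd_of_dvd_mul_left this
    have e : a' = a := Nat.dvd_antisymm d2 d1
    subst e
    have e2 : b' = b := by
      have := Nat.eq_of_mul_eq_mul_right ha h
      exact this.symm
    subst e2
    refine ⟨rfl, rfl, ?_⟩
    have : 1 * (a' + b') = g * (a' + b') := by rw [one_mul]; exact h1
    exact (Nat.eq_of_mul_eq_mul_right (by omega) this).symm

end M3
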