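import Pool.Agent.M3.UDef

/-!
PIECE M3-U08: the equality case, `a < b`.

PROOF. Write `v f ≥ m` for `WGe a b m f`.
(1) `UEq_surj`: for every `m` and every `G` there is `f` with all weights `< m` and `v (G - aeval χ f) ≥ m`: the linear map
`f ↦ (part of aeval χ f of weight < m)` of the finite dimensional space of all polynomials with monomials of weight `< m` to itself
is injective by `h`, so it is surjective.
(2) `m = a`, `G = χ 0`: `f` is a constant (`a < b`), so `v (χ 0 - z 0) ≥ a`, `z 0` the constant coefficient of `χ 0`.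
(3) `m = b`, `G = χ 1`: `f = p(X 0)` with `a * deg p < b`, so `v (χ 1 - p(χ 0)) ≥ b`; the constant coefficient gives
`p.eval (z 0) = z 1`.
(4) So the automorphism `aeval F`, `F j = aeval χ (tri (z 0) p j)`, preserves all the subspaces `v g ≥ m`, which have finite
codimension.  A surjective linear map with this property is injective on the quotient (`UEq_inj`), i.e.
`v (aeval F g) ≥ m` implies `v g ≥ m`.  Take `g = aeval (triI (z 0) p) f`, `aeval F g = aeval χ f`.
(The hypothesis `hc` is not needed.)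
-/

open MvPolynomial

namespace M3

universe u

section
variable {K : Type u} [Field K]

theorem UEq_fin {a b : ℕ} (ha : 0 < a) (hb : 0 < b) (m : ℕ) :
    {e : Fin 2 →₀ ℕ | wt a b e < m}.Finite := by
  refine (Set.finite_Iic (Finsupp.equivFunOnFinite.symm fun _ : Fin 2 => m)).subset ?_
  intro e he
  rw [Set.mem_Iic, Finsupp.le_def]
  intro i
  have he' : a * e 0 + b * e 1 < m := he
  have h0 : e 0 ≤ a * e 0 := Nat.le_mul_of_pos_left _ ha
  have h1 : e 1 ≤ b * e 1 := Nat.le_mul_of_pos_left _ hb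
  fin_cases i
  · show e 0 ≤ m
    omega
  · show e 1 ≤ m
    omega

theorem UEq_lin {a b : ℕ} (ha : 0 < a) (hb : 0 < b) (m : ℕ) :
    ∃ (S : Type) (_ : Finite S) (π : MvPolynomial (Fin 2) K →ₗ[K] (S → K))
      (ι : (S → K) →ₗ[K] MvPolynomial (Fin 2) K),
      (∀ c, π (ι c) = c) ∧ (∀ f, π f = 0 ↔ WGe a b m f) ∧
        ∀ c e, coeff e (ι c) ≠ 0 → wt a b e < m := by
  classical
  have : Finite {e : Fin 2 →₀ ℕ // wt a b e < m} := (UEq_fin ha hb m).to_subtype
  have := Fintype.ofFinite {e : Fin 2 →₀ ℕ // wt a b e < m}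
  have key : ∀ (c : {e : Fin 2 →₀ ℕ // wt a b e < m} → K) (e : Fin 2 →₀ ℕ),
      coeff e ((∑ s : {e : Fin 2 →₀ ℕ // wt a b e < m},
        (monomial s.1).comp (LinearMap.proj s) : ({e : Fin 2 →₀ ℕ // wt a b e < m} → K) →ₗ[K]
          MvPolynomial (Fin 2) K) c) = if h : wt a b e < m then c ⟨e, h⟩ else 0 := by
    intro c e
    rw [LinearMap.sum_apply, coeff_sum]
    simp only [LinearMap.comp_apply, LinearMap.proj_apply, coeff_monomial]
    split_ifs with h
    · rw [Finset.sum_eq_single ⟨e, h⟩]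
      · rw [if_pos rfl]
      · intro s _ hs
        rw [if_neg]
        intro h2
        exact hs (Subtype.ext h2)
      · intro h2
        exact absurd (Finset.mem_univ _) h2
    · apply Finset.sum_eq_zero
      intro s _
      rw [if_neg]
      intro h2
      exact h (h2 ▸ s.2)
  refine ⟨{e : Fin 2 →₀ ℕ // wt a b e < m}, inferInstance,
    LinearMap.pi fun e => lcoeff K e.1, ∑ s, (monomial s.1).comp (LinearMap.proj s),
    fun c => ?_, fun f => ?_, fun c e he => ?_⟩
  · funext s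
    rw [LinearMap.pi_apply]
    show coeff s.1 _ = _
    rw [key, dif_pos s.2]
  · constructor
    · intro h e he
      by_contra hlt
      exact he (congrFun h ⟨e, not_le.mp hlt⟩)
    · intro h
      funext s
      show coeff s.1 f = 0
      by_contra hne
      exact absurd (h s.1 hne) (not_le.mpr s.2)
  · rw [key] at he
    by_contra hlt
    rw [dif_neg hlt] at he
    exact he rfl

theorem UEq_surj {a b : ℕ} (ha : 0 < a) (hb : 0 < b) (m : ℕ)
    (φ : MvPolynomial (Fin 2) K →ₗ[K] MvPolynomial (Fin 2) K)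
    (h : ∀ f, (∀ e, coeff e f ≠ 0 → wt a b e < m) → WGe a b m (φ f) → f = 0)
    (G : MvPolynomial (Fin 2) K) :
    ∃ f, (∀ e, coeff e f ≠ 0 → wt a b e < m) ∧ WGe a b m (G - φ f) := by
  obtain ⟨S, _, π, ι, h1, h2, h3⟩ := UEq_lin (K := K) ha hb m
  have hinj : Function.Injective (π ∘ₗ φ ∘ₗ ι) := by
    rw [injective_iff_map_eq_zero]
    intro c hc
    have h4 : ι c = 0 := h _ (h3 c) ((h2 _).mp hc)
    rw [← h1 c, h4, map_zero]
  obtain ⟨c, hc⟩ := LinearMap.injective_iff_surjective.mp hinj (π G)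
  refine ⟨ι c, h3 c, (h2 _).mp ?_⟩
  rw [map_sub, ← hc]
  exact sub_self _

theorem UEq_inj {a b : ℕ} (ha : 0 < a) (hb : 0 < b) (m : ℕ)
    (φ : MvPolynomial (Fin 2) K →ₗ[K] MvPolynomial (Fin 2) K) (hs : Function.Surjective φ)
    (hW : ∀ f, WGe a b m f → WGe a b m (φ f)) (f : MvPolynomial (Fin 2) K)
    (hf : WGe a b m (φ f)) : WGe a b m f := by
  obtain ⟨S, _, π, ι, h1, h2, h3⟩ := UEq_lin (K := K) ha hb m
  have hT : ∀ g, (π ∘ₗ φ ∘ₗ ι) (π g) = π (φ g) := by
    intro g
    have h4 : π (g - ι (π g)) = 0 := by rw [map_sub, h1, sub_self]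
    have h5 := (h2 _).mpr (hW _ ((h2 _).mp h4))
    rw [map_sub, map_sub, sub_eq_zero] at h5
    exact h5.symm
  have hsurj : Function.Surjective (π ∘ₗ φ ∘ₗ ι) := by
    intro c
    obtain ⟨g, hg⟩ := hs (ι c)
    exact ⟨π g, by rw [hT, hg, h1]⟩
  have hinj := LinearMap.injective_iff_surjective.mpr hsurj
  rw [← h2]
  apply hinj
  rw [hT, map_zero]
  exact (h2 _).mpr hf

theorem UEq_mul {a b m m' : ℕ} {f g : MvPolynomial (Fin 2) K} (hf : WGe a b m f)
    (hg : WGe a b m' g) : WGe a b (m + m') (f * g) := by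
  classical
  intro e he
  rw [coeff_mul] at he
  obtain ⟨x, hx, hne⟩ := Finset.exists_ne_zero_of_sum_ne_zero he
  have h1 := hf x.1 (left_ne_zero_of_mul hne)
  have h2 := hg x.2 (right_ne_zero_of_mul hne)
  have hx' : x.1 + x.2 = e := Finset.HasAntidiagonal.mem_antidiagonal.mp hx
  rw [← hx']
  have h3 : wt a b (x.1 + x.2) = wt a b x.1 + wt a b x.2 := by
    simp only [wt, Finsupp.add_apply]
    ring
  omega

theorem UEq_one (a b : ℕ) : WGe a b 0 (1 : MvPolynomial (Fin 2) K) := fun _ _ => Nat.zero_le _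

theorem UEq_pow {a b m : ℕ} {f : MvPolynomial (Fin 2) K} (hf : WGe a b m f) (n : ℕ) :
    WGe a b (m * n) (f ^ n) := by
  induction n with
  | zero =>
    rw [pow_zero, mul_zero]
    exact UEq_one a b
  | succ n ih =>
    rw [pow_succ, mul_add, mul_one]
    exact UEq_mul ih hf

theorem UEq_sum {a b m : ℕ} {α : Type*} (s : Finset α) (F : α → MvPolynomial (Fin 2) K)
    (h : ∀ i ∈ s, WGe a b m (F i)) : WGe a b m (∑ i ∈ s, F i) := by
  intro e he
  rw [coeff_sum] at he
  obtain ⟨i, hi, hne⟩ := Finset.exists_ne_zero_of_sum_ne_zero he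
  exact h i hi e hne

theorem UEq_subst {a b m : ℕ} {F : Fin 2 → MvPolynomial (Fin 2) K} (h0 : WGe a b a (F 0))
    (h1 : WGe a b b (F 1)) (f : MvPolynomial (Fin 2) K) (hf : WGe a b m f) :
    WGe a b m (aeval F f) := by
  rw [aeval_def, eval₂_eq']
  apply UEq_sum
  intro e he
  have h2 := hf e (mem_support_iff.mp he)
  rw [Fin.prod_univ_two]
  have h3 := UEq_mul (f := algebraMap K (MvPolynomial (Fin 2) K) (coeff e f)) (m := 0) (a := a)
    (b := b) (fun _ _ => Nat.zero_le _) (UEq_mul (UEq_pow h0 (e 0)) (UEq_pow h1 (e 1)))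
  refine h3.mono ?_
  rw [zero_add]
  exact h2

/-- polynomials of weight less than `b` -/
theorem UEq_low {a b m : ℕ} (ha : 0 < a) (hm : 0 < m) (hmb : m ≤ b) (f : MvPolynomial (Fin 2) K)
    (hf : ∀ e, coeff e f ≠ 0 → wt a b e < m) :
    ∃ p : Polynomial K, a * p.natDegree < m ∧ f = Polynomial.aeval (X 0) p := by
  refine ⟨∑ e ∈ f.support, Polynomial.monomial (e 0) (coeff e f), ?_, ?_⟩
  · have h1 : (∑ e ∈ f.support, Polynomial.monomial (e 0) (coeff e f)).natDegree ≤ (m - 1) / a := by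
      apply Polynomial.natDegree_sum_le_of_forall_le
      intro e he
      refine (Polynomial.natDegree_monomial_le _).trans ?_
      rw [Nat.le_div_iff_mul_le ha]
      have h2 : a * e 0 + b * e 1 < m := hf e (mem_support_iff.mp he)
      rw [mul_comm]
      omega
    have h3 : a * ((m - 1) / a) ≤ m - 1 := Nat.mul_div_le _ _
    have h4 := Nat.mul_le_mul_left a h1
    omega
  · rw [map_sum]
    conv_lhs => rw [f.as_sum]
    refine Finset.sum_congr rfl fun e he => ?_
    rw [Polynomial.aeval_monomial]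
    have h2 : a * e 0 + b * e 1 < m := hf e (mem_support_iff.mp he)
    have h5 : e 1 = 0 := by
      by_contra hne
      have h6 : b ≤ b * e 1 := Nat.le_mul_of_pos_right _ (Nat.pos_of_ne_zero hne)
      omega
    have h7 : e = Finsupp.single 0 (e 0) := by
      ext i
      fin_cases i
      · simp
      · simpa using h5
    conv_lhs => rw [h7]
    rw [← C_mul_X_pow_eq_monomial, ← h7]
    rfl

theorem UEq_coeff0 (χ : Fin 2 → MvPolynomial (Fin 2) K) (p : Polynomial K) :
    coeff 0 (Polynomial.aeval (χ 0) p) = p.eval (coeff 0 (χ 0)) := by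
  have h := Polynomial.hom_eval₂ p (algebraMap K (MvPolynomial (Fin 2) K))
    (constantCoeff : MvPolynomial (Fin 2) K →+* K) (χ 0)
  rw [← constantCoeff_eq, Polynomial.aeval_def, h]
  have h2 : (constantCoeff : MvPolynomial (Fin 2) K →+* K).comp
      (algebraMap K (MvPolynomial (Fin 2) K)) = RingHom.id K := by
    ext x
    simp [algebraMap_eq]
  rw [h2]
  rfl

end

theorem eq_struct {K : Type u} [Field K] {a b : ℕ} (ha : 0 < a) (hab : a < b)
    (hc : Nat.Coprime a b) {χ θ : Fin 2 → MvPolynomial (Fin 2) K} (hχ : PolAut χ θ)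
    (h : ∀ f : MvPolynomial (Fin 2) K, f ≠ 0 → ∀ D, WLe a b D f → ¬ WGe a b (D + 1) (aeval χ f)) :
    ∃ p : Polynomial K, a * p.natDegree < b ∧ p.eval (coeff 0 (χ 0)) = coeff 0 (χ 1) ∧
      ∀ (f : MvPolynomial (Fin 2) K) (m : ℕ), WGe a b m (aeval χ f) →
        WGe a b m (aeval (triI (coeff 0 (χ 0)) p) f) := by
  have hb : 0 < b := ha.trans hab
  have h' : ∀ m, 0 < m → ∀ f : MvPolynomial (Fin 2) K, (∀ e, coeff e f ≠ 0 → wt a b e < m) →
      WGe a b m ((aeval χ : MvPolynomial (Fin 2) K →ₐ[K] _).toLinearMap f) → f = 0 := by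
    intro m hm f hf hg
    by_contra hne
    refine h f hne (m - 1) (fun e he => Nat.le_sub_one_of_lt (hf e he)) ?_
    rw [Nat.sub_add_cancel hm]
    exact hg
  have hc0 : ∀ (m : ℕ), 0 < m → ∀ g : MvPolynomial (Fin 2) K, WGe a b m g → coeff 0 g = 0 := by
    intro m hm g hg
    by_contra hne
    have h1 := hg 0 hne
    have h2 : wt a b 0 = 0 := by simp [wt]
    omega
  -- the first coordinate
  obtain ⟨f₀, hf₀, hg₀⟩ := UEq_surj ha hb a (aeval χ : MvPolynomial (Fin 2) K →ₐ[K] _).toLinearMap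
    (h' a ha) (χ 0)
  obtain ⟨p₀, hp₀, rfl⟩ := UEq_low ha ha hab.le f₀ hf₀
  have hd : p₀.natDegree = 0 := by
    by_contra hne
    have h6 : a ≤ a * p₀.natDegree := Nat.le_mul_of_pos_right _ (Nat.pos_of_ne_zero hne)
    omega
  rw [Polynomial.eq_C_of_natDegree_eq_zero hd] at hg₀
  have hg₀' : WGe a b a (χ 0 - C (p₀.coeff 0)) := by
    simpa [algebraMap_eq] using hg₀
  have hz : coeff 0 (χ 0) = p₀.coeff 0 := by
    have h1 := hc0 a ha _ hg₀'
    rw [coeff_sub, coeff_zero_C, sub_eq_zero] at h1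
    exact h1
  rw [← hz] at hg₀'
  -- the second coordinate
  obtain ⟨f₁, hf₁, hg₁⟩ := UEq_surj ha hb b (aeval χ : MvPolynomial (Fin 2) K →ₐ[K] _).toLinearMap
    (h' b hb) (χ 1)
  obtain ⟨p, hp, rfl⟩ := UEq_low ha hb le_rfl f₁ hf₁
  have hx : aeval χ (Polynomial.aeval (X 0 : MvPolynomial (Fin 2) K) p) =
      Polynomial.aeval (χ 0) p := by
    rw [← Polynomial.aeval_algHom_apply, aeval_X]
  have hg₁' : WGe a b b (χ 1 - Polynomial.aeval (χ 0) p) := by
    rw [← hx]
    exact hg₁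
  have hz1 : p.eval (coeff 0 (χ 0)) = coeff 0 (χ 1) := by
    have h1 := hc0 b hb _ hg₁'
    rw [coeff_sub, UEq_coeff0, sub_eq_zero] at h1
    exact h1.symm
  refine ⟨p, hp, hz1, fun f m hfm => ?_⟩
  -- the composition
  have hψ : PolAut (fun j => aeval χ (tri (coeff 0 (χ 0)) p j))
      (fun j => aeval (triI (coeff 0 (χ 0)) p) (θ j)) := (polAut_tri _ p).comp hχ
  refine UEq_inj ha hb m (aeval fun j => aeval χ (tri (coeff 0 (χ 0)) p j) :
    MvPolynomial (Fin 2) K →ₐ[K] _).toLinearMap (fun g => ⟨_, hψ.left g⟩)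
    (fun g hg => UEq_subst (F := fun j => aeval χ (tri (coeff 0 (χ 0)) p j)) ?_ ?_ g hg) _ ?_
  · show WGe a b a (aeval χ (X 0 - C (coeff 0 (χ 0))))
    rw [map_sub, aeval_X, aeval_C]
    exact hg₀'
  · show WGe a b b (aeval χ (X 1 - Polynomial.aeval (X 0 : MvPolynomial (Fin 2) K) p))
    rw [map_sub, aeval_X, hx]
    exact hg₁'
  · show WGe a b m (aeval (fun j => aeval χ (tri (coeff 0 (χ 0)) p j))
      (aeval (triI (coeff 0 (χ 0)) p) f))
    rw [← aeval_aeval_pol, (polAut_tri (coeff 0 (χ 0)) p).left]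
    exact hfm

end M3
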