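import Pool.Agent.M3.UDef

/-!
PIECE M3-U09: the case `a = b = 1` (multiplicities).

PROOF. `one_struct`: let `z j := coeff 0 (χ j)`, `T := triI (z 0) (C (z 1))`, i.e. `T = ![X 0 + C (z 0), X 1 + C (z 1)]`, `g := aeval χ f`.  Then `f = aeval θ g`
(`PolAut.right`) and `aeval T f = aeval (fun j => aeval T (θ j)) g`.  The constant coefficient of `aeval T (θ j)` is the value of `θ j` at
`z = (z 0, z 1)`, and this is `0`: apply the constant coefficient (a ring homomorphism `MvPolynomial.constantCoeff`) to `aeval χ (θ j) = X j`.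
So every `aeval T (θ j)` has all monomials of degree `≥ 1`, and for a monomial `e` of `g`, `m ≤ e 0 + e 1`, the product
`(aeval T (θ 0))^(e 0) * (aeval T (θ 1))^(e 1)` has all monomials of degree `≥ m` (`WGe` is compatible with products: `wge_mul`).
`tri_le`: `f = ∑ c_e x^e`; `(X 0 + C z)^(e 0) * (X 1 + p(X 0 + z))^(e 1)` has all monomials of weight `≤ a e 0 + b e 1` and its part of
this weight is `X 0^(e 0) * X 1^(e 1)`, because `X 0 + C z` has top part `X 0` (`a > 0`) and `X 1 + p(X 0 + z)` has weights `≤ b`, top part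
`X 1` (`a * p.natDegree < b`).  Useful: the set of `f` for which the statement holds for given `D`... or the multiplicativity:
if `WLe a b D f`, `WLe a b D' f'` then `WLe a b (D + D') (f * f')` and `wtop (D + D') (f * f') = wtop D f * wtop D' f'`.
-/

open MvPolynomial

namespace M3

universe u

section
variable {K : Type u} [Field K]

private lemma uone_wt_add (a b : ℕ) (x y : Fin 2 →₀ ℕ) :
    wt a b (x + y) = wt a b x + wt a b y := by
  simp only [wt, Finsupp.add_apply]
  ring

theorem wge_mul {a b m m' : ℕ} {f f' : MvPolynomial (Fin 2) K} (hf : WGe a b m f)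
    (hf' : WGe a b m' f') : WGe a b (m + m') (f * f') := by
  classical
  intro e he
  rw [coeff_mul] at he
  obtain ⟨x, hx, hne⟩ := Finset.exists_ne_zero_of_sum_ne_zero he
  rw [Finset.HasAntidiagonal.mem_antidiagonal] at hx
  rw [← hx, uone_wt_add]
  exact add_le_add (hf _ (left_ne_zero_of_mul hne)) (hf' _ (right_ne_zero_of_mul hne))

theorem wle_mul {a b D D' : ℕ} {f f' : MvPolynomial (Fin 2) K} (hf : WLe a b D f)
    (hf' : WLe a b D' f') : WLe a b (D + D') (f * f') ∧
      wtop a b (D + D') (f * f') = wtop a b D f * wtop a b D' f' := by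
  classical
  refine ⟨?_, ?_⟩
  · intro e he
    rw [coeff_mul] at he
    obtain ⟨x, hx, hne⟩ := Finset.exists_ne_zero_of_sum_ne_zero he
    rw [Finset.HasAntidiagonal.mem_antidiagonal] at hx
    rw [← hx, uone_wt_add]
    exact add_le_add (hf _ (left_ne_zero_of_mul hne)) (hf' _ (right_ne_zero_of_mul hne))
  · ext e
    rw [coeff_wtop, coeff_mul, coeff_mul]
    split_ifs with hw
    · refine Finset.sum_congr rfl fun x hx => ?_
      rw [Finset.HasAntidiagonal.mem_antidiagonal] at hx
      rw [← hx, uone_wt_add] at hw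
      rw [coeff_wtop, coeff_wtop]
      by_cases h1 : coeff x.1 f = 0
      · rw [h1]
        simp
      by_cases h2 : coeff x.2 f' = 0
      · rw [h2]
        simp
      have h3 := hf _ h1
      have h4 := hf' _ h2
      rw [if_pos (by omega), if_pos (by omega)]
    · symm
      refine Finset.sum_eq_zero fun x hx => ?_
      rw [Finset.HasAntidiagonal.mem_antidiagonal] at hx
      rw [← hx, uone_wt_add] at hw
      rw [coeff_wtop, coeff_wtop]
      by_cases h1 : wt a b x.1 = D
      · rw [if_neg (c := wt a b x.2 = D') (by omega), mul_zero]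
      · rw [if_neg h1, zero_mul]

theorem one_struct {χ θ : Fin 2 → MvPolynomial (Fin 2) K} (hχ : PolAut χ θ)
    (f : MvPolynomial (Fin 2) K) (m : ℕ) (h : WGe 1 1 m (aeval χ f)) :
    WGe 1 1 m (aeval (triI (coeff 0 (χ 0)) (Polynomial.C (coeff 0 (χ 1)))) f) := by
  set T : Fin 2 → MvPolynomial (Fin 2) K :=
    triI (coeff 0 (χ 0)) (Polynomial.C (coeff 0 (χ 1))) with hT
  have hTc : ∀ i, constantCoeff (T i) = constantCoeff (χ i) := by
    intro i
    fin_cases i
    · simp [hT, triI, constantCoeff_eq]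
    · simp [hT, triI, constantCoeff_eq, algebraMap_eq]
  have hP0 : ∀ j, coeff 0 (aeval T (θ j)) = 0 := by
    intro j
    rw [← constantCoeff_eq, map_aeval, funext hTc, ← map_aeval, hχ.1 j]
    exact constantCoeff_X _ j
  have hP : ∀ j, WGe 1 1 1 (aeval T (θ j)) := by
    intro j e he
    rcases Nat.eq_zero_or_pos (wt 1 1 e) with h0 | h0
    · exfalso
      apply he
      have he0 : e = 0 := by
        ext i
        simp only [wt, one_mul] at h0
        fin_cases i
        · simp; omega
        · simp; omega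
      rw [he0, hP0]
    · exact h0
  have hpow : ∀ j n, WGe 1 1 n ((aeval T (θ j)) ^ n) := by
    intro j n
    induction n with
    | zero => exact fun e _ => Nat.zero_le _
    | succ n ih =>
      rw [pow_succ]
      exact wge_mul ih (hP j)
  have hf : f = aeval θ (aeval χ f) := (hχ.right f).symm
  rw [hf, aeval_aeval_pol, aeval_def, eval₂_eq']
  intro e he
  rw [coeff_sum] at he
  obtain ⟨d, hd, hne⟩ := Finset.exists_ne_zero_of_sum_ne_zero he
  rw [mem_support_iff] at hd
  have hmd := h d hd
  rw [algebraMap_eq, coeff_C_mul, Fin.prod_univ_two] at hne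
  have h2 := wge_mul (hpow 0 (d 0)) (hpow 1 (d 1)) e (right_ne_zero_of_mul hne)
  have h3 : wt 1 1 d = d 0 + d 1 := by simp [wt]
  omega

private lemma UOne_coeff {a b D : ℕ} {f : MvPolynomial (Fin 2) K} (h : WLe a b D f)
    {e : Fin 2 →₀ ℕ} (he : D < wt a b e) : coeff e f = 0 := by
  by_contra h1
  have := h e h1
  omega

private lemma UOne_add {a b D : ℕ} {f g : MvPolynomial (Fin 2) K} (hf : WLe a b D f)
    (hg : WLe a b D g) : WLe a b D (f + g) := by
  intro e he
  by_contra h1
  apply he
  rw [coeff_add, UOne_coeff hf (by omega), UOne_coeff hg (by omega), add_zero]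

private lemma UOne_sum {a b D : ℕ} {ι : Type*} {s : Finset ι} {f : ι → MvPolynomial (Fin 2) K}
    (hf : ∀ i ∈ s, WLe a b D (f i)) : WLe a b D (∑ i ∈ s, f i) := by
  intro e he
  by_contra h1
  apply he
  rw [coeff_sum]
  exact Finset.sum_eq_zero fun i hi => UOne_coeff (hf i hi) (by omega)

private lemma UOne_smul {a b D : ℕ} {f : MvPolynomial (Fin 2) K} (c : K) (hf : WLe a b D f) :
    WLe a b D (c • f) := by
  intro e he
  apply hf e
  intro h1
  apply he
  rw [coeff_smul, h1, smul_zero]

private lemma UOne_C (a b : ℕ) (c : K) : WLe a b 0 (C c : MvPolynomial (Fin 2) K) := by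
  classical
  intro e he
  rw [coeff_C] at he
  split_ifs at he with h1
  · subst h1
    simp [wt]
  · exact absurd rfl he

private lemma UOne_X0 (a b : ℕ) : WLe a b a (X 0 : MvPolynomial (Fin 2) K) := by
  classical
  intro e he
  rw [coeff_X] at he
  split_ifs at he with h1
  · subst h1
    simp [wt]
  · exact absurd rfl he

private lemma UOne_X1 (a b : ℕ) : WLe a b b (X 1 : MvPolynomial (Fin 2) K) := by
  classical
  intro e he
  rw [coeff_X] at he
  split_ifs at he with h1
  · subst h1
    simp [wt]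
  · exact absurd rfl he

private lemma UOne_pow {a b D : ℕ} {f : MvPolynomial (Fin 2) K} (hf : WLe a b D f) (n : ℕ) :
    WLe a b (D * n) (f ^ n) := by
  induction n with
  | zero =>
    rw [pow_zero, mul_zero]
    exact UOne_C a b 1
  | succ n ih =>
    rw [pow_succ, mul_add, mul_one]
    exact (wle_mul ih hf).1

private lemma UOne_top {a b D D' : ℕ} {f : MvPolynomial (Fin 2) K} (hf : WLe a b D' f)
    (h : D' < D) : wtop a b D f = 0 := by
  ext e
  rw [coeff_wtop, coeff_zero]
  split_ifs with h1
  · exact UOne_coeff hf (by omega)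
  · rfl

/-- the same part of weight `D` -/
private def UOneQ (a b D : ℕ) (f g : MvPolynomial (Fin 2) K) : Prop :=
  WLe a b D f ∧ WLe a b D g ∧ wtop a b D g = wtop a b D f

private lemma UOneQ.refl {a b D : ℕ} {f : MvPolynomial (Fin 2) K} (hf : WLe a b D f) :
    UOneQ a b D f f := ⟨hf, hf, rfl⟩

private lemma UOneQ.mul {a b D D' : ℕ} {f g f' g' : MvPolynomial (Fin 2) K}
    (h : UOneQ a b D f g) (h' : UOneQ a b D' f' g') : UOneQ a b (D + D') (f * f') (g * g') :=
  ⟨(wle_mul h.1 h'.1).1, (wle_mul h.2.1 h'.2.1).1, by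
    rw [(wle_mul h.1 h'.1).2, (wle_mul h.2.1 h'.2.1).2, h.2.2, h'.2.2]⟩

private lemma UOneQ.pow {a b D : ℕ} {f g : MvPolynomial (Fin 2) K}
    (h : UOneQ a b D f g) (n : ℕ) : UOneQ a b (D * n) (f ^ n) (g ^ n) := by
  induction n with
  | zero =>
    rw [pow_zero, pow_zero, mul_zero]
    exact UOneQ.refl (UOne_C a b 1)
  | succ n ih =>
    rw [pow_succ, pow_succ, mul_add, mul_one]
    exact ih.mul h

private lemma UOneQ.add_low {a b D D' : ℕ} {f g : MvPolynomial (Fin 2) K}
    (hf : WLe a b D f) (hg : WLe a b D' g) (h : D' < D) : UOneQ a b D f (f + g) := by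
  refine ⟨hf, UOne_add hf (hg.mono h.le), ?_⟩
  have h1 : wtop a b D (f + g) = wtop a b D f + wtop a b D g := map_add _ _ _
  rw [h1, UOne_top hg h, add_zero]

private lemma UOneQ.mono {a b D D' : ℕ} {f g : MvPolynomial (Fin 2) K}
    (h : UOneQ a b D' f g) (hD : D' ≤ D) : UOneQ a b D f g := by
  rcases hD.lt_or_eq with h1 | rfl
  · exact ⟨h.1.mono hD, h.2.1.mono hD, by rw [UOne_top h.1 h1, UOne_top h.2.1 h1]⟩
  · exact h

theorem tri_le {a b : ℕ} (ha : 0 < a) (z : K) (p : Polynomial K) (hp : a * p.natDegree < b)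
    {f : MvPolynomial (Fin 2) K} {D : ℕ} (hf : WLe a b D f) :
    WLe a b D (aeval (triI z p) f) ∧ wtop a b D (aeval (triI z p) f) = wtop a b D f := by
  have h0 : UOneQ a b a (X 0 : MvPolynomial (Fin 2) K) (triI z p 0) :=
    UOneQ.add_low (UOne_X0 a b) (UOne_C a b z) ha
  have h1 : UOneQ a b b (X 1 : MvPolynomial (Fin 2) K) (triI z p 1) := by
    refine UOneQ.add_low (D' := a * p.natDegree) (UOne_X1 a b) ?_ hp
    rw [Polynomial.aeval_eq_sum_range]
    refine UOne_sum fun i hi => UOne_smul _ ?_
    have hi' : i ≤ p.natDegree := by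
      have := Finset.mem_range.1 hi
      omega
    exact (UOne_pow h0.2.1 i).mono (Nat.mul_le_mul_left a hi')
  have hmon : ∀ (e : Fin 2 →₀ ℕ) (c : K), UOneQ a b (wt a b e) (monomial e c)
      (aeval (triI z p) (monomial e c)) := by
    intro e c
    have e1 : (monomial e c : MvPolynomial (Fin 2) K) = C c * (X 0 ^ e 0 * X 1 ^ e 1) := by
      rw [monomial_eq, Finsupp.prod_fintype _ _ (fun i => pow_zero _), Fin.prod_univ_two]
    have e2 : aeval (triI z p) (monomial e c) =
        C c * (triI z p 0 ^ e 0 * triI z p 1 ^ e 1) := by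
      rw [e1, map_mul, map_mul, map_pow, map_pow, aeval_X, aeval_X, aeval_C]
      rfl
    rw [e2, e1]
    have h2 := (UOneQ.refl (UOne_C a b c)).mul ((h0.pow (e 0)).mul (h1.pow (e 1)))
    rw [zero_add] at h2
    exact h2
  have hsum : UOneQ a b D f (aeval (triI z p) f) := by
    have e3 : aeval (triI z p) f =
        ∑ e ∈ f.support, aeval (triI z p) (monomial e (coeff e f)) := by
      conv_lhs => rw [f.as_sum]
      rw [map_sum]
    have h3 : ∀ e ∈ f.support, UOneQ a b D (monomial e (coeff e f))
        (aeval (triI z p) (monomial e (coeff e f))) := fun e he =>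
      (hmon e _).mono (hf e (mem_support_iff.1 he))
    refine ⟨hf, ?_, ?_⟩
    · rw [e3]
      exact UOne_sum fun e he => (h3 e he).2.1
    · rw [e3]
      conv_rhs => rw [f.as_sum]
      have h4 : ∀ g : (Fin 2 →₀ ℕ) → MvPolynomial (Fin 2) K,
          wtop a b D (∑ e ∈ f.support, g e) = ∑ e ∈ f.support, wtop a b D (g e) :=
        fun g => map_sum _ _ _
      rw [h4, h4]
      exact Finset.sum_congr rfl fun e he => (h3 e he).2.2
  exact ⟨hsum.2.1, hsum.2.2⟩

end

end M3
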