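import Pool.Agent.M3.UVal
import Pool.Agent.M3.UCnt
import Pool.Agent.M3.UEq
import Pool.Agent.M3.UOne

/-!
PROJECT M3, block U: the block over a field.
-/

open MvPolynomial

namespace M3

universe u

section
variable {K : Type u} [Field K] {r : ℕ} {J : Type} [Fintype J] {a b : ℕ} {mu : Fin r → ℝ}
  {grp : J → Fin r} {d : Fin r → ℕ} {F : J → MvPolynomial (Fin 2) K}

/-- the final comparison of top parts -/
theorem fin_top (hS : Stt a b mu grp d F) {G : J → MvPolynomial (Fin 2) K}
    (hG : ∀ h, WLe a b (d (grp h)) (G h) ∧ wtop a b (d (grp h)) (G h) = F h)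
    (z : K) {p : Polynomial K} (hp : a * p.natDegree < b) {d' : Fin r → ℕ}
    (hsum' : ∑ j, mu j * d' j = a + b)
    (hd' : ∀ h, WGe a b (d' (grp h)) (aeval (triI z p) (G h))) (h : J) :
    G h = aeval (tri z p) (F h) := by
  have hT : ∀ h, WLe a b (d (grp h)) (aeval (triI z p) (G h)) ∧
      wtop a b (d (grp h)) (aeval (triI z p) (G h)) = F h := by
    intro h
    obtain ⟨h1, h2⟩ := tri_le hS.ha z p hp (hG h).1
    exact ⟨h1, h2.trans (hG h).2⟩
  have hle : ∀ j, d' j ≤ d j := by
    intro j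
    obtain ⟨h, hj, hF⟩ := hS.ne j
    obtain ⟨e, he⟩ := MvPolynomial.ne_zero_iff.1 hF
    rw [← (hT h).2, coeff_wtop] at he
    have hw : wt a b e = d (grp h) := by
      by_contra hne
      rw [if_neg hne] at he
      exact he rfl
    rw [if_pos hw] at he
    have h1 := hd' h e he
    rw [hw, hj] at h1
    exact h1
  have heq : ∀ j, d' j = d j := by
    have h1 : ∑ j, mu j * ((d j : ℝ) - d' j) = 0 := by
      simp only [mul_sub, Finset.sum_sub_distrib, hS.sum, hsum', sub_self]
    have h2 := (Finset.sum_eq_zero_iff_of_nonneg (fun j _ => mul_nonneg (hS.hmu j).le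
      (sub_nonneg.2 (Nat.cast_le.2 (hle j))))).1 h1
    intro j
    have h3 := h2 j (Finset.mem_univ j)
    rcases mul_eq_zero.1 h3 with h4 | h4
    · exact absurd h4 (hS.hmu j).ne'
    · have : (d' j : ℝ) = d j := by linarith
      exact_mod_cast this
  have h1 : aeval (triI z p) (G h) = F h := by
    rw [← (hT h).2]
    ext e
    rw [coeff_wtop]
    split_ifs with hw
    · rfl
    · by_contra hne
      have h2 := (hT h).1 e hne
      have h3 := hd' h e hne
      rw [heq] at h3
      exact hw (le_antisymm h2 h3)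
  rw [← h1]
  exact ((polAut_tri z p).left (G h)).symm

theorem core_U [CharZero K] (hS : Stt a b mu grp d F) {G : J → MvPolynomial (Fin 2) K}
    (hG : ∀ h, WLe a b (d (grp h)) (G h) ∧ wtop a b (d (grp h)) (G h) = F h)
    {χ θ : Fin 2 → MvPolynomial (Fin 2) K} (hχ : PolAut χ θ) {a' b' : ℕ} (ha' : 0 < a')
    (hab' : a' ≤ b') (hcop' : Nat.Coprime a' b') {d' : Fin r → ℕ}
    (hsum' : ∑ j, mu j * d' j = a' + b')
    (hd' : ∀ h, WGe a' b' (d' (grp h)) (aeval χ (G h))) :
    b * a' ≤ b' * a ∧ (b * a' = b' * a → ∃ p : Polynomial K, a * p.natDegree < b ∧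
      p.eval (coeff 0 (χ 0)) = coeff 0 (χ 1) ∧ ∀ h, G h = aeval (tri (coeff 0 (χ 0)) p) (F h)) := by
  have hb : 0 < b := hS.ha.trans_le hS.hab
  have hb' : 0 < b' := ha'.trans_le hab'
  rcases hS.st with h1 | hst
  · have ha1 : a = 1 := by have := hS.hab; have := hS.ha; omega
    subst h1; subst ha1
    refine ⟨by omega, fun he => ?_⟩
    have hae : a' = b' := by omega
    subst hae
    have ha1' : a' = 1 := by simpa using hcop'
    subst ha1'
    refine ⟨Polynomial.C (coeff 0 (χ 1)), by simp, by simp, ?_⟩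
    exact fin_top hS hG _ (by simp) hsum' fun h => one_struct hχ _ _ (hd' h)
  · obtain ⟨g, hg, hval⟩ := val_le hS hst hG hχ hsum' hd'
    have hcnt := count_le hS.ha hb ha' hb' hval
    obtain ⟨h2, h3⟩ := ball_arith hS.ha hS.hab hS.cop ha' hab' hcop' hg hcnt
    refine ⟨h2, fun he => ?_⟩
    obtain ⟨e1, e2, e3⟩ := h3 he
    subst e1; subst e2; subst e3
    rcases hS.hab.eq_or_lt with hab | hab
    · -- `a = b = 1`
      have ha1 : a' = 1 := by
        have := hS.cop
        rw [← hab] at this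
        simpa using this
      subst hab
      subst ha1
      refine ⟨Polynomial.C (coeff 0 (χ 1)), by simp, by simp, ?_⟩
      exact fin_top hS hG _ (by simp) hsum' fun h => one_struct hχ _ _ (hd' h)
    · obtain ⟨p, hp, hz, hpf⟩ := eq_struct hS.ha hab hS.cop hχ (by simpa using hval)
      refine ⟨p, hp, hz, ?_⟩
      exact fin_top hS hG _ hp hsum' fun h => hpf _ _ (hd' h)

end

end M3
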