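import Pool.Agent.M3.CodB

/-!
PIECE M3-A06: splitting the codimension of an arc into the part of the first `N` coefficients and the rest.

PROOF. Let `K₁ := k(P_j,n : n < N)` (an intermediate field of `L/k`), `t₀ :=` the maximal cardinality of an
algebraically independent (over `k`) subfamily of these `2 N` coefficients, `t := 2 N - t₀`.  Then
`CodLe k P N t`.  `Cod k P C` at level `N` gives `t ≤ C`.  For a level `m`: `Cod k P C` at level `N + m` gives
an independent subfamily `T` with `2 (N + m) ≤ T.card + C`.  The transcendence degree of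
`k(P_j,n : n < N + m)` over `k` is at least `T.card` and it is the sum of `t₀` and the transcendence degree over
`K₁` (`Algebra.trdeg_add_eq` or similar; or directly: choose a maximal subfamily of the coefficients `n ≥ N`
which is algebraically independent over `K₁`; together with the `t₀` ones it is a transcendence basis).  So there is a
subfamily of the coefficients `N ≤ n < N + m`, independent over `K₁`, of cardinality
`≥ T.card - t₀ ≥ 2 N + 2 m - C - t₀ = 2 m - (C - t)`.
-/

open MvPolynomial

namespace M3

universe u

private theorem CodS_max {F : Type*} {L : Type*} [Field F] [Field L] [Algebra F L] {ι : Type*}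
    [Finite ι] (x : ι → L) :
    ∃ T : Finset ι, AlgebraicIndependent F (fun t : T => x t) ∧
      ∀ s, IsAlgebraic (IntermediateField.adjoin F (x '' (T : Set ι))) (x s) := by
  classical
  cases nonempty_fintype ι
  obtain ⟨T, hT, hmax⟩ := Finset.exists_max_image
    (Finset.univ.filter fun T : Finset ι => AlgebraicIndependent F (fun t : T => x t))
    Finset.card ⟨∅, by
      rw [Finset.mem_filter]
      exact ⟨Finset.mem_univ _, algebraicIndependent_empty_type⟩⟩
  rw [Finset.mem_filter] at hT
  refine ⟨T, hT.2, fun s => ?_⟩
  by_cases hs : s ∈ T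
  · exact isAlgebraic_algebraMap
      (⟨x s, IntermediateField.subset_adjoin _ _ ⟨s, hs, rfl⟩⟩ :
        IntermediateField.adjoin F (x '' (T : Set ι)))
  · by_contra hc
    have h1 : Transcendental (Algebra.adjoin F (x '' (T : Set ι))) (x s) := by
      intro h2
      exact hc (IsAlgebraic.tower_top_of_subalgebra_le
        (IntermediateField.algebra_adjoin_le_adjoin F (x '' (T : Set ι))) h2)
    have h2 : AlgebraicIndepOn F x (insert s (T : Set ι)) :=
      AlgebraicIndepOn.insert hT.2 h1
    rw [← Finset.coe_insert] at h2
    have h3 := hmax (insert s T) (by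
      rw [Finset.mem_filter]
      exact ⟨Finset.mem_univ _, h2⟩)
    rw [Finset.card_insert_of_notMem hs] at h3
    omega

private theorem CodS_trans {k L : Type*} [Field k] [Field L] [Algebra k L]
    (M : IntermediateField k L) (S Y : Set L)
    (hS : ∀ a ∈ S, IsAlgebraic M a) (hY : ∀ a ∈ Y, a ∈ M) {y : L}
    (hy : IsAlgebraic (IntermediateField.adjoin (IntermediateField.adjoin k S) Y) y) :
    IsAlgebraic M y := by
  set Ac : IntermediateField M L := algebraicClosure M L with hAc
  set A' : IntermediateField k L := Ac.restrictScalars k with hA'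
  have h1 : IntermediateField.adjoin k S ≤ A' := by
    rw [IntermediateField.adjoin_le_iff]
    intro a ha
    exact mem_algebraicClosure_iff.2 (hS a ha)
  have h2 : IntermediateField.adjoin (IntermediateField.adjoin k S) Y ≤
      IntermediateField.extendScalars h1 := by
    rw [IntermediateField.adjoin_le_iff]
    intro a ha
    exact mem_algebraicClosure_iff.2 (isAlgebraic_algebraMap (⟨a, hY a ha⟩ : M))
  have h3 : IsAlgebraic (IntermediateField.extendScalars h1) y :=
    IsAlgebraic.tower_top_of_subalgebra_le
      (A := (IntermediateField.adjoin (IntermediateField.adjoin k S) Y).toSubalgebra)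
      (B := (IntermediateField.extendScalars h1).toSubalgebra) h2 hy
  have h4 : IsAlgebraic Ac y := h3
  exact h4.restrictScalars M

theorem cod_split {k : Type u} [Field k] {L : Type u} [Field L] [Algebra k L]
    {P : Fin 2 → PowerSeries L} {C : ℕ} (N : ℕ) (hP : Cod k P C) :
    ∃ t ≤ C, t ≤ 2 * N ∧ CodLe k P N t ∧
      Cod (IntermediateField.adjoin k
        {x : L | ∃ j n, n < N ∧ x = PowerSeries.coeff n (P j)}) (shiftP N P) (C - t) := by
  classical
  obtain ⟨T₀, hT₀, hA₀⟩ := CodS_max (F := k)
    (fun s : Fin 2 × Fin N => PowerSeries.coeff s.2.val (P s.1))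
  have hc0 : T₀.card ≤ 2 * N := by
    have := Finset.card_le_univ T₀
    simpa using this
  set S : Set L := {x : L | ∃ j n, n < N ∧ x = PowerSeries.coeff n (P j)} with hSdef
  -- the bound at a level
  have key : ∀ m : ℕ, ∀ T₁ : Finset (Fin 2 × Fin m),
      (∀ s : Fin 2 × Fin m, IsAlgebraic (IntermediateField.adjoin (IntermediateField.adjoin k S)
        ((fun s : Fin 2 × Fin m => PowerSeries.coeff s.2.val (shiftP N P s.1)) ''
          (T₁ : Set (Fin 2 × Fin m)))) (PowerSeries.coeff s.2.val (shiftP N P s.1))) →
      2 * (N + m) ≤ T₀.card + T₁.card + C := by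
    intro m T₁ hT₁
    obtain ⟨T, hT, hTi⟩ := hP (N + m)
    let z : T₀ ⊕ T₁ → L := Sum.elim
      (fun t => PowerSeries.coeff t.1.2.val (P t.1.1))
      (fun t => PowerSeries.coeff t.1.2.val (shiftP N P t.1.1))
    have hlow : ∀ j (n : ℕ), n < N →
        IsAlgebraic (IntermediateField.adjoin k (Set.range z)) (PowerSeries.coeff n (P j)) := by
      intro j n hn
      refine IsAlgebraic.tower_top_of_subalgebra_le
        (A := (IntermediateField.adjoin k ((fun s : Fin 2 × Fin N =>
          PowerSeries.coeff s.2.val (P s.1)) '' (T₀ : Set (Fin 2 × Fin N)))).toSubalgebra)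
        (B := (IntermediateField.adjoin k (Set.range z)).toSubalgebra) ?_ (hA₀ (j, ⟨n, hn⟩))
      have : IntermediateField.adjoin k ((fun s : Fin 2 × Fin N =>
          PowerSeries.coeff s.2.val (P s.1)) '' (T₀ : Set (Fin 2 × Fin N))) ≤
          IntermediateField.adjoin k (Set.range z) := by
        refine IntermediateField.adjoin.mono k _ _ ?_
        rintro _ ⟨s, hs, rfl⟩
        exact ⟨Sum.inl ⟨s, hs⟩, rfl⟩
      exact this
    obtain ⟨T', hT', -⟩ := alg_exchange (k := k) z
      (fun s : Fin 2 × Fin (N + m) => PowerSeries.coeff s.2.val (P s.1)) (by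
      rintro ⟨j, n, hn⟩
      show IsAlgebraic (IntermediateField.adjoin k (Set.range z)) (PowerSeries.coeff n (P j))
      rcases Nat.lt_or_ge n N with h | h
      · exact hlow j n h
      · have h1 := hT₁ (j, ⟨n - N, by omega⟩)
        have h2 : PowerSeries.coeff (n - N) (shiftP N P j) = PowerSeries.coeff n (P j) := by
          unfold shiftP
          rw [PowerSeries.coeff_mk, Nat.sub_add_cancel h]
        have h3 := CodS_trans (IntermediateField.adjoin k (Set.range z)) S _ (by
          rintro a ⟨j', n', hn', rfl⟩
          exact hlow j' n' hn') (by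
          rintro _ ⟨s, hs, rfl⟩
          exact IntermediateField.subset_adjoin _ _ ⟨Sum.inr ⟨s, hs⟩, rfl⟩) h1
        have h4 : IsAlgebraic (IntermediateField.adjoin k (Set.range z))
          (PowerSeries.coeff (n - N) (shiftP N P j)) := h3
        rwa [h2] at h4) T hTi
    have h5 : T'.card ≤ T₀.card + T₁.card := by
      have := Finset.card_le_univ T'
      simpa using this
    omega
  have hC : 2 * N ≤ T₀.card + C := by
    have := key 0 ∅ (fun s => Fin.elim0 s.2)
    simpa using this
  refine ⟨2 * N - T₀.card, by omega, by omega, ⟨T₀, by omega, hT₀⟩, fun m => ?_⟩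
  obtain ⟨T₁, hT₁, hA₁⟩ := CodS_max (F := IntermediateField.adjoin k S)
    (fun s : Fin 2 × Fin m => PowerSeries.coeff s.2.val (shiftP N P s.1))
  refine ⟨T₁, ?_, hT₁⟩
  have := key m T₁ hA₁
  omega

end M3
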