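import Pool.Agent.M3.LimCh
import Pool.Agent.M3.Pia
import Pool.Agent.M3.CodS

/-!
PIECE M3-B01: domination if the residues in a ball are powers of one linear function.

PROOF. Let `S i := shiftP N (P i)`.  `P i j = trunc + X^N * S i j`, i.e. `P i = ev (S i) (cen N (P i))`; so
`ev (P i) (c i h) = ev (S i) (ev (cen N (P i)) (c i h))` (`ev_ev_ext`).
(1) For all `m`, the polynomials `coeff m (ev (cen N (P i)) (c i h))` (over `Om k`) have bounded degree for almost all
`i` and their coefficientwise limit is `coeff m (ev (cen N Q) (f h))` (they are finite sums of products of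
coefficients of `P i`, `c i h`; `gm_sum`, `gm_mul`).  So for almost all `i` (finitely many `h`, `j`):
`X^(e (grp h))` divides `ev (cen N (P i)) (c i h)` (`poly_eventually_zero`), and for the `h_j` of `hres` (choose them)
`coeff (e j) (ev (cen N (P i)) (c i h_j)) = C (g_i j) * (C p_i * X 0 + C q_i * X 1 + C s_i)^(B j)`, where `g_i j`, `p_i`,
`q_i`, `s_i` are representatives of `g j`, `p`, `q`, `s`, `g_i j ≠ 0`, `¬ (p_i = 0 ∧ q_i = 0)` for almost all `i`.
Fix such an `i` with also `Cod k (P i) (C i)`, `OrdGe`.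
(2) `cod_split N`: `t ≤ C i`, `CodLe k (P i) N t`, `Cod K₁ (S i) (C i - t)`, `K₁` the field generated by the first `N`
coefficients.  The functions `ev (cen N (P i)) (c i h_j)` have coefficients in `K₁`: there is
`f'_j : AA K₁` with `ev (cen N (P i)) (c i h_j) = X^(e j) * (image of f'_j)` (lift `cen N (P i)` to `AA K₁`).
The residue `coeff 0 f'_j ∈ K₁[X 0, X 1]` is over `Om k` equal to `g_i (p_i X 0 + q_i X 1 + s_i)^(B j)`.  Say `p_i ≠ 0`.
If `B j ≥ 1` for some `j`: the coefficients of `X 0^(B j)`, `X 0^(B j - 1) X 1`, `X 0^(B j - 1)` are `g p^B`,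
`g B p^(B-1) q`, `g B p^(B-1) s`, so `q / p`, `s / p ∈ K₁` (characteristic zero), and for all `j`
`coeff 0 f'_j = C g'_j (X 0 + C q' * X 1 + C s')^(B j)` with `g'_j`, `q'`, `s' ∈ K₁`, `g'_j ≠ 0`.  If all `B j = 0` take `q' = s' = 0`.
(The case `q_i ≠ 0` is symmetric.)
(3) `n' j := n i j - e j`: `X^(n' j) ∣ ev (S i) f'_j`.  `pia_lin` over `K₁`: `∑ lam j n' j ≤ C i - t`.  So
`C i - ∑ lam j n i j ≥ t - ∑ lam j e j`.
(4) `exists_gen` with `CodLe k (P i) N t`: an arc `R` over `L' ⊇ Om k` with the first `N` coefficients of `P i` and `Cod k R t`.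
`R = ev (shiftP N R) (cen N (P i))` (over `L'`), so `X^(e (grp h)) ∣ ev R (c i h)` (`ev_dvd`).  So `R`, `C' := t ≤ 2 N`,
`n' := e` satisfy the conditions of `dom_of_arc` with `ℓ := 2 N + ∑ j, e j`.
-/

open MvPolynomial

namespace M3

universe u

/-- change of coefficients -/
private noncomputable def linUp {K L : Type u} [CommRing K] [CommRing L] (φ : K →+* L)
    (f : AA K) : AA L := PowerSeries.map (MvPolynomial.map φ) f

private theorem lin_coeff_up {K L : Type u} [CommRing K] [CommRing L] (φ : K →+* L)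
    (f : AA K) (m : ℕ) : PowerSeries.coeff m (linUp φ f) =
      MvPolynomial.map φ (PowerSeries.coeff m f) := by
  rw [linUp, PowerSeries.coeff_map]

private theorem lin_ev_up {K L : Type u} {R : Type*} [CommRing K] [CommRing L] [CommRing R]
    [Algebra K L] [Algebra L R] [Algebra K R] [IsScalarTower K L R]
    (P : Fin 2 → PowerSeries R) (f : AA K) :
    ev P (linUp (algebraMap K L) f) = ev P f := by
  ext n
  rw [coeff_ev, coeff_ev]
  refine Finset.sum_congr rfl fun x _ => ?_
  rw [lin_coeff_up, aeval_map_algebraMap]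

private theorem lin_up_lim {k : Type u} [Field k] {c : ℕ → AA k} {f : AA (Gm k)}
    (h : IsLim c f) : IsLim (k := Om k) (fun i => linUp (algebraMap k (Om k)) (c i))
      (linUp (algebraMap (Gm k) (Gm (Om k))) f) := by
  intro m
  obtain ⟨⟨D, hD⟩, h2⟩ := h m
  refine ⟨⟨D, hD.mono fun i hi => ?_⟩, fun e => ?_⟩
  · simp only [lin_coeff_up]
    exact (Finset.sup_mono (support_map_subset _ _)).trans hi
  · simp only [lin_coeff_up, coeff_map]
    rw [h2 e, algebraMap_gm]

private theorem lin_cen_lim {k : Type u} [Field k] {P : ℕ → Fin 2 → PowerSeries (Om k)}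
    {Q : Fin 2 → PowerSeries (Gm (Om k))} (hP : IsLimP P Q) (N : ℕ) (j : Fin 2) :
    IsLim (k := Om k) (fun i => cen N (P i) j) (cen N Q j) := by
  refine IsLim.add (IsLim.cA ?_) (IsLim.mul (IsLim.X_pow N) (IsLim.xA j))
  intro m
  rw [Polynomial.coeff_coe, PowerSeries.coeff_trunc]
  by_cases hm : m < N
  · rw [if_pos hm, hP j m]
    refine congrArg gm (funext fun i => ?_)
    rw [Polynomial.coeff_coe, PowerSeries.coeff_trunc, if_pos hm]
  · rw [if_neg hm, ← gm_zero]
    refine congrArg gm (funext fun i => ?_)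
    rw [Polynomial.coeff_coe, PowerSeries.coeff_trunc, if_neg hm]

private theorem lin_lim {k : Type u} [Field k] {c : ℕ → AA k} {f : AA (Gm k)}
    (h : IsLim c f) {P : ℕ → Fin 2 → PowerSeries (Om k)}
    {Q : Fin 2 → PowerSeries (Gm (Om k))} (hP : IsLimP P Q) (N : ℕ) :
    IsLim (k := Om k) (fun i => ev (cen N (P i)) (c i)) (ev (cen N Q) f) := by
  have h1 := IsLim.ev (fun j => lin_cen_lim hP N j) (lin_up_lim h)
  rw [lin_ev_up] at h1
  simp only [lin_ev_up] at h1
  exact h1

/-- two sequences with the same limit of two coefficients -/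
private theorem lin_coeff_eq {k : Type u} [Field k] {a b : ℕ → AA k} {f f' : AA (Gm k)}
    (ha : IsLim a f) (hb : IsLim b f') {m m' : ℕ}
    (h : PowerSeries.coeff m f = PowerSeries.coeff m' f') :
    ∀ᶠ i in Uf, PowerSeries.coeff m (a i) = PowerSeries.coeff m' (b i) := by
  obtain ⟨⟨D, hD⟩, h1⟩ := ha m
  obtain ⟨⟨D', hD'⟩, h2⟩ := hb m'
  have h3 := poly_eventually_zero (k := k) (σ := Fin 2)
    (Fi := fun i => PowerSeries.coeff m (a i) - PowerSeries.coeff m' (b i)) (D := max D D')
    (by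
      filter_upwards [hD, hD'] with i hi hi'
      exact (totalDegree_sub _ _).trans (max_le_max hi hi'))
    (by
      intro e
      simp only [coeff_sub]
      rw [gm_sub, ← h1 e, ← h2 e, h, sub_self])
  exact h3.mono fun i hi => sub_eq_zero.1 hi

private theorem lin_pow_lim {k : Type u} [Field k] {a : ℕ → AA k} {f : AA (Gm k)}
    (ha : IsLim a f) (n : ℕ) : IsLim (fun i => a i ^ n) (f ^ n) := by
  induction n with
  | zero => simpa using IsLim.X_pow (k := k) 0
  | succ n ih =>
    simp only [pow_succ]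
    exact ih.mul ha

private theorem lin_C_lim {k : Type u} [Field k] (x : ℕ → k) :
    IsLim (fun i => cA (PowerSeries.C (x i))) (cA (PowerSeries.C (gm x))) := by
  refine IsLim.cA fun m => ?_
  rw [PowerSeries.coeff_C]
  split_ifs with h
  · refine congrArg gm (funext fun i => ?_)
    rw [PowerSeries.coeff_C, if_pos h]
  · rw [← gm_zero]
    refine congrArg gm (funext fun i => ?_)
    rw [PowerSeries.coeff_C, if_neg h]

private theorem lin_coeff0 {k : Type u} [Field k] (g p q s : k) (B : ℕ) :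
    PowerSeries.coeff 0 (cA (PowerSeries.C g) * (cA (PowerSeries.C p) * xA 0 +
      cA (PowerSeries.C q) * xA 1 + cA (PowerSeries.C s)) ^ B : AA k) =
      MvPolynomial.C g * (MvPolynomial.C p * X 0 + MvPolynomial.C q * X 1 +
        MvPolynomial.C s) ^ B := by
  rw [PowerSeries.coeff_zero_eq_constantCoeff_apply]
  simp [cA, xA]

/-- the residues converge -/
private theorem lin_res {k : Type u} [Field k] {a : ℕ → AA k} {f : AA (Gm k)}
    (ha : IsLim a f) (g p q s : ℕ → k) (B m : ℕ)
    (h : PowerSeries.coeff m f = MvPolynomial.C (gm g) * (MvPolynomial.C (gm p) * X 0 +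
      MvPolynomial.C (gm q) * X 1 + MvPolynomial.C (gm s)) ^ B) :
    ∀ᶠ i in Uf, PowerSeries.coeff m (a i) = MvPolynomial.C (g i) *
      (MvPolynomial.C (p i) * X 0 + MvPolynomial.C (q i) * X 1 + MvPolynomial.C (s i)) ^ B := by
  have hb : IsLim (fun i => cA (PowerSeries.C (g i)) * (cA (PowerSeries.C (p i)) * xA 0 +
      cA (PowerSeries.C (q i)) * xA 1 + cA (PowerSeries.C (s i))) ^ B)
      (cA (PowerSeries.C (gm g)) * (cA (PowerSeries.C (gm p)) * xA 0 +
      cA (PowerSeries.C (gm q)) * xA 1 + cA (PowerSeries.C (gm s))) ^ B) :=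
    (lin_C_lim g).mul (lin_pow_lim ((((lin_C_lim p).mul (IsLim.xA 0)).add
      ((lin_C_lim q).mul (IsLim.xA 1))).add (lin_C_lim s)) B)
  have h1 := lin_coeff_eq ha hb (m := m) (m' := 0) (by rw [h, lin_coeff0])
  filter_upwards [h1] with i hi
  rw [hi, lin_coeff0]

private theorem lin_rat1 {K L : Type u} [Field K] [Field L] [Algebra K L] [CharZero K]
    {G : Polynomial K} {a b : L} {B : ℕ} (ha : a ≠ 0) (hB : B ≠ 0)
    (h : G.map (algebraMap K L) = Polynomial.C a * (Polynomial.X + Polynomial.C b) ^ B) :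
    ∃ b', algebraMap K L b' = b := by
  have : CharZero L := charZero_of_injective_algebraMap (algebraMap K L).injective
  have h1 := congrArg (fun F => F.coeff B) h
  have h2 := congrArg (fun F => F.coeff (B - 1)) h
  simp only [Polynomial.coeff_map, Polynomial.coeff_C_mul, Polynomial.coeff_X_add_C_pow] at h1 h2
  have e1 : B - (B - 1) = 1 := by omega
  have e2 : B.choose (B - 1) = B := by
    obtain ⟨m, rfl⟩ := Nat.exists_eq_succ_of_ne_zero hB
    simp
  rw [Nat.sub_self, pow_zero, Nat.choose_self, Nat.cast_one, mul_one, mul_one] at h1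
  rw [e1, e2, pow_one] at h2
  refine ⟨G.coeff (B - 1) / (B * G.coeff B), ?_⟩
  rw [map_div₀, map_mul, map_natCast, h1, h2]
  have hB' : (B : L) ≠ 0 := Nat.cast_ne_zero.2 hB
  field_simp

/-- the restriction to a line -/
private noncomputable def linPh {K : Type u} [Field K] (c : K) :
    MvPolynomial (Fin 2) K →ₐ[K] Polynomial K := aeval ![Polynomial.X, Polynomial.C c]

private theorem lin_ph_map {K L : Type u} [Field K] [Field L] [Algebra K L] (c : K)
    (G : MvPolynomial (Fin 2) K) : (linPh c G).map (algebraMap K L) =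
      linPh (algebraMap K L c) (MvPolynomial.map (algebraMap K L) G) := by
  have h : ((Polynomial.mapRingHom (algebraMap K L)).comp (linPh c).toRingHom) =
      ((linPh (algebraMap K L c)).toRingHom).comp
        (MvPolynomial.map (algebraMap K L)) := by
    apply MvPolynomial.ringHom_ext
    · intro x
      simp [linPh]
    · intro i
      fin_cases i <;> simp [linPh]
  exact congrArg (fun F => F G) h

private theorem lin_ph_pow {L : Type u} [Field L] {g p q s : L} (hp : p ≠ 0) (B : ℕ) (c : L) :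
    linPh c (C g * (C p * X 0 + C q * X 1 + C s) ^ B) =
      Polynomial.C (g * p ^ B) * (Polynomial.X + Polynomial.C ((q * c + s) / p)) ^ B := by
  have h1 : linPh c (C p * X 0 + C q * X 1 + C s) =
      Polynomial.C p * (Polynomial.X + Polynomial.C ((q * c + s) / p)) := by
    rw [mul_add, ← Polynomial.C_mul, mul_div_cancel₀ _ hp]
    simp [linPh]
    ring
  rw [map_mul, map_pow, h1, mul_pow, Polynomial.C_mul, Polynomial.C_pow, ← mul_assoc]
  congr 2
  simp [linPh]

private theorem lin_rat2 {K L : Type u} [Field K] [Field L] [Algebra K L] [CharZero K] {r : ℕ}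
    {G : Fin r → MvPolynomial (Fin 2) K} {g : Fin r → L} (hg : ∀ j, g j ≠ 0) {B : Fin r → ℕ}
    {p q s : L} (hp : p ≠ 0) (h : ∀ j, MvPolynomial.map (algebraMap K L) (G j) =
      C (g j) * (C p * X 0 + C q * X 1 + C s) ^ B j) :
    ∃ (g' : Fin r → K) (q' s' : K), (∀ j, g' j ≠ 0) ∧
      ∀ j, G j = C (g' j) * (C 1 * X 0 + C q' * X 1 + C s') ^ B j := by
  have h1 : ∀ j (c : K), (linPh c (G j)).map (algebraMap K L) =
      Polynomial.C (g j * p ^ B j) *
        (Polynomial.X + Polynomial.C ((q * algebraMap K L c + s) / p)) ^ B j := by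
    intro j c
    rw [lin_ph_map, h j, lin_ph_pow hp]
  have h2 : ∃ q' s' : K, ∀ j, B j ≠ 0 → algebraMap K L q' = q / p ∧
      algebraMap K L s' = s / p := by
    by_cases hB : ∃ j, B j ≠ 0
    · obtain ⟨j, hj⟩ := hB
      have hgp : g j * p ^ B j ≠ 0 := mul_ne_zero (hg j) (pow_ne_zero _ hp)
      obtain ⟨s', hs'⟩ := lin_rat1 hgp hj (h1 j 0)
      obtain ⟨u', hu'⟩ := lin_rat1 hgp hj (h1 j 1)
      rw [map_zero, mul_zero, zero_add] at hs'
      rw [map_one, mul_one] at hu'
      refine ⟨u' - s', s', fun _ _ => ⟨?_, hs'⟩⟩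
      rw [map_sub, hu', hs']
      ring
    · push Not at hB
      exact ⟨0, 0, fun j hj => absurd (hB j) hj⟩
  obtain ⟨q', s', h3⟩ := h2
  have h4 : ∀ j, algebraMap K L ((linPh 0 (G j)).coeff (B j)) = g j * p ^ B j := by
    intro j
    have h5 := congrArg (fun F => F.coeff (B j)) (h1 j 0)
    simpa only [Polynomial.coeff_map, Polynomial.coeff_C_mul, Polynomial.coeff_X_add_C_pow,
      Nat.sub_self, pow_zero, Nat.choose_self, Nat.cast_one, mul_one] using h5
  refine ⟨fun j => (linPh 0 (G j)).coeff (B j), q', s', fun j h0 => ?_, fun j => ?_⟩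
  · have h5 := h4 j
    have h6 : (linPh 0 (G j)).coeff (B j) = 0 := h0
    rw [h6, map_zero] at h5
    exact mul_ne_zero (hg j) (pow_ne_zero _ hp) h5.symm
  · apply MvPolynomial.map_injective (algebraMap K L) (algebraMap K L).injective
    rw [h j]
    simp only [map_mul, map_pow, map_add, map_C, map_X, h4 j, map_one]
    by_cases hj : B j = 0
    · simp [hj]
    · obtain ⟨h5, h6⟩ := h3 j hj
      rw [h5, h6, mul_assoc, ← mul_pow]
      congr 2
      rw [mul_add, mul_add, ← mul_assoc, ← mul_assoc, ← C_mul, ← C_mul, mul_one,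
        mul_div_cancel₀ _ hp, mul_div_cancel₀ _ hp]

private theorem lin_rat3 {K L : Type u} [Field K] [Field L] [Algebra K L] [CharZero K] {r : ℕ}
    {G : Fin r → MvPolynomial (Fin 2) K} {g : Fin r → L} (hg : ∀ j, g j ≠ 0) {B : Fin r → ℕ}
    {p q s : L} (hpq : ¬ (p = 0 ∧ q = 0)) (h : ∀ j, MvPolynomial.map (algebraMap K L) (G j) =
      C (g j) * (C p * X 0 + C q * X 1 + C s) ^ B j) :
    ∃ (g' : Fin r → K) (p' q' s' : K), (∀ j, g' j ≠ 0) ∧ ¬ (p' = 0 ∧ q' = 0) ∧
      ∀ j, G j = C (g' j) * (C p' * X 0 + C q' * X 1 + C s') ^ B j := by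
  by_cases hp : p = 0
  · have hq : q ≠ 0 := fun hq => hpq ⟨hp, hq⟩
    obtain ⟨g', q', s', h1, h2⟩ := lin_rat2 (G := fun j => rename (Equiv.swap 0 1) (G j)) hg hq
      (q := p) (s := s) (B := B) (fun j => by
        rw [map_rename, h j]
        simp only [map_mul, map_pow, map_add, rename_C, rename_X, Equiv.swap_apply_left,
          Equiv.swap_apply_right]
        rw [add_comm (C p * X 1)])
    refine ⟨g', q', 1, s', h1, fun h3 => one_ne_zero h3.2, fun j => ?_⟩
    have h4 := congrArg (rename (Equiv.swap (0 : Fin 2) 1)) (h2 j)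
    rw [rename_rename] at h4
    have h5 : (Equiv.swap (0 : Fin 2) 1 : Fin 2 → Fin 2) ∘ Equiv.swap (0 : Fin 2) 1 = id := by
      funext i
      simp
    rw [h5, rename_id_apply] at h4
    rw [h4]
    simp only [map_mul, map_pow, map_add, rename_C, rename_X, Equiv.swap_apply_left,
      Equiv.swap_apply_right]
    rw [add_comm (C 1 * X 1)]
  · obtain ⟨g', q', s', h1, h2⟩ := lin_rat2 hg hp h
    exact ⟨g', 1, q', s', h1, fun h3 => one_ne_zero h3.1, h2⟩

private theorem lin_rec {K : Type u} {R : Type*} [CommRing K] [CommRing R] [Algebra K R]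
    (N : ℕ) {R' : PowerSeries R} {S : Fin 2 → PowerSeries R} {T : PowerSeries K} {j : Fin 2}
    (h1 : ∀ n < N, PowerSeries.coeff n R' = algebraMap K R (PowerSeries.coeff n T))
    (h2 : ∀ n, N ≤ n → PowerSeries.coeff n T = 0)
    (h3 : ∀ n, PowerSeries.coeff (n + N) R' = PowerSeries.coeff n (S j)) :
    ev S (cA T + PowerSeries.X ^ N * xA j : AA K) = R' := by
  rw [ev_add, ev_mul, ev_pow, ev_X, ev_cA, ev_xA]
  ext n
  rw [map_add, PowerSeries.coeff_map, PowerSeries.coeff_X_pow_mul']
  by_cases hn : n < N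
  · rw [if_neg (not_le.2 hn), add_zero, h1 n hn]
  · rw [if_pos (not_lt.1 hn), h2 n (not_lt.1 hn), map_zero, zero_add, ← h3,
      Nat.sub_add_cancel (not_lt.1 hn)]

/-- the truncated arc over a subfield -/
private noncomputable def linTr {k L : Type u} [Field k] [Field L] [Algebra k L] (N : ℕ)
    (P : Fin 2 → PowerSeries L) (K : IntermediateField k L)
    (hK : ∀ j n, n < N → PowerSeries.coeff n (P j) ∈ K) (j : Fin 2) : PowerSeries K :=
  PowerSeries.mk fun n => if h : n < N then ⟨PowerSeries.coeff n (P j), hK j n h⟩ else 0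

private noncomputable def linCe {k L : Type u} [Field k] [Field L] [Algebra k L] (N : ℕ)
    (P : Fin 2 → PowerSeries L) (K : IntermediateField k L)
    (hK : ∀ j n, n < N → PowerSeries.coeff n (P j) ∈ K) : Fin 2 → AA K :=
  fun j => cA (linTr N P K hK j) + PowerSeries.X ^ N * xA j

private theorem lin_tr_map {k L : Type u} [Field k] [Field L] [Algebra k L] (N : ℕ)
    (P : Fin 2 → PowerSeries L) (K : IntermediateField k L)
    (hK : ∀ j n, n < N → PowerSeries.coeff n (P j) ∈ K) (j : Fin 2) :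
    PowerSeries.map (algebraMap K L) (linTr N P K hK j) =
      ((PowerSeries.trunc N (P j) : Polynomial L) : PowerSeries L) := by
  ext n
  rw [PowerSeries.coeff_map, Polynomial.coeff_coe, PowerSeries.coeff_trunc, linTr,
    PowerSeries.coeff_mk]
  by_cases hn : n < N
  · rw [dif_pos hn, if_pos hn]
    rfl
  · rw [dif_neg hn, if_neg hn, map_zero]

private theorem lin_map_cA {K L : Type u} [Field K] [Field L] (φ : K →+* L)
    (x : PowerSeries K) : PowerSeries.map (MvPolynomial.map φ) (cA x : AA K) =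
      (cA (PowerSeries.map φ x) : AA L) := by
  refine PowerSeries.ext fun n => ?_
  rw [cA, cA, PowerSeries.coeff_map, PowerSeries.coeff_map, PowerSeries.coeff_map,
    PowerSeries.coeff_map, map_C]

private theorem lin_map_xA {K L : Type u} [Field K] [Field L] (φ : K →+* L)
    (j : Fin 2) : PowerSeries.map (MvPolynomial.map φ) (xA j : AA K) = (xA j : AA L) := by
  rw [xA, xA, PowerSeries.map_C, map_X]

private theorem lin_descend' {k K L : Type u} [Field k] [Field K] [Field L] [Algebra k K]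
    [Algebra K L] [Algebra k L] [IsScalarTower k K L] (N : ℕ)
    (P : Fin 2 → PowerSeries L) (T : Fin 2 → PowerSeries K)
    (hT : ∀ j, PowerSeries.map (algebraMap K L) (T j) =
      ((PowerSeries.trunc N (P j) : Polynomial L) : PowerSeries L)) (f : AA k) :
    PowerSeries.map (MvPolynomial.map (algebraMap K L))
      (ev (fun j => (cA (T j) + PowerSeries.X ^ N * xA j : AA K)) f) = ev (cen N P) f := by
  have h := ev_map (MvPolynomial.mapAlgHom (σ := Fin 2) (IsScalarTower.toAlgHom k K L))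
    (fun j => (cA (T j) + PowerSeries.X ^ N * xA j : AA K)) f
  have h1 : ((MvPolynomial.mapAlgHom (σ := Fin 2) (IsScalarTower.toAlgHom k K L) :
      MvPolynomial (Fin 2) K →ₐ[k] MvPolynomial (Fin 2) L) :
      MvPolynomial (Fin 2) K →+* MvPolynomial (Fin 2) L) =
        MvPolynomial.map (algebraMap K L) := by
    apply MvPolynomial.ringHom_ext
    · intro x
      simp
    · intro i
      simp
  rw [h1] at h
  rw [h]
  congr 1
  funext j
  rw [cen, map_add, map_mul, map_pow, PowerSeries.map_X, ← hT j, lin_map_cA, lin_map_xA]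

private theorem lin_descend {k L : Type u} [Field k] [Field L] [Algebra k L] (N : ℕ)
    (P : Fin 2 → PowerSeries L) (K : IntermediateField k L)
    (hK : ∀ j n, n < N → PowerSeries.coeff n (P j) ∈ K) (f : AA k) :
    PowerSeries.map (MvPolynomial.map (algebraMap K L)) (ev (linCe N P K hK) f) =
      ev (cen N P) f :=
  lin_descend' N P (linTr N P K hK) (lin_tr_map N P K hK) f

theorem lin_core {k L : Type u} [Field k] [CharZero k] [Field L] [Algebra k L] {r : ℕ}
    {J : Type} {lam : Fin r → ℝ} (hlam : ∀ j, 0 < lam j) {grp : J → Fin r} {c : J → AA k}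
    {P : Fin 2 → PowerSeries L} {C' : ℕ} {n : Fin r → ℕ} (hP : Cod k P C')
    (hO : OrdGe grp c P n) (N : ℕ) (e B : Fin r → ℕ) {p q s : L} (hpq : ¬ (p = 0 ∧ q = 0))
    {g : Fin r → L} (hg : ∀ j, g j ≠ 0)
    (hdvd : ∀ h, PowerSeries.X ^ e (grp h) ∣ ev (cen N P) (c h))
    (hh : Fin r → J) (hgrp : ∀ j, grp (hh j) = j)
    (hres : ∀ j, PowerSeries.coeff (e j) (ev (cen N P) (c (hh j))) =
      MvPolynomial.C (g j) * (MvPolynomial.C p * X 0 + MvPolynomial.C q * X 1 +
        MvPolynomial.C s) ^ B j)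
    (hB : ∑ j, lam j * B j ≤ 1) :
    ∃ (L' : Type u) (_ : Field L') (_ : Algebra k L') (R : Fin 2 → PowerSeries L') (t : ℕ),
      t ≤ 2 * N ∧ Cod k R t ∧ OrdGe grp c R e ∧
        (t : ℝ) - ∑ j, lam j * e j ≤ C' - ∑ j, lam j * n j := by
  obtain ⟨t, htC, htN, htP, htS⟩ := cod_split N hP
  have hK : ∀ j n, n < N → PowerSeries.coeff n (P j) ∈ IntermediateField.adjoin k
      {x : L | ∃ j n, n < N ∧ x = PowerSeries.coeff n (P j)} :=
    fun j n hn => IntermediateField.subset_adjoin _ _ ⟨j, n, hn, rfl⟩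
  generalize IntermediateField.adjoin k
    {x : L | ∃ j n, n < N ∧ x = PowerSeries.coeff n (P j)} = K at hK htS
  have : CharZero K := charZero_of_injective_algebraMap (algebraMap k K).injective
  have hinj : Function.Injective (MvPolynomial.map (σ := Fin 2) (algebraMap K L)) :=
    MvPolynomial.map_injective _ (algebraMap K L).injective
  have hF : ∀ j, ∃ f' : AA K, ev (linCe N P K hK) (c (hh j)) = PowerSeries.X ^ e j * f' := by
    intro j
    change PowerSeries.X ^ e j ∣ ev (linCe N P K hK) (c (hh j))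
    rw [PowerSeries.X_pow_dvd_iff]
    intro m hm
    have h1 := hdvd (hh j)
    rw [hgrp j, PowerSeries.X_pow_dvd_iff] at h1
    have h2 := h1 m hm
    rw [← lin_descend N P K hK, PowerSeries.coeff_map] at h2
    exact hinj (by rw [h2, map_zero])
  choose f' hf' using hF
  have hf0 : ∀ j, MvPolynomial.map (algebraMap K L) (PowerSeries.coeff 0 (f' j)) =
      MvPolynomial.C (g j) * (MvPolynomial.C p * X 0 + MvPolynomial.C q * X 1 +
        MvPolynomial.C s) ^ B j := by
    intro j
    rw [← hres j, ← lin_descend N P K hK, PowerSeries.coeff_map, hf' j,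
      PowerSeries.coeff_X_pow_mul', if_pos le_rfl, Nat.sub_self]
  obtain ⟨g', p', q', s', hg', hpq', hf''⟩ := lin_rat3 hg hpq hf0
  have hev : ∀ f : AA k, ev (shiftP N P) (ev (linCe N P K hK) f : AA K) = ev P f := by
    intro f
    rw [ev_ev_ext]
    congr 1
    funext j
    refine lin_rec N (fun n hn => ?_) (fun n hn => ?_) (fun n => ?_)
    · rw [linTr, PowerSeries.coeff_mk, dif_pos hn]
      rfl
    · rw [linTr, PowerSeries.coeff_mk, dif_neg (not_lt.2 hn)]
    · rw [shiftP, PowerSeries.coeff_mk]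
  have hn' : ∀ j, (PowerSeries.X : PowerSeries L) ^ (n j - e j) ∣ ev (shiftP N P) (f' j) := by
    intro j
    have h1 := hO (hh j)
    rw [hgrp j, ← hev, hf' j, ev_mul, ev_pow, ev_X, PowerSeries.X_pow_dvd_iff] at h1
    rw [PowerSeries.X_pow_dvd_iff]
    intro m hm
    have h2 := h1 (m + e j) (by omega)
    rwa [PowerSeries.coeff_X_pow_mul', if_pos (Nat.le_add_left _ _), Nat.add_sub_cancel] at h2
  have hpia := pia_lin (fun j => (hlam j).le) hg' hpq' hf'' hB htS hn'
  obtain ⟨L', i1, i2, i3, i4, R, hR, hRC⟩ := exists_gen P N t htP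
  refine ⟨L', i1, i2, R, t, htN, hRC, fun h => ?_, ?_⟩
  · have h1 : ev R (c h) = ev (shiftP N R) (ev (cen N P) (c h) : AA L) := by
      rw [ev_ev_ext]
      congr 1
      funext j
      refine (lin_rec N (fun n hn => ?_) (fun n hn => ?_) (fun n => ?_)).symm
      · rw [hR j n hn, Polynomial.coeff_coe, PowerSeries.coeff_trunc, if_pos hn]
      · rw [Polynomial.coeff_coe, PowerSeries.coeff_trunc, if_neg (not_lt.2 hn)]
      · rw [shiftP, PowerSeries.coeff_mk]
    rw [h1]
    exact ev_dvd _ (hdvd h)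
  · have h1 : ∑ j, lam j * n j - ∑ j, lam j * e j ≤ ∑ j, lam j * ((n j - e j : ℕ) : ℝ) := by
      rw [← Finset.sum_sub_distrib]
      refine Finset.sum_le_sum fun j _ => ?_
      rw [← mul_sub]
      refine mul_le_mul_of_nonneg_left ?_ (hlam j).le
      have h2 : (n j : ℝ) ≤ ((n j - e j : ℕ) : ℝ) + e j := by
        rw [← Nat.cast_add]
        exact Nat.cast_le.2 (by omega)
      linarith
    rw [Nat.cast_sub htC] at hpia
    linarith

theorem lin_dom {k : Type u} [Field k] [IsAlgClosed k] [CharZero k] {r : ℕ} {J : Type} [Fintype J]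
    {lam : Fin r → ℝ} (hlam : ∀ j, 0 < lam j) {grp : J → Fin r} {f : J → AA (Gm k)}
    {c : ℕ → J → AA k} (hc : ∀ h, IsLim (fun i => c i h) (f h))
    {P : ℕ → Fin 2 → PowerSeries (Om k)} {C : ℕ → ℕ} {n : ℕ → Fin r → ℕ}
    (hA : Adm grp c P C n) {Q : Fin 2 → PowerSeries (Gm (Om k))} (hP : IsLimP P Q)
    (N : ℕ) (e B : Fin r → ℕ) {p q s : Gm (Om k)} (hpq : ¬ (p = 0 ∧ q = 0))
    {g : Fin r → Gm (Om k)} (hg : ∀ j, g j ≠ 0)
    (hdvd : ∀ h, PowerSeries.X ^ e (grp h) ∣ ev (cen N Q) (f h))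
    (hres : ∀ j, ∃ h, grp h = j ∧ PowerSeries.coeff (e j) (ev (cen N Q) (f h)) =
      MvPolynomial.C (g j) * (MvPolynomial.C p * X 0 + MvPolynomial.C q * X 1 +
        MvPolynomial.C s) ^ B j)
    (hB : ∑ j, lam j * B j ≤ 1) : Dom lam grp c C n := by
  choose hh hgrp hres using hres
  obtain ⟨p, rfl⟩ := gm_surj p
  obtain ⟨q, rfl⟩ := gm_surj q
  obtain ⟨s, rfl⟩ := gm_surj s
  choose g' hg' using fun j => gm_surj (g j)
  have h1 : ∀ h, ∀ᶠ i in Uf, (PowerSeries.X : AA (Om k)) ^ e (grp h) ∣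
      ev (cen N (P i)) (c i h) := fun h => (isLim_dvd (lin_lim (hc h) hP N) _).1 (hdvd h)
  have h2 : ∀ j, ∀ᶠ i in Uf, PowerSeries.coeff (e j) (ev (cen N (P i)) (c i (hh j))) =
      MvPolynomial.C (g' j i) * (MvPolynomial.C (p i) * X 0 + MvPolynomial.C (q i) * X 1 +
        MvPolynomial.C (s i)) ^ B j := fun j =>
    lin_res (lin_lim (hc (hh j)) hP N) (g' j) p q s (B j) (e j) (by rw [hres j, hg' j])
  have h3 : ∀ j, ∀ᶠ i in Uf, g' j i ≠ 0 := by
    intro j
    refine Ultrafilter.eventually_not.2 fun h => hg j ?_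
    rw [← hg' j]
    exact gm_eq_zero.2 h
  have h4 : ∀ᶠ i in Uf, ¬ (p i = 0 ∧ q i = 0) := by
    refine Ultrafilter.eventually_not.2 fun h => hpq ⟨?_, ?_⟩
    · exact gm_eq_zero.2 (h.mono fun i hi => hi.1)
    · exact gm_eq_zero.2 (h.mono fun i hi => hi.2)
  refine dom_of_arc (2 * N + ∑ j, e j) ?_
  filter_upwards [hA, Filter.eventually_all.2 h1, Filter.eventually_all.2 h2,
    Filter.eventually_all.2 h3, h4] with i hAi h1i h2i h3i h4i
  obtain ⟨L', i1, i2, R, t, htN, hRC, hRO, hle⟩ := lin_core hlam hAi.1 hAi.2 N e B h4i h3i h1i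
    hh hgrp h2i hB
  refine ⟨L', i1, i2, R, t, e, htN.trans (Nat.le_add_right _ _), fun j => ?_, hRC, hRO, hle⟩
  exact (Finset.single_le_sum (fun j _ => Nat.zero_le (e j)) (Finset.mem_univ j)).trans
    (Nat.le_add_left _ _)

end M3
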