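import Pool.Agent.M3.Defs

/-!
PIECE M3-A01: `ev` is a ring homomorphism, functoriality, composition.

PROOF. Everything is checked on the coefficients of `τ^n`, `τ = PowerSeries.X`; the coefficient of `τ^n` of `ev P f`
depends only on the coefficients of `f` up to `n`.  Useful: for `f = X^N * g`, `ev P f = X^N * ev P g`
(`coeff_ev`), `ev P (PowerSeries.C p) = aeval P p` and additivity.  For `ev_mul`: both sides of the `n`-th coefficient
are `∑ coeff l (aeval P (coeff i f) * aeval P (coeff j g))` over `i + j + l = n` (rearrange sums over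
antidiagonals, e.g. with `Finset.Nat.sum_antidiagonal..`/`Finset.sum_sigma'`); or: by additivity and the
`X^N`-adic continuity reduce to `f = C p * X^i`, `g = C q * X^j`.
`ev_ev`: both sides are ring homomorphisms in `f`, continuous in the `τ`-adic sense (agree modulo `X^N` as
soon as they agree on `f` modulo `X^N`); they agree on `PowerSeries.C p` (`aeval` of `aeval`,
`MvPolynomial.comp_aeval`, induction on `p`) and on `X`.
-/

open MvPolynomial

namespace M3

universe u

section
variable {k : Type u} [CommRing k] {R : Type*} [CommRing R] [Algebra k R]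

theorem coeff_ev (P : Fin 2 → PowerSeries R) (f : AA k) (n : ℕ) :
    PowerSeries.coeff n (ev P f) = ∑ p ∈ Finset.HasAntidiagonal.antidiagonal n,
      PowerSeries.coeff p.2 (aeval P (PowerSeries.coeff p.1 f)) := by
  unfold ev
  rw [PowerSeries.coeff_mk]

theorem ev_add (P : Fin 2 → PowerSeries R) (f g : AA k) : ev P (f + g) = ev P f + ev P g := by
  ext n
  simp only [coeff_ev, map_add, Finset.sum_add_distrib]

private theorem ev_monomial (P : Fin 2 → PowerSeries R) (i : ℕ) (a : MvPolynomial (Fin 2) k) :
    ev P (PowerSeries.monomial i a) = PowerSeries.X ^ i * aeval P a := by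
  ext n
  rw [coeff_ev, PowerSeries.coeff_X_pow_mul']
  split_ifs with h
  · rw [Finset.sum_eq_single (i, n - i)]
    · rw [PowerSeries.coeff_monomial_same]
    · rintro ⟨a', b'⟩ hab hne
      have h1 : a' ≠ i := by
        rintro rfl
        apply hne
        have := Finset.HasAntidiagonal.mem_antidiagonal.1 hab
        simp at this
        ext
        · rfl
        · show b' = n - a'
          omega
      rw [PowerSeries.coeff_monomial, if_neg h1, map_zero, map_zero]
    · intro h2
      exact absurd (Finset.HasAntidiagonal.mem_antidiagonal.2 (by simp; omega)) h2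
  · apply Finset.sum_eq_zero
    rintro ⟨a', b'⟩ hab
    have h1 : a' ≠ i := by
      rintro rfl
      have := Finset.HasAntidiagonal.mem_antidiagonal.1 hab
      simp at this
      omega
    rw [PowerSeries.coeff_monomial, if_neg h1, map_zero, map_zero]

private theorem ev_poly (P : Fin 2 → PowerSeries R) (q : Polynomial (MvPolynomial (Fin 2) k)) :
    ev P (q : AA k) = Polynomial.eval₂ (aeval P : MvPolynomial (Fin 2) k →ₐ[k] PowerSeries R).toRingHom
      PowerSeries.X q := by
  induction q using Polynomial.induction_on' with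
  | add p q hp hq => rw [Polynomial.coe_add, ev_add, hp, hq, Polynomial.eval₂_add]
  | monomial n a =>
    rw [Polynomial.coe_monomial, ev_monomial, Polynomial.eval₂_monomial, mul_comm]
    rfl

theorem ev_dvd (P : Fin 2 → PowerSeries R) {f : AA k} {N : ℕ}
    (h : (PowerSeries.X : AA k) ^ N ∣ f) : (PowerSeries.X : PowerSeries R) ^ N ∣ ev P f := by
  rw [PowerSeries.X_pow_dvd_iff] at h ⊢
  intro m hm
  rw [coeff_ev]
  apply Finset.sum_eq_zero
  rintro ⟨a', b'⟩ hab
  have := Finset.HasAntidiagonal.mem_antidiagonal.1 hab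
  rw [h a' (by simp at this; omega), map_zero, map_zero]

private theorem ev_sub' (P : Fin 2 → PowerSeries R) (f g : AA k) :
    ev P (f - g) = ev P f - ev P g := by
  rw [eq_sub_iff_add_eq, ← ev_add, sub_add_cancel]

private theorem trunc_dvd (f : AA k) (N : ℕ) :
    (PowerSeries.X : AA k) ^ N ∣ f - (PowerSeries.trunc N f : Polynomial (MvPolynomial (Fin 2) k)) := by
  rw [PowerSeries.X_pow_dvd_iff]
  intro m hm
  rw [map_sub, Polynomial.coeff_coe, PowerSeries.coeff_trunc, if_pos hm, sub_self]

private theorem eq_of_dvd {A : Type*} [CommRing A] {x y : PowerSeries A}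
    (h : ∀ N, (PowerSeries.X : PowerSeries A) ^ N ∣ x - y) : x = y := by
  ext n
  have := (PowerSeries.X_pow_dvd_iff.1 (h (n + 1))) n (Nat.lt_succ_self n)
  rw [map_sub] at this
  exact sub_eq_zero.1 this

theorem ev_zero (P : Fin 2 → PowerSeries R) : ev P (0 : AA k) = 0 := by
  have := ev_add (k := k) P 0 0
  rw [add_zero] at this
  exact (add_eq_left.1 this.symm)

theorem ev_one (P : Fin 2 → PowerSeries R) : ev P (1 : AA k) = 1 := by
  have := ev_poly (k := k) P 1
  rw [Polynomial.coe_one, Polynomial.eval₂_one] at this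
  exact this

theorem ev_mul (P : Fin 2 → PowerSeries R) (f g : AA k) : ev P (f * g) = ev P f * ev P g := by
  apply eq_of_dvd
  intro N
  set f' : Polynomial (MvPolynomial (Fin 2) k) := PowerSeries.trunc N f with hf'
  set g' : Polynomial (MvPolynomial (Fin 2) k) := PowerSeries.trunc N g with hg'
  have hf : (PowerSeries.X : AA k) ^ N ∣ f - f' := trunc_dvd f N
  have hg : (PowerSeries.X : AA k) ^ N ∣ g - g' := trunc_dvd g N
  have h1 : (PowerSeries.X : AA k) ^ N ∣ f * g - (f' : AA k) * (g' : AA k) := by
    have : f * g - (f' : AA k) * (g' : AA k) = (f - f') * g + f' * (g - g') := by ring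
    rw [this]
    exact dvd_add (Dvd.dvd.mul_right hf _) (Dvd.dvd.mul_left hg _)
  have h2 := ev_dvd P h1
  rw [ev_sub'] at h2
  have h3 := ev_dvd P hf
  rw [ev_sub'] at h3
  have h4 := ev_dvd P hg
  rw [ev_sub'] at h4
  have h5 : ev P ((f' : AA k) * (g' : AA k)) = ev P (f' : AA k) * ev P (g' : AA k) := by
    rw [← Polynomial.coe_mul, ev_poly, ev_poly, ev_poly, Polynomial.eval₂_mul]
  have h6 : ev P (f * g) - ev P f * ev P g = (ev P (f * g) - ev P ((f' : AA k) * (g' : AA k))) -
      ((ev P f - ev P (f' : AA k)) * ev P g + ev P (f' : AA k) * (ev P g - ev P (g' : AA k))) := by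
    rw [h5]
    ring
  rw [h6]
  exact dvd_sub h2 (dvd_add (Dvd.dvd.mul_right h3 _) (Dvd.dvd.mul_left h4 _))

/-- `ev P` as a ring homomorphism -/
noncomputable def evH (P : Fin 2 → PowerSeries R) : AA k →+* PowerSeries R where
  toFun := ev P
  map_zero' := ev_zero P
  map_one' := ev_one P
  map_add' := ev_add P
  map_mul' := ev_mul P

theorem evH_apply (P : Fin 2 → PowerSeries R) (f : AA k) : evH P f = ev P f := rfl

theorem ev_neg (P : Fin 2 → PowerSeries R) (f : AA k) : ev P (-f) = -ev P f :=
  map_neg (evH P) f

theorem ev_sub (P : Fin 2 → PowerSeries R) (f g : AA k) : ev P (f - g) = ev P f - ev P g :=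
  map_sub (evH P) f g

theorem ev_pow (P : Fin 2 → PowerSeries R) (f : AA k) (n : ℕ) : ev P (f ^ n) = ev P f ^ n :=
  map_pow (evH P) f n

theorem ev_C (P : Fin 2 → PowerSeries R) (p : MvPolynomial (Fin 2) k) :
    ev P (PowerSeries.C p) = aeval P p := by
  have := ev_poly (k := k) P (Polynomial.C p)
  rw [Polynomial.coe_C, Polynomial.eval₂_C] at this
  exact this

theorem ev_X (P : Fin 2 → PowerSeries R) : ev P (PowerSeries.X : AA k) = PowerSeries.X := by
  have := ev_poly (k := k) P Polynomial.X
  rw [Polynomial.coe_X, Polynomial.eval₂_X] at this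
  exact this

theorem ev_cA (P : Fin 2 → PowerSeries R) (c : PowerSeries k) :
    ev P (cA c) = PowerSeries.map (algebraMap k R) c := by
  ext n
  rw [coeff_ev, PowerSeries.coeff_map, Finset.sum_eq_single (n, 0)]
  · rw [cA, PowerSeries.coeff_map, aeval_C, PowerSeries.algebraMap_apply,
      PowerSeries.coeff_zero_C]
  · rintro ⟨a', b'⟩ hab hne
    have h1 : b' ≠ 0 := by
      rintro rfl
      apply hne
      have := Finset.HasAntidiagonal.mem_antidiagonal.1 hab
      ext <;> simp
      simpa using this
    rw [cA, PowerSeries.coeff_map, aeval_C, PowerSeries.algebraMap_apply, PowerSeries.coeff_C,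
      if_neg h1]
  · intro h2
    exact absurd (Finset.HasAntidiagonal.mem_antidiagonal.2 (by simp)) h2

theorem ev_xA (P : Fin 2 → PowerSeries R) (j : Fin 2) : ev P (xA j : AA k) = P j := by
  rw [xA, ev_C, aeval_X]

theorem ev_congr {P Q : Fin 2 → PowerSeries R} {N : ℕ}
    (h : ∀ j, (PowerSeries.X : PowerSeries R) ^ N ∣ P j - Q j) (f : AA k) :
    (PowerSeries.X : PowerSeries R) ^ N ∣ ev P f - ev Q f := by
  have key : ∀ p : MvPolynomial (Fin 2) k,
      (PowerSeries.X : PowerSeries R) ^ N ∣ aeval P p - aeval Q p := by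
    intro p
    induction p using MvPolynomial.induction_on with
    | C a => rw [aeval_C, aeval_C, sub_self]; exact dvd_zero _
    | add p q hp hq =>
      rw [map_add, map_add, add_sub_add_comm]
      exact dvd_add hp hq
    | mul_X p j hp =>
      rw [map_mul, map_mul, aeval_X, aeval_X]
      have : aeval P p * P j - aeval Q p * Q j =
          (aeval P p - aeval Q p) * P j + aeval Q p * (P j - Q j) := by ring
      rw [this]
      exact dvd_add (Dvd.dvd.mul_right hp _) (Dvd.dvd.mul_left (h j) _)
  rw [PowerSeries.X_pow_dvd_iff]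
  intro m hm
  rw [map_sub, coeff_ev, coeff_ev, ← Finset.sum_sub_distrib]
  apply Finset.sum_eq_zero
  rintro ⟨a', b'⟩ hab
  have := Finset.HasAntidiagonal.mem_antidiagonal.1 hab
  rw [← map_sub]
  exact PowerSeries.X_pow_dvd_iff.1 (key _) b' (by simp at this; omega)

/-- a substitution over an extension field can be evaluated further -/
theorem ev_ev_ext {L : Type u} [CommRing L] [Algebra k L] [Algebra L R] [IsScalarTower k L R]
    (χ : Fin 2 → AA L) (Q : Fin 2 → PowerSeries R) (f : AA k) :
    ev Q (ev χ f : AA L) = ev (fun j => ev Q (χ j)) f := by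
  have key : ∀ p : MvPolynomial (Fin 2) k,
      ev Q (aeval χ p : AA L) = aeval (fun j => ev Q (χ j)) p := by
    intro p
    induction p using MvPolynomial.induction_on with
    | C a =>
      rw [aeval_C, aeval_C, PowerSeries.algebraMap_apply, ev_C, PowerSeries.algebraMap_apply,
        MvPolynomial.algebraMap_apply, aeval_C, PowerSeries.algebraMap_apply,
        ← IsScalarTower.algebraMap_apply k L R]
    | add p q hp hq => rw [map_add, map_add, ev_add, hp, hq]
    | mul_X p j hp => rw [map_mul, map_mul, ev_mul, hp, aeval_X, aeval_X]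
  have hpol : ∀ q : Polynomial (MvPolynomial (Fin 2) k),
      ev Q (ev χ (q : AA k) : AA L) = ev (fun j => ev Q (χ j)) (q : AA k) := by
    intro q
    induction q using Polynomial.induction_on' with
    | add p q hp hq => rw [Polynomial.coe_add, ev_add, ev_add, ev_add, hp, hq]
    | monomial n a =>
      rw [Polynomial.coe_monomial, ev_monomial, ev_monomial, ev_mul, ev_pow, ev_X, key]
  apply eq_of_dvd
  intro N
  have h0 := trunc_dvd f N
  have h1 := ev_dvd Q (ev_dvd χ h0)
  have h2 := ev_dvd (fun j => ev Q (χ j)) h0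
  rw [ev_sub', ev_sub'] at h1
  rw [ev_sub'] at h2
  have h3 := dvd_sub h1 h2
  rw [hpol] at h3
  have h4 : ∀ a b c : PowerSeries R, a - b - (c - b) = a - c := fun a b c => by ring
  rw [h4] at h3
  exact h3

theorem ev_ev (χ : Fin 2 → AA k) (Q : Fin 2 → PowerSeries R) (f : AA k) :
    ev Q (ev χ f) = ev (fun j => ev Q (χ j)) f :=
  ev_ev_ext χ Q f

theorem ev_self (f : AA k) : ev xA f = f := by
  have key : ∀ p : MvPolynomial (Fin 2) k,
      aeval (xA : Fin 2 → AA k) p = PowerSeries.C p := by
    intro p
    induction p using MvPolynomial.induction_on with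
    | C a => rw [aeval_C, PowerSeries.algebraMap_apply, MvPolynomial.algebraMap_eq]
    | add p q hp hq => rw [map_add, map_add, hp, hq]
    | mul_X p j hp => rw [map_mul, map_mul, hp, aeval_X, xA]
  ext1 n
  rw [coeff_ev, Finset.sum_eq_single (n, 0)]
  · rw [key, PowerSeries.coeff_zero_C]
  · rintro ⟨a', b'⟩ hab hne
    have h1 : b' ≠ 0 := by
      rintro rfl
      apply hne
      have := Finset.HasAntidiagonal.mem_antidiagonal.1 hab
      ext <;> simp
      simpa using this
    rw [key, PowerSeries.coeff_C, if_neg h1]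
  · intro h2
    exact absurd (Finset.HasAntidiagonal.mem_antidiagonal.2 (by simp)) h2

theorem ev_map {R' : Type*} [CommRing R'] [Algebra k R'] (φ : R →ₐ[k] R')
    (P : Fin 2 → PowerSeries R) (f : AA k) :
    PowerSeries.map (φ : R →+* R') (ev P f) =
      ev (fun j => PowerSeries.map (φ : R →+* R') (P j)) f := by
  have key : ∀ p : MvPolynomial (Fin 2) k,
      PowerSeries.map (φ : R →+* R') (aeval P p) =
        aeval (fun j => PowerSeries.map (φ : R →+* R') (P j)) p := by
    intro p
    induction p using MvPolynomial.induction_on with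
    | C a =>
      rw [aeval_C, aeval_C, PowerSeries.algebraMap_apply, PowerSeries.algebraMap_apply,
        PowerSeries.map_C]
      congr 1
      exact φ.commutes a
    | add p q hp hq => rw [map_add, map_add, map_add, hp, hq]
    | mul_X p j hp => rw [map_mul, map_mul, map_mul, hp, aeval_X, aeval_X]
  ext n
  rw [PowerSeries.coeff_map, coeff_ev, coeff_ev, map_sum]
  refine Finset.sum_congr rfl fun p _ => ?_
  rw [← key, PowerSeries.coeff_map]

end

end M3
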