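import Pool.Agent.M3.Ev

/-!
PIECE M3-A04: basic facts on the codimension of arcs.

PROOF. `alg_exchange`: the elements `y s`, `s ∈ T'`, are algebraically independent and algebraic over `k(x)`; the
transcendence degree of `k(x)` over `k` is the cardinality of a maximal algebraically independent subfamily `T` of
`x` (`exists_isTranscendenceBasis_subset` or `IsTranscendenceBasis` of `IntermediateField.adjoin`), all `y s` are
algebraic over `k(x|T)`, so `T'.card ≤ T.card` (e.g. by the theory of transcendence bases/matroids in Mathlib,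
`AlgebraicIndependent`, `IsTranscendenceBasis`, `Algebra.trdeg`; compare `Pool/Agent/MLD/ArcTB.lean`).

`CodLe.mono`, `CodLe.level`: enlarge `C`; for a smaller level drop the members of `T` with second component `≥ m'`: at most
`2 (m - m')` of them.  `CodLe.congr`: same coefficients.

`cod_vanish`: the members of `T` are nonzero coefficients (an algebraically independent family over a field has no
zero member), so `T` is contained in the complement of the `a + b` positions `(0, n)`, `n < a`, `(1, n)`, `n < b`:
`2 m ≤ T.card + C ≤ 2 m - a - b + C`.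

`exists_gen`: `L' := FractionRing (MvPolynomial (Fin 2 × ℕ) L)`; the new arc has the coefficients of `P` for `n < m` and
the new variables for `n ≥ m`.  For a level `m' ≥ m` add the new variables to the set `T` of level `m`
(algebraic independence over `k` of a family in `L` together with variables that are independent over `L`); for
`m' < m` use `CodLe.level`.

`exists_Om`: let `K₁ ⊆ L` be the field generated over `k` by the countably many coefficients of `P`.  It has a countable
transcendence basis over `k`, `Om k` is algebraically closed and contains the countable family of variables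
`t_0, t_1, …` which is algebraically independent over `k`; so there is a `k`-homomorphism `φ : K₁ → Om k` (send the
basis injectively to variables; `IsAlgClosed.lift` for the algebraic extension). Put `Q := φ(P)` coefficientwise.
`AlgebraicIndependent` and vanishing of the coefficients of `ev P f` are preserved since `φ` is injective
(`ev_map`).
-/

open MvPolynomial

namespace M3

universe u

theorem alg_exchange {k L : Type*} [Field k] [Field L] [Algebra k L] {ι ι' : Type*} [Finite ι]
    [Finite ι'] (x : ι → L) (y : ι' → L)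
    (h : ∀ s, IsAlgebraic (IntermediateField.adjoin k (Set.range x)) (y s)) (T' : Finset ι')
    (hT' : AlgebraicIndependent k (fun t : T' => y t)) :
    ∃ T : Finset ι, T'.card ≤ T.card ∧ AlgebraicIndependent k (fun t : T => x t) := by
  classical
  obtain ⟨B, hB⟩ := (AlgebraicIndependent.matroid k L).exists_isBasis (Set.range x)
  have hB1 : AlgebraicIndependent k ((↑) : B → L) := hB.indep
  have hB2 := hB.subset
  have hind : (AlgebraicIndependent.matroid k L).Indep (Set.range (fun t : T' => y t)) :=
    hT'.to_subtype_range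
  have hcl : Set.range (fun t : T' => y t) ⊆
      (AlgebraicIndependent.matroid k L).closure (Set.range x) := by
    rintro _ ⟨t, rfl⟩
    rw [AlgebraicIndependent.matroid_closure_eq]
    exact IntermediateField.isAlgebraic_adjoin_iff.1 (h t)
  have hcard : (Set.range (fun t : T' => y t)).encard ≤ B.encard := by
    rw [hB.encard_eq_eRk, ← Matroid.eRk_closure_eq]
    exact hind.encard_le_eRk_of_subset hcl
  have hBf : B.Finite := (Set.finite_range x).subset hB2
  have hc1 : (Set.range (fun t : T' => y t)).encard = T'.card := by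
    rw [← Set.image_univ, hT'.injective.encard_image, Set.encard_univ]
    simp
  have hidx : ∀ a : B, ∃ i : ι, x i = a := fun a => hB2 a.2
  choose idx hidx using hidx
  have hinj : Function.Injective idx := by
    intro a b hab
    apply Subtype.ext
    rw [← hidx a, ← hidx b, hab]
  let _ : Fintype B := hBf.fintype
  refine ⟨Finset.univ.image idx, ?_, ?_⟩
  · rw [Finset.card_image_of_injective _ hinj, Finset.card_univ]
    rw [hc1, Set.encard_eq_coe_toFinset_card, Set.toFinset_card] at hcard
    exact_mod_cast hcard
  · have hmem : ∀ i : (Finset.univ.image idx : Finset ι), ∃ a : B, idx a = i := by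
      intro i
      obtain ⟨a, -, ha⟩ := Finset.mem_image.1 i.2
      exact ⟨a, ha⟩
    choose back hback using hmem
    have hbinj : Function.Injective back := by
      intro i j hij
      apply Subtype.ext
      rw [← hback i, ← hback j, hij]
    have h := hB1.comp back hbinj
    have h2 : (fun i : (Finset.univ.image idx : Finset ι) => x i) =
        ((↑) : B → L) ∘ back := by
      funext i
      show x i = (back i : L)
      rw [← hidx (back i), hback i]
    rw [h2]
    exact h

section
variable {k : Type u} [Field k] {L : Type*} [Field L] [Algebra k L]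

theorem CodLe.mono {P : Fin 2 → PowerSeries L} {m C C' : ℕ} (h : CodLe k P m C) (hC : C ≤ C') :
    CodLe k P m C' := by
  obtain ⟨T, hT, h⟩ := h
  exact ⟨T, by omega, h⟩

theorem Cod.mono {P : Fin 2 → PowerSeries L} {C C' : ℕ} (h : Cod k P C) (hC : C ≤ C') :
    Cod k P C' := fun m => (h m).mono hC

theorem CodLe.level {P : Fin 2 → PowerSeries L} {m m' C : ℕ} (h : CodLe k P m C) (hm : m' ≤ m) :
    CodLe k P m' C := by
  classical
  obtain ⟨T, hT, hi⟩ := h
  let e : Fin 2 × Fin m' ↪ Fin 2 × Fin m :=
    ⟨fun t => (t.1, Fin.castLE hm t.2), by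
      rintro ⟨a, b⟩ ⟨c, d⟩ hh
      simp only [Prod.mk.injEq, Fin.castLE_inj] at hh
      rw [hh.1, hh.2]⟩
  let T' : Finset (Fin 2 × Fin m') := Finset.univ.filter fun t => e t ∈ T
  refine ⟨T', ?_, ?_⟩
  · have h1 : T ⊆ T'.map e ∪ (Finset.univ.map e)ᶜ := by
      intro t ht
      by_cases hh : t ∈ Finset.univ.map e
      · obtain ⟨s, -, rfl⟩ := Finset.mem_map.1 hh
        exact Finset.mem_union_left _ (Finset.mem_map.2 ⟨s, Finset.mem_filter.2
          ⟨Finset.mem_univ _, ht⟩, rfl⟩)
      · exact Finset.mem_union_right _ (Finset.mem_compl.2 hh)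
    have h2 := (Finset.card_le_card h1).trans (Finset.card_union_le _ _)
    rw [Finset.card_compl, Finset.card_map, Finset.card_map, Finset.card_univ, Fintype.card_prod,
      Fintype.card_prod, Fintype.card_fin, Fintype.card_fin, Fintype.card_fin] at h2
    omega
  · have h1 : ∀ t : T', e t ∈ T := fun t => (Finset.mem_filter.1 t.2).2
    exact hi.comp (fun t : T' => (⟨e t, h1 t⟩ : T)) (by
      intro a b hab
      exact Subtype.ext (e.injective (congrArg Subtype.val hab)))

theorem CodLe.congr {P Q : Fin 2 → PowerSeries L} {m C : ℕ} (h : CodLe k P m C)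
    (hPQ : ∀ j n, n < m → PowerSeries.coeff n (P j) = PowerSeries.coeff n (Q j)) :
    CodLe k Q m C := by
  obtain ⟨T, hT, hi⟩ := h
  refine ⟨T, hT, ?_⟩
  have h1 : (fun t : T => PowerSeries.coeff t.1.2.val (Q t.1.1)) =
      fun t : T => PowerSeries.coeff t.1.2.val (P t.1.1) := by
    funext t
    exact (hPQ _ _ t.1.2.2).symm
  rw [h1]
  exact hi

/-- arcs with vanishing coefficients -/
theorem cod_vanish {P : Fin 2 → PowerSeries L} {m C a b : ℕ} (h : CodLe k P m C)
    (h0 : (PowerSeries.X : PowerSeries L) ^ a ∣ P 0)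
    (h1 : (PowerSeries.X : PowerSeries L) ^ b ∣ P 1) (ha : a ≤ m) (hb : b ≤ m) : a + b ≤ C := by
  classical
  obtain ⟨T, hT, hi⟩ := h
  have hne : ∀ t ∈ T, PowerSeries.coeff t.2.val (P t.1) ≠ 0 := fun t ht => hi.ne_zero ⟨t, ht⟩
  rw [PowerSeries.X_pow_dvd_iff] at h0 h1
  have hF : ∀ c : ℕ, (Finset.univ.filter fun n : Fin m => c ≤ n.val).card ≤ m - c := by
    intro c
    rw [← Nat.card_Ico c m]
    refine Finset.card_le_card_of_injOn (fun n : Fin m => n.val) ?_ ?_
    · intro n hn
      have := (Finset.mem_filter.1 hn).2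
      exact Finset.mem_coe.2 (Finset.mem_Ico.2 ⟨this, n.2⟩)
    · intro n _ n' _ hh
      exact Fin.ext hh
  have hsub : T ⊆ (({0} : Finset (Fin 2)) ×ˢ (Finset.univ.filter fun n : Fin m => a ≤ n.val)) ∪
      (({1} : Finset (Fin 2)) ×ˢ (Finset.univ.filter fun n : Fin m => b ≤ n.val)) := by
    rintro ⟨j, n⟩ ht
    have h3 := hne _ ht
    fin_cases j
    · refine Finset.mem_union_left _ (Finset.mem_product.2 ⟨by simp, Finset.mem_filter.2
        ⟨Finset.mem_univ _, ?_⟩⟩)
      by_contra h4
      exact h3 (h0 _ (not_le.1 h4))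
    · refine Finset.mem_union_right _ (Finset.mem_product.2 ⟨by simp, Finset.mem_filter.2
        ⟨Finset.mem_univ _, ?_⟩⟩)
      by_contra h4
      exact h3 (h1 _ (not_le.1 h4))
  have h2 := (Finset.card_le_card hsub).trans (Finset.card_union_le _ _)
  rw [Finset.card_product, Finset.card_product, Finset.card_singleton, Finset.card_singleton,
    one_mul, one_mul] at h2
  have h3 := hF a
  have h4 := hF b
  omega

/-- at level `0` there is no condition -/
theorem codLe_zero (P : Fin 2 → PowerSeries L) : CodLe k P 0 0 := by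
  refine ⟨∅, by simp, ?_⟩
  rw [algebraicIndependent_empty_type_iff]
  exact (algebraMap k L).injective

end

private theorem codB_map {k : Type u} [Field k] {L L' : Type*} [Field L] [Algebra k L] [Field L']
    [Algebra k L'] (φ : L →ₐ[k] L') (P : Fin 2 → PowerSeries L) (m C : ℕ) :
    CodLe k (fun j => PowerSeries.map (φ : L →+* L') (P j)) m C ↔ CodLe k P m C := by
  have h1 : ∀ T : Finset (Fin 2 × Fin m),
      AlgebraicIndependent k (fun t : T => PowerSeries.coeff t.1.2.val
        (PowerSeries.map (φ : L →+* L') (P t.1.1))) ↔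
      AlgebraicIndependent k (fun t : T => PowerSeries.coeff t.1.2.val (P t.1.1)) := by
    intro T
    rw [← φ.algebraicIndependent_iff φ.toRingHom.injective]
    have : (fun t : T => PowerSeries.coeff t.1.2.val (PowerSeries.map (φ : L →+* L') (P t.1.1))) =
        φ ∘ fun t : T => PowerSeries.coeff t.1.2.val (P t.1.1) := by
      funext t
      simp
    rw [this]
  constructor
  · rintro ⟨T, hT, h⟩
    exact ⟨T, hT, (h1 T).1 h⟩
  · rintro ⟨T, hT, h⟩
    exact ⟨T, hT, (h1 T).2 h⟩

private theorem codB_dvd {k : Type u} [Field k] {L L' : Type*} [Field L] [Algebra k L] [Field L']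
    [Algebra k L'] (φ : L →ₐ[k] L') (P : Fin 2 → PowerSeries L) (f : AA k) (n : ℕ) :
    (PowerSeries.X : PowerSeries L') ^ n ∣
      ev (fun j => PowerSeries.map (φ : L →+* L') (P j)) f ↔
    (PowerSeries.X : PowerSeries L) ^ n ∣ ev P f := by
  rw [← ev_map, PowerSeries.X_pow_dvd_iff, PowerSeries.X_pow_dvd_iff]
  refine forall_congr' fun i => forall_congr' fun _ => ?_
  rw [PowerSeries.coeff_map]
  exact map_eq_zero_iff _ (φ : L →+* L').injective

/-- generic continuation of a truncated arc -/
theorem exists_gen {k : Type u} [Field k] {L : Type u} [Field L] [Algebra k L]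
    (P : Fin 2 → PowerSeries L) (m C : ℕ) (h : CodLe k P m C) :
    ∃ (L' : Type u) (_ : Field L') (_ : Algebra k L') (_ : Algebra L L')
      (_ : IsScalarTower k L L') (Q : Fin 2 → PowerSeries L'),
      (∀ j n, n < m → PowerSeries.coeff n (Q j) = algebraMap L L' (PowerSeries.coeff n (P j))) ∧
      Cod k Q C := by
  classical
  let R := MvPolynomial (Fin 2 × ℕ) L
  let L' := FractionRing R
  have ht : IsScalarTower k L L' := inferInstance
  let v : Fin 2 × ℕ → L' := fun p => algebraMap R L' (X p)
  have hv : AlgebraicIndependent L v := by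
    have h1 : AlgebraicIndependent L (X : Fin 2 × ℕ → R) := MvPolynomial.algebraicIndependent_X _ _
    exact h1.map' (f := IsScalarTower.toAlgHom L R L') (IsFractionRing.injective R L')
  let Q : Fin 2 → PowerSeries L' := fun j => PowerSeries.mk fun n =>
    if n < m then algebraMap L L' (PowerSeries.coeff n (P j)) else v (j, n)
  have hQ1 : ∀ j n, n < m → PowerSeries.coeff n (Q j) = algebraMap L L' (PowerSeries.coeff n (P j)) := by
    intro j n hn
    simp only [Q, PowerSeries.coeff_mk, if_pos hn]
  have hQ2 : ∀ j n, ¬ n < m → PowerSeries.coeff n (Q j) = v (j, n) := by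
    intro j n hn
    simp only [Q, PowerSeries.coeff_mk, if_neg hn]
  refine ⟨L', inferInstance, inferInstance, inferInstance, ht, Q, hQ1, ?_⟩
  -- levels `≥ m`
  have key : ∀ m', m ≤ m' → CodLe k Q m' C := by
    intro m' hm
    obtain ⟨T, hT, hi⟩ := h
    let T' : Finset (Fin 2 × Fin m') := Finset.univ.filter fun t =>
      ∀ h : t.2.val < m, (t.1, (⟨t.2.val, h⟩ : Fin m)) ∈ T
    refine ⟨T', ?_, ?_⟩
    · let e : Fin 2 × Fin m ↪ Fin 2 × Fin m' :=
        ⟨fun t => (t.1, Fin.castLE hm t.2), by
          rintro ⟨a, b⟩ ⟨c, d⟩ hh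
          simp only [Prod.mk.injEq, Fin.castLE_inj] at hh
          rw [hh.1, hh.2]⟩
      have h1 : T'ᶜ ⊆ Tᶜ.map e := by
        intro t ht
        rw [Finset.mem_compl, Finset.mem_filter] at ht
        push Not at ht
        obtain ⟨hh, h2⟩ := ht (Finset.mem_univ _)
        exact Finset.mem_map.2 ⟨(t.1, ⟨t.2.val, hh⟩), Finset.mem_compl.2 h2, rfl⟩
      have h2 := Finset.card_le_card h1
      rw [Finset.card_map, Finset.card_compl, Finset.card_compl, Fintype.card_prod,
        Fintype.card_prod, Fintype.card_fin, Fintype.card_fin, Fintype.card_fin] at h2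
      omega
    · have h2 := hi.sumElim_comp hv
      let g : T' → (Fin 2 × ℕ) ⊕ T := fun t => if h : t.1.2.val < m then
        Sum.inr ⟨(t.1.1, ⟨t.1.2.val, h⟩), (Finset.mem_filter.1 t.2).2 h⟩ else
        Sum.inl (t.1.1, t.1.2.val)
      have hg : Function.Injective g := by
        intro s t hst
        apply Subtype.ext
        by_cases h3 : s.1.2.val < m <;> by_cases h4 : t.1.2.val < m
        · simp only [g, dif_pos h3, dif_pos h4, Sum.inr.injEq, Subtype.mk.injEq,
            Prod.mk.injEq, Fin.mk.injEq] at hst
          exact Prod.ext hst.1 (Fin.ext hst.2)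
        · simp only [g, dif_pos h3, dif_neg h4, reduceCtorEq] at hst
        · simp only [g, dif_neg h3, dif_pos h4, reduceCtorEq] at hst
        · simp only [g, dif_neg h3, dif_neg h4, Sum.inl.injEq, Prod.mk.injEq] at hst
          exact Prod.ext hst.1 (Fin.ext hst.2)
      have h3 := h2.comp g hg
      have h4 : (fun t : T' => PowerSeries.coeff t.1.2.val (Q t.1.1)) = (Sum.elim v
          (algebraMap L L' ∘ fun t : T => PowerSeries.coeff t.1.2.val (P t.1.1))) ∘ g := by
        funext t
        by_cases h3 : t.1.2.val < m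
        · simp only [g, Function.comp_apply, dif_pos h3, Sum.elim_inr]
          exact hQ1 _ _ h3
        · simp only [g, Function.comp_apply, dif_neg h3, Sum.elim_inl]
          exact hQ2 _ _ h3
      rw [h4]
      exact h3
  intro m'
  rcases le_total m m' with hm | hm
  · exact key m' hm
  · exact (key m le_rfl).level hm

/-- arcs over any extension field can be realized over `Om k` -/
theorem exists_Om {k : Type u} [Field k] {L : Type u} [Field L] [Algebra k L]
    (P : Fin 2 → PowerSeries L) :
    ∃ Q : Fin 2 → PowerSeries (Om k), (∀ m C, CodLe k P m C → CodLe k Q m C) ∧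
      ∀ (f : AA k) (n : ℕ), (PowerSeries.X : PowerSeries L) ^ n ∣ ev P f ↔
        (PowerSeries.X : PowerSeries (Om k)) ^ n ∣ ev Q f := by
  classical
  let S : Set L := Set.range fun p : Fin 2 × ℕ => PowerSeries.coeff p.2 (P p.1)
  have hS : S.Countable := Set.countable_range _
  obtain ⟨B, hB⟩ := (AlgebraicIndependent.matroid k L).exists_isBasis S
  obtain ⟨hB1, hB2, hB3⟩ := AlgebraicIndependent.matroid_isBasis_iff.1 hB
  replace hB1 : AlgebraicIndependent k ((↑) : B → L) := hB1
  have hBc : B.Countable := hS.mono hB2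
  have : Countable B := hBc.to_subtype
  obtain ⟨e, he⟩ := Countable.exists_injective_nat B
  -- the variables
  let v : ℕ → Om k := fun p => algebraMap (FractionRing (MvPolynomial ℕ k)) (Om k)
    (algebraMap (MvPolynomial ℕ k) _ (X p))
  have hv : AlgebraicIndependent k v := by
    have h1 : AlgebraicIndependent k (X : ℕ → MvPolynomial ℕ k) :=
      MvPolynomial.algebraicIndependent_X _ _
    have h2 := h1.map' (f := IsScalarTower.toAlgHom k (MvPolynomial ℕ k)
      (FractionRing (MvPolynomial ℕ k))) (IsFractionRing.injective _ _)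
    exact h2.map' (f := IsScalarTower.toAlgHom k (FractionRing (MvPolynomial ℕ k)) (Om k))
      (algebraMap (FractionRing (MvPolynomial ℕ k)) (Om k)).injective
  have hve : AlgebraicIndependent k (v ∘ e) := hv.comp e he
  let F : IntermediateField k L := IntermediateField.adjoin k (Set.range ((↑) : B → L))
  let φ₀ : F →ₐ[k] Om k := (IntermediateField.val _).comp
    (hB1.aevalEquivField.symm.trans hve.aevalEquivField : F ≃ₐ[k] _).toAlgHom
  let _ : Algebra F (Om k) := φ₀.toRingHom.toAlgebra
  have ht : IsScalarTower k F (Om k) := IsScalarTower.of_algebraMap_eq fun x => (φ₀.commutes x).symm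
  let E : IntermediateField F L := algebraicClosure F L
  let φ₁ : E →ₐ[F] Om k := IsAlgClosed.lift
  let φ : E →ₐ[k] Om k := φ₁.restrictScalars k
  let ψ : E →ₐ[k] L := E.val.restrictScalars k
  have hmem : ∀ j n, PowerSeries.coeff n (P j) ∈ E := by
    intro j n
    have h1 := hB3 (PowerSeries.coeff n (P j)) ⟨(j, n), rfl⟩
    show _ ∈ algebraicClosure F L
    rw [mem_algebraicClosure_iff, IntermediateField.isAlgebraic_adjoin_iff, Subtype.range_coe]
    exact h1
  let P' : Fin 2 → PowerSeries E := fun j => PowerSeries.mk fun n =>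
    ⟨PowerSeries.coeff n (P j), hmem j n⟩
  have hP : P = fun j => PowerSeries.map (ψ : E →+* L) (P' j) := by
    funext j
    ext n
    rw [PowerSeries.coeff_map, PowerSeries.coeff_mk]
    rfl
  refine ⟨fun j => PowerSeries.map (φ : E →+* Om k) (P' j), ?_, ?_⟩
  · intro m C h
    rw [hP, codB_map] at h
    rw [codB_map]
    exact h
  · intro f n
    rw [hP, codB_dvd, codB_dvd]

/-- generic continuation over `Om k` -/
theorem exists_cont {k : Type u} [Field k] {L : Type u} [Field L] [Algebra k L]
    (P : Fin 2 → PowerSeries L) (m C : ℕ) (h : CodLe k P m C) :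
    ∃ Q : Fin 2 → PowerSeries (Om k), Cod k Q C ∧ ∀ (f : AA k) (r : ℕ), r ≤ m →
      (PowerSeries.X : PowerSeries L) ^ r ∣ ev P f →
      (PowerSeries.X : PowerSeries (Om k)) ^ r ∣ ev Q f := by
  obtain ⟨L', _, _, _, _, Q, hQ1, hQ2⟩ := exists_gen P m C h
  obtain ⟨Q', hQ3, hQ4⟩ := exists_Om (k := k) Q
  refine ⟨Q', fun m => hQ3 m C (hQ2 m), fun f r hr hf => ?_⟩
  rw [← hQ4]
  have h1 := (codB_dvd (IsScalarTower.toAlgHom k L L') P f r).2 hf
  have h2 : ∀ j, (PowerSeries.X : PowerSeries L') ^ m ∣ Q j -
      PowerSeries.map ((IsScalarTower.toAlgHom k L L' : L →ₐ[k] L') : L →+* L') (P j) := by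
    intro j
    rw [PowerSeries.X_pow_dvd_iff]
    intro n hn
    rw [map_sub, hQ1 j n hn, PowerSeries.coeff_map]
    exact sub_self _
  have h3 := (pow_dvd_pow (PowerSeries.X : PowerSeries L') hr).trans (ev_congr h2 f)
  exact (dvd_sub_left h1).1 h3

/-- there are generic arcs -/
theorem exists_generic (k : Type u) [Field k] :
    ∃ Q : Fin 2 → PowerSeries (Om k), Cod k Q 0 := by
  obtain ⟨Q, hQ, _⟩ := exists_cont (k := k) (L := k) (fun _ => 0) 0 0 (codLe_zero _)
  exact ⟨Q, hQ⟩

/-- the functions of a generic arc do not vanish -/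
theorem generic_ne {k : Type u} [Field k] {L : Type*} [Field L] [Algebra k L]
    {P : Fin 2 → PowerSeries L} (hP : Cod k P 0) {p : MvPolynomial (Fin 2) k} (hp : p ≠ 0) :
    PowerSeries.coeff 0 (aeval P p) ≠ 0 := by
  obtain ⟨T, hT, hi⟩ := hP 1
  have hT1 : T = Finset.univ := by
    rw [← Finset.card_eq_iff_eq_univ]
    have := Finset.card_le_univ T
    rw [Fintype.card_prod, Fintype.card_fin, Fintype.card_fin] at *
    omega
  have h1 : AlgebraicIndependent k fun j : Fin 2 => PowerSeries.coeff 0 (P j) :=
    hi.comp (fun j : Fin 2 => (⟨(j, 0), by rw [hT1]; exact Finset.mem_univ _⟩ : T)) (by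
      intro a b hab
      exact congrArg (fun t : T => t.1.1) hab)
  let c : PowerSeries L →ₐ[k] L := { PowerSeries.constantCoeff (R := L) with
    commutes' := fun a => by
      show PowerSeries.constantCoeff (algebraMap k (PowerSeries L) a) = _
      rw [PowerSeries.algebraMap_apply, PowerSeries.constantCoeff_C] }
  have hc : ∀ x, c x = PowerSeries.coeff 0 x := fun x =>
    (PowerSeries.coeff_zero_eq_constantCoeff_apply x).symm
  have h2 : c (aeval P p) = aeval (fun j : Fin 2 => PowerSeries.coeff 0 (P j)) p := by
    have h3 : c.comp (aeval P) = aeval (fun j : Fin 2 => PowerSeries.coeff 0 (P j)) := by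
      apply MvPolynomial.algHom_ext
      intro i
      rw [AlgHom.comp_apply, aeval_X, aeval_X, hc]
    rw [← h3, AlgHom.comp_apply]
  intro h
  rw [← hc, h2] at h
  exact hp ((map_eq_zero_iff _ (algebraicIndependent_iff_injective_aeval.1 h1)).1 h)

end M3
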