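import Mathlib

/-!
PIECE M3-X02: change of the parameter of an arc.

PROOFS. `exists_param`: `F(Z) := Z ^ e * ∑ n, q_n X^n Z^n - 1`, a polynomial in `Z` over `L[[X]]`. Modulo
`X` it is `q_0 Z ^ e - 1`, which has a simple root `t₀ ≠ 0` in the algebraically closed field `L` of
characteristic zero. Either Hensel's lemma (`L[[X]]` is a Henselian local ring), or directly:
construct the coefficients `t_n` of `T` by recursion: `T_n := ∑ i < n, t_i X^i` with
`X ^ n ∣ F(T_n)`; `F(T_n + t X^n) = F(T_n) + t X^n e q_0 t₀^(e-1)` modulo `X^(n+1)`.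
`coeffs_of_comp`: strong induction on `n`: the coefficient of `X^n` of
`T^e * aeval (X T) q = ∑ i, q_i X^i T^(e+i)` is `q_n t₀^(e+n) + ∑ i < n, q_i [X^(n-i)] T^(e+i)`, and the
coefficients of `T^(e+i)` at `X^j`, `j < M`, lie in `K`.
`coeffs_of_pow`: strong induction on `n ≥ 1`: the coefficient of `X^n` of `T^e` is
`e t₀^(e-1) t_n` plus a polynomial in `t_0 .. t_(n-1)` (write `T = T' + t_n X^n` modulo `X^(n+1)`, `T'`
the truncation: `T^e = T'^e + e T'^(e-1) t_n X^n` modulo `X^(n+1)`).
-/

namespace M3

/-- Newton iteration -/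
private noncomputable def Param_seq {L : Type*} [Field L] (P : Polynomial (PowerSeries L))
    (a : PowerSeries L) : ℕ → PowerSeries L
  | 0 => a
  | n + 1 => Param_seq P a n -
      P.eval (Param_seq P a n) * (P.derivative.eval (Param_seq P a n))⁻¹

private theorem Param_cc {L : Type*} [Field L] (P : Polynomial (PowerSeries L))
    {x y : PowerSeries L} (h : PowerSeries.constantCoeff x = PowerSeries.constantCoeff y) :
    PowerSeries.constantCoeff (P.eval x) = PowerSeries.constantCoeff (P.eval y) := by
  have h1 : (PowerSeries.X : PowerSeries L) ∣ x - y := by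
    rw [PowerSeries.X_dvd_iff, map_sub, h, sub_self]
  have h2 := h1.trans (Polynomial.sub_dvd_eval_sub x y P)
  rw [PowerSeries.X_dvd_iff, map_sub, sub_eq_zero] at h2
  exact h2

private theorem Param_seq_spec {L : Type*} [Field L] (P : Polynomial (PowerSeries L))
    (a : PowerSeries L) (h0 : PowerSeries.constantCoeff (P.eval a) = 0)
    (h1 : PowerSeries.constantCoeff (P.derivative.eval a) ≠ 0) (n : ℕ) :
    PowerSeries.constantCoeff (Param_seq P a n) = PowerSeries.constantCoeff a ∧
      PowerSeries.X ^ (n + 1) ∣ P.eval (Param_seq P a n) := by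
  induction n with
  | zero =>
    refine ⟨rfl, ?_⟩
    rw [zero_add, pow_one, PowerSeries.X_dvd_iff]
    exact h0
  | succ n ih =>
    obtain ⟨ih1, ih2⟩ := ih
    have hd : PowerSeries.constantCoeff (P.derivative.eval (Param_seq P a n)) ≠ 0 := by
      rw [Param_cc P.derivative ih1]
      exact h1
    have h2 : Param_seq P a (n + 1) = Param_seq P a n +
        -(P.eval (Param_seq P a n) * (P.derivative.eval (Param_seq P a n))⁻¹) := by
      rw [← sub_eq_add_neg]
      rfl
    have h3 : PowerSeries.X ^ (n + 1) ∣
        -(P.eval (Param_seq P a n) * (P.derivative.eval (Param_seq P a n))⁻¹) :=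
      (dvd_neg).2 (ih2.mul_right _)
    constructor
    · have h4 : (PowerSeries.X : PowerSeries L) ∣
          -(P.eval (Param_seq P a n) * (P.derivative.eval (Param_seq P a n))⁻¹) :=
        (dvd_pow_self _ (Nat.succ_ne_zero n)).trans h3
      rw [PowerSeries.X_dvd_iff] at h4
      rw [h2, map_add, h4, add_zero, ih1]
    · obtain ⟨k, hk⟩ := Polynomial.binomExpansion P (Param_seq P a n)
        (-(P.eval (Param_seq P a n) * (P.derivative.eval (Param_seq P a n))⁻¹))
      rw [h2, hk]
      have h5 : P.eval (Param_seq P a n) + P.derivative.eval (Param_seq P a n) *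
          -(P.eval (Param_seq P a n) * (P.derivative.eval (Param_seq P a n))⁻¹) = 0 := by
        have h6 := PowerSeries.mul_inv_cancel _ hd
        linear_combination (-(P.eval (Param_seq P a n))) * h6
      rw [h5, zero_add]
      refine Dvd.dvd.mul_left ?_ k
      have h7 := pow_dvd_pow_of_dvd h3 2
      rw [← pow_mul] at h7
      exact (pow_dvd_pow _ (by omega)).trans h7

private theorem Param_hensel {L : Type*} [Field L] (P : Polynomial (PowerSeries L))
    (a : PowerSeries L) (h0 : PowerSeries.constantCoeff (P.eval a) = 0)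
    (h1 : PowerSeries.constantCoeff (P.derivative.eval a) ≠ 0) :
    ∃ T, PowerSeries.constantCoeff T = PowerSeries.constantCoeff a ∧ P.eval T = 0 := by
  have hs := Param_seq_spec P a h0 h1
  have hstep : ∀ n, PowerSeries.X ^ (n + 1) ∣ Param_seq P a (n + 1) - Param_seq P a n := by
    intro n
    have h2 : Param_seq P a (n + 1) - Param_seq P a n =
        -(P.eval (Param_seq P a n) * (P.derivative.eval (Param_seq P a n))⁻¹) := by
      have h3 : Param_seq P a (n + 1) = Param_seq P a n -
          P.eval (Param_seq P a n) * (P.derivative.eval (Param_seq P a n))⁻¹ := rfl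
      rw [h3]
      ring
    rw [h2]
    exact (dvd_neg).2 ((hs n).2.mul_right _)
  have hmono : ∀ n k, PowerSeries.X ^ (n + 1) ∣ Param_seq P a (n + k) - Param_seq P a n := by
    intro n k
    induction k with
    | zero =>
      show PowerSeries.X ^ (n + 1) ∣ Param_seq P a n - Param_seq P a n
      rw [sub_self]
      exact dvd_zero _
    | succ k ih =>
      have h2 : Param_seq P a (n + (k + 1)) - Param_seq P a n =
          (Param_seq P a (n + k + 1) - Param_seq P a (n + k)) +
            (Param_seq P a (n + k) - Param_seq P a n) := by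
        rw [← Nat.add_assoc]
        ring
      rw [h2]
      exact dvd_add ((pow_dvd_pow _ (by omega)).trans (hstep (n + k))) ih
  set T : PowerSeries L := PowerSeries.mk fun n => PowerSeries.coeff n (Param_seq P a n) with hT
  have hdv : ∀ n, PowerSeries.X ^ (n + 1) ∣ T - Param_seq P a n := by
    intro n
    rw [PowerSeries.X_pow_dvd_iff]
    intro m hm
    have h2 := hmono m (n - m)
    rw [Nat.add_sub_cancel' (Nat.lt_succ_iff.1 hm), PowerSeries.X_pow_dvd_iff] at h2
    have h3 := h2 m (Nat.lt_succ_self m)
    rw [map_sub, sub_eq_zero] at h3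
    rw [map_sub, hT, PowerSeries.coeff_mk, h3, sub_self]
  refine ⟨T, ?_, ?_⟩
  · have h2 := hdv 0
    rw [zero_add, pow_one, PowerSeries.X_dvd_iff, map_sub, sub_eq_zero] at h2
    exact h2
  · ext n
    have h2 : PowerSeries.X ^ (n + 1) ∣ P.eval T := by
      have h3 := (hdv n).trans (Polynomial.sub_dvd_eval_sub T (Param_seq P a n) P)
      have h4 := dvd_add h3 (hs n).2
      rwa [sub_add_cancel] at h4
    rw [PowerSeries.X_pow_dvd_iff] at h2
    rw [h2 n (Nat.lt_succ_self n), map_zero]

/-- normalization of the parameter: there is a parameter `X T` in which `X^e q(X)` becomes `X^e` -/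
theorem exists_param {L : Type*} [Field L] [IsAlgClosed L] [CharZero L] (e : ℕ) (he : 0 < e)
    (q : Polynomial L) (hq : q.coeff 0 ≠ 0) :
    ∃ T : PowerSeries L, PowerSeries.coeff 0 T ≠ 0 ∧
      T ^ e * Polynomial.aeval (PowerSeries.X * T) q = 1 := by
  classical
  obtain ⟨t, ht⟩ := IsAlgClosed.exists_pow_nat_eq (q.coeff 0)⁻¹ he
  have ht0 : t ≠ 0 := by
    rintro rfl
    rw [zero_pow he.ne'] at ht
    exact inv_ne_zero hq ht.symm
  set r : Polynomial (PowerSeries L) := Polynomial.C PowerSeries.X * Polynomial.X with hr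
  set Q : Polynomial (PowerSeries L) := q.map (algebraMap L (PowerSeries L)) with hQ
  set P : Polynomial (PowerSeries L) := Polynomial.X ^ e * Q.comp r - 1 with hP
  have heval : ∀ T : PowerSeries L,
      P.eval T = T ^ e * Polynomial.aeval (PowerSeries.X * T) q - 1 := by
    intro T
    rw [hP, Polynomial.eval_sub, Polynomial.eval_mul, Polynomial.eval_pow, Polynomial.eval_X,
      Polynomial.eval_one, Polynomial.eval_comp, hr, Polynomial.eval_mul, Polynomial.eval_C,
      Polynomial.eval_X, hQ, Polynomial.eval_map_algebraMap]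
  have hcq : ∀ T : PowerSeries L,
      PowerSeries.constantCoeff (Polynomial.aeval (PowerSeries.X * T) q) = q.coeff 0 := by
    intro T
    rw [Polynomial.aeval_def, Polynomial.hom_eval₂, map_mul, PowerSeries.constantCoeff_X, zero_mul,
      Polynomial.eval₂_at_zero]
    simp
  have h0 : PowerSeries.constantCoeff (P.eval (PowerSeries.C t)) = 0 := by
    rw [heval, map_sub, map_mul, hcq, map_pow, PowerSeries.constantCoeff_C, ht, map_one,
      inv_mul_cancel₀ hq, sub_self]
  have h1 : PowerSeries.constantCoeff (P.derivative.eval (PowerSeries.C t)) ≠ 0 := by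
    have h2 : P.derivative.eval (PowerSeries.C t) =
        (e : PowerSeries L) * PowerSeries.C t ^ (e - 1) *
          Polynomial.aeval (PowerSeries.X * PowerSeries.C t) q +
        PowerSeries.X * (PowerSeries.C t ^ e * (Polynomial.derivative Q).eval
          (PowerSeries.X * PowerSeries.C t)) := by
      rw [hP, Polynomial.derivative_sub, Polynomial.derivative_one, sub_zero,
        Polynomial.derivative_mul, Polynomial.derivative_X_pow, Polynomial.derivative_comp, hr,
        Polynomial.derivative_C_mul, Polynomial.derivative_X]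
      simp only [Polynomial.eval_add, Polynomial.eval_mul, Polynomial.eval_pow, Polynomial.eval_X,
        Polynomial.eval_C, Polynomial.eval_comp, mul_one, hQ, Polynomial.eval_map_algebraMap]
      ring
    rw [h2, map_add, map_mul, map_mul, map_mul, hcq, PowerSeries.constantCoeff_X, zero_mul,
      add_zero, map_natCast, map_pow, PowerSeries.constantCoeff_C]
    exact mul_ne_zero (mul_ne_zero (Nat.cast_ne_zero.2 he.ne') (pow_ne_zero _ ht0)) hq
  obtain ⟨T, hT0, hT⟩ := Param_hensel P (PowerSeries.C t) h0 h1
  refine ⟨T, ?_, ?_⟩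
  · rw [PowerSeries.coeff_zero_eq_constantCoeff_apply, hT0, PowerSeries.constantCoeff_C]
    exact ht0
  · rw [heval, sub_eq_zero] at hT
    exact hT

private theorem Param_pow_mem {k L : Type*} [Field k] [Field L] [Algebra k L]
    (K : IntermediateField k L) (M : ℕ) (T : PowerSeries L)
    (hTK : ∀ n < M, PowerSeries.coeff n T ∈ K) (j : ℕ) :
    ∀ m < M, PowerSeries.coeff m (T ^ j) ∈ K := by
  induction j with
  | zero =>
    intro m _
    rw [pow_zero, PowerSeries.coeff_one]
    split_ifs
    · exact one_mem K
    · exact zero_mem K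
  | succ j ih =>
    intro m hm
    rw [pow_succ, PowerSeries.coeff_mul]
    refine sum_mem fun x hx => ?_
    rw [Finset.HasAntidiagonal.mem_antidiagonal] at hx
    exact mul_mem (ih _ (by omega)) (hTK _ (by omega))

theorem coeffs_of_comp {k L : Type*} [Field k] [Field L] [Algebra k L]
    (K : IntermediateField k L) (e M : ℕ) (T : PowerSeries L) (hT : PowerSeries.coeff 0 T ≠ 0)
    (hTK : ∀ n < M, PowerSeries.coeff n T ∈ K) (q : Polynomial L)
    (hq : ∀ n < M, PowerSeries.coeff n (T ^ e * Polynomial.aeval (PowerSeries.X * T) q) ∈ K) :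
    ∀ n < M, q.coeff n ∈ K := by
  intro n
  induction n using Nat.strong_induction_on with
  | _ n ih =>
    intro hn
    have hpow : ∀ j m, m < M → PowerSeries.coeff m (T ^ j) ∈ K :=
      fun j m hm => Param_pow_mem K M T hTK j m hm
    set N := max q.natDegree n + 1 with hN
    have h1 : T ^ e * Polynomial.aeval (PowerSeries.X * T) q =
        ∑ i ∈ Finset.range N, q.coeff i • (PowerSeries.X ^ i * T ^ (e + i)) := by
      rw [Polynomial.aeval_eq_sum_range' (n := N) (by omega), Finset.mul_sum]
      refine Finset.sum_congr rfl fun i _ => ?_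
      rw [mul_smul_comm, mul_pow, pow_add]
      congr 1
      ring
    have h2 := hq n hn
    rw [h1, map_sum] at h2
    have h3 : ∀ i ∈ Finset.range N,
        PowerSeries.coeff n (q.coeff i • (PowerSeries.X ^ i * T ^ (e + i))) =
          if i ≤ n then q.coeff i * PowerSeries.coeff (n - i) (T ^ (e + i)) else 0 := by
      intro i _
      rw [map_smul, PowerSeries.coeff_X_pow_mul', smul_eq_mul]
      split_ifs
      · rfl
      · rw [mul_zero]
    rw [Finset.sum_congr rfl h3, ← Finset.sum_filter] at h2
    have h4 : (Finset.range N).filter (fun i => i ≤ n) = Finset.range (n + 1) := by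
      ext i
      simp only [Finset.mem_filter, Finset.mem_range]
      omega
    rw [h4, Finset.sum_range_succ, Nat.sub_self] at h2
    have h5 : ∑ i ∈ Finset.range n, q.coeff i * PowerSeries.coeff (n - i) (T ^ (e + i)) ∈ K := by
      refine sum_mem fun i hi => mul_mem (ih i (Finset.mem_range.1 hi) ?_) (hpow _ _ ?_)
      · have := Finset.mem_range.1 hi
        omega
      · omega
    have h6 : q.coeff n * PowerSeries.coeff 0 (T ^ (e + n)) ∈ K := by
      have := sub_mem h2 h5
      rwa [add_sub_cancel_left] at this
    have h7 : PowerSeries.coeff 0 (T ^ (e + n)) ≠ 0 := by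
      rw [PowerSeries.coeff_zero_eq_constantCoeff_apply, map_pow]
      rw [PowerSeries.coeff_zero_eq_constantCoeff_apply] at hT
      exact pow_ne_zero _ hT
    have h8 := div_mem h6 (hpow (e + n) 0 (by omega))
    rwa [mul_div_assoc, div_self h7, mul_one] at h8

theorem coeffs_of_pow {k L : Type*} [Field k] [Field L] [CharZero L] [Algebra k L]
    (K : IntermediateField k L) (e M : ℕ) (he : 0 < e) (T : PowerSeries L)
    (hT : PowerSeries.coeff 0 T ≠ 0) (hT0 : PowerSeries.coeff 0 T ∈ K)
    (h : ∀ n < M, PowerSeries.coeff n (T ^ e) ∈ K) : ∀ n < M, PowerSeries.coeff n T ∈ K := by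
  intro n
  induction n using Nat.strong_induction_on with
  | _ n ih =>
    intro hn
    rcases Nat.eq_zero_or_pos n with h0 | h0
    · rw [h0]
      exact hT0
    · set T' : PowerSeries L := PowerSeries.mk fun m => if m < n then PowerSeries.coeff m T else 0
        with hT'
      have hd : PowerSeries.X ^ n ∣ T - T' := by
        rw [PowerSeries.X_pow_dvd_iff]
        intro m hm
        rw [map_sub, hT', PowerSeries.coeff_mk, if_pos hm, sub_self]
      obtain ⟨S, hS⟩ := hd
      have hTe : T = T' + PowerSeries.X ^ n * S := by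
        rw [← hS]
        ring
      have hS0 : PowerSeries.coeff 0 S = PowerSeries.coeff n T := by
        have h1 := congrArg (PowerSeries.coeff n) hS
        rw [map_sub, hT', PowerSeries.coeff_mk, if_neg (lt_irrefl n), sub_zero] at h1
        rw [h1, PowerSeries.coeff_X_pow_mul', if_pos le_rfl, Nat.sub_self]
      have hT'0 : PowerSeries.coeff 0 T' = PowerSeries.coeff 0 T := by
        rw [hT', PowerSeries.coeff_mk, if_pos h0]
      obtain ⟨R, hR⟩ := Polynomial.powAddExpansion T' (PowerSeries.X ^ n * S) e
      rw [← hTe] at hR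
      have h1 : PowerSeries.coeff n (T ^ e) = PowerSeries.coeff n (T' ^ e) +
          e * PowerSeries.coeff 0 T ^ (e - 1) * PowerSeries.coeff n T := by
        have h2 : (e : PowerSeries L) * T' ^ (e - 1) * (PowerSeries.X ^ n * S) =
            PowerSeries.X ^ n * ((e : PowerSeries L) * T' ^ (e - 1) * S) := by ring
        have h3 : R * (PowerSeries.X ^ n * S) ^ 2 =
            PowerSeries.X ^ n * (PowerSeries.X ^ n * (R * S ^ 2)) := by ring
        rw [hR, map_add, map_add, h2, h3, PowerSeries.coeff_X_pow_mul', if_pos le_rfl,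
          PowerSeries.coeff_X_pow_mul', if_pos le_rfl, Nat.sub_self,
          PowerSeries.coeff_X_pow_mul', if_neg (by omega), add_zero]
        congr 1
        rw [PowerSeries.coeff_zero_eq_constantCoeff_apply, map_mul, map_mul, map_natCast, map_pow,
          ← PowerSeries.coeff_zero_eq_constantCoeff_apply,
          ← PowerSeries.coeff_zero_eq_constantCoeff_apply, hT'0, hS0]
      have h4 : PowerSeries.coeff n (T' ^ e) ∈ K := by
        refine Param_pow_mem K (n + 1) T' (fun m hm => ?_) e n (Nat.lt_succ_self n)
        rw [hT', PowerSeries.coeff_mk]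
        split_ifs with h5
        · exact ih m h5 (by omega)
        · exact zero_mem K
      have h5 : (e : L) * PowerSeries.coeff 0 T ^ (e - 1) * PowerSeries.coeff n T ∈ K := by
        have h6 := sub_mem (h n hn) h4
        rwa [h1, add_sub_cancel_left] at h6
      have h6 : (e : L) * PowerSeries.coeff 0 T ^ (e - 1) ∈ K :=
        mul_mem (natCast_mem K e) (pow_mem hT0 _)
      have h7 : (e : L) * PowerSeries.coeff 0 T ^ (e - 1) ≠ 0 :=
        mul_ne_zero (Nat.cast_ne_zero.2 he.ne') (pow_ne_zero _ hT)
      have h8 := div_mem h5 h6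
      rwa [mul_div_right_comm, div_self h7, one_mul] at h8

end M3
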