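import Pool.Agent.M3.Cone
import Pool.Agent.M3.Param
import Pool.Agent.M3.JetE
import Pool.Agent.M3.CodB

/-!
PIECE M3-X03: from divisors over `A^3` to arcs in the polydisc.

PROOF of `jet_to_arc`. `γ_j := jetS c j` is `X^e q_j(X)` with polynomials `q_j` (`coeff n q_j = c j (n+e-1)`
for `n < M := m + 1 - e`, zero otherwise), `q_{i₀}(0) ≠ 0`. Let `L'` be the algebraic closure of `L`,
`T` from `exists_param` for (the image of) `q_{i₀}`; `v := X T`;
`P_j := T^e q_{i₀.succAbove j}(v)`. The ring homomorphism `θ := Polynomial.aeval v : L'[Y] → L'[[X]]` maps the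
polynomial `Y^e q_j` to `v^e q_j(v) = X^e T^e q_j(v)`, i.e. `γ_{i₀}` to `X^e` and `γ_{i₀.succAbove j}` to
`X^e P_j`. If `X^r ∣ aeval γ f` as power series, then `Y^r` divides the polynomial `aeval (Y^e q_j) f`
(`Polynomial.X_pow_dvd_iff`, coefficients), so `X^r` divides (`v^r` divides)
`aeval (i₀.insertNth (X^e) (X^e P_j)) f = X^(e μ) * ev P (cone i₀ e μ f)` (`cone_ev`), so with
`r = n + e μ`: `X^n ∣ ev P (cone ..)`.
COUNT: `3 (m+1) ≤ T₀.card + A`; elements `c t`, `t ∈ T₀` are not zero, so `T₀` lies in the `3 M` indices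
with `e - 1 ≤ t.2` (`M = m + 1 - e`), hence `3 e ≤ A`. Let
`K := IntermediateField.adjoin k` of the coefficients of `T` and `P_j` at `X^n`, `n < M`; by `coeffs_of_comp` (for
`q_{i₀}` with `T^e q_{i₀}(v) = 1`, for the others with `P_j`) all `c t` lie in `K`. `alg_exchange` with
`ι = Fin M ⊕ (Fin 2 × Fin M)` gives at least `T₀.card` independent elements among these, at most `M` of
them are coefficients of `T`, so at least `3 (m+1) - A - M = 2 M - (A - 3 e)` are coefficients of `P`: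
`CodLe k P M (A - 3e)`. Then `exists_cont` (level `M`, so `n ≤ M`: this is why `n + e ≤ m + 1` is
assumed).
`div_to_arc`: `exists_jetE` with level `m + e`, `e := E.ord x_{i₀}` minimal among the three orders.
`ord (jetS c i₀) = e` exactly by the two statements of `exists_jetE` for `f = X i₀`.
-/

open MvPolynomial

namespace M3

open MLD

universe u

/-- the polynomials with the power series `jetS c j` -/
private noncomputable def ArcIn_J {L : Type*} [CommRing L] {m : ℕ} (c : Fin 3 → Fin m → L)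
    (j : Fin 3) : Polynomial L :=
  ∑ i : Fin m, Polynomial.C (c j i) * Polynomial.X ^ (i.val + 1)

private theorem ArcIn_J_coe {L : Type*} [CommRing L] {m : ℕ} (c : Fin 3 → Fin m → L)
    (j : Fin 3) : (ArcIn_J c j : PowerSeries L) = jetS c j := by
  unfold ArcIn_J jetS
  rw [← Polynomial.coeToPowerSeries.ringHom_apply, map_sum]
  refine Finset.sum_congr rfl fun i _ => ?_
  rw [map_mul, map_pow, Polynomial.coeToPowerSeries.ringHom_apply,
    Polynomial.coeToPowerSeries.ringHom_apply, Polynomial.coe_C, Polynomial.coe_X]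

private theorem ArcIn_J_coeff {L : Type*} [CommRing L] {m : ℕ} (c : Fin 3 → Fin m → L)
    (j : Fin 3) (i : Fin m) : (ArcIn_J c j).coeff (i.val + 1) = c j i := by
  unfold ArcIn_J
  rw [Polynomial.finsetSum_coeff, Finset.sum_eq_single i]
  · rw [Polynomial.coeff_C_mul_X_pow, if_pos rfl]
  · intro i' _ hi'
    rw [Polynomial.coeff_C_mul_X_pow, if_neg]
    intro h
    apply hi'
    apply Fin.ext
    omega
  · intro h
    exact absurd (Finset.mem_univ i) h

private theorem ArcIn_dvd_coe {L : Type*} [CommRing L] (p : Polynomial L) (n : ℕ) :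
    (PowerSeries.X : PowerSeries L) ^ n ∣ (p : PowerSeries L) ↔ Polynomial.X ^ n ∣ p := by
  rw [PowerSeries.X_pow_dvd_iff, Polynomial.X_pow_dvd_iff]
  simp only [Polynomial.coeff_coe]

private theorem ArcIn_aeval_coe {k L : Type*} [CommRing k] [CommRing L] [Algebra k L]
    (J : Fin 3 → Polynomial L) (f : MvPolynomial (Fin 3) k) :
    ((aeval J f : Polynomial L) : PowerSeries L) =
      aeval (fun j => (J j : PowerSeries L)) f := by
  induction f using MvPolynomial.induction_on with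
  | C a =>
    rw [aeval_C, aeval_C, Polynomial.algebraMap_apply, Polynomial.coe_C,
      PowerSeries.algebraMap_apply]
  | add p q hp hq => rw [map_add, map_add, Polynomial.coe_add, hp, hq]
  | mul_X p j hp => rw [map_mul, map_mul, Polynomial.coe_mul, hp, aeval_X, aeval_X]

private theorem ArcIn_aeval_comp {k L : Type*} [CommRing k] [CommRing L] [Algebra k L]
    (v : PowerSeries L) (J : Fin 3 → Polynomial L) (f : MvPolynomial (Fin 3) k) :
    Polynomial.aeval v (aeval J f : Polynomial L) =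
      aeval (fun j => Polynomial.aeval v (J j)) f := by
  induction f using MvPolynomial.induction_on with
  | C a =>
    rw [aeval_C, aeval_C, Polynomial.algebraMap_apply, Polynomial.aeval_C,
      ← IsScalarTower.algebraMap_apply k L (PowerSeries L)]
  | add p q hp hq => rw [map_add, map_add, map_add, hp, hq]
  | mul_X p j hp => rw [map_mul, map_mul, map_mul, hp, aeval_X, aeval_X]

/-- the arithmetic part -/
private theorem ArcIn_main {k : Type u} [Field k] {L : Type u} [Field L] [Algebra k L]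
    {m : ℕ} (c : Fin 3 → Fin m → L) (i₀ : Fin 3) (e : ℕ) (he : 0 < e)
    (q : Fin 3 → Polynomial L) (hq : ∀ j, ArcIn_J c j = Polynomial.X ^ e * q j)
    (T : PowerSeries L) (hT : T ^ e * Polynomial.aeval (PowerSeries.X * T) (q i₀) = 1)
    (P : Fin 2 → PowerSeries L)
    (hP : ∀ j, P j = T ^ e * Polynomial.aeval (PowerSeries.X * T) (q (i₀.succAbove j)))
    (f : MvPolynomial (Fin 3) k) (μ n : ℕ) (hf : ∀ d < μ, homogeneousComponent d f = 0)
    (h : (PowerSeries.X : PowerSeries L) ^ (n + e * μ) ∣ aeval (jetS c) f) :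
    (PowerSeries.X : PowerSeries L) ^ n ∣ ev P (cone i₀ e μ f) := by
  have h1 : (Polynomial.X : Polynomial L) ^ (n + e * μ) ∣ aeval (ArcIn_J c) f := by
    rw [← ArcIn_dvd_coe, ArcIn_aeval_coe]
    simp only [ArcIn_J_coe]
    exact h
  obtain ⟨g, hg⟩ := h1
  have h2 := congrArg (Polynomial.aeval (PowerSeries.X * T)) hg
  rw [ArcIn_aeval_comp, map_mul, map_pow, Polynomial.aeval_X, mul_pow] at h2
  have h3 : (fun j => Polynomial.aeval (PowerSeries.X * T) (ArcIn_J c j)) =
      i₀.insertNth (α := fun _ => PowerSeries L) (PowerSeries.X ^ e)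
        (fun j => PowerSeries.X ^ e * P j) := by
    rw [Fin.eq_insertNth_iff]
    constructor
    · rw [hq, map_mul, map_pow, Polynomial.aeval_X, mul_pow, mul_assoc, hT, mul_one]
    · funext j
      show Polynomial.aeval (PowerSeries.X * T) (ArcIn_J c (i₀.succAbove j)) = _
      rw [hq, map_mul, map_pow, Polynomial.aeval_X, mul_pow, mul_assoc, ← hP]
  rw [h3, cone_ev i₀ he f hf P, mul_assoc] at h2
  have h4 : (PowerSeries.X : PowerSeries L) ^ (e * μ) * PowerSeries.X ^ n ∣
      PowerSeries.X ^ (e * μ) * ev P (cone i₀ e μ f) := by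
    rw [h2, ← pow_add, add_comm (e * μ) n]
    exact Dvd.intro _ rfl
  exact (mul_dvd_mul_iff_left (pow_ne_zero _ PowerSeries.X_ne_zero)).1 h4

private theorem ArcIn_cod {k : Type u} [Field k] {L : Type u} [Field L] [Algebra k L]
    {M C : ℕ} (x : Fin M ⊕ (Fin 2 × Fin M) → L) (P : Fin 2 → PowerSeries L)
    (hxr : ∀ s : Fin 2 × Fin M, x (Sum.inr s) = PowerSeries.coeff s.2.val (P s.1))
    (T₂ : Finset (Fin M ⊕ (Fin 2 × Fin M)))
    (hi : AlgebraicIndependent k (fun t : T₂ => x t)) (hc : 3 * M ≤ T₂.card + C) :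
    CodLe k P M C := by
  classical
  have h5 := Finset.card_toLeft_add_card_toRight (u := T₂)
  have h6 : T₂.toLeft.card ≤ M := by
    refine (Finset.card_le_univ _).trans ?_
    rw [Fintype.card_fin]
  refine ⟨T₂.toRight, by omega, ?_⟩
  have h7 : Function.Injective (fun s : T₂.toRight =>
      (⟨Sum.inr s.1, Finset.mem_toRight.1 s.2⟩ : T₂)) := by
    intro a b hab
    simp only [Subtype.mk.injEq, Sum.inr.injEq] at hab
    exact Subtype.ext hab
  have h8 := hi.comp _ h7
  have h9 : (fun t : T₂.toRight => PowerSeries.coeff t.1.2.val (P t.1.1)) =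
      (fun t : T₂ => x t) ∘ (fun s : T₂.toRight =>
        (⟨Sum.inr s.1, Finset.mem_toRight.1 s.2⟩ : T₂)) := by
    funext s
    exact (hxr s.1).symm
  rw [h9]
  exact h8

private theorem ArcIn_closed {k : Type u} [Field k] [CharZero k] {L : Type u} [Field L]
    [Algebra k L] [IsAlgClosed L]
    {m : ℕ} (c : Fin 3 → Fin m → L) (A : ℕ) (T : Finset (Fin 3 × Fin m))
    (hT : 3 * (m + 1) ≤ T.card + A)
    (hind : AlgebraicIndependent k (fun t : T => c t.1.1 t.1.2)) (i₀ : Fin 3) (e : ℕ) (he : 0 < e)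
    (hem : e ≤ m) (h1 : ∀ j, (PowerSeries.X : PowerSeries L) ^ e ∣ jetS c j)
    (h2 : ¬ (PowerSeries.X : PowerSeries L) ^ (e + 1) ∣ jetS c i₀) :
    3 * e ≤ A ∧ ∃ P : Fin 2 → PowerSeries (Om k), Cod k P (A - 3 * e) ∧
      ∀ (f : MvPolynomial (Fin 3) k) (μ n : ℕ), (∀ d < μ, homogeneousComponent d f = 0) →
        n + e ≤ m + 1 → (PowerSeries.X : PowerSeries L) ^ (n + e * μ) ∣ aeval (jetS c) f →
        (PowerSeries.X : PowerSeries (Om k)) ^ n ∣ ev P (cone i₀ e μ f) := by
  classical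
  have : CharZero L := charZero_of_injective_algebraMap (algebraMap k L).injective
  have hJ : ∀ j, (Polynomial.X : Polynomial L) ^ e ∣ ArcIn_J c j := by
    intro j
    rw [← ArcIn_dvd_coe, ArcIn_J_coe]
    exact h1 j
  choose q hq using hJ
  have hq0 : (q i₀).coeff 0 ≠ 0 := by
    intro h0
    apply h2
    rw [← ArcIn_J_coe, ArcIn_dvd_coe, hq, pow_succ]
    exact mul_dvd_mul_left _ (Polynomial.X_dvd_iff.2 h0)
  obtain ⟨t, ht0, ht⟩ := exists_param e he (q i₀) hq0
  obtain ⟨P, hP⟩ : ∃ P : Fin 2 → PowerSeries L, ∀ j,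
      P j = t ^ e * Polynomial.aeval (PowerSeries.X * t) (q (i₀.succAbove j)) :=
    ⟨_, fun j => rfl⟩
  obtain ⟨M, hM⟩ : ∃ M, M + e = m + 1 := ⟨m + 1 - e, by omega⟩
  obtain ⟨x, hxl, hxr⟩ : ∃ x : Fin M ⊕ (Fin 2 × Fin M) → L,
      (∀ n : Fin M, x (Sum.inl n) = PowerSeries.coeff n.val t) ∧
      ∀ s : Fin 2 × Fin M, x (Sum.inr s) = PowerSeries.coeff s.2.val (P s.1) :=
    ⟨Sum.elim (fun n => PowerSeries.coeff n.val t) (fun s => PowerSeries.coeff s.2.val (P s.1)),
      fun _ => rfl, fun _ => rfl⟩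
  obtain ⟨K, hK⟩ : ∃ K : IntermediateField k L,
      K = IntermediateField.adjoin k (Set.range x) := ⟨_, rfl⟩
  have hx : ∀ s, x s ∈ K := fun s => by
    rw [hK]
    exact IntermediateField.subset_adjoin k _ ⟨s, rfl⟩
  have htK : ∀ n < M, PowerSeries.coeff n t ∈ K := fun n hn => by
    rw [← hxl ⟨n, hn⟩]
    exact hx _
  have hPK : ∀ j, ∀ n < M, PowerSeries.coeff n (P j) ∈ K := fun j n hn => by
    rw [← hxr (j, ⟨n, hn⟩)]
    exact hx _
  have hqK : ∀ j, ∀ n < M, (q j).coeff n ∈ K := by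
    intro j
    by_cases hj : j = i₀
    · subst hj
      refine coeffs_of_comp K e M t ht0 htK (q j) fun n hn => ?_
      rw [ht, PowerSeries.coeff_one]
      split_ifs
      · exact K.one_mem
      · exact K.zero_mem
    · obtain ⟨j', rfl⟩ := Fin.exists_succAbove_eq hj
      refine coeffs_of_comp K e M t ht0 htK (q (i₀.succAbove j')) fun n hn => ?_
      rw [← hP j']
      exact hPK j' n hn
  have hcK : ∀ s : Fin 3 × Fin m, c s.1 s.2 ∈ K := by
    intro s
    rw [← ArcIn_J_coeff c s.1 s.2, hq, Polynomial.coeff_X_pow_mul']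
    split_ifs with h
    · refine hqK _ _ ?_
      have := s.2.2
      omega
    · exact K.zero_mem
  obtain ⟨T₂, hT₂, hi₂⟩ := alg_exchange x (fun s : Fin 3 × Fin m => c s.1 s.2)
    (fun s => by
      rw [← hK]
      exact isAlgebraic_algebraMap (⟨c s.1 s.2, hcK s⟩ : K)) T hind
  have hc1 : T₂.card ≤ 3 * M := by
    refine (Finset.card_le_univ T₂).trans ?_
    rw [Fintype.card_sum, Fintype.card_prod, Fintype.card_fin, Fintype.card_fin]
    omega
  have h3A : 3 * e ≤ A := by omega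
  refine ⟨h3A, ?_⟩
  have hcod : CodLe k P M (A - 3 * e) := ArcIn_cod x P hxr T₂ hi₂ (by omega)
  obtain ⟨Q, hQ1, hQ2⟩ := exists_cont P M (A - 3 * e) hcod
  refine ⟨Q, hQ1, fun f μ n hf hn h => hQ2 _ n (by omega) ?_⟩
  exact ArcIn_main c i₀ e he q hq t ht P hP f μ n hf h

private theorem ArcIn_map {L L' : Type*} [CommRing L] [CommRing L'] (φ : L →+* L') {m : ℕ}
    (c : Fin 3 → Fin m → L) (j : Fin 3) :
    PowerSeries.map φ (jetS c j) = jetS (fun j i => φ (c j i)) j := by
  unfold jetS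
  rw [map_sum]
  refine Finset.sum_congr rfl fun i _ => ?_
  rw [map_mul, map_pow, PowerSeries.map_C, PowerSeries.map_X]

private theorem ArcIn_map_dvd {L L' : Type*} [Field L] [Field L'] (φ : L →+* L')
    (p : PowerSeries L) (n : ℕ) :
    (PowerSeries.X : PowerSeries L') ^ n ∣ PowerSeries.map φ p ↔
      (PowerSeries.X : PowerSeries L) ^ n ∣ p := by
  rw [PowerSeries.X_pow_dvd_iff, PowerSeries.X_pow_dvd_iff]
  simp only [PowerSeries.coeff_map, map_eq_zero]

private theorem ArcIn_map_aeval {k L L' : Type*} [CommRing k] [CommRing L] [CommRing L']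
    [Algebra k L] [Algebra k L'] (φ : L →ₐ[k] L') (a : Fin 3 → PowerSeries L)
    (f : MvPolynomial (Fin 3) k) :
    PowerSeries.map (φ : L →+* L') (aeval a f) =
      aeval (fun j => PowerSeries.map (φ : L →+* L') (a j)) f := by
  induction f using MvPolynomial.induction_on with
  | C c =>
    rw [aeval_C, aeval_C, PowerSeries.algebraMap_apply, PowerSeries.algebraMap_apply,
      PowerSeries.map_C]
    congr 1
    exact φ.commutes c
  | add p q hp hq => rw [map_add, map_add, map_add, hp, hq]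
  | mul_X p j hp => rw [map_mul, map_mul, map_mul, hp, aeval_X, aeval_X]

theorem jet_to_arc {k : Type u} [Field k] [CharZero k] {L : Type u} [Field L] [Algebra k L]
    {m : ℕ} (c : Fin 3 → Fin m → L) (A : ℕ) (T : Finset (Fin 3 × Fin m))
    (hT : 3 * (m + 1) ≤ T.card + A)
    (hind : AlgebraicIndependent k (fun t : T => c t.1.1 t.1.2)) (i₀ : Fin 3) (e : ℕ) (he : 0 < e)
    (hem : e ≤ m) (h1 : ∀ j, (PowerSeries.X : PowerSeries L) ^ e ∣ jetS c j)
    (h2 : ¬ (PowerSeries.X : PowerSeries L) ^ (e + 1) ∣ jetS c i₀) :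
    3 * e ≤ A ∧ ∃ P : Fin 2 → PowerSeries (Om k), Cod k P (A - 3 * e) ∧
      ∀ (f : MvPolynomial (Fin 3) k) (μ n : ℕ), (∀ d < μ, homogeneousComponent d f = 0) →
        n + e ≤ m + 1 → (PowerSeries.X : PowerSeries L) ^ (n + e * μ) ∣ aeval (jetS c) f →
        (PowerSeries.X : PowerSeries (Om k)) ^ n ∣ ev P (cone i₀ e μ f) := by
  let φ : L →ₐ[k] AlgebraicClosure L := IsScalarTower.toAlgHom k L (AlgebraicClosure L)
  have hj : ∀ j, jetS (fun j i => φ (c j i)) j = PowerSeries.map (φ : L →+* AlgebraicClosure L)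
      (jetS c j) := fun j => (ArcIn_map (φ : L →+* AlgebraicClosure L) c j).symm
  have hφ : Function.Injective φ := φ.toRingHom.injective
  obtain ⟨h3, P, hP1, hP2⟩ := ArcIn_closed (k := k) (L := AlgebraicClosure L)
    (fun j i => φ (c j i)) A T hT (hind.map' hφ) i₀ e he hem
    (fun j => by rw [hj, ArcIn_map_dvd]; exact h1 j)
    (by rw [hj, ArcIn_map_dvd]; exact h2)
  refine ⟨h3, P, hP1, fun f μ n hf hn h => hP2 f μ n hf hn ?_⟩
  have h4 : (jetS fun j i => φ (c j i)) =
      fun j => PowerSeries.map (φ : L →+* AlgebraicClosure L) (jetS c j) := funext hj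
  rw [h4, ← ArcIn_map_aeval, ArcIn_map_dvd]
  exact h

theorem div_to_arc {k : Type u} [Field k] [CharZero k] (E : DivisorOver k (Fin 3))
    (hE : E.CenterZero) (A : ℕ) (hA : E.logDisc ≤ (((A : ℕ) : ℝ) : EReal)) (m : ℕ) :
    ∃ (i₀ : Fin 3) (e : ℕ), 0 < e ∧ E.ord (xx k i₀) = e ∧
      (∀ i, E.ord (xx k i₀) ≤ E.ord (xx k i)) ∧ 3 * e ≤ A ∧
      ∃ P : Fin 2 → PowerSeries (Om k), Cod k P (A - 3 * e) ∧
        ∀ (f : MvPolynomial (Fin 3) k) (μ n : ℕ), f ≠ 0 →
          (∀ d < μ, homogeneousComponent d f = 0) → n + e * μ ≤ m →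
          ((n + e * μ : ℕ) : ℤ) ≤ E.ord (toFF k (Fin 3) f) →
          (PowerSeries.X : PowerSeries (Om k)) ^ n ∣ ev P (cone i₀ e μ f) := by
  obtain ⟨i₀, -, hi₀⟩ := Finset.exists_min_image Finset.univ (fun i : Fin 3 => E.ord (xx k i))
    Finset.univ_nonempty
  have hmin : ∀ i, E.ord (xx k i₀) ≤ E.ord (xx k i) := fun i => hi₀ i (Finset.mem_univ i)
  obtain ⟨e, hoe⟩ := Int.eq_ofNat_of_zero_le (hE i₀).le
  have hoe' : E.ord (xx k i₀) = (e : ℤ) := hoe
  have he : 0 < e := by
    have := hE i₀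
    rw [hoe'] at this
    exact_mod_cast this
  obtain ⟨L, _, _, c, hc1, hc2, ⟨T, hT, hind⟩, -⟩ := exists_jetE E hE A hA (m + e) (by omega)
  rw [Fintype.card_fin] at hT
  obtain ⟨h3, P, hP1, hP2⟩ := jet_to_arc c A T hT hind i₀ e he (by omega)
    (fun j => by
      have h5 := hc1 (X j) (X_ne_zero j) e (by
        have h6 := hmin j
        rw [hoe'] at h6
        exact h6) (by omega)
      rwa [aeval_X] at h5)
    (by
      have h5 := hc2 (X i₀) (X_ne_zero i₀) e hoe' (by omega)
      rwa [aeval_X] at h5)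
  refine ⟨i₀, e, he, hoe', hmin, h3, P, hP1, fun f μ n hf0 hf hn ho => ?_⟩
  refine hP2 f μ n hf ?_ (hc1 f hf0 _ ho (by omega))
  have : n ≤ m := le_trans (Nat.le_add_right _ _) hn
  omega

end M3
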