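import Pool.Agent.MLD.ArcJac
import Pool.Agent.MLD.ArcDer
import Pool.Agent.MLD.ArcPs
import Pool.Agent.MLD.ArcExtD
import Pool.Agent.MLD.ArcGen
import Pool.Agent.MLD.ArcMin

/-!
Divisors from jets, with exact orders (copy of `Pool/Agent/MLD/ArcP3.lean` with one more conclusion: if
the order of `f` along the jet is at most `r ≤ m`, then `g * E.ord f ≤ r`).
-/

open MvPolynomial

namespace M3

open MLD

universe u

/-- coefficientwise application of an additive map -/
private theorem JetD_mk {L' : Type u} [Field L'] {m : ℕ} (δ : L' →+ L') (a : Fin m → L') (b : L')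
    (F : PowerSeries L')
    (hF : F = ∑ j, PowerSeries.C (a j) * (PowerSeries.X : PowerSeries L') ^ (j.val + 1)
      + PowerSeries.C b * PowerSeries.X ^ (m + 1)) :
    (PowerSeries.mk fun n => δ (PowerSeries.coeff n F)) =
      ∑ j, PowerSeries.C (δ (a j)) * (PowerSeries.X : PowerSeries L') ^ (j.val + 1)
        + PowerSeries.C (δ b) * PowerSeries.X ^ (m + 1) := by
  subst hF
  ext n
  rw [PowerSeries.coeff_mk, map_add, map_add, map_sum, map_add, map_sum, map_sum]
  congr 1
  · apply Finset.sum_congr rfl
    intro j _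
    rw [PowerSeries.coeff_C_mul_X_pow, PowerSeries.coeff_C_mul_X_pow]
    split_ifs
    · rfl
    · exact map_zero δ
  · rw [PowerSeries.coeff_C_mul_X_pow, PowerSeries.coeff_C_mul_X_pow]
    split_ifs
    · rfl
    · exact map_zero δ

/-- congruence of polynomial expressions -/
private theorem JetD_cong {k R : Type*} [Field k] [CommRing R] [Algebra k R] {σ : Type}
    (I : Ideal R) (x y : σ → R) (h : ∀ i, x i - y i ∈ I) (f : MvPolynomial σ k) :
    aeval x f - aeval y f ∈ I := by
  have h1 : (Ideal.Quotient.mkₐ k I) (aeval x f) = (Ideal.Quotient.mkₐ k I) (aeval y f) := by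
    rw [← AlgHom.comp_apply, ← AlgHom.comp_apply, comp_aeval, comp_aeval]
    congr 2
    funext i
    exact (Ideal.Quotient.mk_eq_mk_iff_sub_mem _ _).mpr (h i)
  exact (Ideal.Quotient.mk_eq_mk_iff_sub_mem _ _).mp h1

/-- extension of scalars of the jets -/
private theorem JetD_map {k L L' : Type u} [Field k] [Field L] [Field L'] [Algebra k L]
    [Algebra k L'] [Algebra L L'] [IsScalarTower k L L'] {σ : Type} {m : ℕ}
    (c : σ → Fin m → L) (f : MvPolynomial σ k) :
    aeval (jetS fun i j => algebraMap L L' (c i j)) f =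
      PowerSeries.map (algebraMap L L') (aeval (jetS c) f) := by
  have h1 : ∀ i, PowerSeries.map (algebraMap L L') (jetS c i) =
      jetS (fun i j => algebraMap L L' (c i j)) i := by
    intro i
    unfold jetS
    rw [map_sum]
    apply Finset.sum_congr rfl
    intro j _
    rw [map_mul, map_pow, PowerSeries.map_C, PowerSeries.map_X]
  induction f using MvPolynomial.induction_on with
  | C a =>
    rw [algHom_C, algHom_C]
    ext n
    rw [PowerSeries.coeff_map, PowerSeries.algebraMap_apply, PowerSeries.algebraMap_apply,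
      PowerSeries.coeff_C, PowerSeries.coeff_C]
    split_ifs
    · rw [IsScalarTower.algebraMap_apply k L L']
    · rw [map_zero]
  | add p q hp hq =>
    rw [map_add, map_add, map_add, hp, hq]
  | mul_X p i hp =>
    rw [map_mul, map_mul, map_mul, hp, aeval_X, aeval_X, h1]

theorem exists_divisor_of_jetE {k : Type u} [Field k] [CharZero k] {σ : Type} [Fintype σ]
    [DecidableEq σ] [Nonempty σ] {L : Type u} [Field L] [Algebra k L] {m : ℕ}
    (c : σ → Fin m → L) (A : ℕ) (T : Finset (σ × Fin m))
    (hT : Fintype.card σ * (m + 1) ≤ T.card + A)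
    (hind : AlgebraicIndependent k (fun t : T => c t.1.1 t.1.2)) :
    ∃ (E : DivisorOver k σ) (g A₁ : ℕ), 0 < g ∧ E.CenterZero ∧
      E.logDisc ≤ (((A₁ : ℕ) : ℝ) : EReal) ∧ g * A₁ ≤ A ∧
      (∀ f : MvPolynomial σ k, f ≠ 0 → ∀ r : ℕ, r ≤ m + 1 →
        (PowerSeries.X : PowerSeries L) ^ r ∣ aeval (jetS c) f →
        (r : ℤ) ≤ g * E.ord (toFF k σ f)) ∧
      ∀ f : MvPolynomial σ k, f ≠ 0 → ∀ r : ℕ, r ≤ m →
        ¬ (PowerSeries.X : PowerSeries L) ^ (r + 1) ∣ aeval (jetS c) f →
        g * E.ord (toFF k σ f) ≤ (r : ℤ) := by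
  classical
  -- the extension field and the series
  let L' : Type u := FF L σ
  let c' : σ → Fin m → L' := fun i j => algebraMap L L' (c i j)
  let xs : σ → PowerSeries L' := fun i =>
    jetS c' i + PowerSeries.C (xx L i : L') * PowerSeries.X ^ (m + 1)
  let j' : PowerSeries L' →+* VV L' := algebraMap (PowerSeries L') (VV L')
  have hj' : Function.Injective j' := IsFractionRing.injective (PowerSeries L') (VV L')
  have hxs : ∀ i, xs i = ∑ j, PowerSeries.C (c' i j) *
      (PowerSeries.X : PowerSeries L') ^ (j.val + 1)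
      + PowerSeries.C (xx L i : L') * PowerSeries.X ^ (m + 1) := fun i => rfl
  -- derivations of `L'`
  have hδ : ∀ t : T, ∃ δ : Derivation k L L, δ (c t.1.1 t.1.2) = 1 ∧
      ∀ s : T, s ≠ t → δ (c s.1.1 s.1.2) = 0 :=
    fun t => arc_der (fun t : T => c t.1.1 t.1.2) hind t
  choose δ hδ1 hδ2 using hδ
  let γ : T → σ → Fin m → L' := fun t i j => algebraMap L L' (δ t (c i j))
  have hγ : ∀ t t' : T, γ t t'.1.1 t'.1.2 = if t = t' then 1 else 0 := by
    intro t t'
    show algebraMap L L' (δ t (c t'.1.1 t'.1.2)) = _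
    split_ifs with h
    · rw [← h, hδ1, map_one]
    · rw [hδ2 t t' (fun h' => h h'.symm), map_zero]
  have hD' : ∀ x : T ⊕ σ, ∃ d : Derivation k L' L', ∀ i,
      (PowerSeries.mk fun n => d (PowerSeries.coeff n (xs i))) = arcG T γ x i := by
    rintro (t | i')
    · obtain ⟨d, -, hd2, hd3⟩ := exists_extDer (k := k) (L := L) (σ := σ) (δ t)
      refine ⟨d, fun i => ?_⟩
      have h1 := JetD_mk (d.toLinearMap.toAddMonoidHom) (c' i) (xx L i) (xs i) (hxs i)
      have h2 : ∀ a : L', d.toLinearMap.toAddMonoidHom a = d a := fun a => rfl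
      simp only [h2] at h1
      rw [h1, hd3, map_zero, zero_mul, add_zero]
      show _ = ∑ j, PowerSeries.C (γ t i j) * (PowerSeries.X : PowerSeries L') ^ (j.val + 1)
      apply Finset.sum_congr rfl
      intro j _
      rw [show d (c' i j) = γ t i j from hd2 (c i j)]
    · obtain ⟨d, hd⟩ := exists_zDer (k := k) (L := L) (σ := σ)
      obtain ⟨-, hd2, hd3⟩ := hd i'
      refine ⟨d i', fun i => ?_⟩
      have h1 := JetD_mk ((d i').toLinearMap.toAddMonoidHom) (c' i) (xx L i) (xs i) (hxs i)
      have h2 : ∀ a : L', (d i').toLinearMap.toAddMonoidHom a = d i' a := fun a => rfl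
      simp only [h2] at h1
      rw [h1, hd3]
      show _ = if i' = i then (PowerSeries.X : PowerSeries L') ^ (m + 1) else 0
      have h3 : ∑ j, PowerSeries.C (d i' (c' i j)) *
          (PowerSeries.X : PowerSeries L') ^ (j.val + 1) = 0 := by
        apply Finset.sum_eq_zero
        intro j _
        rw [show d i' (c' i j) = 0 from hd2 (c i j), map_zero, zero_mul]
      rw [h3, zero_add]
      split_ifs
      · rw [map_one, one_mul]
      · rw [map_zero, zero_mul]
  choose d' hd' using hD'
  have hDx : ∀ x : T ⊕ σ, ∃ D : Derivation k (VV L') (VV L'), CoefDer (d' x) D :=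
    fun x => exists_coefDer (d' x)
  choose Dx hDx using hDx
  have hDxs : ∀ x i, Dx x (j' (xs i)) = j' (arcG T γ x i) := by
    intro x i
    have h1 := hDx x (xs i)
    rw [hd' x i] at h1
    exact h1
  -- the minor
  obtain ⟨e, μ, hμ, hdet0, hord⟩ := arc_min T γ hγ
  have hmat : (Matrix.of fun a i => Dx (e a) (j' (xs i))).det =
      j' (Matrix.of fun a i => arcG T γ (e a) i).det := by
    rw [RingHom.map_det]
    congr 1
    ext a i
    exact hDxs (e a) i
  have hmat0 : (Matrix.of fun a i => Dx (e a) (j' (xs i))).det ≠ 0 := by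
    rw [hmat]
    exact (map_ne_zero_iff j' hj').mpr hdet0
  have hai : AlgebraicIndependent k (fun i => j' (xs i)) :=
    arc_jac_det (fun i => j' (xs i)) (fun a => Dx (e a)) hmat0
  -- the embedding
  let ι : FF k σ →ₐ[k] VV L' := IsFractionRing.liftAlgHom (g := aeval (fun i => j' (xs i))) hai
  have hι : ∀ f : MvPolynomial σ k, ι (toFF k σ f) = aeval (fun i => j' (xs i)) f := by
    intro f
    exact IsFractionRing.lift_algebraMap (K := FF k σ)
      (g := (aeval (fun i => j' (xs i)) : MvPolynomial σ k →ₐ[k] VV L').toRingHom) hai f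
  have hιx : ∀ i, ι (xx k i) = j' (xs i) := by
    intro i
    show ι (toFF k σ (X i)) = _
    rw [hι, aeval_X]
  have hιinj : Function.Injective ι := RingHom.injective (ι : FF k σ →+* VV L')
  have haevalj : ∀ f : MvPolynomial σ k, aeval (fun i => j' (xs i)) f = j' (aeval xs f) := by
    intro f
    have h1 := MvPolynomial.map_aeval (R := k) xs (j' : PowerSeries L' →+* VV L') f
    rw [h1, aeval_def]
    rfl
  obtain ⟨v, hv⟩ := exists_ordV (k := k) (L := L')
  -- positivity
  have hxX : ∀ i, (PowerSeries.X : PowerSeries L') ∣ xs i := by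
    intro i
    rw [hxs i]
    apply dvd_add
    · apply Finset.dvd_sum
      intro j _
      exact Dvd.dvd.mul_left (dvd_pow_self _ (Nat.succ_ne_zero _)) _
    · exact Dvd.dvd.mul_left (dvd_pow_self _ (Nat.succ_ne_zero _)) _
  have hpos : ∀ i, 0 < v.ord (ι (xx k i)) := by
    intro i
    have h1 : v.ge ((1 : ℕ) : ℤ) (j' (xs i)) := (ordV_ge hv (xs i) 1).mpr (by
      rw [pow_one]
      exact hxX i)
    have h2 : ι (xx k i) ≠ 0 := by
      rw [hιx]
      have h3 := hai.ne_zero i
      exact h3
    rw [← hιx] at h1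
    rcases h1 with h1 | h1
    · exact absurd h1 h2
    · push_cast at h1
      omega
  have hDge : ∀ (i : σ) (f : VV L'), f ≠ 0 → v.ge (v.ord f) (Dx (e i) f) :=
    fun i f hf => coefDer_ge hv (hDx (e i)) f hf
  have hmat' : (Matrix.of fun i j => Dx (e i) (ι (xx k j))) =
      (Matrix.of fun a i => Dx (e a) (j' (xs i))) := by
    ext a i
    show Dx (e a) (ι (xx k i)) = Dx (e a) (j' (xs i))
    rw [hιx]
  obtain ⟨E, g, A₁, hg, hE0, hEord, hElog, hEA⟩ := gen_divisor v ι hpos (fun i => Dx (e i)) hDge
    (by rw [hmat']; exact hmat0)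
  refine ⟨E, g, A₁, hg, hE0, hElog, ?_, ?_, ?_⟩
  · rw [hmat', hmat] at hEA
    have h1 := hv _ hdet0
    have h2 : v.ord (j' (Matrix.of fun a i => arcG T γ (e a) i).det) = (μ : ℤ) := by
      show v.ord (algebraMap (PowerSeries L') (VV L') _) = _
      rw [h1, hord]
      rfl
    rw [h2] at hEA
    have h3 : g * A₁ ≤ μ := by exact_mod_cast hEA
    omega
  · intro f hf r hr hdvd
    have hff0 : toFF k σ f ≠ 0 := by
      intro h0
      apply hf
      exact (IsFractionRing.injective (MvPolynomial σ k) (FF k σ)) (by rw [map_zero]; exact h0)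
    have h1 : (PowerSeries.X : PowerSeries L') ^ r ∣ aeval xs f := by
      have h2 : aeval xs f - aeval (jetS c') f ∈
          Ideal.span {(PowerSeries.X : PowerSeries L') ^ (m + 1)} := by
        apply JetD_cong
        intro i
        rw [Ideal.mem_span_singleton]
        have : xs i - jetS c' i = PowerSeries.C (xx L i : L') * PowerSeries.X ^ (m + 1) :=
          add_sub_cancel_left _ _
        rw [this]
        exact Dvd.intro_left _ rfl
      rw [Ideal.mem_span_singleton] at h2
      have h3 : (PowerSeries.X : PowerSeries L') ^ r ∣ aeval (jetS c') f := by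
        have h4 := map_dvd (PowerSeries.map (algebraMap L L')) hdvd
        rw [map_pow, PowerSeries.map_X, ← JetD_map (k := k) (L := L) (L' := L') c f] at h4
        exact h4
      have h5 : aeval xs f = (aeval xs f - aeval (jetS c') f) + aeval (jetS c') f := by ring
      rw [h5]
      exact dvd_add ((pow_dvd_pow _ hr).trans h2) h3
    have h2 := (ordV_ge hv (aeval xs f) r).mpr h1
    have h3 : ι (toFF k σ f) = algebraMap (PowerSeries L') (VV L') (aeval xs f) := by
      rw [hι, haevalj]
    rw [← h3] at h2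
    rw [← hEord _ hff0]
    rcases h2 with h2 | h2
    · exact absurd h2 ((map_ne_zero_iff ι hιinj).mpr hff0)
    · exact h2
  · intro f hf r hr hdvd
    have hff0 : toFF k σ f ≠ 0 := by
      intro h0
      apply hf
      exact (IsFractionRing.injective (MvPolynomial σ k) (FF k σ)) (by rw [map_zero]; exact h0)
    have h1 : ¬ (PowerSeries.X : PowerSeries L') ^ (r + 1) ∣ aeval xs f := by
      intro h1
      apply hdvd
      have h2 : aeval xs f - aeval (jetS c') f ∈
          Ideal.span {(PowerSeries.X : PowerSeries L') ^ (m + 1)} := by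
        apply JetD_cong
        intro i
        rw [Ideal.mem_span_singleton]
        have : xs i - jetS c' i = PowerSeries.C (xx L i : L') * PowerSeries.X ^ (m + 1) :=
          add_sub_cancel_left _ _
        rw [this]
        exact Dvd.intro_left _ rfl
      rw [Ideal.mem_span_singleton] at h2
      have h3 : (PowerSeries.X : PowerSeries L') ^ (r + 1) ∣ aeval (jetS c') f := by
        have h5 : aeval (jetS c') f = aeval xs f - (aeval xs f - aeval (jetS c') f) := by ring
        rw [h5]
        exact dvd_sub h1 ((pow_dvd_pow _ (Nat.succ_le_succ hr)).trans h2)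
      rw [JetD_map (k := k) (L := L) (L' := L') c f] at h3
      rw [PowerSeries.X_pow_dvd_iff] at h3 ⊢
      intro n hn
      have h4 := h3 n hn
      rw [PowerSeries.coeff_map] at h4
      exact (map_eq_zero _).1 h4
    by_contra hlt
    rw [not_le] at hlt
    apply h1
    have h3 : ι (toFF k σ f) = algebraMap (PowerSeries L') (VV L') (aeval xs f) := by
      rw [hι, haevalj]
    have h2 : v.ge ((r + 1 : ℕ) : ℤ) (algebraMap (PowerSeries L') (VV L') (aeval xs f)) := by
      rw [← h3]
      right
      rw [hEord _ hff0]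
      push_cast
      omega
    exact (ordV_ge hv (aeval xs f) (r + 1)).mp h2

end M3
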