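import Pool.Agent.M3.Cone
import Pool.Agent.M3.Param
import Pool.Agent.M3.CodB
import Pool.Agent.M3.JetD

/-!
PIECE M3-X04: from arcs in the polydisc to divisors over `A^3`.

PROOF. Let `M ≥ 1`, `M > m` (so `n ≤ m < M`), `m' := M + e - 1`. `L' := FractionRing (MvPolynomial (Fin M) L)`,
`v_n := X n`, `T := ∑ n < M, v_n X^n` (so `T(0) ≠ 0`), `v := X T`, `p_j` := truncation of `P j` at order `M`
(polynomial over `L'`). `θ := Polynomial.aeval v : L'[Y] → L'[[X]]`.
`γ_{i₀} := v^e = θ(Y^e)`, `γ_{i₀.succAbove j} := v^e p_j(v) = θ(Y^e p_j)`. Jets: `c j n := coeff (n+1) (γ j)`, `n < m'`;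
`jetS c j ≡ γ j` modulo `X^(m'+1)`. For `f`: the polynomial `g := aeval (i₀.insertNth (Y^e) (Y^e p_j)) f`
is, as a power series, `X^(e μ) * ev p (cone i₀ e μ f)` (`cone_ev`), divisible by `X^(e μ + n)` if
`X^n ∣ ev P (cone ..)` (`ev_congr`, `n ≤ M`; and the map `L → L'`: `ev_map`). So `Y^(e μ + n) ∣ g` and
`X^(e μ + n) ∣ θ g = aeval γ f`. So for `n + e μ ≤ m ≤ m' + 1`: `X^(n + e μ) ∣ aeval (jetS c) f`, and
`exists_divisor_of_jet` applies with `A = C + 3 e`.
COUNT: `CodLe k P M C` gives `S ⊆ Fin 2 × Fin M`, `2 M ≤ S.card + C`. The family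
`Fin M ⊕ (Fin 2 × Fin M) → L'` of the `v_n` and the coefficients of `P`; the subset of all `v_n` and `S` is
algebraically independent over `k` (`v` is independent over `L`). All these elements are algebraic
over `k(c)`: `K := ` the algebraic closure of `IntermediateField.adjoin k (range c)` in `L'`
(as intermediate field of `L'/k`): coefficients of `T^e` (`γ_{i₀} = X^e T^e`) at `n < M` are `c i₀ (n+e-1)`;
`v_0^e ∈ K`, so `v_0 ∈ K`; `coeffs_of_pow` gives `v_n ∈ K`; `coeffs_of_comp` (with
`T^e p_j(X T) = γ_j / X^e`) gives that the coefficients of `p_j` are in `K`. `alg_exchange` gives a subset `T₀` of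
`Fin 3 × Fin m'` with at least `M + 2 M - C` elements, independent. `3 (m'+1) = 3 M + 3 e ≤ T₀.card + C + 3 e`.
-/

open MvPolynomial

namespace M3

open MLD

universe u

private theorem ArcOut_hom {k A B : Type*} [CommRing k] [CommRing A] [CommRing B] [Algebra k A]
    [Algebra k B] {σ : Type*} (φ : A →+* B) (hφ : ∀ a : k, φ (algebraMap k A a) = algebraMap k B a)
    (x : σ → A) (f : MvPolynomial σ k) : φ (aeval x f) = aeval (fun i => φ (x i)) f := by
  induction f using MvPolynomial.induction_on with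
  | C a => rw [aeval_C, aeval_C, hφ]
  | add p q hp hq => rw [map_add, map_add, map_add, hp, hq]
  | mul_X p i hp => rw [map_mul, map_mul, map_mul, hp, aeval_X, aeval_X]

private theorem ArcOut_cong {k R : Type*} [CommRing k] [CommRing R] [Algebra k R] {σ : Type*}
    {d : R} (x y : σ → R) (h : ∀ i, d ∣ x i - y i) (f : MvPolynomial σ k) :
    d ∣ aeval x f - aeval y f := by
  induction f using MvPolynomial.induction_on with
  | C a => rw [aeval_C, aeval_C, sub_self]; exact dvd_zero _
  | add p q hp hq =>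
    rw [map_add, map_add, add_sub_add_comm]
    exact dvd_add hp hq
  | mul_X p j hp =>
    rw [map_mul, map_mul, aeval_X, aeval_X]
    have : aeval x p * x j - aeval y p * y j =
        (aeval x p - aeval y p) * x j + aeval y p * (x j - y j) := by ring
    rw [this]
    exact dvd_add (Dvd.dvd.mul_right hp _) (Dvd.dvd.mul_left (h j) _)

private theorem ArcOut_ins {A B : Type*} (φ : A → B) (i₀ : Fin 3) (a : A) (b : Fin 2 → A) :
    (fun i => φ (i₀.insertNth (α := fun _ => A) a b i)) =
      i₀.insertNth (α := fun _ => B) (φ a) (fun j => φ (b j)) := by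
  funext i
  refine Fin.succAboveCases i₀ ?_ (fun j => ?_) i
  · rw [Fin.insertNth_apply_same, Fin.insertNth_apply_same]
  · rw [Fin.insertNth_apply_succAbove, Fin.insertNth_apply_succAbove]

/-- the divisibility of the values at the new arc -/
private theorem ArcOut_dvd {k : Type u} [Field k] {K : Type u} [Field K] [Algebra k K]
    (i₀ : Fin 3) {e μ n : ℕ} (he : 0 < e) (p : Fin 2 → Polynomial K) (vv : PowerSeries K)
    (hv : (PowerSeries.X : PowerSeries K) ∣ vv) (f : MvPolynomial (Fin 3) k)
    (hf : ∀ d < μ, homogeneousComponent d f = 0)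
    (h : (PowerSeries.X : PowerSeries K) ^ n ∣
      ev (fun j => ((p j : Polynomial K) : PowerSeries K)) (cone i₀ e μ f)) :
    (PowerSeries.X : PowerSeries K) ^ (n + e * μ) ∣
      aeval (i₀.insertNth (α := fun _ => PowerSeries K) (vv ^ e)
        (fun j => vv ^ e * Polynomial.aeval vv (p j))) f := by
  obtain ⟨q, hq⟩ : ∃ q : Polynomial K, q = aeval (i₀.insertNth (α := fun _ => Polynomial K)
    (Polynomial.X ^ e) (fun j => Polynomial.X ^ e * p j)) f := ⟨_, rfl⟩
  have h1 : ((q : Polynomial K) : PowerSeries K) =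
      PowerSeries.X ^ (e * μ) * ev (fun j => ((p j : Polynomial K) : PowerSeries K))
        (cone i₀ e μ f) := by
    rw [← cone_ev i₀ he f hf, hq]
    have h2 := ArcOut_hom (k := k) (Polynomial.coeToPowerSeries.ringHom : Polynomial K →+* PowerSeries K) (fun a => by
      rw [Polynomial.coeToPowerSeries.ringHom_apply, Polynomial.algebraMap_apply,
        Polynomial.coe_C, PowerSeries.algebraMap_apply])
      (i₀.insertNth (α := fun _ => Polynomial K) (Polynomial.X ^ e)
        (fun j => Polynomial.X ^ e * p j)) f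
    rw [ArcOut_ins, Polynomial.coeToPowerSeries.ringHom_apply] at h2
    rw [h2]
    congr 2
    simp only [Polynomial.coeToPowerSeries.ringHom_apply, Polynomial.coe_pow, Polynomial.coe_mul,
      Polynomial.coe_X]
  have h2 : (PowerSeries.X : PowerSeries K) ^ (n + e * μ) ∣ ((q : Polynomial K) : PowerSeries K) := by
    rw [h1, add_comm, pow_add]
    exact mul_dvd_mul_left _ h
  have h3 : (Polynomial.X : Polynomial K) ^ (n + e * μ) ∣ q := by
    rw [Polynomial.X_pow_dvd_iff]
    rw [PowerSeries.X_pow_dvd_iff] at h2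
    intro d hd
    have h4 := h2 d hd
    rwa [Polynomial.coeff_coe] at h4
  have h4 : aeval (i₀.insertNth (α := fun _ => PowerSeries K) (vv ^ e)
        (fun j => vv ^ e * Polynomial.aeval vv (p j))) f = Polynomial.aeval vv q := by
    have h5 := ArcOut_hom (k := k) (Polynomial.aeval vv : Polynomial K →ₐ[K] PowerSeries K).toRingHom
      (fun a => by
        change Polynomial.aeval vv (algebraMap k (Polynomial K) a) = _
        rw [Polynomial.algebraMap_apply, Polynomial.aeval_C, PowerSeries.algebraMap_apply,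
          PowerSeries.algebraMap_apply]
        rfl)
      (i₀.insertNth (α := fun _ => Polynomial K) (Polynomial.X ^ e)
        (fun j => Polynomial.X ^ e * p j)) f
    have e1 : (Polynomial.aeval vv : Polynomial K →ₐ[K] PowerSeries K).toRingHom
        (Polynomial.X ^ e) = vv ^ e := by
      change Polynomial.aeval vv (Polynomial.X ^ e) = _
      rw [map_pow, Polynomial.aeval_X]
    have e2 : (fun j => (Polynomial.aeval vv : Polynomial K →ₐ[K] PowerSeries K).toRingHom
        (Polynomial.X ^ e * p j)) = fun j => vv ^ e * Polynomial.aeval vv (p j) := by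
      funext j
      change Polynomial.aeval vv (Polynomial.X ^ e * p j) = _
      rw [map_mul, map_pow, Polynomial.aeval_X]
    rw [ArcOut_ins, ← hq, e1, e2] at h5
    exact h5.symm
  rw [h4]
  obtain ⟨q', rfl⟩ := h3
  rw [map_mul, map_pow, Polynomial.aeval_X]
  exact Dvd.dvd.mul_right (pow_dvd_pow_of_dvd hv _) _

/-- the coefficients of the parameter and of the arc are algebraic over the new coefficients -/
private theorem ArcOut_alg {k K : Type*} [Field k] [Field K] [CharZero K] [Algebra k K]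
    (i₀ : Fin 3) {e M m' : ℕ} (he : 0 < e) (hM : 0 < M) (hm' : m' + 1 = M + e)
    (T : PowerSeries K) (hT : PowerSeries.coeff 0 T ≠ 0) (p : Fin 2 → Polynomial K)
    (γ : Fin 3 → PowerSeries K) (hγ0 : γ i₀ = PowerSeries.X ^ e * T ^ e)
    (hγ1 : ∀ j, γ (i₀.succAbove j) =
      PowerSeries.X ^ e * (T ^ e * Polynomial.aeval (PowerSeries.X * T) (p j)))
    (x : Fin 3 × Fin m' → K) (hx : ∀ i (n : Fin m'), x (i, n) = PowerSeries.coeff (n.val + 1) (γ i)) :
    (∀ n < M, IsAlgebraic (IntermediateField.adjoin k (Set.range x)) (PowerSeries.coeff n T)) ∧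
    ∀ j, ∀ n < M, IsAlgebraic (IntermediateField.adjoin k (Set.range x)) ((p j).coeff n) := by
  obtain ⟨Ka, hKa⟩ : ∃ Ka : IntermediateField k K, ∀ a, a ∈ Ka ↔
      IsAlgebraic (IntermediateField.adjoin k (Set.range x)) a :=
    ⟨(algebraicClosure (IntermediateField.adjoin k (Set.range x)) K).restrictScalars k,
      fun a => mem_algebraicClosure_iff⟩
  have hmem : ∀ i n, n < m' → PowerSeries.coeff (n + 1) (γ i) ∈ Ka := by
    intro i n hn
    have h1 := hx i ⟨n, hn⟩
    have h2 : PowerSeries.coeff (n + 1) (γ i) = x (i, ⟨n, hn⟩) := h1.symm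
    rw [h2, hKa]
    exact isAlgebraic_algebraMap (⟨x (i, ⟨n, hn⟩),
      IntermediateField.subset_adjoin _ _ ⟨_, rfl⟩⟩ : IntermediateField.adjoin k (Set.range x))
  have hcf : ∀ i (F : PowerSeries K), γ i = PowerSeries.X ^ e * F → ∀ n < M,
      PowerSeries.coeff n F ∈ Ka := by
    intro i F hF n hn
    have h1 := hmem i (n + e - 1) (by omega)
    have h2 : n + e - 1 + 1 = n + e := by omega
    rw [h2, hF, PowerSeries.coeff_X_pow_mul] at h1
    exact h1
  have hTe := hcf i₀ (T ^ e) hγ0
  have hT0 : PowerSeries.coeff 0 T ∈ Ka := by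
    have h1 := hTe 0 hM
    rw [PowerSeries.coeff_zero_eq_constantCoeff_apply, map_pow, hKa] at h1
    rw [PowerSeries.coeff_zero_eq_constantCoeff_apply, hKa]
    exact IsAlgebraic.of_pow he h1
  have hTK := coeffs_of_pow Ka e M he T hT hT0 hTe
  refine ⟨fun n hn => (hKa _).1 (hTK n hn), fun j n hn => (hKa _).1 ?_⟩
  exact coeffs_of_comp Ka e M T hT hTK (p j) (hcf _ _ (hγ1 j)) n hn

private theorem ArcOut_jet {K : Type*} [Field K] {m' : ℕ} (c : Fin 3 → Fin m' → K)
    (γ : Fin 3 → PowerSeries K) (h0 : ∀ i, PowerSeries.coeff 0 (γ i) = 0)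
    (hc : ∀ i n, c i n = PowerSeries.coeff (n.val + 1) (γ i)) (i : Fin 3) :
    (PowerSeries.X : PowerSeries K) ^ (m' + 1) ∣ jetS c i - γ i := by
  rw [PowerSeries.X_pow_dvd_iff]
  intro n hn
  rw [map_sub]
  unfold jetS
  rw [map_sum]
  simp only [PowerSeries.coeff_C_mul_X_pow]
  rcases Nat.eq_zero_or_pos n with hn0 | hn0
  · subst hn0
    rw [h0, sub_zero]
    exact Finset.sum_eq_zero fun j _ => if_neg (by omega)
  · obtain ⟨j, rfl⟩ : ∃ j, n = j + 1 := ⟨n - 1, by omega⟩
    rw [Finset.sum_eq_single (⟨j, by omega⟩ : Fin m')]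
    · rw [if_pos rfl, hc, sub_self]
    · intro b _ hb
      refine if_neg fun h => hb ?_
      apply Fin.ext
      simp only
      omega
    · intro h
      exact absurd (Finset.mem_univ _) h

theorem arc_to_div {k : Type u} [Field k] [CharZero k] {L : Type u} [Field L] [Algebra k L]
    (i₀ : Fin 3) (e : ℕ) (he : 0 < e) (m : ℕ) (P : Fin 2 → PowerSeries L) (C : ℕ)
    (hP : CodLe k P (m + 1) C) :
    ∃ (E : DivisorOver k (Fin 3)) (g A₁ : ℕ), 0 < g ∧ E.CenterZero ∧
      E.ordI (mm k (Fin 3)) ≤ e ∧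
      E.logDisc ≤ (((A₁ : ℕ) : ℝ) : EReal) ∧ g * A₁ ≤ C + 3 * e ∧
      ∀ (f : MvPolynomial (Fin 3) k) (μ n : ℕ), f ≠ 0 →
        (∀ d < μ, homogeneousComponent d f = 0) → n + e * μ ≤ m →
        (PowerSeries.X : PowerSeries L) ^ n ∣ ev P (cone i₀ e μ f) →
        ((n + e * μ : ℕ) : ℤ) ≤ g * E.ord (toFF k (Fin 3) f) := by
  classical
  obtain ⟨S, hS, hSi⟩ := hP
  let R := MvPolynomial (Fin (m + 1)) L
  let K : Type u := FractionRing R
  have ht : IsScalarTower k L K := inferInstance
  have hchL : CharZero L := charZero_of_injective_algebraMap (algebraMap k L).injective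
  have hch : CharZero K := charZero_of_injective_algebraMap (algebraMap L K).injective
  let v : Fin (m + 1) → K := fun i => algebraMap R K (X i)
  have hv : AlgebraicIndependent L v := by
    have h1 : AlgebraicIndependent L (X : Fin (m + 1) → R) :=
      MvPolynomial.algebraicIndependent_X _ _
    exact h1.map' (f := IsScalarTower.toAlgHom L R K) (IsFractionRing.injective R K)
  let T : PowerSeries K := PowerSeries.mk fun n => if h : n < m + 1 then v ⟨n, h⟩ else 0
  have hTc : ∀ n (h : n < m + 1), PowerSeries.coeff n T = v ⟨n, h⟩ := by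
    intro n h
    simp only [T, PowerSeries.coeff_mk, dif_pos h]
  have hT0 : PowerSeries.coeff 0 T ≠ 0 := by
    rw [hTc 0 (Nat.succ_pos m)]
    exact hv.ne_zero _
  let p : Fin 2 → Polynomial K := fun j =>
    (PowerSeries.trunc (m + 1) (P j)).map (algebraMap L K)
  have hpc : ∀ j n, n < m + 1 → (p j).coeff n = algebraMap L K (PowerSeries.coeff n (P j)) := by
    intro j n hn
    simp only [p, Polynomial.coeff_map, PowerSeries.coeff_trunc, if_pos hn]
  let vv : PowerSeries K := PowerSeries.X * T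
  let γ : Fin 3 → PowerSeries K := i₀.insertNth (α := fun _ => PowerSeries K) (vv ^ e)
    (fun j => vv ^ e * Polynomial.aeval vv (p j))
  have hγ0 : γ i₀ = PowerSeries.X ^ e * T ^ e := by
    simp only [γ, vv]
    rw [Fin.insertNth_apply_same, mul_pow]
  have hγ1 : ∀ j, γ (i₀.succAbove j) =
      PowerSeries.X ^ e * (T ^ e * Polynomial.aeval (PowerSeries.X * T) (p j)) := by
    intro j
    simp only [γ, vv]
    rw [Fin.insertNth_apply_succAbove, mul_pow, mul_assoc]
  let c : Fin 3 → Fin (m + e) → K := fun i n => PowerSeries.coeff (n.val + 1) (γ i)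
  have hx0 : ∀ F : PowerSeries K, PowerSeries.coeff 0 (PowerSeries.X ^ e * F) = 0 := by
    intro F
    rw [PowerSeries.coeff_zero_eq_constantCoeff_apply, map_mul, map_pow,
      PowerSeries.constantCoeff_X, zero_pow he.ne', zero_mul]
  have h0 : ∀ i, PowerSeries.coeff 0 (γ i) = 0 := by
    intro i
    refine Fin.succAboveCases i₀ ?_ (fun j => ?_) i
    · rw [hγ0, hx0]
    · rw [hγ1, hx0]
  obtain ⟨ha1, ha2⟩ := ArcOut_alg (k := k) i₀ he (Nat.succ_pos m) (m' := m + e) (by omega) T hT0 p
    γ hγ0 hγ1 (fun s => c s.1 s.2) (fun i n => rfl)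
  -- the independent family
  have hy := hSi.sumElim_comp hv
  let y : Fin (m + 1) ⊕ (Fin 2 × Fin (m + 1)) → K :=
    Sum.elim v (fun s => algebraMap L K (PowerSeries.coeff s.2.val (P s.1)))
  let T' : Finset (Fin (m + 1) ⊕ (Fin 2 × Fin (m + 1))) := Finset.univ.disjSum S
  have hT'i : AlgebraicIndependent k (fun t : T' => y t) := by
    have hT'1 : ∀ t : T', ∀ s, t.1 = Sum.inr s → s ∈ S := by
      intro t s hs
      have h1 := t.2
      rw [hs] at h1
      exact Finset.inr_mem_disjSum.1 h1
    let g : T' → Fin (m + 1) ⊕ S := fun t => match h : t.1 with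
      | Sum.inl i => Sum.inl i
      | Sum.inr s => Sum.inr ⟨s, hT'1 t s h⟩
    have hg : ∀ t : T', Sum.map id Subtype.val (g t) = t.1 := by
      rintro ⟨t, ht⟩
      rcases t with i | s <;> rfl
    have hginj : Function.Injective g := by
      intro a b hab
      apply Subtype.ext
      rw [← hg a, ← hg b, hab]
    have h1 := hy.comp g hginj
    have h2 : (fun t : T' => y t) = (Sum.elim v ((algebraMap L K) ∘ fun t : S =>
        PowerSeries.coeff t.1.2.val (P t.1.1))) ∘ g := by
      funext t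
      have h3 : ∀ w : Fin (m + 1) ⊕ S, y (Sum.map id Subtype.val w) = Sum.elim v
          ((algebraMap L K) ∘ fun t : S => PowerSeries.coeff t.1.2.val (P t.1.1)) w := by
        rintro (i | s) <;> rfl
      exact (congrArg y (hg t)).symm.trans (h3 (g t))
    rw [h2]
    exact h1
  obtain ⟨T₀, hT₀, hT₀i⟩ := alg_exchange (k := k) (fun s : Fin 3 × Fin (m + e) => c s.1 s.2) y
    (by
      rintro (i | s)
      · have h1 := ha1 i.val i.2
        rw [hTc i.val i.2] at h1
        exact h1
      · have h1 := ha2 s.1 s.2.val s.2.2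
        rw [hpc _ _ s.2.2] at h1
        exact h1) T' hT'i
  have hcard : T'.card = (m + 1) + S.card := by
    rw [Finset.card_disjSum, Finset.card_univ, Fintype.card_fin]
  obtain ⟨E, g, A₁, h1, h2, h3, h4, h5, h5'⟩ := exists_divisor_of_jetE (k := k) (σ := Fin 3) (L := K)
    c (C + 3 * e) T₀ (by rw [Fintype.card_fin]; omega) hT₀i
  refine ⟨E, g, A₁, h1, h2, ?_, h3, h4, fun f μ n hf hhom hn hdiv => ?_⟩
  · have hjet := ArcOut_jet c γ h0 (fun i n => rfl) i₀
    have hnd : ¬ (PowerSeries.X : PowerSeries K) ^ (e + 1) ∣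
        aeval (jetS c) (X i₀ : MvPolynomial (Fin 3) k) := by
      rw [aeval_X]
      intro hdv
      have h6 := (pow_dvd_pow (PowerSeries.X : PowerSeries K)
        (show e + 1 ≤ m + e + 1 by omega)).trans hjet
      have h7 := (dvd_sub_right hdv).1 h6
      rw [hγ0, pow_succ] at h7
      have h8 := (mul_dvd_mul_iff_left (pow_ne_zero e PowerSeries.X_ne_zero)).1 h7
      rw [PowerSeries.X_dvd_iff, map_pow] at h8
      apply hT0
      rw [PowerSeries.coeff_zero_eq_constantCoeff_apply]
      exact eq_zero_of_pow_eq_zero h8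
    have h6 := h5' (X i₀) (X_ne_zero i₀) e (by omega) hnd
    have h7 : ((E.ordI (mm k (Fin 3)) : ℕ) : ℤ) ≤ E.ord (toFF k (Fin 3) (X i₀)) :=
      ordI_le E (Ideal.subset_span ⟨i₀, rfl⟩) (X_ne_zero i₀)
    have h8 : (1 : ℤ) ≤ g := by exact_mod_cast h1
    have h9 : (0 : ℤ) ≤ E.ord (toFF k (Fin 3) (X i₀)) := E.ord_poly' _ (X_ne_zero i₀)
    have h10 : E.ord (toFF k (Fin 3) (X i₀)) ≤ (g : ℤ) * E.ord (toFF k (Fin 3) (X i₀)) :=
      le_mul_of_one_le_left h9 h8
    omega
  refine h5 f hf (n + e * μ) (by omega) ?_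
  -- the value at the new arc
  have h6 : (PowerSeries.X : PowerSeries K) ^ n ∣
      ev (fun j => ((p j : Polynomial K) : PowerSeries K)) (cone i₀ e μ f) := by
    have h7 : (PowerSeries.X : PowerSeries K) ^ n ∣
        ev (fun j => PowerSeries.map (algebraMap L K) (P j)) (cone i₀ e μ f) := by
      have h8 := ev_map (IsScalarTower.toAlgHom k L K) P (cone i₀ e μ f)
      have h9 : (PowerSeries.X : PowerSeries K) ^ n ∣
          PowerSeries.map ((IsScalarTower.toAlgHom k L K : L →ₐ[k] K) : L →+* K)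
            (ev P (cone i₀ e μ f)) := by
        obtain ⟨w, hw⟩ := hdiv
        rw [hw, map_mul, map_pow, PowerSeries.map_X]
        exact Dvd.intro _ rfl
      rw [h8] at h9
      exact h9
    have h8 : ∀ j, (PowerSeries.X : PowerSeries K) ^ (m + 1) ∣
        ((p j : Polynomial K) : PowerSeries K) - PowerSeries.map (algebraMap L K) (P j) := by
      intro j
      rw [PowerSeries.X_pow_dvd_iff]
      intro i hi
      rw [map_sub, Polynomial.coeff_coe, hpc j i hi, PowerSeries.coeff_map, sub_self]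
    have h9 := (pow_dvd_pow (PowerSeries.X : PowerSeries K) (show n ≤ m + 1 by omega)).trans
      (ev_congr h8 (cone i₀ e μ f))
    exact (dvd_sub_left h7).1 h9
  have h7 := ArcOut_dvd i₀ he p vv (Dvd.intro _ rfl) f hhom h6
  have h8 := ArcOut_cong (jetS c) γ (ArcOut_jet c γ h0 (fun i n => rfl)) f
  have h9 := (pow_dvd_pow (PowerSeries.X : PowerSeries K)
    (show n + e * μ ≤ m + e + 1 by omega)).trans h8
  exact (dvd_sub_left h7).1 h9

end M3
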