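import Pool.Agent.M3.Tay

/-!
PIECE M3-B04: division by a function with linear residue.

PROOF. By symmetry let `q ≠ 0` (exchange the coordinates otherwise).
(1) Every `F : AA L` is `G * F' + R` with `R` a function of `x_0` only (`mc R e = 0` for `e 1 ≠ 0`): construct
`F'_n`, `R_n` (the coefficients of `τ^n`) recursively: dividing the polynomial
`coeff n F - ∑_(i ≥ 1) coeff i G * F'_(n-i)` by `C p * X 0 + C q * X 1 + C s` (linear in `X 1` with unit leading coefficient
`q`) gives quotient `F'_n` and remainder `R_n`, a polynomial in `X 0` only.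
(2) Let `D F := dA 0 F * dA 1 G - dA 1 F * dA 0 G`.  `D` is a derivation, `D G = 0`, so `D^n F = G * D^n F' + D^n R` and
`ev S (D^n R) = 0` for all `n`.  `D R = dA 0 R * G_1`, `G_1 := dA 1 G`.  By induction
`D^n R = G_1^n * (dA 0)^n R + ∑_(m < n) A_(n,m) * (dA 0)^m R` with some functions `A_(n,m)` (`D` of a function of the form
`A * (dA 0)^m R` is `D A * (dA 0)^m R + A * G_1 * (dA 0)^(m+1) R`, because `(dA 0)^m R` depends on `x_0` only).  So by
induction `ev S ((dA 0)^n R) = 0` for all `n` (`ev S G_1` has the constant coefficient `q ≠ 0`).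
(3) `R = 0`: otherwise `R = X^t * R₁`, `coeff 0 R₁ ≠ 0` a polynomial in `X 0` of degree `d`, `coeff 0 ((dA 0)^d R₁)` is a
nonzero constant (characteristic zero), so `ev S ((dA 0)^d R) ≠ 0`.  So `G ∣ F`.

`exists_max_pow`: `F = X^t * F₁` with `coeff 0 F₁ ≠ 0`.  If `G^B ∣ F` then `G^B ∣ F₁`: `AA L` is a domain, `X` is prime in it
and does not divide `G`.  So `(coeff 0 G)^B ∣ coeff 0 F₁ ≠ 0`, and `coeff 0 G` has degree one: `B ≤` the total degree.

`unit_iff`: a power series is a unit iff its constant coefficient is (`PowerSeries.isUnit_iff_constantCoeff`).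
-/

open MvPolynomial

namespace M3

universe u

set_option linter.unusedSectionVars false

section
variable {L : Type u} [Field L] [CharZero L]

/-- the derivation `F ↦ F_x G_y - F_y G_x` -/
noncomputable def jacA (G F : AA L) : AA L := dA 0 F * dA 1 G - dA 1 F * dA 0 G

private theorem divG_dA_zero (j : Fin 2) : dA j (0 : AA L) = 0 := by
  have h := dA_add j (0 : AA L) 0
  rw [add_zero] at h
  exact left_eq_add.mp h

private theorem jacA_add (G F H : AA L) : jacA G (F + H) = jacA G F + jacA G H := by
  unfold jacA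
  rw [dA_add, dA_add]
  ring

private theorem jacA_mul (G F H : AA L) : jacA G (F * H) = jacA G F * H + F * jacA G H := by
  unfold jacA
  rw [dA_mul, dA_mul]
  ring

private theorem jacA_self (G : AA L) : jacA G G = 0 := by
  unfold jacA
  ring

private theorem jacA_zero (G : AA L) : jacA G 0 = 0 := by
  unfold jacA
  rw [divG_dA_zero, divG_dA_zero]
  ring

/-- vanishing of the first derivatives -/
private def DVan (G : AA L) (S : Fin 2 → PowerSeries L) : ℕ → AA L → Prop
  | 0, H => ev S H = 0
  | n + 1, H => ev S H = 0 ∧ DVan G S n (jacA G H)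

private theorem DVan.val {G : AA L} {S : Fin 2 → PowerSeries L} {n : ℕ} {H : AA L}
    (h : DVan G S n H) : ev S H = 0 := by
  cases n with
  | zero => exact h
  | succ n => exact h.1

private theorem DVan.mono {G : AA L} {S : Fin 2 → PowerSeries L} {n : ℕ} :
    ∀ {H : AA L}, DVan G S (n + 1) H → DVan G S n H := by
  induction n with
  | zero => intro H h; exact h.1
  | succ n ih => intro H h; exact ⟨h.1, ih h.2⟩

private theorem DVan.add {G : AA L} {S : Fin 2 → PowerSeries L} {n : ℕ} :
    ∀ {H K : AA L}, DVan G S n H → DVan G S n K → DVan G S n (H + K) := by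
  induction n with
  | zero =>
    intro H K h1 h2
    show ev S (H + K) = 0
    rw [ev_add, DVan.val h1, DVan.val h2, add_zero]
  | succ n ih =>
    intro H K h1 h2
    refine ⟨?_, ?_⟩
    · rw [ev_add, h1.1, h2.1, add_zero]
    · rw [jacA_add]
      exact ih h1.2 h2.2

private theorem DVan.mul {G : AA L} {S : Fin 2 → PowerSeries L} {n : ℕ} :
    ∀ {H : AA L} (A : AA L), DVan G S n H → DVan G S n (A * H) := by
  induction n with
  | zero =>
    intro H A h1
    show ev S (A * H) = 0
    rw [ev_mul, DVan.val h1, mul_zero]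
  | succ n ih =>
    intro H A h1
    refine ⟨?_, ?_⟩
    · rw [ev_mul, h1.1, mul_zero]
    · rw [jacA_mul]
      exact DVan.add (ih _ h1.mono) (ih _ h1.2)

private theorem DVan.neg {G : AA L} {S : Fin 2 → PowerSeries L} {n : ℕ} {H : AA L}
    (h : DVan G S n H) : DVan G S n (-H) := by
  rw [neg_eq_neg_one_mul]
  exact h.mul _

private theorem DVan.cancel {G : AA L} {S : Fin 2 → PowerSeries L} {w : AA L}
    (hw : ev S w ≠ 0) {n : ℕ} : ∀ {H : AA L}, DVan G S n (w * H) → DVan G S n H := by
  induction n with
  | zero =>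
    intro H h
    have h1 := DVan.val h
    rw [ev_mul] at h1
    exact (mul_eq_zero.1 h1).resolve_left hw
  | succ n ih =>
    intro H h
    have h1 : DVan G S n H := ih h.mono
    refine ⟨h1.val, ih ?_⟩
    have h2 := h.2
    rw [jacA_mul] at h2
    have h3 : w * jacA G H = (jacA G w * H + w * jacA G H) + -(jacA G w * H) := by ring
    rw [h3]
    exact h2.add (h1.mul _).neg

private theorem DVan.of_all {G : AA L} {S : Fin 2 → PowerSeries L} {n : ℕ} :
    ∀ {H : AA L}, (∀ m : ℕ, ev S ((jacA G)^[m] H) = 0) → DVan G S n H := by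
  induction n with
  | zero => intro H h; exact h 0
  | succ n ih =>
    intro H h
    exact ⟨h 0, ih fun m => by rw [← Function.iterate_succ_apply]; exact h (m + 1)⟩

private theorem DVan.self_mul {G : AA L} {S : Fin 2 → PowerSeries L} (hS : ev S G = 0) {n : ℕ} :
    ∀ (A : AA L), DVan G S n (G * A) := by
  induction n with
  | zero =>
    intro A
    show ev S (G * A) = 0
    rw [ev_mul, hS, zero_mul]
  | succ n ih =>
    intro A
    refine ⟨by rw [ev_mul, hS, zero_mul], ?_⟩
    rw [jacA_mul, jacA_self, zero_mul, zero_add]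
    exact ih _

/-- functions of one variable -/
private noncomputable def iotaF (i : Fin 2) (r : PowerSeries (Polynomial L)) : AA L :=
  PowerSeries.map (Polynomial.aeval (X i : MvPolynomial (Fin 2) L)).toRingHom r

private theorem coeff_iotaF (i : Fin 2) (r : PowerSeries (Polynomial L)) (n : ℕ) :
    PowerSeries.coeff n (iotaF i r) =
      Polynomial.aeval (X i : MvPolynomial (Fin 2) L) (PowerSeries.coeff n r) := by
  unfold iotaF
  rw [PowerSeries.coeff_map]
  rfl

private noncomputable def derF (r : PowerSeries (Polynomial L)) : PowerSeries (Polynomial L) :=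
  PowerSeries.mk fun n => Polynomial.derivative (PowerSeries.coeff n r)

private theorem pderiv_aeval_X (i j : Fin 2) (p : Polynomial L) :
    pderiv j (Polynomial.aeval (X i : MvPolynomial (Fin 2) L) p) =
      if i = j then Polynomial.aeval (X i : MvPolynomial (Fin 2) L) (Polynomial.derivative p)
      else 0 := by
  induction p using Polynomial.induction_on' with
  | add p q hp hq =>
    rw [map_add, map_add, hp, hq, map_add, map_add]
    split
    · rfl
    · rw [add_zero]
  | monomial n a =>
    rw [Polynomial.aeval_monomial, Polynomial.derivative_monomial, Polynomial.aeval_monomial,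
      MvPolynomial.algebraMap_eq, Derivation.leibniz, Derivation.leibniz_pow,
      pderiv_C, smul_zero, add_zero, pderiv_X]
    by_cases h : i = j
    · subst h
      rw [if_pos rfl, Pi.single_eq_same]
      simp only [smul_eq_mul, nsmul_eq_mul, mul_one, map_mul, map_natCast]
      ring
    · rw [if_neg h, Pi.single_eq_of_ne h]
      simp

private theorem dA_iotaF (i j : Fin 2) (r : PowerSeries (Polynomial L)) :
    dA j (iotaF i r) = if i = j then iotaF i (derF r) else 0 := by
  refine PowerSeries.ext fun n => ?_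
  unfold dA
  rw [PowerSeries.coeff_mk, coeff_iotaF, pderiv_aeval_X]
  split
  · rw [coeff_iotaF]
    unfold derF
    rw [PowerSeries.coeff_mk]
  · rw [map_zero]

/-- division of polynomials by a linear polynomial -/
private theorem div_poly (i j : Fin 2) (a b s : L) (hb : b ≠ 0) (hij : ∀ m : Fin 2, m = i ∨ m = j)
    (P : MvPolynomial (Fin 2) L) :
    ∃ (Q : MvPolynomial (Fin 2) L) (r : Polynomial L),
      P = (C a * X i + C b * X j + C s) * Q + Polynomial.aeval (X i : MvPolynomial (Fin 2) L) r := by
  induction P using MvPolynomial.induction_on with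
  | C c => exact ⟨0, Polynomial.C c, by simp [MvPolynomial.algebraMap_eq]⟩
  | add P P' hP hP' =>
    obtain ⟨Q, r, h⟩ := hP
    obtain ⟨Q', r', h'⟩ := hP'
    refine ⟨Q + Q', r + r', ?_⟩
    rw [map_add]
    nth_rewrite 1 [h, h']
    ring
  | mul_X P m hP =>
    obtain ⟨Q, r, h⟩ := hP
    rcases hij m with rfl | rfl
    · refine ⟨Q * X m, r * Polynomial.X, ?_⟩
      rw [map_mul, Polynomial.aeval_X]
      nth_rewrite 1 [h]
      ring
    · refine ⟨Q * X m + C b⁻¹ * Polynomial.aeval (X i : MvPolynomial (Fin 2) L) r,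
        -(Polynomial.C b⁻¹ * (Polynomial.C a * Polynomial.X + Polynomial.C s) * r), ?_⟩
      have h1 : (C b : MvPolynomial (Fin 2) L) * C b⁻¹ = 1 := by
        rw [← C_mul, mul_inv_cancel₀ hb, C_1]
      have h2 : Polynomial.aeval (X i : MvPolynomial (Fin 2) L)
          (-(Polynomial.C b⁻¹ * (Polynomial.C a * Polynomial.X + Polynomial.C s) * r)) =
          -(C b⁻¹ * (C a * X i + C s) * Polynomial.aeval (X i : MvPolynomial (Fin 2) L) r) := by
        rw [map_neg, map_mul, map_mul, map_add, map_mul, Polynomial.aeval_C, Polynomial.aeval_C,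
          Polynomial.aeval_C, Polynomial.aeval_X]
        rfl
      rw [h2]
      nth_rewrite 1 [h]
      linear_combination
        (-(Polynomial.aeval (X i : MvPolynomial (Fin 2) L) r) * X m) * h1

private noncomputable def quoC (G F : AA L) (Q : MvPolynomial (Fin 2) L → MvPolynomial (Fin 2) L) :
    ℕ → MvPolynomial (Fin 2) L
  | n => Q (PowerSeries.coeff n F -
      ∑ i : Fin n, PowerSeries.coeff (n - i.val) G * quoC G F Q i.val)
termination_by n => n
decreasing_by exact i.2

/-- division of functions -/
private theorem div_fun (i j : Fin 2) (a b s : L) (hb : b ≠ 0) (hij : ∀ m : Fin 2, m = i ∨ m = j)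
    {G : AA L} (hG : PowerSeries.coeff 0 G = C a * X i + C b * X j + C s) (F : AA L) :
    ∃ (F' : AA L) (r : PowerSeries (Polynomial L)), F = G * F' + iotaF i r := by
  choose Q r hQ using div_poly i j a b s hb hij
  refine ⟨PowerSeries.mk (quoC G F Q), PowerSeries.mk fun n => r (PowerSeries.coeff n F -
      ∑ i : Fin n, PowerSeries.coeff (n - i.val) G * quoC G F Q i.val), ?_⟩
  refine PowerSeries.ext fun n => ?_
  rw [map_add, coeff_iotaF, PowerSeries.coeff_mk, PowerSeries.coeff_mul,
    Finset.Nat.sum_antidiagonal_eq_sum_range_succ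
      (fun u v => PowerSeries.coeff u G * PowerSeries.coeff v (PowerSeries.mk (quoC G F Q))) n,
    ← Finset.sum_range_reflect, Finset.sum_range_succ, ]
  have h1 : ∑ x ∈ Finset.range n, PowerSeries.coeff (n + 1 - 1 - x) G *
      PowerSeries.coeff (n - (n + 1 - 1 - x)) (PowerSeries.mk (quoC G F Q)) =
      ∑ i : Fin n, PowerSeries.coeff (n - i.val) G * quoC G F Q i.val := by
    rw [Finset.sum_range]
    refine Finset.sum_congr rfl fun x _ => ?_
    rw [PowerSeries.coeff_mk]
    have := x.2
    congr 2
    omega
  rw [h1]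
  have h2 : n + 1 - 1 - n = 0 := by omega
  have h3 : n - 0 = n := by omega
  rw [h2, h3, PowerSeries.coeff_mk, hG]
  have h4 : quoC G F Q n = Q (PowerSeries.coeff n F -
      ∑ i : Fin n, PowerSeries.coeff (n - i.val) G * quoC G F Q i.val) := by
    rw [quoC]
  rw [h4]
  have h5 := hQ (PowerSeries.coeff n F -
      ∑ i : Fin n, PowerSeries.coeff (n - i.val) G * quoC G F Q i.val)
  linear_combination h5

private theorem iotaF_eq_zero (i : Fin 2) {S : Fin 2 → PowerSeries L}
    {r : PowerSeries (Polynomial L)} (h : ∀ n : ℕ, ev S (iotaF i (derF^[n] r)) = 0) : r = 0 := by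
  by_contra hr
  obtain ⟨t, ht, hlt⟩ : ∃ t, PowerSeries.coeff t r ≠ 0 ∧
      ∀ m, m < t → PowerSeries.coeff m r = 0 := by
    have h1 : ∃ t, PowerSeries.coeff t r ≠ 0 := by
      by_contra h2
      push Not at h2
      exact hr (PowerSeries.ext fun n => by rw [h2 n, map_zero])
    classical
    exact ⟨Nat.find h1, Nat.find_spec h1, fun m hm => by
      have := Nat.find_min h1 hm
      push Not at this
      exact this⟩
  have hder : ∀ n m, PowerSeries.coeff m (derF^[n] r) =
      Polynomial.derivative^[n] (PowerSeries.coeff m r) := by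
    intro n
    induction n with
    | zero => intro m; rfl
    | succ n ih =>
      intro m
      rw [Function.iterate_succ_apply', Function.iterate_succ_apply', ← ih]
      unfold derF
      rw [PowerSeries.coeff_mk]
  set d := (PowerSeries.coeff t r).natDegree with hd
  have h1 := congrArg (PowerSeries.coeff t) (h d)
  rw [coeff_ev, map_zero] at h1
  rw [Finset.sum_eq_single (t, 0)] at h1
  · dsimp only at h1
    rw [coeff_iotaF, hder] at h1
    have h2 : Polynomial.derivative^[d] (PowerSeries.coeff t r) =
        Polynomial.C ((d.factorial : L) * (PowerSeries.coeff t r).leadingCoeff) := by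
      have h3 : (Polynomial.derivative^[d] (PowerSeries.coeff t r)).natDegree = 0 := by
        have := Polynomial.natDegree_iterate_derivative (PowerSeries.coeff t r) d
        omega
      rw [Polynomial.eq_C_of_natDegree_eq_zero h3, Polynomial.coeff_iterate_derivative, zero_add,
        Nat.descFactorial_self, nsmul_eq_mul]
      rfl
    rw [h2, Polynomial.aeval_C, MvPolynomial.algebraMap_eq, MvPolynomial.aeval_C,
      PowerSeries.algebraMap_apply, PowerSeries.coeff_zero_C] at h1
    have h4 : (d.factorial : L) * (PowerSeries.coeff t r).leadingCoeff = 0 := h1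
    rcases mul_eq_zero.1 h4 with h5 | h5
    · exact (Nat.cast_ne_zero.2 (Nat.factorial_ne_zero d)) h5
    · exact ht (Polynomial.leadingCoeff_eq_zero.1 h5)
  · rintro ⟨u, v⟩ huv hne
    have h2 : u + v = t := Finset.HasAntidiagonal.mem_antidiagonal.1 huv
    have h3 : u < t := by
      rcases Nat.lt_or_ge u t with h4 | h4
      · exact h4
      · exact absurd (Prod.ext (by simp; omega) (by simp; omega)) hne
    dsimp only
    rw [coeff_iotaF, hder, hlt u h3]
    simp
  · intro h2
    exact absurd (Finset.HasAntidiagonal.mem_antidiagonal.2 (add_zero t)) h2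

private theorem coeff_zero_dA (j : Fin 2) (G : AA L) :
    PowerSeries.coeff 0 (dA j G) = pderiv j (PowerSeries.coeff 0 G) := by
  unfold dA
  rw [PowerSeries.coeff_mk]

private theorem dvd_of_jac_aux (i j : Fin 2) (ε : L) (hε : ε ≠ 0)
    (hij : ∀ m : Fin 2, m = i ∨ m = j) {G : AA L}
    {a b s : L} (hb : b ≠ 0)
    (hG : PowerSeries.coeff 0 G = C a * X i + C b * X j + C s) {S : Fin 2 → PowerSeries L}
    (hS : ev S G = 0)
    (hj : ∀ r : PowerSeries (Polynomial L), jacA G (iotaF i r) =
      (PowerSeries.C (C ε) * dA j G) * iotaF i (derF r))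
    (hne : i ≠ j)
    {F : AA L} (hF : ∀ n : ℕ, ev S ((jacA G)^[n] F) = 0) : G ∣ F := by
  obtain ⟨F', r, hr⟩ := div_fun i j a b s hb hij hG F
  have hw : ev S ((PowerSeries.C (C ε) : AA L) * dA j G) ≠ 0 := by
    intro h
    have h1 := congrArg (PowerSeries.coeff 0) h
    rw [coeff_ev, map_zero, Finset.Nat.antidiagonal_zero, Finset.sum_singleton] at h1
    dsimp only at h1
    rw [PowerSeries.coeff_C_mul, coeff_zero_dA, hG] at h1
    rw [map_add, map_add, pderiv_C_mul, pderiv_C_mul, pderiv_C, pderiv_X, pderiv_X,
      Pi.single_eq_same, Pi.single_eq_of_ne hne, mul_zero, zero_add, add_zero, mul_one, ← C_mul,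
      MvPolynomial.aeval_C, PowerSeries.algebraMap_apply, PowerSeries.coeff_zero_C] at h1
    exact (mul_ne_zero hε hb) h1
  have h0 : ∀ n, DVan G S n (iotaF i r) := by
    intro n
    have h1 : iotaF i r = F + -(G * F') := by rw [hr]; ring
    rw [h1]
    exact (DVan.of_all hF).add (DVan.self_mul hS F').neg
  have h1 : ∀ m n, DVan G S n (iotaF i (derF^[m] r)) := by
    intro m
    induction m with
    | zero => exact h0
    | succ m ih =>
      intro n
      have h2 := (ih (n + 1)).2
      rw [hj] at h2
      rw [Function.iterate_succ_apply']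
      exact h2.cancel hw
  have h2 : r = 0 := iotaF_eq_zero i fun n => (h1 n 0).val
  refine ⟨F', ?_⟩
  rw [hr, h2]
  have h3 : iotaF i (0 : PowerSeries (Polynomial L)) = 0 := by
    unfold iotaF
    rw [map_zero]
  rw [h3, add_zero]

theorem dvd_of_jac {G : AA L} {p q s : L} (hpq : ¬ (p = 0 ∧ q = 0))
    (hG : PowerSeries.coeff 0 G = C p * X 0 + C q * X 1 + C s) {S : Fin 2 → PowerSeries L}
    (hS : ev S G = 0) {F : AA L} (hF : ∀ n : ℕ, ev S ((jacA G)^[n] F) = 0) : G ∣ F := by
  by_cases hq : q = 0
  · have hp : p ≠ 0 := fun h => hpq ⟨h, hq⟩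
    refine dvd_of_jac_aux 1 0 (-1) (neg_ne_zero.2 one_ne_zero) (by decide) hp
      (a := q) (s := s) (by rw [hG]; ring) hS ?_ (by decide) hF
    intro r
    unfold jacA
    rw [dA_iotaF, dA_iotaF, if_neg (by decide : ¬ (1 : Fin 2) = 0), if_pos rfl, map_neg, map_neg, C_1, map_one]
    ring
  · refine dvd_of_jac_aux 0 1 1 one_ne_zero (by decide) hq
      (a := p) (s := s) hG hS ?_ (by decide) hF
    intro r
    unfold jacA
    rw [dA_iotaF, dA_iotaF, if_neg (by decide : ¬ (0 : Fin 2) = 1), if_pos rfl, C_1, map_one]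
    ring

theorem exists_max_pow {G : AA L} {p q s : L} (hpq : ¬ (p = 0 ∧ q = 0))
    (hG : PowerSeries.coeff 0 G = C p * X 0 + C q * X 1 + C s) {F : AA L} (hF : F ≠ 0) :
    ∃ (B : ℕ) (V : AA L), F = G ^ B * V ∧ ¬ G ∣ V := by
  obtain ⟨t, ht, hlt⟩ : ∃ t, PowerSeries.coeff t F ≠ 0 ∧
      ∀ m, m < t → PowerSeries.coeff m F = 0 := by
    have h1 : ∃ t, PowerSeries.coeff t F ≠ 0 := by
      by_contra h2
      push Not at h2
      exact hF (PowerSeries.ext fun n => by rw [h2 n, map_zero])
    classical
    exact ⟨Nat.find h1, Nat.find_spec h1, fun m hm => by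
      have := Nat.find_min h1 hm
      push Not at this
      exact this⟩
  set l : MvPolynomial (Fin 2) L := C p * X 0 + C q * X 1 + C s with hl
  have e1 : (Finsupp.single (1 : Fin 2) 1 : Fin 2 →₀ ℕ) ≠ Finsupp.single 0 1 := by
    intro h
    have h2 := DFunLike.congr_fun h 0
    simp at h2
  have e2 : (0 : Fin 2 →₀ ℕ) ≠ Finsupp.single 0 1 := by
    intro h
    have h2 := DFunLike.congr_fun h 0
    simp at h2
  have e3 : (0 : Fin 2 →₀ ℕ) ≠ Finsupp.single 1 1 := by
    intro h
    have h2 := DFunLike.congr_fun h 1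
    simp at h2
  have hc0 : coeff (Finsupp.single 0 1) l = p := by
    rw [hl]
    simp [coeff_C_mul, coeff_X, e1, e2]
  have hc1 : coeff (Finsupp.single 1 1) l = q := by
    rw [hl]
    simp [coeff_C_mul, coeff_X, e1.symm, e3]
  have hl0 : l ≠ 0 := by
    intro h
    rw [h, coeff_zero] at hc0 hc1
    exact hpq ⟨hc0.symm, hc1.symm⟩
  have hldeg : 1 ≤ l.totalDegree := by
    by_contra h
    have h2 : l.totalDegree = 0 := by omega
    rw [totalDegree_eq_zero_iff_eq_C] at h2
    rw [h2, coeff_C, if_neg (by simp [Finsupp.single_eq_zero, eq_comm])] at hc0 hc1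
    exact hpq ⟨hc0.symm, hc1.symm⟩
  have key : ∀ B : ℕ, G ^ B ∣ F → B ≤ (PowerSeries.coeff t F).totalDegree := by
    rintro B ⟨H, hH⟩
    have hGB : PowerSeries.coeff 0 (G ^ B) = l ^ B := by
      rw [PowerSeries.coeff_zero_eq_constantCoeff_apply, map_pow,
        ← PowerSeries.coeff_zero_eq_constantCoeff_apply, hG]
    have hHlt : ∀ m, m < t → PowerSeries.coeff m H = 0 := by
      intro m
      induction m using Nat.strong_induction_on with
      | _ m ih =>
        intro hm
        have h1 := hlt m hm
        rw [hH, PowerSeries.coeff_mul, Finset.sum_eq_single (0, m)] at h1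
        · dsimp only at h1
          rw [hGB] at h1
          exact (mul_eq_zero.1 h1).resolve_left (pow_ne_zero _ hl0)
        · rintro ⟨u, v⟩ huv hne
          have h2 : u + v = m := Finset.HasAntidiagonal.mem_antidiagonal.1 huv
          have h3 : v < m := by
            rcases Nat.lt_or_ge v m with h4 | h4
            · exact h4
            · exact absurd (Prod.ext (by dsimp only; omega) (by dsimp only; omega)) hne
          dsimp only
          rw [ih v h3 (by omega), mul_zero]
        · intro h2
          exact absurd (Finset.HasAntidiagonal.mem_antidiagonal.2 (zero_add m)) h2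
    have h1 : PowerSeries.coeff t F = l ^ B * PowerSeries.coeff t H := by
      rw [hH, PowerSeries.coeff_mul, Finset.sum_eq_single (0, t)]
      · dsimp only
        rw [hGB]
      · rintro ⟨u, v⟩ huv hne
        have h2 : u + v = t := Finset.HasAntidiagonal.mem_antidiagonal.1 huv
        have h3 : v < t := by
          rcases Nat.lt_or_ge v t with h4 | h4
          · exact h4
          · exact absurd (Prod.ext (by dsimp only; omega) (by dsimp only; omega)) hne
        dsimp only
        rw [hHlt v h3, mul_zero]
      · intro h2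
        exact absurd (Finset.HasAntidiagonal.mem_antidiagonal.2 (zero_add t)) h2
    have h2 : PowerSeries.coeff t H ≠ 0 := by
      intro h
      rw [h, mul_zero] at h1
      exact ht h1
    rw [h1, totalDegree_mul_of_isDomain (pow_ne_zero _ hl0) h2]
    have h3 : B ≤ (l ^ B).totalDegree := by
      clear h1 hGB hH
      induction B with
      | zero => exact Nat.zero_le _
      | succ B ih =>
        rw [pow_succ, totalDegree_mul_of_isDomain (pow_ne_zero _ hl0) hl0]
        omega
    omega
  have hex : ∃ B, ¬ G ^ (B + 1) ∣ F := by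
    refine ⟨(PowerSeries.coeff t F).totalDegree, fun h => ?_⟩
    have := key _ h
    omega
  classical
  have h1 := Nat.find_spec hex
  have h2 : G ^ (Nat.find hex) ∣ F := by
    rcases Nat.eq_zero_or_pos (Nat.find hex) with h3 | h3
    · rw [h3, pow_zero]
      exact one_dvd _
    · have h4 := Nat.find_min hex (Nat.sub_lt h3 one_pos)
      have h5 : Nat.find hex - 1 + 1 = Nat.find hex := by omega
      rw [not_not, h5] at h4
      exact h4
  obtain ⟨V, hV⟩ := h2
  refine ⟨Nat.find hex, V, hV, fun ⟨W, hW⟩ => h1 ⟨W, ?_⟩⟩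
  rw [pow_succ, mul_assoc, ← hW]
  exact hV

end

end M3
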