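import Pool.Agent.M3.Irr
import Pool.Agent.M3.DivG

/-!
PIECE M3-B05: near a nonrational point all functions are powers of one smooth function.

PROOF. Write `x = x_i`, `y = x_j` (indices as in the hypothesis), `f'(Q) := ev Q f'`.
(1) If `ev Q (f h) ≠ 0` for all `h` with `f h ≠ 0`: let `N₀` be larger than all their orders `v h`; `B h := 0`,
`G := xA 0 - cA (shiftP N₀ Q 0)`; `cen N₀ Q` is congruent modulo `X^N₀` to the constant point `cA (Q j)`, so
`ev (cen N₀ Q) (f h) = cA (ev Q (f h)) + X^N₀ * (..) = X^(v h) * U h`, with constant nonzero `coeff 0 (U h)`.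
(2) Otherwise let `f h₀ ≠ 0`, `ev Q (f h₀) = 0`.  `exists_iter_ne`: let `b` be minimal with `ev Q ((dA j)^[b] (f h₀)) ≠ 0`; `b ≥ 1`;
`g := (dA j)^[b-1] (f h₀)`: `g(Q) = 0`, `(dA j g)(Q) ≠ 0`.
(3) For `f'` with `f'(Q) = 0` the Jacobian `Jf' := dA 0 f' * dA 1 g - dA 1 f' * dA 0 g` vanishes at `Q`: choose (by `hQ` and
`exists_der_ne`) a derivation `δ` of `L/κ` with `dS δ (Q i) ≠ 0`; `dS_ev` for `f'` and `g`: the vectors
`(f'_x, f'_y)(Q)`, `(g_x, g_y)(Q)` are both orthogonal to `(dS δ (Q 0), dS δ (Q 1)) ≠ 0`.  So `J^n f'` vanishes at `Q` for all `n`.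
(4) Let `κ₁ := min (order (g_x(Q)), order (g_y(Q)))`, `N₁ > κ₁`.  `cen N₁ Q = (cA (Q j) + X^N₁ * (xA j - cA (S j)))_j`, `S := shiftP N₁ Q`.
`ev_taylor` over `AA L`: `ev (cen N₁ Q) g = X^N₁ * (g_x(Q) (xA 0 - cA (S 0)) + g_y(Q) (xA 1 - cA (S 1)))` modulo `X^(2 N₁)`
`= X^(N₁ + κ₁) * G`, `coeff 0 G = C p * X 0 + C q * X 1 + C s`, `(p, q) ≠ 0` the coefficients of `τ^κ₁` of `g_x(Q)`, `g_y(Q)`.  `ev S G = 0`, since
`ev S (ev (cen N₁ Q) g) = ev Q g = 0`.
(5) For every `f'` with `f'(Q) = 0`: `F := ev (cen N₁ Q) f'` is divisible by `G`: by the chain rule (`dA_ev`; `dA i (cen N₁ Q i') = X^N₁ δ_(i i')`)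
`jacA (ev (cen N₁ Q) g) F = X^(2 N₁) * ev (cen N₁ Q) (J f')`, so `X^(N₁ + κ₁) * jacA G F = X^(2 N₁) * ev (cen N₁ Q) (J f')`, and by
induction `ev S ((jacA G)^[n] F) = 0` for all `n` (up to powers of `τ` it is `(J^n f')(Q)`).  `dvd_of_jac`.
(6) For `h` with `f h ≠ 0`: `F := ev (cen N₁ Q) (f h) ≠ 0` (`(dA j)^b F = X^(b N₁) ev (cen N₁ Q) ((dA j)^b (f h))`, whose value at `S` is
not zero for the `b` of `exists_iter_ne`).  `exists_max_pow`: `F = G^B * V`, `G ∤ V`.  Claim `ev S V ≠ 0`.  Let `l` be an index with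
residue of `dA l G` not zero (`p` or `q`).  `(dA l)^B F = B! (dA l G)^B V + G * (..)`.  If `ev S V = 0` then
`ev S ((dA l)^B F) = 0`, i.e. `X^(N₁ B) * ((dA l)^B (f h))(Q) = 0`, so by (5) `G` divides `ev (cen N₁ Q) ((dA l)^B (f h))` and
`(dA l)^B F`, hence `B! (dA l G)^B V`; `dA l G` is a unit of `AA L` (nonzero constant residue), so `G ∣ V`, a
contradiction.
(7) Let `M` be larger than all the orders `v h` of `ev S (V_h)`, `M ≥ 1`, `N₀ := N₁ + M`, `ψ := cen M S`; `cen N₀ Q = ev ψ (cen N₁ Q)`.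
`ev ψ G = X^M * G'` with linear residue of `G'` (`ev_taylor`, as in (4), because `ev S G = 0` and `dA l G` have constant
residues), `ev (shiftP M S) G' = 0`, `shiftP M S = shiftP N₀ Q`; `ev ψ V_h = cA (ev S V_h) + X^M * (..) = X^(v h) * U h` with constant nonzero
residue of `U h`.  So `ev (cen N₀ Q) (f h) = X^(M B h + v h) * G'^(B h) * U h`.
-/

open MvPolynomial

namespace M3

universe u

section
variable {k L : Type u} [Field k] [Field L] [Algebra k L]

private theorem powIrr_split (Q : Fin 2 → PowerSeries L) (N : ℕ) (j : Fin 2) :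
    Q j = ((PowerSeries.trunc N (Q j) : Polynomial L) : PowerSeries L) +
      PowerSeries.X ^ N * shiftP N Q j := by
  ext n
  rw [map_add, PowerSeries.coeff_X_pow_mul', Polynomial.coeff_coe, PowerSeries.coeff_trunc]
  unfold shiftP
  by_cases h : n < N
  · rw [if_pos h, if_neg (by omega), add_zero]
  · rw [if_neg h, if_pos (by omega), zero_add, PowerSeries.coeff_mk,
      Nat.sub_add_cancel (by omega)]

private theorem powIrr_cA_X : cA (PowerSeries.X : PowerSeries L) = PowerSeries.X :=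
  PowerSeries.map_X _

private theorem powIrr_cen (Q : Fin 2 → PowerSeries L) (N : ℕ) (j : Fin 2) :
    cen N Q j = cA (Q j) + PowerSeries.X ^ N * (xA j - cA (shiftP N Q j)) := by
  have h := congrArg cA (powIrr_split Q N j)
  rw [map_add, map_mul, map_pow, powIrr_cA_X] at h
  unfold cen
  rw [h]
  ring

private theorem powIrr_ev_cen (Q : Fin 2 → PowerSeries L) (N : ℕ) (j : Fin 2) :
    ev (shiftP N Q) (cen N Q j : AA L) = Q j := by
  unfold cen
  rw [ev_add, ev_mul, ev_pow, ev_X, ev_xA, ev_cA, Algebra.algebraMap_self, PowerSeries.map_id]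
  exact (powIrr_split Q N j).symm

private theorem powIrr_shift (Q : Fin 2 → PowerSeries L) (N : ℕ) (f : AA k) :
    ev (shiftP N Q) (ev (cen N Q) f : AA L) = ev Q f := by
  rw [ev_ev_ext]
  congr 1
  funext j
  exact powIrr_ev_cen Q N j

private theorem powIrr_ev_cA (P : Fin 2 → PowerSeries L) (f : AA k) :
    ev (fun j => cA (P j)) f = cA (ev P f) :=
  (ev_map (IsScalarTower.toAlgHom k L (MvPolynomial (Fin 2) L)) P f).symm

private theorem powIrr_ord (φ ψ : PowerSeries L) (h : ¬ (φ = 0 ∧ ψ = 0)) :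
    ∃ (v : ℕ) (w : Fin 2 → PowerSeries L), φ = PowerSeries.X ^ v * w 0 ∧
      ψ = PowerSeries.X ^ v * w 1 ∧
      ¬ (PowerSeries.coeff 0 (w 0) = 0 ∧ PowerSeries.coeff 0 (w 1) = 0) := by
  classical
  have h' : ∃ n, PowerSeries.coeff n φ ≠ 0 ∨ PowerSeries.coeff n ψ ≠ 0 := by
    by_contra hc
    push Not at hc
    exact h ⟨PowerSeries.ext (by simpa using fun n => (hc n).1),
      PowerSeries.ext (by simpa using fun n => (hc n).2)⟩
  have hmin : ∀ n, n < Nat.find h' → PowerSeries.coeff n φ = 0 ∧ PowerSeries.coeff n ψ = 0 := by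
    intro n hn
    have := Nat.find_min h' hn
    push Not at this
    exact this
  refine ⟨Nat.find h', ![PowerSeries.mk fun n => PowerSeries.coeff (n + Nat.find h') φ,
    PowerSeries.mk fun n => PowerSeries.coeff (n + Nat.find h') ψ], ?_, ?_, ?_⟩
  · ext n
    rw [PowerSeries.coeff_X_pow_mul']
    split_ifs with hn
    · simp only [Matrix.cons_val_zero, PowerSeries.coeff_mk]
      rw [Nat.sub_add_cancel hn]
    · exact (hmin n (by omega)).1
  · ext n
    rw [PowerSeries.coeff_X_pow_mul']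
    split_ifs with hn
    · simp only [Matrix.cons_val_one, Matrix.cons_val_zero, PowerSeries.coeff_mk]
      rw [Nat.sub_add_cancel hn]
    · exact (hmin n (by omega)).2
  · have hs := Nat.find_spec h'
    simp only [Matrix.cons_val_zero, Matrix.cons_val_one, PowerSeries.coeff_mk, zero_add]
    tauto

private theorem powIrr_val (S : Fin 2 → PowerSeries L) (V : AA k) (hV : ev S V ≠ 0) :
    ∃ v : ℕ, ∀ M, v < M → ∃ (U : AA L) (u : L), u ≠ 0 ∧ PowerSeries.coeff 0 U = C u ∧
      ev (cen M S) V = PowerSeries.X ^ v * U := by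
  obtain ⟨v', w', hw', hw1, hc'⟩ := powIrr_ord (ev S V) 0 (by tauto)
  have hw10 : w' 1 = 0 := by
    have h2 := hw1.symm
    rcases mul_eq_zero.1 h2 with h3 | h3
    · exact absurd h3 (pow_ne_zero _ PowerSeries.X_ne_zero)
    · exact h3
  have hc0 : PowerSeries.coeff 0 (w' 0) ≠ 0 := by
    intro h0
    exact hc' ⟨h0, by rw [hw10, map_zero]⟩
  refine ⟨v', fun M hM => ?_⟩
  have h := ev_congr (P := cen M S) (Q := fun j => cA (S j)) (N := M)
    (fun j => ⟨xA j - cA (shiftP M S j), by rw [powIrr_cen]; ring⟩) V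
  obtain ⟨W, hW⟩ := h
  rw [powIrr_ev_cA, hw'] at hW
  obtain ⟨m, rfl⟩ : ∃ m, M = v' + m + 1 := ⟨M - v' - 1, by omega⟩
  refine ⟨cA (w' 0) + PowerSeries.X ^ (m + 1) * W, PowerSeries.coeff 0 (w' 0), hc0, ?_, ?_⟩
  · rw [map_add, PowerSeries.coeff_X_pow_mul', if_neg (by omega), add_zero]
    unfold cA
    rw [PowerSeries.coeff_map]
  · rw [map_mul, map_pow, powIrr_cA_X] at hW
    rw [sub_eq_iff_eq_add.1 hW]
    ring

private theorem powIrr_lin (Q : Fin 2 → PowerSeries L) (g : AA k) (hg : ev Q g = 0) (κ₁ m : ℕ)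
    (w : Fin 2 → PowerSeries L) (h0 : ev Q (dA 0 g) = PowerSeries.X ^ κ₁ * w 0)
    (h1 : ev Q (dA 1 g) = PowerSeries.X ^ κ₁ * w 1) :
    ∃ (G : AA L) (s : L),
      ev (cen (κ₁ + m + 1) Q) g = PowerSeries.X ^ (κ₁ + m + 1 + κ₁) * G ∧
      PowerSeries.coeff 0 G = C (PowerSeries.coeff 0 (w 0)) * X 0 +
        C (PowerSeries.coeff 0 (w 1)) * X 1 + C s ∧ ev (shiftP (κ₁ + m + 1) Q) G = 0 := by
  set N := κ₁ + m + 1 with hN
  set S := shiftP N Q with hS
  obtain ⟨W, hW⟩ := ev_taylor (fun j => cA (Q j))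
    (fun j => PowerSeries.X ^ N * (xA j - cA (S j))) N (fun j => Dvd.intro _ rfl) g
  have e1 : (fun j => cA (Q j) + PowerSeries.X ^ N * (xA j - cA (S j))) = cen N Q :=
    funext fun j => (powIrr_cen Q N j).symm
  rw [e1, powIrr_ev_cA, powIrr_ev_cA, powIrr_ev_cA, hg, h0, h1, map_zero, map_mul, map_mul,
    map_pow, powIrr_cA_X, sub_zero] at hW
  have hG : ev (cen N Q) g = PowerSeries.X ^ (N + κ₁) *
      (cA (w 0) * (xA 0 - cA (S 0)) + cA (w 1) * (xA 1 - cA (S 1)) +
        PowerSeries.X ^ (m + 1) * W) := by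
    have h2 : ev (cen N Q) g = PowerSeries.X ^ κ₁ * cA (w 0) *
        (PowerSeries.X ^ N * (xA 0 - cA (S 0))) + PowerSeries.X ^ κ₁ * cA (w 1) *
        (PowerSeries.X ^ N * (xA 1 - cA (S 1))) + PowerSeries.X ^ (2 * N) * W := by
      rw [← hW]
      ring
    rw [h2, show 2 * N = N + κ₁ + (m + 1) by omega]
    ring
  refine ⟨_, -(PowerSeries.coeff 0 (w 0) * PowerSeries.coeff 0 (S 0)) -
    PowerSeries.coeff 0 (w 1) * PowerSeries.coeff 0 (S 1), hG, ?_, ?_⟩
  · have hc : ∀ x : PowerSeries L, PowerSeries.constantCoeff (cA x) =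
        C (PowerSeries.constantCoeff x) := by
      intro x
      rw [← PowerSeries.coeff_zero_eq_constantCoeff_apply,
        ← PowerSeries.coeff_zero_eq_constantCoeff_apply]
      unfold cA
      rw [PowerSeries.coeff_map]
    have hx : ∀ i : Fin 2, PowerSeries.constantCoeff (xA i : AA L) = X i := by
      intro i
      unfold xA
      rw [PowerSeries.constantCoeff_C]
    simp only [PowerSeries.coeff_zero_eq_constantCoeff, map_add, map_mul, map_sub, map_pow, hc, hx,
      PowerSeries.constantCoeff_X, map_neg]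
    rw [zero_pow (by omega)]
    ring
  · have h3 : ev S (ev (cen N Q) g : AA L) = 0 := by
      rw [hS, powIrr_shift, hg]
    rw [hG, ev_mul, ev_pow, ev_X] at h3
    rcases mul_eq_zero.1 h3 with h4 | h4
    · exact absurd h4 (pow_ne_zero _ PowerSeries.X_ne_zero)
    · exact h4

private theorem powIrr_dA_cen (Q : Fin 2 → PowerSeries L) (N : ℕ) (j : Fin 2) (f : AA k) :
    dA j (ev (cen N Q) f : AA L) = PowerSeries.X ^ N * ev (cen N Q) (dA j f) := by
  have hd : ∀ i : Fin 2, dA j (cen N Q i : AA L) =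
      PowerSeries.X ^ N * (if i = j then 1 else 0) := by
    intro i
    unfold cen
    rw [dA_add, dA_cA, dA_X_pow_mul, dA_xA, zero_add]
  rw [dA_ev, hd, hd]
  fin_cases j
  · simp
    ring
  · simp
    ring

private theorem powIrr_dA_iter (Q : Fin 2 → PowerSeries L) (N : ℕ) (j : Fin 2) (f : AA k)
    (b : ℕ) : (dA j)^[b] (ev (cen N Q) f : AA L) =
      PowerSeries.X ^ (b * N) * ev (cen N Q) ((dA j)^[b] f) := by
  induction b with
  | zero => simp
  | succ b ih =>
    rw [Function.iterate_succ_apply', Function.iterate_succ_apply', ih, dA_X_pow_mul,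
      powIrr_dA_cen]
    ring

private theorem powIrr_dA_pow (l : Fin 2) (G : AA L) (n : ℕ) :
    dA l (G ^ (n + 1)) = ((n + 1 : ℕ) : AA L) * (G ^ n * dA l G) := by
  induction n with
  | zero => simp
  | succ n ih =>
    rw [pow_succ, dA_mul, ih]
    push_cast
    ring

private theorem powIrr_leib (l : Fin 2) (G : AA L) (B : ℕ) : ∀ V : AA L, ∃ W : AA L,
    (dA l)^[B] (G ^ B * V) = (B.factorial : AA L) * dA l G ^ B * V + G * W := by
  induction B with
  | zero => exact fun V => ⟨0, by simp⟩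
  | succ B ih =>
    intro V
    have h1 : dA l (G ^ (B + 1) * V) =
        G ^ B * (((B + 1 : ℕ) : AA L) * dA l G * V + G * dA l V) := by
      rw [dA_mul, powIrr_dA_pow]
      ring
    obtain ⟨W, hW⟩ := ih (((B + 1 : ℕ) : AA L) * dA l G * V + G * dA l V)
    refine ⟨(B.factorial : AA L) * dA l G ^ B * dA l V + W, ?_⟩
    rw [Function.iterate_succ_apply, h1, hW, Nat.factorial_succ]
    push_cast
    ring

end

private theorem powIrr_van {κ L : Type u} [Field κ] [IsAlgClosed κ] [CharZero κ] [Field L]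
    [Algebra κ L] {Q : Fin 2 → PowerSeries L} {i : Fin 2}
    (hQ : ∀ w : PowerSeries κ, Q i ≠ PowerSeries.map (algebraMap κ L) w) {f g : AA κ}
    (hg : ev Q g = 0) (hf : ev Q f = 0) : ev Q (jacA g f) = 0 := by
  obtain ⟨m, hm⟩ : ∃ m, PowerSeries.coeff m (Q i) ∉ Set.range (algebraMap κ L) := by
    by_contra hc
    push Not at hc
    choose w hw using hc
    refine hQ (PowerSeries.mk w) ?_
    ext n
    rw [PowerSeries.coeff_map, PowerSeries.coeff_mk, hw]
  obtain ⟨δ, hδ⟩ := exists_der_ne (κ := κ) _ hm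
  have hi : dS δ (Q i) ≠ 0 := by
    intro h0
    apply hδ
    have h1 := congrArg (PowerSeries.coeff m) h0
    unfold dS at h1
    rwa [PowerSeries.coeff_mk, map_zero] at h1
  have hz : dS δ (0 : PowerSeries L) = 0 := by
    ext n
    unfold dS
    rw [PowerSeries.coeff_mk, map_zero, map_zero]
  have h1 := dS_ev δ Q f
  have h2 := dS_ev δ Q g
  rw [hf, hz] at h1
  rw [hg, hz] at h2
  unfold jacA
  rw [ev_sub, ev_mul, ev_mul]
  have h01 : dS δ (Q 0) ≠ 0 ∨ dS δ (Q 1) ≠ 0 := by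
    fin_cases i
    · exact Or.inl hi
    · exact Or.inr hi
  rcases h01 with h3 | h3
  · apply mul_right_cancel₀ h3
    rw [zero_mul]
    linear_combination ev Q (dA 1 f) * h2 - ev Q (dA 1 g) * h1
  · apply mul_right_cancel₀ h3
    rw [zero_mul]
    linear_combination ev Q (dA 0 g) * h1 - ev Q (dA 0 f) * h2

theorem powStr_irr {κ L : Type u} [Field κ] [IsAlgClosed κ] [CharZero κ] [Field L] [CharZero L]
    [Algebra κ L] {Q : Fin 2 → PowerSeries L} {i j : Fin 2} (hij : i ≠ j)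
    (hQ : ∀ w : PowerSeries κ, Q i ≠ PowerSeries.map (algebraMap κ L) w) {J : Type} [Fintype J]
    (f : J → AA κ) : ∃ B : J → ℕ, PowStr Q f B := by
  classical
  by_cases hall : ∀ h, f h ≠ 0 → ev Q (f h) ≠ 0
  · -- no function vanishes at the point
    have hv : ∀ h, ∃ v : ℕ, f h ≠ 0 → ∀ M, v < M → ∃ (U : AA L) (u : L), u ≠ 0 ∧
        PowerSeries.coeff 0 U = C u ∧ ev (cen M Q) (f h) = PowerSeries.X ^ v * U := by
      intro h
      by_cases hf : f h = 0
      · exact ⟨0, fun h' => absurd hf h'⟩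
      · obtain ⟨v, hv⟩ := powIrr_val Q (f h) (hall h hf)
        exact ⟨v, fun _ => hv⟩
    choose v hv using hv
    set N₀ := (∑ h, v h) + 1 with hN₀
    have hlt : ∀ h, v h < N₀ := fun h =>
      Nat.lt_succ_of_le (Finset.single_le_sum (f := v) (fun _ _ => Nat.zero_le _)
        (Finset.mem_univ h))
    have hU : ∀ h, ∃ U : AA L, f h ≠ 0 → ∃ u : L, u ≠ 0 ∧ PowerSeries.coeff 0 U = C u ∧
        ev (cen N₀ Q) (f h) = PowerSeries.X ^ v h * U := by
      intro h
      by_cases hf : f h = 0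
      · exact ⟨0, fun h' => absurd hf h'⟩
      · obtain ⟨U, u, h1, h2, h3⟩ := hv h hf N₀ (hlt h)
        exact ⟨U, fun _ => ⟨u, h1, h2, h3⟩⟩
    choose U hU using hU
    refine ⟨fun _ => 0, N₀, xA 0 - cA (shiftP N₀ Q 0), 1, 0,
      -PowerSeries.coeff 0 (shiftP N₀ Q 0), v, U, by simp, ?_, ?_, ?_⟩
    · unfold xA cA
      rw [map_sub, PowerSeries.coeff_map, PowerSeries.coeff_zero_C]
      simp only [map_neg, map_one, map_zero]
      ring
    · rw [ev_sub, ev_xA, ev_cA, Algebra.algebraMap_self, PowerSeries.map_id]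
      exact sub_self _
    · intro h hf
      obtain ⟨u, h1, h2, h3⟩ := hU h hf
      exact ⟨by rw [h3, pow_zero, mul_one], u, h1, h2⟩
  push Not at hall
  obtain ⟨h₀, hh₀, hv₀⟩ := hall
  -- the function `g`
  have hex := exists_iter_ne hij hQ hh₀
  obtain ⟨b, hb, hbmin⟩ : ∃ b, ev Q ((dA j)^[b] (f h₀)) ≠ 0 ∧
      ∀ n, n < b → ev Q ((dA j)^[n] (f h₀)) = 0 :=
    ⟨Nat.find hex, Nat.find_spec hex, fun n hn => not_not.1 (Nat.find_min hex hn)⟩
  obtain ⟨b', rfl⟩ : ∃ b', b = b' + 1 := by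
    refine ⟨b - 1, ?_⟩
    have : b ≠ 0 := by
      rintro rfl
      exact hb (by simpa using hv₀)
    omega
  set g : AA κ := (dA j)^[b'] (f h₀) with hgdef
  have hg : ev Q g = 0 := hbmin b' (Nat.lt_succ_self _)
  have hgj : ev Q (dA j g) ≠ 0 := by
    rw [hgdef, ← Function.iterate_succ_apply' (dA j)]
    exact hb
  obtain ⟨κ₁, w, hw0, hw1, hw⟩ := powIrr_ord (ev Q (dA 0 g)) (ev Q (dA 1 g)) (by
    rintro ⟨h1, h2⟩
    fin_cases j
    · exact hgj h1
    · exact hgj h2)
  obtain ⟨G, s, hG, hG0, hSG⟩ := powIrr_lin Q g hg κ₁ 0 w hw0 hw1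
  set N₁ := κ₁ + 0 + 1 with hN₁
  set S := shiftP N₁ Q with hS
  set p := PowerSeries.coeff 0 (w 0) with hp
  set q := PowerSeries.coeff 0 (w 1) with hq
  have hsh : ∀ f' : AA κ, ev S (ev (cen N₁ Q) f' : AA L) = ev Q f' := fun f' =>
    powIrr_shift Q N₁ f'
  -- the Jacobian
  have hjac : ∀ f' : AA κ, jacA G (ev (cen N₁ Q) f') =
      PowerSeries.X * ev (cen N₁ Q) (jacA g f') := by
    intro f'
    have hne : (PowerSeries.X : AA L) ^ (N₁ + κ₁) ≠ 0 := pow_ne_zero _ PowerSeries.X_ne_zero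
    apply mul_left_cancel₀ hne
    have h1 : ∀ l, PowerSeries.X ^ (N₁ + κ₁) * dA l G =
        PowerSeries.X ^ N₁ * ev (cen N₁ Q) (dA l g) := by
      intro l
      rw [← dA_X_pow_mul, ← hG, powIrr_dA_cen]
    unfold jacA
    rw [powIrr_dA_cen, powIrr_dA_cen, ev_sub, ev_mul, ev_mul]
    have e2 : (PowerSeries.X : AA L) ^ (N₁ + κ₁) * PowerSeries.X =
        PowerSeries.X ^ N₁ * PowerSeries.X ^ N₁ := by
      rw [← pow_succ, ← pow_add, show N₁ + κ₁ + 1 = N₁ + N₁ by omega]
    linear_combination (PowerSeries.X ^ N₁ * ev (cen N₁ Q) (dA 0 f')) * h1 1 -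
      (PowerSeries.X ^ N₁ * ev (cen N₁ Q) (dA 1 f')) * h1 0 -
      (ev (cen N₁ Q) (dA 0 f') * ev (cen N₁ Q) (dA 1 g) -
        ev (cen N₁ Q) (dA 1 f') * ev (cen N₁ Q) (dA 0 g)) * e2
  have hjX : ∀ (n : ℕ) (F : AA L), jacA G (PowerSeries.X ^ n * F) =
      PowerSeries.X ^ n * jacA G F := by
    intro n F
    unfold jacA
    rw [dA_X_pow_mul, dA_X_pow_mul]
    ring
  have hdiv : ∀ f' : AA κ, ev Q f' = 0 → G ∣ ev (cen N₁ Q) f' := by
    intro f' hf'
    have hi : ∀ n, (jacA G)^[n] (ev (cen N₁ Q) f') =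
        PowerSeries.X ^ n * ev (cen N₁ Q) ((jacA g)^[n] f') ∧ ev Q ((jacA g)^[n] f') = 0 := by
      intro n
      induction n with
      | zero => exact ⟨by simp, hf'⟩
      | succ n ih =>
        constructor
        · rw [Function.iterate_succ_apply', ih.1, hjX, hjac, Function.iterate_succ_apply']
          ring
        · rw [Function.iterate_succ_apply']
          exact powIrr_van hQ hg ih.2
    refine dvd_of_jac hw hG0 hSG fun n => ?_
    rw [(hi n).1, ev_mul, hsh, (hi n).2, mul_zero]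
  -- the good coordinate
  obtain ⟨l, hl⟩ : ∃ l : Fin 2, IsUnit (dA l G) := by
    by_cases hp0 : p = 0
    · refine ⟨1, ?_⟩
      rw [PowerSeries.isUnit_iff_constantCoeff, ← PowerSeries.coeff_zero_eq_constantCoeff_apply]
      unfold dA
      rw [PowerSeries.coeff_mk, hG0]
      have hq0 : q ≠ 0 := fun h => hw ⟨hp0, h⟩
      simp only [map_add, Derivation.leibniz, pderiv_C, pderiv_X_self,
        pderiv_X_of_ne (show (0 : Fin 2) ≠ 1 by decide), smul_eq_mul, mul_one, add_zero,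
        zero_add, mul_zero]
      exact (isUnit_iff_ne_zero.2 hq0).map C
    · refine ⟨0, ?_⟩
      rw [PowerSeries.isUnit_iff_constantCoeff, ← PowerSeries.coeff_zero_eq_constantCoeff_apply]
      unfold dA
      rw [PowerSeries.coeff_mk, hG0]
      simp only [map_add, Derivation.leibniz, pderiv_C, pderiv_X_self,
        pderiv_X_of_ne (show (1 : Fin 2) ≠ 0 by decide), smul_eq_mul, mul_one, add_zero,
        zero_add, mul_zero]
      exact (isUnit_iff_ne_zero.2 hp0).map C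
  -- the functions `f h` in the ball of radius `N₁`
  have hV : ∀ h, ∃ (B : ℕ) (V : AA L), f h ≠ 0 → ev (cen N₁ Q) (f h) = G ^ B * V ∧
      ev S V ≠ 0 := by
    intro h
    by_cases hf : f h = 0
    · exact ⟨0, 0, fun h' => absurd hf h'⟩
    have hz : ∀ n, (dA j)^[n] (0 : AA L) = 0 := by
      intro n
      induction n with
      | zero => rfl
      | succ n ih =>
        rw [Function.iterate_succ_apply', ih]
        have := dA_cA (k := L) j 0
        rwa [map_zero] at this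
    have hF : ev (cen N₁ Q) (f h) ≠ 0 := by
      intro h0
      obtain ⟨b₂, hb₂⟩ := exists_iter_ne hij hQ hf
      have h1 := powIrr_dA_iter Q N₁ j (f h) b₂
      rw [h0, hz] at h1
      have h2 := congrArg (ev S) h1
      rw [ev_mul, hsh, ev_pow, ev_X, ev_zero] at h2
      rcases mul_eq_zero.1 h2.symm with h3 | h3
      · exact pow_ne_zero _ PowerSeries.X_ne_zero h3
      · exact hb₂ h3
    obtain ⟨B, V, hBV, hGV⟩ := exists_max_pow hw hG0 hF
    refine ⟨B, V, fun _ => ⟨hBV, fun hSV => hGV ?_⟩⟩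
    obtain ⟨W, hW⟩ := powIrr_leib l G B V
    have h1 := powIrr_dA_iter Q N₁ l (f h) B
    rw [hBV] at h1
    have h2 := congrArg (ev S) h1
    rw [hW, ev_add, ev_mul _ _ V, hSV, mul_zero, ev_mul _ G W, hSG, zero_mul, add_zero, ev_mul,
      hsh, ev_pow, ev_X] at h2
    have h3 : ev Q ((dA l)^[B] (f h)) = 0 := by
      rcases mul_eq_zero.1 h2.symm with h3 | h3
      · exact absurd h3 (pow_ne_zero _ PowerSeries.X_ne_zero)
      · exact h3
    have h4 := hdiv _ h3
    rw [hW] at h1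
    have h5 : G ∣ (B.factorial : AA L) * dA l G ^ B * V := by
      have h6 : G ∣ (B.factorial : AA L) * dA l G ^ B * V + G * W := by
        rw [h1]
        exact h4.mul_left _
      exact (dvd_add_left (Dvd.intro _ rfl)).1 h6
    have hfac : IsUnit ((B.factorial : ℕ) : AA L) := by
      rw [PowerSeries.isUnit_iff_constantCoeff, map_natCast]
      have h7 : IsUnit ((B.factorial : ℕ) : L) :=
        isUnit_iff_ne_zero.2 (Nat.cast_ne_zero.2 (Nat.factorial_ne_zero B))
      have h8 := h7.map (C : L →+* MvPolynomial (Fin 2) L)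
      rwa [map_natCast] at h8
    have hun : IsUnit ((B.factorial : AA L) * dA l G ^ B) := hfac.mul (hl.pow B)
    exact (hun.dvd_mul_left).1 h5
  choose B V hV using hV
  have hv : ∀ h, ∃ v : ℕ, f h ≠ 0 → ∀ M, v < M → ∃ (U : AA L) (u : L), u ≠ 0 ∧
      PowerSeries.coeff 0 U = C u ∧ ev (cen M S) (V h) = PowerSeries.X ^ v * U := by
    intro h
    by_cases hf : f h = 0
    · exact ⟨0, fun h' => absurd hf h'⟩
    · obtain ⟨v, hv⟩ := powIrr_val S (V h) (hV h hf).2
      exact ⟨v, fun _ => hv⟩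
  choose v hv using hv
  set M₀ := ∑ h, v h with hM₀
  have hlt : ∀ h, v h < 0 + M₀ + 1 := fun h => by
    rw [zero_add]
    exact Nat.lt_succ_of_le (Finset.single_le_sum (f := v) (fun _ _ => Nat.zero_le _)
      (Finset.mem_univ h))
  obtain ⟨G', s', hG', hG'0, hSG'⟩ := powIrr_lin S G hSG 0 M₀ ![ev S (dA 0 G), ev S (dA 1 G)]
    (by simp) (by simp)
  set M := 0 + M₀ + 1 with hM
  have hU : ∀ h, ∃ U : AA L, f h ≠ 0 → ∃ u : L, u ≠ 0 ∧ PowerSeries.coeff 0 U = C u ∧
      ev (cen M S) (V h) = PowerSeries.X ^ v h * U := by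
    intro h
    by_cases hf : f h = 0
    · exact ⟨0, fun h' => absurd hf h'⟩
    · obtain ⟨U, u, h1, h2, h3⟩ := hv h hf M (hlt h)
      exact ⟨U, fun _ => ⟨u, h1, h2, h3⟩⟩
  choose U hU using hU
  have hshift : shiftP M S = shiftP (N₁ + M) Q := by
    funext i'
    ext n
    rw [hS]
    unfold shiftP
    simp only [PowerSeries.coeff_mk]
    rw [show n + M + N₁ = n + (N₁ + M) by omega]
  have hcen : ∀ i', cen (N₁ + M) Q i' = ev (cen M S) (cen N₁ Q i' : AA L) := by
    intro i'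
    rw [powIrr_cen, powIrr_cen (N := N₁), ev_add, ev_mul, ev_pow, ev_X, ev_sub, ev_xA,
      powIrr_cen (N := M), ← hshift]
    have hc : ∀ x : PowerSeries L, ev (cen M S) (cA x : AA L) = cA x := by
      intro x
      rw [ev_cA]
      rfl
    rw [hc, hc]
    ring
  have hcomp : ∀ f' : AA κ, ev (cen (N₁ + M) Q) f' =
      ev (cen M S) (ev (cen N₁ Q) f' : AA L) := by
    intro f'
    rw [ev_ev_ext]
    congr 1
    funext i'
    exact hcen i'
  have hco : ∀ (l' : Fin 2) (c : L), PowerSeries.coeff 0 (dA l' G) = C c →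
      PowerSeries.coeff 0 (ev S (dA l' G)) = c := by
    intro l' c hc
    rw [coeff_ev]
    simp [hc]
  have hc0 : PowerSeries.coeff 0 (dA 0 G) = C p := by
    unfold dA
    rw [PowerSeries.coeff_mk, hG0]
    simp only [map_add, Derivation.leibniz, pderiv_C, pderiv_X_self,
      pderiv_X_of_ne (show (1 : Fin 2) ≠ 0 by decide), smul_eq_mul, mul_one, add_zero, mul_zero]
  have hc1 : PowerSeries.coeff 0 (dA 1 G) = C q := by
    unfold dA
    rw [PowerSeries.coeff_mk, hG0]
    simp only [map_add, Derivation.leibniz, pderiv_C, pderiv_X_self,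
      pderiv_X_of_ne (show (0 : Fin 2) ≠ 1 by decide), smul_eq_mul, mul_one, add_zero,
      zero_add, mul_zero]
  refine ⟨B, N₁ + M, G', p, q, s', fun h => M * B h + v h, U, hw, ?_, ?_, ?_⟩
  · rw [hG'0]
    simp only [Matrix.cons_val_zero, Matrix.cons_val_one]
    rw [hco 0 p hc0, hco 1 q hc1]
  · rw [← hshift]
    exact hSG'
  · intro h hf
    obtain ⟨u, h1, h2, h3⟩ := hU h hf
    refine ⟨?_, u, h1, h2⟩
    rw [hcomp, (hV h hf).1, ev_mul, ev_pow, hG', h3]
    ring

end M3
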