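import Pool.Agent.M3.Mc

/-!
PIECE M3-A03: derivatives of functions on the polydisc, Taylor expansion to second order, chain rule.

PROOF. `dA j` is additive, satisfies the product rule (coefficientwise `pderiv`), commutes with multiplication by
`τ = X`.  `ev_taylor`: for `f = PowerSeries.C p` this is the Taylor formula for polynomials (induction on `p`:
constants, sums, product with a variable); in general it is `τ`-adically continuous in `f`: the map
`f ↦ ev (P + H) f - ev P f - ev P (dA 0 f) * H 0 - ev P (dA 1 f) * H 1` is additive, commutes with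
multiplication by `X`, and sends `PowerSeries.C p` to the ideal `X^(2N)`; write `f` as a finite sum of `C p * X^i`
plus an element of the ideal `X^(2N)`.  `chain_map` : a `k`-derivation `δ` of `R` acts on `PowerSeries R`
coefficientwise (`δ' g := mk fun n => δ (coeff n g)`), and `δ' (ev P f) = ev P (dA 0 f) * δ' (P 0) + ev P (dA 1 f) * δ' (P 1)`:
again check it for `C p` (`Derivation` of `aeval`, induction on `p`) and use continuity.
-/

open MvPolynomial

namespace M3

universe u

section
variable {k : Type u} [CommRing k]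

private theorem coeff_dA (j : Fin 2) (f : AA k) (n : ℕ) :
    PowerSeries.coeff n (dA j f) = pderiv j (PowerSeries.coeff n f) := by
  unfold dA
  rw [PowerSeries.coeff_mk]

theorem dA_add (j : Fin 2) (f g : AA k) : dA j (f + g) = dA j f + dA j g := by
  refine PowerSeries.ext fun n => ?_
  rw [coeff_dA, map_add, map_add, map_add, coeff_dA, coeff_dA]

theorem dA_mul (j : Fin 2) (f g : AA k) : dA j (f * g) = dA j f * g + f * dA j g := by
  refine PowerSeries.ext fun n => ?_
  rw [coeff_dA, PowerSeries.coeff_mul, map_sum, map_add, PowerSeries.coeff_mul,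
    PowerSeries.coeff_mul, ← Finset.sum_add_distrib]
  refine Finset.sum_congr rfl fun p _ => ?_
  rw [pderiv_mul, coeff_dA, coeff_dA]

theorem dA_X_pow_mul (j : Fin 2) (N : ℕ) (f : AA k) :
    dA j (PowerSeries.X ^ N * f) = PowerSeries.X ^ N * dA j f := by
  refine PowerSeries.ext fun n => ?_
  rw [coeff_dA, PowerSeries.coeff_X_pow_mul', PowerSeries.coeff_X_pow_mul']
  split_ifs
  · rw [coeff_dA]
  · rw [map_zero]

theorem dA_cA (j : Fin 2) (c : PowerSeries k) : dA j (cA c) = 0 := by
  refine PowerSeries.ext fun n => ?_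
  rw [coeff_dA]
  unfold cA
  rw [PowerSeries.coeff_map, pderiv_C, map_zero]

private theorem dA_C (j : Fin 2) (p : MvPolynomial (Fin 2) k) :
    dA j (PowerSeries.C p) = PowerSeries.C (pderiv j p) := by
  refine PowerSeries.ext fun n => ?_
  rw [coeff_dA, PowerSeries.coeff_C, PowerSeries.coeff_C]
  split_ifs
  · rfl
  · rw [map_zero]

theorem dA_xA (i j : Fin 2) : dA j (xA i : AA k) = if i = j then 1 else 0 := by
  unfold xA
  rw [dA_C]
  split_ifs with h
  · rw [h, pderiv_X_self, map_one]
  · rw [pderiv_X_of_ne (R := k) h, map_zero]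

private theorem pd_pd_X (i j l : Fin 2) :
    pderiv i (pderiv j (X l : MvPolynomial (Fin 2) k)) = 0 := by
  by_cases h : l = j
  · subst h
    rw [pderiv_X_self, pderiv_one]
  · rw [pderiv_X_of_ne (R := k) h, map_zero]

private theorem pd_comm (i j : Fin 2) (p : MvPolynomial (Fin 2) k) :
    pderiv i (pderiv j p) = pderiv j (pderiv i p) := by
  induction p using MvPolynomial.induction_on with
  | C a => rw [pderiv_C, pderiv_C, map_zero, map_zero]
  | add p q hp hq => rw [map_add, map_add, map_add, map_add, hp, hq]
  | mul_X p l hp =>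
    rw [pderiv_mul, pderiv_mul, map_add, map_add, pderiv_mul, pderiv_mul, pderiv_mul, pderiv_mul,
      pd_pd_X, pd_pd_X, hp]
    ring

theorem dA_comm (i j : Fin 2) (f : AA k) : dA i (dA j f) = dA j (dA i f) := by
  refine PowerSeries.ext fun n => ?_
  rw [coeff_dA, coeff_dA, coeff_dA, coeff_dA, pd_comm]

private theorem cont_dvd {S : Type*} [CommRing S] (D : AA k → PowerSeries S)
    (hadd : ∀ f g, D (f + g) = D f + D g)
    (hX : ∀ (n : ℕ) f, D (PowerSeries.X ^ n * f) = PowerSeries.X ^ n * D f) (M : ℕ)
    (hC : ∀ p : MvPolynomial (Fin 2) k, (PowerSeries.X : PowerSeries S) ^ M ∣ D (PowerSeries.C p))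
    (f : AA k) : (PowerSeries.X : PowerSeries S) ^ M ∣ D f := by
  have hpol : ∀ q : Polynomial (MvPolynomial (Fin 2) k),
      (PowerSeries.X : PowerSeries S) ^ M ∣ D (q : AA k) := by
    intro q
    induction q using Polynomial.induction_on' with
    | add p q hp hq =>
      rw [Polynomial.coe_add, hadd]
      exact dvd_add hp hq
    | monomial n a =>
      have : ((Polynomial.monomial n a : Polynomial (MvPolynomial (Fin 2) k)) : AA k) =
          PowerSeries.X ^ n * PowerSeries.C a := by
        refine PowerSeries.ext fun m => ?_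
        rw [Polynomial.coe_monomial, PowerSeries.coeff_monomial, PowerSeries.coeff_X_pow_mul',
          PowerSeries.coeff_C]
        by_cases h : m = n
        · rw [if_pos h, if_pos h.ge, if_pos (by omega)]
        · rw [if_neg h]
          split_ifs
          · omega
          · rfl
          · rfl
      rw [this, hX]
      exact Dvd.dvd.mul_left (hC a) _
  have h0 : (PowerSeries.X : AA k) ^ M ∣
      f - (PowerSeries.trunc M f : Polynomial (MvPolynomial (Fin 2) k)) := by
    rw [PowerSeries.X_pow_dvd_iff]
    intro m hm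
    rw [map_sub, Polynomial.coeff_coe, PowerSeries.coeff_trunc, if_pos hm, sub_self]
  obtain ⟨g, hg⟩ := h0
  have h1 : f = ((PowerSeries.trunc M f : Polynomial (MvPolynomial (Fin 2) k)) : AA k) +
      PowerSeries.X ^ M * g := by rw [← hg]; ring
  rw [h1, hadd, hX]
  exact dvd_add (hpol _) (Dvd.intro _ rfl)

private theorem cont_zero {S : Type*} [CommRing S] (D : AA k → PowerSeries S)
    (hadd : ∀ f g, D (f + g) = D f + D g)
    (hX : ∀ (n : ℕ) f, D (PowerSeries.X ^ n * f) = PowerSeries.X ^ n * D f)
    (hC : ∀ p : MvPolynomial (Fin 2) k, D (PowerSeries.C p) = 0) (f : AA k) : D f = 0 := by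
  refine PowerSeries.ext fun n => ?_
  rw [map_zero]
  exact PowerSeries.X_pow_dvd_iff.1 (cont_dvd D hadd hX (n + 1)
    (fun p => by rw [hC]; exact dvd_zero _) f) n (Nat.lt_succ_self n)

/-- chain rule for substitutions (also with coefficients in an extension) -/
theorem dA_ev {L : Type u} [CommRing L] [Algebra k L] (j : Fin 2) (χ : Fin 2 → AA L) (f : AA k) :
    dA j (ev χ f) = ev χ (dA 0 f) * dA j (χ 0) + ev χ (dA 1 f) * dA j (χ 1) := by
  rw [← sub_eq_zero]
  refine cont_zero (fun f => dA j (ev χ f) -
    (ev χ (dA 0 f) * dA j (χ 0) + ev χ (dA 1 f) * dA j (χ 1))) ?_ ?_ ?_ f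
  · intro f g
    simp only [ev_add, dA_add]
    ring
  · intro n f
    simp only [ev_mul, ev_pow, ev_X, dA_X_pow_mul]
    ring
  · intro p
    show dA j (ev χ (PowerSeries.C p)) - (ev χ (dA 0 (PowerSeries.C p)) * dA j (χ 0) +
      ev χ (dA 1 (PowerSeries.C p)) * dA j (χ 1)) = 0
    rw [sub_eq_zero]
    simp only [dA_C, ev_C]
    induction p using MvPolynomial.induction_on with
    | C a =>
      rw [aeval_C, pderiv_C, pderiv_C, map_zero, zero_mul, zero_mul, add_zero,
        PowerSeries.algebraMap_apply, MvPolynomial.algebraMap_apply, dA_C, pderiv_C, map_zero]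
    | add p q hp hq =>
      simp only [map_add, dA_add, hp, hq]
      ring
    | mul_X p i hp =>
      rw [map_mul, aeval_X, dA_mul, hp, pderiv_mul, pderiv_mul, map_add, map_add, map_mul, map_mul,
        map_mul, map_mul, aeval_X]
      fin_cases i
      · simp only [Fin.zero_eta, pderiv_X_self]
        rw [pderiv_X_of_ne (by decide), map_one, map_zero]
        ring
      · simp only [Fin.mk_one, pderiv_X_self]
        rw [pderiv_X_of_ne (by decide), map_one, map_zero]
        ring

variable {R : Type*} [CommRing R] [Algebra k R]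

/-- Taylor formula -/
theorem ev_taylor (P H : Fin 2 → PowerSeries R) (N : ℕ)
    (hH : ∀ j, (PowerSeries.X : PowerSeries R) ^ N ∣ H j) (f : AA k) :
    (PowerSeries.X : PowerSeries R) ^ (2 * N) ∣
      ev (fun j => P j + H j) f - ev P f - ev P (dA 0 f) * H 0 - ev P (dA 1 f) * H 1 := by
  refine cont_dvd (fun f => ev (fun j => P j + H j) f - ev P f - ev P (dA 0 f) * H 0 -
    ev P (dA 1 f) * H 1) ?_ ?_ (2 * N) ?_ f
  · intro f g
    simp only [ev_add, dA_add]
    ring
  · intro n f
    simp only [ev_mul, ev_pow, ev_X, dA_X_pow_mul]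
    ring
  · intro p
    show (PowerSeries.X : PowerSeries R) ^ (2 * N) ∣ ev (fun j => P j + H j) (PowerSeries.C p) -
      ev P (PowerSeries.C p) - ev P (dA 0 (PowerSeries.C p)) * H 0 -
      ev P (dA 1 (PowerSeries.C p)) * H 1
    simp only [dA_C, ev_C]
    have hHH : ∀ i j, (PowerSeries.X : PowerSeries R) ^ (2 * N) ∣ H i * H j := by
      intro i j
      rw [two_mul, pow_add]
      exact mul_dvd_mul (hH i) (hH j)
    induction p using MvPolynomial.induction_on with
    | C a =>
      rw [aeval_C, aeval_C, pderiv_C, pderiv_C, map_zero, zero_mul, zero_mul, sub_self, sub_zero,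
        sub_zero]
      exact dvd_zero _
    | add p q hp hq =>
      have := dvd_add hp hq
      simp only [map_add]
      convert this using 1
      ring
    | mul_X p i hp =>
      rw [map_mul, aeval_X, pderiv_mul, pderiv_mul, map_add, map_add, map_mul, map_mul,
        map_mul, map_mul, map_mul, aeval_X]
      fin_cases i
      · simp only [Fin.zero_eta, pderiv_X_self]
        rw [pderiv_X_of_ne (by decide), map_one, map_zero]
        have h1 := Dvd.dvd.mul_right hp (P 0 + H 0)
        have h2 := Dvd.dvd.mul_left (hHH 0 0) (aeval P (pderiv 0 p))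
        have h3 := Dvd.dvd.mul_left (hHH 1 0) (aeval P (pderiv 1 p))
        have h4 := dvd_add h1 (dvd_add h2 h3)
        convert h4 using 1
        ring
      · simp only [Fin.mk_one, pderiv_X_self]
        rw [pderiv_X_of_ne (by decide), map_one, map_zero]
        have h1 := Dvd.dvd.mul_right hp (P 1 + H 1)
        have h2 := Dvd.dvd.mul_left (hHH 0 1) (aeval P (pderiv 0 p))
        have h3 := Dvd.dvd.mul_left (hHH 1 1) (aeval P (pderiv 1 p))
        have h4 := dvd_add h1 (dvd_add h2 h3)
        convert h4 using 1
        ring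

/-- a derivation acts on the coefficients of a power series -/
noncomputable def dS (δ : Derivation k R R) (g : PowerSeries R) : PowerSeries R :=
  PowerSeries.mk fun n => δ (PowerSeries.coeff n g)

private theorem coeff_dS (δ : Derivation k R R) (g : PowerSeries R) (n : ℕ) :
    PowerSeries.coeff n (dS δ g) = δ (PowerSeries.coeff n g) := by
  unfold dS
  rw [PowerSeries.coeff_mk]

private theorem dS_add (δ : Derivation k R R) (f g : PowerSeries R) :
    dS δ (f + g) = dS δ f + dS δ g := by
  refine PowerSeries.ext fun n => ?_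
  rw [coeff_dS, map_add, map_add, map_add, coeff_dS, coeff_dS]

private theorem dS_mul (δ : Derivation k R R) (f g : PowerSeries R) :
    dS δ (f * g) = dS δ f * g + f * dS δ g := by
  refine PowerSeries.ext fun n => ?_
  rw [coeff_dS, PowerSeries.coeff_mul, map_sum, map_add, PowerSeries.coeff_mul,
    PowerSeries.coeff_mul, ← Finset.sum_add_distrib]
  refine Finset.sum_congr rfl fun p _ => ?_
  rw [Derivation.leibniz, coeff_dS, coeff_dS, smul_eq_mul, smul_eq_mul]
  ring

private theorem dS_X_pow_mul (δ : Derivation k R R) (N : ℕ) (f : PowerSeries R) :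
    dS δ (PowerSeries.X ^ N * f) = PowerSeries.X ^ N * dS δ f := by
  refine PowerSeries.ext fun n => ?_
  rw [coeff_dS, PowerSeries.coeff_X_pow_mul', PowerSeries.coeff_X_pow_mul']
  split_ifs
  · rw [coeff_dS]
  · rw [map_zero]

/-- chain rule for derivations of the coefficients -/
theorem dS_ev (δ : Derivation k R R) (P : Fin 2 → PowerSeries R) (f : AA k) :
    dS δ (ev P f) = ev P (dA 0 f) * dS δ (P 0) + ev P (dA 1 f) * dS δ (P 1) := by
  rw [← sub_eq_zero]
  refine cont_zero (fun f => dS δ (ev P f) -
    (ev P (dA 0 f) * dS δ (P 0) + ev P (dA 1 f) * dS δ (P 1))) ?_ ?_ ?_ f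
  · intro f g
    simp only [ev_add, dA_add, dS_add]
    ring
  · intro n f
    simp only [ev_mul, ev_pow, ev_X, dA_X_pow_mul, dS_X_pow_mul]
    ring
  · intro p
    show dS δ (ev P (PowerSeries.C p)) - (ev P (dA 0 (PowerSeries.C p)) * dS δ (P 0) +
      ev P (dA 1 (PowerSeries.C p)) * dS δ (P 1)) = 0
    rw [sub_eq_zero]
    simp only [dA_C, ev_C]
    induction p using MvPolynomial.induction_on with
    | C a =>
      rw [aeval_C, pderiv_C, pderiv_C, map_zero, zero_mul, zero_mul, add_zero]
      refine PowerSeries.ext fun n => ?_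
      rw [coeff_dS, PowerSeries.algebraMap_apply, PowerSeries.coeff_C, map_zero]
      split_ifs
      · exact δ.map_algebraMap a
      · rw [map_zero]
    | add p q hp hq =>
      simp only [map_add, dS_add, hp, hq]
      ring
    | mul_X p i hp =>
      rw [map_mul, aeval_X, dS_mul, hp, pderiv_mul, pderiv_mul, map_add, map_add, map_mul, map_mul,
        map_mul, map_mul, aeval_X]
      fin_cases i
      · simp only [Fin.zero_eta, pderiv_X_self]
        rw [pderiv_X_of_ne (by decide), map_one, map_zero]
        ring
      · simp only [Fin.mk_one, pderiv_X_self]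
        rw [pderiv_X_of_ne (by decide), map_one, map_zero]
        ring

end

end M3
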