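import Pool.Agent.M3.CodB
import Pool.Agent.M3.Tay

/-!
PIECE M3-B06: the mass of the smooth function is at most one.

PROOF. Data of `PowStr`: `N₀, G, p, q, s, a, U`.  Say `q ≠ 0` (the case `p ≠ 0` is symmetric).  Let
`L' := FractionRing (MvPolynomial (Fin 2 × ℕ) L)`, `ξ := ∑ C t_(0,n) X^n`, `ω := ∑ C t_(1,n) X^n` generic power series over `L'`.
Let `M : ℕ`.  There is a unique `y : PowerSeries L'` with `ev ![ξ, y] G = X^M * ω` (over `L'`; `G : AA L`): the coefficient of
`τ^n` of `ev ![ξ, y] G` is `q y_n + (polynomial over L in ξ_i, i ≤ n, and y_i, i < n)` (because `coeff 0 G` is linear with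
coefficient `q` at `X 1`, and `coeff l G`, `l ≥ 1`, contributes only `y_i`, `i ≤ n - l`), so `y_n` is determined
recursively, and `y_n - q⁻¹ ω_(n-M)` (for `n ≥ M`; `y_n` for `n < M`) is a polynomial over `L` in `ξ_i`, `i ≤ n`, and
`y_i`, `i < n`.  So the field generated over `L` by `ξ_i`, `y_i`, `i < m` contains `ω_i`, `i < m - M` and the family
`ξ_n` (`n < m`), `y_n` (`M ≤ n < m`) is algebraically independent over `L` (its `2 m - M` members together with the elements of
`L` generate the field `L(ξ_i, ω_l : i < m, l < m - M)` of transcendence degree `2 m - M`; or triangular change of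
variables), hence over `κ`.
Let `R j := trunc_(N₀) (Q j) + X^N₀ * ![ξ, y] j` (over `L'`), `R = ev ![ξ, y] (cen N₀ Q)`.  `Cod κ R (2 N₀ + M)`: at level `m ≥ N₀` the coefficients
of `R` are those of `Q` below `N₀` and then those of `ξ`, `y` up to `m - N₀`: `2 (m - N₀) - M` independent ones.
(For `m < N₀ + M` trivial: `2 m ≤ 2 N₀ + M + ..`; use `CodLe.level`.)
`OrdGe grp f R (M * m j)`: for `f h ≠ 0`: `ev R (f h) = ev ![ξ, y] (ev (cen N₀ Q) (f h)) = X^(a h) * (X^M * ω)^(B h) * ..`, divisible by
`X^(M B h)`, `B h ≥ m (grp h)`.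
`LowB` gives `K` with `-K ≤ 2 N₀ + M - M ∑ lam j m j` for all `M`; `M → ∞` gives the claim.
-/

open MvPolynomial

namespace M3

universe u

private theorem powLow_step {L L' : Type u} [Field L] [Field L'] [Algebra L L'] (G : AA L)
    (c : Fin 2 → L) (s : L) (hG : PowerSeries.coeff 0 G = ∑ j, C (c j) * X j + C s)
    (P H : Fin 2 → PowerSeries L') (N : ℕ)
    (hH : ∀ j, (PowerSeries.X : PowerSeries L') ^ N ∣ H j) :
    (PowerSeries.X : PowerSeries L') ^ (N + 1) ∣ ev (fun j => P j + H j) G - ev P G -
      ∑ j, PowerSeries.C (algebraMap L L' (c j)) * H j := by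
  obtain ⟨G', hG'⟩ : ∃ G' : AA L, G = PowerSeries.X * G' +
      PowerSeries.C (∑ j, C (c j) * X j + C s) := by
    refine ⟨PowerSeries.mk fun n => PowerSeries.coeff (n + 1) G, ?_⟩
    rw [← hG, PowerSeries.coeff_zero_eq_constantCoeff_apply]
    exact PowerSeries.eq_X_mul_shift_add_const G
  have h1 : ∀ Q : Fin 2 → PowerSeries L', ev Q G = PowerSeries.X * ev Q G' +
      (∑ j, PowerSeries.C (algebraMap L L' (c j)) * Q j + PowerSeries.C (algebraMap L L' s)) := by
    intro Q
    have h2 : aeval Q (∑ j, C (c j) * X j + C s : MvPolynomial (Fin 2) L) =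
        ∑ j, PowerSeries.C (algebraMap L L' (c j)) * Q j + PowerSeries.C (algebraMap L L' s) := by
      rw [map_add, map_sum, aeval_C, PowerSeries.algebraMap_apply]
      congr 1
      refine Finset.sum_congr rfl fun j _ => ?_
      rw [map_mul, aeval_C, aeval_X, PowerSeries.algebraMap_apply]
    conv_lhs => rw [hG']
    rw [ev_add, ev_mul, ev_X, ev_C, h2]
  rw [h1, h1]
  have h3 : PowerSeries.X * ev (fun j => P j + H j) G' +
      (∑ j, PowerSeries.C (algebraMap L L' (c j)) * (P j + H j) +
        PowerSeries.C (algebraMap L L' s)) -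
      (PowerSeries.X * ev P G' + (∑ j, PowerSeries.C (algebraMap L L' (c j)) * P j +
        PowerSeries.C (algebraMap L L' s))) -
      ∑ j, PowerSeries.C (algebraMap L L' (c j)) * H j =
      PowerSeries.X * (ev (fun j => P j + H j) G' - ev P G') := by
    simp only [mul_add, Finset.sum_add_distrib]
    ring
  rw [h3, pow_succ']
  refine mul_dvd_mul_left _ (ev_congr (fun j => ?_) G')
  rw [add_sub_cancel_left]
  exact hH j

private theorem powLow_arc {L L' : Type u} [Field L] [Field L'] [Algebra L L'] (G : AA L)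
    (c : Fin 2 → L) (s : L) (hG : PowerSeries.coeff 0 G = ∑ j, C (c j) * X j + C s)
    (j0 : Fin 2) (hc : c j0 ≠ 0) (v : Fin 2 × ℕ → L') (M : ℕ) :
    ∃ P : Fin 2 → PowerSeries L', (∀ j n, (j = j0 → M ≤ n) → PowerSeries.coeff n (P j) = v (j, n)) ∧
      (PowerSeries.X : PowerSeries L') ^ M ∣ ev P G := by
  induction M with
  | zero =>
    refine ⟨fun j => PowerSeries.mk fun n => v (j, n), fun j n _ => by rw [PowerSeries.coeff_mk], ?_⟩
    rw [pow_zero]
    exact one_dvd _
  | succ M ih =>
    obtain ⟨P, hP1, hP2⟩ := ih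
    have hc' : algebraMap L L' (c j0) ≠ 0 := by
      rw [Ne, map_eq_zero]
      exact hc
    let b : L' := -(algebraMap L L' (c j0))⁻¹ * PowerSeries.coeff M (ev P G)
    let H : Fin 2 → PowerSeries L' := fun j => if j = j0 then PowerSeries.monomial M b else 0
    refine ⟨fun j => P j + H j, ?_, ?_⟩
    · intro j n hn
      rw [map_add]
      by_cases hj : j = j0
      · have h1 := hn hj
        simp only [H, if_pos hj]
        rw [PowerSeries.coeff_monomial, if_neg (by omega), add_zero]
        exact hP1 j n fun _ => by omega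
      · simp only [H, if_neg hj, map_zero, add_zero]
        exact hP1 j n fun h => absurd h hj
    · have hH : ∀ j, (PowerSeries.X : PowerSeries L') ^ M ∣ H j := by
        intro j
        by_cases hj : j = j0
        · simp only [H, if_pos hj]
          rw [PowerSeries.X_pow_dvd_iff]
          intro n hn
          rw [PowerSeries.coeff_monomial, if_neg (by omega)]
        · simp only [H, if_neg hj]
          exact dvd_zero _
      have h1 := powLow_step G c s hG P H M hH
      have h2 : ∑ j, PowerSeries.C (algebraMap L L' (c j)) * H j =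
          PowerSeries.C (algebraMap L L' (c j0)) * PowerSeries.monomial M b := by
        rw [Finset.sum_eq_single j0]
        · simp only [H, if_pos]
        · intro j _ hj
          simp only [H, if_neg hj, mul_zero]
        · intro h
          exact absurd (Finset.mem_univ _) h
      rw [h2] at h1
      have h3 : (PowerSeries.X : PowerSeries L') ^ (M + 1) ∣ ev P G +
          PowerSeries.C (algebraMap L L' (c j0)) * PowerSeries.monomial M b := by
        rw [PowerSeries.X_pow_dvd_iff]
        intro n hn
        rw [map_add, PowerSeries.coeff_C_mul, PowerSeries.coeff_monomial]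
        rcases Nat.lt_or_ge n M with h | h
        · rw [if_neg (by omega), mul_zero, add_zero]
          exact PowerSeries.X_pow_dvd_iff.1 hP2 n h
        · obtain rfl : n = M := by omega
          rw [if_pos rfl]
          simp only [b]
          field_simp
          ring
      have h4 := dvd_add h1 h3
      have h5 : ev (fun j => P j + H j) G - ev P G - PowerSeries.C (algebraMap L L' (c j0)) *
          PowerSeries.monomial M b + (ev P G + PowerSeries.C (algebraMap L L' (c j0)) *
          PowerSeries.monomial M b) = ev (fun j => P j + H j) G := by ring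
      rw [h5] at h4
      exact h4

private theorem powLow_key {κ L : Type u} [Field κ] [Field L] [Algebra κ L] {r : ℕ} {J : Type}
    {grp : J → Fin r} {f : J → AA κ} {Q : Fin 2 → PowerSeries L} {B : J → ℕ} (hQ : PowStr Q f B)
    (m : Fin r → ℕ) (hm : ∀ h, f h ≠ 0 → m (grp h) ≤ B h) :
    ∃ N₀ : ℕ, ∀ M : ℕ, ∃ (L' : Type u) (_ : Field L') (_ : Algebra κ L')
      (R : Fin 2 → PowerSeries L'), Cod κ R (2 * N₀ + M) ∧
        OrdGe grp f R (fun j => M * m j) := by
  classical
  obtain ⟨N₀, G, p, q, s, a, U, hpq, hG, -, hf⟩ := hQ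
  let c : Fin 2 → L := ![p, q]
  have hG' : PowerSeries.coeff 0 G = ∑ j, C (c j) * X j + C s := by
    rw [hG, Fin.sum_univ_two]
    simp [c]
  obtain ⟨j0, hj0⟩ : ∃ j0, c j0 ≠ 0 := by
    by_contra hcon
    push Not at hcon
    exact hpq ⟨hcon 0, hcon 1⟩
  refine ⟨N₀, fun M => ?_⟩
  let A := MvPolynomial (Fin 2 × ℕ) L
  let L' := FractionRing A
  let v : Fin 2 × ℕ → L' := fun t => algebraMap A L' (X t)
  have ht : IsScalarTower κ L L' := inferInstance
  have hv0 : AlgebraicIndependent L v := by
    have h1 : AlgebraicIndependent L (X : Fin 2 × ℕ → A) := MvPolynomial.algebraicIndependent_X _ _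
    exact h1.map' (f := IsScalarTower.toAlgHom L A L') (IsFractionRing.injective A L')
  have hv : AlgebraicIndependent κ v :=
    hv0.restrictScalars (algebraMap κ L).injective
  obtain ⟨P, hP1, hP2⟩ := powLow_arc (L' := L') G c s hG' j0 hj0 v M
  refine ⟨L', inferInstance, inferInstance, fun j => ev P (cen N₀ Q j), ?_, ?_⟩
  · intro m'
    have hco : ∀ j n, N₀ ≤ n → PowerSeries.coeff n (ev P (cen N₀ Q j)) =
        PowerSeries.coeff (n - N₀) (P j) := by
      intro j n hn
      unfold cen
      rw [ev_add, ev_mul, ev_pow, ev_X, ev_xA, ev_cA, map_add, PowerSeries.coeff_map,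
        Polynomial.coeff_coe, PowerSeries.coeff_trunc, if_neg (by omega), map_zero, zero_add,
        PowerSeries.coeff_X_pow_mul', if_pos hn]
    let T : Finset (Fin 2 × Fin m') := Finset.univ.filter fun t =>
      N₀ ≤ t.2.val ∧ (t.1 = j0 → N₀ + M ≤ t.2.val)
    refine ⟨T, ?_, ?_⟩
    · have h1 : Tᶜ ⊆ ((Finset.univ : Finset (Fin 2)) ×ˢ
          (Finset.univ.filter fun n : Fin m' => n.val < N₀)) ∪
          (({j0} : Finset (Fin 2)) ×ˢ (Finset.univ.filter fun n : Fin m' =>
            N₀ ≤ n.val ∧ n.val < N₀ + M)) := by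
        rintro ⟨j, n⟩ hh
        rw [Finset.mem_compl, Finset.mem_filter, not_and, not_and_or] at hh
        rw [Finset.mem_union, Finset.mem_product, Finset.mem_product, Finset.mem_filter,
          Finset.mem_filter, Finset.mem_singleton]
        by_cases h2 : n.val < N₀
        · exact Or.inl ⟨Finset.mem_univ _, Finset.mem_univ _, h2⟩
        · right
          rcases hh (Finset.mem_univ _) with h3 | h3
          · exact absurd (not_lt.1 h2) h3
          · simp only [Classical.not_imp, not_le] at h3
            exact ⟨h3.1, Finset.mem_univ _, not_lt.1 h2, h3.2⟩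
      have h2 := (Finset.card_le_card h1).trans (Finset.card_union_le _ _)
      rw [Finset.card_product, Finset.card_product, Finset.card_singleton, Finset.card_univ,
        Fintype.card_fin, one_mul, Finset.card_compl, Fintype.card_prod, Fintype.card_fin,
        Fintype.card_fin] at h2
      have h3 : (Finset.univ.filter fun n : Fin m' => n.val < N₀).card ≤ N₀ := by
        have h5 : (Finset.range N₀).card = N₀ := Finset.card_range N₀
        refine le_trans (Finset.card_le_card_of_injOn (t := Finset.range N₀)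
          (fun n : Fin m' => n.val) ?_ ?_) h5.le
        · intro n hn
          exact Finset.mem_coe.2 (Finset.mem_range.2 (Finset.mem_filter.1 hn).2)
        · intro n _ n' _ hh
          exact Fin.ext hh
      have h4 : (Finset.univ.filter fun n : Fin m' => N₀ ≤ n.val ∧ n.val < N₀ + M).card ≤ M := by
        have h5 : (Finset.Ico N₀ (N₀ + M)).card = M := by
          rw [Nat.card_Ico]
          omega
        refine le_trans (Finset.card_le_card_of_injOn (t := Finset.Ico N₀ (N₀ + M))
          (fun n : Fin m' => n.val) ?_ ?_) h5.le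
        · intro n hn
          exact Finset.mem_coe.2 (Finset.mem_Ico.2 (Finset.mem_filter.1 hn).2)
        · intro n _ n' _ hh
          exact Fin.ext hh
      omega
    · have h1 : (fun t : T => PowerSeries.coeff t.1.2.val (ev P (cen N₀ Q t.1.1))) =
          fun t : T => v (t.1.1, t.1.2.val - N₀) := by
        funext t
        obtain ⟨-, h2, h3⟩ := Finset.mem_filter.1 t.2
        rw [hco _ _ h2]
        refine hP1 _ _ fun h => ?_
        have := h3 h
        omega
      rw [h1]
      refine hv.comp (fun t : T => (t.1.1, t.1.2.val - N₀)) ?_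
      intro t t' hh
      obtain ⟨-, h2, -⟩ := Finset.mem_filter.1 t.2
      obtain ⟨-, h2', -⟩ := Finset.mem_filter.1 t'.2
      simp only [Prod.mk.injEq] at hh
      apply Subtype.ext
      refine Prod.ext hh.1 (Fin.ext ?_)
      omega
  · intro h
    by_cases hh : f h = 0
    · rw [hh, ev_zero]
      exact dvd_zero _
    · obtain ⟨h1, -⟩ := hf h hh
      have h2 : ev (fun j => ev P (cen N₀ Q j)) (f h) = ev P (ev (cen N₀ Q) (f h)) :=
        (ev_ev_ext (cen N₀ Q) P (f h)).symm
      rw [h2, h1, ev_mul, ev_mul, ev_pow, ev_pow]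
      refine Dvd.dvd.mul_right (Dvd.dvd.mul_left ?_ _) _
      have h3 := hm h hh
      calc (PowerSeries.X : PowerSeries L') ^ (M * m (grp h)) ∣ PowerSeries.X ^ (M * B h) :=
            pow_dvd_pow _ (Nat.mul_le_mul_left _ h3)
        _ ∣ ev P G ^ B h := by
            rw [pow_mul]
            exact pow_dvd_pow_of_dvd hP2 _

theorem lowB_powStr {κ L : Type u} [Field κ] [Field L] [Algebra κ L] {r : ℕ} {J : Type}
    {lam : Fin r → ℝ} (hlam : ∀ j, 0 < lam j) {grp : J → Fin r} {f : J → AA κ}
    (hL : LowB lam grp f) {Q : Fin 2 → PowerSeries L} {B : J → ℕ} (hQ : PowStr Q f B)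
    (m : Fin r → ℕ) (hm : ∀ h, f h ≠ 0 → m (grp h) ≤ B h) : ∑ j, lam j * m j ≤ 1 := by
  obtain ⟨N₀, hN⟩ := powLow_key (grp := grp) hQ m hm
  obtain ⟨K, hK⟩ := hL
  have key : ∀ M : ℕ, -K ≤ 2 * N₀ + M * (1 - ∑ j, lam j * m j) := by
    intro M
    obtain ⟨L', _, _, R, hR1, hR2⟩ := hN M
    have h1 := hK L' R _ _ hR1 hR2
    have h2 : ∑ j, lam j * ((M * m j : ℕ) : ℝ) = M * ∑ j, lam j * m j := by
      rw [Finset.mul_sum]
      refine Finset.sum_congr rfl fun j _ => ?_
      push_cast
      ring
    rw [h2] at h1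
    push_cast at h1
    linarith
  by_contra hcon
  push Not at hcon
  obtain ⟨M, hM⟩ := exists_nat_gt ((K + 2 * N₀) / (∑ j, lam j * m j - 1))
  have h1 : 0 < ∑ j, lam j * m j - 1 := by linarith
  rw [div_lt_iff₀ h1] at hM
  have := key M
  linarith

end M3
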