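import Pool.Agent.M3.LinStrD
import Pool.Agent.M3.PowIrr
import Pool.Agent.M3.PowLow

/-!
PIECE M3-B07: domination if the limit arc is not rational.

PROOF. `Q` is not of the form `ratP z`, so some `Q i` is not the image of a power series over `Gm k` (choose `w` for
both components otherwise).  `powStr_irr` with `κ := Gm k` (algebraically closed, characteristic zero by `GmA`),
`L := Gm (Om k)`: `PowStr Q f B`.  For every group let `hj j` be a member with `f h ≠ 0` and minimal `B h`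
(`ne`); `lowB_powStr` with `m j := B (hj j)` gives `∑ lam j B (hj j) ≤ 1`.  `powStr_lin` and `linStr_dom`.
-/

open MvPolynomial

namespace M3

universe u

theorem block_B {k : Type u} [Field k] [IsAlgClosed k] [CharZero k] {r : ℕ} {J : Type} [Fintype J]
    {lam : Fin r → ℝ} (hlam : ∀ j, 0 < lam j) {grp : J → Fin r} {f : J → AA (Gm k)}
    (ne : ∀ j, ∃ h, grp h = j ∧ f h ≠ 0) (hL : LowB lam grp f)
    {c : ℕ → J → AA k} (hc : ∀ h, IsLim (fun i => c i h) (f h))
    {P : ℕ → Fin 2 → PowerSeries (Om k)} {C : ℕ → ℕ} {n : ℕ → Fin r → ℕ}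
    (hA : Adm grp c P C n) {Q : Fin 2 → PowerSeries (Gm (Om k))} (hP : IsLimP P Q)
    (hQ : ∀ z, Q ≠ ratP z) : Dom lam grp c C n := by
  classical
  have hex : ∃ i : Fin 2, ∀ w : PowerSeries (Gm k),
      Q i ≠ PowerSeries.map (algebraMap (Gm k) (Gm (Om k))) w := by
    by_contra hcon
    push_neg at hcon
    choose w hw using hcon
    exact hQ w (funext fun j => hw j)
  obtain ⟨i, hi⟩ := hex
  obtain ⟨j, hij⟩ : ∃ j : Fin 2, i ≠ j := exists_ne i |>.imp fun j h => h.symm
  obtain ⟨B, hB⟩ := powStr_irr hij hi f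
  have hmin : ∀ j, ∃ h, grp h = j ∧ f h ≠ 0 ∧ ∀ h', grp h' = j → f h' ≠ 0 → B h ≤ B h' := by
    intro j
    obtain ⟨h₀, hj0, hh0⟩ := ne j
    let s : Finset J := Finset.univ.filter fun h => grp h = j ∧ f h ≠ 0
    have hs : s.Nonempty := ⟨h₀, by simp [s, hj0, hh0]⟩
    obtain ⟨h, hh, hmin⟩ := Finset.exists_min_image s B hs
    simp only [s, Finset.mem_filter, Finset.mem_univ, true_and] at hh hmin
    exact ⟨h, hh.1, hh.2, fun h' h1 h2 => hmin h' ⟨h1, h2⟩⟩
  choose hj h1 h2 h3 using hmin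
  obtain ⟨a, N₀, hS⟩ := powStr_lin hB
  exact linStr_dom hlam hc hA hP hS hj (fun j => ⟨h1 j, h2 j⟩)
    (lowB_powStr hlam hL hB (fun j => B (hj j)) fun h hh => h3 (grp h) h rfl hh)

end M3
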