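import Pool.Agent.M3.CodB
import Pool.Agent.M3.Mc

/-!
PIECE M3-G01: the Newton polygon inequality.

PROOF. Let `U` be a generic arc over some extension `L` of `κ` (`exists_generic`, `L = Om κ`), `Cod κ U 0`.  For `s : ℕ` let
`P 0 := X^(s w₀) * U 0`, `P 1 := X^(s w₁) * U 1`.  `Cod κ P (s w₀ + s w₁)`: at level `m` the coefficients of `P` are zero or those of `U` below
`m - s w₀`, `m - s w₁`, all of these are algebraically independent (`Cod κ U 0` at level `m`: all `2 m` are independent).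
`X^(s φ j) ∣ ev P (f h)`, `j = grp h`: `ev P (f h) = ev U (ev ![X^(s w₀) * xA 0, X^(s w₁) * xA 1] (f h))` (`ev_ev`) and by `mc_scale`
all monomial coefficients of the inner function are divisible by `X^(s wt w₀ w₁ e)` with `φ j ≤ wt w₀ w₁ e` if
`mc (f h) e ≠ 0`; `X_pow_dvd_iff_mc`, `ev_dvd`.  `LowB`: `-K ≤ s (w₀ + w₁) - ∑ lam j * s φ j` for all `s`; divide by `s → ∞`.
-/

open MvPolynomial

namespace M3

universe u

private theorem newt_indep {κ : Type u} [Field κ] {L : Type u} [Field L] [Algebra κ L]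
    {U : Fin 2 → PowerSeries L} (hU : Cod κ U 0) (m : ℕ) :
    AlgebraicIndependent κ (fun t : Fin 2 × Fin m => PowerSeries.coeff t.2.val (U t.1)) := by
  obtain ⟨T, hT, hI⟩ := hU m
  have hc : T = Finset.univ := by
    apply Finset.eq_univ_of_card
    refine le_antisymm (Finset.card_le_univ T) ?_
    rw [Fintype.card_prod, Fintype.card_fin, Fintype.card_fin]
    omega
  have h := hI.comp (fun t : Fin 2 × Fin m => (⟨t, by rw [hc]; exact Finset.mem_univ t⟩ : T))
    (fun a b hab => by simpa using hab)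
  exact h

private theorem newt_card (m : ℕ) (N : Fin 2 → ℕ) :
    2 * m ≤ (Finset.univ.filter (fun t : Fin 2 × Fin m => N t.1 ≤ t.2.val)).card +
      (N 0 + N 1) := by
  have h1 := Finset.card_filter_add_card_filter_not (s := (Finset.univ : Finset (Fin 2 × Fin m)))
    (fun t : Fin 2 × Fin m => N t.1 ≤ t.2.val)
  have h2 : (Finset.univ : Finset (Fin 2 × Fin m)).card = 2 * m := by
    rw [Finset.card_univ, Fintype.card_prod, Fintype.card_fin, Fintype.card_fin]
  have h3 : (Finset.univ.filter (fun t : Fin 2 × Fin m => ¬ N t.1 ≤ t.2.val)).card ≤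
      N 0 + N 1 := by
    have h4 : (Finset.univ.filter (fun t : Fin 2 × Fin m => ¬ N t.1 ≤ t.2.val)).card ≤
        (Finset.univ.sigma (fun j : Fin 2 => Finset.range (N j))).card := by
      refine Finset.card_le_card_of_injOn (fun t => (⟨t.1, t.2.val⟩ : Σ _ : Fin 2, ℕ)) ?_ ?_
      · intro t ht
        have := (Finset.mem_filter.1 ht).2
        simpa using this
      · rintro ⟨a, b⟩ - ⟨c, d⟩ - h
        simp only [Sigma.mk.injEq, heq_eq_eq] at h
        ext
        · simp [h.1]
        · exact h.2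
    rw [Finset.card_sigma, Fin.sum_univ_two, Finset.card_range, Finset.card_range] at h4
    exact h4
  omega

private theorem newt_cod {κ : Type u} [Field κ] {L : Type u} [Field L] [Algebra κ L]
    {U : Fin 2 → PowerSeries L} (hU : Cod κ U 0) (N : Fin 2 → ℕ) :
    Cod κ (fun j => PowerSeries.X ^ N j * U j) (N 0 + N 1) := by
  intro m
  refine ⟨Finset.univ.filter (fun t : Fin 2 × Fin m => N t.1 ≤ t.2.val), newt_card m N, ?_⟩
  have h := (newt_indep hU m).comp
    (fun t : (Finset.univ.filter (fun t : Fin 2 × Fin m => N t.1 ≤ t.2.val)) =>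
      ((t.1.1, ⟨t.1.2.val - N t.1.1, by have := t.1.2.isLt; omega⟩) : Fin 2 × Fin m)) ?_
  · convert h using 2 with t
    have ht : N t.1.1 ≤ t.1.2.val := (Finset.mem_filter.1 t.2).2
    show PowerSeries.coeff t.1.2.val (PowerSeries.X ^ N t.1.1 * U t.1.1) =
      PowerSeries.coeff (t.1.2.val - N t.1.1) (U t.1.1)
    rw [PowerSeries.coeff_X_pow_mul', if_pos ht]
  · rintro ⟨⟨a, b⟩, hab⟩ ⟨⟨c, d⟩, hcd⟩ h
    have h1 : N a ≤ b.val := (Finset.mem_filter.1 hab).2
    have h2 : N c ≤ d.val := (Finset.mem_filter.1 hcd).2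
    simp only [Prod.mk.injEq, Fin.mk.injEq] at h
    obtain ⟨h3, h4⟩ := h
    subst h3
    have : b = d := by ext; omega
    subst this
    rfl

theorem newt_le {κ : Type u} [Field κ] {r : ℕ} {J : Type} {lam : Fin r → ℝ} {grp : J → Fin r}
    {f : J → AA κ} (hL : LowB lam grp f) (w₀ w₁ : ℕ) (φ : Fin r → ℕ)
    (hφ : ∀ h e, mc (f h) e ≠ 0 → φ (grp h) ≤ wt w₀ w₁ e) :
    ∑ j, lam j * φ j ≤ (w₀ : ℝ) + w₁ := by
  obtain ⟨K, hK⟩ := hL
  obtain ⟨U, hU⟩ := exists_generic κ
  have key : ∀ s : ℕ, -K ≤ (s : ℝ) * ((w₀ : ℝ) + w₁ - ∑ j, lam j * φ j) := by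
    intro s
    have hcod := newt_cod hU ![s * w₀, s * w₁]
    have h1 := hK (Om κ) (fun j => PowerSeries.X ^ (![s * w₀, s * w₁] j) * U j) _
      (fun j => s * φ j) hcod ?_
    · simp only [Matrix.cons_val_zero, Matrix.cons_val_one] at h1
      push_cast at h1
      refine h1.trans_eq ?_
      rw [mul_sub, Finset.mul_sum]
      congr 1
      · ring
      · refine Finset.sum_congr rfl fun j _ => ?_
        ring
    · intro h
      have h2 : (fun j => PowerSeries.X ^ (![s * w₀, s * w₁] j) * U j) =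
          fun j => ev U ((![PowerSeries.X ^ (s * w₀) * xA 0, PowerSeries.X ^ (s * w₁) * xA 1] :
            Fin 2 → AA κ) j) := by
        funext j
        fin_cases j
        · show PowerSeries.X ^ (s * w₀) * U 0 = ev U (PowerSeries.X ^ (s * w₀) * xA 0)
          rw [ev_mul, ev_pow, ev_X, ev_xA]
        · show PowerSeries.X ^ (s * w₁) * U 1 = ev U (PowerSeries.X ^ (s * w₁) * xA 1)
          rw [ev_mul, ev_pow, ev_X, ev_xA]
      rw [h2, ← ev_ev]
      apply ev_dvd
      rw [X_pow_dvd_iff_mc]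
      intro e
      rw [mc_scale]
      by_cases h3 : mc (f h) e = 0
      · rw [h3, mul_zero]
        exact dvd_zero _
      · refine Dvd.dvd.mul_right (pow_dvd_pow _ ?_) _
        have h4 := Nat.mul_le_mul_left s (hφ h e h3)
        unfold wt at h4
        calc s * φ (grp h) ≤ s * (w₀ * e 0 + w₁ * e 1) := h4
          _ = s * w₀ * e 0 + s * w₁ * e 1 := by ring
  by_contra hcon
  have hc : (w₀ : ℝ) + w₁ - ∑ j, lam j * φ j < 0 := by
    have := not_le.1 hcon
    linarith
  obtain ⟨s, hs⟩ := exists_nat_gt (K / (-((w₀ : ℝ) + w₁ - ∑ j, lam j * φ j)))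
  have h5 := key s
  rw [div_lt_iff₀ (by linarith)] at hs
  linarith

end M3
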