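import Pool.Agent.M3.MonoDom
import Pool.Agent.M3.Newt
import Pool.Agent.M3.Polyg
import Pool.Agent.M3.MassAlt
import Pool.Agent.M3.ShiftF
import Pool.Agent.M3.Slow

/-!
Block G: the Newton polygon loop.  Around the limit point the diagonal either meets a vertex of the
Newton polygons (`mono_dom`) or the interior of an edge, whose face functions form a state, unless
one factor `y - c x^b` has too large a mass; in the last case substitute `y = c x^b + y'` and repeat.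
-/

open MvPolynomial

namespace M3

universe u

section
variable {κ : Type u} [Field κ]

/-- evaluation at the origin -/
private theorem g_ev0 (f : AA κ) : ev (0 : Fin 2 → PowerSeries κ) f = mc f 0 := by
  ext n
  rw [coeff_ev, coeff_mc, Finset.sum_eq_single (n, 0)]
  · rw [aeval_zero, PowerSeries.algebraMap_apply, PowerSeries.coeff_C, if_pos rfl,
      constantCoeff_eq]
    rfl
  · rintro ⟨a', b'⟩ hab hne
    have h1 : b' ≠ 0 := by
      rintro rfl
      have := Finset.HasAntidiagonal.mem_antidiagonal.1 hab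
      simp only [add_zero] at this
      exact hne (by rw [this])
    rw [aeval_zero, PowerSeries.algebraMap_apply, PowerSeries.coeff_C, if_neg h1]
  · intro h
    exact absurd (Finset.HasAntidiagonal.mem_antidiagonal.2 (by simp)) h

/-- composition of charts -/
theorem IsCh.comp {χ ψ : Fin 2 → AA κ} {N M : ℕ} (hχ : IsCh χ N) (hψ : IsCh ψ M) :
    IsCh (fun j => ev ψ (χ j)) (N + M) := by
  induction hψ with
  | refl =>
    have h1 : (fun j => ev xA (χ j)) = χ := funext fun j => ev_self (χ j)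
    rw [h1]
    exact hχ
  | @swap ψ' M' _ ih =>
    have h1 := IsCh.swap ih
    have h2 : (fun j => ev (fun j => ev (swA κ) (ψ' j)) (χ j)) =
        fun j => ev (swA κ) (ev ψ' (χ j)) := funext fun j => (ev_ev _ _ _).symm
    rw [h2]
    exact h1
  | @step ψ' M' c p N₀ N₁ _ hp ih =>
    have h1 := IsCh.step c p N₀ N₁ ih hp
    have h2 : (fun j => ev (fun j => ev (chA c p N₀ N₁) (ψ' j)) (χ j)) =
        fun j => ev (chA c p N₀ N₁) (ev ψ' (χ j)) := funext fun j => (ev_ev _ _ _).symm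
    rw [h2, show N + (M' + N₀ + N₁) = N + M' + N₀ + N₁ by ring]
    exact h1

private theorem g_step0 (c : PowerSeries κ) (p : Polynomial (PowerSeries κ)) (N₀ N₁ : ℕ)
    (hp : ∀ j, 1 ≤ j → PowerSeries.X ^ N₀ ∣ p.coeff j) : IsCh (chA c p N₀ N₁) (N₀ + N₁) := by
  have h1 := IsCh.step c p N₀ N₁ IsCh.refl hp
  have h2 : (fun j => ev (chA c p N₀ N₁) (xA j : AA κ)) = chA c p N₀ N₁ :=
    funext fun j => ev_xA _ j
  rw [h2, zero_add] at h1
  exact h1

/-- the chart `x = τ^N x'`, `y = γ x'^b + τ^N y'` -/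
private theorem g_chM (b N : ℕ) (γ : PowerSeries κ) :
    IsCh (chA 0 (Polynomial.monomial b γ) N N) (N + N) := by
  have h1 := g_step0 (0 : PowerSeries κ) 0 N 0 (fun j _ => by simp)
  have h2 := g_step0 (0 : PowerSeries κ) (Polynomial.monomial b γ) 0 N
    (fun j _ => by rw [pow_zero]; exact one_dvd _)
  have h3 := h1.comp h2
  have h4 : (fun j => ev (chA 0 (Polynomial.monomial b γ) 0 N)
      (chA (0 : PowerSeries κ) 0 N 0 j)) = chA 0 (Polynomial.monomial b γ) N N := by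
    funext j
    fin_cases j
    · change ev _ (cA 0 + PowerSeries.X ^ N * xA 0) = cA 0 + PowerSeries.X ^ N * xA 0
      rw [ev_add, ev_mul, ev_pow, ev_X, ev_xA, ev_cA]
      change _ + _ * (cA 0 + PowerSeries.X ^ 0 * xA 0) = _
      simp
    · change ev _ ((0 : Polynomial (PowerSeries κ)).eval₂ cA (xA 0) +
          PowerSeries.X ^ 0 * xA 1) =
        (Polynomial.monomial b γ).eval₂ cA (xA 0) + PowerSeries.X ^ N * xA 1
      rw [Polynomial.eval₂_zero, pow_zero, one_mul, zero_add, ev_xA]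
      rfl
  rw [h4] at h3
  rw [show N + N = N + 0 + (0 + N) by ring]
  exact h3

private theorem g_chM0 {b : ℕ} (hb : 0 < b) (N : ℕ) (γ : PowerSeries κ) (j : Fin 2) :
    ev (0 : Fin 2 → PowerSeries κ) (chA 0 (Polynomial.monomial b γ) N N j) = 0 := by
  fin_cases j
  · change ev _ (cA 0 + PowerSeries.X ^ N * xA 0) = 0
    rw [ev_add, ev_mul, ev_pow, ev_X, ev_xA, ev_cA]
    simp
  · change ev _ ((Polynomial.monomial b γ).eval₂ cA (xA 0) + PowerSeries.X ^ N * xA 1) = 0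
    rw [Polynomial.eval₂_monomial, ev_add, ev_mul, ev_mul, ev_pow, ev_pow, ev_X, ev_xA, ev_xA]
    simp [hb.ne']

private theorem g_sw0 (j : Fin 2) : ev (0 : Fin 2 → PowerSeries κ) (swA κ j) = 0 := by
  fin_cases j
  · change ev _ (xA 1) = 0
    rw [ev_xA]
    rfl
  · change ev _ (xA 0) = 0
    rw [ev_xA]
    rfl

private theorem g_cenComp {χ ψ : Fin 2 → AA κ} {z : Fin 2 → PowerSeries κ}
    (hz : ∀ j, mc (χ j) 0 = z j) (hψ : ∀ j, ev (0 : Fin 2 → PowerSeries κ) (ψ j) = 0) (j : Fin 2) :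
    mc (ev ψ (χ j)) 0 = z j := by
  rw [← g_ev0, ev_ev]
  have h1 : (fun j => ev (0 : Fin 2 → PowerSeries κ) (ψ j)) = 0 := funext hψ
  rw [h1, g_ev0, hz]

/-- the translation to `z` -/
private theorem g_trans (z : Fin 2 → PowerSeries κ) :
    ∃ (χ : Fin 2 → AA κ) (N : ℕ), IsCh χ N ∧ ∀ j, mc (χ j) 0 = z j := by
  refine ⟨chA (z 0) (Polynomial.C (z 1)) 0 0, 0 + 0, g_step0 _ _ _ _
    (fun j _ => by rw [pow_zero]; exact one_dvd _), fun j => ?_⟩
  rw [← g_ev0]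
  fin_cases j
  · change ev _ (cA (z 0) + PowerSeries.X ^ 0 * xA 0) = z 0
    rw [ev_add, ev_mul, ev_pow, ev_X, ev_xA, ev_cA]
    simp
  · change ev _ ((Polynomial.C (z 1)).eval₂ cA (xA 0) + PowerSeries.X ^ 0 * xA 1) = z 1
    rw [Polynomial.eval₂_C, ev_add, ev_mul, ev_pow, ev_X, ev_xA, ev_cA]
    simp

end

/-- an element of the fraction field of power series times a power of `τ` is integral -/
private theorem g_int {κ : Type u} [Field κ] (c : KK κ) {b : ℕ} (hb : 0 < b) :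
    ∃ (γ : PowerSeries κ) (N : ℕ), algebraMap (PowerSeries κ) (KK κ) γ =
      c * algebraMap (PowerSeries κ) (KK κ) (PowerSeries.X ^ (b * N)) := by
  obtain ⟨p, q, hq, rfl⟩ := IsFractionRing.div_surjective (A := PowerSeries κ) c
  have hq0 : q ≠ 0 := nonZeroDivisors.ne_zero hq
  obtain ⟨N, u, hu⟩ : ∃ (N : ℕ) (u : PowerSeries κ), (PowerSeries.X : PowerSeries κ) ^ (b * N) =
      q * u := by
    obtain ⟨n, v, hn⟩ : ∃ (n : ℕ) (v : PowerSeries κ), PowerSeries.X ^ n = q * v := by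
      refine ⟨q.order.toNat, PowerSeries.Inv_divided_by_X_pow_order hq0, ?_⟩
      have h1 := PowerSeries.X_pow_order_mul_divXPowOrder (f := q)
      have h2 := PowerSeries.Inv_divided_by_X_pow_order_rightInv hq0
      calc (PowerSeries.X : PowerSeries κ) ^ q.order.toNat
          = PowerSeries.X ^ q.order.toNat * (PowerSeries.divXPowOrder q *
            PowerSeries.Inv_divided_by_X_pow_order hq0) := by rw [h2, mul_one]
        _ = (PowerSeries.X ^ q.order.toNat * PowerSeries.divXPowOrder q) *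
            PowerSeries.Inv_divided_by_X_pow_order hq0 := by rw [mul_assoc]
        _ = _ := by rw [h1]
    refine ⟨n, PowerSeries.X ^ (b * n - n) * v, ?_⟩
    rw [mul_left_comm, ← hn, ← pow_add]
    congr 1
    have : n ≤ b * n := Nat.le_mul_of_pos_left _ hb
    omega
  refine ⟨p * u, N, ?_⟩
  have hq1 : algebraMap (PowerSeries κ) (KK κ) q ≠ 0 := by
    rw [Ne, IsFractionRing.to_map_eq_zero_iff]
    exact hq0
  rw [hu, map_mul, map_mul]
  field_simp


/-! ### combinatorics -/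

private noncomputable def gmk (x : ℕ × ℕ) : Fin 2 →₀ ℕ := Finsupp.single 0 x.1 + Finsupp.single 1 x.2

private theorem gmk0 (x : ℕ × ℕ) : gmk x 0 = x.1 := by
  simp [gmk]

private theorem gmk1 (x : ℕ × ℕ) : gmk x 1 = x.2 := by
  simp [gmk]

private theorem gmk_eta (e : Fin 2 →₀ ℕ) : gmk (e 0, e 1) = e := by
  ext j
  fin_cases j
  · exact gmk0 _
  · exact gmk1 _

private theorem gmk_inj {x y : ℕ × ℕ} (h : gmk x = gmk y) : x = y := by
  have h0 := DFunLike.congr_fun h 0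
  have h1 := DFunLike.congr_fun h 1
  rw [gmk0, gmk0] at h0
  rw [gmk1, gmk1] at h1
  exact Prod.ext h0 h1

private theorem g_wt (a b : ℕ) (x : ℕ × ℕ) : wt a b (gmk x) = a * x.1 + b * x.2 := by
  unfold wt
  rw [gmk0, gmk1]

/-- sums `∑ lam n_j > 1` are bounded away from `1` -/
private theorem g_eps {r : ℕ} {lam : Fin r → ℝ} (hlam : ∀ j, 0 < lam j) :
    ∃ ε : ℝ, 0 < ε ∧ ∀ n : Fin r → ℕ, 1 < ∑ j, lam j * n j → 1 + ε ≤ ∑ j, lam j * n j := by
  classical
  let T : Set (Fin r → ℕ) := {n | 1 < ∑ j, lam j * n j ∧ ∑ j, lam j * n j ≤ 2}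
  have hT : T.Finite := by
    refine Set.Finite.subset (Set.Finite.pi' (t := fun j => Set.Iic ⌊2 / lam j⌋₊)
      (fun j => Set.finite_Iic _)) fun n hn j => ?_
    have h1 : lam j * n j ≤ 2 := by
      refine le_trans ?_ hn.2
      exact Finset.single_le_sum (f := fun j => lam j * (n j : ℝ))
        (fun j _ => mul_nonneg (hlam j).le (Nat.cast_nonneg _)) (Finset.mem_univ j)
    have h2 : (n j : ℝ) ≤ 2 / lam j := by
      rw [le_div_iff₀ (hlam j)]
      linarith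
    exact Nat.le_floor h2
  rcases T.eq_empty_or_nonempty with h0 | h0
  · refine ⟨1, one_pos, fun n hn => ?_⟩
    by_contra hcon
    have : n ∈ T := ⟨hn, by linarith⟩
    rw [h0] at this
    exact this
  · obtain ⟨m, hm, hmin⟩ := Set.exists_min_image T (fun n => ∑ j, lam j * (n j : ℝ)) hT h0
    have hm1 : 1 < ∑ j, lam j * (m j : ℝ) := hm.1
    have hm2 : ∑ j, lam j * (m j : ℝ) ≤ 2 := hm.2
    refine ⟨∑ j, lam j * (m j : ℝ) - 1, by linarith, fun n hn => ?_⟩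
    by_cases hn2 : ∑ j, lam j * (n j : ℝ) ≤ 2
    · have := hmin n ⟨hn, hn2⟩
      linarith
    · linarith

/-- a family with `LowB` has no zero group -/
private theorem g_ne {κ : Type u} [Field κ] {r : ℕ} {J : Type} {lam : Fin r → ℝ}
    (hlam : ∀ j, 0 < lam j) {grp : J → Fin r} {g : J → AA κ} (hL : LowB lam grp g) (j : Fin r) :
    ∃ h, grp h = j ∧ g h ≠ 0 := by
  classical
  by_contra hcon
  push Not at hcon
  obtain ⟨K, hK⟩ := hL
  obtain ⟨Q, hQ⟩ := exists_generic κ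
  obtain ⟨M, hM⟩ := exists_nat_gt (K / lam j)
  have h1 := hK (Om κ) Q 0 (fun i => if i = j then M else 0) hQ (by
    intro h
    by_cases hj : grp h = j
    · rw [hcon h hj, ev_zero]
      exact dvd_zero _
    · show (PowerSeries.X : PowerSeries (Om κ)) ^ (if grp h = j then M else 0) ∣ ev Q (g h)
      rw [if_neg hj, pow_zero]
      exact one_dvd _)
  have h2 : ∑ i, lam i * (((if i = j then M else 0 : ℕ)) : ℝ) = lam j * M := by
    rw [Finset.sum_eq_single j]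
    · rw [if_pos rfl]
    · intro i _ hi
      rw [if_neg hi, Nat.cast_zero, mul_zero]
    · intro h
      exact absurd (Finset.mem_univ j) h
  rw [h2] at h1
  rw [div_lt_iff₀ (hlam j)] at hM
  push_cast at h1
  nlinarith

/-- the data of an edge of the Newton polygons -/
private structure Ed {κ : Type u} [Field κ] {r : ℕ} {J : Type} (lam : Fin r → ℝ) (grp : J → Fin r)
    (g : J → AA κ) (a b : ℕ) (t : ℝ) (d : Fin r → ℕ) (vL vR : Fin r → Fin 2 →₀ ℕ) : Prop where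
  ha : 0 < a
  hb : 0 < b
  cop : Nat.Coprime a b
  t0 : 0 < t
  t1 : t ≤ 1
  sum : ∑ j, lam j * d j = (a + b) * t
  low : ∀ h e, mc (g h) e ≠ 0 → d (grp h) ≤ wt a b e
  vL0 : ∀ j, ∃ h, grp h = j ∧ mc (g h) (vL j) ≠ 0
  vL1 : ∀ j, wt a b (vL j) = d j
  vL2 : ∑ j, lam j * (vL j) 0 < t
  vR0 : ∀ j, ∃ h, grp h = j ∧ mc (g h) (vR j) ≠ 0
  vR1 : ∀ j, wt a b (vR j) = d j
  vR2 : ∑ j, lam j * (vR j) 1 < t

/-- the invariant of the loop -/
private structure Inv {κ : Type u} [Field κ] {r : ℕ} {J : Type} (lam : Fin r → ℝ)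
    (grp : J → Fin r) (g : J → AA κ) (b : ℕ) (d B : Fin r → ℕ) : Prop where
  hb : 0 < b
  low : ∀ h e, mc (g h) e ≠ 0 → d (grp h) ≤ wt 1 b e
  lowB : ∀ h e, mc (g h) e ≠ 0 → wt 1 b e = d (grp h) → B (grp h) ≤ e 1
  vx : ∀ j, ∃ h, grp h = j ∧ ∃ e, mc (g h) e ≠ 0 ∧ e 1 = B j ∧ wt 1 b e = d j
  le : ∑ j, lam j * ((d j : ℝ) - b * B j) ≤ 1

/-- the alternatives of `polygon` -/
private theorem g_poly {κ : Type u} [Field κ] {r : ℕ} {J : Type} {lam : Fin r → ℝ}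
    (hlam : ∀ j, 0 < lam j) {grp : J → Fin r} {g : J → AA κ} (hL : LowB lam grp g) :
    (∃ (w₀ w₁ : ℕ) (v : Fin r → Fin 2 →₀ ℕ), 0 < w₀ ∧ 0 < w₁ ∧
      (∀ j, ∃ h, grp h = j ∧ mc (g h) (v j) ≠ 0) ∧
      (∀ h e, mc (g h) e ≠ 0 → e ≠ v (grp h) → wt w₀ w₁ (v (grp h)) < wt w₀ w₁ e) ∧
      ∑ j, lam j * (v j) 0 ≤ 1 ∧ ∑ j, lam j * (v j) 1 ≤ 1) ∨
    ∃ (a b : ℕ) (t : ℝ) (d : Fin r → ℕ) (vL vR : Fin r → Fin 2 →₀ ℕ),
      Ed lam grp g a b t d vL vR ∧ 1 < ∑ j, lam j * (vL j) 1 ∧ 1 < ∑ j, lam j * (vR j) 0 := by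
  let S : Fin r → Set (ℕ × ℕ) := fun j => {x | ∃ h, grp h = j ∧ mc (g h) (gmk x) ≠ 0}
  have hS : ∀ j, (S j).Nonempty := by
    intro j
    obtain ⟨h, hj, hh⟩ := g_ne hlam hL j
    obtain ⟨e, he⟩ : ∃ e, mc (g h) e ≠ 0 := by
      by_contra hcon
      push Not at hcon
      exact hh (mc_ext fun e => by rw [hcon e, mc_zero])
    exact ⟨(e 0, e 1), h, hj, by rw [gmk_eta]; exact he⟩
  have hmem : ∀ h e, mc (g h) e ≠ 0 → (e 0, e 1) ∈ S (grp h) := fun h e he =>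
    ⟨h, rfl, by rw [gmk_eta]; exact he⟩
  rcases polygon hlam S hS (fun w₀ w₁ _ _ φ hφ => newt_le hL w₀ w₁ φ fun h e he =>
      hφ (grp h) _ (hmem h e he)) with
    ⟨w₀, w₁, v, h0, h1, hv, hu, hs0, hs1⟩ | ⟨a, b, t, d, vL, vR, ha, hb, hc, ht0, ht1, hs, hd,
      hvL, hvR, h1, h2, h3, h4⟩
  · left
    refine ⟨w₀, w₁, fun j => gmk (v j), h0, h1, fun j => hv j, ?_, ?_, ?_⟩
    · intro h e he hne
      rw [g_wt]
      refine hu (grp h) (e 0, e 1) (hmem h e he) fun h5 => hne ?_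
      show e = gmk (v (grp h))
      rw [← h5, gmk_eta]
    · simp only [gmk0]
      exact hs0
    · simp only [gmk1]
      exact hs1
  · right
    refine ⟨a, b, t, d, fun j => gmk (vL j), fun j => gmk (vR j), ⟨ha, hb, hc, ht0, ht1, hs,
      fun h e he => hd (grp h) _ (hmem h e he), fun j => (hvL j).1, fun j => ?_, ?_,
      fun j => (hvR j).1, fun j => ?_, ?_⟩, ?_, ?_⟩
    · rw [g_wt]
      exact (hvL j).2.1
    · simp only [gmk0]
      exact h1
    · rw [g_wt]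
      exact (hvR j).2.1
    · simp only [gmk1]
      exact h2
    · simp only [gmk1]
      exact h3
    · simp only [gmk0]
      exact h4

/-- the face functions of an edge -/
private theorem g_face {κ : Type u} [Field κ] {J : Type} {r : ℕ} {grp : J → Fin r} {a b : ℕ}
    (ha : 0 < a) (hb : 0 < b) (d : Fin r → ℕ) (g : J → AA κ) :
    ∃ F : J → MvPolynomial (Fin 2) (PowerSeries κ),
      ∀ h, toAA (F h) = topA a b (d (grp h)) (g h) := by
  have key : ∀ h, ∃ F, toAA F = topA a b (d (grp h)) (g h) := by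
    intro h
    refine exists_toAA _ (d (grp h)) fun e he => ?_
    rw [mc_topA, if_neg]
    unfold wt
    have h0 : e 0 ≤ a * e 0 := Nat.le_mul_of_pos_left _ ha
    have h1 : e 1 ≤ b * e 1 := Nat.le_mul_of_pos_left _ hb
    omega
  choose F hF using key
  exact ⟨F, hF⟩

private theorem g_coeff {κ : Type u} [Field κ] (F : MvPolynomial (Fin 2) (PowerSeries κ))
    (e : Fin 2 →₀ ℕ) : coeff e (toKK F) = 0 ↔ coeff e F = 0 := by
  unfold toKK
  rw [coeff_map]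
  exact map_eq_zero_iff _ (IsFractionRing.injective _ _)

/-- a monomial with a small exponent forbids divisibility -/
private theorem g_ndvd {K : Type u} [Field K] {F : MvPolynomial (Fin 2) K} {e : Fin 2 →₀ ℕ}
    (he : coeff e F ≠ 0) (j : Fin 2) : ¬ (X j : MvPolynomial (Fin 2) K) ^ (e j + 1) ∣ F := by
  rintro ⟨G, rfl⟩
  apply he
  rw [X_pow_eq_monomial, coeff_monomial_mul', if_neg]
  rw [Finsupp.single_le_iff]
  omega


/-- the face functions of an edge form a state, or one factor has a large mass -/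
private theorem g_edge {κ : Type u} [Field κ] {r : ℕ} {J : Type} [Fintype J] {lam : Fin r → ℝ}
    (hlam : ∀ j, 0 < lam j) {grp : J → Fin r} {g : J → AA κ} {a b : ℕ} {t : ℝ} {d : Fin r → ℕ}
    {vL vR : Fin r → Fin 2 →₀ ℕ} (E : Ed lam grp g a b t d vL vR) (hab : a ≤ b)
    {F : J → MvPolynomial (Fin 2) (PowerSeries κ)}
    (hF : ∀ h, toAA (F h) = topA a b (d (grp h)) (g h)) :
    Stt a b (fun j => t⁻¹ * lam j) grp d (fun h => toKK (F h)) ∨
    (a = 1 ∧ ∃ (γ : PowerSeries κ) (N : ℕ) (B : Fin r → ℕ),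
      Inv lam grp (fun h => ev (chA 0 (Polynomial.monomial b γ) N N) (g h)) b d B) := by
  have hco : ∀ h e, coeff e (F h) = if wt a b e = d (grp h) then mc (g h) e else 0 := by
    intro h e
    rw [← mc_toAA, hF h, mc_topA]
  have hK : ∀ h e, coeff e (toKK (F h)) ≠ 0 ↔ (wt a b e = d (grp h) ∧ mc (g h) e ≠ 0) := by
    intro h e
    rw [Ne, g_coeff, hco]
    split_ifs with h1
    · simp [h1]
    · simp [h1]
  have hom : ∀ h e, coeff e (toKK (F h)) ≠ 0 → wt a b e = d (grp h) := fun h e he =>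
    ((hK h e).1 he).1
  have hL : ∀ j, ∃ h, grp h = j ∧ coeff (vL j) (toKK (F h)) ≠ 0 := by
    intro j
    obtain ⟨h, hj, hh⟩ := E.vL0 j
    exact ⟨h, hj, (hK _ _).2 ⟨by rw [E.vL1 j, hj], hh⟩⟩
  have hR : ∀ j, ∃ h, grp h = j ∧ coeff (vR j) (toKK (F h)) ≠ 0 := by
    intro j
    obtain ⟨h, hj, hh⟩ := E.vR0 j
    exact ⟨h, hj, (hK _ _).2 ⟨by rw [E.vR1 j, hj], hh⟩⟩
  have ne : ∀ j, ∃ h, grp h = j ∧ toKK (F h) ≠ 0 := by
    intro j
    obtain ⟨h, hj, hh⟩ := hL j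
    exact ⟨h, hj, fun h0 => hh (by rw [h0, coeff_zero])⟩
  have mx : MLt lam grp (fun h => toKK (F h)) (X 0) t := by
    refine ⟨fun j => vL j 0, fun j => ?_, E.vL2⟩
    obtain ⟨h, hj, hh⟩ := hL j
    exact ⟨h, hj, g_ndvd hh 0⟩
  have my : MLt lam grp (fun h => toKK (F h)) (X 1) t := by
    refine ⟨fun j => vR j 1, fun j => ?_, E.vR2⟩
    obtain ⟨h, hj, hh⟩ := hR j
    exact ⟨h, hj, g_ndvd hh 1⟩
  have hti : 0 < t⁻¹ := inv_pos.2 E.t0
  have hscale : ∀ B : Fin r → ℕ, ∑ j, t⁻¹ * lam j * (B j : ℝ) = t⁻¹ * ∑ j, lam j * (B j : ℝ) := by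
    intro B
    rw [Finset.mul_sum]
    exact Finset.sum_congr rfl fun j _ => by ring
  have hlt : ∀ p, MLt lam grp (fun h => toKK (F h)) p t →
      MLt (fun j => t⁻¹ * lam j) grp (fun h => toKK (F h)) p 1 := by
    rintro p ⟨B, hB, hB1⟩
    refine ⟨B, hB, ?_⟩
    rw [hscale]
    have := mul_lt_mul_of_pos_left hB1 hti
    rwa [inv_mul_cancel₀ E.t0.ne'] at this
  have hle : ∀ p, MLe lam grp (fun h => toKK (F h)) p t →
      MLe (fun j => t⁻¹ * lam j) grp (fun h => toKK (F h)) p 1 := by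
    rintro p ⟨B, hB, hB1⟩
    refine ⟨B, hB, ?_⟩
    rw [hscale]
    have := mul_le_mul_of_nonneg_left hB1 hti.le
    rwa [inv_mul_cancel₀ E.t0.ne'] at this
  rcases mass_alt E.ha hab E.cop hlam hom ne E.t0 E.sum mx my with ⟨h1, h2⟩ | ⟨rfl, c, B, hc,
    hB1, hB2, hB3⟩
  · left
    exact
      { ha := E.ha
        hab := hab
        cop := E.cop
        hmu := fun j => mul_pos hti (hlam j)
        hom := hom
        ne := ne
        sum := by
          rw [hscale, E.sum, mul_comm ((a : ℝ) + b) t, ← mul_assoc, inv_mul_cancel₀ E.t0.ne',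
            one_mul]
        mx := hlt _ mx
        my := hlt _ my
        wk := fun p hp => hle p (h1 p hp)
        st := h2.imp id fun h p hp => hlt p (h p hp) }
  · right
    refine ⟨rfl, ?_⟩
    obtain ⟨γ, N, hγ⟩ := g_int c E.hb
    obtain ⟨s1, s2, s3⟩ := shift_face E.hb E.low hF c γ N hγ hB1 hB2
    refine ⟨γ, N, B, ⟨E.hb, s1, s2, s3, ?_⟩⟩
    have h3 : ∑ j, lam j * ((d j : ℝ) - b * B j) =
        ∑ j, lam j * (d j : ℝ) - b * ∑ j, lam j * (B j : ℝ) := by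
      rw [Finset.mul_sum, ← Finset.sum_sub_distrib]
      exact Finset.sum_congr rfl fun j _ => by ring
    rw [h3, E.sum]
    have hb1 : (1 : ℝ) ≤ b := by exact_mod_cast E.hb
    have ht1 := E.t1
    push_cast
    nlinarith

/-- in the loop the slope increases -/
private theorem g_slope {κ : Type u} [Field κ] {r : ℕ} {J : Type} {lam : Fin r → ℝ}
    (hlam : ∀ j, 0 < lam j) {grp : J → Fin r} {g : J → AA κ} {a b : ℕ} {t : ℝ} {d : Fin r → ℕ}
    {vL vR : Fin r → Fin 2 →₀ ℕ} (E : Ed lam grp g a b t d vL vR)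
    (hR : 1 < ∑ j, lam j * (vR j) 0) {b₀ : ℕ} {d₀ B₀ : Fin r → ℕ}
    (I : Inv lam grp g b₀ d₀ B₀) : b₀ * a < b := by
  by_contra hcon
  push Not at hcon
  have key : ∀ j, ((vR j 0 : ℕ) : ℝ) ≤ (d₀ j : ℝ) - b₀ * B₀ j := by
    intro j
    obtain ⟨h, hj, e, he, he1, hew⟩ := I.vx j
    obtain ⟨h', hj', hh'⟩ := E.vR0 j
    have h1 := E.low h e he
    have h2 := E.vR1 j
    have h3 := I.low h' _ hh'
    have h4 := I.lowB h' _ hh'
    rw [hj] at h1
    rw [hj'] at h3 h4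
    unfold wt at h1 h2 h3 h4 hew
    have h5 : (vR j) 0 ≤ e 0 := by
      by_contra h6
      push Not at h6
      rw [he1] at h1 hew
      have hb := E.hb
      have ha := E.ha
      -- the second coordinate of `vR j` is smaller
      have h7 : (vR j) 1 < B₀ j := by
        by_contra h8
        push Not at h8
        have h9 : b * B₀ j ≤ b * (vR j) 1 := Nat.mul_le_mul_left _ h8
        have h10 : a * (e 0) < a * (vR j) 0 := Nat.mul_lt_mul_of_pos_left h6 ha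
        omega
      have h8 : 1 * (vR j) 0 + b₀ * (vR j) 1 ≠ d₀ j := fun h9 => by
        have := h4 h9
        omega
      have h9 : d₀ j + 1 ≤ 1 * (vR j) 0 + b₀ * (vR j) 1 := by omega
      -- `a * (vR 0 - e 0) ≤ b (B₀ - vR 1) ≤ b₀ a (B₀ - vR 1)`
      obtain ⟨x, hx⟩ := Nat.exists_eq_add_of_lt h6
      obtain ⟨y, hy⟩ := Nat.exists_eq_add_of_lt h7
      rw [hx] at h2 h9
      rw [hy] at h1 hew
      have h10 : a * (x + 1) ≤ b * (y + 1) := by nlinarith
      have h11 : b₀ * (y + 1) < x + 1 := by nlinarith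
      have h12 : b * (y + 1) ≤ (b₀ * a) * (y + 1) := Nat.mul_le_mul_right _ hcon
      have h13 : a * (b₀ * (y + 1)) < a * (x + 1) := Nat.mul_lt_mul_of_pos_left h11 ha
      nlinarith
    have h6 : ((vR j 0 : ℕ) : ℝ) ≤ (e 0 : ℝ) := by exact_mod_cast h5
    have h7 : ((1 * e 0 + b₀ * e 1 : ℕ) : ℝ) = (d₀ j : ℝ) := by rw [hew]
    rw [he1] at h7
    push_cast at h7
    linarith
  have h1 : ∑ j, lam j * ((vR j 0 : ℕ) : ℝ) ≤ ∑ j, lam j * ((d₀ j : ℝ) - b₀ * B₀ j) :=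
    Finset.sum_le_sum fun j _ => mul_le_mul_of_nonneg_left (key j) (hlam j).le
  linarith [I.le]

/-- the measure decreases -/
private theorem g_drop {κ : Type u} [Field κ] {r : ℕ} {J : Type} {lam : Fin r → ℝ}
    (hlam : ∀ j, 0 < lam j) {grp : J → Fin r} {g : J → AA κ} {b : ℕ} {t : ℝ} {d : Fin r → ℕ}
    {vL vR : Fin r → Fin 2 →₀ ℕ} (E : Ed lam grp g 1 b t d vL vR) {ε : ℝ}
    (hε : 0 < ε) (hL : 1 + ε ≤ ∑ j, lam j * (vL j) 1) {b₀ : ℕ} {d₀ B₀ : Fin r → ℕ}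
    (I : Inv lam grp g b₀ d₀ B₀) (hb : b₀ < b) :
    (1 + (b : ℝ)) - ∑ j, lam j * (d j : ℝ) ≤ (1 + (b₀ : ℝ)) - ∑ j, lam j * (d₀ j : ℝ) - ε := by
  have key : ∀ j, ((b : ℝ) - b₀) * ((vL j 1 : ℕ) : ℝ) ≤ (d j : ℝ) - d₀ j := by
    intro j
    obtain ⟨h, hj, hh⟩ := E.vL0 j
    have h1 := E.vL1 j
    have h2 := I.low h _ hh
    rw [hj] at h2
    unfold wt at h1 h2
    have h3 : ((1 * (vL j) 0 + b * (vL j) 1 : ℕ) : ℝ) = (d j : ℝ) := by rw [h1]
    have h4 : (d₀ j : ℝ) ≤ ((1 * (vL j) 0 + b₀ * (vL j) 1 : ℕ) : ℝ) := by exact_mod_cast h2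
    push_cast at h3 h4
    linarith
  have h1 : ((b : ℝ) - b₀) * ∑ j, lam j * ((vL j 1 : ℕ) : ℝ) ≤
      ∑ j, lam j * (d j : ℝ) - ∑ j, lam j * (d₀ j : ℝ) := by
    rw [Finset.mul_sum, ← Finset.sum_sub_distrib]
    refine Finset.sum_le_sum fun j _ => ?_
    have := mul_le_mul_of_nonneg_left (key j) (hlam j).le
    linarith
  have h2 : (1 : ℝ) ≤ (b : ℝ) - b₀ := by
    have : (b₀ : ℝ) + 1 ≤ b := by exact_mod_cast hb
    linarith
  nlinarith

/-- exchange of the coordinates -/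
private theorem g_swap {κ : Type u} [Field κ] {r : ℕ} {J : Type} {lam : Fin r → ℝ}
    {grp : J → Fin r} {g : J → AA κ} {a b : ℕ} {t : ℝ} {d : Fin r → ℕ}
    {vL vR : Fin r → Fin 2 →₀ ℕ} (E : Ed lam grp g a b t d vL vR) :
    ∃ vL' vR', Ed lam grp (fun h => ev (swA κ) (g h)) b a t d vL' vR' := by
  have hsw : ∀ e : Fin 2 →₀ ℕ, Finsupp.single 0 (gmk (e 1, e 0) 1) +
      Finsupp.single 1 (gmk (e 1, e 0) 0) = e := by
    intro e
    rw [gmk0, gmk1]
    exact gmk_eta e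
  refine ⟨fun j => gmk (vR j 1, vR j 0), fun j => gmk (vL j 1, vL j 0), E.hb, E.ha, E.cop.symm,
    E.t0, E.t1, ?_, ?_, ?_, ?_, ?_, ?_, ?_, ?_⟩
  · rw [E.sum]
    ring
  · intro h e he
    rw [mc_swap] at he
    have h1 := E.low h _ he
    have h2 : wt a b (gmk (e 1, e 0)) = wt b a e := by
      rw [g_wt]
      unfold wt
      ring
    change d (grp h) ≤ wt a b (gmk (e 1, e 0)) at h1
    rw [h2] at h1
    exact h1
  · intro j
    obtain ⟨h, hj, hh⟩ := E.vR0 j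
    refine ⟨h, hj, ?_⟩
    rw [mc_swap, hsw]
    exact hh
  · intro j
    rw [g_wt, ← E.vR1 j]
    unfold wt
    ring
  · simp only [gmk0]
    exact E.vR2
  · intro j
    obtain ⟨h, hj, hh⟩ := E.vL0 j
    refine ⟨h, hj, ?_⟩
    rw [mc_swap, hsw]
    exact hh
  · intro j
    rw [g_wt, ← E.vL1 j]
    unfold wt
    ring
  · simp only [gmk1]
    exact E.vL2

theorem block_G {k : Type u} [Field k] [IsAlgClosed k] [CharZero k] {r : ℕ} {J : Type} [Fintype J]
    {lam : Fin r → ℝ} (hlam : ∀ j, 0 < lam j) {grp : J → Fin r} {f : J → AA (Gm k)}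
    (ne : ∀ j, ∃ h, grp h = j ∧ f h ≠ 0) (hL : LowB lam grp f)
    {c : ℕ → J → AA k} (hc : ∀ h, IsLim (fun i => c i h) (f h))
    {P : ℕ → Fin 2 → PowerSeries (Om k)} {C : ℕ → ℕ} {n : ℕ → Fin r → ℕ}
    (hA : Adm grp c P C n) (z : Fin 2 → PowerSeries (Gm k)) (hP : IsLimP P (ratP z)) :
    Dom lam grp c C n ∨ ∃ (a b : ℕ) (l : ℝ) (d : Fin r → ℕ) (χ : Fin 2 → AA (Gm k)) (N : ℕ)
      (F : J → MvPolynomial (Fin 2) (PowerSeries (Gm k))) (c' : ℕ → J → AA k)
      (P' : ℕ → Fin 2 → PowerSeries (Om k)) (C' : ℕ → ℕ) (n' : ℕ → Fin r → ℕ),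
      1 ≤ l ∧ Stt a b (fun j => l * lam j) grp d (fun h => toKK (F h)) ∧ IsCh χ N ∧
      (∀ j, mc (χ j) 0 = z j) ∧ (∀ h e, mc (ev χ (f h)) e ≠ 0 → d (grp h) ≤ wt a b e) ∧
      (∀ h, IsLim (fun i => c' i h) (toAA (F h))) ∧ Adm grp c' P' C' n' ∧
      (Dom (fun j => l * lam j) grp c' C' n' → Dom lam grp c C n) := by
  classical
  by_contra hgoal
  -- transfer to a chart
  have stage : ∀ (χ : Fin 2 → AA (Gm k)) (N : ℕ), IsCh χ N → (∀ j, mc (χ j) 0 = z j) →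
      ∃ (c₁ : ℕ → J → AA k) (P₁ : ℕ → Fin 2 → PowerSeries (Om k)) (C₁ : ℕ → ℕ)
        (n₁ : ℕ → Fin r → ℕ), (∀ h, IsLim (fun i => c₁ i h) (ev χ (f h))) ∧
        Adm grp c₁ P₁ C₁ n₁ ∧ IsLimP P₁ (ratP 0) ∧
        (Dom lam grp c₁ C₁ n₁ → Dom lam grp c C n) := by
    intro χ N hχ hz
    have hz' : (fun j => ev (0 : Fin 2 → PowerSeries (Gm k)) (χ j)) = z := funext fun j => by
      rw [g_ev0, hz]
    obtain ⟨χ', P', h1, h2, h3, h4⟩ := isCh_lim hχ P 0 (by rw [hz']; exact hP)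
    obtain ⟨h5, h6⟩ := adm_isCh hA h1 h4
    exact ⟨fun i h => ev (χ' i) (c i h), P', fun i => C i - N, n,
      fun h => IsLim.ev h2 (hc h), h6, h3, fun h => dom_isCh h1 h5 h⟩
  -- there is always an edge
  have hedge : ∀ (χ : Fin 2 → AA (Gm k)) (N : ℕ), IsCh χ N → (∀ j, mc (χ j) 0 = z j) →
      ∃ (a b : ℕ) (t : ℝ) (d : Fin r → ℕ) (vL vR : Fin r → Fin 2 →₀ ℕ),
        Ed lam grp (fun h => ev χ (f h)) a b t d vL vR ∧ 1 < ∑ j, lam j * (vL j) 1 ∧
        1 < ∑ j, lam j * (vR j) 0 := by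
    intro χ N hχ hz
    rcases g_poly hlam (lowB_isCh hχ hL) with ⟨w₀, w₁, v, h0, h1, hv, hu, hs0, hs1⟩ | h
    · exfalso
      obtain ⟨c₁, P₁, C₁, n₁, h2, h3, h4, h5⟩ := stage χ N hχ hz
      exact hgoal (Or.inl (h5 (mono_dom hlam h2 h3 h4 h0 h1 v hv hu hs0 hs1)))
    · exact h
  -- an edge with `a ≤ b` leads to a new chart
  have hnew : ∀ (χ : Fin 2 → AA (Gm k)) (N : ℕ), IsCh χ N → (∀ j, mc (χ j) 0 = z j) →
      ∀ (a b : ℕ) (t : ℝ) (d : Fin r → ℕ) (vL vR : Fin r → Fin 2 →₀ ℕ),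
        Ed lam grp (fun h => ev χ (f h)) a b t d vL vR → a ≤ b →
        a = 1 ∧ ∃ (χ' : Fin 2 → AA (Gm k)) (N' : ℕ) (B : Fin r → ℕ), IsCh χ' N' ∧
          (∀ j, mc (χ' j) 0 = z j) ∧ Inv lam grp (fun h => ev χ' (f h)) b d B := by
    intro χ N hχ hz a b t d vL vR E hab
    obtain ⟨F, hF⟩ := g_face E.ha E.hb d (grp := grp) (fun h => ev χ (f h))
    rcases g_edge hlam E hab hF with hS | ⟨h1, γ, M, B, hI⟩
    · exfalso
      obtain ⟨c₁, P₁, C₁, n₁, h2, h3, h4, h5⟩ := stage χ N hχ hz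
      have ht : 1 ≤ t⁻¹ := (one_le_inv₀ E.t0).2 E.t1
      obtain ⟨c', P', C', n', h6, h7, h8⟩ := slow hlam h2 h3 h4 E.ha E.hb E.low hF ht (by
        rw [E.sum, mul_comm ((a : ℝ) + b) t, ← mul_assoc, inv_mul_cancel₀ E.t0.ne', one_mul])
      exact hgoal (Or.inr ⟨a, b, t⁻¹, d, χ, N, F, c', P', C', n', ht, hS, hχ, hz, E.low, h6, h7,
        fun h => h5 (h8 h)⟩)
    · refine ⟨h1, fun j => ev (chA 0 (Polynomial.monomial b γ) M M) (χ j), N + (M + M), B,
        hχ.comp (g_chM b M γ), fun j => g_cenComp hz (g_chM0 E.hb M γ) j, ?_⟩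
      have h2 : (fun h => ev (fun j => ev (chA 0 (Polynomial.monomial b γ) M M) (χ j)) (f h)) =
          fun h => ev (chA 0 (Polynomial.monomial b γ) M M) (ev χ (f h)) :=
        funext fun h => (ev_ev _ _ _).symm
      rw [h2]
      exact hI
  obtain ⟨ε, hε, hε1⟩ := g_eps hlam
  -- the loop
  have loop : ∀ (m : ℕ) (χ : Fin 2 → AA (Gm k)) (N : ℕ), IsCh χ N →
      (∀ j, mc (χ j) 0 = z j) → ∀ (b₀ : ℕ) (d₀ B₀ : Fin r → ℕ),
      Inv lam grp (fun h => ev χ (f h)) b₀ d₀ B₀ →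
      (1 + (b₀ : ℝ)) - ∑ j, lam j * (d₀ j : ℝ) ≤ m * ε → False := by
    intro m
    induction m with
    | zero =>
      intro χ N hχ hz b₀ d₀ B₀ I hm
      obtain ⟨a, b, t, d, vL, vR, E, hvL, hvR⟩ := hedge χ N hχ hz
      have hs := g_slope hlam E hvR I
      have hab : a ≤ b := le_of_lt (lt_of_le_of_lt (Nat.le_mul_of_pos_left _ I.hb) hs)
      obtain ⟨rfl, χ', N', B, hχ', hz', I'⟩ := hnew χ N hχ hz a b t d vL vR E hab
      rw [mul_one] at hs
      have hd := g_drop hlam E hε (hε1 _ hvL) I hs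
      rw [E.sum] at hd
      have h1 := E.t1
      have h2 : (0 : ℝ) ≤ b := Nat.cast_nonneg _
      push_cast at hm hd
      nlinarith
    | succ m ih =>
      intro χ N hχ hz b₀ d₀ B₀ I hm
      obtain ⟨a, b, t, d, vL, vR, E, hvL, hvR⟩ := hedge χ N hχ hz
      have hs := g_slope hlam E hvR I
      have hab : a ≤ b := le_of_lt (lt_of_le_of_lt (Nat.le_mul_of_pos_left _ I.hb) hs)
      obtain ⟨rfl, χ', N', B, hχ', hz', I'⟩ := hnew χ N hχ hz a b t d vL vR E hab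
      rw [mul_one] at hs
      have hd := g_drop hlam E hε (hε1 _ hvL) I hs
      refine ih χ' N' hχ' hz' b d B I' ?_
      push_cast at hm
      linarith
  -- the first step
  obtain ⟨χ₀, N₀, hχ₀, hz₀⟩ := g_trans z
  obtain ⟨a, b, t, d, vL, vR, E, hvL, hvR⟩ := hedge χ₀ N₀ hχ₀ hz₀
  have fin : ∀ (χ : Fin 2 → AA (Gm k)) (N : ℕ), IsCh χ N → (∀ j, mc (χ j) 0 = z j) →
      ∀ (a b : ℕ) (t : ℝ) (d : Fin r → ℕ) (vL vR : Fin r → Fin 2 →₀ ℕ),
        Ed lam grp (fun h => ev χ (f h)) a b t d vL vR → a ≤ b → False := by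
    intro χ N hχ hz a b t d vL vR E hab
    obtain ⟨_, χ', N', B, hχ', hz', I'⟩ := hnew χ N hχ hz a b t d vL vR E hab
    obtain ⟨m, hm⟩ := exists_nat_ge (((1 + (b : ℝ)) - ∑ j, lam j * (d j : ℝ)) / ε)
    exact loop m χ' N' hχ' hz' b d B I' (by rwa [div_le_iff₀ hε] at hm)
  rcases le_total a b with hab | hab
  · exact fin χ₀ N₀ hχ₀ hz₀ a b t d vL vR E hab
  · obtain ⟨vL', vR', E'⟩ := g_swap E
    have h2 : (fun h => ev (fun j => ev (swA (Gm k)) (χ₀ j)) (f h)) =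
        fun h => ev (swA (Gm k)) (ev χ₀ (f h)) := funext fun h => (ev_ev _ _ _).symm
    exact fin (fun j => ev (swA (Gm k)) (χ₀ j)) N₀ hχ₀.swap (fun j => g_cenComp hz₀ g_sw0 j)
      b a t d vL' vR' (by rw [h2]; exact E') hab

end M3
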