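import Pool.Agent.M3.DegA

/-!
PIECE M3-C00: the bound passes from the top part to the function.

PROOF. Let `P` be an arc over `L/κ` with `Cod κ P C`, `OrdGe grp (toAA ∘ G) P n`, `m :=` a bound of all `n j`.
`deg_top` (level `m`, weights `a`, `b`): `P₀` with `CodLe κ P₀ m C`.  `toAA (G h)`: all monomials have weight `≤ d (grp h)` (by `hG` a
monomial of weight `> d` of `G h` is one of `F h`, impossible by `hF`) and `topA a b (d (grp h)) (toAA (G h)) = toAA (F h)`
(`mc_topA`, `mc_toAA`, `mc_ext`).  So `X^(n (grp h)) ∣ ev P₀ (toAA (F h))`.  `exists_cont` gives an arc `Q` over `Om κ` with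
`Cod κ Q C` and the same divisibilities, so `-K ≤ C - ∑ mu j n j` with the constant `K` of `hL`.
-/

open MvPolynomial

namespace M3

universe u

theorem lowB_top {κ : Type u} [Field κ] {r : ℕ} {J : Type} [Fintype J]
    {a b : ℕ} (ha : 0 < a) (hb : 0 < b) {mu : Fin r → ℝ} (hmu : ∀ j, 0 < mu j) {grp : J → Fin r}
    {d : Fin r → ℕ} {F G : J → MvPolynomial (Fin 2) (PowerSeries κ)}
    (hF : ∀ h e, coeff e (F h) ≠ 0 → wt a b e = d (grp h))
    (hG : ∀ h e, d (grp h) ≤ wt a b e → coeff e (G h) = coeff e (F h))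
    (hL : LowB mu grp (fun h => toAA (F h))) : LowB mu grp (fun h => toAA (G h)) := by
  obtain ⟨K, hK⟩ := hL
  refine ⟨K, ?_⟩
  intro L _ _ P C n hP hn
  obtain ⟨m, hm⟩ : ∃ m, ∀ j, n j ≤ m :=
    ⟨∑ j, n j, fun j => Finset.single_le_sum (fun _ _ => Nat.zero_le _) (Finset.mem_univ j)⟩
  obtain ⟨L₀, hf, ha0, P₀, hP₀, hdeg⟩ := deg_top P m C (hP m) a b
  obtain ⟨Q, hQ, hQd⟩ := exists_cont P₀ m C hP₀
  refine hK (Om κ) Q C n hQ fun h => ?_
  have hmc : ∀ e, mc (toAA (G h)) e ≠ 0 → wt a b e ≤ d (grp h) := by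
    intro e he
    rw [mc_toAA] at he
    by_contra hlt
    push Not at hlt
    rw [hG h e hlt.le] at he
    exact hlt.ne' (hF h e he)
  have htop : topA a b (d (grp h)) (toAA (G h)) = toAA (F h) := by
    refine mc_ext fun e => ?_
    rw [mc_topA, mc_toAA, mc_toAA]
    split_ifs with hw
    · exact hG h e hw.ge
    · by_contra hne
      exact hw (hF h e (Ne.symm hne))
  have h1 : (PowerSeries.X : PowerSeries L₀) ^ n (grp h) ∣ ev P₀ (toAA (F h)) := by
    rw [← htop]
    refine hdeg (toAA (G h)) (d (grp h)) (n (grp h)) (hm _) ?_ (hn h)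
    intro i _ e he
    refine hmc e fun h0 => he ?_
    rw [← coeff_mc, h0, map_zero]
  exact hQd (toAA (F h)) (n (grp h)) (hm _) h1

end M3
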