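import Pool.Agent.M3.UDef
import Pool.Agent.M3.Mc

/-!
PIECE M3-U01: charts are polynomial automorphisms over the field of Laurent series.

PROOF. `ev_toAA_toAA`: `ev_toAA` (Mc.lean) gives `ev P (toAA G) = eval₂ (PowerSeries.map (algebraMap κ R)) P G` with
`R = MvPolynomial (Fin 2) κ`, `algebraMap κ R = C`, so the ring homomorphism in `eval₂` is `cA`; on the other side
`toAA (aeval χp G)` is a ring homomorphism in `G` which is `cA c` on `C c` (`toAA_C`) and `toAA (χp j)` on `X j`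
(`MvPolynomial.induction_on` or `ringHom_ext`).
`isCh_pol`: induction on `IsCh`.  `refl`: `χp = X`, `θ = X` (`toAA_X`).
`swap`: `ev (swA κ) (toAA (χp j)) = toAA (aeval ![X 1, X 0] (χp j))` (`ev_toAA_toAA`, `swA κ = fun j => toAA (![X 1, X 0] j)`);
over `KK κ` the new automorphism is `fun j => aeval ψ (toKK (χp j))`, `ψ = ![X 1, X 0]`, `PolAut ψ ψ`, use `PolAut.comp`;
`toKK (aeval χp G) = aeval (toKK ∘ χp) (toKK G)` (`MvPolynomial.map_aeval`-type lemma; both sides are ring
homomorphisms in `G`, or `MvPolynomial.induction_on`).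
`step`: `chA c p N₀ N₁ = fun j => toAA (ψ j)` with `ψ = ![C c + C (X^N₀) * X 0, p.eval₂ C (X 0) + C (X^N₁) * X 1]`
(`toAA (p.eval₂ C (X 0)) = p.eval₂ cA (xA 0)`: `Polynomial.hom_eval₂`; `toAA (C (X^N)) = cA (X^N) = X^N`).  The inverse of `toKK ∘ ψ`
over `KK κ`: with `t` the image of `X` in `KK κ` (not zero), `φ 0 := C (t⁻¹)^N₀ * (X 0 - C c)`,
`φ 1 := C (t⁻¹)^N₁ * (X 1 - p_K(φ 0))`, `p_K(φ 0) := p.eval₂ (C ∘ algebraMap) (φ 0)`.
`isCh_trans`: `χK j := toKK (χp j)`; `coeff e (toKK p) = algebraMap (coeff e p)` (`coeff_map`), `mc_toAA`,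
`ev_toAA_toAA`.
-/

open MvPolynomial

namespace M3

universe u

section
variable {κ : Type u} [Field κ]

theorem ev_toAA_toAA (χp : Fin 2 → MvPolynomial (Fin 2) (PowerSeries κ))
    (G : MvPolynomial (Fin 2) (PowerSeries κ)) :
    ev (fun j => toAA (χp j)) (toAA G) = toAA (aeval χp G) := by
  rw [ev_toAA]
  have h : eval₂Hom (PowerSeries.map (algebraMap κ (MvPolynomial (Fin 2) κ)))
      (fun j => toAA (χp j)) = (toAA (k := κ)).comp (aeval χp).toRingHom := by
    apply MvPolynomial.ringHom_ext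
    · intro c
      rw [coe_eval₂Hom, eval₂_C]
      show PowerSeries.map C c = toAA (aeval χp (C c))
      rw [aeval_C, MvPolynomial.algebraMap_eq, toAA_C]
      rfl
    · intro j
      rw [coe_eval₂Hom, eval₂_X]
      show toAA (χp j) = toAA (aeval χp (X j))
      rw [aeval_X]
  exact congrArg (fun F => F G) h

private theorem uch_toKK_C (c : PowerSeries κ) :
    toKK (C c : MvPolynomial (Fin 2) (PowerSeries κ)) =
      C (algebraMap (PowerSeries κ) (KK κ) c) := by
  unfold toKK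
  rw [map_C]

private theorem uch_toKK_X (j : Fin 2) :
    toKK (X j : MvPolynomial (Fin 2) (PowerSeries κ)) = X j := by
  unfold toKK
  rw [map_X]

private theorem uch_toKK_aeval (χp : Fin 2 → MvPolynomial (Fin 2) (PowerSeries κ))
    (G : MvPolynomial (Fin 2) (PowerSeries κ)) :
    toKK (aeval χp G) = aeval (fun j => toKK (χp j)) (toKK G) := by
  have h : (toKK (k := κ)).comp (aeval χp).toRingHom =
      ((aeval (fun j => toKK (χp j)) : MvPolynomial (Fin 2) (KK κ) →ₐ[KK κ]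
        MvPolynomial (Fin 2) (KK κ)).toRingHom).comp (toKK (k := κ)) := by
    apply MvPolynomial.ringHom_ext
    · intro c
      show toKK (aeval χp (C c)) = aeval (fun j => toKK (χp j)) (toKK (C c))
      rw [aeval_C, MvPolynomial.algebraMap_eq, uch_toKK_C, aeval_C, MvPolynomial.algebraMap_eq]
    · intro j
      show toKK (aeval χp (X j)) = aeval (fun j => toKK (χp j)) (toKK (X j))
      rw [aeval_X, uch_toKK_X, aeval_X]
  exact congrArg (fun F => F G) h

/-- composition of polynomial charts -/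
private theorem uch_comp {χ χ₀ : Fin 2 → AA κ} {ψ : Fin 2 → MvPolynomial (Fin 2) (PowerSeries κ)}
    {φ : Fin 2 → MvPolynomial (Fin 2) (KK κ)} (hψ : ∀ j, toAA (ψ j) = χ₀ j)
    (hφ : PolAut (fun j => toKK (ψ j)) φ)
    (h : ∃ (χp : Fin 2 → MvPolynomial (Fin 2) (PowerSeries κ))
      (θ : Fin 2 → MvPolynomial (Fin 2) (KK κ)),
      (∀ j, toAA (χp j) = χ j) ∧ PolAut (fun j => toKK (χp j)) θ) :
    ∃ (χp : Fin 2 → MvPolynomial (Fin 2) (PowerSeries κ))
      (θ : Fin 2 → MvPolynomial (Fin 2) (KK κ)),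
      (∀ j, toAA (χp j) = ev χ₀ (χ j)) ∧ PolAut (fun j => toKK (χp j)) θ := by
  obtain ⟨χp, θ, h1, h2⟩ := h
  refine ⟨fun j => aeval ψ (χp j), fun j => aeval θ (φ j), fun j => ?_, ?_⟩
  · have h3 : χ₀ = fun j => toAA (ψ j) := funext fun j => (hψ j).symm
    rw [h3, ← h1 j, ev_toAA_toAA]
  · simp only [uch_toKK_aeval]
    exact h2.comp hφ

private theorem uch_aut (c' t₀ t₁ : KK κ) (h₀ : t₀ ≠ 0) (h₁ : t₁ ≠ 0) (q : Polynomial (KK κ)) :
    PolAut (![C c' + C t₀ * X 0, Polynomial.aeval (X 0 : MvPolynomial (Fin 2) (KK κ)) q +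
      C t₁ * X 1] : Fin 2 → MvPolynomial (Fin 2) (KK κ))
      (![C t₀⁻¹ * (X 0 - C c'), C t₁⁻¹ * (X 1 - Polynomial.aeval
        (C t₀⁻¹ * (X 0 - C c') : MvPolynomial (Fin 2) (KK κ)) q)]) := by
  have e0 : (C t₀⁻¹ * C t₀ : MvPolynomial (Fin 2) (KK κ)) = 1 := by
    rw [← C_mul, inv_mul_cancel₀ h₀, C_1]
  have e1 : (C t₁⁻¹ * C t₁ : MvPolynomial (Fin 2) (KK κ)) = 1 := by
    rw [← C_mul, inv_mul_cancel₀ h₁, C_1]
  set χ : Fin 2 → MvPolynomial (Fin 2) (KK κ) := ![C c' + C t₀ * X 0,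
    Polynomial.aeval (X 0 : MvPolynomial (Fin 2) (KK κ)) q + C t₁ * X 1] with hχ
  set φ0 : MvPolynomial (Fin 2) (KK κ) := C t₀⁻¹ * (X 0 - C c') with hφ0
  set φ : Fin 2 → MvPolynomial (Fin 2) (KK κ) := ![φ0, C t₁⁻¹ * (X 1 - Polynomial.aeval φ0 q)]
    with hφ
  have a0 : aeval χ φ0 = X 0 := by
    rw [hφ0, map_mul, map_sub, aeval_C, aeval_C, aeval_X, MvPolynomial.algebraMap_eq]
    show C t₀⁻¹ * (C c' + C t₀ * X 0 - C c') = X 0
    rw [add_sub_cancel_left, ← mul_assoc, e0, one_mul]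
  refine ⟨fun j => ?_, fun j => ?_⟩
  · fin_cases j
    · exact a0
    · show aeval χ (C t₁⁻¹ * (X 1 - Polynomial.aeval φ0 q)) = X 1
      rw [map_mul, map_sub, aeval_C, aeval_X, ← Polynomial.aeval_algHom_apply, a0,
        MvPolynomial.algebraMap_eq]
      show C t₁⁻¹ * (Polynomial.aeval (X 0) q + C t₁ * X 1 - Polynomial.aeval (X 0) q) = X 1
      rw [add_sub_cancel_left, ← mul_assoc, e1, one_mul]
  · fin_cases j
    · show aeval φ (C c' + C t₀ * X 0) = X 0
      rw [map_add, map_mul, aeval_C, aeval_C, aeval_X, MvPolynomial.algebraMap_eq]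
      show C c' + C t₀ * (C t₀⁻¹ * (X 0 - C c')) = X 0
      rw [← mul_assoc, mul_comm (C t₀), e0, one_mul, add_sub_cancel]
    · show aeval φ (Polynomial.aeval (X 0) q + C t₁ * X 1) = X 1
      rw [map_add, map_mul, aeval_C, aeval_X, ← Polynomial.aeval_algHom_apply, aeval_X,
        MvPolynomial.algebraMap_eq]
      show Polynomial.aeval φ0 q + C t₁ * (C t₁⁻¹ * (X 1 - Polynomial.aeval φ0 q)) = X 1
      rw [← mul_assoc, mul_comm (C t₁), e1, one_mul, add_sub_cancel]

theorem isCh_pol {χ : Fin 2 → AA κ} {N : ℕ} (hχ : IsCh χ N) :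
    ∃ (χp : Fin 2 → MvPolynomial (Fin 2) (PowerSeries κ))
      (θ : Fin 2 → MvPolynomial (Fin 2) (KK κ)),
      (∀ j, toAA (χp j) = χ j) ∧ PolAut (fun j => toKK (χp j)) θ := by
  induction hχ with
  | refl =>
    refine ⟨X, X, fun j => toAA_X j, fun j => ?_, fun j => ?_⟩
    · rw [aeval_X, uch_toKK_X]
    · show aeval X (toKK (X j)) = X j
      rw [uch_toKK_X, aeval_X]
  | swap _ ih =>
    refine uch_comp (ψ := ![X 1, X 0]) (φ := ![X 1, X 0]) (fun j => ?_) ⟨fun j => ?_, fun j => ?_⟩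
      ih
    · fin_cases j
      · show toAA (X 1) = xA 1
        exact toAA_X 1
      · show toAA (X 0) = xA 0
        exact toAA_X 0
    · fin_cases j
      · show aeval (fun j => toKK ((![X 1, X 0] : Fin 2 → _) j)) (X 1) = X 0
        rw [aeval_X]
        exact uch_toKK_X 0
      · show aeval (fun j => toKK ((![X 1, X 0] : Fin 2 → _) j)) (X 0) = X 1
        rw [aeval_X]
        exact uch_toKK_X 1
    · fin_cases j
      · show aeval (![X 1, X 0] : Fin 2 → MvPolynomial (Fin 2) (KK κ)) (toKK (X 1)) = X 0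
        rw [uch_toKK_X, aeval_X]
        rfl
      · show aeval (![X 1, X 0] : Fin 2 → MvPolynomial (Fin 2) (KK κ)) (toKK (X 0)) = X 1
        rw [uch_toKK_X, aeval_X]
        rfl
  | step c p N₀ N₁ _ _ ih =>
    have ht : algebraMap (PowerSeries κ) (KK κ) PowerSeries.X ≠ 0 := fun h =>
      PowerSeries.X_ne_zero ((IsFractionRing.injective (PowerSeries κ) (KK κ))
        (h.trans (map_zero _).symm))
    have hX : ∀ N : ℕ, toAA (C (PowerSeries.X ^ N : PowerSeries κ)) =
        (PowerSeries.X ^ N : AA κ) := by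
      intro N
      rw [toAA_C, cA, map_pow, PowerSeries.map_X]
    refine uch_comp (ψ := ![C c + C (PowerSeries.X ^ N₀) * X 0,
      p.eval₂ C (X 0) + C (PowerSeries.X ^ N₁) * X 1]) (fun j => ?_) ?_ ih
      (φ := ![C (algebraMap (PowerSeries κ) (KK κ) (PowerSeries.X ^ N₀))⁻¹ *
        (X 0 - C (algebraMap (PowerSeries κ) (KK κ) c)),
        C (algebraMap (PowerSeries κ) (KK κ) (PowerSeries.X ^ N₁))⁻¹ * (X 1 - Polynomial.aeval
        (C (algebraMap (PowerSeries κ) (KK κ) (PowerSeries.X ^ N₀))⁻¹ *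
          (X 0 - C (algebraMap (PowerSeries κ) (KK κ) c)) : MvPolynomial (Fin 2) (KK κ))
            (p.map (algebraMap (PowerSeries κ) (KK κ))))])
    · fin_cases j
      · show toAA (C c + C (PowerSeries.X ^ N₀) * X 0) = cA c + PowerSeries.X ^ N₀ * xA 0
        rw [map_add, map_mul, hX, toAA_C, toAA_X]
      · show toAA (p.eval₂ C (X 0) + C (PowerSeries.X ^ N₁) * X 1) =
          p.eval₂ cA (xA 0) + PowerSeries.X ^ N₁ * xA 1
        have h1 : (toAA (k := κ)).comp C = cA := RingHom.ext fun c => toAA_C c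
        rw [map_add, map_mul, hX, toAA_X, Polynomial.hom_eval₂, toAA_X, h1]
    · have h2 : (fun j => toKK ((![C c + C (PowerSeries.X ^ N₀) * X 0,
          p.eval₂ C (X 0) + C (PowerSeries.X ^ N₁) * X 1] :
            Fin 2 → MvPolynomial (Fin 2) (PowerSeries κ)) j)) =
          ![C (algebraMap (PowerSeries κ) (KK κ) c) +
            C (algebraMap (PowerSeries κ) (KK κ) (PowerSeries.X ^ N₀)) * X 0,
            Polynomial.aeval (X 0 : MvPolynomial (Fin 2) (KK κ))
              (p.map (algebraMap (PowerSeries κ) (KK κ))) +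
              C (algebraMap (PowerSeries κ) (KK κ) (PowerSeries.X ^ N₁)) * X 1] := by
        funext j
        fin_cases j
        · show toKK (C c + C (PowerSeries.X ^ N₀) * X 0) = _
          rw [map_add, map_mul, uch_toKK_C, uch_toKK_C, uch_toKK_X]
          rfl
        · show toKK (p.eval₂ C (X 0) + C (PowerSeries.X ^ N₁) * X 1) =
            Polynomial.aeval (X 0 : MvPolynomial (Fin 2) (KK κ))
              (p.map (algebraMap (PowerSeries κ) (KK κ))) +
              C (algebraMap (PowerSeries κ) (KK κ) (PowerSeries.X ^ N₁)) * X 1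
          have h1 : (toKK (k := κ)).comp C =
              (C : KK κ →+* MvPolynomial (Fin 2) (KK κ)).comp
                (algebraMap (PowerSeries κ) (KK κ)) := RingHom.ext fun c => uch_toKK_C c
          rw [map_add, map_mul, uch_toKK_C, uch_toKK_X, Polynomial.hom_eval₂, uch_toKK_X, h1,
            Polynomial.aeval_def, Polynomial.eval₂_map, MvPolynomial.algebraMap_eq]
      rw [h2]
      refine uch_aut _ _ _ ?_ ?_ _
      · rw [map_pow]
        exact pow_ne_zero _ ht
      · rw [map_pow]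
        exact pow_ne_zero _ ht

theorem isCh_trans {χ : Fin 2 → AA κ} {N : ℕ} (hχ : IsCh χ N) :
    ∃ χK θ : Fin 2 → MvPolynomial (Fin 2) (KK κ), PolAut χK θ ∧
      (∀ j, coeff 0 (χK j) = algebraMap (PowerSeries κ) (KK κ) (mc (χ j) 0)) ∧
      ∀ (G : MvPolynomial (Fin 2) (PowerSeries κ)) (e : Fin 2 →₀ ℕ),
        coeff e (aeval χK (toKK G)) =
          algebraMap (PowerSeries κ) (KK κ) (mc (ev χ (toAA G)) e) := by
  obtain ⟨χp, θ, h1, h2⟩ := isCh_pol hχ
  have hc : ∀ (F : MvPolynomial (Fin 2) (PowerSeries κ)) (e : Fin 2 →₀ ℕ), coeff e (toKK F) =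
      algebraMap (PowerSeries κ) (KK κ) (mc (toAA F) e) := by
    intro F e
    rw [mc_toAA]
    unfold toKK
    rw [coeff_map]
  refine ⟨fun j => toKK (χp j), θ, h2, fun j => ?_, fun G e => ?_⟩
  · rw [hc, h1]
  · have h3 : χ = fun j => toAA (χp j) := funext fun j => (h1 j).symm
    rw [← uch_toKK_aeval, hc, h3, ev_toAA_toAA]

end

end M3
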