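import Pool.Agent.M3.Defs
import Pool.Agent.M3.UCh
import Pool.Agent.M3.UFin

open MvPolynomial

namespace M3

universe u

theorem block_U {κ : Type u} [Field κ] [CharZero κ] {r : ℕ} {J : Type} [Fintype J]
    {a b : ℕ} {mu : Fin r → ℝ} {grp : J → Fin r} {d : Fin r → ℕ}
    {F G : J → MvPolynomial (Fin 2) (PowerSeries κ)}
    (hS : Stt a b mu grp d (fun h => toKK (F h)))
    (hG : ∀ h e, d (grp h) ≤ wt a b e → coeff e (G h) = coeff e (F h))
    {χ : Fin 2 → AA κ} {N : ℕ} (hχ : IsCh χ N) (z : Fin 2 → PowerSeries κ)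
    (hz : ∀ j, mc (χ j) 0 = z j) {a' b' : ℕ} (ha' : 0 < a') (hab' : a' ≤ b')
    (hcop' : Nat.Coprime a' b') {d' : Fin r → ℕ} (hsum' : ∑ j, mu j * d' j = a' + b')
    (hd' : ∀ h e, mc (ev χ (toAA (G h))) e ≠ 0 → d' (grp h) ≤ wt a' b' e) :
    b * a' ≤ b' * a ∧ (b * a' = b' * a → Tr a b F G z) := by
  have hinj : Function.Injective (algebraMap (PowerSeries κ) (KK κ)) :=
    IsFractionRing.injective _ _
  have h00 : CharZero (PowerSeries κ) :=
    charZero_of_injective_algebraMap (algebraMap κ (PowerSeries κ)).injective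
  have h01 : CharZero (KK κ) := charZero_of_injective_algebraMap hinj
  obtain ⟨χK, θ, hPA, hc, hev⟩ := isCh_trans hχ
  have hcF : ∀ (H : MvPolynomial (Fin 2) (PowerSeries κ)) e,
      coeff e (toKK H) = algebraMap (PowerSeries κ) (KK κ) (coeff e H) := fun H e =>
    coeff_map _ _ _
  have hFd : ∀ h e, coeff e (F h) ≠ 0 → wt a b e = d (grp h) := by
    intro h e he
    refine hS.hom h e ?_
    rw [hcF]
    exact fun h0 => he (hinj (h0.trans (map_zero _).symm))
  have hGK : ∀ h, WLe a b (d (grp h)) (toKK (G h)) ∧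
      wtop a b (d (grp h)) (toKK (G h)) = toKK (F h) := by
    intro h
    refine ⟨fun e he => ?_, ?_⟩
    · rw [hcF] at he
      by_contra hlt
      push Not at hlt
      have h1 : coeff e (G h) ≠ 0 := fun h0 => he (by rw [h0, map_zero])
      rw [hG h e hlt.le] at h1
      exact hlt.ne' (hFd h e h1)
    · ext e
      rw [coeff_wtop, hcF, hcF]
      split_ifs with hw
      · rw [hG h e hw.ge]
      · have h1 : coeff e (F h) = 0 := by
          by_contra hne
          exact hw (hFd h e hne)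
        rw [h1, map_zero]
  have hdK : ∀ h, WGe a' b' (d' (grp h)) (aeval χK (toKK (G h))) := by
    intro h e he
    rw [hev] at he
    exact hd' h e fun h0 => he (by rw [h0, map_zero])
  obtain ⟨h1, h2⟩ := core_U hS hGK hPA ha' hab' hcop' hsum' hdK
  refine ⟨h1, fun he => ?_⟩
  obtain ⟨p, hp, hpe, hpG⟩ := h2 he
  rw [hc, hc, hz, hz] at hpe
  refine ⟨p, hp, hpe, fun h => ?_⟩
  have h3 := hpG h
  rw [hc, hz] at h3
  exact h3

end M3
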