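import Pool.Agent.M3.HomP
import Pool.Agent.M3.Tay

/-!
PIECE M3-Z01: near a point `z ≠ 0` a state is a power of one smooth function.

PROOF. `K := KK κ`, `z' j := algebraMap (z j) ∈ K`, not both zero.  `common_factors` for `toKK (F h)`: `s`, `m`, `u`; the factors which occur are
homogeneous.  Let `p ∈ s` be a factor (occurring in some `F h ≠ 0`) with `p(z') = 0` (`aeval`/`eval z' p = 0`), if there is one.
It is unique: for `q ≠ p` in `s`, `hom_coprime`: `A p + B q = X 0^N`, `A' p + B' q = X 1^N`, and `z' ≠ 0`, so `q(z') ≠ 0`.  Also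
`(pderiv 0 p)(z') ≠ 0` or `(pderiv 1 p)(z') ≠ 0` (`irr_grad`, `hom_coprime`).  Put `B h := m h p`.  If there is no such `p`,
put `p := X 0 - C z'_0`-like: take `B h := 0`, no smooth function is needed: in (2) only `(p, q) := (1, 0)`.
(1) Multiply `p` by a constant: `p = toKK p'`, and write for `F h ≠ 0`: `C v_h * F h = p'^(B h) * W_h` with `0 ≠ v_h ∈ κ[[τ]]`, `W_h` integral,
`W_h(z) ≠ 0` (`∏_(q ≠ p) q^(m h q)`, constants).
(2) Let `N` be large and consider `cen N Q`, `Q j := map (z j)`; `cen N Q j = cA (Q j) + X^N * (xA j - cA (S j))`, `S := shiftP N Q`.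
`ev_taylor` (base point `cA (Q j)`, `H j := X^N * (xA j - cA (S j))`): `ev (cen N Q) (toAA W_h) = cA (W_h(Q)) + X^N * (..) = X^(ω h) * (unit residue)` if
`N > ω h := order W_h(z)`; `ev (cen N Q) (toAA p') = X^N * (p'_0(Q) (xA 0 - cA (S 0)) + p'_1(Q) (xA 1 - cA (S 1)))` modulo `X^(2 N)` (as `p'(z) = 0`)
`= X^(N + κ₁) * (residue C p * X 0 + C q * X 1 + C s)`, `κ₁` the minimum of the orders of `p'_0(z)`, `p'_1(z)`, `p`, `q` their coefficients of `τ^κ₁`
(`N > κ₁`).  So `X^(ν h) * u_h * ev (cen N Q) (toAA (F h))` (`v_h = X^(ν h) * u_h`) `= X^((N + κ₁) B h + ω h) * (..)`: the exponent is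
`(N + κ₁) B h + ω h - ν h` and the residue is `C g_h * (C p * X 0 + C q * X 1 + C s)^(B h)`.  With `N₀` larger than everything (`N₀ > κ₁, ω h, ν h`):
`a' h := (N₀ + κ₁) B h + ω h - ν h`; it must be a natural number: the exponent is the exact order of
`ev (cen N Q) (toAA (F h))`, so it is `≥ 0` also for `N = N₀` (or: `ν h ≤ …` by integrality).
(3) `hj j`: if there is `p`: `wk p` gives `B'` with `∑ mu j B' j ≤ 1` and members `h_j` with `¬ p^(B' j + 1) ∣ toKK (F h_j)`; `F h_j ≠ 0`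
(`p^(..) ∣ 0`), `B h_j ≤ B' j` (`mult_le`).  If there is no `p`: `B = 0`, `ne`.
-/

open MvPolynomial

namespace M3

universe u

section
variable {κ : Type u} [Field κ]

private theorem LinHom_inj : Function.Injective (algebraMap (PowerSeries κ) (KK κ)) :=
  IsFractionRing.injective _ _

private theorem LinHom_toKK_inj : Function.Injective (toKK (k := κ)) :=
  MvPolynomial.map_injective _ LinHom_inj

private theorem LinHom_charZero [CharZero κ] : CharZero (KK κ) := by
  have : CharZero (PowerSeries κ) :=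
    charZero_of_injective_algebraMap (R := κ) (A := PowerSeries κ) PowerSeries.C_injective
  exact charZero_of_injective_algebraMap LinHom_inj

/-- clearing denominators -/
private theorem LinHom_clear (P : MvPolynomial (Fin 2) (KK κ)) :
    ∃ (c : PowerSeries κ) (Q : MvPolynomial (Fin 2) (PowerSeries κ)), c ≠ 0 ∧
      toKK Q = C (algebraMap _ _ c) * P := by
  induction P using MvPolynomial.induction_on with
  | C a =>
    obtain ⟨x, y, hy, rfl⟩ := IsFractionRing.div_surjective (A := PowerSeries κ) a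
    refine ⟨y, C x, nonZeroDivisors.ne_zero hy, ?_⟩
    have hy' : algebraMap (PowerSeries κ) (KK κ) y ≠ 0 := by
      rw [Ne, map_eq_zero_iff _ LinHom_inj]
      exact nonZeroDivisors.ne_zero hy
    rw [toKK, map_C, ← C_mul, mul_div_cancel₀ _ hy']
  | add p q hp hq =>
    obtain ⟨c, P, hc, hP⟩ := hp
    obtain ⟨e, Q, he, hQ⟩ := hq
    refine ⟨c * e, C e * P + C c * Q, mul_ne_zero hc he, ?_⟩
    have h1 : ∀ x : PowerSeries κ, toKK (C x) = C (algebraMap _ _ x) := fun x => map_C _ x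
    rw [map_add, map_mul, map_mul, h1, h1, hP, hQ, map_mul, C_mul]
    ring
  | mul_X p i hp =>
    obtain ⟨c, P, hc, hP⟩ := hp
    refine ⟨c, P * X i, hc, ?_⟩
    have h1 : toKK (X i : MvPolynomial (Fin 2) (PowerSeries κ)) = X i := map_X _ i
    rw [map_mul, hP, h1, mul_assoc]

private theorem LinHom_eval (z : Fin 2 → PowerSeries κ)
    (P : MvPolynomial (Fin 2) (PowerSeries κ)) :
    eval (fun j => algebraMap (PowerSeries κ) (KK κ) (z j)) (toKK P) =
      algebraMap _ _ (eval z P) := by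
  rw [toKK, eval_map]
  exact (MvPolynomial.eval₂_comp _ z P).symm

private theorem LinHom_pderiv (j : Fin 2) (P : MvPolynomial (Fin 2) (PowerSeries κ)) :
    toKK (pderiv j P) = pderiv j (toKK P) := by
  exact (MvPolynomial.pderiv_map).symm

private theorem LinHom_rel {a b : ℕ} (ha : 0 < a) (hb : 0 < b) {p q : MvPolynomial (Fin 2) (KK κ)}
    {d e : ℕ} (hp : HomW a b d p) (hq : HomW a b e q) (h : IsRelPrime p q)
    {z : Fin 2 → KK κ} (hz : z ≠ 0) (h1 : eval z p = 0) (h2 : eval z q = 0) : False := by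
  obtain ⟨N, ⟨A, B, hAB⟩, A', B', hAB'⟩ := hom_coprime ha hb hp hq h
  have e1 := congrArg (eval z) hAB
  have e2 := congrArg (eval z) hAB'
  simp only [map_add, map_mul, map_pow, h1, h2, mul_zero, add_zero, eval_X] at e1 e2
  apply hz
  funext j
  fin_cases j
  · exact eq_zero_of_pow_eq_zero e1.symm
  · exact eq_zero_of_pow_eq_zero e2.symm

private theorem LinHom_alg [CharZero κ] {r : ℕ} {J : Type} [Fintype J] {a b : ℕ}
    {mu : Fin r → ℝ} {grp : J → Fin r} {d : Fin r → ℕ}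
    {F : J → MvPolynomial (Fin 2) (PowerSeries κ)}
    (hS : Stt a b mu grp d (fun h => toKK (F h))) (z : Fin 2 → PowerSeries κ) (hz : z ≠ 0) :
    ∃ (G : MvPolynomial (Fin 2) (PowerSeries κ)) (B : J → ℕ)
      (W : J → MvPolynomial (Fin 2) (PowerSeries κ)) (v : J → PowerSeries κ),
      eval z G = 0 ∧ (∃ j, eval z (pderiv j G) ≠ 0) ∧
      (∀ h, F h ≠ 0 → v h ≠ 0 ∧ eval z (W h) ≠ 0 ∧ C (v h) * F h = G ^ B h * W h) ∧
      ∃ hj : Fin r → J, (∀ j, grp (hj j) = j ∧ F (hj j) ≠ 0) ∧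
        ∑ j, mu j * B (hj j) ≤ 1 := by
  classical
  have ha := hS.ha
  have hb : 0 < b := lt_of_lt_of_le ha hS.hab
  have hcz : CharZero (KK κ) := LinHom_charZero
  obtain ⟨z', hz'⟩ : ∃ z' : Fin 2 → KK κ, z' = fun j => algebraMap (PowerSeries κ) (KK κ) (z j) :=
    ⟨_, rfl⟩
  have hz0 : z' ≠ 0 := by
    intro h0
    apply hz
    funext j
    have h1 := congrFun h0 j
    rw [hz'] at h1
    exact (map_eq_zero_iff _ LinHom_inj).1 h1
  have hev : ∀ P : MvPolynomial (Fin 2) (PowerSeries κ), eval z P = 0 ↔ eval z' (toKK P) = 0 := by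
    intro P
    rw [hz', LinHom_eval, map_eq_zero_iff _ LinHom_inj]
  have hF0 : ∀ h, F h ≠ 0 ↔ toKK (F h) ≠ 0 := fun h => by
    rw [Ne, Ne, map_eq_zero_iff _ LinHom_toKK_inj]
  obtain ⟨s, m, u, hs1, hs2, hs3⟩ := common_factors fun h => toKK (F h)
  have hdv : ∀ h p, p ∈ s → F h ≠ 0 → p ^ m h p ∣ toKK (F h) := by
    intro h p hp hF
    rw [(hs3 h ((hF0 h).1 hF)).2]
    exact Dvd.dvd.mul_left (Finset.dvd_prod_of_mem (fun q => q ^ m h q) hp) _
  have hhom : ∀ h p, p ∈ s → F h ≠ 0 → m h p ≠ 0 → ∃ e, HomW a b e p := by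
    intro h p hp hF hm
    exact hom_dvd ha hb ((hF0 h).1 hF) (hS.hom h) ((dvd_pow_self p hm).trans (hdv h p hp hF))
  by_cases hc : ∃ p ∈ s, (∃ h, F h ≠ 0 ∧ m h p ≠ 0) ∧ eval z' p = 0
  · obtain ⟨p, hp, ⟨h₀, hF₀, hm₀⟩, hpz⟩ := hc
    obtain ⟨e, he⟩ := hhom h₀ p hp hF₀ hm₀
    obtain ⟨c, G, hc, hG⟩ := LinHom_clear p
    choose cW W hcW hW using fun h => LinHom_clear (C (u h) * ∏ q ∈ s.erase p, q ^ m h q)
    have hcK : ∀ c : PowerSeries κ, c ≠ 0 → algebraMap (PowerSeries κ) (KK κ) c ≠ 0 := by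
      intro c hc
      rwa [Ne, map_eq_zero_iff _ LinHom_inj]
    obtain ⟨B', hB', hsum⟩ := hS.wk p (hs1 p hp)
    choose hj hj1 hj2 using hB'
    have hjF : ∀ j, F (hj j) ≠ 0 := by
      intro j h0
      apply hj2 j
      change p ^ (B' j + 1) ∣ toKK (F (hj j))
      rw [h0, map_zero]
      exact dvd_zero _
    refine ⟨G, fun h => m h p, W, fun h => cW h * c ^ m h p, ?_, ?_, ?_, hj,
      fun j => ⟨hj1 j, hjF j⟩, ?_⟩
    · rw [hev, hG, map_mul, hpz, mul_zero]
    · by_contra hcon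
      push Not at hcon
      have h1 : ∀ j, eval z' (pderiv j p) = 0 := by
        intro j
        have h2 := (hev _).1 (hcon j)
        rw [LinHom_pderiv, hG, pderiv_C_mul, map_mul, eval_C] at h2
        exact (mul_eq_zero.1 h2).resolve_left (hcK c hc)
      exact LinHom_rel ha hb (hom_pderiv he 0) (hom_pderiv he 1) (irr_grad ha hb he (hs1 p hp))
        hz0 (h1 0) (h1 1)
    · intro h hF
      obtain ⟨hu, hfac⟩ := hs3 h ((hF0 h).1 hF)
      refine ⟨mul_ne_zero (hcW h) (pow_ne_zero _ hc), ?_, ?_⟩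
      · rw [Ne, hev, hW, map_mul, map_mul, eval_C, eval_C, map_prod]
        refine mul_ne_zero (hcK _ (hcW h)) (mul_ne_zero hu (Finset.prod_ne_zero_iff.2 ?_))
        intro q hq
        rw [map_pow]
        by_cases hmq : m h q = 0
        · rw [hmq, pow_zero]
          exact one_ne_zero
        · have hqs := Finset.mem_of_mem_erase hq
          obtain ⟨e', he'⟩ := hhom h q hqs hF hmq
          refine pow_ne_zero _ fun hqz => ?_
          exact LinHom_rel ha hb he he' (hs2 p hp q hqs (Finset.ne_of_mem_erase hq).symm) hz0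
            hpz hqz
      · apply LinHom_toKK_inj
        have h1 : ∀ x : PowerSeries κ, toKK (C x) = C (algebraMap _ _ x) := fun x => map_C _ x
        have h2 := Finset.mul_prod_erase s (fun q => q ^ m h q) hp
        change toKK (C (cW h * c ^ m h p) * F h) = toKK (G ^ m h p * W h)
        rw [map_mul toKK, map_mul toKK, map_pow toKK, h1, hW, hG, hfac, ← h2, map_mul, map_pow,
          C_mul, C_pow, mul_pow]
        ring
    · refine le_trans (Finset.sum_le_sum fun j _ => ?_) hsum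
      refine mul_le_mul_of_nonneg_left ?_ (hS.hmu j).le
      exact Nat.cast_le.2 (mult_le (hj2 j) (hdv _ p hp (hjF j)))
  · choose hj hj1 hj2 using hS.ne
    refine ⟨X 0 - C (z 0), fun _ => 0, F, fun _ => 1, ?_, ⟨0, ?_⟩, ?_, hj,
      fun j => ⟨hj1 j, (hF0 _).2 (hj2 j)⟩, ?_⟩
    · rw [map_sub, eval_X, eval_C, sub_self]
    · rw [map_sub, pderiv_X_self, pderiv_C, sub_zero, map_one]
      exact one_ne_zero
    · intro h hF
      refine ⟨one_ne_zero, ?_, ?_⟩
      · obtain ⟨hu, hfac⟩ := hs3 h ((hF0 h).1 hF)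
        rw [Ne, hev, hfac, map_mul, eval_C, map_prod]
        refine mul_ne_zero hu (Finset.prod_ne_zero_iff.2 ?_)
        intro q hq
        rw [map_pow]
        by_cases hmq : m h q = 0
        · rw [hmq, pow_zero]
          exact one_ne_zero
        · exact pow_ne_zero _ fun hqz => hc ⟨q, hq, ⟨h, hF, hmq⟩, hqz⟩
      · rw [C_1, one_mul, pow_zero, one_mul]
    · simp

end

section
variable {L : Type u} [Field L]

private def LinHom_Ld (f : AA L) (n : ℕ) (c : MvPolynomial (Fin 2) L) : Prop :=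
  ∃ R, f = PowerSeries.X ^ n * R ∧ PowerSeries.constantCoeff R = c

private theorem LinHom_Ld.mul {f g : AA L} {n m : ℕ} {c e : MvPolynomial (Fin 2) L}
    (h1 : LinHom_Ld f n c) (h2 : LinHom_Ld g m e) : LinHom_Ld (f * g) (n + m) (c * e) := by
  obtain ⟨R, rfl, rfl⟩ := h1
  obtain ⟨S, rfl, rfl⟩ := h2
  refine ⟨R * S, ?_, map_mul _ _ _⟩
  rw [pow_add]
  ring

private theorem LinHom_Ld.pow {f : AA L} {n : ℕ} {c : MvPolynomial (Fin 2) L}
    (h1 : LinHom_Ld f n c) (k : ℕ) : LinHom_Ld (f ^ k) (n * k) (c ^ k) := by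
  obtain ⟨R, rfl, rfl⟩ := h1
  refine ⟨R ^ k, ?_, map_pow _ _ _⟩
  rw [pow_mul, mul_pow]

private theorem LinHom_Ld.add {f g : AA L} {n : ℕ} {c : MvPolynomial (Fin 2) L}
    (h1 : LinHom_Ld f n c) (h2 : (PowerSeries.X : AA L) ^ (n + 1) ∣ g - f) : LinHom_Ld g n c := by
  obtain ⟨R, rfl, rfl⟩ := h1
  obtain ⟨t, ht⟩ := h2
  refine ⟨R + PowerSeries.X * t, ?_, ?_⟩
  · rw [sub_eq_iff_eq_add] at ht
    rw [ht, pow_succ]
    ring
  · rw [map_add, map_mul, PowerSeries.constantCoeff_X, zero_mul, add_zero]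

private theorem LinHom_Ld.coeff {f : AA L} {n : ℕ} {c : MvPolynomial (Fin 2) L}
    (h1 : LinHom_Ld f n c) : PowerSeries.X ^ n ∣ f ∧ PowerSeries.coeff n f = c := by
  obtain ⟨R, rfl, rfl⟩ := h1
  refine ⟨dvd_mul_right _ _, ?_⟩
  have := PowerSeries.coeff_X_pow_mul R n 0
  rwa [zero_add, PowerSeries.coeff_zero_eq_constantCoeff_apply] at this

private theorem LinHom_cA_X : cA (PowerSeries.X : PowerSeries L) = PowerSeries.X :=
  PowerSeries.map_X _

private theorem LinHom_cA0 (v : PowerSeries L) :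
    PowerSeries.constantCoeff (cA v) = C (PowerSeries.constantCoeff v) := by
  rw [← PowerSeries.coeff_zero_eq_constantCoeff_apply, cA, PowerSeries.coeff_map,
    PowerSeries.coeff_zero_eq_constantCoeff_apply]

private theorem LinHom_div {f g : AA L} {E ν : ℕ} {c : MvPolynomial (Fin 2) L}
    {v : PowerSeries L} (hv : PowerSeries.constantCoeff v ≠ 0)
    (h : cA (PowerSeries.X ^ ν * v) * f = g) (hg : LinHom_Ld g E c) (hc : c ≠ 0) :
    ν ≤ E ∧ LinHom_Ld f (E - ν) (C (PowerSeries.constantCoeff v)⁻¹ * c) := by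
  obtain ⟨R, rfl, rfl⟩ := hg
  rw [map_mul, map_pow, LinHom_cA_X] at h
  have h1 : (PowerSeries.X : AA L) ^ ν * f = PowerSeries.X ^ E * (cA v⁻¹ * R) := by
    have h2 : cA v * cA v⁻¹ = 1 := by
      rw [← map_mul, PowerSeries.mul_inv_cancel v hv, map_one]
    calc (PowerSeries.X : AA L) ^ ν * f = cA v⁻¹ * (PowerSeries.X ^ ν * cA v * f) := by
          linear_combination (-(PowerSeries.X : AA L) ^ ν * f) * h2
      _ = _ := by
          rw [h]
          ring
  have h3 : PowerSeries.constantCoeff (cA v⁻¹ * R) =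
      C (PowerSeries.constantCoeff v)⁻¹ * PowerSeries.constantCoeff R := by
    rw [map_mul, LinHom_cA0, PowerSeries.constantCoeff_inv]
  have h4 : ν ≤ E := by
    by_contra hlt
    push Not at hlt
    obtain ⟨k, rfl⟩ := Nat.exists_eq_add_of_lt hlt
    rw [add_assoc, pow_add, mul_assoc] at h1
    have h5 := mul_left_cancel₀ (pow_ne_zero E PowerSeries.X_ne_zero) h1
    have h6 := congrArg (PowerSeries.constantCoeff (R := MvPolynomial (Fin 2) L)) h5
    rw [h3, map_mul, map_pow, PowerSeries.constantCoeff_X, zero_pow (Nat.succ_ne_zero k),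
      zero_mul] at h6
    exact mul_ne_zero ((map_ne_zero_iff _ (C_injective _ _)).2 (inv_ne_zero hv)) hc h6.symm
  refine ⟨h4, cA v⁻¹ * R, ?_, h3⟩
  obtain ⟨k, rfl⟩ := Nat.exists_eq_add_of_le h4
  rw [pow_add, mul_assoc] at h1
  rw [Nat.add_sub_cancel_left]
  exact mul_left_cancel₀ (pow_ne_zero ν PowerSeries.X_ne_zero) h1

end

section
variable {κ L : Type u} [Field κ] [Field L] [Algebra κ L]

private theorem LinHom_evcA (Q : Fin 2 → PowerSeries L) (f : AA κ) :
    ev (fun j => cA (Q j)) f = cA (ev Q f) :=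
  (ev_map ((Algebra.ofId L (MvPolynomial (Fin 2) L)).restrictScalars κ) Q f).symm

private theorem LinHom_cen (N : ℕ) (Q : Fin 2 → PowerSeries L) (j : Fin 2) :
    cen N Q j = cA (Q j) + PowerSeries.X ^ N * (xA j - cA (shiftP N Q j)) := by
  have h := congrArg cA (PowerSeries.eq_X_pow_mul_shift_add_trunc N (Q j))
  rw [map_add, map_mul, map_pow, LinHom_cA_X] at h
  unfold cen
  change _ = _ + PowerSeries.X ^ N *
    (xA j - cA (PowerSeries.mk fun i => PowerSeries.coeff (i + N) (Q j)))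
  rw [h]
  ring

private theorem LinHom_ldW {N ω : ℕ} (Q : Fin 2 → PowerSeries L) (f : AA κ) {w : PowerSeries L}
    (hf : ev Q f = PowerSeries.X ^ ω * w) (hN : ω < N) :
    LinHom_Ld (ev (cen N Q) f) ω (C (PowerSeries.constantCoeff w)) := by
  have h1 : LinHom_Ld (cA (ev Q f)) ω (C (PowerSeries.constantCoeff w)) := by
    refine ⟨cA w, ?_, LinHom_cA0 w⟩
    rw [hf, map_mul, map_pow, LinHom_cA_X]
  refine h1.add ?_
  rw [← LinHom_evcA]
  refine (pow_dvd_pow _ (Nat.succ_le_of_lt hN)).trans (ev_congr (fun j => ?_) f)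
  rw [LinHom_cen, add_sub_cancel_left]
  exact dvd_mul_right _ _

private theorem LinHom_ldG {N κ₁ : ℕ} (Q : Fin 2 → PowerSeries L) (f : AA κ)
    {e₀ e₁ : PowerSeries L} (hf : ev Q f = 0) (h0 : ev Q (dA 0 f) = PowerSeries.X ^ κ₁ * e₀)
    (h1 : ev Q (dA 1 f) = PowerSeries.X ^ κ₁ * e₁) (hN : κ₁ < N) :
    ∃ s : L, LinHom_Ld (ev (cen N Q) f) (N + κ₁)
      (C (PowerSeries.constantCoeff e₀) * X 0 + C (PowerSeries.constantCoeff e₁) * X 1 + C s) := by
  refine ⟨-(PowerSeries.constantCoeff e₀ * PowerSeries.constantCoeff (shiftP N Q 0) +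
    PowerSeries.constantCoeff e₁ * PowerSeries.constantCoeff (shiftP N Q 1)), ?_⟩
  have h2 : LinHom_Ld (PowerSeries.X ^ (N + κ₁) * (cA e₀ * (xA 0 - cA (shiftP N Q 0)) +
      cA e₁ * (xA 1 - cA (shiftP N Q 1)))) (N + κ₁)
      (C (PowerSeries.constantCoeff e₀) * X 0 + C (PowerSeries.constantCoeff e₁) * X 1 +
      C (-(PowerSeries.constantCoeff e₀ * PowerSeries.constantCoeff (shiftP N Q 0) +
    PowerSeries.constantCoeff e₁ * PowerSeries.constantCoeff (shiftP N Q 1)))) := by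
    refine ⟨_, rfl, ?_⟩
    have hx : ∀ j, PowerSeries.constantCoeff (xA j : AA L) = X j := fun j =>
      PowerSeries.constantCoeff_C _
    rw [map_add, map_mul, map_mul, map_sub, map_sub, LinHom_cA0, LinHom_cA0, LinHom_cA0,
      LinHom_cA0, hx, hx, C_neg, C_add, C_mul, C_mul]
    ring
  refine h2.add ?_
  have h3 := ev_taylor (fun j => cA (Q j))
    (fun j => PowerSeries.X ^ N * (xA j - cA (shiftP N Q j))) N (fun j => dvd_mul_right _ _) f
  have h4 : (fun j => cA (Q j) + PowerSeries.X ^ N * (xA j - cA (shiftP N Q j))) = cen N Q := by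
    funext j
    rw [LinHom_cen]
  rw [h4, LinHom_evcA, LinHom_evcA, LinHom_evcA, hf, h0, h1, map_zero, map_mul, map_mul, map_pow,
    LinHom_cA_X] at h3
  have h5 : ev (cen N Q) f - PowerSeries.X ^ (N + κ₁) * (cA e₀ * (xA 0 - cA (shiftP N Q 0)) +
      cA e₁ * (xA 1 - cA (shiftP N Q 1))) = ev (cen N Q) f - 0 -
      PowerSeries.X ^ κ₁ * cA e₀ * (PowerSeries.X ^ N * (xA 0 - cA (shiftP N Q 0))) -
      PowerSeries.X ^ κ₁ * cA e₁ * (PowerSeries.X ^ N * (xA 1 - cA (shiftP N Q 1))) := by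
    rw [pow_add]
    ring
  rw [h5]
  exact (pow_dvd_pow _ (by omega)).trans h3

end

section
variable {κ L : Type u} [Field κ] [Field L] [Algebra κ L]

private theorem LinHom_order {x : PowerSeries κ} (hx : x ≠ 0) :
    ∃ (n : ℕ) (y : PowerSeries κ), x = PowerSeries.X ^ n * y ∧
      PowerSeries.constantCoeff y ≠ 0 := by
  classical
  obtain ⟨m, hm⟩ := (PowerSeries.exists_coeff_ne_zero_iff_ne_zero (φ := x)).2 hx
  have hex : ∃ n, PowerSeries.coeff n x ≠ 0 := ⟨m, hm⟩
  obtain ⟨y, hy⟩ := (PowerSeries.X_pow_dvd_iff (n := Nat.find hex) (φ := x)).2 fun i hi => by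
    by_contra h0
    exact Nat.find_min hex hi h0
  refine ⟨Nat.find hex, y, hy, ?_⟩
  have h1 := Nat.find_spec hex
  have h2 := PowerSeries.coeff_X_pow_mul y (Nat.find hex) 0
  rw [zero_add, ← hy, PowerSeries.coeff_zero_eq_constantCoeff_apply] at h2
  rwa [← h2]

private theorem LinHom_order2 {x : Fin 2 → PowerSeries κ} (hx : ∃ j, x j ≠ 0) :
    ∃ (n : ℕ) (y : Fin 2 → PowerSeries κ), (∀ j, x j = PowerSeries.X ^ n * y j) ∧
      ¬ (PowerSeries.constantCoeff (y 0) = 0 ∧ PowerSeries.constantCoeff (y 1) = 0) := by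
  classical
  obtain ⟨j, hj⟩ := hx
  obtain ⟨m, hm⟩ := (PowerSeries.exists_coeff_ne_zero_iff_ne_zero (φ := x j)).2 hj
  have hex : ∃ n, ∃ j, PowerSeries.coeff n (x j) ≠ 0 := ⟨m, j, hm⟩
  choose y hy using fun j => (PowerSeries.X_pow_dvd_iff (n := Nat.find hex) (φ := x j)).2
    fun i hi => by
      by_contra h0
      exact Nat.find_min hex hi ⟨j, h0⟩
  refine ⟨Nat.find hex, y, hy, ?_⟩
  rintro ⟨h0, h1⟩
  obtain ⟨i, hi⟩ := Nat.find_spec hex
  have h2 := PowerSeries.coeff_X_pow_mul (y i) (Nat.find hex) 0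
  rw [zero_add, ← hy, PowerSeries.coeff_zero_eq_constantCoeff_apply] at h2
  apply hi
  rw [h2]
  fin_cases i
  · exact h0
  · exact h1

private theorem LinHom_map0 (x : PowerSeries κ) :
    PowerSeries.constantCoeff (PowerSeries.map (algebraMap κ L) x) =
      algebraMap κ L (PowerSeries.constantCoeff x) := by
  rw [← PowerSeries.coeff_zero_eq_constantCoeff_apply, PowerSeries.coeff_map,
    PowerSeries.coeff_zero_eq_constantCoeff_apply]

private theorem LinHom_evz (z : Fin 2 → PowerSeries κ)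
    (P : MvPolynomial (Fin 2) (PowerSeries κ)) :
    ev (fun j => PowerSeries.map (algebraMap κ L) (z j)) (toAA P) =
      PowerSeries.map (algebraMap κ L) (eval z P) := by
  rw [ev_toAA]
  exact (MvPolynomial.eval₂_comp _ z P).symm

private theorem LinHom_cen_cA (N : ℕ) (Q : Fin 2 → PowerSeries L) (v : PowerSeries κ) :
    ev (cen N Q) (cA v) = cA (PowerSeries.map (algebraMap κ L) v) := by
  rw [ev_cA]
  ext1 n
  rw [cA, PowerSeries.coeff_map, PowerSeries.coeff_map, PowerSeries.coeff_map]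
  rfl

private theorem LinHom_lin {p q s : L} (h : ¬ (p = 0 ∧ q = 0)) :
    (C p * X 0 + C q * X 1 + C s : MvPolynomial (Fin 2) L) ≠ 0 := by
  intro h0
  apply h
  have h1 : ∀ x y : L, p * x + q * y + s = 0 := by
    intro x y
    have h2 := congrArg (eval ![x, y]) h0
    simpa using h2
  have h2 := h1 0 0
  have h3 := h1 1 0
  have h4 := h1 0 1
  constructor
  · linear_combination h3 - h2
  · linear_combination h4 - h2

end

theorem linStr_hom {κ L : Type u} [Field κ] [CharZero κ] [Field L] [Algebra κ L] {r : ℕ}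
    {J : Type} [Fintype J] {a b : ℕ} {mu : Fin r → ℝ} {grp : J → Fin r} {d : Fin r → ℕ}
    {F : J → MvPolynomial (Fin 2) (PowerSeries κ)}
    (hS : Stt a b mu grp d (fun h => toKK (F h))) (z : Fin 2 → PowerSeries κ) (hz : z ≠ 0) :
    ∃ (B a' : J → ℕ) (N₀ : ℕ), LinStr (fun j => PowerSeries.map (algebraMap κ L) (z j))
      (fun h => toAA (F h)) B a' N₀ ∧ ∃ hj : Fin r → J,
        (∀ j, grp (hj j) = j ∧ F (hj j) ≠ 0) ∧ ∑ j, mu j * B (hj j) ≤ 1 := by
  obtain ⟨G, B, W, v, hG0, hG1, hW, hj⟩ := LinHom_alg hS z hz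
  obtain ⟨κ₁, e, he, he0⟩ := LinHom_order2 (x := fun j => eval z (pderiv j G)) hG1
  have hvo : ∀ h, ∃ (n : ℕ) (y : PowerSeries κ), F h ≠ 0 → v h = PowerSeries.X ^ n * y ∧
      PowerSeries.constantCoeff y ≠ 0 := by
    intro h
    by_cases hF : F h = 0
    · exact ⟨0, 0, fun h0 => absurd hF h0⟩
    · obtain ⟨n, y, hy⟩ := LinHom_order (hW h hF).1
      exact ⟨n, y, fun _ => hy⟩
  have hwo : ∀ h, ∃ (n : ℕ) (y : PowerSeries κ), F h ≠ 0 → eval z (W h) = PowerSeries.X ^ n * y ∧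
      PowerSeries.constantCoeff y ≠ 0 := by
    intro h
    by_cases hF : F h = 0
    · exact ⟨0, 0, fun h0 => absurd hF h0⟩
    · obtain ⟨n, y, hy⟩ := LinHom_order (hW h hF).2.1
      exact ⟨n, y, fun _ => hy⟩
  choose ν v' hv' using hvo
  choose ω w' hw' using hwo
  obtain ⟨Q, hQ⟩ : ∃ Q : Fin 2 → PowerSeries L,
      Q = fun j => PowerSeries.map (algebraMap κ L) (z j) := ⟨_, rfl⟩
  have hinj : ∀ x : κ, algebraMap κ L x = 0 ↔ x = 0 := fun x =>
    map_eq_zero_iff _ (algebraMap κ L).injective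
  have key : ∀ N, κ₁ < N → (∀ h, ω h < N) → ∃ (p q s : L), ¬ (p = 0 ∧ q = 0) ∧ ∀ h, F h ≠ 0 →
      ∃ g : L, g ≠ 0 ∧ ν h ≤ (N + κ₁) * B h + ω h ∧
        LinHom_Ld (ev (cen N Q) (toAA (F h))) ((N + κ₁) * B h + ω h - ν h)
          (C g * (C p * X 0 + C q * X 1 + C s) ^ B h) := by
    intro N hN1 hN2
    have hd : ∀ j, ev Q (dA j (toAA G)) =
        PowerSeries.X ^ κ₁ * PowerSeries.map (algebraMap κ L) (e j) := by
      intro j
      rw [dA_toAA, hQ, LinHom_evz, he j, map_mul, map_pow, PowerSeries.map_X]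
    obtain ⟨s, hs⟩ := LinHom_ldG (N := N) (κ₁ := κ₁) Q (toAA G)
      (by rw [hQ, LinHom_evz, hG0, map_zero]) (hd 0) (hd 1) hN1
    rw [LinHom_map0, LinHom_map0] at hs
    have hpq : ¬ (algebraMap κ L (PowerSeries.constantCoeff (e 0)) = 0 ∧
        algebraMap κ L (PowerSeries.constantCoeff (e 1)) = 0) := by
      rw [hinj, hinj]
      exact he0
    refine ⟨_, _, s, hpq, ?_⟩
    intro h hF
    obtain ⟨-, -, hfac⟩ := hW h hF
    obtain ⟨hv1, hv2⟩ := hv' h hF
    obtain ⟨hw1, hw2⟩ := hw' h hF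
    have hw3 : ev Q (toAA (W h)) =
        PowerSeries.X ^ ω h * PowerSeries.map (algebraMap κ L) (w' h) := by
      rw [hQ, LinHom_evz, hw1, map_mul, map_pow, PowerSeries.map_X]
    have hldW := LinHom_ldW (N := N) Q (toAA (W h)) hw3 (hN2 h)
    rw [LinHom_map0] at hldW
    have hld := (hs.pow (B h)).mul hldW
    have hne : ((C (algebraMap κ L (PowerSeries.constantCoeff (e 0))) * X 0 +
        C (algebraMap κ L (PowerSeries.constantCoeff (e 1))) * X 1 + C s) ^ B h *
        C (algebraMap κ L (PowerSeries.constantCoeff (w' h))) : MvPolynomial (Fin 2) L) ≠ 0 := by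
      refine mul_ne_zero (pow_ne_zero _ (LinHom_lin hpq)) ?_
      rw [Ne, map_eq_zero_iff _ (C_injective _ _), hinj]
      exact hw2
    have hv3 : PowerSeries.constantCoeff (PowerSeries.map (algebraMap κ L) (v' h)) ≠ 0 := by
      rw [LinHom_map0, Ne, hinj]
      exact hv2
    have heq : cA (PowerSeries.X ^ ν h * PowerSeries.map (algebraMap κ L) (v' h)) *
        ev (cen N Q) (toAA (F h)) =
        ev (cen N Q) (toAA G) ^ B h * ev (cen N Q) (toAA (W h)) := by
      have h1 := congrArg (fun P => ev (cen N Q) (toAA P)) hfac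
      simp only [map_mul, map_pow, ev_mul, ev_pow, toAA_C, LinHom_cen_cA] at h1
      rw [hv1, map_mul (PowerSeries.map (algebraMap κ L)), map_pow (PowerSeries.map _),
        PowerSeries.map_X] at h1
      exact h1
    obtain ⟨h1, h2⟩ := LinHom_div hv3 heq hld hne
    refine ⟨(PowerSeries.constantCoeff (PowerSeries.map (algebraMap κ L) (v' h)))⁻¹ *
      algebraMap κ L (PowerSeries.constantCoeff (w' h)), ?_, h1, ?_⟩
    · refine mul_ne_zero (inv_ne_zero hv3) ?_
      rw [Ne, hinj]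
      exact hw2
    · rw [C_mul]
      convert h2 using 1
      ring
  refine ⟨B, fun h => (κ₁ + 1 + ∑ h, ω h + κ₁) * B h + ω h - ν h, κ₁ + 1 + ∑ h, ω h, ?_, hj⟩
  have hω : ∀ h, ω h ≤ ∑ h, ω h := fun h =>
    Finset.single_le_sum (f := ω) (fun _ _ => Nat.zero_le _) (Finset.mem_univ h)
  obtain ⟨p₀, q₀, s₀, -, h₀⟩ := key (κ₁ + 1 + ∑ h, ω h) (by omega)
    (fun h => by have := hω h; omega)
  intro N hN
  obtain ⟨p, q, s, hpq, hk⟩ := key N (by omega) (fun h => by have := hω h; omega)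
  have hgo : ∀ h, ∃ g : L, F h ≠ 0 → g ≠ 0 ∧ ν h ≤ (N + κ₁) * B h + ω h ∧
        LinHom_Ld (ev (cen N Q) (toAA (F h))) ((N + κ₁) * B h + ω h - ν h)
          (C g * (C p * X 0 + C q * X 1 + C s) ^ B h) := by
    intro h
    by_cases hF : F h = 0
    · exact ⟨0, fun h0 => absurd hF h0⟩
    · obtain ⟨g, hg⟩ := hk h hF
      exact ⟨g, fun _ => hg⟩
  choose g hg using hgo
  refine ⟨p, q, s, g, hpq, ?_⟩
  intro h hf
  have hF : F h ≠ 0 := by
    intro h0
    apply hf
    change toAA (F h) = 0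
    rw [h0, map_zero]
  obtain ⟨h1, h2, h3⟩ := hg h hF
  obtain ⟨_, _, h4, _⟩ := h₀ h hF
  have h5 : (κ₁ + 1 + ∑ h, ω h + κ₁) * B h + ω h - ν h + (N - (κ₁ + 1 + ∑ h, ω h)) * B h =
      (N + κ₁) * B h + ω h - ν h := by
    obtain ⟨k, rfl⟩ := Nat.exists_eq_add_of_le hN
    have h6 : (κ₁ + 1 + ∑ h, ω h + k + κ₁) * B h =
        (κ₁ + 1 + ∑ h, ω h + κ₁) * B h + k * B h := by ring
    rw [h6, Nat.add_sub_cancel_left]
    omega
  have h7 := h3.coeff
  rw [← h5, hQ] at h7
  exact ⟨h1, h7.1, h7.2⟩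

end M3
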