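import Pool.Agent.M3.LinStrD
import Pool.Agent.M3.LinHom

open MvPolynomial

namespace M3

universe u

theorem block_Z {k : Type u} [Field k] [IsAlgClosed k] [CharZero k] {r : ℕ} {J : Type} [Fintype J]
    {a b : ℕ} {mu : Fin r → ℝ} {grp : J → Fin r} {d : Fin r → ℕ}
    {F : J → MvPolynomial (Fin 2) (PowerSeries (Gm k))}
    (hS : Stt a b mu grp d (fun h => toKK (F h)))
    {c : ℕ → J → AA k} (hc : ∀ h, IsLim (fun i => c i h) (toAA (F h)))
    {P : ℕ → Fin 2 → PowerSeries (Om k)} {C : ℕ → ℕ} {n : ℕ → Fin r → ℕ}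
    (hA : Adm grp c P C n) (z : Fin 2 → PowerSeries (Gm k)) (hz : z ≠ 0)
    (hP : IsLimP P (ratP z)) : Dom mu grp c C n := by
  obtain ⟨B, a', N₀, hL, hj, h1, h2⟩ := linStr_hom (L := Gm (Om k)) hS z hz
  refine linStr_dom hS.hmu hc hA hP hL hj (fun j => ⟨(h1 j).1, fun h0 => (h1 j).2 ?_⟩) h2
  exact toAA_inj (by rw [h0, map_zero])

end M3
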