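import Pool.Agent.M3.Defs

/-!
PIECE M3-L01: ultrapowers of fields.

PROOF. `CharZero`: `(n : Gm α) = gm (fun _ => n)` (induction), and `gm f = gm g ↔ ∀ᶠ i in Uf, f i = g i`.
`IsAlgClosed`: `IsAlgClosed.of_exists_root`: a monic polynomial `p` of degree `n > 0` over `Gm α` : choose
representatives `p_j : ℕ → α` of the coefficients `j < n`; let `q i := X^n + ∑ j < n, C (p_j i) * X^j`, it has a root
`x i`; then `gm x` is a root of `p` (the evaluation commutes with `gm`: `gmH` is a ring homomorphism,
`gm` of a finite sum/product/power is the sum/product/power).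
`exists_rep`, `eval₂_gm`: `MvPolynomial` version: choose representatives of the finitely many nonzero
coefficients; `eval₂_gm`: `Fi i` has support in a fixed finite set of exponents for almost all `i`
(`totalDegree ≤ D`, finitely many variables), so both sides are finite sums over that set.
-/

open MvPolynomial

namespace M3

universe u

section
variable {k : Type u} [Field k]

private theorem GmA_sum {ι : Type*} (s : Finset ι) (f : ι → ℕ → k) :
    gm (fun i => ∑ j ∈ s, f j i) = ∑ j ∈ s, gm (f j) := by
  have h := map_sum (gmH k) f s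
  rw [gmH_apply] at h
  have e : (∑ j ∈ s, f j : ℕ → k) = fun i => ∑ j ∈ s, f j i := by
    funext i
    rw [Finset.sum_apply]
  rw [← e, h]
  rfl

private theorem GmA_pow (f : ℕ → k) (n : ℕ) : gm (fun i => f i ^ n) = gm f ^ n :=
  map_pow (gmH k) f n

end

instance gm_charZero {α : Type u} [Field α] [CharZero α] : CharZero (Gm α) where
  cast_injective := by
    intro a b h
    have e : ∀ n : ℕ, (n : Gm α) = gm fun _ => (n : α) := fun n => (map_natCast (gmH α) n).symm
    rw [e, e, gm_eq] at h
    obtain ⟨_, hi⟩ := h.exists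
    exact_mod_cast hi

instance gm_isAlgClosed {α : Type u} [Field α] [IsAlgClosed α] : IsAlgClosed (Gm α) := by
  apply IsAlgClosed.of_exists_root
  intro p hp hirr
  set n := p.natDegree with hn
  have hn0 : 0 < n := hirr.natDegree_pos
  choose r hr using fun j => gm_surj (p.coeff j)
  have hdeg : ∀ i, (∑ j ∈ Finset.range n, Polynomial.C (r j i) * Polynomial.X ^ j :
      Polynomial α).degree < (n : WithBot ℕ) := by
    intro i
    refine (Polynomial.degree_sum_le _ _).trans_lt ?_
    refine (Finset.sup_lt_iff (WithBot.bot_lt_coe n)).2 fun j hj => ?_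
    exact (Polynomial.degree_C_mul_X_pow_le j _).trans_lt
      (WithBot.coe_lt_coe.2 (Finset.mem_range.1 hj))
  have hroot : ∀ i, ∃ x : α, x ^ n + ∑ j ∈ Finset.range n, r j i * x ^ j = 0 := by
    intro i
    have h1 : (Polynomial.X ^ n + ∑ j ∈ Finset.range n,
        Polynomial.C (r j i) * Polynomial.X ^ j : Polynomial α).degree = n := by
      rw [Polynomial.degree_add_eq_left_of_degree_lt, Polynomial.degree_X_pow]
      rw [Polynomial.degree_X_pow]
      exact hdeg i
    obtain ⟨x, hx⟩ := IsAlgClosed.exists_root (Polynomial.X ^ n + ∑ j ∈ Finset.range n,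
      Polynomial.C (r j i) * Polynomial.X ^ j : Polynomial α) (by
        rw [h1]
        exact_mod_cast hn0.ne')
    refine ⟨x, ?_⟩
    have h2 : (Polynomial.X ^ n + ∑ j ∈ Finset.range n,
      Polynomial.C (r j i) * Polynomial.X ^ j : Polynomial α).eval x = 0 := hx
    simpa [Polynomial.eval_finsetSum] using h2
  choose x hx using hroot
  refine ⟨gm x, ?_⟩
  rw [Polynomial.eval_eq_sum_range, ← hn, Finset.sum_range_succ, hp.coeff_natDegree, one_mul,
    ← GmA_pow]
  have h3 : ∀ j ∈ Finset.range n, p.coeff j * gm x ^ j = gm fun i => r j i * x i ^ j := by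
    intro j _
    rw [← hr, ← GmA_pow]
    rfl
  rw [Finset.sum_congr rfl h3, ← GmA_sum, ← gm_add, gm_eq_zero]
  refine Filter.Eventually.of_forall fun i => ?_
  rw [add_comm]
  exact hx i

instance om_charZero {k : Type u} [Field k] [CharZero k] : CharZero (Om k) :=
  charZero_of_injective_ringHom (algebraMap k (Om k)).injective

section
variable {k : Type u} [Field k] {K : Type u} [Field K]

theorem gm_sum {ι : Type*} (s : Finset ι) (f : ι → ℕ → k) :
    gm (fun i => ∑ j ∈ s, f j i) = ∑ j ∈ s, gm (f j) := GmA_sum s f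

theorem gm_prod {ι : Type*} (s : Finset ι) (f : ι → ℕ → k) :
    gm (fun i => ∏ j ∈ s, f j i) = ∏ j ∈ s, gm (f j) := by
  have h := map_prod (gmH k) f s
  rw [gmH_apply] at h
  have e : (∏ j ∈ s, f j : ℕ → k) = fun i => ∏ j ∈ s, f j i := by
    funext i
    rw [Finset.prod_apply]
  rw [← e, h]
  rfl

theorem gm_pow (f : ℕ → k) (n : ℕ) : gm (fun i => f i ^ n) = gm f ^ n := GmA_pow f n

/-- a polynomial over the ultrapower is the limit of polynomials with the same support -/
theorem exists_rep {σ : Type} (F : MvPolynomial σ (Gm k)) :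
    ∃ Fi : ℕ → MvPolynomial σ k, (∀ i, (Fi i).support ⊆ F.support) ∧
      ∀ e, coeff e F = gm fun i => coeff e (Fi i) := by
  classical
  choose c hc using fun e => gm_surj (coeff e F)
  have hco : ∀ i e, coeff e (∑ e ∈ F.support, monomial e (c e i)) =
      if e ∈ F.support then c e i else 0 := by
    intro i e
    rw [coeff_sum]
    simp only [coeff_monomial]
    rw [Finset.sum_ite_eq']
  refine ⟨fun i => ∑ e ∈ F.support, monomial e (c e i), fun i e he => ?_, fun e => ?_⟩
  · rw [mem_support_iff, hco] at he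
    by_contra h
    exact he (if_neg h)
  · simp only [hco]
    by_cases h : e ∈ F.support
    · simp only [if_pos h]
      exact (hc e).symm
    · simp only [if_neg h]
      rw [notMem_support_iff.1 h]
      rfl

private theorem GmA_fin {σ : Type} [Finite σ] (D : ℕ) :
    ∃ T : Finset (σ →₀ ℕ), ∀ F : MvPolynomial σ k, F.totalDegree ≤ D → F.support ⊆ T := by
  refine ⟨(Finsupp.finite_of_degree_le (σ := σ) D).toFinset, fun F hF e he => ?_⟩
  rw [Set.Finite.mem_toFinset]
  have h := (le_totalDegree he).trans hF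
  change Finsupp.degree e ≤ D
  exact h

/-- evaluation commutes with limits of polynomials of bounded degree -/
theorem eval₂_gm {σ : Type} [Finite σ] (φ : k →+* K) {F : MvPolynomial σ (Gm k)}
    {Fi : ℕ → MvPolynomial σ k} {D : ℕ} (hD : ∀ᶠ i in Uf, (Fi i).totalDegree ≤ D)
    (h : ∀ e, coeff e F = gm fun i => coeff e (Fi i)) (x : σ → ℕ → K) :
    eval₂ (gmMap φ) (fun s => gm (x s)) F = gm fun i => eval₂ φ (fun s => x s i) (Fi i) := by
  classical
  have := Fintype.ofFinite σ
  obtain ⟨T₀, hT₀⟩ := GmA_fin (k := k) (σ := σ) D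
  set T := T₀ ∪ F.support with hT
  have h1 : eval₂ (gmMap φ) (fun s => gm (x s)) F =
      ∑ e ∈ T, gmMap φ (coeff e F) * ∏ s, gm (x s) ^ e s := by
    rw [eval₂_eq']
    refine Finset.sum_subset Finset.subset_union_right fun e _ he => ?_
    rw [notMem_support_iff.1 he, map_zero, zero_mul]
  have h2 : gm (fun i => eval₂ φ (fun s => x s i) (Fi i)) =
      gm fun i => ∑ e ∈ T, φ (coeff e (Fi i)) * ∏ s, x s i ^ e s := by
    rw [gm_eq]
    filter_upwards [hD] with i hi
    rw [eval₂_eq']
    refine Finset.sum_subset ((hT₀ _ hi).trans Finset.subset_union_left) fun e _ he => ?_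
    rw [notMem_support_iff.1 he, map_zero, zero_mul]
  rw [h1, h2, gm_sum]
  refine Finset.sum_congr rfl fun e _ => ?_
  rw [h e, gmMap_gm, gm_mul, gm_prod]
  simp only [gm_pow]

/-- a polynomial of bounded degree whose limit is zero is almost everywhere zero -/
theorem poly_eventually_zero {σ : Type} [Finite σ] {Fi : ℕ → MvPolynomial σ k} {D : ℕ}
    (hD : ∀ᶠ i in Uf, (Fi i).totalDegree ≤ D) (h : ∀ e, gm (fun i => coeff e (Fi i)) = 0) :
    ∀ᶠ i in Uf, Fi i = 0 := by
  obtain ⟨T, hT⟩ := GmA_fin (k := k) (σ := σ) D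
  have h1 : ∀ᶠ i in Uf, ∀ e ∈ T, coeff e (Fi i) = 0 :=
    (Filter.eventually_all_finset T).2 fun e _ => gm_eq_zero.1 (h e)
  filter_upwards [hD, h1] with i hi hi'
  ext e
  rw [coeff_zero]
  by_cases he : e ∈ T
  · exact hi' e he
  · exact notMem_support_iff.1 fun he' => he (hT _ hi he')

end

end M3
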