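import Pool.Agent.M3.XLow
import Pool.Agent.M3.ArcIn
import Pool.Agent.M3.Rec

/-!
PIECE M3-X08: domination of divisors over `A^3` by divisors of bounded log discrepancy.
-/

open MvPolynomial Filter

namespace M3

open MLD

universe u

/-- large indices form a set of the ultrafilter -/
theorem Bdd3_ge (M : ℕ) : ∀ᶠ i in Uf, M ≤ i := by
  have h7 : ∀ᶠ i in (Filter.atTop : Filter ℕ), M ≤ i := Filter.eventually_ge_atTop M
  rw [← Nat.cofinite_eq_atTop] at h7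
  exact Filter.hyperfilter_le_cofinite h7

/-- a divisor over the origin of log discrepancy at most `3` -/
theorem Bdd3_blowup (k : Type u) [Field k] [CharZero k] :
    ∃ E : DivisorOver k (Fin 3), E.CenterZero ∧ E.ordI (mm k (Fin 3)) ≤ 1 ∧
      E.logDisc ≤ ((((3 : ℕ) : ℝ)) : EReal) := by
  obtain ⟨Q, hQ⟩ := exists_generic k
  obtain ⟨E, g, A₁, hg, hE, hE1, hl, hA, -⟩ := arc_to_div 0 1 Nat.one_pos 0 Q 0 (hQ 1)
  refine ⟨E, hE, hE1, hl.trans ?_⟩
  have h1 : A₁ ≤ 3 := by nlinarith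
  exact_mod_cast EReal.coe_le_coe_iff.2 (show ((A₁ : ℕ) : ℝ) ≤ ((3 : ℕ) : ℝ) by exact_mod_cast h1)

theorem Bdd3_mm (k : Type u) [Field k] (E : DivisorOver k (Fin 3)) (i₀ : Fin 3) (e : ℕ)
    (he : E.ord (xx k i₀) = e) (hmin : ∀ i, E.ord (xx k i₀) ≤ E.ord (xx k i)) :
    e ≤ E.ordI (mm k (Fin 3)) := by
  refine le_ordI_span E ?_ e ?_
  · intro h
    have h1 : (X 0 : MvPolynomial (Fin 3) k) ∈ (⊥ : Ideal (MvPolynomial (Fin 3) k)) := by
      rw [← h]
      exact Ideal.subset_span ⟨0, rfl⟩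
    exact X_ne_zero 0 ((Submodule.mem_bot _).1 h1)
  · rintro f ⟨i, rfl⟩ _
    rw [← he]
    exact hmin i

theorem bdd3 {k : Type u} [Field k] [IsAlgClosed k] [CharZero k] {r : ℕ} (lam : Fin r → ℝ)
    (hlam : ∀ j, 0 < lam j) (N : ℕ) :
    ∃ ℓ : ℕ, ∀ a : Fin r → Ideal (MvPolynomial (Fin 3) k), (∀ j, a j ≠ ⊥) →
      ∀ E : DivisorOver k (Fin 3), E.CenterZero → E.ordI (mm k (Fin 3)) ≤ N →
        ∃ E' : DivisorOver k (Fin 3), E'.CenterZero ∧ E'.ordI (mm k (Fin 3)) ≤ N ∧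
          E'.logDisc ≤ ((ℓ : ℝ) : EReal) ∧
          (E'.aDisc lam a < 0 ∨ E'.aDisc lam a ≤ E.aDisc lam a) := by
  classical
  by_contra hcon
  push Not at hcon
  choose a ha E hE hN hbad using hcon
  obtain ⟨E₃, hE₃, hN₃, hl₃⟩ := Bdd3_blowup k
  have hN1 : 1 ≤ N := by
    have h1 := ordI_mm_pow (E 0) (hE 0) 1
    rw [pow_one] at h1
    exact h1.trans (hN 0)
  -- the log discrepancies are finite
  have htop : ∀ i, 3 ≤ i → (E i).logDisc ≠ ⊤ := by
    intro i hi ht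
    have h1 : E₃.logDisc ≤ ((i : ℝ) : EReal) := hl₃.trans
      (by exact_mod_cast EReal.coe_le_coe_iff.2 (show ((3 : ℕ) : ℝ) ≤ (i : ℝ) by exact_mod_cast hi))
    have h2 := (hbad i E₃ hE₃ (hN₃.trans hN1) h1).2
    have h3 : (E i).aDisc lam (a i) = ⊤ := by
      unfold DivisorOver.aDisc
      rw [ht, EReal.top_sub_coe]
    rw [h3] at h2
    exact absurd h2 (not_lt.2 le_top)
  have hneg : ∀ ℓ : ℕ, ∀ᶠ i in Uf, ∀ E' : DivisorOver k (Fin 3), E'.CenterZero →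
      E'.ordI (mm k (Fin 3)) ≤ N → E'.logDisc ≤ ((ℓ : ℝ) : EReal) →
      ¬ E'.aDisc lam (a i) < 0 := by
    intro ℓ
    filter_upwards [Bdd3_ge ℓ] with i hi E' hE' hN' hl'
    have h1 : E'.logDisc ≤ ((i : ℝ) : EReal) := hl'.trans
      (by exact_mod_cast EReal.coe_le_coe_iff.2 (show (ℓ : ℝ) ≤ (i : ℝ) by exact_mod_cast hi))
    exact not_lt.2 (hbad i E' hE' hN' h1).1
  obtain ⟨M, hM⟩ := mult_bdd hlam a ha N hN1 hneg
  obtain ⟨J, _, grp, p, μ, hp, hd, hne, hH⟩ := gen_seq a M hM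
  have hA : ∀ i, ∃ A : ℕ, 3 ≤ i → (E i).logDisc = (((A : ℕ) : ℝ) : EReal) := by
    intro i
    by_cases hi : 3 ≤ i
    · obtain ⟨A, hA⟩ := exists_logDisc (E i) (htop i hi)
      exact ⟨A, fun _ => hA⟩
    · exact ⟨0, fun h => absurd h hi⟩
  choose A hA using hA
  have harc : ∀ i, ∃ (i₀ : Fin 3) (e : ℕ) (P : Fin 2 → PowerSeries (Om k)), 3 ≤ i →
      0 < e ∧ e ≤ N ∧ 3 * e ≤ A i ∧ Cod k P (A i - 3 * e) ∧
      ∀ (f : MvPolynomial (Fin 3) k) (μ n : ℕ), f ≠ 0 →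
        (∀ d < μ, homogeneousComponent d f = 0) → n + e * μ ≤ ∑ j, (E i).ordI (a i j) →
        ((n + e * μ : ℕ) : ℤ) ≤ (E i).ord (toFF k (Fin 3) f) →
        (PowerSeries.X : PowerSeries (Om k)) ^ n ∣ ev P (cone i₀ e μ f) := by
    intro i
    by_cases hi : 3 ≤ i
    · obtain ⟨i₀, e, he, he1, he2, he3, P, hP, hPf⟩ := div_to_arc (E i) (hE i) (A i)
        (hA i hi).le (∑ j, (E i).ordI (a i j))
      exact ⟨i₀, e, P, fun _ => ⟨he, (Bdd3_mm k (E i) i₀ e he1 he2).trans (hN i), he3, hP, hPf⟩⟩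
    · exact ⟨0, 0, fun _ => 0, fun h => absurd h hi⟩
  choose i₀' e' P harc using harc
  -- the coordinate and the order are constant
  obtain ⟨i₀, hi₀⟩ : ∃ i₀ : Fin 3, ∀ᶠ i in Uf, i₀' i = i₀ :=
    Ultrafilter.eventually_exists_iff.1 (Filter.Eventually.of_forall fun i => ⟨i₀' i, rfl⟩)
  obtain ⟨e, heN, he⟩ : ∃ e ∈ Set.Iic N, ∀ᶠ i in Uf, e' i = e :=
    (Ultrafilter.eventually_exists_mem_iff (Set.finite_Iic N)).1 (by
      filter_upwards [Bdd3_ge 3] with i hi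
      exact ⟨e' i, (harc i hi).2.1, rfl⟩)
  have he0 : 0 < e := by
    obtain ⟨i, hi, hi'⟩ := (he.and (Bdd3_ge 3)).exists
    rw [← hi]
    exact (harc i hi').1
  choose f hf hf0 using fun h => cone_lim i₀ he0 (μ (grp h)) (p h)
  have ne : ∀ j, ∃ h, grp h = j ∧ f h ≠ 0 := by
    intro j
    obtain ⟨h, hj, m, hm, hm'⟩ := hne j
    exact ⟨h, hj, hf0 h m (by rw [hm, hj]) hm'⟩
  have hL := low_limit hlam a ha grp p μ hd hH i₀ e he0 hf N heN hneg
  have hAdm : Adm grp (fun i h => cone i₀ e (μ (grp h)) (p h i)) P (fun i => A i - 3 * e)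
      (fun i j => (E i).ordI (a i j) - e * μ j) := by
    filter_upwards [hi₀, he, Bdd3_ge 3, hd] with i h1 h2 h3 h4
    obtain ⟨-, -, h5, h6, h7⟩ := harc i h3
    rw [h2] at h6
    refine ⟨h6, fun h => ?_⟩
    simp only
    by_cases hp0 : p h i = 0
    · rw [hp0, cone_zero, ev_zero]
      exact dvd_zero _
    · by_cases hn : (E i).ordI (a i (grp h)) ≤ e * μ (grp h)
      · rw [Nat.sub_eq_zero_of_le hn, pow_zero]
        exact one_dvd _
      · have h8 : (E i).ordI (a i (grp h)) - e * μ (grp h) + e * μ (grp h) =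
            (E i).ordI (a i (grp h)) := by omega
        have h9 := h7 (p h i) (μ (grp h)) ((E i).ordI (a i (grp h)) - e * μ (grp h)) hp0
          (h4 h)
        rw [h2, h1, h8] at h9
        refine h9 ?_ ?_
        · exact Finset.single_le_sum (f := fun j => (E i).ordI (a i j))
            (fun _ _ => Nat.zero_le _) (Finset.mem_univ (grp h))
        · exact ordI_le (E i) (hp h i) hp0
  obtain ⟨ℓ, hℓ⟩ := k3_main hlam ne hL hf hAdm
  have hdvs := dvs_of_arc a ha grp p μ hd hH i₀ e he0 ℓ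
  obtain ⟨i, hi1, hi2, hi3, hi4, hi5, hi6⟩ := (hℓ.and (hdvs.and ((Bdd3_ge (ℓ + 3 * e + 3)).and
    (he.and (hi₀.and hd))))).exists
  obtain ⟨Q, C', n', hC', hn', hQ, hO, hval⟩ := hi1
  obtain ⟨E', g, A₁, hg, hE', hEe', hl', hgA, hord⟩ := hi2 (Om k) Q C' n' hn' (hQ _) hO
  have hAi := hA i (by omega)
  have h3e : 3 * e ≤ A i := by
    have := (harc i (by omega)).2.2.1
    rw [hi4] at this
    exact this
  have hl'' : E'.logDisc ≤ ((i : ℝ) : EReal) := hl'.trans (by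
    have h1 : A₁ ≤ g * A₁ := Nat.le_mul_of_pos_left _ hg
    have h2 : A₁ ≤ i := by omega
    exact_mod_cast EReal.coe_le_coe_iff.2 (show ((A₁ : ℕ) : ℝ) ≤ (i : ℝ) by exact_mod_cast h2))
  obtain ⟨hb1, hb2⟩ := hbad i E' hE' (hEe'.trans heN) hl''
  have hEi := Q1_aDisc (E i) lam (a i) hAi
  obtain ⟨hc1, hc2⟩ := aDisc_le (fun j => (hlam j).le) (a i) E' g A₁ (C' + 3 * e) hg hl' hgA
    (fun j => n' j + e * μ j) hord ((A i : ℝ) - ∑ j, lam j * ((E i).ordI (a i j) : ℝ)) (by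
      have h1 : ∑ j, lam j * ((E i).ordI (a i j) : ℝ) ≤
          ∑ j, lam j * (((E i).ordI (a i j) - e * μ j : ℕ) : ℝ) + ∑ j, lam j * (e * μ j : ℕ) := by
        rw [← Finset.sum_add_distrib]
        refine Finset.sum_le_sum fun j _ => ?_
        rw [← mul_add]
        refine mul_le_mul_of_nonneg_left ?_ (hlam j).le
        have : (E i).ordI (a i j) ≤ ((E i).ordI (a i j) - e * μ j) + e * μ j := by omega
        exact_mod_cast this
      have h2 : ∑ j, lam j * ((n' j + e * μ j : ℕ) : ℝ) =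
          ∑ j, lam j * (n' j : ℝ) + ∑ j, lam j * (e * μ j : ℕ) := by
        rw [← Finset.sum_add_distrib]
        refine Finset.sum_congr rfl fun j _ => ?_
        push_cast
        ring
      have h3 : ((A i - 3 * e : ℕ) : ℝ) = A i - 3 * e := by
        rw [Nat.cast_sub h3e]
        push_cast
        ring
      have h4 : ((C' + 3 * e : ℕ) : ℝ) = C' + 3 * e := by push_cast; ring
      rw [h2, h4]
      rw [h3] at hval
      linarith)
  rw [hEi] at hb2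
  rcases lt_or_ge ((A i : ℝ) - ∑ j, lam j * ((E i).ordI (a i j) : ℝ)) 0 with h | h
  · exact absurd (hc1 h) (not_lt.2 hb1)
  · exact absurd (hc2 h) (not_le.2 hb2)

end M3
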