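import Pool.Agent.M3.LimCh
import Pool.Agent.M3.DegA

/-!
PROJECT M3, block C: tools.  Unipotent substitutions and the charts
`x = u + τ^(a L) x'`, `y = p(x) + τ^(b L) y'`.
-/

open MvPolynomial

namespace M3

universe u

/-! ### unipotent substitutions -/

section
variable {k : Type u} [CommRing k]

/-- all monomials have weight at most `D` -/
def CWLe (a b D : ℕ) (f : AA k) : Prop := ∀ e, D < wt a b e → mc f e = 0

/-- all monomials have weight less than `D` -/
def WLt (a b D : ℕ) (f : AA k) : Prop := ∀ e, D ≤ wt a b e → mc f e = 0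

theorem wt_add (a b : ℕ) (e e' : Fin 2 →₀ ℕ) : wt a b (e + e') = wt a b e + wt a b e' := by
  unfold wt
  rw [Finsupp.add_apply, Finsupp.add_apply]
  ring

theorem mc_mul (f g : AA k) (e : Fin 2 →₀ ℕ) :
    mc (f * g) e = ∑ x ∈ Finset.HasAntidiagonal.antidiagonal e, mc f x.1 * mc g x.2 := by
  classical
  ext n
  rw [coeff_mc, PowerSeries.coeff_mul, coeff_sum, map_sum]
  simp only [MvPolynomial.coeff_mul, PowerSeries.coeff_mul, coeff_mc]
  rw [Finset.sum_comm]

theorem WLt.le {a b D : ℕ} {f : AA k} (h : WLt a b D f) : CWLe a b D f := fun e he => h e he.le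

theorem WLt.mono {a b D D' : ℕ} {f : AA k} (h : WLt a b D f) (hD : D ≤ D') : WLt a b D' f :=
  fun e he => h e (hD.trans he)

theorem CWLe.lt {a b D D' : ℕ} {f : AA k} (h : CWLe a b D f) (hD : D < D') : WLt a b D' f :=
  fun e he => h e (hD.trans_le he)

theorem WLt.add {a b D : ℕ} {f g : AA k} (h : WLt a b D f) (h' : WLt a b D g) :
    WLt a b D (f + g) := fun e he => by rw [mc_add, h e he, h' e he, add_zero]

theorem CWLe.add {a b D : ℕ} {f g : AA k} (h : CWLe a b D f) (h' : CWLe a b D g) :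
    CWLe a b D (f + g) := fun e he => by rw [mc_add, h e he, h' e he, add_zero]

theorem WLt.mul {a b D D' : ℕ} {f g : AA k} (h : WLt a b D f) (h' : CWLe a b D' g) :
    WLt a b (D + D') (f * g) := by
  intro e he
  rw [mc_mul]
  refine Finset.sum_eq_zero fun x hx => ?_
  rw [← Finset.HasAntidiagonal.mem_antidiagonal.1 hx, wt_add] at he
  rcases Nat.lt_or_ge (wt a b x.1) D with h1 | h1
  · rw [h' x.2 (by omega), mul_zero]
  · rw [h x.1 h1, zero_mul]

theorem CWLe.mul {a b D D' : ℕ} {f g : AA k} (h : CWLe a b D f) (h' : CWLe a b D' g) :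
    CWLe a b (D + D') (f * g) := by
  intro e he
  rw [mc_mul]
  refine Finset.sum_eq_zero fun x hx => ?_
  rw [← Finset.HasAntidiagonal.mem_antidiagonal.1 hx, wt_add] at he
  rcases Nat.lt_or_ge D (wt a b x.1) with h1 | h1
  · rw [h x.1 h1, zero_mul]
  · rw [h' x.2 (by omega), mul_zero]

theorem CWLe.one (a b : ℕ) : CWLe a b 0 (1 : AA k) := by
  intro e he
  have h1 : (1 : AA k) = cA 1 := (map_one cA).symm
  rw [h1, mc_cA, if_neg]
  rintro rfl
  simp [wt] at he

theorem CWLe.pow {a b D : ℕ} {f : AA k} (h : CWLe a b D f) (n : ℕ) :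
    CWLe a b (D * n) (f ^ n) := by
  induction n with
  | zero => rw [pow_zero, mul_zero]; exact CWLe.one a b
  | succ n ih => rw [pow_succ, mul_add, mul_one]; exact ih.mul h

theorem CWLe.xA0 (a b : ℕ) : CWLe a b a (xA 0 : AA k) := by
  intro e he
  rw [mc_xA, if_neg]
  rintro rfl
  simp [wt] at he

theorem CWLe.xA1 (a b : ℕ) : CWLe a b b (xA 1 : AA k) := by
  intro e he
  rw [mc_xA, if_neg]
  rintro rfl
  simp [wt] at he

theorem CWLe.cA {a b : ℕ} (D : ℕ) (c : PowerSeries k) : CWLe a b D (cA c) := by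
  intro e he
  rw [mc_cA, if_neg]
  rintro rfl
  simp [wt] at he

/-- equality up to terms of smaller weight -/
theorem unip_mul {a b D D' : ℕ} {f f' g g' : AA k} (h : WLt a b D (f - f')) (hf : CWLe a b D f')
    (h' : WLt a b D' (g - g')) (hg : CWLe a b D' g') :
    WLt a b (D + D') (f * g - f' * g') := by
  have h1 : f * g - f' * g' = (f - f') * g + (g - g') * f' := by ring
  have hg' : CWLe a b D' g := by
    have : g = g' + (g - g') := by ring
    rw [this]
    exact hg.add h'.le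
  rw [h1]
  refine (h.mul hg').add ?_
  rw [add_comm D D']
  exact h'.mul hf

theorem unip_pow {a b D : ℕ} {f f' : AA k} (h : WLt a b D (f - f')) (hf : CWLe a b D f') (n : ℕ) :
    WLt a b (D * n) (f ^ n - f' ^ n) := by
  induction n with
  | zero =>
    rw [pow_zero, pow_zero, sub_self]
    intro e _
    rw [mc_zero]
  | succ n ih =>
    rw [pow_succ, pow_succ, mul_add, mul_one]
    exact unip_mul ih (hf.pow n) h hf

theorem unip_monomial {a b : ℕ} {ψ : Fin 2 → AA k} (h0 : WLt a b a (ψ 0 - xA 0))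
    (h1 : WLt a b b (ψ 1 - xA 1)) (e' : Fin 2 →₀ ℕ) (c : k) :
    WLt a b (wt a b e') (aeval ψ (monomial e' c) - PowerSeries.C (monomial e' c)) := by
  have h2 : ∀ φ : Fin 2 → AA k, aeval φ (monomial e' c) =
      cA (PowerSeries.C c) * (φ 0 ^ e' 0 * φ 1 ^ e' 1) := by
    intro φ
    rw [aeval_monomial, Finsupp.prod_fintype _ _ (fun i => pow_zero _), Fin.prod_univ_two]
    congr 1
  have h3 : (PowerSeries.C (monomial e' c) : AA k) = aeval xA (monomial e' c) := by
    rw [← ev_C, ev_self]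
  rw [h3, h2, h2, ← mul_sub]
  have h4 : wt a b e' = 0 + (a * e' 0 + b * e' 1) := by
    unfold wt
    omega
  rw [h4, add_comm, mul_comm (cA _)]
  exact (unip_mul (unip_pow h0 (CWLe.xA0 a b) _) ((CWLe.xA0 a b).pow _)
    (unip_pow h1 (CWLe.xA1 a b) _) ((CWLe.xA1 a b).pow _)).mul (CWLe.cA 0 _)

theorem unip_poly {a b : ℕ} {ψ : Fin 2 → AA k} (h0 : WLt a b a (ψ 0 - xA 0))
    (h1 : WLt a b b (ψ 1 - xA 1)) {D : ℕ} (q : MvPolynomial (Fin 2) k)
    (hq : ∀ e, coeff e q ≠ 0 → wt a b e ≤ D) :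
    WLt a b D (aeval ψ q - PowerSeries.C q) := by
  have h2 : aeval ψ q - PowerSeries.C q = ∑ e ∈ q.support,
      (aeval ψ (monomial e (coeff e q)) - PowerSeries.C (monomial e (coeff e q))) := by
    rw [Finset.sum_sub_distrib, ← map_sum, ← map_sum]
    conv_lhs => rw [← support_sum_monomial_coeff q]
  rw [h2]
  have h3 : ∀ s : Finset (Fin 2 →₀ ℕ), s ⊆ q.support → WLt a b D (∑ e ∈ s,
      (aeval ψ (monomial e (coeff e q)) - PowerSeries.C (monomial e (coeff e q)))) := by
    intro s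
    classical
    induction s using Finset.induction_on with
    | empty =>
      intro _ e _
      rw [Finset.sum_empty, mc_zero]
    | insert e s he ih =>
      intro hs
      rw [Finset.sum_insert he]
      refine WLt.add ?_ (ih ((Finset.subset_insert _ _).trans hs))
      exact (unip_monomial h0 h1 e _).mono
        (hq e (mem_support_iff.1 (hs (Finset.mem_insert_self _ _))))
  exact h3 _ (Finset.Subset.refl _)

theorem unip_ev {a b : ℕ} {ψ : Fin 2 → AA k} (h0 : WLt a b a (ψ 0 - xA 0))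
    (h1 : WLt a b b (ψ 1 - xA 1)) {D N : ℕ} {f : AA k}
    (hf : ∀ e, D < wt a b e → (PowerSeries.X : PowerSeries k) ^ N ∣ mc f e)
    (e : Fin 2 →₀ ℕ) (he : D ≤ wt a b e) :
    (PowerSeries.X : PowerSeries k) ^ N ∣ mc (ev ψ f) e - mc f e := by
  rw [PowerSeries.X_pow_dvd_iff]
  intro n hn
  have h2 : ∀ i, i ≤ n → ∀ m, PowerSeries.coeff m (mc (aeval ψ (PowerSeries.coeff i f)) e) =
      PowerSeries.coeff m (PowerSeries.C (coeff e (PowerSeries.coeff i f))) := by
    intro i hi m
    have h3 := unip_poly h0 h1 (D := D) (PowerSeries.coeff i f) (fun e' he' => by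
      by_contra hlt
      apply he'
      rw [← coeff_mc]
      exact (PowerSeries.X_pow_dvd_iff.1 (hf e' (by omega))) i (by omega)) e he
    rw [mc_sub, sub_eq_zero] at h3
    rw [h3, coeff_mc, PowerSeries.coeff_C, PowerSeries.coeff_C]
    split_ifs
    · rfl
    · rw [coeff_zero]
  rw [map_sub, coeff_mc, coeff_ev, coeff_sum]
  have h4 : ∀ p ∈ Finset.HasAntidiagonal.antidiagonal n,
      coeff e (PowerSeries.coeff p.2 (aeval ψ (PowerSeries.coeff p.1 f))) =
      PowerSeries.coeff p.2 (PowerSeries.C (coeff e (PowerSeries.coeff p.1 f))) := by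
    intro p hp
    rw [← coeff_mc]
    exact h2 p.1 (by have := Finset.HasAntidiagonal.mem_antidiagonal.1 hp; omega) p.2
  rw [Finset.sum_congr rfl h4, Finset.sum_eq_single (n, 0)]
  · rw [PowerSeries.coeff_zero_C, coeff_mc, sub_self]
  · rintro ⟨a', b'⟩ hab hne
    have h5 : b' ≠ 0 := by
      rintro rfl
      apply hne
      have := Finset.HasAntidiagonal.mem_antidiagonal.1 hab
      simp at this
      rw [this]
    rw [PowerSeries.coeff_C, if_neg h5]
  · intro h5
    exact absurd (Finset.HasAntidiagonal.mem_antidiagonal.2 (by simp)) h5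

end

/-! ### the charts -/

section
variable {k : Type u} [CommRing k]

/-- the unipotent substitution `x ↦ x + u`, `y ↦ y + p(x + u)` -/
noncomputable def psi (u : PowerSeries k) (p : Polynomial (PowerSeries k)) : Fin 2 → AA k :=
  ![xA 0 + cA u, xA 1 + p.eval₂ cA (xA 0 + cA u)]

/-- the scaling -/
noncomputable def sca (k : Type u) [CommRing k] (A B : ℕ) : Fin 2 → AA k :=
  ![PowerSeries.X ^ A * xA 0, PowerSeries.X ^ B * xA 1]

/-- the chart `x = u + τ^A x'`, `y = p(x) + τ^B y'` -/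
noncomputable def tch (A B : ℕ) (u : PowerSeries k) (p : Polynomial (PowerSeries k)) :
    Fin 2 → AA k :=
  ![cA u + PowerSeries.X ^ A * xA 0,
    p.eval₂ cA (cA u + PowerSeries.X ^ A * xA 0) + PowerSeries.X ^ B * xA 1]

theorem ev_cA' (χ : Fin 2 → AA k) (c : PowerSeries k) : ev χ (cA c) = cA c := by
  rw [ev_cA]
  rfl

theorem ev_X_pow {R : Type*} [CommRing R] [Algebra k R] (P : Fin 2 → PowerSeries R) (n : ℕ) :
    ev P ((PowerSeries.X : AA k) ^ n) = PowerSeries.X ^ n := by
  rw [ev_pow, ev_X]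

theorem ev_eval₂ {R : Type*} [CommRing R] [Algebra k R] (P : Fin 2 → PowerSeries R)
    (p : Polynomial (PowerSeries k)) (t : AA k) :
    ev P (p.eval₂ cA t) = p.eval₂ (PowerSeries.map (algebraMap k R)) (ev P t) := by
  rw [← evH_apply, Polynomial.hom_eval₂, evH_apply]
  congr 1
  ext1 c
  rw [RingHom.comp_apply, evH_apply, ev_cA]

theorem ev_eval₂' (χ : Fin 2 → AA k) (p : Polynomial (PowerSeries k)) (t : AA k) :
    ev χ (p.eval₂ cA t) = p.eval₂ cA (ev χ t) := ev_eval₂ χ p t

theorem tch_eq (A B : ℕ) (u : PowerSeries k) (p : Polynomial (PowerSeries k)) (j : Fin 2) :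
    tch A B u p j = ev (sca k A B) (psi u p j) := by
  fin_cases j
  · change cA u + PowerSeries.X ^ A * xA 0 = ev (sca k A B) (xA 0 + cA u)
    rw [ev_add, ev_xA, ev_cA', add_comm]
    rfl
  · change p.eval₂ cA (cA u + PowerSeries.X ^ A * xA 0) + PowerSeries.X ^ B * xA 1 =
      ev (sca k A B) (xA 1 + p.eval₂ cA (xA 0 + cA u))
    rw [ev_add, ev_xA, ev_eval₂', ev_add, ev_xA, ev_cA', add_comm, add_comm (cA u)]
    rfl

theorem ev_tch (A B : ℕ) (u : PowerSeries k) (p : Polynomial (PowerSeries k)) (f : AA k) :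
    ev (tch A B u p) f = ev (sca k A B) (ev (psi u p) f) := by
  rw [ev_ev]
  congr 1
  funext j
  exact tch_eq A B u p j

theorem mc_tch (A B : ℕ) (u : PowerSeries k) (p : Polynomial (PowerSeries k)) (f : AA k)
    (e : Fin 2 →₀ ℕ) :
    mc (ev (tch A B u p) f) e = PowerSeries.X ^ (A * e 0 + B * e 1) * mc (ev (psi u p) f) e := by
  rw [ev_tch]
  exact mc_scale A B _ e

theorem cA_X_pow (n : ℕ) : cA ((PowerSeries.X : PowerSeries k) ^ n) = PowerSeries.X ^ n := by
  unfold cA
  rw [map_pow, PowerSeries.map_X]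

theorem tch_chA (A B : ℕ) (u : PowerSeries k) (p : Polynomial (PowerSeries k)) :
    tch A B u p = chA u (p.comp (Polynomial.C u +
      Polynomial.C (PowerSeries.X ^ A) * Polynomial.X)) A B := by
  unfold tch chA
  rw [Polynomial.eval₂_comp, Polynomial.eval₂_add, Polynomial.eval₂_mul, Polynomial.eval₂_C,
    Polynomial.eval₂_C, Polynomial.eval₂_X, cA_X_pow]

theorem tch_dvd (A : ℕ) (u : PowerSeries k) (p : Polynomial (PowerSeries k)) (j : ℕ)
    (hj : 1 ≤ j) : (PowerSeries.X : PowerSeries k) ^ A ∣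
      (p.comp (Polynomial.C u + Polynomial.C (PowerSeries.X ^ A) * Polynomial.X)).coeff j := by
  have h1 : p.comp (Polynomial.C u + Polynomial.C (PowerSeries.X ^ A) * Polynomial.X) =
      (p.comp (Polynomial.C u + Polynomial.X)).comp
        (Polynomial.C (PowerSeries.X ^ A) * Polynomial.X) := by
    rw [Polynomial.comp_assoc, Polynomial.add_comp, Polynomial.C_comp, Polynomial.X_comp]
  rw [h1, Polynomial.comp_C_mul_X_coeff]
  exact Dvd.dvd.mul_left (dvd_pow_self _ (by omega)) _

theorem psi_unip0 {a b : ℕ} (ha : 0 < a) (u : PowerSeries k) (p : Polynomial (PowerSeries k)) :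
    WLt a b a (psi u p 0 - xA 0) := by
  have h1 : psi u p 0 - xA 0 = cA u := by
    change xA 0 + cA u - xA 0 = cA u
    ring
  rw [h1]
  exact (CWLe.cA 0 u).lt ha

theorem psi_unip1 {a b : ℕ} (u : PowerSeries k) (p : Polynomial (PowerSeries k))
    (hp : a * p.natDegree < b) : WLt a b b (psi u p 1 - xA 1) := by
  have h1 : psi u p 1 - xA 1 = ∑ j ∈ Finset.range (p.natDegree + 1),
      cA (p.coeff j) * (xA 0 + cA u) ^ j := by
    rw [← Polynomial.eval₂_eq_sum_range]
    change xA 1 + p.eval₂ cA (xA 0 + cA u) - xA 1 = _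
    ring
  rw [h1]
  intro e he
  have h2 : ∀ (s : Finset ℕ) (g : ℕ → AA k), mc (∑ j ∈ s, g j) e = ∑ j ∈ s, mc (g j) e := by
    intro s g
    classical
    induction s using Finset.induction_on with
    | empty => rw [Finset.sum_empty, Finset.sum_empty, mc_zero]
    | insert j s hj ih => rw [Finset.sum_insert hj, Finset.sum_insert hj, mc_add, ih]
  rw [h2]
  refine Finset.sum_eq_zero fun j hj => ?_
  rw [mc_cA_mul]
  have h3 : CWLe a b (a * j) ((xA 0 + cA u : AA k) ^ j) :=
    ((CWLe.xA0 a b).add (CWLe.cA a u)).pow j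
  rw [h3 e, mul_zero]
  have h4 : j ≤ p.natDegree := Nat.lt_succ_iff.1 (Finset.mem_range.1 hj)
  exact lt_of_lt_of_le (lt_of_le_of_lt (Nat.mul_le_mul_left a h4) hp) he

end

end M3
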