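import Pool.Agent.M3.BlkC0

/-!
PROJECT M3, block C: maximal charts and the limit of the new functions.
-/

open MvPolynomial

namespace M3

universe u

section
variable {k : Type u} [Field k] {r : ℕ} {J : Type}

/-- the arc `P` is contained in a chart with parameter `L` in which the functions `c h` are
divisible by `τ^(d L)` -/
def TC (a b : ℕ) (grp : J → Fin r) (d : Fin r → ℕ) (c : J → AA k)
    (P : Fin 2 → PowerSeries (Om k)) (L : ℕ) (u : PowerSeries k)
    (p : Polynomial (PowerSeries k)) (Q : Fin 2 → PowerSeries (Om k)) : Prop :=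
  a * p.natDegree < b ∧ (P = fun j => ev Q (tch (a * L) (b * L) u p j)) ∧
    ∀ h, (PowerSeries.X : AA k) ^ (d (grp h) * L) ∣ ev (tch (a * L) (b * L) u p) (c h)

/-- there is such a chart -/
def HasT (a b : ℕ) (grp : J → Fin r) (d : Fin r → ℕ) (c : J → AA k)
    (P : Fin 2 → PowerSeries (Om k)) (L : ℕ) : Prop :=
  ∃ u p Q, TC a b grp d c P L u p Q

theorem hasT_zero {a b : ℕ} (hb : 0 < b) (grp : J → Fin r) (d : Fin r → ℕ) (c : J → AA k)
    (P : Fin 2 → PowerSeries (Om k)) : HasT a b grp d c P 0 := by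
  refine ⟨0, 0, P, by rw [Polynomial.natDegree_zero, mul_zero]; exact hb, ?_, fun h => ?_⟩
  · funext j
    rw [mul_zero, mul_zero]
    fin_cases j
    · change P 0 = ev P (cA 0 + PowerSeries.X ^ 0 * xA 0)
      rw [map_zero, zero_add, pow_zero, one_mul, ev_xA]
    · change P 1 = ev P (Polynomial.eval₂ cA _ 0 + PowerSeries.X ^ 0 * xA 1)
      rw [Polynomial.eval₂_zero, zero_add, pow_zero, one_mul, ev_xA]
  · rw [mul_zero, pow_zero]
    exact one_dvd _

theorem TC.cod {a b : ℕ} {grp : J → Fin r} {d : Fin r → ℕ} {c : J → AA k}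
    {P : Fin 2 → PowerSeries (Om k)} {L : ℕ} {u : PowerSeries k}
    {p : Polynomial (PowerSeries k)} {Q : Fin 2 → PowerSeries (Om k)} {C : ℕ}
    (h : TC a b grp d c P L u p Q) (hC : Cod k P C) :
    a * L + b * L ≤ C ∧ Cod k Q (C - a * L - b * L) := by
  obtain ⟨_, h2, _⟩ := h
  rw [h2, tch_chA] at hC
  exact cod_chA_inv u _ (a * L) (b * L) (fun j hj => tch_dvd (a * L) u p j hj) hC

theorem exists_TC {a b : ℕ} (ha : 0 < a) (hb : 0 < b) (grp : J → Fin r) (d : Fin r → ℕ)
    (c : ℕ → J → AA k) (P : ℕ → Fin 2 → PowerSeries (Om k)) (C : ℕ → ℕ) :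
    ∃ (L : ℕ → ℕ) (u : ℕ → PowerSeries k) (p : ℕ → Polynomial (PowerSeries k))
      (P' : ℕ → Fin 2 → PowerSeries (Om k)),
      (∀ i, TC a b grp d (c i) (P i) (L i) (u i) (p i) (P' i)) ∧
      ∀ i L', Cod k (P i) (C i) → HasT a b grp d (c i) (P i) L' → L' ≤ L i := by
  classical
  let L : ℕ → ℕ := fun i => Nat.findGreatest (fun L => HasT a b grp d (c i) (P i) L) (C i)
  have h1 : ∀ i, HasT a b grp d (c i) (P i) (L i) := fun i =>
    Nat.findGreatest_spec (P := fun L => HasT a b grp d (c i) (P i) L) (Nat.zero_le (C i))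
      (hasT_zero hb grp d (c i) (P i))
  choose u p P' hT using h1
  refine ⟨L, u, p, P', hT, fun i L' hC hL' => ?_⟩
  refine Nat.le_findGreatest ?_ hL'
  obtain ⟨u', p', Q', h2⟩ := hL'
  have h3 := (h2.cod hC).1
  nlinarith [Nat.zero_le (b * L'), Nat.zero_le ((a - 1) * L')]

/-- modulo `τ^M` almost all members are homogeneous -/
theorem homog_mod {a b d : ℕ} {F : MvPolynomial (Fin 2) (PowerSeries (Gm k))}
    (hF : ∀ e, coeff e F ≠ 0 → wt a b e = d) {c : ℕ → AA k} (hc : IsLim c (toAA F)) (M : ℕ) :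
    ∀ᶠ i in Uf, ∀ e, wt a b e ≠ d → (PowerSeries.X : PowerSeries k) ^ M ∣ mc (c i) e := by
  classical
  have h1 : ∀ m, ∀ᶠ i in Uf, ∀ e, wt a b e ≠ d → coeff e (PowerSeries.coeff m (c i)) = 0 := by
    intro m
    obtain ⟨⟨D, hD⟩, h2⟩ := hc m
    have h3 : ∀ᶠ i in Uf, ∀ e ∈ (Finset.Iic (Finsupp.single (0 : Fin 2) D +
        Finsupp.single (1 : Fin 2) D)), wt a b e ≠ d →
        coeff e (PowerSeries.coeff m (c i)) = 0 := by
      rw [Filter.eventually_all_finset]
      intro e _
      by_cases he : wt a b e = d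
      · exact Filter.Eventually.of_forall fun i h => absurd he h
      · have h4 := h2 e
        rw [← coeff_mc, mc_toAA] at h4
        have h5 : coeff e F = 0 := by
          by_contra h6
          exact he (hF e h6)
        rw [h5, map_zero] at h4
        exact (gm_eq_zero.1 h4.symm).mono fun i hi _ => hi
    filter_upwards [hD, h3] with i hi hi' e he
    by_cases h6 : e ∈ Finset.Iic (Finsupp.single (0 : Fin 2) D + Finsupp.single (1 : Fin 2) D)
    · exact hi' e h6 he
    · apply coeff_eq_zero_of_totalDegree_lt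
      refine lt_of_le_of_lt hi ?_
      have h7 : ∑ j ∈ e.support, e j = e 0 + e 1 := by
        have h8 := Finsupp.sum_fintype e (fun _ n => n) (fun _ => rfl)
        rw [Fin.sum_univ_two] at h8
        exact h8
      rw [h7]
      by_contra h8
      apply h6
      rw [Finset.mem_Iic]
      intro j
      fin_cases j
      · simp
        omega
      · simp
        omega
  have h2 : ∀ᶠ i in Uf, ∀ m ∈ Finset.range M, ∀ e, wt a b e ≠ d →
      coeff e (PowerSeries.coeff m (c i)) = 0 := by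
    rw [Filter.eventually_all_finset]
    intro m _
    exact h1 m
  filter_upwards [h2] with i hi e he
  rw [PowerSeries.X_pow_dvd_iff]
  intro m hm
  rw [coeff_mc]
  exact hi m (Finset.mem_range.2 hm) e he

/-- comparison of the coefficients in a chart -/
theorem mc_quot {a b d L M : ℕ} (ha : 0 < a) {u : PowerSeries k}
    {p : Polynomial (PowerSeries k)} (hp : a * p.natDegree < b) {f g : AA k}
    (hg : ev (tch (a * L) (b * L) u p) f = PowerSeries.X ^ (d * L) * g)
    (hf : ∀ e, wt a b e ≠ d → (PowerSeries.X : PowerSeries k) ^ M ∣ mc f e) :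
    (∀ e, d < wt a b e → (PowerSeries.X : PowerSeries k) ^ M ∣ mc g e) ∧
      ∀ e, wt a b e = d → (PowerSeries.X : PowerSeries k) ^ M ∣ mc g e - mc f e := by
  have h1 : ∀ e, d ≤ wt a b e →
      mc g e = PowerSeries.X ^ (L * (wt a b e - d)) * mc (ev (psi u p) f) e := by
    intro e he
    have h2 := congrArg (fun t => mc t e) hg
    simp only [mc_X_pow_mul, mc_tch] at h2
    have h3 : a * L * e 0 + b * L * e 1 = d * L + L * (wt a b e - d) := by
      have h4 : a * L * e 0 + b * L * e 1 = L * wt a b e := by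
        unfold wt
        ring
      rw [h4]
      obtain ⟨t, ht⟩ := Nat.exists_eq_add_of_le he
      rw [ht, Nat.add_sub_cancel_left]
      ring
    rw [h3, pow_add, mul_assoc] at h2
    exact (mul_left_cancel₀ (pow_ne_zero _ PowerSeries.X_ne_zero) h2).symm
  have h2 := fun e he => unip_ev (psi_unip0 (b := b) ha u p) (psi_unip1 u p hp) (D := d)
    (N := M) (f := f) (fun e he => hf e he.ne') e he
  constructor
  · intro e he
    rw [h1 e he.le]
    refine Dvd.dvd.mul_left ?_ _
    have h3 := dvd_add (h2 e he.le) (hf e he.ne')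
    rwa [sub_add_cancel] at h3
  · intro e he
    have h3 := h2 e he.ge
    rw [h1 e he.ge, he, Nat.sub_self, mul_zero, pow_zero, one_mul]
    exact h3

/-- the limit of the new functions -/
theorem exists_G {a b d : ℕ} (ha : 0 < a) (hb : 0 < b)
    {F : MvPolynomial (Fin 2) (PowerSeries (Gm k))}
    (hF : ∀ e, coeff e F ≠ 0 → wt a b e = d) {c c' : ℕ → AA k} (hc : IsLim c (toAA F))
    {L : ℕ → ℕ} {u : ℕ → PowerSeries k} {p : ℕ → Polynomial (PowerSeries k)}
    (hp : ∀ i, a * (p i).natDegree < b)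
    (hg : ∀ i, ev (tch (a * L i) (b * L i) (u i) (p i)) (c i) =
      PowerSeries.X ^ (d * L i) * c' i) :
    ∃ G : MvPolynomial (Fin 2) (PowerSeries (Gm k)), IsLim c' (toAA G) ∧
      ∀ e, d ≤ wt a b e → coeff e G = coeff e F := by
  have h1 : ∀ M, ∀ᶠ i in Uf, (∀ e, d < wt a b e → (PowerSeries.X : PowerSeries k) ^ M ∣
      mc (c' i) e) ∧ ∀ e, wt a b e = d → (PowerSeries.X : PowerSeries k) ^ M ∣
      mc (c' i) e - mc (c i) e := by
    intro M
    filter_upwards [homog_mod hF hc M] with i hi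
    exact mc_quot ha (hp i) (hg i) hi
  obtain ⟨f', hf'⟩ := isLim_of_bdd c' (fun m => ⟨d, by
    filter_upwards [h1 (m + 1)] with i hi
    refine Finset.sup_le fun e he => ?_
    have h2 : (e.sum fun _ n => n) = e 0 + e 1 := by
      rw [Finsupp.sum_fintype e (fun _ n => n) (fun _ => rfl), Fin.sum_univ_two]
    rw [h2]
    by_contra h3
    apply mem_support_iff.1 he
    rw [← coeff_mc]
    refine (PowerSeries.X_pow_dvd_iff.1 (hi.1 e ?_)) m (Nat.lt_succ_self m)
    unfold wt
    nlinarith [Nat.zero_le ((a - 1) * e 0), Nat.zero_le ((b - 1) * e 1)]⟩)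
  have h2 : ∀ e, d < wt a b e → mc f' e = 0 := by
    intro e he
    ext m
    have h3 := (isLimS_dvd (hf'.mc e) (m + 1)).2 ((h1 (m + 1)).mono fun i hi => hi.1 e he)
    rw [map_zero]
    exact (PowerSeries.X_pow_dvd_iff.1 h3) m (Nat.lt_succ_self m)
  obtain ⟨G, rfl⟩ := exists_toAA f' d (fun e he => h2 e (by
    unfold wt
    nlinarith [Nat.zero_le ((a - 1) * e 0), Nat.zero_le ((b - 1) * e 1)]))
  refine ⟨G, hf', fun e he => ?_⟩
  rcases he.lt_or_eq with h3 | h3
  · rw [← mc_toAA, h2 e h3]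
    symm
    by_contra h4
    exact h3.ne' (hF e h4)
  · ext m
    have h4 : IsLimS (fun i => mc (c' i) e - mc (c i) e) (mc (toAA G) e - mc (toAA F) e) := by
      intro m
      rw [map_sub, (hf'.mc e) m, (hc.mc e) m, ← gm_sub]
      simp only [map_sub]
    have h5 := (isLimS_dvd h4 (m + 1)).2 ((h1 (m + 1)).mono fun i hi => hi.2 e h3.symm)
    have h6 := (PowerSeries.X_pow_dvd_iff.1 h5) m (Nat.lt_succ_self m)
    rw [mc_toAA, mc_toAA, map_sub, sub_eq_zero] at h6
    exact h6

end

end M3
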