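import Pool.Agent.M3.BlkC1

/-!
PROJECT M3, block C: large charts, transfer of domination, algebra of charts.
-/

open MvPolynomial

namespace M3

universe u

/-! ### algebra -/

section
variable {k : Type u} [Field k]

theorem ev_toAA' (χ : Fin 2 → MvPolynomial (Fin 2) (PowerSeries k))
    (H : MvPolynomial (Fin 2) (PowerSeries k)) :
    ev (fun j => toAA (χ j)) (toAA H) = toAA (aeval χ H) := by
  rw [ev_toAA]
  have h : (eval₂Hom (PowerSeries.map (algebraMap k (MvPolynomial (Fin 2) k)))
      (fun j => toAA (χ j))) = (toAA (k := k)).comp (aeval χ).toRingHom := by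
    refine MvPolynomial.ringHom_ext (fun c => ?_) (fun j => ?_)
    · rw [coe_eval₂Hom, eval₂_C]
      change _ = toAA (aeval χ (C c))
      rw [aeval_C]
      change _ = toAA (C c)
      rw [toAA_C]
      rfl
    · rw [coe_eval₂Hom, eval₂_X]
      change _ = toAA (aeval χ (X j))
      rw [aeval_X]
  exact RingHom.congr_fun h H

theorem toKK_aeval (χ : Fin 2 → MvPolynomial (Fin 2) (PowerSeries k))
    (H : MvPolynomial (Fin 2) (PowerSeries k)) :
    toKK (aeval χ H) = aeval (fun j => toKK (χ j)) (toKK H) := by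
  have h : (toKK (k := k)).comp (aeval χ).toRingHom =
      (aeval (fun j => toKK (χ j)) : _ →ₐ[KK k] _).toRingHom.comp toKK := by
    refine MvPolynomial.ringHom_ext (fun c => ?_) (fun j => ?_)
    · change toKK (aeval χ (C c)) = aeval (fun j => toKK (χ j)) (toKK (C c))
      rw [aeval_C, MvPolynomial.algebraMap_eq]
      unfold toKK
      rw [map_C, aeval_C, MvPolynomial.algebraMap_eq]
    · change toKK (aeval χ (X j)) = aeval (fun j => toKK (χ j)) (toKK (X j))
      rw [aeval_X]
      unfold toKK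
      rw [map_X, aeval_X]
  exact RingHom.congr_fun h H

theorem toKK_inj' : Function.Injective (toKK (k := k)) :=
  MvPolynomial.map_injective _ (IsFractionRing.injective _ _)

theorem toKK_C (c : PowerSeries k) :
    toKK (C c) = C (algebraMap (PowerSeries k) (KK k) c) := by
  unfold toKK
  rw [map_C]

theorem toKK_X (j : Fin 2) : toKK (X j : MvPolynomial (Fin 2) (PowerSeries k)) = X j := by
  unfold toKK
  rw [map_X]

/-- denominators -/
theorem exists_den (x : KK k) : ∃ n : ℕ, ∀ m, n ≤ m → ∃ y : PowerSeries k,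
    algebraMap (PowerSeries k) (KK k) y =
      algebraMap (PowerSeries k) (KK k) (PowerSeries.X ^ m) * x := by
  obtain ⟨a, b, hb, rfl⟩ := IsFractionRing.div_surjective (A := PowerSeries k) x
  have hb0 : b ≠ 0 := nonZeroDivisors.ne_zero hb
  have h1 : PowerSeries.X ^ b.order.toNat * PowerSeries.divXPowOrder b = b :=
    PowerSeries.X_pow_order_mul_divXPowOrder
  obtain ⟨w, hw⟩ := PowerSeries.isUnit_divided_by_X_pow_order hb0
  refine ⟨b.order.toNat, fun m hm => ⟨PowerSeries.X ^ (m - b.order.toNat) *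
    ((w⁻¹ : (PowerSeries k)ˣ) : PowerSeries k) * a, ?_⟩⟩
  have hb1 : algebraMap (PowerSeries k) (KK k) b ≠ 0 := by
    intro h
    exact hb0 ((map_eq_zero_iff _ (IsFractionRing.injective (PowerSeries k) (KK k))).1 h)
  rw [← mul_div_assoc, eq_div_iff hb1, ← map_mul, ← map_mul]
  congr 1
  have h2 : (PowerSeries.X : PowerSeries k) ^ m =
      PowerSeries.X ^ (m - b.order.toNat) * PowerSeries.X ^ b.order.toNat := by
    rw [← pow_add, Nat.sub_add_cancel hm]
  have h3 : ((w⁻¹ : (PowerSeries k)ˣ) : PowerSeries k) * b = PowerSeries.X ^ b.order.toNat := by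
    conv_lhs => rw [← h1, ← hw]
    rw [mul_comm, mul_assoc, Units.mul_inv, mul_one]
  calc PowerSeries.X ^ (m - b.order.toNat) * ((w⁻¹ : (PowerSeries k)ˣ) : PowerSeries k) * a * b
      = PowerSeries.X ^ (m - b.order.toNat) *
        (((w⁻¹ : (PowerSeries k)ˣ) : PowerSeries k) * b) * a := by ring
    _ = _ := by rw [h3, h2]

theorem exists_denP (p : Polynomial (KK k)) : ∃ (s : ℕ) (q : Polynomial (PowerSeries k)),
    q.natDegree ≤ p.natDegree ∧ q.map (algebraMap (PowerSeries k) (KK k)) =
      Polynomial.C (algebraMap (PowerSeries k) (KK k) (PowerSeries.X ^ s)) * p := by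
  choose n hn using fun j => exists_den (p.coeff j)
  let s : ℕ := ∑ j ∈ Finset.range (p.natDegree + 1), n j
  have hs : ∀ j, j ∈ Finset.range (p.natDegree + 1) → n j ≤ s := fun j hj =>
    Finset.single_le_sum (fun _ _ => Nat.zero_le _) hj
  have h1 : ∀ j, ∃ y : PowerSeries k, (p.natDegree < j → y = 0) ∧
      algebraMap (PowerSeries k) (KK k) y =
      algebraMap (PowerSeries k) (KK k) (PowerSeries.X ^ s) * p.coeff j := by
    intro j
    rcases Nat.lt_or_ge p.natDegree j with h | h
    · refine ⟨0, fun _ => rfl, ?_⟩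
      rw [Polynomial.coeff_eq_zero_of_natDegree_lt h, mul_zero, map_zero]
    · obtain ⟨y, hy⟩ := hn j s (hs j (Finset.mem_range.2 (by omega)))
      exact ⟨y, fun h2 => absurd h2 (by omega), hy⟩
  choose y hy0 hy using h1
  refine ⟨s, ∑ j ∈ Finset.range (p.natDegree + 1), Polynomial.monomial j (y j), ?_, ?_⟩
  · refine Polynomial.natDegree_sum_le_of_forall_le _ _ fun j hj => ?_
    exact (Polynomial.natDegree_monomial_le _).trans (by
      have := Finset.mem_range.1 hj
      omega)
  · ext1 j
    rw [Polynomial.coeff_map, Polynomial.coeff_C_mul, ← hy j, Polynomial.finsetSum_coeff]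
    simp only [Polynomial.coeff_monomial]
    rw [Finset.sum_ite_eq']
    split_ifs with h
    · rfl
    · rw [hy0 j (by
        by_contra h2
        exact h (Finset.mem_range.2 (by omega)))]

/-- the correction of `p` -/
noncomputable def corr (A B N : ℕ) (u : PowerSeries k) (q : Polynomial (PowerSeries k)) :
    Polynomial (PowerSeries k) :=
  (∑ j ∈ Finset.range (N + 1), Polynomial.monomial j (PowerSeries.X ^ (B - A * j) * q.coeff j)).comp
    (Polynomial.X - Polynomial.C u)

theorem corr_natDegree (A B N : ℕ) (u : PowerSeries k) (q : Polynomial (PowerSeries k)) :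
    (corr A B N u q).natDegree ≤ N := by
  unfold corr
  refine Polynomial.natDegree_comp_le.trans ?_
  rw [Polynomial.natDegree_X_sub_C, mul_one]
  refine Polynomial.natDegree_sum_le_of_forall_le _ _ fun j hj => ?_
  exact (Polynomial.natDegree_monomial_le _).trans (by
    have := Finset.mem_range.1 hj
    omega)

theorem corr_eval {A B N : ℕ} (hAB : A * N ≤ B) (u : PowerSeries k)
    (q : Polynomial (PowerSeries k)) (hq : q.natDegree ≤ N) (t : AA k) :
    (corr A B N u q).eval₂ cA (cA u + PowerSeries.X ^ A * t) =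
      PowerSeries.X ^ B * q.eval₂ cA t := by
  unfold corr
  rw [Polynomial.eval₂_comp, Polynomial.eval₂_sub, Polynomial.eval₂_X, Polynomial.eval₂_C,
    add_sub_cancel_left, Polynomial.eval₂_finsetSum,
    Polynomial.eval₂_eq_sum_range' cA (Nat.lt_succ_of_le hq) t, Finset.mul_sum]
  refine Finset.sum_congr rfl fun j hj => ?_
  have h1 : A * j ≤ B :=
    (Nat.mul_le_mul_left A (Nat.lt_succ_iff.1 (Finset.mem_range.1 hj))).trans hAB
  have h2 : (PowerSeries.X : AA k) ^ B = PowerSeries.X ^ (B - A * j) * PowerSeries.X ^ (A * j) := by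
    rw [← pow_add, Nat.sub_add_cancel h1]
  rw [Polynomial.eval₂_monomial, map_mul, cA_X_pow, mul_pow, ← pow_mul, h2]
  ring

/-- composition of charts -/
theorem tch_comp {A B N A' B' : ℕ} (hAB : A * N ≤ B) (u v : PowerSeries k)
    (p q : Polynomial (PowerSeries k)) (hq : q.natDegree ≤ N) (j : Fin 2) :
    ev (tch A' B' v q) (tch A B u p j) =
      tch (A + A') (B + B') (u + PowerSeries.X ^ A * v) (p + corr A B N u q) j := by
  fin_cases j
  · change ev (tch A' B' v q) (cA u + PowerSeries.X ^ A * xA 0) =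
      cA (u + PowerSeries.X ^ A * v) + PowerSeries.X ^ (A + A') * xA 0
    rw [ev_add, ev_mul, ev_X_pow, ev_xA, ev_cA', map_add, map_mul, cA_X_pow]
    change cA u + PowerSeries.X ^ A * (cA v + PowerSeries.X ^ A' * xA 0) = _
    rw [pow_add]
    ring
  · change ev (tch A' B' v q) (p.eval₂ cA (cA u + PowerSeries.X ^ A * xA 0) +
      PowerSeries.X ^ B * xA 1) = (p + corr A B N u q).eval₂ cA
      (cA (u + PowerSeries.X ^ A * v) + PowerSeries.X ^ (A + A') * xA 0) +
      PowerSeries.X ^ (B + B') * xA 1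
    have h1 : cA (u + PowerSeries.X ^ A * v) + PowerSeries.X ^ (A + A') * xA 0 =
        cA u + PowerSeries.X ^ A * (cA v + PowerSeries.X ^ A' * xA 0) := by
      rw [map_add, map_mul, cA_X_pow, pow_add]
      ring
    rw [h1, Polynomial.eval₂_add, corr_eval hAB u q hq, ev_add, ev_mul, ev_X_pow, ev_xA,
      ev_eval₂', ev_add, ev_mul, ev_X_pow, ev_xA, ev_cA']
    change p.eval₂ cA (cA u + PowerSeries.X ^ A * (cA v + PowerSeries.X ^ A' * xA 0)) +
      PowerSeries.X ^ B * (q.eval₂ cA (cA v + PowerSeries.X ^ A' * xA 0) +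
        PowerSeries.X ^ B' * xA 1) = _
    rw [pow_add]
    ring

theorem ev_tch_comp {A B N A' B' : ℕ} (hAB : A * N ≤ B) (u v : PowerSeries k)
    (p q : Polynomial (PowerSeries k)) (hq : q.natDegree ≤ N) (f : AA k) :
    ev (tch A' B' v q) (ev (tch A B u p) f) =
      ev (tch (A + A') (B + B') (u + PowerSeries.X ^ A * v) (p + corr A B N u q)) f := by
  rw [ev_ev]
  congr 1
  funext j
  exact tch_comp hAB u v p q hq j

/-- rescaling of a chart -/
theorem ev_sca_tch (A B s : ℕ) (u : PowerSeries k) (p : Polynomial (PowerSeries k)) (f : AA k) :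
    ev (sca k 0 s) (ev (tch A B u p) f) = ev (tch A (B + s) u p) f := by
  rw [ev_ev]
  congr 1
  funext j
  fin_cases j
  · change ev (sca k 0 s) (cA u + PowerSeries.X ^ A * xA 0) = cA u + PowerSeries.X ^ A * xA 0
    rw [ev_add, ev_mul, ev_X_pow, ev_xA, ev_cA']
    change cA u + PowerSeries.X ^ A * (PowerSeries.X ^ 0 * xA 0) = _
    rw [pow_zero, one_mul]
  · change ev (sca k 0 s) (p.eval₂ cA (cA u + PowerSeries.X ^ A * xA 0) +
      PowerSeries.X ^ B * xA 1) = p.eval₂ cA (cA u + PowerSeries.X ^ A * xA 0) +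
      PowerSeries.X ^ (B + s) * xA 1
    rw [ev_add, ev_mul, ev_X_pow, ev_xA, ev_eval₂', ev_add, ev_mul, ev_X_pow, ev_xA, ev_cA']
    change p.eval₂ cA (cA u + PowerSeries.X ^ A * (PowerSeries.X ^ 0 * xA 0)) +
      PowerSeries.X ^ B * (PowerSeries.X ^ s * xA 1) = _
    rw [pow_zero, one_mul, pow_add]
    ring

end

end M3
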