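import Pool.Agent.M3.BlkC2

/-!
PROJECT M3, block C: the composition with the inverse of the translation.
-/

open MvPolynomial

namespace M3

universe u

section
variable {K : Type*} [Field K]

theorem star_field {T Ta Tb Sd z : K} (hT : T ≠ 0) (p : Polynomial K)
    {H G F : MvPolynomial (Fin 2) K}
    (hH : aeval ![X 0, C T * X 1] H = C Sd * G)
    (hG : G = aeval ![X 0 - C z, X 1 - Polynomial.aeval (X 0 : MvPolynomial (Fin 2) K) p] F) :
    aeval (![C z + C Ta * X 0, C T * p.eval₂ C (C z + C Ta * X 0) + C (Tb * T) * X 1] :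
      Fin 2 → MvPolynomial (Fin 2) K) H = C Sd * aeval ![C Ta * X 0, C Tb * X 1] F := by
  have h1 : H = C Sd * aeval (![X 0, C T⁻¹ * X 1] : Fin 2 → MvPolynomial (Fin 2) K) G := by
    have h2 := congrArg (aeval (![X 0, C T⁻¹ * X 1] : Fin 2 → MvPolynomial (Fin 2) K)) hH
    rw [map_mul, aeval_C, MvPolynomial.algebraMap_eq] at h2
    rw [← h2, ← AlgHom.comp_apply, comp_aeval]
    have h5 : (fun i => aeval (![X 0, C T⁻¹ * X 1] : Fin 2 → MvPolynomial (Fin 2) K)
        ((![X 0, C T * X 1] : Fin 2 → MvPolynomial (Fin 2) K) i)) = X := by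
      funext i
      fin_cases i
      · simp
      · simp only [Fin.mk_one, Matrix.cons_val_one, Matrix.cons_val_zero, map_mul, aeval_X,
          aeval_C, MvPolynomial.algebraMap_eq]
        rw [← mul_assoc, ← map_mul, mul_inv_cancel₀ hT, map_one, one_mul]
    rw [h5, aeval_X_left, AlgHom.id_apply]
  rw [h1, hG, map_mul, aeval_C, MvPolynomial.algebraMap_eq]
  congr 1
  rw [← AlgHom.comp_apply, comp_aeval, ← AlgHom.comp_apply, comp_aeval]
  congr 2
  funext i
  have e1 : ∀ (φ : MvPolynomial (Fin 2) K →ₐ[K] MvPolynomial (Fin 2) K)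
      (t : MvPolynomial (Fin 2) K), φ (Polynomial.aeval t p) = Polynomial.aeval (φ t) p :=
    fun φ t => (Polynomial.aeval_algHom_apply φ t p).symm
  have e2 : ∀ t : MvPolynomial (Fin 2) K, Polynomial.aeval t p = p.eval₂ C t := fun t => rfl
  fin_cases i
  · simp
  · simp only [Fin.mk_one, Matrix.cons_val_one, Matrix.cons_val_zero, map_sub, map_mul, aeval_X,
      aeval_C, MvPolynomial.algebraMap_eq, e1]
    simp only [e2]
    have h3 : (C T⁻¹ * C T : MvPolynomial (Fin 2) K) = 1 := by
      rw [← map_mul, inv_mul_cancel₀ hT, map_one]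
    linear_combination (p.eval₂ C (C z + C Ta * X 0) + C Tb * X 1) * h3

end

section
variable {k : Type u} [Field k]

theorem mc_smul_top {a b d : ℕ} {F : MvPolynomial (Fin 2) (PowerSeries k)}
    (hF : ∀ e, coeff e F ≠ 0 → wt a b e = d) (L : ℕ) :
    ev (sca k (a * L) (b * L)) (toAA F) = PowerSeries.X ^ (d * L) * toAA F := by
  refine mc_ext fun e => ?_
  have h1 := mc_scale (a * L) (b * L) (toAA F) e
  have h2 : mc (ev (sca k (a * L) (b * L)) (toAA F)) e =
      PowerSeries.X ^ (a * L * e 0 + b * L * e 1) * mc (toAA F) e := h1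
  rw [h2, mc_X_pow_mul, mc_toAA]
  by_cases h3 : coeff e F = 0
  · rw [h3, mul_zero, mul_zero]
  · have h4 := hF e h3
    have h5 : a * L * e 0 + b * L * e 1 = d * L := by
      rw [← h4]
      unfold wt
      ring
    rw [h5]

theorem sca_toAA (A B : ℕ) : sca k A B = fun j => toAA ((![C (PowerSeries.X ^ A) * X 0,
    C (PowerSeries.X ^ B) * X 1] : Fin 2 → MvPolynomial (Fin 2) (PowerSeries k)) j) := by
  funext j
  fin_cases j
  · change PowerSeries.X ^ A * xA 0 = toAA (C (PowerSeries.X ^ A) * X 0)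
    rw [map_mul, toAA_C, toAA_X, cA_X_pow]
  · change PowerSeries.X ^ B * xA 1 = toAA (C (PowerSeries.X ^ B) * X 1)
    rw [map_mul, toAA_C, toAA_X, cA_X_pow]

theorem toAA_eval₂ (q : Polynomial (PowerSeries k)) (t : MvPolynomial (Fin 2) (PowerSeries k)) :
    toAA (q.eval₂ C t) = q.eval₂ cA (toAA t) := by
  rw [Polynomial.hom_eval₂]
  congr 1
  ext1 c
  rw [RingHom.comp_apply, toAA_C]

theorem toKK_eval₂ (q : Polynomial (PowerSeries k)) (t : MvPolynomial (Fin 2) (PowerSeries k)) :
    toKK (q.eval₂ C t) = (q.map (algebraMap (PowerSeries k) (KK k))).eval₂ C (toKK t) := by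
  rw [Polynomial.hom_eval₂, Polynomial.eval₂_map]
  congr 1
  ext1 c
  rw [RingHom.comp_apply, RingHom.comp_apply, toKK_C]

theorem tch_toAA (A B : ℕ) (u : PowerSeries k) (q : Polynomial (PowerSeries k)) :
    tch A B u q = fun j => toAA ((![C u + C (PowerSeries.X ^ A) * X 0,
      q.eval₂ C (C u + C (PowerSeries.X ^ A) * X 0) + C (PowerSeries.X ^ B) * X 1] :
        Fin 2 → MvPolynomial (Fin 2) (PowerSeries k)) j) := by
  have h1 : toAA (C u + C (PowerSeries.X ^ A) * X 0 : MvPolynomial (Fin 2) (PowerSeries k)) =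
      cA u + PowerSeries.X ^ A * xA 0 := by
    rw [map_add, map_mul, toAA_C, toAA_C, toAA_X, cA_X_pow]
  funext j
  fin_cases j
  · change cA u + PowerSeries.X ^ A * xA 0 = toAA (C u + C (PowerSeries.X ^ A) * X 0)
    rw [h1]
  · change q.eval₂ cA (cA u + PowerSeries.X ^ A * xA 0) + PowerSeries.X ^ B * xA 1 =
      toAA (q.eval₂ C (C u + C (PowerSeries.X ^ A) * X 0) + C (PowerSeries.X ^ B) * X 1)
    rw [map_add, map_mul, toAA_C, toAA_X, cA_X_pow, toAA_eval₂, h1]

theorem star_alg {a b d s : ℕ} {F G H : MvPolynomial (Fin 2) (PowerSeries k)}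
    (hF : ∀ e, coeff e F ≠ 0 → wt a b e = d) {z : PowerSeries k}
    {q : Polynomial (PowerSeries k)} {p : Polynomial (KK k)}
    (hq : q.map (algebraMap (PowerSeries k) (KK k)) =
      Polynomial.C (algebraMap (PowerSeries k) (KK k) (PowerSeries.X ^ s)) * p)
    (hH : ev (sca k 0 s) (toAA H) = PowerSeries.X ^ (s * d) * toAA G)
    (hG : toKK G = aeval ![X 0 - C (algebraMap (PowerSeries k) (KK k) z),
      X 1 - Polynomial.aeval (X 0 : MvPolynomial (Fin 2) (KK k)) p] (toKK F)) :
    ev (tch a (b + s) z q) (toAA H) = PowerSeries.X ^ (s * d + d) * toAA F := by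
  have hT : algebraMap (PowerSeries k) (KK k) (PowerSeries.X ^ s) ≠ 0 := by
    intro h
    exact pow_ne_zero s PowerSeries.X_ne_zero
      ((map_eq_zero_iff _ (IsFractionRing.injective (PowerSeries k) (KK k))).1 h)
  -- step 1
  have h1 : aeval (![C (PowerSeries.X ^ 0) * X 0, C (PowerSeries.X ^ s) * X 1] :
      Fin 2 → MvPolynomial (Fin 2) (PowerSeries k)) H = C (PowerSeries.X ^ (s * d)) * G := by
    apply toAA_inj
    rw [← ev_toAA', ← sca_toAA, hH, map_mul, toAA_C, cA_X_pow]
  have h2 := congrArg (toKK (k := k)) h1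
  have h3 : (fun j => toKK ((![C (PowerSeries.X ^ 0) * X 0, C (PowerSeries.X ^ s) * X 1] :
      Fin 2 → MvPolynomial (Fin 2) (PowerSeries k)) j)) =
      ![X 0, C (algebraMap (PowerSeries k) (KK k) (PowerSeries.X ^ s)) * X 1] := by
    funext j
    fin_cases j
    · change toKK (C (PowerSeries.X ^ 0) * X 0) = X 0
      rw [map_mul, toKK_C, toKK_X, pow_zero, map_one, map_one, one_mul]
    · change toKK (C (PowerSeries.X ^ s) * X 1) =
        C (algebraMap (PowerSeries k) (KK k) (PowerSeries.X ^ s)) * X 1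
      rw [map_mul, toKK_C, toKK_X]
  rw [toKK_aeval, map_mul, toKK_C, h3] at h2
  have h4 := star_field hT (Ta := algebraMap (PowerSeries k) (KK k) (PowerSeries.X ^ a))
    (Tb := algebraMap (PowerSeries k) (KK k) (PowerSeries.X ^ b)) p h2 hG
  have h5 : (fun j => toKK ((![C z + C (PowerSeries.X ^ a) * X 0,
      q.eval₂ C (C z + C (PowerSeries.X ^ a) * X 0) + C (PowerSeries.X ^ (b + s)) * X 1] :
        Fin 2 → MvPolynomial (Fin 2) (PowerSeries k)) j)) =
      ![C (algebraMap (PowerSeries k) (KK k) z) +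
        C (algebraMap (PowerSeries k) (KK k) (PowerSeries.X ^ a)) * X 0,
        C (algebraMap (PowerSeries k) (KK k) (PowerSeries.X ^ s)) *
        p.eval₂ C (C (algebraMap (PowerSeries k) (KK k) z) +
        C (algebraMap (PowerSeries k) (KK k) (PowerSeries.X ^ a)) * X 0) +
        C (algebraMap (PowerSeries k) (KK k) (PowerSeries.X ^ b) *
          algebraMap (PowerSeries k) (KK k) (PowerSeries.X ^ s)) * X 1] := by
    have e0 : toKK (C z + C (PowerSeries.X ^ a) * X 0 :
        MvPolynomial (Fin 2) (PowerSeries k)) = C (algebraMap (PowerSeries k) (KK k) z) +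
          C (algebraMap (PowerSeries k) (KK k) (PowerSeries.X ^ a)) * X 0 := by
      rw [map_add, map_mul, toKK_C, toKK_C, toKK_X]
    funext j
    fin_cases j
    · exact e0
    · change toKK (q.eval₂ C (C z + C (PowerSeries.X ^ a) * X 0) +
        C (PowerSeries.X ^ (b + s)) * X 1) = _
      rw [map_add, map_mul, toKK_C, toKK_X, toKK_eval₂, e0, hq, Polynomial.eval₂_mul,
        Polynomial.eval₂_C, pow_add, map_mul]
      rfl
  have h6 : (fun j => toKK ((![C (PowerSeries.X ^ (a * 1)) * X 0,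
      C (PowerSeries.X ^ (b * 1)) * X 1] :
        Fin 2 → MvPolynomial (Fin 2) (PowerSeries k)) j)) =
      ![C (algebraMap (PowerSeries k) (KK k) (PowerSeries.X ^ a)) * X 0,
        C (algebraMap (PowerSeries k) (KK k) (PowerSeries.X ^ b)) * X 1] := by
    funext j
    fin_cases j
    · change toKK (C (PowerSeries.X ^ (a * 1)) * X 0) =
        C (algebraMap (PowerSeries k) (KK k) (PowerSeries.X ^ a)) * X 0
      rw [map_mul, toKK_C, toKK_X, mul_one]
    · change toKK (C (PowerSeries.X ^ (b * 1)) * X 1) =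
        C (algebraMap (PowerSeries k) (KK k) (PowerSeries.X ^ b)) * X 1
      rw [map_mul, toKK_C, toKK_X, mul_one]
  have h7 : aeval (![C z + C (PowerSeries.X ^ a) * X 0,
      q.eval₂ C (C z + C (PowerSeries.X ^ a) * X 0) + C (PowerSeries.X ^ (b + s)) * X 1] :
        Fin 2 → MvPolynomial (Fin 2) (PowerSeries k)) H = C (PowerSeries.X ^ (s * d)) *
      aeval (![C (PowerSeries.X ^ (a * 1)) * X 0, C (PowerSeries.X ^ (b * 1)) * X 1] :
        Fin 2 → MvPolynomial (Fin 2) (PowerSeries k)) F := by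
    apply toKK_inj'
    rw [toKK_aeval, map_mul, toKK_C, toKK_aeval, h5, h6]
    exact h4
  have h8 := congrArg (toAA (k := k)) h7
  rw [← ev_toAA', ← tch_toAA, map_mul, toAA_C, cA_X_pow, ← ev_toAA', ← sca_toAA,
    mc_smul_top hF 1, mul_one] at h8
  rw [h8, pow_add]
  ring

end

end M3
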