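import Pool.Agent.M3.BlkC3

/-!
PROJECT M3, block C: the maximality of the charts.
-/

open MvPolynomial

namespace M3

universe u

section
variable {k : Type u} [Field k] {r : ℕ} {J : Type}

theorem poly_lim {a b d : ℕ} (ha : 0 < a) (hb : 0 < b) (c' : ℕ → AA k)
    (h1 : ∀ M, ∀ᶠ i in Uf, ∀ e, d < wt a b e → (PowerSeries.X : PowerSeries k) ^ M ∣
      mc (c' i) e) :
    ∃ G : MvPolynomial (Fin 2) (PowerSeries (Gm k)), IsLim c' (toAA G) := by
  obtain ⟨f', hf'⟩ := isLim_of_bdd c' (fun m => ⟨d, by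
    filter_upwards [h1 (m + 1)] with i hi
    refine Finset.sup_le fun e he => ?_
    have h2 : (e.sum fun _ n => n) = e 0 + e 1 := by
      rw [Finsupp.sum_fintype e (fun _ n => n) (fun _ => rfl), Fin.sum_univ_two]
    rw [h2]
    by_contra h3
    apply mem_support_iff.1 he
    rw [← coeff_mc]
    refine (PowerSeries.X_pow_dvd_iff.1 (hi e ?_)) m (Nat.lt_succ_self m)
    unfold wt
    nlinarith [Nat.zero_le ((a - 1) * e 0), Nat.zero_le ((b - 1) * e 1)]⟩)
  have h2 : ∀ e, d < wt a b e → mc f' e = 0 := by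
    intro e he
    ext m
    have h3 := (isLimS_dvd (hf'.mc e) (m + 1)).2 ((h1 (m + 1)).mono fun i hi => hi e he)
    rw [map_zero]
    exact (PowerSeries.X_pow_dvd_iff.1 h3) m (Nat.lt_succ_self m)
  obtain ⟨G, rfl⟩ := exists_toAA f' d (fun e he => h2 e (by
    unfold wt
    nlinarith [Nat.zero_le ((a - 1) * e 0), Nat.zero_le ((b - 1) * e 1)]))
  exact ⟨G, hf'⟩

theorem exists_H {a b d L : ℕ} (s : ℕ) (ha : 0 < a) (hb : 0 < b) {u : PowerSeries k}
    {p : Polynomial (PowerSeries k)} (hp : a * p.natDegree < b) {f g : AA k}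
    (hg : ev (tch (a * L) (b * L) u p) f = PowerSeries.X ^ (d * L) * g) :
    ∃ Hh : AA k, s ≤ L →
      PowerSeries.X ^ (s * d) * ev (tch (a * L) (b * L - s) u p) f =
        PowerSeries.X ^ (d * L) * Hh ∧
      ev (sca k 0 s) Hh = PowerSeries.X ^ (s * d) * g ∧
      ∀ M, (∀ e, wt a b e ≠ d → (PowerSeries.X : PowerSeries k) ^ M ∣ mc f e) →
        ∀ e, d < wt a b e → (PowerSeries.X : PowerSeries k) ^ M ∣ mc Hh e := by
  by_cases hs : s ≤ L
  swap
  · exact ⟨0, fun h => absurd h hs⟩
  have hbL : s ≤ b * L := hs.trans (Nat.le_mul_of_pos_left L hb)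
  have hE : ∀ e : Fin 2 →₀ ℕ, a * L * e 0 + (b * L - s) * e 1 + s * e 1 =
      a * L * e 0 + b * L * e 1 := by
    intro e
    rw [add_assoc, ← add_mul, Nat.sub_add_cancel hbL]
  have hE' : ∀ e : Fin 2 →₀ ℕ, a * L * e 0 + b * L * e 1 = L * wt a b e := by
    intro e
    unfold wt
    ring
  have he1 : ∀ e : Fin 2 →₀ ℕ, e 1 ≤ wt a b e := by
    intro e
    unfold wt
    nlinarith [Nat.zero_le ((b - 1) * e 1), Nat.zero_le (a * e 0)]
  have hmc : ∀ e, PowerSeries.X ^ (a * L * e 0 + b * L * e 1) * mc (ev (psi u p) f) e =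
      PowerSeries.X ^ (d * L) * mc g e := by
    intro e
    rw [← mc_tch, hg, mc_X_pow_mul]
  have hbig : ∀ e, d < wt a b e → d * L ≤ s * d + (a * L * e 0 + (b * L - s) * e 1) := by
    intro e he
    have h1 := hE e
    have h2 := hE' e
    have h3 := he1 e
    have h4 : s * e 1 + d * L ≤ s * d + L * wt a b e := by
      obtain ⟨t, ht⟩ := Nat.exists_eq_add_of_le hs
      have h5 : d * t ≤ t * wt a b e := by nlinarith
      have h6 : s * e 1 ≤ s * wt a b e := Nat.mul_le_mul_left s h3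
      rw [ht]
      nlinarith
    omega
  have hdvd : (PowerSeries.X : AA k) ^ (d * L) ∣
      PowerSeries.X ^ (s * d) * ev (tch (a * L) (b * L - s) u p) f := by
    rw [X_pow_dvd_iff_mc]
    intro e
    rw [mc_X_pow_mul, mc_tch, ← mul_assoc, ← pow_add]
    rcases Nat.lt_or_ge d (wt a b e) with h | h
    · exact Dvd.dvd.mul_right (pow_dvd_pow _ (hbig e h)) _
    · have h1 : s * d + (a * L * e 0 + (b * L - s) * e 1) =
          s * (d - e 1) + (a * L * e 0 + b * L * e 1) := by
        have h2 := hE e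
        have h3 : s * d = s * (d - e 1) + s * e 1 := by
          rw [← mul_add, Nat.sub_add_cancel ((he1 e).trans h)]
        omega
      rw [h1, pow_add, mul_assoc, hmc]
      exact Dvd.dvd.mul_left (dvd_mul_right _ _) _
  obtain ⟨Hh, hHh⟩ := hdvd
  refine ⟨Hh, fun _ => ⟨hHh, ?_, ?_⟩⟩
  · have h1 := congrArg (ev (sca k 0 s)) hHh
    rw [ev_mul, ev_mul, ev_X_pow, ev_X_pow, ev_sca_tch, Nat.sub_add_cancel hbL, hg,
      mul_left_comm] at h1
    exact (mul_left_cancel₀ (pow_ne_zero _ PowerSeries.X_ne_zero) h1).symm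
  · intro M hf e he
    have h1 := congrArg (fun t => mc t e) hHh
    simp only [mc_X_pow_mul, mc_tch] at h1
    rw [← mul_assoc, ← pow_add] at h1
    obtain ⟨t, ht⟩ := Nat.exists_eq_add_of_le (hbig e he)
    rw [ht, pow_add, mul_assoc] at h1
    rw [← mul_left_cancel₀ (pow_ne_zero _ PowerSeries.X_ne_zero) h1]
    refine Dvd.dvd.mul_left ?_ _
    have h2 := unip_ev (psi_unip0 (b := b) ha u p) (psi_unip1 u p hp) (D := d)
      (N := M) (f := f) (fun e he => hf e he.ne') e he.le
    have h3 := dvd_add h2 (hf e he.ne')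
    rwa [sub_add_cancel] at h3

/-! ### limits of charts -/

theorem isLim_sum {ι : Type*} (S : Finset ι) {z : ι → ℕ → AA k} {w : ι → AA (Gm k)}
    (h : ∀ j ∈ S, IsLim (z j) (w j)) : IsLim (fun i => ∑ j ∈ S, z j i) (∑ j ∈ S, w j) := by
  classical
  induction S using Finset.induction_on with
  | empty =>
    simp only [Finset.sum_empty]
    have h1 : IsLim (fun _ => (cA 0 : AA k)) (cA 0) := IsLim.cA (z := fun _ => 0) (w := 0)
      (fun m => by simp only [map_zero]; exact gm_zero.symm)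
    rw [map_zero, map_zero] at h1
    exact h1
  | insert j S hj ih =>
    simp only [Finset.sum_insert hj]
    exact (h j (Finset.mem_insert_self _ _)).add
      (ih fun j' hj' => h j' (Finset.mem_insert_of_mem hj'))

theorem isLim_pow {z : ℕ → AA k} {w : AA (Gm k)} (h : IsLim z w) (n : ℕ) :
    IsLim (fun i => z i ^ n) (w ^ n) := by
  induction n with
  | zero =>
    have h1 := IsLim.X_pow (k := k) 0
    simp only [pow_zero] at h1 ⊢
    exact h1
  | succ n ih =>
    simp only [pow_succ]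
    exact ih.mul h

theorem exists_seqP (q : Polynomial (PowerSeries (Gm k))) :
    ∃ q' : ℕ → Polynomial (PowerSeries k), (∀ i, (q' i).natDegree ≤ q.natDegree) ∧
      ∀ (t : ℕ → AA k) (t' : AA (Gm k)), IsLim t t' →
        IsLim (fun i => (q' i).eval₂ cA (t i)) (q.eval₂ cA t') := by
  choose y hy using fun j => exists_seqS (q.coeff j)
  refine ⟨fun i => ∑ j ∈ Finset.range (q.natDegree + 1), Polynomial.monomial j (y j i),
    fun i => ?_, fun t t' ht => ?_⟩
  · refine Polynomial.natDegree_sum_le_of_forall_le _ _ fun j hj => ?_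
    exact (Polynomial.natDegree_monomial_le _).trans (by
      have := Finset.mem_range.1 hj
      omega)
  · rw [Polynomial.eval₂_eq_sum_range]
    simp only [Polynomial.eval₂_finsetSum, Polynomial.eval₂_monomial]
    exact isLim_sum _ fun j _ => (IsLim.cA (hy j)).mul (isLim_pow ht j)

theorem isLim_tch (A B : ℕ) {v : ℕ → PowerSeries k} {z : PowerSeries (Gm k)} (hv : IsLimS v z)
    {q' : ℕ → Polynomial (PowerSeries k)} {q : Polynomial (PowerSeries (Gm k))}
    (hq : ∀ (t : ℕ → AA k) (t' : AA (Gm k)), IsLim t t' →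
      IsLim (fun i => (q' i).eval₂ cA (t i)) (q.eval₂ cA t')) (j : Fin 2) :
    IsLim (fun i => tch A B (v i) (q' i) j) (tch A B z q j) := by
  have h1 : IsLim (fun i => cA (v i) + PowerSeries.X ^ A * xA 0)
      (cA z + PowerSeries.X ^ A * xA 0) := (IsLim.cA hv).add ((IsLim.X_pow A).mul (IsLim.xA 0))
  fin_cases j
  · exact h1
  · exact (hq _ _ h1).add ((IsLim.X_pow B).mul (IsLim.xA 1))

theorem isLim_sca (A B : ℕ) (j : Fin 2) : IsLim (fun _ => sca k A B j) (sca (Gm k) A B j) := by
  fin_cases j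
  · exact (IsLim.X_pow A).mul (IsLim.xA 0)
  · exact (IsLim.X_pow B).mul (IsLim.xA 1)

theorem isLim_sub {c c' : ℕ → AA k} {f f' : AA (Gm k)} (h : IsLim c f) (h' : IsLim c' f') :
    IsLim (fun i => c i - c' i) (f - f') := by
  have h1 : IsLim (fun _ => (cA (-1) : AA k)) (cA (-1)) :=
    IsLim.cA (z := fun _ => -1) (w := -1) (fun m => by
      rw [map_neg]
      simp only [map_neg, PowerSeries.coeff_one]
      rw [gm_neg]
      congr 1
      split_ifs
      · exact gm_one.symm
      · exact gm_zero.symm)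
  have h2 := h.add (h1.mul h')
  simp only [map_neg, map_one, neg_one_mul, ← sub_eq_add_neg] at h2
  exact h2

end

end M3
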