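import Pool.Agent.M3.BlkC4

/-!
PROJECT M3, block C: larger charts for translated states, large charts, transfer of domination.
-/

open MvPolynomial

namespace M3

universe u

section
variable {k : Type u} [Field k] {r : ℕ} {J : Type}

theorem tch_sca (A B s : ℕ) (u : PowerSeries k) (p : Polynomial (PowerSeries k)) (j : Fin 2) :
    ev (sca k 0 s) (tch A B u p j) = tch A (B + s) u p j := by
  have h := ev_sca_tch A B s u p (xA j)
  rwa [ev_xA, ev_xA] at h

/-- lifting of arcs -/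
theorem arc_lift {a b s : ℕ} {P' : ℕ → Fin 2 → PowerSeries (Om k)}
    {z : Fin 2 → PowerSeries (Gm k)} (hz : IsLimP P' (ratP z))
    {v : ℕ → PowerSeries k} (hv : IsLimS v (z 0))
    {q' : ℕ → Polynomial (PowerSeries k)} {q : Polynomial (PowerSeries (Gm k))}
    (hq : ∀ (t : ℕ → AA k) (t' : AA (Gm k)), IsLim t t' →
      IsLim (fun i => (q' i).eval₂ cA (t i)) (q.eval₂ cA t'))
    (h0 : q.eval (z 0) = PowerSeries.X ^ s * z 1) :
    ∀ᶠ i in Uf, ∃ Q : Fin 2 → PowerSeries (Om k), ∀ j,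
      ev Q (tch a (b + s) (v i) (q' i) j) = ev (P' i) (sca k 0 s j) := by
  have h1 : ∀ᶠ i in Uf, (PowerSeries.X : PowerSeries (Om k)) ^ a ∣
      ev (P' i) (xA 0 - cA (v i)) := by
    rw [← lim_ev_dvd (isLim_sub (IsLim.xA 0) (IsLim.cA hv)) hz]
    have h2 : ev (ratP z) (xA 0 - cA (z 0)) = 0 := by
      rw [ev_sub, ev_xA, ev_cA]
      unfold ratP
      rw [sub_self]
    rw [h2]
    exact dvd_zero _
  have h3 : ∀ᶠ i in Uf, (PowerSeries.X : PowerSeries (Om k)) ^ (b + s) ∣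
      ev (P' i) (PowerSeries.X ^ s * xA 1 - (q' i).eval₂ cA (xA 0)) := by
    rw [← lim_ev_dvd (isLim_sub ((IsLim.X_pow s).mul (IsLim.xA 1)) (hq _ _ (IsLim.xA 0))) hz]
    have h2 : ev (ratP z) (PowerSeries.X ^ s * xA 1 - q.eval₂ cA (xA 0)) = 0 := by
      rw [ev_sub, ev_mul, ev_X_pow, ev_xA, ev_eval₂, ev_xA]
      have h4 := congrArg (PowerSeries.map (algebraMap (Gm k) (Gm (Om k)))) h0
      rw [← Polynomial.eval₂_id, Polynomial.hom_eval₂, RingHom.comp_id, map_mul, map_pow,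
        PowerSeries.map_X] at h4
      unfold ratP
      rw [h4, sub_self]
    rw [h2]
    exact dvd_zero _
  filter_upwards [h1, h3] with i hi hi'
  obtain ⟨w0, hw0⟩ := hi
  obtain ⟨w1, hw1⟩ := hi'
  rw [ev_sub, ev_xA, ev_cA, sub_eq_iff_eq_add] at hw0
  rw [ev_sub, ev_mul, ev_X_pow, ev_xA, ev_eval₂, ev_xA, sub_eq_iff_eq_add] at hw1
  refine ⟨![w0, w1], fun j => ?_⟩
  have h5 : ev ![w0, w1] (cA (v i) + PowerSeries.X ^ a * xA 0) = P' i 0 := by
    rw [ev_add, ev_mul, ev_X_pow, ev_xA, ev_cA, hw0, add_comm]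
    rfl
  fin_cases j
  · change ev ![w0, w1] (cA (v i) + PowerSeries.X ^ a * xA 0) =
      ev (P' i) (PowerSeries.X ^ 0 * xA 0)
    rw [h5, pow_zero, one_mul, ev_xA]
  · change ev ![w0, w1] ((q' i).eval₂ cA (cA (v i) + PowerSeries.X ^ a * xA 0) +
      PowerSeries.X ^ (b + s) * xA 1) = ev (P' i) (PowerSeries.X ^ s * xA 1)
    rw [ev_add, ev_mul, ev_X_pow, ev_xA, ev_eval₂, h5, ev_mul, ev_X_pow, ev_xA, hw1, add_comm]
    rfl

theorem star [Finite J] {a b : ℕ} (ha : 0 < a) (hb : 0 < b) {grp : J → Fin r} {d : Fin r → ℕ}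
    {F G : J → MvPolynomial (Fin 2) (PowerSeries (Gm k))}
    (hF : ∀ h e, coeff e (F h) ≠ 0 → wt a b e = d (grp h))
    {c c' : ℕ → J → AA k} (hc : ∀ h, IsLim (fun i => c i h) (toAA (F h)))
    (hc' : ∀ h, IsLim (fun i => c' i h) (toAA (G h)))
    {P P' : ℕ → Fin 2 → PowerSeries (Om k)} {L : ℕ → ℕ} {u : ℕ → PowerSeries k}
    {p : ℕ → Polynomial (PowerSeries k)}
    (hT : ∀ i, TC a b grp d (c i) (P i) (L i) (u i) (p i) (P' i))
    (hg : ∀ i h, ev (tch (a * L i) (b * L i) (u i) (p i)) (c i h) =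
      PowerSeries.X ^ (d (grp h) * L i) * c' i h)
    (hL : ∀ ℓ, ∀ᶠ i in Uf, ℓ ≤ L i) {z : Fin 2 → PowerSeries (Gm k)}
    (hz : IsLimP P' (ratP z)) (htr : Tr a b F G z) :
    ∀ᶠ i in Uf, HasT a b grp d (c i) (P i) (L i + 1) := by
  obtain ⟨p₀, hdeg, hev, hFG⟩ := htr
  obtain ⟨s, q, hq1, hq2⟩ := exists_denP p₀
  obtain ⟨v, hv⟩ := exists_seqS (z 0)
  obtain ⟨q', hq'1, hq'2⟩ := exists_seqP q
  have hqz : q.eval (z 0) = PowerSeries.X ^ s * z 1 := by
    apply IsFractionRing.injective (PowerSeries (Gm k)) (KK (Gm k))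
    rw [map_mul, ← hev]
    have h := congrArg (Polynomial.eval (algebraMap (PowerSeries (Gm k)) (KK (Gm k)) (z 0))) hq2
    rw [Polynomial.eval_map, Polynomial.eval₂_at_apply, Polynomial.eval_mul,
      Polynomial.eval_C] at h
    exact h
  choose Hh hHh using fun i h => exists_H s ha hb (hT i).1 (hg i h)
  -- the limits
  have hlim : ∀ h, ∃ H, IsLim (fun i => Hh i h) (toAA H) := by
    intro h
    refine poly_lim (d := d (grp h)) ha hb _ fun M => ?_
    filter_upwards [hL s, homog_mod (hF h) (hc h) M] with i hi hi'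
    exact (hHh i h hi).2.2 M hi'
  choose H hH using hlim
  have hrel : ∀ h, ev (sca (Gm k) 0 s) (toAA (H h)) =
      PowerSeries.X ^ (s * d (grp h)) * toAA (G h) := by
    intro h
    have h1 : IsLim (fun i => ev (sca k 0 s) (Hh i h)) (ev (sca (Gm k) 0 s) (toAA (H h))) :=
      IsLim.ev (fun j => isLim_sca 0 s j) (hH h)
    have h2 : IsLim (fun i => PowerSeries.X ^ (s * d (grp h)) * c' i h)
        (PowerSeries.X ^ (s * d (grp h)) * toAA (G h)) := (IsLim.X_pow _).mul (hc' h)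
    refine h1.unique (h2.congr fun m => ?_)
    filter_upwards [hL s] with i hi
    rw [(hHh i h hi).2.1]
  have hth : ∀ h, ∀ᶠ i in Uf, (PowerSeries.X : AA k) ^ (s * d (grp h) + d (grp h)) ∣
      ev (tch a (b + s) (v i) (q' i)) (Hh i h) := by
    intro h
    have h1 : IsLim (fun i => ev (tch a (b + s) (v i) (q' i)) (Hh i h))
        (ev (tch a (b + s) (z 0) q) (toAA (H h))) :=
      IsLim.ev (fun j => isLim_tch a (b + s) hv hq'2 j) (hH h)
    rw [star_alg (hF h) hq2 (hrel h) (hFG h)] at h1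
    exact (isLim_dvd h1 _).1 (dvd_mul_right _ _)
  have hth' := Filter.eventually_all.2 hth
  filter_upwards [hL s, hth', arc_lift (a := a) (b := b) hz hv hq'2 hqz] with i hi hi' hQ
  obtain ⟨Q, hQ⟩ := hQ
  have hqN : (q' i).natDegree ≤ p₀.natDegree := (hq'1 i).trans hq1
  have hAB : a * L i * p₀.natDegree ≤ b * L i - s := by
    apply Nat.le_sub_of_add_le
    nlinarith [Nat.mul_le_mul_right (L i) (Nat.succ_le_of_lt hdeg)]
  have hbL : s ≤ b * L i := hi.trans (Nat.le_mul_of_pos_left _ hb)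
  have eA : a * (L i + 1) = a * L i + a := by ring
  have eB : b * (L i + 1) = b * L i - s + (b + s) := by
    rw [mul_add, mul_one]
    omega
  refine ⟨u i + PowerSeries.X ^ (a * L i) * v i,
    p i + corr (a * L i) (b * L i - s) p₀.natDegree (u i) (q' i), Q, ?_, ?_, fun h => ?_⟩
  · have h1 : (p i + corr (a * L i) (b * L i - s) p₀.natDegree (u i) (q' i)).natDegree ≤
        max (p i).natDegree p₀.natDegree :=
      (Polynomial.natDegree_add_le _ _).trans
        (max_le_max (le_refl _) (corr_natDegree _ _ _ _ _))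
    have h2 := (hT i).1
    rcases max_choice (p i).natDegree p₀.natDegree with h3 | h3
    · rw [h3] at h1
      exact lt_of_le_of_lt (Nat.mul_le_mul_left a h1) h2
    · rw [h3] at h1
      exact lt_of_le_of_lt (Nat.mul_le_mul_left a h1) hdeg
  · rw [(hT i).2.1]
    funext j
    rw [eA, eB, ← tch_comp hAB _ _ _ _ hqN, ev_ev]
    have h4 : (fun j => ev Q (tch a (b + s) (v i) (q' i) j)) = fun j => ev (P' i) (sca k 0 s j) :=
      funext hQ
    rw [h4, ← ev_ev, tch_sca, Nat.sub_add_cancel hbL]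
  · rw [eA, eB, ← ev_tch_comp hAB _ _ _ _ hqN]
    have h5 := congrArg (ev (tch a (b + s) (v i) (q' i))) (hHh i h hi).1
    rw [ev_mul, ev_mul, ev_X_pow, ev_X_pow] at h5
    obtain ⟨w, hw⟩ := hi' h
    rw [hw, ← mul_assoc, ← pow_add] at h5
    have h6 : d (grp h) * L i + (s * d (grp h) + d (grp h)) =
        s * d (grp h) + d (grp h) * (L i + 1) := by ring
    rw [h6, pow_add, mul_assoc] at h5
    exact ⟨w, mul_left_cancel₀ (pow_ne_zero _ PowerSeries.X_ne_zero) h5⟩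

theorem L_large [Finite J] {a b : ℕ} (hb : 0 < b) {grp : J → Fin r} {d : Fin r → ℕ}
    {F : J → MvPolynomial (Fin 2) (PowerSeries (Gm k))}
    (hF : ∀ h e, coeff e (F h) ≠ 0 → wt a b e = d (grp h))
    {c : ℕ → J → AA k} (hc : ∀ h, IsLim (fun i => c i h) (toAA (F h)))
    {P : ℕ → Fin 2 → PowerSeries (Om k)} (hP : IsLimP P (ratP 0)) (ℓ : ℕ) :
    ∀ᶠ i in Uf, HasT a b grp d (c i) (P i) ℓ := by
  have h1 : ∀ j (N : ℕ), ∀ᶠ i in Uf, (PowerSeries.X : PowerSeries (Om k)) ^ N ∣ P i j := by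
    intro j N
    have h2 := lim_ev_dvd (IsLim.xA (k := k) j) hP N
    simp only [ev_xA] at h2
    rw [← h2]
    have h3 : ratP (0 : Fin 2 → PowerSeries (Gm k)) j = 0 := by
      unfold ratP
      rw [Pi.zero_apply, map_zero]
    rw [h3]
    exact dvd_zero _
  have hpsi : psi (0 : PowerSeries (Gm k)) 0 = xA := by
    funext j
    fin_cases j
    · change xA 0 + cA 0 = xA 0
      rw [map_zero, add_zero]
    · change xA 1 + Polynomial.eval₂ cA _ 0 = xA 1
      rw [Polynomial.eval₂_zero, add_zero]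
  have hlS : IsLimS (fun _ => (0 : PowerSeries k)) 0 := fun m => by
    simp only [map_zero]
    exact gm_zero.symm
  have hlP : ∀ (t : ℕ → AA k) (t' : AA (Gm k)), IsLim t t' →
      IsLim (fun i => (0 : Polynomial (PowerSeries k)).eval₂ cA (t i))
        ((0 : Polynomial (PowerSeries (Gm k))).eval₂ cA t') := by
    intro t t' _
    simp only [Polynomial.eval₂_zero]
    have h3 := IsLim.cA hlS
    simp only [map_zero] at h3
    exact h3
  have h2 : ∀ h, ∀ᶠ i in Uf, (PowerSeries.X : AA k) ^ (d (grp h) * ℓ) ∣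
      ev (tch (a * ℓ) (b * ℓ) 0 0) (c i h) := by
    intro h
    have h3 : IsLim (fun i => ev (tch (a * ℓ) (b * ℓ) 0 0) (c i h))
        (ev (tch (a * ℓ) (b * ℓ) 0 0) (toAA (F h))) :=
      IsLim.ev (fun j => isLim_tch (a * ℓ) (b * ℓ) hlS (q' := fun _ => 0) hlP j) (hc h)
    refine (isLim_dvd h3 _).1 ?_
    rw [ev_tch, hpsi, ev_self, mc_smul_top (hF h)]
    exact dvd_mul_right _ _
  filter_upwards [h1 0 (a * ℓ), h1 1 (b * ℓ), Filter.eventually_all.2 h2] with i h3 h4 h5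
  obtain ⟨w0, hw0⟩ := h3
  obtain ⟨w1, hw1⟩ := h4
  refine ⟨0, 0, ![w0, w1], by rw [Polynomial.natDegree_zero, mul_zero]; exact hb, ?_, h5⟩
  funext j
  fin_cases j
  · change P i 0 = ev ![w0, w1] (cA 0 + PowerSeries.X ^ (a * ℓ) * xA 0)
    rw [map_zero, zero_add, ev_mul, ev_X_pow, ev_xA, hw0]
    rfl
  · change P i 1 = ev ![w0, w1] (Polynomial.eval₂ cA _ 0 + PowerSeries.X ^ (b * ℓ) * xA 1)
    rw [Polynomial.eval₂_zero, zero_add, ev_mul, ev_X_pow, ev_xA, hw1]
    rfl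

/-- transfer of domination -/
theorem dom_C {a b : ℕ} {mu : Fin r → ℝ} (hmu : ∀ j, 0 ≤ mu j) {grp : J → Fin r}
    {d : Fin r → ℕ} (hsum : ∑ j, mu j * d j = a + b) {c c' : ℕ → J → AA k}
    (hM : ∀ M, ∀ᶠ i in Uf, ∀ h,
      (∀ e, wt a b e ≠ d (grp h) → (PowerSeries.X : PowerSeries k) ^ M ∣ mc (c i h) e) ∧
      (∀ e, d (grp h) < wt a b e → (PowerSeries.X : PowerSeries k) ^ M ∣ mc (c' i h) e) ∧
      ∀ e, wt a b e = d (grp h) → (PowerSeries.X : PowerSeries k) ^ M ∣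
        mc (c' i h) e - mc (c i h) e)
    {C : ℕ → ℕ} {n : ℕ → Fin r → ℕ} {L : ℕ → ℕ} (hL : ∀ᶠ i in Uf, a * L i + b * L i ≤ C i)
    (hD : Dom mu grp c' (fun i => C i - a * L i - b * L i) (fun i j => n i j - d j * L i)) :
    Dom mu grp c C n := by
  obtain ⟨ℓ, hℓ⟩ := hD
  refine ⟨ℓ, ?_⟩
  filter_upwards [hℓ, hM ℓ, hL] with i hi hi' hi''
  obtain ⟨Q, C₁, n₁, h1, h2, h3, h4, h5⟩ := hi
  obtain ⟨L₀, _, _, P₀, h6, h7⟩ := deg_top Q ℓ C₁ (h3 ℓ) a b
  obtain ⟨Q', h8, h9⟩ := exists_cont P₀ ℓ C₁ h6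
  refine ⟨Q', C₁, n₁, h1, h2, h8, fun h => ?_, ?_⟩
  · refine h9 _ _ (h2 _) ?_
    obtain ⟨g1, g2, g3⟩ := hi' h
    have h10 := h7 (c' i h) (d (grp h)) (n₁ (grp h)) (h2 _) (fun m hm e he => by
      by_contra hlt
      apply he
      rw [← coeff_mc]
      exact (PowerSeries.X_pow_dvd_iff.1 (g2 e (by omega))) m hm) (h4 h)
    have h11 : (PowerSeries.X : AA k) ^ ℓ ∣ topA a b (d (grp h)) (c' i h) - c i h := by
      rw [X_pow_dvd_iff_mc]
      intro e
      rw [mc_sub, mc_topA]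
      split_ifs with he
      · exact g3 e he
      · rw [zero_sub]
        exact (g1 e he).neg_right
    have h12 := (pow_dvd_pow _ (h2 (grp h))).trans (ev_dvd P₀ h11)
    rw [ev_sub] at h12
    have h13 := dvd_sub h10 h12
    rwa [sub_sub_cancel] at h13
  · refine h5.trans ?_
    have e1 : ((C i - a * L i - b * L i : ℕ) : ℝ) = C i - (a + b) * L i := by
      rw [Nat.sub_sub, Nat.cast_sub hi'']
      push_cast
      ring
    have e2 : ∑ j, mu j * ((n i j - d j * L i : ℕ) : ℝ) ≥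
        ∑ j, mu j * (n i j : ℝ) - (a + b) * L i := by
      have e3 : ∑ j, mu j * (n i j : ℝ) - (a + b) * L i =
          ∑ j, mu j * ((n i j : ℝ) - d j * L i) := by
        rw [← hsum, Finset.sum_mul, ← Finset.sum_sub_distrib]
        refine Finset.sum_congr rfl fun j _ => ?_
        ring
      rw [e3]
      refine Finset.sum_le_sum fun j _ => mul_le_mul_of_nonneg_left ?_ (hmu j)
      have e4 : (n i j : ℝ) ≤ ((n i j - d j * L i : ℕ) : ℝ) + ((d j * L i : ℕ) : ℝ) := by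
        exact_mod_cast Nat.le_add_of_sub_le (le_refl _)
      push_cast at e4
      linarith
    change ((C i - a * L i - b * L i : ℕ) : ℝ) - ∑ j, mu j * ((n i j - d j * L i : ℕ) : ℝ) ≤ _
    rw [e1]
    linarith

end

end M3
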