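import Pool.Agent.M3.CodB
import Pool.Agent.M3.Tay

/-!
PIECE M3-D04: the codimension of arcs with high contact with a smooth curve.

PROOF. Let `κ₀` be the minimum of the orders of `ev P (dA 0 g)`, `ev P (dA 1 g)`; by hypothesis `κ₀ ≤ κ`.  By symmetry
(exchange the coordinates) let the order of `ev P (dA 1 g)` be `κ₀`, `u := coeff κ₀ (ev P (dA 1 g)) ≠ 0`.
Let `n` be an integer with `κ₀ < n` and `n + κ₀ < r`.  Let `P'` be the truncation of `P` below `n`
(coefficients `< n`), `H := P - P'`, divisible by `X^n`.  By `ev_taylor`, modulo `X^(2 n)`: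
`ev P g = ev P' g + ev P' (dA 0 g) * H 0 + ev P' (dA 1 g) * H 1`.  Since `n + κ₀ < 2 n`, the coefficient of `X^(n + κ₀)` is
`0 = coeff (n + κ₀) (ev P' g) + v * P_0,n + u * P_1,n`, where `v := coeff κ₀ (ev P (dA 0 g))`: `ev P' (dA i g)` is congruent
to `ev P (dA i g)` modulo `X^n`, hence has order at least `κ₀ < n` and the same coefficient of `X^κ₀`.
`u`, `v` lie in the field generated over `k` by the `P_j,i`, `i ≤ κ₀ < n`, and `coeff (n + κ₀) (ev P' g)` in the field
generated by the `P_j,i`, `i < n`.  So `P_1,n` is in the field generated over `k` by `P_0,n` and the `P_j,i`, `i < n`.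
Therefore, for `m ≥ r`, all coefficients of `P` below `m` are in the field generated by those without the `P_1,n`,
`κ₀ < n < r - κ₀` (induction on `n`); `alg_exchange` gives `T.card ≤ 2 m - (r - 2 κ₀ - 1)`, so
`r ≤ C + 2 κ₀ + 1`.
If `κ = 0`: in addition, `coeff 0 (ev P g) = g₀(P_0,0, P_1,0) = 0` (for `r ≥ 1`), `g₀ := coeff 0 g`, and
`(∂ g₀/∂x_1)(P_0,0, P_1,0) ≠ 0`, so `P_1,0` is algebraic over `k(P_0,0)` (the polynomial `g₀(P_0,0, Y)` is not zero
because its derivative at `Y = P_1,0` is not zero).  So `r` coefficients (`n = 0, …, r - 1`) can be omitted and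
`r ≤ C`.
-/

open MvPolynomial

namespace M3

universe u

section
variable {k : Type u} [Field k] {L : Type*} [Field L] [Algebra k L]

private lemma smooth_coeff_mul {R : Type*} [CommRing R] {A B : PowerSeries R} {a b : ℕ}
    (hA : (PowerSeries.X : PowerSeries R) ^ a ∣ A) (hB : (PowerSeries.X : PowerSeries R) ^ b ∣ B) :
    PowerSeries.coeff (a + b) (A * B) = PowerSeries.coeff a A * PowerSeries.coeff b B := by
  obtain ⟨A', rfl⟩ := hA
  obtain ⟨B', rfl⟩ := hB
  have e : PowerSeries.X ^ a * A' * (PowerSeries.X ^ b * B') =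
      PowerSeries.X ^ (a + b) * (A' * B') := by ring
  rw [e, PowerSeries.coeff_X_pow_mul', PowerSeries.coeff_X_pow_mul', PowerSeries.coeff_X_pow_mul',
    if_pos le_rfl, if_pos le_rfl, if_pos le_rfl, Nat.sub_self, Nat.sub_self, Nat.sub_self]
  simp

/-- one more coefficient is in the field `A` -/
private lemma smooth_step {g : AA k} {P : Fin 2 → PowerSeries L} {κ r : ℕ} {i j : Fin 2}
    (hij : i ≠ j) (hlow : ∀ l, ∀ n < κ, PowerSeries.coeff n (ev P (dA l g)) = 0)
    (hu : PowerSeries.coeff κ (ev P (dA j g)) ≠ 0)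
    (hr : (PowerSeries.X : PowerSeries L) ^ r ∣ ev P g) (A : IntermediateField k L) {n : ℕ}
    (hn : κ < n) (hnr : n + κ < r) (hA : ∀ l, ∀ s < n, PowerSeries.coeff s (P l) ∈ A)
    (hi : PowerSeries.coeff n (P i) ∈ A) : PowerSeries.coeff n (P j) ∈ A := by
  classical
  let P'' : Fin 2 → PowerSeries A := fun l =>
    PowerSeries.mk fun s => if h : s < n then ⟨PowerSeries.coeff s (P l), hA l s h⟩ else 0
  let P' : Fin 2 → PowerSeries L := fun l => PowerSeries.map (A.val : A →+* L) (P'' l)
  have hP' : ∀ f : AA k, ev P' f = PowerSeries.map (A.val : A →+* L) (ev P'' f) :=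
    fun f => (ev_map A.val P'' f).symm
  have hmem : ∀ (f : AA k) (s : ℕ), PowerSeries.coeff s (ev P' f) ∈ A := by
    intro f s
    rw [hP', PowerSeries.coeff_map]
    exact (PowerSeries.coeff s (ev P'' f)).2
  have hc1 : ∀ l, ∀ s < n, PowerSeries.coeff s (P' l) = PowerSeries.coeff s (P l) := by
    intro l s hs
    show PowerSeries.coeff s (PowerSeries.map (A.val : A →+* L) (P'' l)) = _
    rw [PowerSeries.coeff_map, PowerSeries.coeff_mk, dif_pos hs]
    rfl
  have hc2 : ∀ l, PowerSeries.coeff n (P' l) = 0 := by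
    intro l
    show PowerSeries.coeff n (PowerSeries.map (A.val : A →+* L) (P'' l)) = _
    rw [PowerSeries.coeff_map, PowerSeries.coeff_mk, dif_neg (lt_irrefl n)]
    exact map_zero _
  let H : Fin 2 → PowerSeries L := fun l => P l - P' l
  have hH : ∀ l, (PowerSeries.X : PowerSeries L) ^ n ∣ H l := by
    intro l
    rw [PowerSeries.X_pow_dvd_iff]
    intro s hs
    show PowerSeries.coeff s (P l - P' l) = 0
    rw [map_sub, hc1 l s hs, sub_self]
  have hHn : ∀ l, PowerSeries.coeff n (H l) = PowerSeries.coeff n (P l) := by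
    intro l
    show PowerSeries.coeff n (P l - P' l) = _
    rw [map_sub, hc2, sub_zero]
  have hcong : ∀ (f : AA k), ∀ s < n, PowerSeries.coeff s (ev P' f) =
      PowerSeries.coeff s (ev P f) := by
    intro f s hs
    have h1 := PowerSeries.X_pow_dvd_iff.1 (ev_congr (P := P) (Q := P') hH f) s hs
    rw [map_sub, sub_eq_zero] at h1
    exact h1.symm
  have hdv : ∀ l, (PowerSeries.X : PowerSeries L) ^ κ ∣ ev P' (dA l g) := by
    intro l
    rw [PowerSeries.X_pow_dvd_iff]
    intro s hs
    rw [hcong _ s (hs.trans hn), hlow l s hs]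
  have ht := PowerSeries.X_pow_dvd_iff.1 (ev_taylor P' H n hH g) (κ + n) (by omega)
  have hPe : (fun l => P' l + H l) = P := by
    funext l
    exact add_sub_cancel (P' l) (P l)
  have hg0 : PowerSeries.coeff (κ + n) (ev P g) = 0 :=
    PowerSeries.X_pow_dvd_iff.1 hr _ (by omega)
  rw [hPe, map_sub, map_sub, map_sub, hg0, smooth_coeff_mul (hdv 0) (hH 0),
    smooth_coeff_mul (hdv 1) (hH 1), hHn, hHn, hcong _ κ hn, hcong _ κ hn] at ht
  have hvm : ∀ l, PowerSeries.coeff κ (ev P (dA l g)) ∈ A := by
    intro l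
    rw [← hcong _ κ hn]
    exact hmem _ _
  have hcm := hmem g (κ + n)
  have key : PowerSeries.coeff κ (ev P (dA j g)) * PowerSeries.coeff n (P j) =
      -(PowerSeries.coeff (κ + n) (ev P' g)) -
        PowerSeries.coeff κ (ev P (dA i g)) * PowerSeries.coeff n (P i) := by
    have hcase : (i = 0 ∧ j = 1) ∨ (i = 1 ∧ j = 0) := by
      revert hij
      fin_cases i <;> fin_cases j <;> simp
    rcases hcase with ⟨rfl, rfl⟩ | ⟨rfl, rfl⟩
    · linear_combination -ht
    · linear_combination -ht
  have e : PowerSeries.coeff n (P j) = (PowerSeries.coeff κ (ev P (dA j g)))⁻¹ *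
      (-(PowerSeries.coeff (κ + n) (ev P' g)) -
        PowerSeries.coeff κ (ev P (dA i g)) * PowerSeries.coeff n (P i)) := by
    rw [← key, inv_mul_cancel_left₀ hu]
  rw [e]
  exact A.mul_mem (A.inv_mem (hvm j)) (A.sub_mem (A.neg_mem hcm) (A.mul_mem (hvm i) hi))

/-- the coefficients `(j, n)`, `n ∈ D`, are algebraic over the other ones, so there are at most
`C` of them -/
private lemma smooth_card {P : Fin 2 → PowerSeries L} {m C : ℕ} (h : CodLe k P m C) (j : Fin 2)
    (D : Finset (Fin m))
    (hD : ∀ A : IntermediateField k L, (∀ x : L, IsAlgebraic A x → x ∈ A) →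
      (∀ (l : Fin 2) (s : Fin m), ¬ (l = j ∧ s ∈ D) → PowerSeries.coeff s.val (P l) ∈ A) →
      ∀ (l : Fin 2) (s : Fin m), PowerSeries.coeff s.val (P l) ∈ A) : D.card ≤ C := by
  classical
  obtain ⟨T', h1, h2⟩ := h
  let ι := {t : Fin 2 × Fin m // ¬ (t.1 = j ∧ t.2 ∈ D)}
  let x : ι → L := fun t => PowerSeries.coeff t.1.2.val (P t.1.1)
  let E : IntermediateField k L := IntermediateField.adjoin k (Set.range x)
  let A : IntermediateField k L := (algebraicClosure E L).restrictScalars k
  have hmemA : ∀ y : L, y ∈ A ↔ IsAlgebraic E y := fun y => mem_algebraicClosure_iff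
  have hEA : ∀ y : L, y ∈ E → y ∈ A := by
    intro y hy
    rw [hmemA]
    exact isAlgebraic_algebraMap (⟨y, hy⟩ : E)
  have hclosed : ∀ y : L, IsAlgebraic A y → y ∈ A := by
    intro y hy
    rw [hmemA]
    have h3 : Algebra.IsAlgebraic E (algebraicClosure E L) := inferInstance
    have h4 : IsAlgebraic (algebraicClosure E L) y := hy
    exact h4.restrictScalars E
  have hall := hD A hclosed (fun l s hls => hEA _
    (IntermediateField.subset_adjoin k _ ⟨⟨(l, s), hls⟩, rfl⟩))
  obtain ⟨T, h3, _⟩ := alg_exchange (k := k) x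
    (fun t : Fin 2 × Fin m => PowerSeries.coeff t.2.val (P t.1))
    (fun t => (hmemA _).1 (hall t.1 t.2)) T' h2
  have h5 : T.card ≤ Fintype.card ι := Finset.card_le_univ T
  have h6 : Fintype.card ι + D.card = 2 * m := by
    have e1 : Fintype.card {t : Fin 2 × Fin m // t.1 = j ∧ t.2 ∈ D} = D.card := by
      rw [← Fintype.card_coe D]
      refine Fintype.card_congr ⟨fun t => ⟨t.1.2, t.2.2⟩, fun s => ⟨(j, s.1), rfl, s.2⟩, ?_, ?_⟩
      · rintro ⟨⟨l, s⟩, rfl, hs⟩
        rfl
      · intro s
        rfl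
    have e2 := Fintype.card_subtype_compl (fun t : Fin 2 × Fin m => t.1 = j ∧ t.2 ∈ D)
    have e3 : Fintype.card (Fin 2 × Fin m) = 2 * m := by simp
    have e4 : Fintype.card {t : Fin 2 × Fin m // t.1 = j ∧ t.2 ∈ D} ≤
        Fintype.card (Fin 2 × Fin m) := Fintype.card_subtype_le _
    have e5 : Fintype.card ι = Fintype.card (Fin 2 × Fin m) -
        Fintype.card {t : Fin 2 × Fin m // t.1 = j ∧ t.2 ∈ D} := e2
    omega
  omega

/-- all coefficients are in a field which contains the coefficients `(j, n)` only for `n` outside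
the interval `(κ, r - κ)` -/
private lemma smooth_all {g : AA k} {P : Fin 2 → PowerSeries L} {κ r m a : ℕ} {i j : Fin 2}
    (hij : i ≠ j) (hlow : ∀ l, ∀ n < κ, PowerSeries.coeff n (ev P (dA l g)) = 0)
    (hu : PowerSeries.coeff κ (ev P (dA j g)) ≠ 0)
    (hr : (PowerSeries.X : PowerSeries L) ^ r ∣ ev P g) (A : IntermediateField k L)
    (hA : ∀ (l : Fin 2) (s : Fin m), ¬ (l = j ∧ (a ≤ s.val ∧ s.val + κ < r)) →
      PowerSeries.coeff s.val (P l) ∈ A)
    (h0 : ∀ s, a ≤ s → s ≤ κ → s + κ < r → s < m → (∀ l, ∀ t < s, PowerSeries.coeff t (P l) ∈ A) →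
      PowerSeries.coeff s (P j) ∈ A) :
    ∀ s, s < m → ∀ l, PowerSeries.coeff s (P l) ∈ A := by
  intro s
  induction s using Nat.strong_induction_on with
  | _ s ih =>
    intro hs l
    by_cases hl : l = j
    · subst hl
      by_cases h1 : a ≤ s ∧ s + κ < r
      · have h2 : ∀ l, ∀ t < s, PowerSeries.coeff t (P l) ∈ A := fun l t ht => ih t ht (ht.trans hs) l
        rcases Nat.lt_or_ge κ s with h3 | h3
        · exact smooth_step hij hlow hu hr A h3 h1.2 h2
            (hA i ⟨s, hs⟩ (fun h => hij h.1))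
        · exact h0 s h1.1 h3 h1.2 hs h2
      · exact hA l ⟨s, hs⟩ (fun h => h1 h.2)
    · exact hA l ⟨s, hs⟩ (fun h => hl h.1)

private lemma smooth_interval (r a b : ℕ) :
    ((Finset.univ : Finset (Fin r)).filter fun s => a ≤ s.val ∧ s.val + b < r).card + a + b =
      max r (a + b) := by
  have e : ((Finset.univ : Finset (Fin r)).filter fun s => a ≤ s.val ∧ s.val + b < r).card =
      (Finset.Ico a (r - b)).card := by
    refine Finset.card_bij (fun s _ => s.val) ?_ ?_ ?_
    · intro s hs
      rw [Finset.mem_filter] at hs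
      rw [Finset.mem_Ico]
      omega
    · intro s _ t _ hst
      exact Fin.ext hst
    · intro s hs
      rw [Finset.mem_Ico] at hs
      refine ⟨⟨s, by omega⟩, ?_, rfl⟩
      rw [Finset.mem_filter]
      refine ⟨Finset.mem_univ _, ?_⟩
      show a ≤ s ∧ s + b < r
      omega
  rw [e, Nat.card_Ico]
  omega

theorem cod_smooth {g : AA k} {P : Fin 2 → PowerSeries L} {κ r C : ℕ}
    (hκ : PowerSeries.coeff κ (ev P (dA 0 g)) ≠ 0 ∨ PowerSeries.coeff κ (ev P (dA 1 g)) ≠ 0)
    (hr : (PowerSeries.X : PowerSeries L) ^ r ∣ ev P g) (hC : Cod k P C) :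
    r ≤ C + 2 * κ + 1 := by
  classical
  have hex : ∃ n, PowerSeries.coeff n (ev P (dA 0 g)) ≠ 0 ∨
      PowerSeries.coeff n (ev P (dA 1 g)) ≠ 0 := ⟨κ, hκ⟩
  obtain ⟨κ₀, h1, h2, h3⟩ : ∃ κ₀ ≤ κ, (∀ l, ∀ n < κ₀, PowerSeries.coeff n (ev P (dA l g)) = 0) ∧
      (PowerSeries.coeff κ₀ (ev P (dA 0 g)) ≠ 0 ∨ PowerSeries.coeff κ₀ (ev P (dA 1 g)) ≠ 0) := by
    refine ⟨Nat.find hex, Nat.find_min' hex hκ, ?_, Nat.find_spec hex⟩
    intro l n hn
    have h4 := Nat.find_min hex hn
    push Not at h4
    fin_cases l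
    · exact h4.1
    · exact h4.2
  obtain ⟨i, j, hij, hu⟩ : ∃ i j : Fin 2, i ≠ j ∧ PowerSeries.coeff κ₀ (ev P (dA j g)) ≠ 0 := by
    rcases h3 with h3 | h3
    · exact ⟨1, 0, by decide, h3⟩
    · exact ⟨0, 1, by decide, h3⟩
  have h4 := smooth_card (hC r) j
    ((Finset.univ : Finset (Fin r)).filter fun s => κ₀ + 1 ≤ s.val ∧ s.val + κ₀ < r) (by
    intro A _ hA l s
    refine smooth_all (a := κ₀ + 1) hij h2 hu hr A ?_ ?_ s.val s.2 l
    · intro l s hls
      refine hA l s (fun h => hls ⟨h.1, ?_⟩)
      have := h.2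
      rw [Finset.mem_filter] at this
      exact this.2
    · intro s h5 h6
      omega)
  have h5 := smooth_interval r (κ₀ + 1) κ₀
  omega

/-- the derivative of a substitution -/
private lemma smooth_derivative {K : Type*} [Field K] [Algebra k K] (j : Fin 2)
    (f : Fin 2 → Polynomial K) (hj : Polynomial.derivative (f j) = 1)
    (hi : ∀ i, i ≠ j → Polynomial.derivative (f i) = 0) (p : MvPolynomial (Fin 2) k) :
    Polynomial.derivative (aeval f p) = aeval f (pderiv j p) := by
  induction p using MvPolynomial.induction_on with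
  | C a =>
    rw [aeval_C, pderiv_C, map_zero, IsScalarTower.algebraMap_apply k K (Polynomial K),
      Polynomial.algebraMap_eq, Polynomial.derivative_C]
  | add p q hp hq => rw [map_add, Polynomial.derivative_add, hp, hq, map_add, map_add]
  | mul_X p l hp =>
    rw [map_mul, Polynomial.derivative_mul, hp, pderiv_mul, map_add, map_mul, map_mul, aeval_X]
    by_cases hl : l = j
    · subst hl
      rw [hj, pderiv_X_self, map_one]
    · rw [hi l hl, pderiv_X_of_ne (fun h => hl h), map_zero]

private lemma smooth_coeff_zero (P : Fin 2 → PowerSeries L) (p : MvPolynomial (Fin 2) k) :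
    PowerSeries.coeff 0 (aeval P p) = aeval (fun l => PowerSeries.coeff 0 (P l)) p := by
  induction p using MvPolynomial.induction_on with
  | C a =>
    rw [aeval_C, aeval_C, PowerSeries.algebraMap_apply]
    simp
  | add p q hp hq => rw [map_add, map_add, hp, hq, map_add]
  | mul_X p l hp =>
    have e1 : aeval P (p * X l) = aeval P p * P l := by rw [map_mul, aeval_X]
    have e2 : aeval (fun l => PowerSeries.coeff 0 (P l)) (p * X l) =
        aeval (fun l => PowerSeries.coeff 0 (P l)) p * PowerSeries.coeff 0 (P l) := by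
      rw [map_mul, aeval_X]
    rw [e1, e2, ← hp]
    simp

private lemma smooth_coeff_zero_ev (P : Fin 2 → PowerSeries L) (f : AA k) :
    PowerSeries.coeff 0 (ev P f) =
      aeval (fun l => PowerSeries.coeff 0 (P l)) (PowerSeries.coeff 0 f) := by
  rw [coeff_ev, Finset.HasAntidiagonal.antidiagonal_zero, Finset.sum_singleton]
  exact smooth_coeff_zero P _

theorem cod_smooth_zero {g : AA k} {P : Fin 2 → PowerSeries L} {r C : ℕ}
    (hκ : PowerSeries.coeff 0 (ev P (dA 0 g)) ≠ 0 ∨ PowerSeries.coeff 0 (ev P (dA 1 g)) ≠ 0)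
    (hr : (PowerSeries.X : PowerSeries L) ^ r ∣ ev P g) (hC : Cod k P C) : r ≤ C := by
  classical
  obtain ⟨i, j, hij, hu⟩ : ∃ i j : Fin 2, i ≠ j ∧ PowerSeries.coeff 0 (ev P (dA j g)) ≠ 0 := by
    rcases hκ with h3 | h3
    · exact ⟨1, 0, by decide, h3⟩
    · exact ⟨0, 1, by decide, h3⟩
  have h4 := smooth_card (hC r) j
    ((Finset.univ : Finset (Fin r)).filter fun s => 0 ≤ s.val ∧ s.val + 0 < r) (by
    intro A hcl hA l s
    refine smooth_all (a := 0) hij (fun _ n hn => absurd hn (Nat.not_lt_zero n)) hu hr A ?_ ?_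
      s.val s.2 l
    · intro l s hls
      refine hA l s (fun h => hls ⟨h.1, ?_⟩)
      have := h.2
      rw [Finset.mem_filter] at this
      exact this.2
    · intro s _ hs0 hsr hs _
      have hs' : s = 0 := by omega
      subst hs'
      have hi : PowerSeries.coeff 0 (P i) ∈ A :=
        hA i ⟨0, hs⟩ (fun h => hij h.1)
      apply hcl
      let f : Fin 2 → Polynomial A := fun l =>
        if l = j then Polynomial.X else Polynomial.C ⟨PowerSeries.coeff 0 (P i), hi⟩
      have hoth : ∀ l, l ≠ j → l = i := by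
        intro l hl
        revert hij hl
        fin_cases i <;> fin_cases j <;> fin_cases l <;> simp
      have hf : (fun l => Polynomial.aeval (PowerSeries.coeff 0 (P j)) (f l)) =
          fun l => PowerSeries.coeff 0 (P l) := by
        funext l
        by_cases hl : l = j
        · show Polynomial.aeval _ (if l = j then _ else _) = _
          rw [if_pos hl, Polynomial.aeval_X, hl]
        · show Polynomial.aeval _ (if l = j then _ else _) = _
          rw [if_neg hl, Polynomial.aeval_C, hoth l hl]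
          rfl
      have hcomp : ∀ p : MvPolynomial (Fin 2) k,
          Polynomial.aeval (PowerSeries.coeff 0 (P j)) (aeval f p) =
            aeval (fun l => PowerSeries.coeff 0 (P l)) p := by
        intro p
        rw [← hf]
        induction p using MvPolynomial.induction_on with
        | C a =>
          rw [aeval_C, aeval_C, IsScalarTower.algebraMap_apply k A (Polynomial A),
            Polynomial.algebraMap_eq, Polynomial.aeval_C]
          rfl
        | add p q hp hq => rw [map_add, map_add, hp, hq, map_add]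
        | mul_X p l hp => rw [map_mul, map_mul, hp, map_mul, aeval_X, aeval_X]
      have hder := smooth_derivative (k := k) j f
        (by
          show Polynomial.derivative (if j = j then _ else _) = _
          rw [if_pos rfl, Polynomial.derivative_X])
        (by
          intro l hl
          show Polynomial.derivative (if l = j then _ else _) = _
          rw [if_neg hl, Polynomial.derivative_C]) (PowerSeries.coeff 0 g)
      refine ⟨aeval f (PowerSeries.coeff 0 g), ?_, ?_⟩
      · intro h0
        apply hu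
        rw [smooth_coeff_zero_ev]
        have e1 : PowerSeries.coeff 0 (dA j g) = pderiv j (PowerSeries.coeff 0 g) := by
          rw [dA, PowerSeries.coeff_mk]
        rw [e1, ← hcomp, ← hder, h0, Polynomial.derivative_zero, map_zero]
      · rw [hcomp, ← smooth_coeff_zero_ev]
        exact PowerSeries.X_pow_dvd_iff.1 hr 0 (by omega))
  have h5 := smooth_interval r 0 0
  omega

end

end M3
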