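import Pool.Agent.M3.HomP
import Pool.Agent.M3.Smooth
import Pool.Agent.M3.CodCh

/-!
PIECE M3-H02: states are bounded below.

PROOF. Write `f h := toAA (F h)`, `K := KK κ`.  Let `P` be an arc over `L/κ` with `Cod κ P C`, `OrdGe grp f P n`.
(1) Reduction to `¬ (X^a ∣ P 0 ∧ X^b ∣ P 1)`.  If `X^(a Λ) ∣ P 0` and `X^(b Λ) ∣ P 1` then `(a + b) Λ ≤ C` (`cod_vanish` at a large
level); let `Λ` be maximal, `P 0 = X^(a Λ) * P' 0`, `P 1 = X^(b Λ) * P' 1`.  `P = ev P' (chA 0 0 (a Λ) (b Λ))`, so `Cod κ P' (C - (a+b) Λ)`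
(`cod_chA_inv`), and `ev P (f h) = X^(d Λ) * ev P' (f h)`, `d = d (grp h)` (`F h` homogeneous), so
`OrdGe grp f P' (fun j => n j - d j * Λ)`.  `(C - (a+b) Λ) - ∑ mu j (n j - d j Λ) ≤ C - ∑ mu j n j` (natural subtraction in the
sum is at least the real difference; `∑ mu j d j = a + b`).  So it suffices to bound `P'` from below.
(2) Let `s`, `m`, `u` be as in `common_factors` for `toKK (F h)`.  All `p ∈ s` which divide some `F h ≠ 0` are homogeneous
(`hom_dvd`); drop the others (they have `m h p = 0`).  Multiply `p ∈ s` by a constant such that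
`p = toKK p'`, `p' : MvPolynomial (Fin 2) (PowerSeries κ)`.  Put `g_p := toAA p'`.  Clearing denominators in
`toKK (F h) = C (u h) * ∏ p^(m h p)` gives `v_h, w_h ∈ κ[[τ]]` nonzero with `C v_h * F h = C w_h * ∏ p'^(m h p)`, so
`n (grp h) ≤ order (ev P (f h)) ≤ order w_h + ∑_p m h p * r_p`, `r_p := order (ev P g_p)` (possibly `⊤`).
(3) For `p ≠ q ∈ s`: `hom_coprime` and clearing denominators: `A p' + B q' = w x_0^N`, `A' p' + B' q' = w' x_1^N` with integral
`A, B, …`, `w, w' ≠ 0`.  By (1) the order of `P 0` is `< a` or the order of `P 1` is `< b`.  So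
`min (r_p) (r_q) ≤ κ₀`, a constant which depends only on `F` (the maximum over all pairs of `order w + N (a + b)`).
(4) For `p ∈ s`: `irr_grad`, `hom_coprime` (`pderiv j p` is homogeneous; if one of them is `0` the other one is a unit,
relatively prime to `0`): in the same way the order of `ev P (dA 0 g_p)` or of `ev P (dA 1 g_p)` is `≤ κ₁` (`dA_toAA`), so
`cod_smooth` gives `r_p ≤ C + 2 κ₁ + 1`, in particular `r_p` is finite.
(5) Let `p₀ ∈ s` have the largest `r_p` (if `s` is empty all `n j ≤ max order w_h`); all other `r_p ≤ κ₀`.  By `wk` for `p₀`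
choose `B` with `∑ mu j B j ≤ 1` and for every `j` a member `h_j` with `¬ p₀^(B j + 1) ∣ toKK (F h_j)`; `m h_j p₀ ≤ B j` (`mult_le`).
So `n j ≤ order w_(h_j) + κ₀ ∑_p m h_j p + B j r_(p₀)` and
`∑ mu j n j ≤ const + r_(p₀) ∑ mu j B j ≤ const + r_(p₀) ≤ C + const'`.
-/

open MvPolynomial

namespace M3

universe u

section
variable {κ : Type u} [Field κ]

private lemma bh_inj : Function.Injective (toKK (k := κ)) :=
  MvPolynomial.map_injective _ (IsFractionRing.injective (PowerSeries κ) (KK κ))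

private lemma bh_toKK_C (c : PowerSeries κ) : toKK (C c) = C (algebraMap _ (KK κ) c) := by
  unfold toKK
  rw [MvPolynomial.map_C]

private lemma bh_toKK_X (j : Fin 2) : toKK (X j : MvPolynomial (Fin 2) (PowerSeries κ)) = X j := by
  unfold toKK
  rw [MvPolynomial.map_X]

/-- clearing denominators -/
private lemma bh_clr (p : MvPolynomial (Fin 2) (KK κ)) :
    ∃ (c : PowerSeries κ) (p' : MvPolynomial (Fin 2) (PowerSeries κ)), c ≠ 0 ∧
      toKK p' = C (algebraMap _ (KK κ) c) * p := by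
  induction p using MvPolynomial.induction_on with
  | C a =>
    obtain ⟨x, y, hy, rfl⟩ := IsFractionRing.div_surjective (A := PowerSeries κ) a
    have hy0 : y ≠ 0 := nonZeroDivisors.ne_zero hy
    refine ⟨y, C x, hy0, ?_⟩
    rw [bh_toKK_C, ← map_mul]
    congr 1
    have : algebraMap (PowerSeries κ) (KK κ) y ≠ 0 := by
      rw [Ne, IsFractionRing.to_map_eq_zero_iff]
      exact hy0
    field_simp
  | add p q hp hq =>
    obtain ⟨c, p', hc, h1⟩ := hp
    obtain ⟨c', q', hc', h2⟩ := hq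
    refine ⟨c * c', C c' * p' + C c * q', mul_ne_zero hc hc', ?_⟩
    rw [map_add, map_mul, map_mul, h1, h2, bh_toKK_C, bh_toKK_C, map_mul, map_mul]
    ring
  | mul_X p n hp =>
    obtain ⟨c, p', hc, h1⟩ := hp
    refine ⟨c, p' * X n, hc, ?_⟩
    rw [map_mul, h1, bh_toKK_X, mul_assoc]

/-- a Bezout relation with integral coefficients -/
private lemma bh_bez {p q : MvPolynomial (Fin 2) (PowerSeries κ)} {j : Fin 2} {N : ℕ}
    {A B : MvPolynomial (Fin 2) (KK κ)} (h : A * toKK p + B * toKK q = X j ^ N) :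
    ∃ (w : PowerSeries κ) (A' B' : MvPolynomial (Fin 2) (PowerSeries κ)), w ≠ 0 ∧
      A' * p + B' * q = C w * X j ^ N := by
  obtain ⟨c, A', hc, h1⟩ := bh_clr A
  obtain ⟨c', B', hc', h2⟩ := bh_clr B
  refine ⟨c * c', C c' * A', C c * B', mul_ne_zero hc hc', bh_inj ?_⟩
  rw [map_add, map_mul, map_mul, map_mul, map_mul, map_mul, map_pow, h1, h2, bh_toKK_C, bh_toKK_C,
    bh_toKK_C, bh_toKK_X, ← h, map_mul, map_mul]
  ring

variable {L : Type u} [Field L] [Algebra κ L]

/-- the evaluation of integral polynomials -/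
private noncomputable def bhE (P : Fin 2 → PowerSeries L) :
    MvPolynomial (Fin 2) (PowerSeries κ) →+* PowerSeries L := (evH (k := κ) P).comp toAA

private lemma bhE_apply (P : Fin 2 → PowerSeries L) (F : MvPolynomial (Fin 2) (PowerSeries κ)) :
    bhE P F = ev P (toAA F) := rfl

private lemma bhE_C (P : Fin 2 → PowerSeries L) (c : PowerSeries κ) :
    bhE P (C c) = PowerSeries.map (algebraMap κ L) c := by
  rw [bhE_apply, toAA_C, ev_cA]

private lemma bhE_X (P : Fin 2 → PowerSeries L) (j : Fin 2) :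
    bhE (κ := κ) P (X j) = P j := by
  rw [bhE_apply, toAA_X, ev_xA]

private lemma bh_map_order (c : PowerSeries κ) (hc : c ≠ 0) :
    (PowerSeries.map (algebraMap κ L) c).order ≤ (c.order.toNat : ℕ∞) := by
  apply PowerSeries.order_le
  rw [PowerSeries.coeff_map]
  intro h
  exact PowerSeries.coeff_order hc ((map_eq_zero _).1 h)

private lemma bh_map_ne (c : PowerSeries κ) (hc : c ≠ 0) :
    PowerSeries.map (algebraMap κ L) c ≠ 0 := by
  intro h
  have h1 := bh_map_order (L := L) c hc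
  rw [h, PowerSeries.order_zero] at h1
  exact absurd h1 (by simp)

private lemma bh_dvd_order {K : ℕ} {φ : PowerSeries L} :
    (PowerSeries.X : PowerSeries L) ^ K ∣ φ ↔ (K : ℕ∞) ≤ φ.order := by
  rw [PowerSeries.X_pow_dvd_iff]
  constructor
  · intro h
    exact PowerSeries.le_order _ _ (fun i hi => h i (by exact_mod_cast hi))
  · intro h m hm
    exact PowerSeries.coeff_of_lt_order _ (lt_of_lt_of_le (by exact_mod_cast hm) h)

private lemma bh_ord {K N t : ℕ} {c : PowerSeries κ} (hc : c ≠ 0) {ψ : PowerSeries L}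
    (hψ : ¬ (PowerSeries.X : PowerSeries L) ^ t ∣ ψ)
    (h : (PowerSeries.X : PowerSeries L) ^ K ∣ PowerSeries.map (algebraMap κ L) c * ψ ^ N) :
    K ≤ c.order.toNat + N * t := by
  rw [bh_dvd_order, PowerSeries.order_mul, PowerSeries.order_pow] at h
  rw [bh_dvd_order, not_le] at hψ
  have h1 : N • ψ.order ≤ ((N * t : ℕ) : ℕ∞) := by
    have h2 : N • ψ.order ≤ N • (t : ℕ∞) := nsmul_le_nsmul_right hψ.le N
    refine h2.trans (le_of_eq ?_)
    rw [nsmul_eq_mul]
    push_cast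
    rfl
  have h3 := h.trans (add_le_add (bh_map_order (L := L) c hc) h1)
  exact_mod_cast h3

/-- the condition on the arc after the reduction -/
private def bhNot (a b : ℕ) (P : Fin 2 → PowerSeries L) : Prop :=
  ¬ ((PowerSeries.X : PowerSeries L) ^ a ∣ P 0 ∧ (PowerSeries.X : PowerSeries L) ^ b ∣ P 1)

/-- two relatively prime homogeneous functions are not both small -/
private lemma bh_key {a b : ℕ} (ha : 0 < a) (hb : 0 < b)
    {p q : MvPolynomial (Fin 2) (PowerSeries κ)} {d e : ℕ}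
    (hp : HomW a b d (toKK p)) (hq : HomW a b e (toKK q)) (h : IsRelPrime (toKK p) (toKK q)) :
    ∃ K₀ : ℕ, ∀ (L : Type u) [Field L] [Algebra κ L] (P : Fin 2 → PowerSeries L), bhNot a b P →
      ¬ ((PowerSeries.X : PowerSeries L) ^ K₀ ∣ bhE P p ∧
        (PowerSeries.X : PowerSeries L) ^ K₀ ∣ bhE P q) := by
  obtain ⟨N, ⟨A, B, hAB⟩, A', B', hAB'⟩ := hom_coprime ha hb hp hq h
  obtain ⟨w, A1, B1, hw, h1⟩ := bh_bez hAB
  obtain ⟨w', A2, B2, hw', h2⟩ := bh_bez hAB'
  refine ⟨w.order.toNat + w'.order.toNat + N * a + N * b + 1, ?_⟩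
  intro L _ _ P hP hcon
  obtain ⟨hd1, hd2⟩ := hcon
  have key : ∀ (A B : MvPolynomial (Fin 2) (PowerSeries κ)),
      (PowerSeries.X : PowerSeries L) ^ (w.order.toNat + w'.order.toNat + N * a + N * b + 1) ∣
        bhE P (A * p + B * q) := by
    intro A B
    rw [map_add, map_mul, map_mul]
    exact dvd_add (hd1.mul_left _) (hd2.mul_left _)
  rcases not_and_or.1 hP with h0 | h0
  · have h3 := key A1 B1
    rw [h1, map_mul, map_pow, bhE_C, bhE_X] at h3
    have := bh_ord hw h0 h3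
    omega
  · have h3 := key A2 B2
    rw [h2, map_mul, map_pow, bhE_C, bhE_X] at h3
    have := bh_ord hw' h0 h3
    omega

private lemma bh_alg {R ι : Type*} [CommRing R] (s : Finset ι) (c p : ι → R) (m : ι → ℕ)
    (y u : R) : y * (∏ i ∈ s, c i ^ m i) * (u * ∏ i ∈ s, p i ^ m i) =
      y * u * ∏ i ∈ s, (c i * p i) ^ m i := by
  have : ∏ i ∈ s, (c i * p i) ^ m i = (∏ i ∈ s, c i ^ m i) * ∏ i ∈ s, p i ^ m i := by
    rw [← Finset.prod_mul_distrib]
    exact Finset.prod_congr rfl (fun i _ => mul_pow _ _ _)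
  rw [this]
  ring

/-- integral form of a factorization -/
private lemma bh_fac {J : Type} [Finite J] (F : J → MvPolynomial (Fin 2) (PowerSeries κ)) :
    ∃ (s : Finset (MvPolynomial (Fin 2) (PowerSeries κ)))
      (m : J → MvPolynomial (Fin 2) (PowerSeries κ) → ℕ) (v w : J → PowerSeries κ),
      (∀ p ∈ s, Irreducible (toKK p)) ∧
      (∀ p ∈ s, ∀ q ∈ s, p ≠ q → IsRelPrime (toKK p) (toKK q)) ∧
      (∀ p ∈ s, ∃ h, F h ≠ 0 ∧ toKK p ∣ toKK (F h)) ∧
      ∀ h, F h ≠ 0 → v h ≠ 0 ∧ w h ≠ 0 ∧ C (v h) * F h = C (w h) * ∏ p ∈ s, p ^ m h p := by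
  classical
  obtain ⟨s, m, u, h1, h2, h3⟩ := common_factors (fun h => toKK (F h))
  have hcl : ∀ p : MvPolynomial (Fin 2) (KK κ), ∃ (c : PowerSeries κ)
      (p' : MvPolynomial (Fin 2) (PowerSeries κ)), c ≠ 0 ∧
      toKK p' = C (algebraMap _ (KK κ) c) * p := bh_clr
  choose c g hc hg using hcl
  have hF : ∀ h, F h ≠ 0 ↔ toKK (F h) ≠ 0 := by
    intro h
    rw [← map_zero (toKK (k := κ)), Ne, Ne, bh_inj.eq_iff]
  have hcu : ∀ p, IsUnit (C (algebraMap _ (KK κ) (c p)) : MvPolynomial (Fin 2) (KK κ)) := by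
    intro p
    have : algebraMap (PowerSeries κ) (KK κ) (c p) ≠ 0 := by
      rw [Ne, IsFractionRing.to_map_eq_zero_iff]
      exact hc p
    exact (IsUnit.mk0 _ this).map C
  have hass : ∀ p, Associated (toKK (g p)) p := by
    intro p
    rw [hg]
    exact (associated_unit_mul_left _ _ (hcu p))
  let s' := s.filter (fun p => ∃ h, F h ≠ 0 ∧ p ∣ toKK (F h))
  have hginj : ∀ p ∈ s', ∀ q ∈ s', g p = g q → p = q := by
    intro p hp q hq hpq
    by_contra hne
    have hp1 := (Finset.mem_filter.1 hp).1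
    have hq1 := (Finset.mem_filter.1 hq).1
    have h4 := h2 p hp1 q hq1 hne
    have h5 : p ∣ q := by
      have := (hass p).symm.dvd.trans (hpq ▸ (hass q).dvd)
      exact this
    exact (h1 p hp1).not_isUnit (h4 dvd_rfl h5)
  have hinv : ∀ p', ∃ p, p' ∈ s'.image g → p ∈ s' ∧ g p = p' := by
    intro p'
    by_cases h : p' ∈ s'.image g
    · obtain ⟨p, hp, hpp⟩ := Finset.mem_image.1 h
      exact ⟨p, fun _ => ⟨hp, hpp⟩⟩
    · exact ⟨0, fun h' => absurd h' h⟩
  choose inv hinv using hinv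
  have hinvg : ∀ p ∈ s', inv (g p) = p := by
    intro p hp
    obtain ⟨h4, h5⟩ := hinv (g p) (Finset.mem_image_of_mem g hp)
    exact hginj _ h4 _ hp h5
  have hu : ∀ h, ∃ x y : PowerSeries κ, y ≠ 0 ∧
      algebraMap (PowerSeries κ) (KK κ) x = algebraMap (PowerSeries κ) (KK κ) y * u h := by
    intro h
    obtain ⟨x, y, hy, hxy⟩ := IsFractionRing.div_surjective (A := PowerSeries κ) (u h)
    have hy0 : y ≠ 0 := nonZeroDivisors.ne_zero hy
    have : algebraMap (PowerSeries κ) (KK κ) y ≠ 0 := by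
      rw [Ne, IsFractionRing.to_map_eq_zero_iff]
      exact hy0
    refine ⟨x, y, hy0, ?_⟩
    rw [← hxy]
    field_simp
  choose x y hy hxy using hu
  refine ⟨s'.image g, fun h p => m h (inv p), fun h => y h * ∏ p ∈ s', c p ^ m h p, x,
    ?_, ?_, ?_, ?_⟩
  · intro p' hp'
    obtain ⟨p, hp, rfl⟩ := Finset.mem_image.1 hp'
    exact (hass p).symm.irreducible (h1 p (Finset.mem_filter.1 hp).1)
  · intro p' hp' q' hq' hne
    obtain ⟨p, hp, rfl⟩ := Finset.mem_image.1 hp'
    obtain ⟨q, hq, rfl⟩ := Finset.mem_image.1 hq'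
    have hpq : p ≠ q := fun h => hne (by rw [h])
    have h4 := h2 p (Finset.mem_filter.1 hp).1 q (Finset.mem_filter.1 hq).1 hpq
    intro z hz1 hz2
    exact h4 (hz1.trans (hass p).dvd) (hz2.trans (hass q).dvd)
  · intro p' hp'
    obtain ⟨p, hp, rfl⟩ := Finset.mem_image.1 hp'
    obtain ⟨h, hh, hd⟩ := (Finset.mem_filter.1 hp).2
    exact ⟨h, hh, (hass p).dvd.trans hd⟩
  · intro h hh
    obtain ⟨hu0, hfac⟩ := h3 h ((hF h).1 hh)
    have hprod : ∏ p ∈ s, p ^ m h p = ∏ p ∈ s', p ^ m h p := by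
      symm
      apply Finset.prod_subset (Finset.filter_subset _ _)
      intro p hp hp'
      have : m h p = 0 := by
        by_contra h0
        apply hp'
        refine Finset.mem_filter.2 ⟨hp, h, hh, ?_⟩
        rw [hfac]
        exact Dvd.dvd.mul_left ((dvd_pow_self p h0).trans
          (Finset.dvd_prod_of_mem (fun p => p ^ m h p) hp)) _
      rw [this, pow_zero]
    refine ⟨mul_ne_zero (hy h) (Finset.prod_ne_zero_iff.2 fun p _ => pow_ne_zero _ (hc p)), ?_, ?_⟩
    · intro hx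
      have h4 := hxy h
      rw [hx, map_zero] at h4
      rcases mul_eq_zero.1 h4.symm with h5 | h5
      · rw [IsFractionRing.to_map_eq_zero_iff] at h5
        exact hy h h5
      · exact hu0 h5
    · have hprod2 : ∏ p' ∈ s'.image g, p' ^ m h (inv p') = ∏ p ∈ s', g p ^ m h p := by
        rw [Finset.prod_image (fun p hp q hq => hginj p hp q hq)]
        exact Finset.prod_congr rfl (fun p hp => by rw [hinvg p hp])
      apply bh_inj
      show toKK (C (y h * ∏ p ∈ s', c p ^ m h p) * F h) =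
        toKK (C (x h) * ∏ p' ∈ s'.image g, p' ^ m h (inv p'))
      rw [hprod2]
      have e1 : toKK (∏ p ∈ s', g p ^ m h p) =
          ∏ p ∈ s', (C (algebraMap _ (KK κ) (c p)) * p) ^ m h p := by
        rw [map_prod]
        exact Finset.prod_congr rfl (fun p _ => by rw [map_pow, hg])
      have e2 : (C (algebraMap (PowerSeries κ) (KK κ) (∏ p ∈ s', c p ^ m h p)) :
          MvPolynomial (Fin 2) (KK κ)) = ∏ p ∈ s', C (algebraMap _ (KK κ) (c p)) ^ m h p := by
        rw [map_prod, map_prod]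
        exact Finset.prod_congr rfl (fun p _ => by rw [map_pow, map_pow])
      have e3 : (C (algebraMap (PowerSeries κ) (KK κ) (y h * ∏ p ∈ s', c p ^ m h p)) :
          MvPolynomial (Fin 2) (KK κ)) = C (algebraMap _ (KK κ) (y h)) *
            ∏ p ∈ s', C (algebraMap _ (KK κ) (c p)) ^ m h p := by
        rw [map_mul (algebraMap (PowerSeries κ) (KK κ)), map_mul C, e2]
      have e4 : (C (algebraMap (PowerSeries κ) (KK κ) (x h)) :
          MvPolynomial (Fin 2) (KK κ)) = C (algebraMap _ (KK κ) (y h)) * C (u h) := by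
        rw [hxy, map_mul C]
      calc toKK (C (y h * ∏ p ∈ s', c p ^ m h p) * F h)
          = toKK (C (y h * ∏ p ∈ s', c p ^ m h p)) * toKK (F h) := map_mul toKK _ _
        _ = C (algebraMap _ (KK κ) (y h)) * (∏ p ∈ s', C (algebraMap _ (KK κ) (c p)) ^ m h p) *
            (C (u h) * ∏ p ∈ s', p ^ m h p) := by rw [bh_toKK_C, e3, hfac, hprod]
        _ = C (algebraMap _ (KK κ) (y h)) * C (u h) *
            ∏ p ∈ s', (C (algebraMap _ (KK κ) (c p)) * p) ^ m h p := bh_alg s' _ _ _ _ _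
        _ = toKK (C (x h)) * toKK (∏ p ∈ s', g p ^ m h p) := by rw [bh_toKK_C, e4, e1]
        _ = toKK (C (x h) * ∏ p ∈ s', g p ^ m h p) := (map_mul toKK _ _).symm

private lemma bh_scale {a b d : ℕ} {F : MvPolynomial (Fin 2) (PowerSeries κ)}
    (hF : ∀ e, coeff e F ≠ 0 → wt a b e = d) {P P' : Fin 2 → PowerSeries L}
    (h0 : P 0 = PowerSeries.X ^ a * P' 0) (h1 : P 1 = PowerSeries.X ^ b * P' 1) :
    bhE P F = PowerSeries.X ^ d * bhE P' F := by
  rw [bhE_apply, bhE_apply, ev_toAA, ev_toAA, eval₂_eq', eval₂_eq', Finset.mul_sum]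
  refine Finset.sum_congr rfl (fun e he => ?_)
  have hd := hF e (MvPolynomial.mem_support_iff.1 he)
  rw [Fin.prod_univ_two, Fin.prod_univ_two, h0, h1, mul_pow, mul_pow, ← hd]
  unfold wt
  rw [pow_add, pow_mul, pow_mul]
  ring

private lemma bh_order_le {φ : PowerSeries L} (h : φ ≠ 0) :
    φ.order = (φ.order.toNat : ℕ∞) := by
  have : φ.order ≠ ⊤ := by
    rw [Ne, PowerSeries.order_eq_top]
    exact h
  exact (ENat.natCast_toNat this).symm

/-- the bound for the order of one function -/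
private lemma bh_one {s : Finset (MvPolynomial (Fin 2) (PowerSeries κ))}
    {F : MvPolynomial (Fin 2) (PowerSeries κ)} {m : MvPolynomial (Fin 2) (PowerSeries κ) → ℕ}
    {v w : PowerSeries κ} (hw : w ≠ 0) (h : C v * F = C w * ∏ p ∈ s, p ^ m p)
    {P : Fin 2 → PowerSeries L} (hs : ∀ p ∈ s, bhE P p ≠ 0) {n : ℕ}
    (hn : (PowerSeries.X : PowerSeries L) ^ n ∣ bhE P F) :
    n ≤ w.order.toNat + ∑ p ∈ s, m p * (bhE P p).order.toNat := by
  have h1 : (PowerSeries.X : PowerSeries L) ^ n ∣ bhE P (C w * ∏ p ∈ s, p ^ m p) := by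
    rw [← h, map_mul]
    exact Dvd.dvd.mul_left hn _
  rw [map_mul, map_prod, bhE_C, bh_dvd_order, PowerSeries.order_mul, PowerSeries.order_prod] at h1
  have h2 : ∑ p ∈ s, (bhE P (p ^ m p)).order =
      ((∑ p ∈ s, m p * (bhE P p).order.toNat : ℕ) : ℕ∞) := by
    rw [Nat.cast_sum]
    refine Finset.sum_congr rfl (fun p hp => ?_)
    rw [map_pow, PowerSeries.order_pow, nsmul_eq_mul]
    nth_rewrite 1 [bh_order_le (hs p hp)]
    push_cast
    rfl
  rw [h2] at h1
  have h3 := h1.trans (add_le_add_left (bh_map_order (L := L) w hw) _)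
  exact_mod_cast h3

private lemma bh_pow_mono {K K' : ℕ} (h : K ≤ K') {φ : PowerSeries L}
    (h1 : (PowerSeries.X : PowerSeries L) ^ K' ∣ φ) : (PowerSeries.X : PowerSeries L) ^ K ∣ φ :=
  (pow_dvd_pow _ h).trans h1

/-- the bound for the contact with one of the curves -/
private lemma bh_contact {p : MvPolynomial (Fin 2) (PowerSeries κ)} {P : Fin 2 → PowerSeries L}
    {K C r : ℕ} (h : ¬ ((PowerSeries.X : PowerSeries L) ^ K ∣ bhE P (pderiv 0 p) ∧
      (PowerSeries.X : PowerSeries L) ^ K ∣ bhE P (pderiv 1 p))) (hC : Cod κ P C)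
    (hr : (PowerSeries.X : PowerSeries L) ^ r ∣ bhE P p) : r ≤ C + 2 * K + 1 := by
  have h0 : ∃ t < K, PowerSeries.coeff t (ev P (dA 0 (toAA p))) ≠ 0 ∨
      PowerSeries.coeff t (ev P (dA 1 (toAA p))) ≠ 0 := by
    rcases not_and_or.1 h with h1 | h1
    · rw [PowerSeries.X_pow_dvd_iff] at h1
      push Not at h1
      obtain ⟨t, ht, h2⟩ := h1
      refine ⟨t, ht, Or.inl ?_⟩
      rw [dA_toAA]
      exact h2
    · rw [PowerSeries.X_pow_dvd_iff] at h1
      push Not at h1
      obtain ⟨t, ht, h2⟩ := h1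
      refine ⟨t, ht, Or.inr ?_⟩
      rw [dA_toAA]
      exact h2
  obtain ⟨t, ht, h2⟩ := h0
  have h3 := cod_smooth h2 hr hC
  omega

private lemma bh_toKK_pderiv (j : Fin 2) (p : MvPolynomial (Fin 2) (PowerSeries κ)) :
    toKK (pderiv j p) = pderiv j (toKK p) := by
  unfold toKK
  exact (pderiv_map (R := PowerSeries κ)).symm

end

/-- the bound for arcs which are not divisible -/
private lemma bh_bound {κ : Type u} [Field κ] [CharZero κ] {r : ℕ} {J : Type} [Fintype J]
    {a b : ℕ} {mu : Fin r → ℝ} {grp : J → Fin r} {d : Fin r → ℕ}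
    {F : J → MvPolynomial (Fin 2) (PowerSeries κ)}
    (hS : Stt a b mu grp d (fun h => toKK (F h))) :
    ∃ K : ℝ, ∀ (L : Type u) [Field L] [Algebra κ L] (P : Fin 2 → PowerSeries L) (C : ℕ)
      (n : Fin r → ℕ), bhNot a b P → Cod κ P C → OrdGe grp (fun h => toAA (F h)) P n →
      ∑ j, mu j * n j ≤ C + K := by
  classical
  have ha := hS.ha
  have hb : 0 < b := lt_of_lt_of_le ha hS.hab
  have hchar : CharZero (KK κ) := by
    have h1 : Function.Injective ((algebraMap (PowerSeries κ) (KK κ)).comp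
        (PowerSeries.C (R := κ))) := by
      rw [RingHom.coe_comp]
      exact (IsFractionRing.injective (PowerSeries κ) (KK κ)).comp PowerSeries.C_injective
    exact charZero_of_injective_ringHom h1
  have hF0 : ∀ h, toKK (F h) ≠ 0 ↔ F h ≠ 0 := by
    intro h
    rw [← map_zero (toKK (k := κ)), Ne, Ne, bh_inj.eq_iff]
  obtain ⟨s, m, v, w, hirr, hrel, hdiv, hfac⟩ := bh_fac F
  have hhom : ∀ p ∈ s, ∃ e, HomW a b e (toKK p) := by
    intro p hp
    obtain ⟨h, hh, hd⟩ := hdiv p hp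
    exact hom_dvd ha hb ((hF0 h).2 hh) (hS.hom h) hd
  have hk1 : ∀ p q, ∃ K₀ : ℕ, p ∈ s → q ∈ s → p ≠ q → ∀ (L : Type u) [Field L] [Algebra κ L]
      (P : Fin 2 → PowerSeries L), bhNot a b P →
      ¬ ((PowerSeries.X : PowerSeries L) ^ K₀ ∣ bhE P p ∧
        (PowerSeries.X : PowerSeries L) ^ K₀ ∣ bhE P q) := by
    intro p q
    by_cases h : p ∈ s ∧ q ∈ s ∧ p ≠ q
    · obtain ⟨hp, hq, hne⟩ := h
      obtain ⟨e, he⟩ := hhom p hp
      obtain ⟨e', he'⟩ := hhom q hq
      obtain ⟨K₀, hK⟩ := bh_key ha hb he he' (hrel p hp q hq hne)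
      exact ⟨K₀, fun _ _ _ => hK⟩
    · exact ⟨0, fun hp hq hne => absurd ⟨hp, hq, hne⟩ h⟩
  choose k1 hk1 using hk1
  have hk2 : ∀ p, ∃ K₀ : ℕ, p ∈ s → ∀ (L : Type u) [Field L] [Algebra κ L]
      (P : Fin 2 → PowerSeries L), bhNot a b P →
      ¬ ((PowerSeries.X : PowerSeries L) ^ K₀ ∣ bhE P (pderiv 0 p) ∧
        (PowerSeries.X : PowerSeries L) ^ K₀ ∣ bhE P (pderiv 1 p)) := by
    intro p
    by_cases hp : p ∈ s
    · obtain ⟨e, he⟩ := hhom p hp
      have h1 := hom_pderiv he 0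
      have h2 := hom_pderiv he 1
      have h3 := irr_grad ha hb he (hirr p hp)
      rw [← bh_toKK_pderiv] at h1 h2
      rw [← bh_toKK_pderiv, ← bh_toKK_pderiv] at h3
      obtain ⟨K₀, hK⟩ := bh_key ha hb h1 h2 h3
      exact ⟨K₀, fun _ => hK⟩
    · exact ⟨0, fun h => absurd h hp⟩
  choose k2 hk2 using hk2
  let K0 : ℕ := ∑ p ∈ s, ∑ q ∈ s, k1 p q
  let K2 : ℕ := ∑ p ∈ s, k2 p
  let W : ℕ := ∑ h, (w h).order.toNat
  let M : ℕ := ∑ h, ∑ p ∈ s, m h p
  have hK0 : ∀ p ∈ s, ∀ q ∈ s, k1 p q ≤ K0 := by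
    intro p hp q hq
    exact (Finset.single_le_sum (f := fun q => k1 p q) (fun _ _ => Nat.zero_le _) hq).trans
      (Finset.single_le_sum (f := fun p => ∑ q ∈ s, k1 p q) (fun _ _ => Nat.zero_le _) hp)
  have hK2 : ∀ p ∈ s, k2 p ≤ K2 := fun p hp =>
    Finset.single_le_sum (f := fun p => k2 p) (fun _ _ => Nat.zero_le _) hp
  have hW : ∀ h, (w h).order.toNat ≤ W := fun h =>
    Finset.single_le_sum (f := fun h => (w h).order.toNat) (fun _ _ => Nat.zero_le _)
      (Finset.mem_univ h)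
  have hM : ∀ h, ∑ p ∈ s, m h p ≤ M := fun h =>
    Finset.single_le_sum (f := fun h => ∑ p ∈ s, m h p) (fun _ _ => Nat.zero_le _)
      (Finset.mem_univ h)
  refine ⟨(∑ j, mu j) * (W + K0 * M : ℕ) + (2 * K2 + 1 : ℕ), ?_⟩
  intro L _ _ P C n hP hC hn
  have hcon : ∀ p ∈ s, ∀ t, (PowerSeries.X : PowerSeries L) ^ t ∣ bhE P p →
      t ≤ C + 2 * K2 + 1 := by
    intro p hp t ht
    have h1 := bh_contact (hk2 p hp L P hP) hC ht
    have h2 := hK2 p hp
    omega
  have hne : ∀ p ∈ s, bhE P p ≠ 0 := by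
    intro p hp h0
    have := hcon p hp (C + 2 * K2 + 2) (by rw [h0]; exact dvd_zero _)
    omega
  have hone : ∀ h, F h ≠ 0 → n (grp h) ≤ (w h).order.toNat +
      ∑ p ∈ s, m h p * (bhE P p).order.toNat := by
    intro h hh
    obtain ⟨-, hw, hf⟩ := hfac h hh
    exact bh_one hw hf hne (hn h)
  have hmu0 : ∀ j, 0 ≤ mu j := fun j => (hS.hmu j).le
  have hsmall : ∀ p : MvPolynomial (Fin 2) (PowerSeries κ),
      ¬ (PowerSeries.X : PowerSeries L) ^ K0 ∣ bhE P p → (bhE P p).order.toNat ≤ K0 := by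
    intro p hp
    by_contra hcon
    exact hp (bh_pow_mono (by omega) PowerSeries.X_pow_order_dvd)
  by_cases hA : ∀ p ∈ s, ¬ (PowerSeries.X : PowerSeries L) ^ K0 ∣ bhE P p
  · have h1 : ∀ j, n j ≤ W + K0 * M := by
      intro j
      obtain ⟨h, rfl, hh⟩ := hS.ne j
      refine (hone h ((hF0 h).1 hh)).trans (add_le_add (hW h) ?_)
      refine (Finset.sum_le_sum (fun p hp => Nat.mul_le_mul_left _ (hsmall p (hA p hp)))).trans ?_
      rw [← Finset.sum_mul, mul_comm]
      exact Nat.mul_le_mul_left _ (hM h)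
    have h2 : ∑ j, mu j * n j ≤ ∑ j, mu j * (W + K0 * M : ℕ) :=
      Finset.sum_le_sum (fun j _ => mul_le_mul_of_nonneg_left (by exact_mod_cast h1 j) (hmu0 j))
    rw [← Finset.sum_mul] at h2
    have h3 : (0 : ℝ) ≤ (2 * K2 + 1 : ℕ) := Nat.cast_nonneg _
    have h4 : (0 : ℝ) ≤ C := Nat.cast_nonneg _
    linarith
  · push Not at hA
    obtain ⟨p₀, hp₀, hd₀⟩ := hA
    have hother : ∀ q ∈ s, q ≠ p₀ → (bhE P q).order.toNat ≤ K0 := by
      intro q hq hqp
      apply hsmall
      intro hdq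
      exact hk1 p₀ q hp₀ hq hqp.symm L P hP ⟨bh_pow_mono (hK0 _ hp₀ _ hq) hd₀,
        bh_pow_mono (hK0 _ hp₀ _ hq) hdq⟩
    obtain ⟨B, hB, hB1⟩ := hS.wk (toKK p₀) (hirr p₀ hp₀)
    let R : ℕ := (bhE P p₀).order.toNat
    have hR : R ≤ C + 2 * K2 + 1 := hcon p₀ hp₀ _ PowerSeries.X_pow_order_dvd
    have h1 : ∀ j, n j ≤ (W + K0 * M) + B j * R := by
      intro j
      obtain ⟨h, rfl, hh⟩ := hB j
      have hF : toKK (F h) ≠ 0 := by
        intro h0
        apply hh
        show toKK p₀ ^ (B (grp h) + 1) ∣ toKK (F h)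
        rw [h0]
        exact dvd_zero _
      have hFh := (hF0 h).1 hF
      obtain ⟨hv, hw, hf⟩ := hfac h hFh
      have hmB : m h p₀ ≤ B (grp h) := by
        apply mult_le hh
        show toKK p₀ ^ m h p₀ ∣ toKK (F h)
        have h5 := congrArg toKK hf
        rw [map_mul toKK, map_mul toKK, map_prod toKK] at h5
        have h6 : toKK p₀ ^ m h p₀ ∣ toKK (MvPolynomial.C (v h)) * toKK (F h) := by
          rw [h5]
          refine Dvd.dvd.mul_left ?_ _
          rw [← map_pow]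
          exact Finset.dvd_prod_of_mem (fun p => toKK (p ^ m h p)) hp₀
        have h7 : IsUnit (toKK (MvPolynomial.C (v h))) := by
          rw [bh_toKK_C]
          have : algebraMap (PowerSeries κ) (KK κ) (v h) ≠ 0 := by
            rw [Ne, IsFractionRing.to_map_eq_zero_iff]
            exact hv
          exact (IsUnit.mk0 _ this).map MvPolynomial.C
        exact (h7.dvd_mul_left).1 h6
      have h8 : ∑ p ∈ s, m h p * (bhE P p).order.toNat ≤ K0 * M + B (grp h) * R := by
        rw [← Finset.add_sum_erase s _ hp₀]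
        have h9 : ∑ p ∈ s.erase p₀, m h p * (bhE P p).order.toNat ≤ K0 * M := by
          refine (Finset.sum_le_sum (fun p hp => Nat.mul_le_mul_left _
            (hother p (Finset.mem_of_mem_erase hp) (Finset.ne_of_mem_erase hp)))).trans ?_
          rw [← Finset.sum_mul, mul_comm]
          refine Nat.mul_le_mul_left _ (le_trans ?_ (hM h))
          exact Finset.sum_le_sum_of_subset (Finset.erase_subset _ _)
        have h10 : m h p₀ * (bhE P p₀).order.toNat ≤ B (grp h) * R := Nat.mul_le_mul_right _ hmB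
        omega
      have h11 := hone h hFh
      have h12 := hW h
      omega
    have h2 : ∑ j, mu j * n j ≤ ∑ j, (mu j * (W + K0 * M : ℕ) + mu j * B j * R) := by
      refine Finset.sum_le_sum (fun j _ => ?_)
      have h3 : (n j : ℝ) ≤ (W + K0 * M : ℕ) + B j * R := by exact_mod_cast h1 j
      have h4 := mul_le_mul_of_nonneg_left h3 (hmu0 j)
      linarith
    rw [Finset.sum_add_distrib, ← Finset.sum_mul, ← Finset.sum_mul] at h2
    have h3 : (∑ j, mu j * B j) * (R : ℝ) ≤ 1 * R :=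
      mul_le_mul_of_nonneg_right hB1 (Nat.cast_nonneg _)
    have h4 : (R : ℝ) ≤ C + (2 * K2 + 1 : ℕ) := by exact_mod_cast (by omega : R ≤ C + (2 * K2 + 1))
    linarith

theorem block_H {κ : Type u} [Field κ] [CharZero κ] {r : ℕ} {J : Type} [Fintype J]
    {a b : ℕ} {mu : Fin r → ℝ} {grp : J → Fin r} {d : Fin r → ℕ}
    {F : J → MvPolynomial (Fin 2) (PowerSeries κ)}
    (hS : Stt a b mu grp d (fun h => toKK (F h))) : LowB mu grp (fun h => toAA (F h)) := by
  obtain ⟨K, hK⟩ := bh_bound hS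
  refine ⟨K, ?_⟩
  intro L _ _ P C
  induction C using Nat.strong_induction_on generalizing P with
  | _ C ih =>
  intro n hC hn
  by_cases hP : bhNot a b P
  · have := hK L P C n hP hC hn
    linarith
  · unfold bhNot at hP
    push Not at hP
    obtain ⟨⟨Q0, h0⟩, ⟨Q1, h1⟩⟩ := hP
    let Q : Fin 2 → PowerSeries L := ![Q0, Q1]
    have hQ0 : P 0 = PowerSeries.X ^ a * Q 0 := h0
    have hQ1 : P 1 = PowerSeries.X ^ b * Q 1 := h1
    have hPQ : (fun j => ev Q (chA (0 : PowerSeries κ) 0 a b j)) = P := by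
      funext j
      fin_cases j
      · show ev Q (cA 0 + PowerSeries.X ^ a * xA 0) = P 0
        rw [ev_add, ev_mul, ev_pow, ev_X, ev_xA, map_zero, ev_zero, zero_add, hQ0]
      · show ev Q ((0 : Polynomial (PowerSeries κ)).eval₂ cA (xA 0) +
          PowerSeries.X ^ b * xA 1) = P 1
        rw [Polynomial.eval₂_zero, ev_add, ev_mul, ev_pow, ev_X, ev_xA, ev_zero, zero_add, hQ1]
    rw [← hPQ] at hC
    obtain ⟨hab, hC'⟩ := cod_chA_inv 0 0 a b (fun j _ => by
      rw [Polynomial.coeff_zero]; exact dvd_zero _) hC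
    have ha := hS.ha
    have hn' : OrdGe grp (fun h => toAA (F h)) Q (fun j => n j - d j) := by
      intro h
      have h2 := hn h
      have h3 : ev P (toAA (F h)) = PowerSeries.X ^ d (grp h) * ev Q (toAA (F h)) := by
        refine bh_scale (a := a) (b := b) ?_ hQ0 hQ1
        intro e he
        apply hS.hom h e
        show coeff e (toKK (F h)) ≠ 0
        unfold toKK
        rw [coeff_map, Ne, IsFractionRing.to_map_eq_zero_iff]
        exact he
      show (PowerSeries.X : PowerSeries L) ^ (n (grp h) - d (grp h)) ∣ ev Q (toAA (F h))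
      rcases Nat.le_total (n (grp h)) (d (grp h)) with h4 | h4
      · rw [Nat.sub_eq_zero_of_le h4, pow_zero]
        exact one_dvd _
      · have h5 : (PowerSeries.X : PowerSeries L) ^ n (grp h) ∣ ev P (toAA (F h)) := h2
        rw [h3] at h5
        have h6 : n (grp h) = d (grp h) + (n (grp h) - d (grp h)) := by omega
        rw [h6, pow_add] at h5
        exact (mul_dvd_mul_iff_left (pow_ne_zero _ PowerSeries.X_ne_zero)).1 h5
    have h7 := ih (C - a - b) (by omega) Q (fun j => n j - d j) hC' hn'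
    have h8 : ∑ j, mu j * (n j : ℝ) ≤
        ∑ j, (mu j * ((n j - d j : ℕ) : ℝ) + mu j * (d j : ℝ)) := by
      refine Finset.sum_le_sum (fun j _ => ?_)
      rw [← mul_add]
      refine mul_le_mul_of_nonneg_left ?_ (hS.hmu j).le
      exact_mod_cast (by omega : n j ≤ (n j - d j) + d j)
    rw [Finset.sum_add_distrib, hS.sum] at h8
    have h9 : ((C - a - b : ℕ) : ℝ) = (C : ℝ) - a - b := by
      rw [Nat.sub_sub, Nat.cast_sub hab]
      push_cast
      ring
    rw [h9] at h7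
    linarith

end M3
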