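import Pool.Agent.M3.GmA
import Pool.Agent.M3.Mc

/-!
PIECE M3-L02: limits of functions and arcs.

PROOF. `IsLim c f` says: for every `m` the polynomials `coeff m (c i)` have bounded degree for almost all `i` and their
coefficientwise limit is `coeff m f`.  `isLim_of_bdd`: define `coeff e (coeff m f) := gm ..`; for given `m` only
finitely many `e` (total degree `≤ D`) give a nonzero class.  `IsLim.mul`: `coeff m (c * c')` is the finite sum of
products, use `eval₂_gm`-like arguments or directly: the coefficient of `x^e` in a product of polynomials is a finite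
sum over the antidiagonal of `e`, and `gm_sum`, `gm_mul`.  `IsLim.ev`: `coeff m (ev χ f) = ∑_(p) coeff p.2 (aeval χ (coeff p.1 f))`,
and for a polynomial `q = ∑ q_e x^e` of degree `≤ D` `aeval χ q = ∑_(|e| ≤ D) cA? (q_e) χ_0^(e 0) χ_1^(e 1)`, a finite sum of
products of limits (use `IsLim.mul`, `IsLim.add`, constants `PowerSeries.C (C (q_e))`).
`lim_ev`: the same with values in `Gm (Om k)`: the coefficient of `τ^n` in `ev Q f` is a finite sum of products of
coefficients of `Q` and of `f`.
-/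

open MvPolynomial

namespace M3

universe u

section
variable {k : Type u} [Field k]

/-- limits of power series in one variable -/
def IsLimS (z : ℕ → PowerSeries k) (w : PowerSeries (Gm k)) : Prop :=
  ∀ m, PowerSeries.coeff m w = gm fun i => PowerSeries.coeff m (z i)

theorem exists_seqS (w : PowerSeries (Gm k)) : ∃ z : ℕ → PowerSeries k, IsLimS z w := by
  choose g hg using fun m => gm_surj (PowerSeries.coeff m w)
  exact ⟨fun i => PowerSeries.mk fun m => g m i, fun m => by
    simp only [PowerSeries.coeff_mk]; exact (hg m).symm⟩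

theorem exists_limS (z : ℕ → PowerSeries k) : ∃ w, IsLimS z w :=
  ⟨PowerSeries.mk fun m => gm fun i => PowerSeries.coeff m (z i), fun m => by
    rw [PowerSeries.coeff_mk]⟩

theorem isLimS_dvd {z : ℕ → PowerSeries k} {w : PowerSeries (Gm k)} (h : IsLimS z w) (N : ℕ) :
    (PowerSeries.X : PowerSeries (Gm k)) ^ N ∣ w ↔
      ∀ᶠ i in Uf, (PowerSeries.X : PowerSeries k) ^ N ∣ z i := by
  have h1 : ∀ i, (PowerSeries.X : PowerSeries k) ^ N ∣ z i ↔
      ∀ m ∈ Finset.range N, PowerSeries.coeff m (z i) = 0 := fun i => by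
    rw [PowerSeries.X_pow_dvd_iff]
    exact forall_congr' fun m => by rw [Finset.mem_range]
  rw [PowerSeries.X_pow_dvd_iff]
  simp only [h1]
  rw [Filter.eventually_all_finset]
  refine forall_congr' fun m => ?_
  rw [Finset.mem_range, h m]
  exact forall_congr' fun _ => gm_eq_zero

theorem IsLimS.add {z z' : ℕ → PowerSeries k} {w w' : PowerSeries (Gm k)} (h : IsLimS z w)
    (h' : IsLimS z' w') : IsLimS (fun i => z i + z' i) (w + w') := by
  intro m
  rw [map_add, h m, h' m, ← gm_add]
  exact congrArg gm (funext fun i => (map_add (PowerSeries.coeff m) (z i) (z' i)).symm)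

theorem IsLimS.mul {z z' : ℕ → PowerSeries k} {w w' : PowerSeries (Gm k)} (h : IsLimS z w)
    (h' : IsLimS z' w') : IsLimS (fun i => z i * z' i) (w * w') := by
  intro m
  have h1 : (fun i => PowerSeries.coeff m (z i * z' i)) = fun i =>
      ∑ p ∈ Finset.HasAntidiagonal.antidiagonal m, (fun (p : ℕ × ℕ) i =>
        PowerSeries.coeff p.1 (z i) * PowerSeries.coeff p.2 (z' i)) p i :=
    funext fun i => PowerSeries.coeff_mul m (z i) (z' i)
  rw [PowerSeries.coeff_mul, h1, gm_sum]
  refine Finset.sum_congr rfl fun p _ => ?_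
  rw [h p.1, h' p.2, ← gm_mul]

theorem IsLimS.X_pow (N : ℕ) : IsLimS (fun _ => (PowerSeries.X : PowerSeries k) ^ N)
    ((PowerSeries.X : PowerSeries (Gm k)) ^ N) := by
  intro m
  simp only [PowerSeries.coeff_X_pow]
  split_ifs
  · exact gm_one.symm
  · exact gm_zero.symm

/-- the limit of a constant coefficient -/
private theorem limS_C (a : ℕ → k) : IsLimS (fun i => PowerSeries.C (a i))
    (PowerSeries.C (gm a)) := by
  intro m
  simp only [PowerSeries.coeff_C]
  split_ifs
  · rfl
  · exact gm_zero.symm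

private theorem limS_one : IsLimS (fun _ => (1 : PowerSeries k)) (1 : PowerSeries (Gm k)) := by
  have h := IsLimS.X_pow (k := k) 0
  simpa using h

private theorem limS_pow {z : ℕ → PowerSeries k} {w : PowerSeries (Gm k)} (h : IsLimS z w)
    (n : ℕ) : IsLimS (fun i => z i ^ n) (w ^ n) := by
  induction n with
  | zero => simpa using limS_one (k := k)
  | succ n ih =>
    simp only [pow_succ]
    exact ih.mul h

private theorem limS_zero : IsLimS (fun _ => (0 : PowerSeries k)) (0 : PowerSeries (Gm k)) := by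
  intro m
  simp only [map_zero]
  exact gm_zero.symm

private theorem limS_sum {ι : Type*} (S : Finset ι) (z : ι → ℕ → PowerSeries k)
    (w : ι → PowerSeries (Gm k)) (h : ∀ e ∈ S, IsLimS (z e) (w e)) :
    IsLimS (fun i => ∑ e ∈ S, z e i) (∑ e ∈ S, w e) := by
  classical
  induction S using Finset.induction_on with
  | empty => simpa using limS_zero (k := k)
  | insert a S ha ih =>
    simp only [Finset.sum_insert ha]
    exact (h a (Finset.mem_insert_self a S)).add
      (ih fun e he => h e (Finset.mem_insert_of_mem he))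

/-- limits of polynomials of bounded degree -/
def LimPoly (p : ℕ → MvPolynomial (Fin 2) k) (q : MvPolynomial (Fin 2) (Gm k)) : Prop :=
  (∃ D : ℕ, ∀ᶠ i in Uf, (p i).totalDegree ≤ D) ∧ ∀ e, coeff e q = gm fun i => coeff e (p i)

private theorem lim_iff {c : ℕ → AA k} {f : AA (Gm k)} : IsLim c f ↔
    ∀ m, LimPoly (fun i => PowerSeries.coeff m (c i)) (PowerSeries.coeff m f) := Iff.rfl

private theorem limPoly_zero : LimPoly (fun _ => (0 : MvPolynomial (Fin 2) k)) 0 :=
  ⟨⟨0, Filter.Eventually.of_forall fun _ => by rw [totalDegree_zero]⟩, fun e => by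
    simp only [coeff_zero]
    exact gm_zero.symm⟩

private theorem limPoly_C (a : ℕ → k) : LimPoly (fun i => C (a i)) (C (gm a)) := by
  classical
  refine ⟨⟨0, Filter.Eventually.of_forall fun _ => by rw [totalDegree_C]⟩, fun e => ?_⟩
  simp only [coeff_C]
  split_ifs
  · rfl
  · exact gm_zero.symm

private theorem limPoly_X (j : Fin 2) : LimPoly (fun _ => (X j : MvPolynomial (Fin 2) k))
    (X j) := by
  classical
  refine ⟨⟨1, Filter.Eventually.of_forall fun _ => by rw [totalDegree_X]⟩, fun e => ?_⟩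
  simp only [coeff_X']
  split_ifs
  · exact gm_one.symm
  · exact gm_zero.symm

private theorem limPoly_add {p p' : ℕ → MvPolynomial (Fin 2) k}
    {q q' : MvPolynomial (Fin 2) (Gm k)} (h : LimPoly p q) (h' : LimPoly p' q') :
    LimPoly (fun i => p i + p' i) (q + q') := by
  obtain ⟨⟨D, hD⟩, h1⟩ := h
  obtain ⟨⟨D', hD'⟩, h1'⟩ := h'
  refine ⟨⟨max D D', ?_⟩, fun e => ?_⟩
  · filter_upwards [hD, hD'] with i h2 h3
    exact (totalDegree_add _ _).trans (max_le_max h2 h3)
  · simp only [coeff_add, h1, h1']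
    exact (gm_add _ _).symm

private theorem limPoly_mul {p p' : ℕ → MvPolynomial (Fin 2) k}
    {q q' : MvPolynomial (Fin 2) (Gm k)} (h : LimPoly p q) (h' : LimPoly p' q') :
    LimPoly (fun i => p i * p' i) (q * q') := by
  classical
  obtain ⟨⟨D, hD⟩, h1⟩ := h
  obtain ⟨⟨D', hD'⟩, h1'⟩ := h'
  refine ⟨⟨D + D', ?_⟩, fun e => ?_⟩
  · filter_upwards [hD, hD'] with i h2 h3
    exact (totalDegree_mul _ _).trans (add_le_add h2 h3)
  · have h2 : (fun i => coeff e (p i * p' i)) = fun i =>
        ∑ x ∈ Finset.HasAntidiagonal.antidiagonal e, (fun (x : (Fin 2 →₀ ℕ) × (Fin 2 →₀ ℕ)) i =>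
          coeff x.1 (p i) * coeff x.2 (p' i)) x i :=
      funext fun i => coeff_mul (p i) (p' i) e
    rw [coeff_mul, h2, gm_sum]
    refine Finset.sum_congr rfl fun x _ => ?_
    rw [h1 x.1, h1' x.2, ← gm_mul]

private theorem limPoly_sum {ι : Type*} (S : Finset ι) (p : ι → ℕ → MvPolynomial (Fin 2) k)
    (q : ι → MvPolynomial (Fin 2) (Gm k)) (h : ∀ e ∈ S, LimPoly (p e) (q e)) :
    LimPoly (fun i => ∑ e ∈ S, p e i) (∑ e ∈ S, q e) := by
  classical
  induction S using Finset.induction_on with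
  | empty => simpa using limPoly_zero (k := k)
  | insert a S ha ih =>
    simp only [Finset.sum_insert ha]
    exact limPoly_add (h a (Finset.mem_insert_self a S))
      (ih fun e he => h e (Finset.mem_insert_of_mem he))

private theorem limPoly_congr {p p' : ℕ → MvPolynomial (Fin 2) k}
    {q : MvPolynomial (Fin 2) (Gm k)} (h : LimPoly p q) (h' : ∀ᶠ i in Uf, p i = p' i) :
    LimPoly p' q := by
  obtain ⟨⟨D, hD⟩, h1⟩ := h
  refine ⟨⟨D, ?_⟩, fun e => ?_⟩
  · filter_upwards [hD, h'] with i h2 h3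
    rwa [← h3]
  · rw [h1 e, gm_eq]
    filter_upwards [h'] with i h3
    rw [h3]

/-- the exponents in a box -/
private noncomputable def limBox (D : ℕ) : Finset (Fin 2 →₀ ℕ) :=
  Finset.Iic (Finsupp.equivFunOnFinite.symm fun _ => D)

private theorem limBox_coeff {R : Type*} [CommRing R] {D : ℕ} {p : MvPolynomial (Fin 2) R}
    (h : p.totalDegree ≤ D) {e : Fin 2 →₀ ℕ} (he : e ∉ limBox D) : coeff e p = 0 := by
  refine coeff_eq_zero_of_totalDegree_lt ?_
  unfold limBox at he
  rw [Finset.mem_Iic, Finsupp.le_def] at he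
  push_neg at he
  obtain ⟨j, hj⟩ := he
  have h1 : D < e j := by simpa using hj
  refine (h.trans_lt h1).trans_le ?_
  refine Finset.single_le_sum (f := fun i => e i) (fun _ _ => Nat.zero_le _) ?_
  rw [Finsupp.mem_support_iff]
  omega

private theorem limBox_sum {R : Type*} [CommRing R] {D : ℕ} {p : MvPolynomial (Fin 2) R}
    (h : ∀ e, e ∉ limBox D → coeff e p = 0) :
    p = ∑ e ∈ limBox D, monomial e (coeff e p) := by
  classical
  ext e
  rw [coeff_sum]
  simp only [coeff_monomial]
  rw [Finset.sum_ite_eq']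
  split_ifs with h1
  · rfl
  · exact h e h1

private theorem limPoly_box {p : ℕ → MvPolynomial (Fin 2) k} {q : MvPolynomial (Fin 2) (Gm k)}
    (h : LimPoly p q) : ∃ D, (∀ᶠ i in Uf, p i = ∑ e ∈ limBox D, monomial e (coeff e (p i))) ∧
      q = ∑ e ∈ limBox D, monomial e (gm fun i => coeff e (p i)) := by
  obtain ⟨⟨D, hD⟩, h1⟩ := h
  refine ⟨D, ?_, ?_⟩
  · filter_upwards [hD] with i h2
    exact limBox_sum fun e he => limBox_coeff h2 he
  · have h2 : ∀ e, e ∉ limBox D → coeff e q = 0 := fun e he => by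
      rw [h1 e, gm_eq_zero]
      filter_upwards [hD] with i h3
      exact limBox_coeff h3 he
    refine (limBox_sum h2).trans (Finset.sum_congr rfl fun e _ => ?_)
    rw [h1 e]

/-- the limit of monomial coefficients -/
theorem IsLim.mc {c : ℕ → AA k} {f : AA (Gm k)} (h : IsLim c f) (e : Fin 2 →₀ ℕ) :
    IsLimS (fun i => mc (c i) e) (mc f e) := by
  intro m
  simp only [coeff_mc]
  exact (h m).2 e

theorem IsLim.unique {c : ℕ → AA k} {f g : AA (Gm k)} (h : IsLim c f) (h' : IsLim c g) :
    f = g := by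
  ext m e
  rw [(h m).2 e, (h' m).2 e]

theorem IsLim.congr {c c' : ℕ → AA k} {f : AA (Gm k)} (h : IsLim c f)
    (hc : ∀ m, ∀ᶠ i in Uf, PowerSeries.coeff m (c i) = PowerSeries.coeff m (c' i)) :
    IsLim c' f := fun m => limPoly_congr (h m) (hc m)

theorem isLim_of_bdd (c : ℕ → AA k)
    (h : ∀ m, ∃ D : ℕ, ∀ᶠ i in Uf, (PowerSeries.coeff m (c i)).totalDegree ≤ D) :
    ∃ f, IsLim c f := by
  classical
  choose D hD using h
  refine ⟨PowerSeries.mk fun m => ∑ e ∈ limBox (D m), monomial e
    (gm fun i => coeff e (PowerSeries.coeff m (c i))), fun m => ⟨⟨D m, hD m⟩, fun e => ?_⟩⟩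
  rw [PowerSeries.coeff_mk, coeff_sum]
  simp only [coeff_monomial]
  rw [Finset.sum_ite_eq']
  split_ifs with h1
  · rfl
  · refine (gm_eq_zero.2 ?_).symm
    filter_upwards [hD m] with i h3
    exact limBox_coeff h3 h1

theorem exists_isLim (f : AA (Gm k)) : ∃ c : ℕ → AA k, IsLim c f := by
  choose F hF1 hF2 using fun m => exists_rep (PowerSeries.coeff m f)
  refine ⟨fun i => PowerSeries.mk fun m => F m i, fun m => ⟨⟨(PowerSeries.coeff m f).totalDegree,
    Filter.Eventually.of_forall fun i => ?_⟩, fun e => ?_⟩⟩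
  · rw [PowerSeries.coeff_mk]
    exact Finset.sup_mono (hF1 m i)
  · simp only [PowerSeries.coeff_mk]
    exact hF2 m e

theorem IsLim.add {c c' : ℕ → AA k} {f f' : AA (Gm k)} (h : IsLim c f) (h' : IsLim c' f') :
    IsLim (fun i => c i + c' i) (f + f') := by
  rw [lim_iff]
  intro m
  simp only [map_add]
  exact limPoly_add (h m) (h' m)

theorem IsLim.mul {c c' : ℕ → AA k} {f f' : AA (Gm k)} (h : IsLim c f) (h' : IsLim c' f') :
    IsLim (fun i => c i * c' i) (f * f') := by
  rw [lim_iff]
  intro m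
  simp only [PowerSeries.coeff_mul]
  exact limPoly_sum _ (fun (x : ℕ × ℕ) i => PowerSeries.coeff x.1 (c i) *
    PowerSeries.coeff x.2 (c' i)) _ fun x _ => limPoly_mul (h x.1) (h' x.2)

theorem IsLim.cA {z : ℕ → PowerSeries k} {w : PowerSeries (Gm k)} (h : IsLimS z w) :
    IsLim (fun i => cA (z i)) (cA w) := by
  rw [lim_iff]
  intro m
  have h1 : PowerSeries.coeff m (M3.cA w) = C (gm fun i => PowerSeries.coeff m (z i)) := by
    rw [← h m]
    exact PowerSeries.coeff_map _ _ _
  have h2 : (fun i => PowerSeries.coeff m (M3.cA (z i))) =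
      fun i => (C (PowerSeries.coeff m (z i)) : MvPolynomial (Fin 2) k) :=
    funext fun i => PowerSeries.coeff_map _ _ _
  rw [h1, h2]
  exact limPoly_C _

theorem IsLim.xA (j : Fin 2) : IsLim (fun _ => (xA j : AA k)) (xA j) := by
  rw [lim_iff]
  intro m
  unfold M3.xA
  simp only [PowerSeries.coeff_C]
  split_ifs
  · exact limPoly_X j
  · exact limPoly_zero

theorem IsLim.X_pow (N : ℕ) : IsLim (fun _ => (PowerSeries.X : AA k) ^ N)
    ((PowerSeries.X : AA (Gm k)) ^ N) := by
  rw [lim_iff]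
  intro m
  simp only [PowerSeries.coeff_X_pow]
  split_ifs
  · have h := limPoly_C (fun _ => (1 : k))
    rw [gm_one] at h
    simpa using h
  · exact limPoly_zero

private theorem lim_zero : IsLim (fun _ => (0 : AA k)) (0 : AA (Gm k)) := by
  rw [lim_iff]
  intro m
  simpa using limPoly_zero (k := k)

private theorem lim_pow {c : ℕ → AA k} {f : AA (Gm k)} (h : IsLim c f) (n : ℕ) :
    IsLim (fun i => c i ^ n) (f ^ n) := by
  induction n with
  | zero => simpa using IsLim.X_pow (k := k) 0
  | succ n ih =>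
    simp only [pow_succ]
    exact ih.mul h

private theorem lim_sum {ι : Type*} (S : Finset ι) (c : ι → ℕ → AA k)
    (f : ι → AA (Gm k)) (h : ∀ e ∈ S, IsLim (c e) (f e)) :
    IsLim (fun i => ∑ e ∈ S, c e i) (∑ e ∈ S, f e) := by
  classical
  induction S using Finset.induction_on with
  | empty => simpa using lim_zero (k := k)
  | insert a S ha ih =>
    simp only [Finset.sum_insert ha]
    exact (h a (Finset.mem_insert_self a S)).add
      (ih fun e he => h e (Finset.mem_insert_of_mem he))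

private theorem lim_aeval_monomial {R S : Type*} [CommRing R] [CommRing S] [Algebra R S]
    (χ : Fin 2 → S) (e : Fin 2 →₀ ℕ) (a : R) :
    aeval χ (monomial e a) = algebraMap R S a * (χ 0 ^ e 0 * χ 1 ^ e 1) := by
  rw [aeval_monomial, Finsupp.prod_fintype _ _ (fun _ => pow_zero _), Fin.prod_univ_two]

/-- substitution into polynomials commutes with limits -/
private theorem lim_aeval {χ' : ℕ → Fin 2 → AA k} {χ : Fin 2 → AA (Gm k)}
    (hχ : ∀ j, IsLim (fun i => χ' i j) (χ j)) {p : ℕ → MvPolynomial (Fin 2) k}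
    {q : MvPolynomial (Fin 2) (Gm k)} (h : LimPoly p q) :
    IsLim (fun i => aeval (χ' i) (p i)) (aeval χ q) := by
  obtain ⟨D, h1, h2⟩ := limPoly_box h
  rw [h2, map_sum]
  refine IsLim.congr (c := fun i => ∑ e ∈ limBox D, aeval (χ' i) (monomial e (coeff e (p i))))
    (lim_sum _ (fun e i => aeval (χ' i) (monomial e (coeff e (p i)))) _ fun e _ => ?_)
    fun m => ?_
  · simp only [lim_aeval_monomial]
    refine IsLim.mul ?_ ((lim_pow (hχ 0) (e 0)).mul (lim_pow (hχ 1) (e 1)))
    have h3 := IsLim.cA (limS_C fun i => coeff e (p i))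
    have h4 : ∀ {R : Type u} [CommRing R] (a : R),
        M3.cA (PowerSeries.C a) = algebraMap R (AA R) a := fun a => by
      unfold M3.cA
      rw [PowerSeries.map_C, PowerSeries.algebraMap_apply]
      rfl
    simp only [h4] at h3
    exact h3
  · filter_upwards [h1] with i h3
    conv_rhs => rw [h3]
    exact congrArg _ (map_sum (aeval (χ' i)) _ _).symm

/-- substitution commutes with limits -/
theorem IsLim.ev {χ' : ℕ → Fin 2 → AA k} {χ : Fin 2 → AA (Gm k)}
    (hχ : ∀ j, IsLim (fun i => χ' i j) (χ j)) {c : ℕ → AA k} {f : AA (Gm k)} (h : IsLim c f) :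
    IsLim (fun i => ev (χ' i) (c i)) (ev χ f) := by
  rw [lim_iff]
  intro m
  simp only [coeff_ev]
  exact limPoly_sum _ (fun (x : ℕ × ℕ) i => PowerSeries.coeff x.2
    (aeval (χ' i) (PowerSeries.coeff x.1 (c i)))) _ fun x _ => lim_aeval hχ (h x.1) x.2

theorem isLim_dvd {c : ℕ → AA k} {f : AA (Gm k)} (h : IsLim c f) (N : ℕ) :
    (PowerSeries.X : AA (Gm k)) ^ N ∣ f ↔ ∀ᶠ i in Uf, (PowerSeries.X : AA k) ^ N ∣ c i := by
  have h1 : ∀ i, (PowerSeries.X : AA k) ^ N ∣ c i ↔
      ∀ m ∈ Finset.range N, PowerSeries.coeff m (c i) = 0 := fun i => by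
    rw [PowerSeries.X_pow_dvd_iff]
    exact forall_congr' fun m => by rw [Finset.mem_range]
  rw [PowerSeries.X_pow_dvd_iff]
  simp only [h1]
  rw [Filter.eventually_all_finset]
  refine forall_congr' fun m => ?_
  rw [Finset.mem_range]
  refine forall_congr' fun _ => ⟨fun h2 => ?_, fun h2 => ?_⟩
  · obtain ⟨⟨D, hD⟩, h3⟩ := h m
    refine poly_eventually_zero hD fun e => ?_
    rw [← h3 e, h2, coeff_zero]
  · ext e
    rw [(h m).2 e, coeff_zero, gm_eq_zero]
    filter_upwards [h2] with i h3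
    rw [h3, coeff_zero]

/-- division by powers of `τ` commutes with limits -/
theorem IsLim.div {c c' : ℕ → AA k} {f : AA (Gm k)} (h : IsLim c f) (N : ℕ)
    (hc : ∀ᶠ i in Uf, c i = PowerSeries.X ^ N * c' i) :
    ∃ f', f = PowerSeries.X ^ N * f' ∧ IsLim c' f' := by
  obtain ⟨f', hf'⟩ := (isLim_dvd h N).2 (by
    filter_upwards [hc] with i h1
    exact ⟨_, h1⟩)
  refine ⟨f', hf', fun m => ?_⟩
  have h1 := h (m + N)
  have h2 : PowerSeries.coeff (m + N) f = PowerSeries.coeff m f' := by
    rw [hf', PowerSeries.coeff_X_pow_mul]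
  rw [h2] at h1
  refine limPoly_congr h1 ?_
  filter_upwards [hc] with i h3
  rw [h3, PowerSeries.coeff_X_pow_mul]

/-- evaluation of polynomials at arcs commutes with limits -/
private theorem limS_aeval {P : ℕ → Fin 2 → PowerSeries (Om k)}
    {Q : Fin 2 → PowerSeries (Gm (Om k))} (hP : ∀ j, IsLimS (fun i => P i j) (Q j))
    {p : ℕ → MvPolynomial (Fin 2) k} {q : MvPolynomial (Fin 2) (Gm k)} (h : LimPoly p q) :
    IsLimS (fun i => aeval (P i) (p i)) (aeval Q q) := by
  obtain ⟨D, h1, h2⟩ := limPoly_box h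
  have h5 : IsLimS (fun i => ∑ e ∈ limBox D, aeval (P i) (monomial e (coeff e (p i))))
      (∑ e ∈ limBox D, aeval Q (monomial e (gm fun i => coeff e (p i)))) := by
    refine limS_sum _ (fun e i => aeval (P i) (monomial e (coeff e (p i)))) _ fun e _ => ?_
    simp only [lim_aeval_monomial]
    refine IsLimS.mul ?_ ((limS_pow (hP 0) (e 0)).mul (limS_pow (hP 1) (e 1)))
    have h3 := limS_C fun i => algebraMap k (Om k) (coeff e (p i))
    rw [← algebraMap_gm] at h3
    simp only [PowerSeries.algebraMap_apply]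
    exact h3
  intro m
  have h6 := h5 m
  rw [h2, map_sum, h6, gm_eq]
  filter_upwards [h1] with i h3
  conv_rhs => rw [h3]
  exact congrArg _ (map_sum (aeval (P i)) _ _).symm

/-- evaluation at arcs commutes with limits -/
theorem lim_ev {c : ℕ → AA k} {f : AA (Gm k)} (h : IsLim c f)
    {P : ℕ → Fin 2 → PowerSeries (Om k)} {Q : Fin 2 → PowerSeries (Gm (Om k))}
    (hP : IsLimP P Q) (n : ℕ) :
    PowerSeries.coeff n (ev Q f) = gm fun i => PowerSeries.coeff n (ev (P i) (c i)) := by
  have h1 : (fun i => PowerSeries.coeff n (ev (P i) (c i))) = fun i =>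
      ∑ x ∈ Finset.HasAntidiagonal.antidiagonal n, (fun (x : ℕ × ℕ) i => PowerSeries.coeff x.2
        (aeval (P i) (PowerSeries.coeff x.1 (c i)))) x i :=
    funext fun i => coeff_ev (P i) (c i) n
  rw [coeff_ev, h1, gm_sum]
  refine Finset.sum_congr rfl fun x _ => ?_
  exact limS_aeval (fun j m => hP j m) (h x.1) x.2

theorem lim_ev_dvd {c : ℕ → AA k} {f : AA (Gm k)} (h : IsLim c f)
    {P : ℕ → Fin 2 → PowerSeries (Om k)} {Q : Fin 2 → PowerSeries (Gm (Om k))}
    (hP : IsLimP P Q) (n : ℕ) :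
    (PowerSeries.X : PowerSeries (Gm (Om k))) ^ n ∣ ev Q f ↔
      ∀ᶠ i in Uf, (PowerSeries.X : PowerSeries (Om k)) ^ n ∣ ev (P i) (c i) :=
  isLimS_dvd (z := fun i => ev (P i) (c i)) (fun m => lim_ev h hP m) n

end

end M3
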