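import Pool.Agent.M3.Ev
import Pool.Agent.M3.Lim
import Pool.Agent.M3.GmA

/-!
PIECE M3-X01: the cone construction: `cone i₀ e μ f` is `f(τ^e, τ^e x, τ^e y) / τ^(e μ)`.

PROOFS. `cone_ev`: `f = ∑ d ∈ range (f.totalDegree + 1), homogeneousComponent d f`
(`sum_homogeneousComponent`). For a homogeneous polynomial `g` of degree `d` the left side is
`X ^ (e d) * aeval P (deh i₀ g)` (by linearity for a monomial `g`; `Fin.insertNth_apply_same`,
`Fin.insertNth_apply_succAbove`, product over `Fin 3` = `Fin.prod_univ_succAbove _ i₀`).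
`cone i₀ e μ f = ∑ d ∈ range (..), if μ ≤ d then X ^ (e (d - μ)) * C (deh i₀ (hom. comp. d f))` (compare
coefficients: `n = e (d - μ)` iff `e ∣ n` and `d = μ + n / e`), then `ev_add`, `ev_mul`, `ev_X`, `ev_C`
(use the ring homomorphism `evH`).
`cone_lim`: `isLim_of_bdd` (the coefficient of `τ^n` has total degree `≤ μ + n / e`; `deh` does not raise
the degree of monomials). If `coeff m (p i) ≠ 0` almost everywhere and `m.degree = μ`, then the
coefficient of `τ^0` of `cone i₀ e μ (p i)` has at the exponent `m ∘ i₀.succAbove` the coefficient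
`coeff m (p i)` (a monomial of degree `μ` is determined by the exponents outside `i₀`), so the
coefficient of `F` is `gm (fun i => coeff m (p i)) ≠ 0` (`gm_eq_zero`, the filter is an ultrafilter).
-/

open MvPolynomial

namespace M3

universe u

section
variable {k : Type u} [Field k]

/-- dehomogenization: the coordinate `i₀` becomes `1` -/
noncomputable def deh (i₀ : Fin 3) : MvPolynomial (Fin 3) k →ₐ[k] MvPolynomial (Fin 2) k :=
  aeval (i₀.insertNth (α := fun _ => MvPolynomial (Fin 2) k) 1 (fun j => X j))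

/-- the function `f(τ^e, τ^e x, τ^e y) / τ^(e μ)` (the first place is the coordinate `i₀`) -/
noncomputable def cone (i₀ : Fin 3) (e μ : ℕ) (f : MvPolynomial (Fin 3) k) : AA k :=
  PowerSeries.mk fun n => if e ∣ n then deh i₀ (homogeneousComponent (μ + n / e) f) else 0

theorem cone_zero (i₀ : Fin 3) (e μ : ℕ) : cone i₀ e μ (0 : MvPolynomial (Fin 3) k) = 0 := by
  ext1 n
  unfold cone
  rw [PowerSeries.coeff_mk, map_zero, map_zero, ite_self, map_zero]

private theorem cone_scale {R : Type*} [CommRing R] [Algebra k R] (s : R) (v : Fin 3 → R) {d : ℕ}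
    {g : MvPolynomial (Fin 3) k} (hg : g.IsHomogeneous d) :
    aeval (fun i => s * v i) g = s ^ d * aeval v g := by
  rw [aeval_def, eval₂_eq', aeval_def, eval₂_eq', Finset.mul_sum]
  refine Finset.sum_congr rfl fun m hm => ?_
  have h1 : ∑ i, m i = d := by
    rw [← Finsupp.degree_eq_sum, Finsupp.degree_eq_weight_one]
    exact hg (mem_support_iff.1 hm)
  have h2 : ∏ i, (s * v i) ^ m i = s ^ d * ∏ i, v i ^ m i := by
    rw [← h1, ← Finset.prod_pow_eq_pow_sum, ← Finset.prod_mul_distrib]
    exact Finset.prod_congr rfl fun i _ => mul_pow _ _ _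
  rw [h2]
  ring

private theorem cone_vec {R : Type*} [CommRing R] (i₀ : Fin 3) (s : R) (P : Fin 2 → R) :
    (i₀.insertNth (α := fun _ => R) s (fun j => s * P j)) =
      fun i => s * (i₀.insertNth (α := fun _ => R) 1 P) i := by
  funext i
  rcases eq_or_ne i i₀ with rfl | h
  · rw [Fin.insertNth_apply_same, Fin.insertNth_apply_same, mul_one]
  · obtain ⟨j, rfl⟩ := Fin.exists_succAbove_eq h
    rw [Fin.insertNth_apply_succAbove, Fin.insertNth_apply_succAbove]

private theorem cone_deh {R : Type*} [CommRing R] [Algebra k R] (i₀ : Fin 3) (P : Fin 2 → R)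
    (g : MvPolynomial (Fin 3) k) :
    aeval P (deh i₀ g) = aeval (i₀.insertNth (α := fun _ => R) 1 P) g := by
  have h : (aeval P).comp (deh i₀) =
      (aeval (i₀.insertNth (α := fun _ => R) 1 P) : MvPolynomial (Fin 3) k →ₐ[k] R) := by
    refine MvPolynomial.algHom_ext fun i => ?_
    unfold deh
    rw [AlgHom.comp_apply, aeval_X, aeval_X]
    rcases eq_or_ne i i₀ with rfl | h
    · rw [Fin.insertNth_apply_same, Fin.insertNth_apply_same, map_one]
    · obtain ⟨j, rfl⟩ := Fin.exists_succAbove_eq h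
      rw [Fin.insertNth_apply_succAbove, Fin.insertNth_apply_succAbove, aeval_X]
  exact DFunLike.congr_fun h g

private theorem cone_sum (i₀ : Fin 3) {e : ℕ} (μ : ℕ) (he : 0 < e) (f : MvPolynomial (Fin 3) k) :
    cone i₀ e μ f = ∑ d ∈ Finset.range (f.totalDegree + 1), if μ ≤ d then
      (PowerSeries.X ^ (e * (d - μ)) * PowerSeries.C (deh i₀ (homogeneousComponent d f)) : AA k)
      else 0 := by
  ext1 n
  unfold cone
  rw [PowerSeries.coeff_mk, map_sum]
  have h1 : ∀ d ∈ Finset.range (f.totalDegree + 1), PowerSeries.coeff n (if μ ≤ d then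
      (PowerSeries.X ^ (e * (d - μ)) * PowerSeries.C (deh i₀ (homogeneousComponent d f)) : AA k)
      else 0) = if μ ≤ d ∧ n = e * (d - μ) then deh i₀ (homogeneousComponent d f) else 0 := by
    intro d _
    by_cases h2 : μ ≤ d
    · rw [if_pos h2, PowerSeries.coeff_mul_C, PowerSeries.coeff_X_pow]
      by_cases h3 : n = e * (d - μ)
      · rw [if_pos h3, if_pos ⟨h2, h3⟩, one_mul]
      · rw [if_neg h3, if_neg (fun q => h3 q.2), zero_mul]
    · rw [if_neg h2, if_neg (fun q => h2 q.1), map_zero]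
  rw [Finset.sum_congr rfl h1]
  by_cases hn : e ∣ n
  · rw [if_pos hn]
    obtain ⟨t, rfl⟩ := hn
    rw [Nat.mul_div_cancel_left t he]
    have h2 : ∀ d, (μ ≤ d ∧ e * t = e * (d - μ)) ↔ d = μ + t := by
      intro d
      rw [Nat.mul_right_inj he.ne']
      omega
    simp only [h2]
    rw [Finset.sum_ite_eq']
    split_ifs with h3
    · rfl
    · rw [Finset.mem_range] at h3
      rw [homogeneousComponent_eq_zero _ _ (by omega), map_zero]
  · rw [if_neg hn]
    symm
    apply Finset.sum_eq_zero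
    intro d _
    rw [if_neg]
    rintro ⟨-, h3⟩
    exact hn ⟨_, h3⟩

theorem cone_ev {R : Type*} [CommRing R] [Algebra k R] (i₀ : Fin 3) {e μ : ℕ} (he : 0 < e)
    (f : MvPolynomial (Fin 3) k) (hf : ∀ d < μ, homogeneousComponent d f = 0)
    (P : Fin 2 → PowerSeries R) :
    aeval (i₀.insertNth (α := fun _ => PowerSeries R) (PowerSeries.X ^ e)
      (fun j => PowerSeries.X ^ e * P j)) f =
      PowerSeries.X ^ (e * μ) * ev P (cone i₀ e μ f) := by
  rw [cone_sum i₀ μ he f, ← evH_apply, map_sum, Finset.mul_sum, cone_vec]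
  conv_lhs => rw [← sum_homogeneousComponent f]
  rw [map_sum]
  refine Finset.sum_congr rfl fun d _ => ?_
  rw [cone_scale _ _ (homogeneousComponent_isHomogeneous d f)]
  by_cases h : μ ≤ d
  · rw [if_pos h, map_mul, map_pow, evH_apply, evH_apply, ev_X, ev_C, cone_deh, ← mul_assoc,
      ← pow_add, ← pow_mul, ← mul_add, Nat.add_sub_cancel' h]
  · rw [if_neg h, hf d (by omega), map_zero, map_zero, mul_zero, mul_zero]

private noncomputable def ConeRes (i₀ : Fin 3) (m : Fin 3 →₀ ℕ) : Fin 2 →₀ ℕ :=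
  Finsupp.equivFunOnFinite.symm fun j => m (i₀.succAbove j)

private theorem coneRes_apply (i₀ : Fin 3) (m : Fin 3 →₀ ℕ) (j : Fin 2) :
    ConeRes i₀ m j = m (i₀.succAbove j) := rfl

private theorem cone_deg (i₀ : Fin 3) (m : Fin 3 →₀ ℕ) :
    m.degree = m i₀ + (ConeRes i₀ m).degree := by
  rw [Finsupp.degree_eq_sum, Finsupp.degree_eq_sum, Fin.sum_univ_succAbove _ i₀]
  rfl

private theorem cone_inj (i₀ : Fin 3) {m m' : Fin 3 →₀ ℕ} (h : m.degree = m'.degree)
    (h' : ConeRes i₀ m = ConeRes i₀ m') : m = m' := by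
  rw [cone_deg i₀ m, cone_deg i₀ m', h', Nat.add_right_cancel_iff] at h
  ext i
  rcases eq_or_ne i i₀ with rfl | h1
  · exact h
  · obtain ⟨j, rfl⟩ := Fin.exists_succAbove_eq h1
    rw [← coneRes_apply, h', coneRes_apply]

private theorem cone_mono (i₀ : Fin 3) (m : Fin 3 →₀ ℕ) (c : k) :
    deh i₀ (monomial m c) = monomial (ConeRes i₀ m) c := by
  unfold deh
  rw [aeval_monomial, Finsupp.prod_fintype _ _ (fun i => pow_zero _),
    Fin.prod_univ_succAbove _ i₀, Fin.insertNth_apply_same, one_pow, one_mul]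
  simp only [Fin.insertNth_apply_succAbove]
  rw [monomial_eq, Finsupp.prod_fintype _ _ (fun i => pow_zero _)]
  rfl

private theorem cone_expand (i₀ : Fin 3) (g : MvPolynomial (Fin 3) k) :
    deh i₀ g = ∑ m ∈ g.support, monomial (ConeRes i₀ m) (coeff m g) := by
  conv_lhs => rw [g.as_sum]
  rw [map_sum]
  exact Finset.sum_congr rfl fun m _ => cone_mono i₀ m _

private theorem cone_totalDegree (i₀ : Fin 3) {g : MvPolynomial (Fin 3) k} {d : ℕ}
    (hg : g.IsHomogeneous d) : (deh i₀ g).totalDegree ≤ d := by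
  rw [cone_expand]
  refine totalDegree_finsetSum_le fun m hm => ?_
  refine (totalDegree_monomial_le _ _).trans ?_
  have h1 : m.degree = d := by
    rw [Finsupp.degree_eq_weight_one]
    exact hg (mem_support_iff.1 hm)
  rw [cone_deg i₀ m] at h1
  have h2 : ((ConeRes i₀ m).sum fun _ => id) = (ConeRes i₀ m).degree := rfl
  rw [h2]
  omega

private theorem cone_coeff (i₀ : Fin 3) {g : MvPolynomial (Fin 3) k} {d : ℕ}
    (hg : g.IsHomogeneous d) {m : Fin 3 →₀ ℕ} (hm : m.degree = d) :
    coeff (ConeRes i₀ m) (deh i₀ g) = coeff m g := by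
  classical
  rw [cone_expand, coeff_sum]
  simp only [coeff_monomial]
  rw [Finset.sum_eq_single m]
  · rw [if_pos rfl]
  · intro m' hm' hne
    rw [if_neg]
    intro h
    apply hne
    refine cone_inj i₀ ?_ h
    rw [hm, Finsupp.degree_eq_weight_one]
    exact hg (mem_support_iff.1 hm')
  · intro h
    rw [if_pos rfl]
    exact notMem_support_iff.1 h

theorem cone_lim (i₀ : Fin 3) {e : ℕ} (he : 0 < e) (μ : ℕ) (p : ℕ → MvPolynomial (Fin 3) k) :
    ∃ F : AA (Gm k), IsLim (fun i => cone i₀ e μ (p i)) F ∧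
      ∀ m : Fin 3 →₀ ℕ, m.degree = μ → (∀ᶠ i in Uf, coeff m (p i) ≠ 0) → F ≠ 0 := by
  obtain ⟨F, hF⟩ := isLim_of_bdd (fun i => cone i₀ e μ (p i)) (by
    intro n
    refine ⟨μ + n / e, Filter.Eventually.of_forall fun i => ?_⟩
    unfold cone
    rw [PowerSeries.coeff_mk]
    split_ifs
    · exact cone_totalDegree i₀ (homogeneousComponent_isHomogeneous _ _)
    · rw [totalDegree_zero]
      exact Nat.zero_le _)
  refine ⟨F, hF, ?_⟩
  intro m hm hp h0
  have h1 := (hF 0).2 (ConeRes i₀ m)
  rw [h0, map_zero, coeff_zero] at h1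
  have h2 := gm_eq_zero.1 h1.symm
  obtain ⟨i, h3, h4⟩ := (hp.and h2).exists
  apply h3
  unfold cone at h4
  rw [PowerSeries.coeff_mk, if_pos (dvd_zero e), Nat.zero_div, add_zero,
    cone_coeff i₀ (homogeneousComponent_isHomogeneous _ _) hm, coeff_homogeneousComponent,
    if_pos hm] at h4
  exact h4

end

end M3
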