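import Pool.Agent.M3.KrullS
import Pool.Agent.M3.JetE
import Pool.Agent.M3.JetD

/-!
PIECE M3-K02: a divisor of larger order of the maximal ideal.

PROOF. `e := E.ordI (mm k (Fin 3))`, so `e ≤ E.ord (xx i)` for all `i` (`ordI_le`). Let `m := M + t + 1`. `exists_jetE`
(level `m`) gives `L, c, T₀`, `3 (m+1) ≤ T₀.card + A`, `X^r ∣ aeval (jetS c) f` for `r ≤ ord f`, `r ≤ m + 1`. Put
`ι := Fin 3 × Fin m`, `w (j, n) := n + 1`, `x (j, n) := c j n`. `homRel_scale`: `x₁ (j, n) = c j n * T^(n+1)` satisfies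
`HomRel`; the jets `jetS` of `x₁` are `(jetS c)(T X)`, i.e. `PowerSeries.coeff n (aeval (jetS c₁) f) =
T^n * algebraMap (PowerSeries.coeff n (aeval (jetS c) f))` (ring homomorphism `PowerSeries.rescale T` after
`PowerSeries.map`), so the same divisibilities hold. `krull_many` with
`T := {(j, n) | e ≤ n + 1 ∧ n + 1 < t}`, at most `3 (t - e)` elements, gives `x'`, vanishing for these `(j, n)`; also
`x' (j, n) = 0` for `n + 1 < e`, because `c j n = 0` there (`X^e ∣ jetS c j`; the relation `X (j, n)`).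
Divisibility `X^r ∣ aeval (jetS ..) f` is a set of polynomial relations between the coordinates (the
coefficient of `X^n` of `aeval (jetS X) f` over `MvPolynomial ι k` is a polynomial `F`, and
`aeval x F = coeff n (aeval (jetS x) f)`), so it holds for `x'`. `exists_divisor_of_jetE` for `x'` with
`A + 3 (t - e)` gives `E', g, A₁`. For `f = X i`: `X^t ∣ jetS x' i` (`t ≤ m + 1`), so `t ≤ g * E'.ord (xx i)`.
-/

open MvPolynomial

namespace M3

open MLD

universe u

private theorem Deepen_map {k R S : Type*} [Field k] [CommRing R] [CommRing S] [Algebra k R]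
    [Algebra k S] (φ : R →ₐ[k] S) {σ : Type} {m : ℕ} (c : σ → Fin m → R) (f : MvPolynomial σ k) :
    aeval (jetS fun i j => φ (c i j)) f = PowerSeries.map (φ : R →+* S) (aeval (jetS c) f) := by
  have h1 : ∀ i, PowerSeries.map (φ : R →+* S) (jetS c i) = jetS (fun i j => φ (c i j)) i := by
    intro i
    unfold jetS
    rw [map_sum]
    apply Finset.sum_congr rfl
    intro j _
    rw [map_mul, map_pow, PowerSeries.map_C, PowerSeries.map_X]
    rfl
  induction f using MvPolynomial.induction_on with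
  | C a =>
    rw [algHom_C, algHom_C]
    ext n
    rw [PowerSeries.coeff_map, PowerSeries.algebraMap_apply, PowerSeries.algebraMap_apply,
      PowerSeries.coeff_C, PowerSeries.coeff_C]
    split_ifs
    · exact (φ.commutes a).symm
    · rw [map_zero]
  | add p q hp hq => rw [map_add, map_add, map_add, hp, hq]
  | mul_X p i hp => rw [map_mul, map_mul, map_mul, hp, aeval_X, aeval_X, h1]

/-- the coefficients of the jets as polynomials -/
private theorem Deepen_univ {k : Type*} [Field k] {σ : Type} {m : ℕ} (f : MvPolynomial σ k)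
    (n : ℕ) : ∃ P : MvPolynomial (σ × Fin m) k, ∀ (K : Type*) [Field K] [Algebra k K]
      (y : σ × Fin m → K), aeval y P = PowerSeries.coeff n (aeval (jetS fun i j => y (i, j)) f) := by
  refine ⟨PowerSeries.coeff n (aeval (jetS (fun (i : σ) (j : Fin m) =>
    (X (i, j) : MvPolynomial (σ × Fin m) k))) f), fun K _ _ y => ?_⟩
  have h := Deepen_map (aeval y : MvPolynomial (σ × Fin m) k →ₐ[k] K)
    (fun (i : σ) (j : Fin m) => (X (i, j) : MvPolynomial (σ × Fin m) k)) f
  simp only [aeval_X] at h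
  rw [h, PowerSeries.coeff_map]
  rfl

private theorem Deepen_scale {k L L' : Type*} [Field k] [Field L] [Field L'] [Algebra k L]
    [Algebra k L'] [Algebra L L'] [IsScalarTower k L L'] {σ : Type} {m : ℕ} (c : σ → Fin m → L)
    (T : L') (f : MvPolynomial σ k) :
    aeval (jetS fun i (j : Fin m) => algebraMap L L' (c i j) * T ^ (j.val + 1)) f =
      PowerSeries.rescale T (PowerSeries.map (algebraMap L L') (aeval (jetS c) f)) := by
  have h1 : ∀ i, PowerSeries.rescale T (PowerSeries.map (algebraMap L L') (jetS c i)) =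
      jetS (fun i (j : Fin m) => algebraMap L L' (c i j) * T ^ (j.val + 1)) i := by
    intro i
    unfold jetS
    rw [map_sum, map_sum]
    apply Finset.sum_congr rfl
    intro j _
    ext n
    rw [PowerSeries.coeff_rescale, PowerSeries.coeff_map, PowerSeries.coeff_C_mul_X_pow,
      PowerSeries.coeff_C_mul_X_pow]
    split_ifs with h
    · rw [h, mul_comm]
    · rw [map_zero, mul_zero]
  induction f using MvPolynomial.induction_on with
  | C a =>
    rw [algHom_C, algHom_C]
    ext n
    rw [PowerSeries.coeff_rescale, PowerSeries.coeff_map, PowerSeries.algebraMap_apply,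
      PowerSeries.algebraMap_apply, PowerSeries.coeff_C, PowerSeries.coeff_C]
    split_ifs with h
    · rw [h, pow_zero, one_mul, IsScalarTower.algebraMap_apply k L L']
    · rw [map_zero, mul_zero]
  | add p q hp hq => rw [map_add, map_add, map_add, map_add, hp, hq]
  | mul_X p i hp => rw [map_mul, map_mul, map_mul, map_mul, hp, aeval_X, aeval_X, h1]

private theorem Deepen_coeff {K : Type*} [Field K] {σ : Type} {m : ℕ} (c : σ → Fin m → K) (i : σ)
    (j : Fin m) : PowerSeries.coeff (j.val + 1) (jetS c i) = c i j := by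
  unfold jetS
  rw [map_sum, Finset.sum_eq_single j]
  · rw [PowerSeries.coeff_C_mul_X_pow, if_pos rfl]
  · intro b _ hb
    rw [PowerSeries.coeff_C_mul_X_pow, if_neg]
    intro h
    apply hb
    apply Fin.ext
    omega
  · intro h
    exact absurd (Finset.mem_univ _) h

private theorem Deepen_dvd {K : Type*} [Field K] {σ : Type} {m : ℕ} (c : σ → Fin m → K) (i : σ)
    (t : ℕ) (h : ∀ j : Fin m, j.val + 1 < t → c i j = 0) :
    (PowerSeries.X : PowerSeries K) ^ t ∣ jetS c i := by
  rw [PowerSeries.X_pow_dvd_iff]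
  intro n hn
  unfold jetS
  rw [map_sum]
  refine Finset.sum_eq_zero fun j _ => ?_
  rw [PowerSeries.coeff_C_mul_X_pow]
  split_ifs with h2
  · exact h j (by omega)
  · rfl

theorem deepen {k : Type u} [Field k] [CharZero k] (E : DivisorOver k (Fin 3))
    (hE : E.CenterZero) (A : ℕ) (hA : E.logDisc ≤ (((A : ℕ) : ℝ) : EReal)) (t M : ℕ)
    (ht : E.ordI (mm k (Fin 3)) ≤ t) :
    ∃ (E' : DivisorOver k (Fin 3)) (g A₁ : ℕ), 0 < g ∧ E'.CenterZero ∧
      E'.logDisc ≤ (((A₁ : ℕ) : ℝ) : EReal) ∧ g * A₁ ≤ A + 3 * (t - E.ordI (mm k (Fin 3))) ∧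
      (∀ f : MvPolynomial (Fin 3) k, f ≠ 0 → ∀ r : ℕ, (r : ℤ) ≤ E.ord (toFF k (Fin 3) f) →
        r ≤ M → (r : ℤ) ≤ g * E'.ord (toFF k (Fin 3) f)) ∧
      ∀ i, (t : ℤ) ≤ g * E'.ord (xx k i) := by
  classical
  set e := E.ordI (mm k (Fin 3)) with he
  set m := M + t + 1 with hm
  have hXne : ∀ i : Fin 3, (X i : MvPolynomial (Fin 3) k) ≠ 0 := fun i => X_ne_zero i
  have heX : ∀ i : Fin 3, (e : ℤ) ≤ E.ord (toFF k (Fin 3) (X i)) := fun i =>
    ordI_le E (Ideal.subset_span ⟨i, rfl⟩) (hXne i)
  obtain ⟨L, _, _, c, h1, _, ⟨T₀, hT₀, hind⟩, _⟩ := exists_jetE E hE A hA m (by omega)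
  -- the family of the coordinates of the jets
  obtain ⟨L', _, _, _, _, T, x₁, _, hx₁, hhom, _, hind₁⟩ :=
    homRel_scale (k := k) (fun p : Fin 3 × Fin m => p.2.val + 1) (fun p => c p.1 p.2)
  let Ts : Finset (Fin 3 × Fin m) :=
    Finset.univ.filter fun p => e ≤ p.2.val + 1 ∧ p.2.val + 1 < t
  have hTs : Ts.card ≤ 3 * (t - e) := by
    have h2 : Ts.card ≤ ((Finset.univ : Finset (Fin 3)) ×ˢ Finset.Ico e t).card := by
      refine Finset.card_le_card_of_injOn (fun p => (p.1, p.2.val + 1)) ?_ ?_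
      · intro p hp
        have h3 := (Finset.mem_filter.mp hp).2
        simp only [Finset.coe_product, Set.mem_prod, Finset.mem_coe, Finset.mem_univ, true_and,
          Finset.mem_Ico]
        exact h3
      · intro p _ q _ hpq
        have hpq' : (p.1, p.2.val + 1) = (q.1, q.2.val + 1) := hpq
        obtain ⟨h3, h4⟩ := Prod.mk.inj hpq'
        exact Prod.ext h3 (Fin.ext (by omega))
    rw [Finset.card_product, Finset.card_univ, Fintype.card_fin, Nat.card_Ico] at h2
    exact h2
  obtain ⟨L'', _, _, x', _, hrel, hzero, S', hS', hind'⟩ :=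
    krull_many (k := k) (fun p : Fin 3 × Fin m => p.2.val + 1) (fun p => Nat.succ_pos _) x₁ hhom
      T₀ (hind₁ T₀ hind) Ts
  -- transfer of divisibility
  have htr : ∀ (f : MvPolynomial (Fin 3) k) (r : ℕ),
      (PowerSeries.X : PowerSeries L) ^ r ∣ aeval (jetS c) f →
      (PowerSeries.X : PowerSeries L'') ^ r ∣ aeval (jetS fun i j => x' (i, j)) f := by
    intro f r hr
    rw [PowerSeries.X_pow_dvd_iff] at hr ⊢
    intro n hn
    obtain ⟨P, hP⟩ := Deepen_univ (m := m) f n
    rw [← hP]
    apply hrel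
    rw [hP]
    have h2 : (fun i (j : Fin m) => x₁ (i, j)) =
        fun i (j : Fin m) => algebraMap L L' (c i j) * T ^ (j.val + 1) := by
      funext i j
      exact hx₁ (i, j)
    rw [h2, Deepen_scale, PowerSeries.coeff_rescale, PowerSeries.coeff_map, hr n hn, map_zero,
      mul_zero]
  -- vanishing coordinates
  have hvan : ∀ (i : Fin 3) (j : Fin m), j.val + 1 < t → x' (i, j) = 0 := by
    intro i j hj
    rcases Nat.lt_or_ge (j.val + 1) e with h2 | h2
    · have h3 := h1 (X i) (hXne i) e (heX i) (by omega)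
      rw [aeval_X, PowerSeries.X_pow_dvd_iff] at h3
      have h4 := h3 _ h2
      rw [Deepen_coeff] at h4
      have h5 : aeval x₁ (X (i, j) : MvPolynomial (Fin 3 × Fin m) k) = 0 := by
        rw [aeval_X, hx₁]
        show algebraMap L L' (c i j) * T ^ (j.val + 1) = 0
        rw [h4, map_zero, zero_mul]
      have h6 := hrel _ h5
      rwa [aeval_X] at h6
    · exact hzero _ (Finset.mem_filter.mpr ⟨Finset.mem_univ _, h2, hj⟩)
  have hT' : Fintype.card (Fin 3) * (m + 1) ≤ S'.card + (A + 3 * (t - e)) := by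
    omega
  obtain ⟨E', g, A₁, hg, hE', hlog, hgA, hord, _⟩ :=
    exists_divisor_of_jetE (k := k) (fun i j => x' (i, j)) (A + 3 * (t - e)) S' hT' hind'
  refine ⟨E', g, A₁, hg, hE', hlog, hgA, ?_, ?_⟩
  · intro f hf r hr hrM
    exact hord f hf r (by omega) (htr f r (h1 f hf r hr (by omega)))
  · intro i
    refine hord (X i) (hXne i) t (by omega) ?_
    rw [aeval_X]
    exact Deepen_dvd _ i t fun j hj => hvan i j hj

end M3
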