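import Mathlib

/-!
PROJECT M3 (MP_405ba3_ag): basic definitions.

`AA k`: functions on the closed unit polydisc over `k[[τ]]` (`τ = PowerSeries.X`), i.e. power series in `τ`
whose coefficients are polynomials in two variables.  Points of the polydisc (arcs) are maps
`P : Fin 2 → PowerSeries L`, `L` an extension of `k`.  `ev P f` is the value of `f` at `P`; with
`L` replaced by `MvPolynomial (Fin 2) k` the same operation is the substitution `f ∘ χ`,
`χ : Fin 2 → AA k`.
-/

open MvPolynomial

namespace M3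

universe u

/-- functions on the closed unit polydisc over `k[[τ]]` -/
abbrev AA (k : Type u) [CommRing k] : Type u := PowerSeries (MvPolynomial (Fin 2) k)

section
variable {k : Type u} [CommRing k] {R : Type*} [CommRing R] [Algebra k R]

/-- the value of `f` at the point `P` (also: the substitution `f ∘ P`) -/
noncomputable def ev (P : Fin 2 → PowerSeries R) (f : AA k) : PowerSeries R :=
  PowerSeries.mk fun n => ∑ p ∈ Finset.HasAntidiagonal.antidiagonal n,
    PowerSeries.coeff p.2 (aeval P (PowerSeries.coeff p.1 f))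

/-- the coefficient of `x^e` of `f`, a power series in `τ` -/
noncomputable def mc (f : AA k) (e : Fin 2 →₀ ℕ) : PowerSeries k :=
  PowerSeries.mk fun n => coeff e (PowerSeries.coeff n f)

/-- the constant functions -/
noncomputable def cA : PowerSeries k →+* AA k := PowerSeries.map MvPolynomial.C

/-- the coordinate functions -/
noncomputable def xA (j : Fin 2) : AA k := PowerSeries.C (X j)

/-- polynomials with coefficients in `k[[τ]]` as functions -/
noncomputable def toAA : MvPolynomial (Fin 2) (PowerSeries k) →+* AA k := eval₂Hom cA xA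

/-- the derivative with respect to `x_j` -/
noncomputable def dA (j : Fin 2) (f : AA k) : AA k :=
  PowerSeries.mk fun n => pderiv j (PowerSeries.coeff n f)

/-- the weight of the monomial `x^e` -/
def wt (a b : ℕ) (e : Fin 2 →₀ ℕ) : ℕ := a * e 0 + b * e 1

/-- the part of weight `d` -/
noncomputable def topA (a b d : ℕ) (f : AA k) : AA k :=
  PowerSeries.mk fun n => weightedHomogeneousComponent ![a, b] d (PowerSeries.coeff n f)

/-- the chart `x = c + τ^N₀ x'`, `y = p(x') + τ^N₁ y'` -/
noncomputable def chA (c : PowerSeries k) (p : Polynomial (PowerSeries k)) (N₀ N₁ : ℕ) :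
    Fin 2 → AA k :=
  ![cA c + PowerSeries.X ^ N₀ * xA 0, p.eval₂ cA (xA 0) + PowerSeries.X ^ N₁ * xA 1]

/-- the chart `x = y'`, `y = x'` -/
noncomputable def swA (k : Type u) [CommRing k] : Fin 2 → AA k := ![xA 1, xA 0]

/-- compositions of charts; the natural number is the sum of all exponents `N₀`, `N₁` -/
inductive IsCh : (Fin 2 → AA k) → ℕ → Prop
  | refl : IsCh xA 0
  | swap {χ : Fin 2 → AA k} {N : ℕ} : IsCh χ N → IsCh (fun j => ev (swA k) (χ j)) N
  | step {χ : Fin 2 → AA k} {N : ℕ} (c : PowerSeries k) (p : Polynomial (PowerSeries k))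
      (N₀ N₁ : ℕ) : IsCh χ N → (∀ j, 1 ≤ j → PowerSeries.X ^ N₀ ∣ p.coeff j) →
      IsCh (fun j => ev (chA c p N₀ N₁) (χ j)) (N + N₀ + N₁)

end

/-- The codimension of the arc `P` at level `m` is at most `C`: among the `2 m` coefficients of
`τ^n`, `n < m`, there are `2 m - C` algebraically independent ones. -/
def CodLe (k : Type u) [Field k] {L : Type*} [Field L] [Algebra k L]
    (P : Fin 2 → PowerSeries L) (m C : ℕ) : Prop :=
  ∃ T : Finset (Fin 2 × Fin m), 2 * m ≤ T.card + C ∧
    AlgebraicIndependent k (fun t : T => PowerSeries.coeff t.1.2.val (P t.1.1))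

/-- the codimension of the arc `P` over `k` is at most `C` -/
def Cod (k : Type u) [Field k] {L : Type*} [Field L] [Algebra k L]
    (P : Fin 2 → PowerSeries L) (C : ℕ) : Prop := ∀ m, CodLe k P m C

section
variable {k : Type u} [Field k] {r : ℕ} {J : Type}

/-- all `f h` with `h` in the group `j` have order at least `n j` at `P` -/
def OrdGe {L : Type*} [CommRing L] [Algebra k L] (grp : J → Fin r) (f : J → AA k)
    (P : Fin 2 → PowerSeries L) (n : Fin r → ℕ) : Prop :=
  ∀ h, (PowerSeries.X : PowerSeries L) ^ n (grp h) ∣ ev P (f h)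

/-- `cod P - ∑ lam j * ord_P (f_j)` is bounded below -/
def LowB (lam : Fin r → ℝ) (grp : J → Fin r) (f : J → AA k) : Prop :=
  ∃ K : ℝ, ∀ (L : Type u) [Field L] [Algebra k L] (P : Fin 2 → PowerSeries L) (C : ℕ)
    (n : Fin r → ℕ), Cod k P C → OrdGe grp f P n → -K ≤ (C : ℝ) - ∑ j, lam j * n j

end

/-! ### ultrapowers -/

/-- the nonprincipal ultrafilter used for limits -/
noncomputable abbrev Uf : Filter ℕ := ((Filter.hyperfilter ℕ : Ultrafilter ℕ) : Filter ℕ)

/-- the ultrapower -/
def Gm (α : Type u) : Type u := Filter.Germ Uf α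

/-- the class of a sequence -/
noncomputable def gm {α : Type u} (f : ℕ → α) : Gm α := (f : Filter.Germ Uf α)

noncomputable instance (α : Type u) [Field α] : Field (Gm α) :=
  inferInstanceAs (Field (Filter.Germ Uf α))

section
variable {α : Type u}

theorem gm_surj (x : Gm α) : ∃ f : ℕ → α, gm f = x := by
  induction x using Filter.Germ.inductionOn with
  | _ f => exact ⟨f, rfl⟩

theorem gm_eq {f g : ℕ → α} : gm f = gm g ↔ ∀ᶠ i in Uf, f i = g i := Filter.Germ.coe_eq

variable [Field α]

theorem gm_add (f g : ℕ → α) : gm (fun i => f i + g i) = gm f + gm g := rfl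

theorem gm_mul (f g : ℕ → α) : gm (fun i => f i * g i) = gm f * gm g := rfl

theorem gm_neg (f : ℕ → α) : gm (fun i => -f i) = -gm f := rfl

theorem gm_sub (f g : ℕ → α) : gm (fun i => f i - g i) = gm f - gm g := rfl

theorem gm_inv (f : ℕ → α) : gm (fun i => (f i)⁻¹) = (gm f)⁻¹ := rfl

theorem gm_zero : gm (fun _ => (0 : α)) = 0 := rfl

theorem gm_one : gm (fun _ => (1 : α)) = 1 := rfl

/-- the ring homomorphism `(ℕ → α) → Gm α` -/
noncomputable def gmH (α : Type u) [Field α] : (ℕ → α) →+* Gm α where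
  toFun := gm
  map_one' := rfl
  map_mul' _ _ := rfl
  map_zero' := rfl
  map_add' _ _ := rfl

theorem gmH_apply (f : ℕ → α) : gmH α f = gm f := rfl

theorem gm_eq_zero {f : ℕ → α} : gm f = 0 ↔ ∀ᶠ i in Uf, f i = 0 := by
  rw [← gm_zero, gm_eq]

/-- functoriality of the ultrapower -/
noncomputable def gmMap {β : Type u} [Field β] (φ : α →+* β) : Gm α →+* Gm β where
  toFun := Filter.Germ.map φ
  map_one' := by
    show Filter.Germ.map φ (((fun _ => (1 : α)) : ℕ → α) : Filter.Germ Uf α) = _
    rw [Filter.Germ.map_coe]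
    have : φ ∘ (fun _ : ℕ => (1 : α)) = fun _ => (1 : β) := by
      funext i; simp
    rw [this]
    rfl
  map_zero' := by
    show Filter.Germ.map φ (((fun _ => (0 : α)) : ℕ → α) : Filter.Germ Uf α) = _
    rw [Filter.Germ.map_coe]
    have : φ ∘ (fun _ : ℕ => (0 : α)) = fun _ => (0 : β) := by
      funext i; simp
    rw [this]
    rfl
  map_mul' x y := by
    obtain ⟨f, rfl⟩ := gm_surj x
    obtain ⟨g, rfl⟩ := gm_surj y
    rw [← gm_mul]
    show Filter.Germ.map φ ((fun i => f i * g i : ℕ → α) : Filter.Germ Uf α) = _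
    rw [Filter.Germ.map_coe]
    have : φ ∘ (fun i : ℕ => f i * g i) = fun i => φ (f i) * φ (g i) := by
      funext i; simp
    rw [this]
    rfl
  map_add' x y := by
    obtain ⟨f, rfl⟩ := gm_surj x
    obtain ⟨g, rfl⟩ := gm_surj y
    rw [← gm_add]
    show Filter.Germ.map φ ((fun i => f i + g i : ℕ → α) : Filter.Germ Uf α) = _
    rw [Filter.Germ.map_coe]
    have : φ ∘ (fun i : ℕ => f i + g i) = fun i => φ (f i) + φ (g i) := by
      funext i; simp
    rw [this]
    rfl

theorem gmMap_gm {β : Type u} [Field β] (φ : α →+* β) (f : ℕ → α) :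
    gmMap φ (gm f) = gm fun i => φ (f i) := rfl

end

/-- a large algebraically closed extension field of `k` -/
abbrev Om (k : Type u) [Field k] : Type u := AlgebraicClosure (FractionRing (MvPolynomial ℕ k))

noncomputable instance (k : Type u) [Field k] : Algebra (Gm k) (Gm (Om k)) :=
  (gmMap (algebraMap k (Om k))).toAlgebra

section
variable {k : Type u} [Field k]

theorem algebraMap_gm (f : ℕ → k) :
    algebraMap (Gm k) (Gm (Om k)) (gm f) = gm fun i => algebraMap k (Om k) (f i) := rfl

/-- `f` is the limit of the functions `c i` -/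
def IsLim (c : ℕ → AA k) (f : AA (Gm k)) : Prop :=
  ∀ m : ℕ, (∃ D : ℕ, ∀ᶠ i in Uf, (PowerSeries.coeff m (c i)).totalDegree ≤ D) ∧
    ∀ e : Fin 2 →₀ ℕ, coeff e (PowerSeries.coeff m f) =
      gm fun i => coeff e (PowerSeries.coeff m (c i))

/-- `Q` is the limit of the arcs `P i` -/
def IsLimP (P : ℕ → Fin 2 → PowerSeries (Om k)) (Q : Fin 2 → PowerSeries (Gm (Om k))) : Prop :=
  ∀ j m, PowerSeries.coeff m (Q j) = gm fun i => PowerSeries.coeff m (P i j)

/-- the point of the polydisc over `Gm (Om k)` given by a point over `Gm k` -/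
noncomputable def ratP (z : Fin 2 → PowerSeries (Gm k)) : Fin 2 → PowerSeries (Gm (Om k)) :=
  fun j => PowerSeries.map (algebraMap (Gm k) (Gm (Om k))) (z j)

variable {r : ℕ} {J : Type}

/-- the arcs `P i` have codimension at most `C i` and order at least `n i` -/
def Adm (grp : J → Fin r) (c : ℕ → J → AA k) (P : ℕ → Fin 2 → PowerSeries (Om k))
    (C : ℕ → ℕ) (n : ℕ → Fin r → ℕ) : Prop :=
  ∀ᶠ i in Uf, Cod k (P i) (C i) ∧ OrdGe grp (c i) (P i) (n i)

/-- the values `C i - ∑ lam j * n i j` are dominated by arcs of bounded codimension and order -/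
def Dom (lam : Fin r → ℝ) (grp : J → Fin r) (c : ℕ → J → AA k) (C : ℕ → ℕ)
    (n : ℕ → Fin r → ℕ) : Prop :=
  ∃ ℓ : ℕ, ∀ᶠ i in Uf, ∃ (Q : Fin 2 → PowerSeries (Om k)) (C' : ℕ) (n' : Fin r → ℕ),
    C' ≤ ℓ ∧ (∀ j, n' j ≤ ℓ) ∧ Cod k Q C' ∧ OrdGe grp (c i) Q n' ∧
    (C' : ℝ) - ∑ j, lam j * n' j ≤ C i - ∑ j, lam j * n i j

end

/-! ### states -/

section
variable {k : Type u} [Field k]

/-- the field of Laurent series -/
abbrev KK (k : Type u) [Field k] : Type u := FractionRing (PowerSeries k)

/-- polynomials over `k[[τ]]` as polynomials over `k((τ))` -/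
noncomputable def toKK : MvPolynomial (Fin 2) (PowerSeries k) →+* MvPolynomial (Fin 2) (KK k) :=
  MvPolynomial.map (algebraMap (PowerSeries k) (KK k))

variable {r : ℕ} {J : Type} {K : Type u} [Field K]

/-- the mass of `p` is less than `t` -/
def MLt (mu : Fin r → ℝ) (grp : J → Fin r) (F : J → MvPolynomial (Fin 2) K)
    (p : MvPolynomial (Fin 2) K) (t : ℝ) : Prop :=
  ∃ B : Fin r → ℕ, (∀ j, ∃ h, grp h = j ∧ ¬ p ^ (B j + 1) ∣ F h) ∧ ∑ j, mu j * B j < t

/-- the mass of `p` is at most `t` -/
def MLe (mu : Fin r → ℝ) (grp : J → Fin r) (F : J → MvPolynomial (Fin 2) K)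
    (p : MvPolynomial (Fin 2) K) (t : ℝ) : Prop :=
  ∃ B : Fin r → ℕ, (∀ j, ∃ h, grp h = j ∧ ¬ p ^ (B j + 1) ∣ F h) ∧ ∑ j, mu j * B j ≤ t

/-- weighted homogeneous families over a field, log canonical away from the origin and with the
log canonical threshold computed by the weighted blow up -/
structure Stt (a b : ℕ) (mu : Fin r → ℝ) (grp : J → Fin r) (d : Fin r → ℕ)
    (F : J → MvPolynomial (Fin 2) K) : Prop where
  ha : 0 < a
  hab : a ≤ b
  cop : Nat.Coprime a b
  hmu : ∀ j, 0 < mu j
  hom : ∀ h e, coeff e (F h) ≠ 0 → wt a b e = d (grp h)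
  ne : ∀ j, ∃ h, grp h = j ∧ F h ≠ 0
  sum : ∑ j, mu j * d j = a + b
  mx : MLt mu grp F (X 0) 1
  my : MLt mu grp F (X 1) 1
  wk : ∀ p, Irreducible p → MLe mu grp F p 1
  st : b = 1 ∨ ∀ p, Irreducible p → MLt mu grp F p 1

end

/-! ### structure near a point -/

section
variable {κ : Type u} [Field κ] {L : Type u} [Field L] [Algebra κ L] {J : Type}

/-- the ball of radius `N` around the point `Q`, with centre truncated at order `N` -/
noncomputable def cen (N : ℕ) (Q : Fin 2 → PowerSeries L) : Fin 2 → AA L :=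
  fun j => cA ((PowerSeries.trunc N (Q j) : Polynomial L) : PowerSeries L) +
    PowerSeries.X ^ N * xA j

/-- Near the point `Q` the functions `f h` are powers of one smooth function: in all small balls
their residue is a power of one linear function. -/
def LinStr (Q : Fin 2 → PowerSeries L) (f : J → AA κ) (B a : J → ℕ) (N₀ : ℕ) : Prop :=
  ∀ N, N₀ ≤ N → ∃ (p q s : L) (g : J → L), ¬ (p = 0 ∧ q = 0) ∧ ∀ h, f h ≠ 0 →
    g h ≠ 0 ∧ PowerSeries.X ^ (a h + (N - N₀) * B h) ∣ ev (cen N Q) (f h) ∧
    PowerSeries.coeff (a h + (N - N₀) * B h) (ev (cen N Q) (f h)) =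
      C (g h) * (C p * X 0 + C q * X 1 + C s) ^ B h

/-- the arc without its first `N` coefficients -/
noncomputable def shiftP {L : Type*} [CommRing L] (N : ℕ) (P : Fin 2 → PowerSeries L) :
    Fin 2 → PowerSeries L :=
  fun j => PowerSeries.mk fun n => PowerSeries.coeff (n + N) (P j)

/-- In the ball of radius `N₀` around `Q` the functions `f h` are products of powers of `τ`, powers
of one function `G` which vanishes at `Q` and has a linear residue, and units. -/
def PowStr (Q : Fin 2 → PowerSeries L) (f : J → AA κ) (B : J → ℕ) : Prop :=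
  ∃ (N₀ : ℕ) (G : AA L) (p q s : L) (a : J → ℕ) (U : J → AA L), ¬ (p = 0 ∧ q = 0) ∧
    PowerSeries.coeff 0 G = C p * X 0 + C q * X 1 + C s ∧ ev (shiftP N₀ Q) G = 0 ∧
    ∀ h, f h ≠ 0 → ev (cen N₀ Q) (f h) = PowerSeries.X ^ a h * G ^ B h * U h ∧
      ∃ u : L, u ≠ 0 ∧ PowerSeries.coeff 0 (U h) = C u

/-- `G` is the composition of `F` with `(x - z 0, y - p(x))`, where `a deg p < b` and this map
vanishes at `z` -/
def Tr (a b : ℕ) (F G : J → MvPolynomial (Fin 2) (PowerSeries κ)) (z : Fin 2 → PowerSeries κ) :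
    Prop :=
  ∃ p : Polynomial (KK κ), a * p.natDegree < b ∧
    p.eval (algebraMap (PowerSeries κ) (KK κ) (z 0)) = algebraMap (PowerSeries κ) (KK κ) (z 1) ∧
    ∀ h, toKK (G h) = aeval ![X 0 - C (algebraMap (PowerSeries κ) (KK κ) (z 0)),
      X 1 - Polynomial.aeval (X 0 : MvPolynomial (Fin 2) (KK κ)) p] (toKK (F h))

end

end M3
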