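import Pool.Agent.MLD.ArcDefs
import Pool.Agent.MLD.ArcHt
import Pool.Agent.MLD.ArcTB
import Pool.Agent.M3.CodB

/-!
PIECE M3-D01: degeneration of algebraically independent families.

`degen_alg` is copied from `Pool/Agent/MLD/ArcP2.lean`.

PROOF of `degen_w`. Apply `degen_alg` with `B := LaurentPolynomial L`, `g none := T 1`, `g (some t) := C (c t) * T (ω t)`,
`b := T (-1)`.  `b` is not in the algebra generated by the `g o`: all of them lie in the image of
`Polynomial.toLaurent`, a subalgebra which does not contain `T (-1)`.  The family `g none`, `g (some t)`, `t ∈ T`, is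
algebraically independent over `k`: compare the proof of `gen_indep` in `ArcP2.lean` (there with exponents
`- w t`; a polynomial relation `∑ a_(i,ν) T^i ∏ (c t T^(ω t))^(ν t) = 0`: the coefficient of `T^N` is
`∑_(i + ω ν = N) a_(i,ν) c^ν`, a relation between the independent `c t`).
With `π` from `degen_alg` put `c₀ t := π ⟨g (some t), _⟩`.  If `aeval (..) Φ = 0` in `Polynomial L` then
`aeval g Φ = 0` in `B` (apply `Polynomial.toLaurent`), hence `aeval (fun o => ⟨g o, _⟩) Φ = 0` in the subalgebra
(injective into `B`), apply `π`.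
-/

open MvPolynomial

namespace M3

universe u

open MLD in
theorem degen_alg {k B : Type u} [Field k] [CommRing B] [IsDomain B] [Algebra k B]
    {ι : Type} [Fintype ι] [DecidableEq ι] (g : Option ι → B) (b : B) (hb : g none * b = 1)
    (hbA : b ∉ Algebra.adjoin k (Set.range g)) (T : Finset ι)
    (hT : AlgebraicIndependent k (fun o : Option T => g (o.map Subtype.val))) :
    ∃ (L₀ : Type u) (_ : Field L₀) (_ : Algebra k L₀)
      (π : Algebra.adjoin k (Set.range g) →ₐ[k] L₀),
      π ⟨g none, Algebra.subset_adjoin ⟨none, rfl⟩⟩ = 0 ∧ ∃ T₀ : Finset ι, T.card ≤ T₀.card ∧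
        AlgebraicIndependent k
          (fun t : T₀ => π ⟨g (some t), Algebra.subset_adjoin ⟨some t, rfl⟩⟩) := by
  set A := Algebra.adjoin k (Set.range g) with hA
  have hfin : Algebra.FiniteType k A :=
    (Subalgebra.fg_iff_finiteType _).1 (Subalgebra.fg_def.2 ⟨_, Set.finite_range g, rfl⟩)
  let gA : Option ι → A := fun o => ⟨g o, Algebra.subset_adjoin ⟨o, rfl⟩⟩
  have e : Fin (T.card + 1) ≃ Option T := (Fintype.equivFinOfCardEq (by simp)).symm
  have hne : gA none ≠ 0 := by
    intro h
    have h1 : g none = 0 := congrArg Subtype.val h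
    rw [h1, zero_mul] at hb
    exact zero_ne_one hb
  have hnu : ¬ IsUnit (gA none) := by
    intro h
    obtain ⟨a, ha⟩ := h.exists_right_inv
    have h1 : g none * (a : B) = 1 := congrArg Subtype.val ha
    have h2 : (a : B) = b := by
      have h3 : g none ≠ 0 := fun h0 => hne (Subtype.ext h0)
      exact mul_left_cancel₀ h3 (h1.trans hb.symm)
    exact hbA (h2 ▸ a.2)
  have hy0 : AlgebraicIndependent k (fun o : Option T => gA (o.map Subtype.val)) := by
    rw [← AlgHom.algebraicIndependent_iff A.val Subtype.val_injective]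
    exact hT
  have hy : AlgebraicIndependent k ((fun o : Option T => gA (o.map Subtype.val)) ∘ e) :=
    (algebraicIndependent_equiv e).2 hy0
  obtain ⟨q, hq, hτ, y', hy'⟩ := arc_ht (gA none) hne hnu T.card _ hy
  have hdom : IsDomain (A ⧸ q) := Ideal.Quotient.isDomain q
  let g' : ι → A ⧸ q := fun t => Ideal.Quotient.mk q (gA (some t))
  have hg' : Algebra.adjoin k (Set.range g') = ⊤ := by
    have h1 : Algebra.adjoin k (Set.range gA) = ⊤ := by
      apply Subalgebra.map_injective (f := A.val) Subtype.val_injective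
      rw [AlgHom.map_adjoin, Algebra.map_top, Subalgebra.range_val, ← Set.range_comp]
      exact hA.symm
    have h2 : (Algebra.adjoin k (Set.range gA)).map (Ideal.Quotient.mkₐ k q) = ⊤ := by
      rw [h1, Algebra.map_top, AlgHom.range_eq_top]
      exact Ideal.Quotient.mkₐ_surjective k q
    rw [eq_top_iff, ← h2, AlgHom.map_adjoin, ← Set.range_comp, Algebra.adjoin_le_iff]
    rintro _ ⟨o, rfl⟩
    cases o with
    | none =>
      have h3 : (Ideal.Quotient.mkₐ k q) (gA none) = 0 := Ideal.Quotient.eq_zero_iff_mem.2 hτ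
      rw [Function.comp_apply, h3]
      exact Subalgebra.zero_mem _
    | some t => exact Algebra.subset_adjoin ⟨t, rfl⟩
  obtain ⟨T₀, hT₀, hind⟩ := arc_tb g' hg' T.card _ hy'
  refine ⟨FractionRing (A ⧸ q), inferInstance, inferInstance,
    (IsScalarTower.toAlgHom k (A ⧸ q) (FractionRing (A ⧸ q))).comp (Ideal.Quotient.mkₐ k q),
    ?_, T₀, hT₀, ?_⟩
  · have h3 : (Ideal.Quotient.mkₐ k q) (gA none) = 0 := Ideal.Quotient.eq_zero_iff_mem.2 hτ
    change (IsScalarTower.toAlgHom k (A ⧸ q) (FractionRing (A ⧸ q)))
      ((Ideal.Quotient.mkₐ k q) (gA none)) = 0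
    rw [h3, map_zero]
  · exact (AlgHom.algebraicIndependent_iff
      (IsScalarTower.toAlgHom k (A ⧸ q) (FractionRing (A ⧸ q)))
      (IsFractionRing.injective (A ⧸ q) (FractionRing (A ⧸ q)))).2 hind

section sub
variable {k : Type*} [Field k] {κ : Type*}

/-- the elements `T`, `c t * T ^ w t` -/
private noncomputable def gen {R : Type*} [CommRing R] (w : κ → ℤ) (c : κ → R) (o : Option κ) :
    LaurentPolynomial R :=
  o.elim (LaurentPolynomial.T 1)
    (fun t => LaurentPolynomial.C (c t) * LaurentPolynomial.T (w t))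

private noncomputable def sbs (k : Type*) [Field k] {κ : Type*} {R : Type*} [CommRing R]
    [Algebra k R] (w : κ → ℤ) (c : κ → R) :
    MvPolynomial (Option κ) k →ₐ[k] LaurentPolynomial R :=
  aeval (gen w c)

private theorem sbs_nat {R R' : Type*} [CommRing R] [Algebra k R] [CommRing R'] [Algebra k R']
    (φ : R →ₐ[k] R') (w : κ → ℤ) (c : κ → R) (P : MvPolynomial (Option κ) k) (n : ℤ) :
    (sbs k w (fun t => φ (c t)) P).coeff n = φ ((sbs k w c P).coeff n) := by
  have h : (AddMonoidAlgebra.mapAlgHom ℤ φ).comp (sbs k w c) = sbs k w (fun t => φ (c t)) := by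
    apply MvPolynomial.algHom_ext
    intro o
    simp only [sbs, AlgHom.comp_apply, aeval_X]
    cases o with
    | none =>
      simp only [gen, Option.elim]
      unfold LaurentPolynomial.T
      rw [AddMonoidAlgebra.mapAlgHom_single, map_one]
    | some t =>
      simp only [gen, Option.elim]
      rw [← LaurentPolynomial.single_eq_C_mul_T, ← LaurentPolynomial.single_eq_C_mul_T,
        AddMonoidAlgebra.mapAlgHom_single]
  rw [← h, AlgHom.comp_apply, AddMonoidAlgebra.coeff_mapAlgHom]

/-- the unit `T` -/
private noncomputable def Tu (R : Type*) [CommRing R] : (LaurentPolynomial R)ˣ :=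
  ⟨LaurentPolynomial.T 1, LaurentPolynomial.T (-1), by
    rw [← LaurentPolynomial.T_add, add_neg_cancel, LaurentPolynomial.T_zero], by
    rw [← LaurentPolynomial.T_add, neg_add_cancel, LaurentPolynomial.T_zero]⟩

private theorem Tu_zpow (R : Type*) [CommRing R] (n : ℤ) :
    ((Tu R ^ n : (LaurentPolynomial R)ˣ) : LaurentPolynomial R) = LaurentPolynomial.T n := by
  obtain ⟨m, rfl | rfl⟩ := Int.eq_nat_or_neg n
  · rw [zpow_natCast, Units.val_pow_eq_pow_val]
    change (LaurentPolynomial.T 1) ^ m = _
    rw [LaurentPolynomial.T_pow, mul_one]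
  · rw [zpow_neg, zpow_natCast, ← inv_pow, Units.val_pow_eq_pow_val]
    change (LaurentPolynomial.T (-1)) ^ m = _
    rw [LaurentPolynomial.T_pow, mul_neg, mul_one]

private noncomputable def f0 (k : Type*) [Field k] {κ : Type*} (w : κ → ℤ) :
    MvPolynomial κ k →ₐ[k] LaurentPolynomial (MvPolynomial κ k) :=
  aeval fun t => LaurentPolynomial.C (X t) * LaurentPolynomial.T (-w t)

private noncomputable def Th (k : Type*) [Field k] {κ : Type*} (w : κ → ℤ) :
    LaurentPolynomial (MvPolynomial κ k) →+* LaurentPolynomial (MvPolynomial κ k) :=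
  LaurentPolynomial.eval₂ (f0 k w).toRingHom (Tu _)

private theorem Th_C (w : κ → ℤ) (a : MvPolynomial κ k) :
    Th k w (LaurentPolynomial.C a) = f0 k w a := by
  unfold Th
  rw [LaurentPolynomial.eval₂_C]
  rfl

private theorem Th_T (w : κ → ℤ) (n : ℤ) :
    Th k w (LaurentPolynomial.T n) = LaurentPolynomial.T n := by
  unfold Th
  rw [LaurentPolynomial.eval₂_T, Tu_zpow]

private theorem Th_key (w : κ → ℤ) (P : MvPolynomial (Option κ) k) :
    Th k w (sbs k w (X : κ → MvPolynomial κ k) P) =
      Polynomial.toLaurent (optionEquivLeft k κ P) := by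
  induction P using MvPolynomial.induction_on with
  | C a =>
    have e1 : sbs k w (X : κ → MvPolynomial κ k) (C a) =
        LaurentPolynomial.C (algebraMap k (MvPolynomial κ k) a) := by
      rw [sbs, aeval_C, LaurentPolynomial.algebraMap_apply]
    have e2 : f0 k w (algebraMap k (MvPolynomial κ k) a) =
        LaurentPolynomial.C (algebraMap k (MvPolynomial κ k) a) := by
      rw [AlgHom.commutes, LaurentPolynomial.algebraMap_apply]
    rw [e1, Th_C, e2, optionEquivLeft_C, Polynomial.toLaurent_C, MvPolynomial.algebraMap_eq]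
  | add p q hp hq => rw [map_add, map_add, map_add, map_add, hp, hq]
  | mul_X p o hp =>
    have e0 : Th k w (sbs k w (X : κ → MvPolynomial κ k) (X o)) =
        Polynomial.toLaurent (optionEquivLeft k κ (X o)) := by
      rw [sbs, aeval_X]
      cases o with
      | none =>
        rw [optionEquivLeft_X_none, Polynomial.toLaurent_X]
        simp only [gen, Option.elim]
        rw [Th_T]
      | some t =>
        rw [optionEquivLeft_X_some, Polynomial.toLaurent_C]
        simp only [gen, Option.elim]
        rw [map_mul, Th_C, Th_T, f0, aeval_X, LaurentPolynomial.mul_T_assoc, neg_add_cancel,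
          LaurentPolynomial.T_zero, mul_one]
    rw [map_mul, map_mul, map_mul, map_mul, hp, e0]

private theorem sbs_inj (w : κ → ℤ) :
    Function.Injective (sbs k w (X : κ → MvPolynomial κ k)) := by
  intro P Q hPQ
  have h1 : Polynomial.toLaurent (optionEquivLeft k κ P) =
      Polynomial.toLaurent (optionEquivLeft k κ Q) := by
    rw [← Th_key w, ← Th_key w, hPQ]
  exact (optionEquivLeft k κ).injective (Polynomial.toLaurent_injective h1)

/-- the elements `T`, `c t * T ^ w t` are independent if the `c t` are -/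
private theorem gen_indep {R : Type*} [CommRing R] [Algebra k R] (w : κ → ℤ) (c : κ → R)
    (hc : AlgebraicIndependent k c) : AlgebraicIndependent k (gen w c) := by
  have h0 : Function.Injective (sbs k w c) := by
    intro P Q hPQ
    apply sbs_inj w
    apply LaurentPolynomial.ext
    intro n
    apply hc
    have h1 := sbs_nat (aeval c : MvPolynomial κ k →ₐ[k] R) w X P n
    have h2 := sbs_nat (aeval c : MvPolynomial κ k →ₐ[k] R) w X Q n
    simp only [aeval_X] at h1 h2
    rw [← h1, ← h2, hPQ]
  exact h0

/-- the elements `T`, `c t * T ^ w t` come from polynomials if `0 ≤ w t` -/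
private theorem gen_nat {R : Type*} [CommRing R] [Algebra k R] (w : κ → ℕ) (c : κ → R)
    (Φ : MvPolynomial (Option κ) k) :
    aeval (gen (fun t => (w t : ℤ)) c) Φ = Polynomial.toLaurent
      (aeval (fun o : Option κ => o.elim (Polynomial.X : Polynomial R)
        (fun t => Polynomial.C (c t) * Polynomial.X ^ w t)) Φ) := by
  have h : aeval (gen (fun t => (w t : ℤ)) c) =
      ((Polynomial.toLaurentAlg (R := R)).restrictScalars k).comp
      (aeval (fun o : Option κ => o.elim (Polynomial.X : Polynomial R)
        (fun t => Polynomial.C (c t) * Polynomial.X ^ w t))) := by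
    apply MvPolynomial.algHom_ext
    intro o
    simp only [AlgHom.comp_apply, aeval_X, AlgHom.restrictScalars_apply,
      Polynomial.toLaurentAlg_apply]
    cases o with
    | none =>
      simp only [gen, Option.elim]
      rw [Polynomial.toLaurent_X]
    | some t =>
      simp only [gen, Option.elim]
      rw [map_mul, Polynomial.toLaurent_C, Polynomial.toLaurent_X_pow]
  rw [h]
  rfl

/-- `T⁻¹` is not in the algebra generated by `T` and the `c t * T ^ w t` if `0 ≤ w t` -/
private theorem gen_unit {R : Type*} [CommRing R] [Nontrivial R] [Algebra k R] (w : κ → ℕ)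
    (c : κ → R) :
    LaurentPolynomial.T (-1) ∉ Algebra.adjoin k (Set.range (gen (fun t => (w t : ℤ)) c)) := by
  intro hmem
  rw [Algebra.adjoin_range_eq_range_aeval] at hmem
  obtain ⟨G, hG⟩ := hmem
  have hG' : aeval (gen (fun t => (w t : ℤ)) c) G = LaurentPolynomial.T (-1) := hG
  rw [gen_nat] at hG'
  set p := aeval (fun o : Option κ => o.elim (Polynomial.X : Polynomial R)
        (fun t => Polynomial.C (c t) * Polynomial.X ^ w t)) G with hp
  have h1 : Polynomial.toLaurent (p * Polynomial.X) = Polynomial.toLaurent (1 : Polynomial R) := by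
    rw [map_mul, hG', Polynomial.toLaurent_X, ← LaurentPolynomial.T_add, neg_add_cancel,
      LaurentPolynomial.T_zero, map_one]
  have h2 := Polynomial.toLaurent_injective h1
  have h3 := congrArg (fun q => Polynomial.coeff q 0) h2
  simp at h3

end sub

theorem degen_w {k : Type u} [Field k] {L : Type u} [Field L] [Algebra k L] {ι : Type} [Fintype ι]
    [DecidableEq ι] (c : ι → L) (ω : ι → ℕ) (T : Finset ι)
    (hT : AlgebraicIndependent k (fun t : T => c t)) :
    ∃ (L₀ : Type u) (_ : Field L₀) (_ : Algebra k L₀) (c₀ : ι → L₀),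
      (∃ T₀ : Finset ι, T.card ≤ T₀.card ∧ AlgebraicIndependent k (fun t : T₀ => c₀ t)) ∧
      ∀ Φ : MvPolynomial (Option ι) k,
        aeval (fun o : Option ι => o.elim (Polynomial.X : Polynomial L)
          (fun t => Polynomial.C (c t) * Polynomial.X ^ ω t)) Φ = 0 →
        aeval (fun o : Option ι => o.elim (0 : L₀) c₀) Φ = 0 := by
  classical
  have hT0 := gen_indep (k := k) (fun t : T => ((ω t : ℕ) : ℤ)) _ hT
  have hu := gen_unit (k := k) ω c
  set g : Option ι → LaurentPolynomial L := gen (fun t => (ω t : ℤ)) c with hg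
  have hT' : AlgebraicIndependent k (fun o : Option T => g (o.map Subtype.val)) := by
    have h1 : (fun o : Option T => g (o.map Subtype.val)) =
        gen (fun t : T => ((ω t : ℕ) : ℤ)) (fun t : T => c t) := by
      funext o
      cases o <;> rfl
    rw [h1]
    exact hT0
  have hb : g none * LaurentPolynomial.T (-1) = 1 := by
    change LaurentPolynomial.T 1 * LaurentPolynomial.T (-1) = 1
    rw [← LaurentPolynomial.T_add, add_neg_cancel, LaurentPolynomial.T_zero]
  obtain ⟨L₀, iF, iA, π, hπ, T₀, hT₀, hind₀⟩ := degen_alg g _ hb hu T hT'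
  refine ⟨L₀, iF, iA, fun t => π ⟨g (some t), Algebra.subset_adjoin ⟨some t, rfl⟩⟩,
    ⟨T₀, hT₀, hind₀⟩, ?_⟩
  intro Φ hΦ
  have h1 : aeval g Φ = 0 := by
    rw [hg, gen_nat, hΦ, map_zero]
  let gA : Option ι → Algebra.adjoin k (Set.range g) :=
    fun o => ⟨g o, Algebra.subset_adjoin ⟨o, rfl⟩⟩
  have h2 : aeval gA Φ = 0 := by
    have h3 : (Algebra.adjoin k (Set.range g)).val (aeval gA Φ) = aeval g Φ := by
      rw [← AlgHom.comp_apply, MvPolynomial.comp_aeval]
      rfl
    rw [h1] at h3
    exact Subtype.ext h3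
  have h4 : π (aeval gA Φ) = 0 := by rw [h2, map_zero]
  rw [← AlgHom.comp_apply, MvPolynomial.comp_aeval] at h4
  have h5 : (fun o : Option ι => o.elim (0 : L₀)
      (fun t => π ⟨g (some t), Algebra.subset_adjoin ⟨some t, rfl⟩⟩)) = fun o => π (gA o) := by
    funext o
    cases o with
    | none => exact hπ.symm
    | some t => rfl
  rw [h5]
  exact h4

end M3
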