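import Pool.Agent.MLD.Seq
import Pool.Agent.M3.Defs

/-!
PIECE M3-X06: generators of the limit of a sequence of ideals.

PROOF. For each `j` apply `noeth_seq` (MLD/Seq.lean) to `S i := (a i j : Set _)` (nonempty, contains `0`): `N j`,
`p j l`, `LNZ (p j l)`. `J := Σ j : Fin r, Fin (N j)`, `grp := Sigma.fst`.
`N j > 0`: by `hM` and the ultrafilter (finitely many monomials of degree `≤ M`) there are a monomial `m₀`
and `q i ∈ a i j` with `coeff m₀ (q i) ≠ 0` for almost all `i` (`q i := 0` for the others); if `N j = 0` then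
`noeth_seq` with `n = M + 1` says `coeff m₀ (q i) = 0` for almost all `i`.
`μ j := ` the minimum over `l` of the minimal degree of a monomial `m` with `coeff m (p j l i) ≠ 0` almost
everywhere (exists by `LNZ`; `Nat.find` of `∃ l m, m.degree = d ∧ ∀ᶠ i, coeff m (p j l i) ≠ 0`). For `d < μ j`
and all monomials of degree `d`: not (almost everywhere `≠ 0`), so almost everywhere `= 0`
(`Ultrafilter.eventually_not`); finitely many monomials of degree `< μ j`.
Last statement: fix `j` and `s` (finitely many `j`). Suppose it is false for almost all `i`: choose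
`q i ∈ a i j` for which no `H` exists (`q i := 0` for the other `i`); `noeth_seq` with `n := s` gives `h` which
works for almost all `i`: contradiction. (For `H` put `0` outside the group `j`, sums over
`Σ j, Fin (N j)` by `Fintype.sum_sigma` and `Finset.sum_eq_single j`.)
-/

open MvPolynomial Filter

namespace M3

open MLD

universe u

theorem gen_seq {k : Type u} [Field k] {r : ℕ}
    (a : ℕ → Fin r → Ideal (MvPolynomial (Fin 3) k)) (M : ℕ)
    (hM : ∀ᶠ i in Uf, ∀ j, ∃ f ∈ a i j, ∃ m : Fin 3 →₀ ℕ, m.degree ≤ M ∧ coeff m f ≠ 0) :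
    ∃ (J : Type) (_ : Fintype J) (grp : J → Fin r) (p : J → ℕ → MvPolynomial (Fin 3) k)
      (μ : Fin r → ℕ), (∀ h i, p h i ∈ a i (grp h)) ∧
      (∀ᶠ i in Uf, ∀ h, ∀ d < μ (grp h), homogeneousComponent d (p h i) = 0) ∧
      (∀ j, ∃ h, grp h = j ∧ ∃ m : Fin 3 →₀ ℕ, m.degree = μ j ∧
        ∀ᶠ i in Uf, coeff m (p h i) ≠ 0) ∧
      ∀ s : ℕ, ∀ᶠ i in Uf, ∀ j, ∀ q ∈ a i j, ∃ H : J → MvPolynomial (Fin 3) k,
        (∀ h, ¬ grp h = j → H h = 0) ∧
        ∀ m : Fin 3 →₀ ℕ, m.degree < s → coeff m (q - ∑ h, H h * p h i) = 0 := by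
  classical
  choose N p hp1 hp2 hp3 using fun j : Fin r =>
    noeth_seq (k := k) (fun i => ((a i j : Ideal (MvPolynomial (Fin 3) k)) :
      Set (MvPolynomial (Fin 3) k))) (fun i => ⟨0, (a i j).zero_mem⟩)
  have hN : ∀ j, 0 < N j := by
    intro j
    rcases Nat.eq_zero_or_pos (N j) with h0 | h0
    · exfalso
      have hq : ∀ i, ∃ q, q ∈ a i j ∧ ((∃ f ∈ a i j, ∃ m : Fin 3 →₀ ℕ, m.degree ≤ M ∧
          coeff m f ≠ 0) → ∃ m : Fin 3 →₀ ℕ, m.degree ≤ M ∧ coeff m q ≠ 0) := by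
        intro i
        by_cases h : ∃ f ∈ a i j, ∃ m : Fin 3 →₀ ℕ, m.degree ≤ M ∧ coeff m f ≠ 0
        · obtain ⟨f, hf, h2⟩ := h
          exact ⟨f, hf, fun _ => h2⟩
        · exact ⟨0, (a i j).zero_mem, fun h' => absurd h' h⟩
      choose q hq1 hq2 using hq
      obtain ⟨h, hh⟩ := hp3 j q hq1 (M + 1)
      obtain ⟨i, hi1, hi2⟩ := (hM.and hh).exists
      obtain ⟨m, hm1, hm2⟩ := hq2 i (hi1 j)
      have h3 := hi2 m (by omega)
      have h4 : ∑ l : Fin (N j), h l i * p j l i = 0 :=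
        Finset.sum_eq_zero fun l _ => absurd l.2 (by omega)
      rw [h4, sub_zero] at h3
      exact hm2 h3
    · exact h0
  have hex : ∀ j, ∃ d : ℕ, ∃ (l : Fin (N j)) (m : Fin 3 →₀ ℕ), m.degree = d ∧
      ∀ᶠ i in Uf, coeff m (p j l i) ≠ 0 := by
    intro j
    obtain ⟨m, hm⟩ := hp2 j ⟨0, hN j⟩
    exact ⟨m.degree, ⟨0, hN j⟩, m, rfl, hm⟩
  refine ⟨Σ j : Fin r, Fin (N j), inferInstance, fun h => h.1, fun h i => p h.1 h.2 i,
    fun j => Nat.find (hex j), fun h i => hp1 h.1 h.2 i, ?_, ?_, ?_⟩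
  · rw [Filter.eventually_all]
    intro h
    have hfin : {f : Fin 3 →₀ ℕ | f.degree < Nat.find (hex h.1)}.Finite :=
      Finsupp.finite_of_degree_lt _
    have key : ∀ m ∈ {f : Fin 3 →₀ ℕ | f.degree < Nat.find (hex h.1)},
        ∀ᶠ i in Uf, coeff m (p h.1 h.2 i) = 0 := by
      intro m hm
      have h1 := Nat.find_min (hex h.1) hm
      have h2 : ¬ ∀ᶠ i in Uf, coeff m (p h.1 h.2 i) ≠ 0 := fun h3 => h1 ⟨h.2, m, rfl, h3⟩
      have h4 := Ultrafilter.eventually_not.2 h2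
      exact h4.mono fun i hi => not_not.1 hi
    have key2 := (Filter.eventually_all_finite hfin).2 key
    refine key2.mono fun i hi d hd => ?_
    ext m
    rw [coeff_homogeneousComponent, coeff_zero]
    split_ifs with hmd
    · exact hi m (by rw [Set.mem_setOf_eq, hmd]; exact hd)
    · rfl
  · intro j
    obtain ⟨l, m, h1, h2⟩ := Nat.find_spec (hex j)
    exact ⟨⟨j, l⟩, rfl, m, h1, h2⟩
  · intro s
    rw [Filter.eventually_all]
    intro j
    by_contra hcon
    have h1 := Ultrafilter.eventually_not.2 hcon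
    have hq : ∀ i, ∃ q, q ∈ a i j ∧ ((¬ ∀ q ∈ a i j,
        ∃ H : (Σ j : Fin r, Fin (N j)) → MvPolynomial (Fin 3) k, (∀ h, ¬ h.1 = j → H h = 0) ∧
        ∀ m : Fin 3 →₀ ℕ, m.degree < s → coeff m (q - ∑ h, H h * p h.1 h.2 i) = 0) →
        ¬ ∃ H : (Σ j : Fin r, Fin (N j)) → MvPolynomial (Fin 3) k, (∀ h, ¬ h.1 = j → H h = 0) ∧
        ∀ m : Fin 3 →₀ ℕ, m.degree < s → coeff m (q - ∑ h, H h * p h.1 h.2 i) = 0) := by
      intro i
      by_cases h : ∀ q ∈ a i j,
        ∃ H : (Σ j : Fin r, Fin (N j)) → MvPolynomial (Fin 3) k, (∀ h, ¬ h.1 = j → H h = 0) ∧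
        ∀ m : Fin 3 →₀ ℕ, m.degree < s → coeff m (q - ∑ h, H h * p h.1 h.2 i) = 0
      · exact ⟨0, (a i j).zero_mem, fun h' => absurd h h'⟩
      · have h2 := h
        push Not at h2
        obtain ⟨q, hq, h3⟩ := h2
        refine ⟨q, hq, fun _ h4 => ?_⟩
        obtain ⟨H, hH1, hH2⟩ := h4
        obtain ⟨m, hm1, hm2⟩ := h3 H hH1
        exact hm2 (hH2 m hm1)
    choose q hq1 hq2 using hq
    obtain ⟨h, hh⟩ := hp3 j q hq1 s
    obtain ⟨i, hi1, hi2⟩ := (h1.and hh).exists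
    refine hq2 i hi1 ⟨fun x => if e : x.1 = j then h (e ▸ x.2) i else 0, fun x hx => dif_neg hx,
      fun m hm => ?_⟩
    have h5 : (∑ x : (Σ j : Fin r, Fin (N j)), (if e : x.1 = j then h (e ▸ x.2) i else 0) *
        p x.1 x.2 i) = ∑ l, h l i * p j l i := by
      rw [Fintype.sum_sigma, Finset.sum_eq_single j]
      · refine Finset.sum_congr rfl fun l _ => ?_
        rw [dif_pos rfl]
      · intro j' _ hj'
        refine Finset.sum_eq_zero fun l _ => ?_
        rw [dif_neg hj', zero_mul]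
      · intro hj
        exact absurd (Finset.mem_univ j) hj
    rw [h5]
    exact hi2 m hm

end M3
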