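import Pool.Agent.MLD.ArcDefs
import Pool.Agent.MLD.ArcHt
import Pool.Agent.MLD.ArcTB
import Pool.Agent.M3.CodB

/-!
PIECE M3-K01: specialization of points with one coordinate equal to zero (Krull).

`HomRel w x`: the ideal of relations of `x` is homogeneous for the weights `w`.
PROOFS. `homRel_scale`: let `L' := FractionRing (Polynomial L)` (or any extension of `L` with an element `T`
transcendental over `L`), `x' t := algebraMap L L' (x t) * T ^ w t`. For every `F`:
`aeval x' F = ∑ d, T ^ d * algebraMap L L' (aeval x (weightedHomogeneousComponent w d F))` (by linearity from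
monomials), so `aeval x' F = 0` iff all `aeval x (F_d) = 0` (`T` is transcendental). All statements
follow. (For the independence: a relation `G(x' restricted to S) = 0`, rename `G` to all variables, its
components are relations of `x` restricted to `S`, so they are zero, `G = ∑ G_d = 0`.)
`krull_one`: if `x t₀ = 0` take `x' = x`. If `S = ∅` take `x' = 0` in `k` (`aeval 0 F = constantCoeff F` is the
component of weight zero since the weights are positive). Otherwise let
`A := Algebra.adjoin k (Set.range x)`, a domain of finite type, `τ := x t₀ ≠ 0`. `τ` is not a unit: by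
`HomRel` (component of weight zero) `aeval x F = 0` implies `constantCoeff F = 0`, so if `τ * a = 1` with
`a = aeval x G` then `F := X t₀ * G - 1` has constant coefficient `-1`, contradiction. `arc_ht` with
`N + 1 = S.card` gives the prime `q ∋ τ`; `arc_tb` (as in the proof of `degen_alg` in `M3/Degen.lean`) gives
`T₀ ⊆ ι` with `N ≤ T₀.card` such that the residues of `x t`, `t ∈ T₀`, are independent in `Frac(A / q)`. Then apply
`homRel_scale` to the residues `x₁ : ι → Frac (A / q)`: if `aeval x F = 0` then all `aeval x F_d = 0`, so all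
`aeval x₁ F_d = 0`, so `aeval x' F = 0`.
`krull_many`: induction on the finset `T`.
-/

open MvPolynomial

namespace M3

universe u

/-- the ideal of relations of `x` is homogeneous for the weights `w` -/
def HomRel {k L : Type*} [Field k] [Field L] [Algebra k L] {ι : Type} (w : ι → ℕ) (x : ι → L) :
    Prop :=
  ∀ F : MvPolynomial ι k, aeval x F = 0 → ∀ d, aeval x (weightedHomogeneousComponent w d F) = 0

section sc
variable {k : Type*} [Field k] {L : Type*} [Field L] [Algebra k L] {ι : Type*}

/-- the curve `t ↦ x t * T ^ w t` -/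
private noncomputable def sc (k : Type*) [Field k] {L : Type*} [Field L] [Algebra k L] {ι : Type*}
    (w : ι → ℕ) (x : ι → L) : MvPolynomial ι k →ₐ[k] Polynomial L :=
  aeval fun t => Polynomial.C (x t) * Polynomial.X ^ w t

private theorem sc_monomial (w : ι → ℕ) (x : ι → L) (m : ι →₀ ℕ) (a : k) :
    sc k w x (monomial m a) =
      Polynomial.C (aeval x (monomial m a)) * Polynomial.X ^ (Finsupp.weight w m) := by
  unfold sc
  rw [aeval_monomial, aeval_monomial, map_mul, Finsupp.weight_apply, Finsupp.prod, Finsupp.prod,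
    Finsupp.sum, map_prod, ← Finset.prod_pow_eq_pow_sum, mul_assoc, ← Finset.prod_mul_distrib]
  congr 1
  refine Finset.prod_congr rfl fun t _ => ?_
  rw [mul_pow, map_pow, ← pow_mul, smul_eq_mul, mul_comm (m t)]

private theorem sc_coeff (w : ι → ℕ) (x : ι → L) (F : MvPolynomial ι k) (e : ℕ) :
    (sc k w x F).coeff e = aeval x (weightedHomogeneousComponent w e F) := by
  induction F using MvPolynomial.induction_on' with
  | monomial m a =>
    rw [sc_monomial, Polynomial.coeff_C_mul, Polynomial.coeff_X_pow]
    have h : IsWeightedHomogeneous w (monomial m a) (Finsupp.weight w m) :=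
      isWeightedHomogeneous_monomial w m a rfl
    by_cases he : e = Finsupp.weight w m
    · rw [if_pos he, mul_one, he, h.weightedHomogeneousComponent_same]
    · rw [if_neg he, mul_zero, h.weightedHomogeneousComponent_ne e he, map_zero]
  | add p q hp hq => rw [map_add, Polynomial.coeff_add, hp, hq, map_add, map_add]

private theorem sc_eq_zero (w : ι → ℕ) (x : ι → L) (F : MvPolynomial ι k) :
    sc k w x F = 0 ↔ ∀ d, aeval x (weightedHomogeneousComponent w d F) = 0 := by
  constructor
  · intro h d
    rw [← sc_coeff, h, Polynomial.coeff_zero]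
  · intro h
    ext d
    rw [sc_coeff, h, Polynomial.coeff_zero]

private theorem sc_eval (w : ι → ℕ) (x : ι → L) (F : MvPolynomial ι k) :
    aeval (fun t => algebraMap L (FractionRing (Polynomial L)) (x t) *
        algebraMap (Polynomial L) (FractionRing (Polynomial L)) Polynomial.X ^ w t) F =
      algebraMap (Polynomial L) (FractionRing (Polynomial L)) (sc k w x F) := by
  have h : (aeval (fun t => algebraMap L (FractionRing (Polynomial L)) (x t) *
        algebraMap (Polynomial L) (FractionRing (Polynomial L)) Polynomial.X ^ w t) :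
        MvPolynomial ι k →ₐ[k] FractionRing (Polynomial L)) =
      (IsScalarTower.toAlgHom k (Polynomial L) (FractionRing (Polynomial L))).comp
        (sc k w x) := by
    apply MvPolynomial.algHom_ext
    intro t
    rw [AlgHom.comp_apply, aeval_X, sc, aeval_X, IsScalarTower.coe_toAlgHom', map_mul, map_pow]
    rfl
  rw [h]
  rfl

private theorem sc_eval_zero (w : ι → ℕ) (x : ι → L) (F : MvPolynomial ι k) :
    aeval (fun t => algebraMap L (FractionRing (Polynomial L)) (x t) *
        algebraMap (Polynomial L) (FractionRing (Polynomial L)) Polynomial.X ^ w t) F = 0 ↔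
      ∀ d, aeval x (weightedHomogeneousComponent w d F) = 0 := by
  rw [sc_eval, ← sc_eq_zero]
  constructor
  · intro h
    apply IsFractionRing.injective (Polynomial L) (FractionRing (Polynomial L))
    rw [h, map_zero]
  · intro h
    rw [h, map_zero]

private theorem sc_indep (w : ι → ℕ) (x : ι → L) (hx : AlgebraicIndependent k x) :
    AlgebraicIndependent k (fun t => algebraMap L (FractionRing (Polynomial L)) (x t) *
        algebraMap (Polynomial L) (FractionRing (Polynomial L)) Polynomial.X ^ w t) := by
  classical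
  rw [algebraicIndependent_iff] at hx ⊢
  intro G hG
  rw [sc_eval_zero] at hG
  ext m
  have h := hx _ (hG (Finsupp.weight w m))
  have h1 := coeff_weightedHomogeneousComponent (w := w) (Finsupp.weight w m) G m
  rw [if_pos rfl, h, coeff_zero] at h1
  rw [← h1, coeff_zero]

/-- relations have constant coefficient zero -/
private theorem const_zero (w : ι → ℕ) (hw : ∀ t, 0 < w t) (x : ι → L)
    (hx : ∀ F : MvPolynomial ι k, aeval x F = 0 →
      ∀ d, aeval x (weightedHomogeneousComponent w d F) = 0)
    (F : MvPolynomial ι k) (hF : aeval x F = 0) : constantCoeff F = 0 := by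
  have h := hx F hF 0
  rw [weightedHomogeneousComponent_zero F (fun t => (hw t).ne'), aeval_C] at h
  exact (map_eq_zero _).1 h

end sc

theorem homRel_scale {k : Type u} [Field k] {L : Type u} [Field L] [Algebra k L] {ι : Type}
    [Finite ι] (w : ι → ℕ) (x : ι → L) :
    ∃ (L' : Type u) (_ : Field L') (_ : Algebra k L') (_ : Algebra L L')
      (_ : IsScalarTower k L L') (T : L') (x' : ι → L'), T ≠ 0 ∧
      (∀ t, x' t = algebraMap L L' (x t) * T ^ w t) ∧ HomRel (k := k) w x' ∧
      (∀ F : MvPolynomial ι k, (∀ d, aeval x (weightedHomogeneousComponent w d F) = 0) →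
        aeval x' F = 0) ∧
      ∀ S : Finset ι, AlgebraicIndependent k (fun t : S => x t) →
        AlgebraicIndependent k (fun t : S => x' t) := by
  have key := fun (F : MvPolynomial ι k) => sc_eval_zero (k := k) w x F
  refine ⟨FractionRing (Polynomial L), inferInstance, inferInstance, inferInstance, inferInstance,
    algebraMap (Polynomial L) (FractionRing (Polynomial L)) Polynomial.X,
    fun t => algebraMap L (FractionRing (Polynomial L)) (x t) *
      algebraMap (Polynomial L) (FractionRing (Polynomial L)) Polynomial.X ^ w t,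
    ?_, fun t => rfl, ?_, fun F hF => (key F).2 hF, fun S hS => sc_indep (k := k) _ _ hS⟩
  · intro h
    have h1 : (Polynomial.X : Polynomial L) = 0 := by
      apply IsFractionRing.injective (Polynomial L) (FractionRing (Polynomial L))
      rw [h, map_zero]
    exact Polynomial.X_ne_zero h1
  · intro F hF d
    rw [key] at hF ⊢
    intro e
    have h := weightedHomogeneousComponent_isWeightedHomogeneous (w := w) d F
    by_cases he : e = d
    · rw [he, h.weightedHomogeneousComponent_same, hF]
    · rw [h.weightedHomogeneousComponent_ne e he, map_zero]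

theorem krull_one {k : Type u} [Field k] {L : Type u} [Field L] [Algebra k L] {ι : Type}
    [Fintype ι] [DecidableEq ι] (w : ι → ℕ) (hw : ∀ t, 0 < w t) (x : ι → L)
    (hx : HomRel (k := k) w x) (S : Finset ι) (hS : AlgebraicIndependent k (fun t : S => x t))
    (t₀ : ι) :
    ∃ (L' : Type u) (_ : Field L') (_ : Algebra k L') (x' : ι → L'), HomRel (k := k) w x' ∧
      (∀ F : MvPolynomial ι k, aeval x F = 0 → aeval x' F = 0) ∧ x' t₀ = 0 ∧
      ∃ S' : Finset ι, S.card ≤ S'.card + 1 ∧ AlgebraicIndependent k (fun t : S' => x' t) := by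
  classical
  by_cases h0 : x t₀ = 0
  · exact ⟨L, inferInstance, inferInstance, x, hx, fun F hF => hF, h0, S, Nat.le_succ _, hS⟩
  by_cases hSe : S = ∅
  · subst hSe
    have hz : ∀ F : MvPolynomial ι k, aeval (0 : ι → k) F = constantCoeff F := by
      intro F
      rw [MvPolynomial.aeval_zero]
      rfl
    refine ⟨k, inferInstance, inferInstance, 0, ?_, ?_, rfl, ∅, Nat.zero_le _, ?_⟩
    · intro F hF d
      rw [hz, constantCoeff_eq] at hF ⊢
      rw [coeff_weightedHomogeneousComponent, hF, ite_self]
    · intro F hF
      rw [hz]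
      exact const_zero w hw x hx F hF
    · have : IsEmpty {t : ι // t ∈ (∅ : Finset ι)} := ⟨fun t => absurd t.2 (Finset.notMem_empty _)⟩
      rw [algebraicIndependent_empty_type_iff]
      exact (algebraMap k k).injective
  obtain ⟨N, hN⟩ : ∃ N, S.card = N + 1 :=
    Nat.exists_eq_succ_of_ne_zero (fun h => hSe (Finset.card_eq_zero.1 h))
  set A := Algebra.adjoin k (Set.range x) with hA
  have hfin : Algebra.FiniteType k A :=
    (Subalgebra.fg_iff_finiteType _).1 (Subalgebra.fg_def.2 ⟨_, Set.finite_range x, rfl⟩)
  let xA : ι → A := fun t => ⟨x t, Algebra.subset_adjoin ⟨t, rfl⟩⟩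
  have hval : ∀ F : MvPolynomial ι k, ((aeval xA F : A) : L) = aeval x F := by
    intro F
    have h3 : A.val (aeval xA F) = aeval x F := by
      rw [← AlgHom.comp_apply, MvPolynomial.comp_aeval]
      rfl
    exact h3
  have hne : xA t₀ ≠ 0 := fun h => h0 (congrArg Subtype.val h)
  have hnu : ¬ IsUnit (xA t₀) := by
    intro h
    obtain ⟨a, ha⟩ := h.exists_right_inv
    have h1 : x t₀ * (a : L) = 1 := congrArg Subtype.val ha
    have h2 : (a : L) ∈ Algebra.adjoin k (Set.range x) := a.2
    rw [Algebra.adjoin_range_eq_range_aeval] at h2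
    obtain ⟨G, hG⟩ := h2
    have hG' : aeval x G = (a : L) := hG
    have h3 : aeval x (X t₀ * G - 1 : MvPolynomial ι k) = 0 := by
      rw [map_sub, map_mul, aeval_X, hG', h1, map_one, sub_self]
    have h4 := const_zero w hw x hx _ h3
    rw [map_sub, map_mul, constantCoeff_X, zero_mul, map_one, zero_sub] at h4
    exact one_ne_zero (neg_eq_zero.1 h4)
  have e : Fin (N + 1) ≃ S := (Fintype.equivFinOfCardEq (by simpa using hN)).symm
  have hy0 : AlgebraicIndependent k (fun t : S => xA t) := by
    rw [← AlgHom.algebraicIndependent_iff A.val Subtype.val_injective]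
    exact hS
  have hy : AlgebraicIndependent k ((fun t : S => xA t) ∘ e) :=
    (algebraicIndependent_equiv e).2 hy0
  obtain ⟨q, hq, hτ, y', hy'⟩ := MLD.arc_ht (xA t₀) hne hnu N _ hy
  have hdom : IsDomain (A ⧸ q) := Ideal.Quotient.isDomain q
  let g' : ι → A ⧸ q := fun t => Ideal.Quotient.mk q (xA t)
  have hg' : Algebra.adjoin k (Set.range g') = ⊤ := by
    have h1 : Algebra.adjoin k (Set.range xA) = ⊤ := by
      apply Subalgebra.map_injective (f := A.val) Subtype.val_injective
      rw [AlgHom.map_adjoin, Algebra.map_top, Subalgebra.range_val, ← Set.range_comp]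
      exact hA.symm
    have h2 : (Algebra.adjoin k (Set.range xA)).map (Ideal.Quotient.mkₐ k q) = ⊤ := by
      rw [h1, Algebra.map_top, AlgHom.range_eq_top]
      exact Ideal.Quotient.mkₐ_surjective k q
    rw [AlgHom.map_adjoin, ← Set.range_comp] at h2
    exact h2
  obtain ⟨T₀, hT₀, hind⟩ := MLD.arc_tb g' hg' N _ hy'
  let φ : A ⧸ q →ₐ[k] FractionRing (A ⧸ q) :=
    IsScalarTower.toAlgHom k (A ⧸ q) (FractionRing (A ⧸ q))
  let x₁ : ι → FractionRing (A ⧸ q) := fun t => φ (g' t)
  have hind1 : AlgebraicIndependent k (fun t : T₀ => x₁ t) :=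
    (AlgHom.algebraicIndependent_iff φ
      (IsFractionRing.injective (A ⧸ q) (FractionRing (A ⧸ q)))).2 hind
  have hx₁ : ∀ F : MvPolynomial ι k, aeval x F = 0 → aeval x₁ F = 0 := by
    intro F hF
    have h1 : (aeval xA F : A) = 0 := Subtype.ext ((hval F).trans hF)
    have h2 : (φ.comp (Ideal.Quotient.mkₐ k q)) (aeval xA F) = aeval x₁ F := by
      rw [← AlgHom.comp_apply, MvPolynomial.comp_aeval]
      rfl
    rw [← h2, h1, map_zero]
  obtain ⟨L', i1, i2, i3, i4, Tt, x', hT, hx't, hrel, hker, hS'⟩ := homRel_scale (k := k) w x₁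
  refine ⟨L', i1, i2, x', hrel, ?_, ?_, T₀, by omega, hS' T₀ hind1⟩
  · intro F hF
    exact hker F fun d => hx₁ _ (hx F hF d)
  · have h3 : (Ideal.Quotient.mk q) (xA t₀) = 0 := Ideal.Quotient.eq_zero_iff_mem.2 hτ
    have h4 : x₁ t₀ = 0 := by
      show φ (Ideal.Quotient.mk q (xA t₀)) = 0
      rw [h3, map_zero]
    rw [hx't, h4, map_zero, zero_mul]

theorem krull_many {k : Type u} [Field k] {L : Type u} [Field L] [Algebra k L] {ι : Type}
    [Fintype ι] [DecidableEq ι] (w : ι → ℕ) (hw : ∀ t, 0 < w t) (x : ι → L)
    (hx : HomRel (k := k) w x) (S : Finset ι) (hS : AlgebraicIndependent k (fun t : S => x t))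
    (T : Finset ι) :
    ∃ (L' : Type u) (_ : Field L') (_ : Algebra k L') (x' : ι → L'), HomRel (k := k) w x' ∧
      (∀ F : MvPolynomial ι k, aeval x F = 0 → aeval x' F = 0) ∧ (∀ t ∈ T, x' t = 0) ∧
      ∃ S' : Finset ι, S.card ≤ S'.card + T.card ∧
        AlgebraicIndependent k (fun t : S' => x' t) := by
  induction T using Finset.induction_on with
  | empty =>
    exact ⟨L, inferInstance, inferInstance, x, hx, fun F hF => hF,
      fun t ht => absurd ht (Finset.notMem_empty _), S, Nat.le_add_right _ _, hS⟩
  | insert t₀ T ht ih =>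
    obtain ⟨L₁, i1, i2, x₁, h1, h2, h3, S₁, h4, h5⟩ := ih
    obtain ⟨L', j1, j2, x', g1, g2, g3, S', g4, g5⟩ := krull_one (k := k) w hw x₁ h1 S₁ h5 t₀
    refine ⟨L', j1, j2, x', g1, fun F hF => g2 F (h2 F hF), ?_, S', ?_, g5⟩
    · intro t htt
      rcases Finset.mem_insert.1 htt with rfl | htt
      · exact g3
      · have h6 := g2 (X t) (by rw [aeval_X]; exact h3 t htt)
        rwa [aeval_X] at h6
    · rw [Finset.card_insert_of_notMem ht]
      omega

end M3
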