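import Pool.Agent.MLD.Q1

/-!
PIECE M3-X05: log discrepancies are natural numbers; orders of ideals given by generators up to high
order.

PROOFS. `exists_logDisc`: `logDisc` is the infimum over the set of admissible families `D` of
`1 + ord (jac D)`, integers `≥ 1` (see the proof of `one_le_logDisc` in `MLD/IdOrd.lean`; if its lemma is
private copy it). The set is nonempty since otherwise the infimum is `⊤`; take `D` with the
smallest value (`Nat.find` or well-foundedness).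
`ord_gen`: `le_ordI` / `Nat.sInf`: for `q ∈ I`, `q ≠ 0`: `q = ∑ h, H h * p h + ρ`, all monomials of `ρ` have degree
`≥ s`, so `ρ ∈ mm ^ s` and `E.ge s ρ` (`ordI_mm_pow` or directly by monomials), hence
`g * ord ρ ≥ s ≥ v`; `g * ord (H h * p h) ≥ v` when `H h ≠ 0`, `p h ≠ 0`. To handle `g *`: use that
`E.ge N` is closed under addition with the integer `N := ⌈v / g⌉` (`g * x ≥ v ↔ x ≥ ⌈v/g⌉`), i.e.
`N := (v + g - 1) / g`. At the end `N ≤ ordI I` gives `v ≤ g * ordI I`.
-/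

open MvPolynomial

namespace M3

open MLD

universe u

theorem exists_logDisc {k : Type u} [Field k] {σ : Type} [Fintype σ] [DecidableEq σ]
    (E : DivisorOver k σ) (h : E.logDisc ≠ ⊤) :
    ∃ A : ℕ, E.logDisc = (((A : ℕ) : ℝ) : EReal) := by
  classical
  have hpos : ∀ D : {D : σ → Derivation k (FF k σ) (FF k σ) //
      (∀ i, E.IntegralDer (D i)) ∧ DivisorOver.jac D ≠ 0},
      (1 : ℤ) ≤ 1 + E.ord (DivisorOver.jac D.1) := by
    intro D
    have h1 : (1 : EReal) ≤ (((1 + E.ord (DivisorOver.jac D.1) : ℤ) : ℝ) : EReal) :=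
      (one_le_logDisc E).trans (iInf_le _ D)
    have h2 : (1 : ℝ) ≤ ((1 + E.ord (DivisorOver.jac D.1) : ℤ) : ℝ) := by
      exact_mod_cast h1
    exact_mod_cast h2
  have hne : Nonempty {D : σ → Derivation k (FF k σ) (FF k σ) //
      (∀ i, E.IntegralDer (D i)) ∧ DivisorOver.jac D ≠ 0} := by
    by_contra hn
    rw [not_nonempty_iff] at hn
    exact h (iInf_of_empty _)
  obtain ⟨D1⟩ := hne
  have hex : ∃ n : ℕ, ∃ D : {D : σ → Derivation k (FF k σ) (FF k σ) //
      (∀ i, E.IntegralDer (D i)) ∧ DivisorOver.jac D ≠ 0},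
      (1 + E.ord (DivisorOver.jac D.1) : ℤ) = n :=
    ⟨(1 + E.ord (DivisorOver.jac D1.1)).toNat, D1,
      (Int.toNat_of_nonneg (by have := hpos D1; omega)).symm⟩
  obtain ⟨D0, hD0⟩ := Nat.find_spec hex
  refine ⟨Nat.find hex, le_antisymm ?_ ?_⟩
  · refine (iInf_le _ D0).trans ?_
    have h1 : ((1 + E.ord (DivisorOver.jac D0.1) : ℤ) : ℝ) = ((Nat.find hex : ℕ) : ℝ) := by
      rw [hD0, Int.cast_natCast]
    exact (EReal.coe_le_coe_iff.2 h1.le)
  · refine le_iInf fun D => ?_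
    have h1 := hpos D
    have h2 : Nat.find hex ≤ (1 + E.ord (DivisorOver.jac D.1)).toNat :=
      Nat.find_min' hex ⟨D, (Int.toNat_of_nonneg (by omega)).symm⟩
    have h3 : ((Nat.find hex : ℕ) : ℤ) ≤ 1 + E.ord (DivisorOver.jac D.1) := by omega
    have h4 : (((Nat.find hex : ℕ) : ℤ) : ℝ) ≤ ((1 + E.ord (DivisorOver.jac D.1) : ℤ) : ℝ) :=
      Int.cast_le.2 h3
    rw [Int.cast_natCast] at h4
    exact EReal.coe_le_coe_iff.2 h4

private theorem LDisc_aeval {k : Type u} [Field k] (ρ : MvPolynomial (Fin 3) k) :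
    toFF k (Fin 3) ρ = aeval (fun i : Fin 3 => (xx k i : FF k (Fin 3))) ρ := by
  have h : toFF k (Fin 3) = aeval (fun i : Fin 3 => (xx k i : FF k (Fin 3))) := by
    refine MvPolynomial.algHom_ext fun i => ?_
    rw [aeval_X]
    rfl
  rw [h]

private theorem LDisc_ge {k : Type u} [Field k] (E : DivisorOver k (Fin 3)) (hE : E.CenterZero)
    (s : ℕ) (ρ : MvPolynomial (Fin 3) k) (hρ : ∀ m : Fin 3 →₀ ℕ, m.degree < s → coeff m ρ = 0) :
    E.ge s (toFF k (Fin 3) ρ) := by
  rw [LDisc_aeval]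
  refine E.ge_aeval (fun i : Fin 3 => (xx k i : FF k (Fin 3))) (fun _ => 1)
    (fun b => Or.inr (by have := hE b; omega)) ρ s fun m hm => ?_
  have h1 : s ≤ m.degree := by
    by_contra hlt
    exact hm (hρ m (not_le.1 hlt))
  have h2 : (m.sum fun _ n => (n : ℤ) * 1) = ((m.degree : ℕ) : ℤ) := by
    simp [Finsupp.sum, Finsupp.degree]
  rw [h2]
  exact_mod_cast h1

theorem ord_gen {k : Type u} [Field k] (E : DivisorOver k (Fin 3)) (hE : E.CenterZero)
    (I : Ideal (MvPolynomial (Fin 3) k)) (hI : I ≠ ⊥) {J : Type} [Fintype J] (S : J → Prop)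
    (p : J → MvPolynomial (Fin 3) k) (g v s : ℕ) (hg : 0 < g) (hv : v ≤ s)
    (hp : ∀ h, S h → p h ≠ 0 → (v : ℤ) ≤ g * E.ord (toFF k (Fin 3) (p h)))
    (hq : ∀ q ∈ I, ∃ H : J → MvPolynomial (Fin 3) k, (∀ h, ¬ S h → H h = 0) ∧
      ∀ m : Fin 3 →₀ ℕ, m.degree < s → coeff m (q - ∑ h, H h * p h) = 0) :
    v ≤ g * E.ordI I := by
  obtain ⟨N, hN1, hN2⟩ : ∃ N : ℕ, v ≤ g * N ∧ ∀ x : ℤ, (v : ℤ) ≤ g * x → (N : ℤ) ≤ x := by
    refine ⟨(v + g - 1) / g, ?_, ?_⟩
    · have h1 := Nat.lt_mul_div_succ (v + g - 1) hg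
      rw [Nat.mul_add, Nat.mul_one] at h1
      omega
    · intro x hx
      by_contra hlt
      have h1 := Nat.mul_div_le (v + g - 1) g
      have h2 : x + 1 ≤ (((v + g - 1) / g : ℕ) : ℤ) := by omega
      have h3 : (g : ℤ) * (((v + g - 1) / g : ℕ) : ℤ) ≤ (v : ℤ) + g - 1 := by
        have h4 : ((g * ((v + g - 1) / g) : ℕ) : ℤ) ≤ ((v + g - 1 : ℕ) : ℤ) := by
          exact_mod_cast h1
        rw [Nat.cast_mul] at h4
        omega
      have h5 : (g : ℤ) * (x + 1) ≤ (g : ℤ) * (((v + g - 1) / g : ℕ) : ℤ) :=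
        mul_le_mul_of_nonneg_left h2 (by omega)
      have h6 : (g : ℤ) * (x + 1) = g * x + g := by ring
      omega
  have hNs : (N : ℤ) ≤ s := by
    refine hN2 s ?_
    have h1 : (s : ℤ) ≤ g * s := by
      have : (1 : ℤ) * s ≤ g * s := mul_le_mul_of_nonneg_right (by omega) (by omega)
      omega
    omega
  have hNI : N ≤ E.ordI I := by
    refine le_ordI E hI N fun q hq1 hq0 => ?_
    obtain ⟨H, hH1, hH2⟩ := hq q hq1
    have h1 : E.ge N (toFF k (Fin 3) q) := by
      have h2 : q = (∑ h, H h * p h) + (q - ∑ h, H h * p h) := by ring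
      rw [h2, map_add, map_sum]
      refine E.ge_add (E.ge_sum _ _ fun h _ => ?_) ?_
      · rw [map_mul]
        by_cases hS : S h
        · by_cases hp0 : p h = 0
          · rw [hp0, map_zero, mul_zero]
            exact E.ge_zero _
          · have h3 : E.ge N (toFF k (Fin 3) (p h)) := Or.inr (hN2 _ (hp h hS hp0))
            have h4 : E.ge 0 (toFF k (Fin 3) (H h)) := by
              by_cases hH0 : H h = 0
              · rw [hH0, map_zero]
                exact E.ge_zero _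
              · exact Or.inr (E.ord_poly' _ hH0)
            have h5 := E.ge_mul h4 h3
            rwa [zero_add] at h5
        · rw [hH1 h hS, map_zero, zero_mul]
          exact E.ge_zero _
      · exact E.ge_mono hNs (LDisc_ge E hE s _ hH2)
    rcases h1 with h1 | h1
    · exfalso
      apply hq0
      have h : Function.Injective (algebraMap (MvPolynomial (Fin 3) k) (FF k (Fin 3))) :=
        IsFractionRing.injective (MvPolynomial (Fin 3) k) (FF k (Fin 3))
      apply h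
      rw [map_zero]
      exact h1
    · exact h1
  exact hN1.trans (Nat.mul_le_mul_left g hNI)

/-- comparison of the discrepancy with the value of an arc -/
theorem aDisc_le {k : Type u} [Field k] {r : ℕ} {lam : Fin r → ℝ} (hlam : ∀ j, 0 ≤ lam j)
    (a : Fin r → Ideal (MvPolynomial (Fin 3) k)) (E : DivisorOver k (Fin 3)) (g A₁ B : ℕ)
    (hg : 0 < g) (hE : E.logDisc ≤ (((A₁ : ℕ) : ℝ) : EReal)) (hA : g * A₁ ≤ B) (n : Fin r → ℕ)
    (hn : ∀ j, n j ≤ g * E.ordI (a j)) (V : ℝ) (hV : (B : ℝ) - ∑ j, lam j * n j ≤ V) :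
    (V < 0 → E.aDisc lam a < 0) ∧ (0 ≤ V → E.aDisc lam a ≤ (V : EReal)) := by
  obtain ⟨B', _, hB2, hB3⟩ := logDisc_real E _ hE
  rw [Q1_aDisc E lam a hB3]
  have hg1 : (1 : ℝ) ≤ g := by exact_mod_cast hg
  have hA' : (g : ℝ) * A₁ ≤ B := by exact_mod_cast hA
  have h1 : (g : ℝ) * (B' - ∑ j, lam j * (E.ordI (a j) : ℝ)) ≤ V := by
    have h2 : (g : ℝ) * B' ≤ B :=
      (mul_le_mul_of_nonneg_left hB2 (by linarith)).trans hA'
    have h3 : ∑ j, lam j * (n j : ℝ) ≤ (g : ℝ) * ∑ j, lam j * (E.ordI (a j) : ℝ) := by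
      rw [Finset.mul_sum]
      refine Finset.sum_le_sum fun j _ => ?_
      have h4 : (n j : ℝ) ≤ (g : ℝ) * (E.ordI (a j) : ℝ) := by exact_mod_cast hn j
      have h5 := mul_le_mul_of_nonneg_left h4 (hlam j)
      have h6 : (g : ℝ) * (lam j * (E.ordI (a j) : ℝ)) = lam j * ((g : ℝ) * (E.ordI (a j) : ℝ)) := by
        ring
      rw [h6]
      exact h5
    rw [mul_sub]
    linarith
  constructor
  · intro hV0
    have h2 : (B' - ∑ j, lam j * (E.ordI (a j) : ℝ)) < 0 := by
      by_contra hc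
      have h3 : 0 ≤ (g : ℝ) * (B' - ∑ j, lam j * (E.ordI (a j) : ℝ)) :=
        mul_nonneg (by linarith) (not_lt.1 hc)
      linarith
    exact_mod_cast h2
  · intro hV0
    refine EReal.coe_le_coe_iff.2 ?_
    by_cases hc : 0 ≤ (B' - ∑ j, lam j * (E.ordI (a j) : ℝ))
    · have h3 : 1 * (B' - ∑ j, lam j * (E.ordI (a j) : ℝ)) ≤
          (g : ℝ) * (B' - ∑ j, lam j * (E.ordI (a j) : ℝ)) :=
        mul_le_mul_of_nonneg_right hg1 hc
      linarith
    · linarith [not_le.1 hc]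

end M3
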