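import Pool.Agent.M3.LinDom
import Pool.Agent.M3.Tay

/-!
PIECE M3-B02: `LinStr` and mass at most one imply domination; `PowStr` implies `LinStr`.

PROOF of `linStr_dom`. For every group `j` let `h'_j` be a member with `f h ≠ 0` such that `(B h, a h)` is
lexicographically minimal.  Then `B h'_j ≤ B (hj j)`, so `∑ lam j B h'_j ≤ 1`.  Let `N` be large: for `h` in the group `j`
with `f h ≠ 0`: `a h'_j + (N - N₀) B h'_j ≤ a h + (N - N₀) B h` (clear if `B h = B h'_j`; if `B h > B h'_j` it holds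
for `N - N₀ ≥ a h'_j`).  Apply `lin_dom` with this `N` (`≥ N₀`), `e j := a h'_j + (N - N₀) B h'_j`, `B j := B h'_j`; for `f h = 0`
`hdvd` is trivial (`ev` of `0` is `0`).

PROOF of `powStr_lin`. Let `N₀, G, p, q, s, a, U` be the data of `PowStr`, `S := shiftP N₀ Q`.  Take `N₁ := N₀ + 1`
and, for `N ≥ N₁`, `M := N - N₀ ≥ 1`.  `cen N Q = ev ψ (cen N₀ Q)` with `ψ := cen M S` (`Q j = trunc_N₀ + X^N₀ * S j`,
`trunc_N (Q j) = trunc_N₀ (Q j) + X^N₀ * trunc_M (S j)`).  So `ev (cen N Q) (f h) = X^(a h) * (ev ψ G)^(B h) * ev ψ (U h)`.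
`coeff 0 (ev ψ (U h)) = C u` (the residue is constant).  `ev ψ G`: `ψ j = cA (S j) + X^M * (xA j - cA (S' j))`, `S' := shiftP M S`;
by `ev_taylor` with base point `cA (S j)` (over `AA L`), `ev ψ G = cA (ev S G) + X^M * (G_0 * (xA 0 - cA (S' 0)) + G_1 * (xA 1 - cA (S' 1)))`
modulo `X^(2 M)`, where `ev S G = 0` and `G_i := cA (ev S (dA i G))` has residue `p` resp. `q` (`coeff 0 G` is linear).  So
`ev ψ G = X^M * G'` with `coeff 0 G' = C p * X 0 + C q * X 1 + C s'`, `s' = -(p * coeff 0 (S' 0) + q * coeff 0 (S' 1))`.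
So `a₁ h + (N - N₁) B h` with `a₁ h := a h + B h`: `a h + M B h = a h + B h + (N - N₁) B h`.
-/

open MvPolynomial

namespace M3

universe u

theorem linStr_dom {k : Type u} [Field k] [IsAlgClosed k] [CharZero k] {r : ℕ} {J : Type}
    [Fintype J] {lam : Fin r → ℝ} (hlam : ∀ j, 0 < lam j) {grp : J → Fin r} {f : J → AA (Gm k)}
    {c : ℕ → J → AA k} (hc : ∀ h, IsLim (fun i => c i h) (f h))
    {P : ℕ → Fin 2 → PowerSeries (Om k)} {C : ℕ → ℕ} {n : ℕ → Fin r → ℕ}
    (hA : Adm grp c P C n) {Q : Fin 2 → PowerSeries (Gm (Om k))} (hP : IsLimP P Q)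
    {B a : J → ℕ} {N₀ : ℕ} (hS : LinStr Q f B a N₀) (hj : Fin r → J)
    (hj1 : ∀ j, grp (hj j) = j ∧ f (hj j) ≠ 0) (hB : ∑ j, lam j * B (hj j) ≤ 1) :
    Dom lam grp c C n := by
  classical
  have hmin : ∀ j, ∃ h', grp h' = j ∧ f h' ≠ 0 ∧ ∀ h, grp h = j → f h ≠ 0 →
      (B h' < B h ∨ (B h' = B h ∧ a h' ≤ a h)) := by
    intro j
    obtain ⟨h', hh', hle⟩ := Finset.exists_min_image
      (Finset.univ.filter (fun h => grp h = j ∧ f h ≠ 0)) (fun h => toLex (B h, a h))
      ⟨hj j, by simpa using hj1 j⟩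
    have h1 : grp h' = j ∧ f h' ≠ 0 := by simpa using hh'
    refine ⟨h', h1.1, h1.2, fun h hh hf => ?_⟩
    have h2 := hle h (by simpa using And.intro hh hf)
    rw [Prod.Lex.toLex_le_toLex] at h2
    exact h2
  choose h' h'1 h'2 h'3 using hmin
  have hBle : ∀ j, B (h' j) ≤ B (hj j) := by
    intro j
    rcases h'3 j (hj j) (hj1 j).1 (hj1 j).2 with h | h
    · exact h.le
    · exact h.1.le
  have hale : ∀ h, a h ≤ ∑ h, a h := fun h =>
    Finset.single_le_sum (f := fun h => a h) (fun _ _ => Nat.zero_le _) (Finset.mem_univ h)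
  obtain ⟨p, q, s, g, hpq, hg⟩ := hS (N₀ + ∑ h, a h) (Nat.le_add_right _ _)
  have hN : N₀ + ∑ h, a h - N₀ = ∑ h, a h := by omega
  rw [hN] at hg
  refine lin_dom hlam hc hA hP (N₀ + ∑ h, a h) (fun j => a (h' j) + (∑ h, a h) * B (h' j))
    (fun j => B (h' j)) hpq (s := s) (g := fun j => g (h' j)) (fun j => (hg _ (h'2 j)).1) ?_ ?_ ?_
  · intro h
    by_cases hf : f h = 0
    · rw [hf, ev_zero]
      exact dvd_zero _
    · refine dvd_trans (pow_dvd_pow _ ?_) (hg h hf).2.1
      rcases h'3 (grp h) h rfl hf with h1 | h1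
      · have h2 : (∑ h, a h) * (B (h' (grp h)) + 1) ≤ (∑ h, a h) * B h :=
          Nat.mul_le_mul_left _ h1
        have h3 := hale (h' (grp h))
        rw [Nat.mul_add, Nat.mul_one] at h2
        show a (h' (grp h)) + (∑ h, a h) * B (h' (grp h)) ≤ _
        omega
      · show a (h' (grp h)) + (∑ h, a h) * B (h' (grp h)) ≤ _
        rw [h1.1]
        exact Nat.add_le_add_right h1.2 _
  · intro j
    exact ⟨h' j, h'1 j, (hg _ (h'2 j)).2.2⟩
  · refine le_trans (Finset.sum_le_sum fun j _ => ?_) hB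
    exact mul_le_mul_of_nonneg_left (Nat.cast_le.mpr (hBle j)) (hlam j).le

private theorem trunc_shift {L : Type u} [CommRing L] (N M : ℕ) (w : PowerSeries L) :
    ((PowerSeries.trunc (N + M) w : Polynomial L) : PowerSeries L) =
      ((PowerSeries.trunc N w : Polynomial L) : PowerSeries L) + PowerSeries.X ^ N *
        ((PowerSeries.trunc M (PowerSeries.mk fun n => PowerSeries.coeff (n + N) w) :
          Polynomial L) : PowerSeries L) := by
  ext n
  rw [map_add, PowerSeries.coeff_X_pow_mul', Polynomial.coeff_coe, Polynomial.coeff_coe,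
    Polynomial.coeff_coe, PowerSeries.coeff_trunc, PowerSeries.coeff_trunc,
    PowerSeries.coeff_trunc, PowerSeries.coeff_mk]
  by_cases h1 : n < N
  · rw [if_pos (by omega), if_pos h1, if_neg (by omega), add_zero]
  · by_cases h2 : n < N + M
    · rw [if_pos h2, if_neg h1, if_pos (by omega), if_pos (by omega), zero_add,
        Nat.sub_add_cancel (by omega)]
    · rw [if_neg h2, if_neg h1, if_pos (by omega), if_neg (by omega), zero_add]

private theorem self_shift {L : Type u} [CommRing L] (M : ℕ) (w : PowerSeries L) :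
    w = ((PowerSeries.trunc M w : Polynomial L) : PowerSeries L) + PowerSeries.X ^ M *
        (PowerSeries.mk fun n => PowerSeries.coeff (n + M) w) := by
  ext n
  rw [map_add, PowerSeries.coeff_X_pow_mul', Polynomial.coeff_coe, PowerSeries.coeff_trunc]
  by_cases h1 : n < M
  · rw [if_pos h1, if_neg (by omega), add_zero]
  · rw [if_neg h1, if_pos (by omega), PowerSeries.coeff_mk, zero_add,
      Nat.sub_add_cancel (by omega)]

private theorem coeff_zero_ev {κ R : Type*} [CommRing κ] [CommRing R] [Algebra κ R]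
    (P : Fin 2 → PowerSeries R) (f : AA κ) :
    PowerSeries.coeff 0 (ev P f) = PowerSeries.coeff 0 (aeval P (PowerSeries.coeff 0 f)) := by
  rw [coeff_ev]
  simp

private theorem c0_alg {L : Type u} [CommRing L] (c : L) :
    PowerSeries.coeff 0 (algebraMap L (PowerSeries (MvPolynomial (Fin 2) L)) c) = C c := by
  rw [PowerSeries.algebraMap_apply, PowerSeries.coeff_zero_C]
  rfl

private theorem c0_mul {R : Type*} [CommRing R] (f g : PowerSeries R) :
    PowerSeries.coeff 0 (f * g) = PowerSeries.coeff 0 f * PowerSeries.coeff 0 g := by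
  simp only [PowerSeries.coeff_zero_eq_constantCoeff_apply, map_mul]

private theorem cA_X' (L : Type u) [CommRing L] :
    cA (PowerSeries.X : PowerSeries L) = (PowerSeries.X : AA L) :=
  PowerSeries.map_X _

private theorem cen_comp {L : Type u} [Field L] (N M : ℕ) (Q : Fin 2 → PowerSeries L) :
    (fun j => ev (cen M (shiftP N Q)) (cen N Q j)) = cen (N + M) Q := by
  funext j
  have h1 : cen N Q j = cA ((PowerSeries.trunc N (Q j) : Polynomial L) : PowerSeries L) +
    PowerSeries.X ^ N * xA j := rfl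
  have h2 : cen (N + M) Q j = cA ((PowerSeries.trunc (N + M) (Q j) : Polynomial L) :
    PowerSeries L) + PowerSeries.X ^ (N + M) * xA j := rfl
  have h3 : cen M (shiftP N Q) j = cA ((PowerSeries.trunc M (shiftP N Q j) : Polynomial L) :
    PowerSeries L) + PowerSeries.X ^ M * xA j := rfl
  have h4 : ∀ c : PowerSeries L, ev (cen M (shiftP N Q)) (cA c) = cA c := fun c => ev_cA _ c
  have h5 : (PowerSeries.mk fun n => PowerSeries.coeff (n + N) (Q j)) = shiftP N Q j := rfl
  rw [h1, h2, ev_add, ev_mul, ev_pow, ev_X, ev_xA, h4, h3, trunc_shift N M (Q j), map_add,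
    map_mul, map_pow, cA_X', pow_add, h5]
  ring

private theorem cen_split {L : Type u} [Field L] (M : ℕ) (S : Fin 2 → PowerSeries L) :
    cen M S = fun j => cA (S j) + PowerSeries.X ^ M * (xA j - cA (shiftP M S j)) := by
  funext j
  have h1 := congrArg (cA (k := L)) (self_shift M (S j))
  have h5 : (PowerSeries.mk fun n => PowerSeries.coeff (n + M) (S j)) = shiftP M S j := rfl
  rw [map_add, map_mul, map_pow, cA_X', h5] at h1
  have h3 : cen M S j = cA ((PowerSeries.trunc M (S j) : Polynomial L) :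
    PowerSeries L) + PowerSeries.X ^ M * xA j := rfl
  rw [h1, h3]
  ring

private theorem ev_cen_lin {L : Type u} [Field L] (M : ℕ) (S : Fin 2 → PowerSeries L)
    {G : AA L} {p q s : L} (hG0 : PowerSeries.coeff 0 G = C p * X 0 + C q * X 1 + C s)
    (hG1 : ev S G = 0) :
    ∃ (G' : AA L) (s' : L), ev (cen (M + 1) S) G = PowerSeries.X ^ (M + 1) * G' ∧
      PowerSeries.coeff 0 G' = C p * X 0 + C q * X 1 + C s' := by
  have hT := ev_taylor (k := L) (fun j => cA (S j))
    (fun j => PowerSeries.X ^ (M + 1) * (xA j - cA (shiftP (M + 1) S j))) (M + 1)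
    (fun j => Dvd.intro _ rfl) G
  have hzero : ev (fun j => cA (S j)) G = 0 := by
    have h1 := ev_map (k := L) (R := L) (Algebra.ofId L (MvPolynomial (Fin 2) L)) S G
    rw [hG1, map_zero] at h1
    exact h1.symm
  rw [← cen_split, hzero, sub_zero] at hT
  obtain ⟨R, hR⟩ := hT
  have hc0 : PowerSeries.coeff 0 (ev (fun j => cA (S j)) (dA 0 G)) = C p := by
    rw [coeff_zero_ev]
    have h1 : PowerSeries.coeff 0 (dA 0 G) = C p := by
      unfold dA
      rw [PowerSeries.coeff_mk, hG0]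
      simp [pderiv_X]
    rw [h1, aeval_C, c0_alg]
  have hc1 : PowerSeries.coeff 0 (ev (fun j => cA (S j)) (dA 1 G)) = C q := by
    rw [coeff_zero_ev]
    have h1 : PowerSeries.coeff 0 (dA 1 G) = C q := by
      unfold dA
      rw [PowerSeries.coeff_mk, hG0]
      simp [pderiv_X]
    rw [h1, aeval_C, c0_alg]
  generalize ev (fun j => cA (S j)) (dA 0 G) = G0 at *
  generalize ev (fun j => cA (S j)) (dA 1 G) = G1 at *
  refine ⟨G0 * (xA 0 - cA (shiftP (M + 1) S 0)) + G1 * (xA 1 - cA (shiftP (M + 1) S 1)) +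
    PowerSeries.X ^ (M + 1) * R, -(p * PowerSeries.coeff 0 (shiftP (M + 1) S 0) +
      q * PowerSeries.coeff 0 (shiftP (M + 1) S 1)), ?_, ?_⟩
  · have h1 : ev (cen (M + 1) S) G = PowerSeries.X ^ (2 * (M + 1)) * R +
        G0 * (PowerSeries.X ^ (M + 1) * (xA 0 - cA (shiftP (M + 1) S 0))) +
        G1 * (PowerSeries.X ^ (M + 1) * (xA 1 - cA (shiftP (M + 1) S 1))) := by
      rw [← hR]
      ring
    rw [h1, two_mul, pow_add]
    ring
  · have hx : ∀ j, PowerSeries.coeff 0 (xA j - cA (shiftP (M + 1) S j) : AA L) =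
        X j - C (PowerSeries.coeff 0 (shiftP (M + 1) S j)) := by
      intro j
      rw [map_sub]
      congr 1
      exact PowerSeries.coeff_zero_C _
    rw [map_add, map_add, PowerSeries.coeff_X_pow_mul', if_neg (by omega), add_zero,
      c0_mul, c0_mul, hx, hx, hc0, hc1]
    simp only [map_neg, map_add, map_mul]
    ring

theorem powStr_lin {κ : Type u} [Field κ] {L : Type u} [Field L] [Algebra κ L] {J : Type}
    {Q : Fin 2 → PowerSeries L} {f : J → AA κ} {B : J → ℕ} (h : PowStr Q f B) :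
    ∃ (a : J → ℕ) (N₀ : ℕ), LinStr Q f B a N₀ := by
  classical
  obtain ⟨N₀, G, p, q, s, a, U, hpq, hG0, hG1, hU⟩ := h
  have hu : ∀ h, ∃ u : L, f h ≠ 0 → u ≠ 0 ∧ PowerSeries.coeff 0 (U h) = C u := by
    intro h
    by_cases hf : f h = 0
    · exact ⟨0, fun h => absurd hf h⟩
    · obtain ⟨u, hu⟩ := (hU h hf).2
      exact ⟨u, fun _ => hu⟩
  choose u hu using hu
  refine ⟨fun h => a h + B h, N₀ + 1, fun N hN => ?_⟩
  obtain ⟨M, rfl⟩ : ∃ M, N = N₀ + (M + 1) := ⟨N - N₀ - 1, by omega⟩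
  obtain ⟨G', s', hG', hG'0⟩ := ev_cen_lin M (shiftP N₀ Q) hG0 hG1
  refine ⟨p, q, s', u, hpq, fun h hf => ?_⟩
  obtain ⟨hu0, hu1⟩ := hu h hf
  have hexp : a h + B h + (N₀ + (M + 1) - (N₀ + 1)) * B h = a h + (M + 1) * B h := by
    have : N₀ + (M + 1) - (N₀ + 1) = M := by omega
    rw [this]
    ring
  have hfin : ev (cen (N₀ + (M + 1)) Q) (f h) = PowerSeries.X ^ (a h + (M + 1) * B h) *
      (G' ^ B h * ev (cen (M + 1) (shiftP N₀ Q)) (U h)) := by
    rw [← cen_comp, ← ev_ev_ext, (hU h hf).1, ev_mul, ev_mul, ev_pow, ev_pow, ev_X, hG',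
      mul_pow, ← pow_mul, pow_add]
    ring
  have hcU : PowerSeries.coeff 0 (ev (cen (M + 1) (shiftP N₀ Q)) (U h)) = C (u h) := by
    rw [coeff_zero_ev, hu1, aeval_C, c0_alg]
  refine ⟨hu0, ?_, ?_⟩
  · show PowerSeries.X ^ (a h + B h + (N₀ + (M + 1) - (N₀ + 1)) * B h) ∣ _
    rw [hexp, hfin]
    exact Dvd.intro _ rfl
  · show PowerSeries.coeff (a h + B h + (N₀ + (M + 1) - (N₀ + 1)) * B h) _ = _
    rw [hexp, hfin, PowerSeries.coeff_X_pow_mul', if_pos le_rfl, Nat.sub_self,
      c0_mul, hcU, PowerSeries.coeff_zero_eq_constantCoeff_apply, map_pow,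
      ← PowerSeries.coeff_zero_eq_constantCoeff_apply, hG'0, mul_comm]

end M3
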