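import Pool.Agent.M3.Lim
import Pool.Agent.M3.CodB

/-!
PIECE M3-L04: arcs for the limit give arcs for almost all members of the sequence.

PROOF. Only the coefficients `P_j,l`, `l < m`, matter; let `K₁ ⊆ L` be the field generated over `Gm k` by them and let
`T` be the algebraically independent subfamily, `2 m ≤ T.card + C`; extend it to a transcendence basis `T⁺ ⊇ T` of `K₁`
consisting of coefficients `P_j,l`, `l < m`.  In `Gm (Om k)` the classes `g_s := gm (fun _ => t_s)` of the constant
sequences of the variables `t_s ∈ Om k` (`s : ℕ`, the image of `X s`) are algebraically independent over `Gm k`: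
a relation `F(g) = 0`, `F : MvPolynomial ℕ (Gm k)` (finitely many variables occur), is by `exists_rep`, `eval₂_gm` the
class of `F_i(t)`, so `F_i(t) = 0` for almost all `i`, so `F_i = 0` for almost all `i`, and `F = 0`.
`Gm (Om k)` is algebraically closed (`gm_isAlgClosed`), `K₁` is algebraic over `Gm k (T⁺)`, so there is a
`Gm k`-homomorphism `φ : K₁ → Gm (Om k)` which maps `T⁺` injectively to classes `g_s`.
Choose representatives: `φ(P_j,l) = gm (x_(j,l))`, for members of `T` take exactly the constant sequence `t_s`.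
Put `P'_i j := ∑ l < m, C (x_(j,l) i) * X^l`.
(1) `CodLe k P'_i m C` for all `i`: the members of `T` are different variables `t_s`.
(2) Let `Q j := ∑ l < m, C (φ (P_j,l)) X^l`; `IsLimP P' Q`, and for `l < m` the coefficients of `ev Q (f h)` are
`φ` of those of `ev P (f h)` (`ev_map`, `ev_congr`), so `X^(n (grp h)) ∣ ev Q (f h)` since `n j ≤ m`.  `lim_ev_dvd` gives
`X^(n (grp h)) ∣ ev (P'_i) (c i h)` for almost all `i`; `J` is finite, so simultaneously for all `h`.
-/

open MvPolynomial

namespace M3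

universe u

private theorem rev_emb {κ : Type*} {L : Type*} {Ω : Type*} [Field κ] [Field L] [Algebra κ L]
    [Field Ω] [IsAlgClosed Ω] [Algebra κ Ω] {ι : Type*} [Finite ι] (x : ι → L) (T : Finset ι)
    (hT : AlgebraicIndependent κ (fun t : T => x t)) (g : ℕ → Ω) (hg : AlgebraicIndependent κ g) :
    ∃ (φ : Algebra.adjoin κ (Set.range x) →ₐ[κ] Ω) (e : T → ℕ), Function.Injective e ∧
      ∀ t : T, φ ⟨x t, Algebra.subset_adjoin ⟨t, rfl⟩⟩ = g (e t) := by
  classical
  set A := Algebra.adjoin κ (Set.range x) with hA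
  let y : ι → A := fun i => ⟨x i, Algebra.subset_adjoin ⟨i, rfl⟩⟩
  have hyT : AlgebraicIndependent κ (fun t : T => y t) := by
    have : (fun t : T => x t) = A.val ∘ (fun t : T => y t) := rfl
    rw [this] at hT
    exact hT.of_comp A.val
  have hS : AlgebraicIndepOn κ id (Set.range fun t : T => y t) := hyT.coe_range
  have hU : Algebra.adjoin κ (Set.range y) = ⊤ := by
    have h1 : Set.range y = ((↑) : A → L) ⁻¹' (Set.range x) := by
      ext a
      constructor
      · rintro ⟨i, rfl⟩
        exact ⟨i, rfl⟩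
      · rintro ⟨i, hi⟩
        exact ⟨i, Subtype.ext hi⟩
    rw [h1]
    exact Algebra.adjoin_adjoin_coe_preimage
  have : Algebra.IsAlgebraic (Algebra.adjoin κ (Set.range y)) A :=
    ⟨fun a => isAlgebraic_algebraMap (A := A)
      (⟨a, by rw [hU]; trivial⟩ : Algebra.adjoin κ (Set.range y))⟩
  obtain ⟨B, hSB, hBU, hB⟩ := exists_isTranscendenceBasis_between (R := κ) (A := A)
    (Set.range fun t : T => y t) (Set.range y) (by rintro _ ⟨t, rfl⟩; exact ⟨t, rfl⟩) hS
  have : Finite B := (Set.finite_range y).subset hBU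
  let f : B → ℕ := fun b => (Finite.equivFin B b).val
  have hf : Function.Injective f := fun a b h =>
    (Finite.equivFin B).injective (Fin.ext h)
  have hgf : AlgebraicIndependent κ (g ∘ f) := hg.comp f hf
  let R₀ := Algebra.adjoin κ (Set.range ((↑) : B → A))
  let ψ : R₀ →ₐ[κ] Ω := (aeval (g ∘ f)).comp (hB.1.aevalEquiv.symm : R₀ →ₐ[κ] MvPolynomial B κ)
  have hψ : Function.Injective ψ := by
    have h1 : Function.Injective (aeval (g ∘ f) : MvPolynomial B κ →ₐ[κ] Ω) := hgf
    exact h1.comp hB.1.aevalEquiv.symm.injective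
  let : Algebra R₀ Ω := ψ.toRingHom.toAlgebra
  have : Algebra.IsAlgebraic R₀ A := hB.isAlgebraic
  have : FaithfulSMul R₀ Ω := (faithfulSMul_iff_algebraMap_injective R₀ Ω).mpr hψ
  let Φ : A →ₐ[R₀] Ω := IsAlgClosed.lift
  have hΦ : ∀ r : R₀, Φ (r : A) = ψ r := fun r => Φ.commutes r
  let φ : A →ₐ[κ] Ω := { Φ.toRingHom with
    commutes' := fun c => by
      have h1 : Φ ((algebraMap κ R₀ c : R₀) : A) = ψ (algebraMap κ R₀ c) := hΦ _
      rw [ψ.commutes] at h1
      exact h1 }
  refine ⟨φ, fun t => f ⟨y t, hSB ⟨t, rfl⟩⟩, ?_, ?_⟩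
  · intro a b hab
    have h1 := hf hab
    have h2 : y a = y b := congrArg Subtype.val h1
    exact hyT.injective h2
  · intro t
    let b : B := ⟨y t, hSB ⟨t, rfl⟩⟩
    have h1 : Φ ((⟨(b : A), Algebra.subset_adjoin ⟨b, rfl⟩⟩ : R₀) : A) = ψ _ := hΦ _
    have h2 : hB.1.aevalEquiv (X b) = (⟨(b : A), Algebra.subset_adjoin ⟨b, rfl⟩⟩ : R₀) := by
      apply Subtype.ext
      have := hB.1.algebraMap_aevalEquiv (X b)
      rw [aeval_X] at this
      exact this
    have h3 : ψ (⟨(b : A), Algebra.subset_adjoin ⟨b, rfl⟩⟩ : R₀) = g (f b) := by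
      rw [← h2]
      show aeval (g ∘ f) (hB.1.aevalEquiv.symm (hB.1.aevalEquiv (X b))) = _
      rw [AlgEquiv.symm_apply_apply, aeval_X]
      rfl
    rw [h3] at h1
    exact h1


/-- the variables of `Om k` -/
private noncomputable def revV (k : Type u) [Field k] (s : ℕ) : Om k :=
  algebraMap (FractionRing (MvPolynomial ℕ k)) (Om k)
    (algebraMap (MvPolynomial ℕ k) (FractionRing (MvPolynomial ℕ k)) (X s))

private theorem revV_indep (k : Type u) [Field k] : AlgebraicIndependent k (revV k) := by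
  rw [algebraicIndependent_iff_injective_aeval]
  have h1 : ∀ p : MvPolynomial ℕ k, aeval (revV k) p =
      algebraMap (FractionRing (MvPolynomial ℕ k)) (Om k)
        (algebraMap (MvPolynomial ℕ k) (FractionRing (MvPolynomial ℕ k)) p) := by
    intro p
    induction p using MvPolynomial.induction_on with
    | C a =>
      rw [aeval_C]
      rfl
    | add p q hp hq => rw [map_add, map_add, map_add, hp, hq]
    | mul_X p n hp =>
      rw [map_mul, map_mul, map_mul, hp, aeval_X]
      rfl
  intro p q hpq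
  simp only [h1] at hpq
  exact IsFractionRing.injective (MvPolynomial ℕ k) (FractionRing (MvPolynomial ℕ k))
    ((algebraMap (FractionRing (MvPolynomial ℕ k)) (Om k)).injective hpq)

private theorem revG_indep (k : Type u) [Field k] :
    AlgebraicIndependent (Gm k) (fun s => gm (fun _ : ℕ => revV k s)) := by
  apply algebraicIndependent_of_finite_type
  intro t ht
  have : Finite t := ht
  rw [algebraicIndependent_iff]
  intro F hF
  obtain ⟨Fi, hsupp, hcoeff⟩ := exists_rep F
  have hD : ∀ᶠ i in Uf, (Fi i).totalDegree ≤ F.totalDegree := by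
    filter_upwards with i
    exact Finset.sup_mono (hsupp i)
  have h1 := eval₂_gm (algebraMap k (Om k)) hD hcoeff (fun (s : t) (_ : ℕ) => revV k s)
  have h2 : eval₂ (gmMap (algebraMap k (Om k))) (fun s : t => gm (fun _ : ℕ => revV k s)) F = 0 :=
    hF
  rw [h2] at h1
  have h3 := gm_eq_zero.mp h1.symm
  have hind : AlgebraicIndependent k (fun s : t => revV k s) :=
    (revV_indep k).comp _ Subtype.val_injective
  rw [algebraicIndependent_iff] at hind
  have h4 : ∀ᶠ i in Uf, Fi i = 0 := by
    filter_upwards [h3] with i hi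
    exact hind _ hi
  ext e
  rw [hcoeff e, coeff_zero, gm_eq_zero]
  filter_upwards [h4] with i hi
  rw [hi, coeff_zero]

theorem reverse_transfer {k : Type u} [Field k] [IsAlgClosed k] [CharZero k] {r : ℕ} {J : Type}
    [Fintype J] {grp : J → Fin r} {f : J → AA (Gm k)} {c : ℕ → J → AA k}
    (hc : ∀ h, IsLim (fun i => c i h) (f h)) {L : Type u} [Field L] [Algebra (Gm k) L]
    (P : Fin 2 → PowerSeries L) (m C : ℕ) (hP : CodLe (Gm k) P m C) (n : Fin r → ℕ)
    (hn : ∀ j, n j ≤ m) (ho : OrdGe grp f P n) :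
    ∀ᶠ i in Uf, ∃ P' : Fin 2 → PowerSeries (Om k), CodLe k P' m C ∧ OrdGe grp (c i) P' n := by
  classical
  obtain ⟨T, hTc, hT⟩ := hP
  let x : Fin 2 × Fin m → L := fun p => PowerSeries.coeff p.2.val (P p.1)
  set A := Algebra.adjoin (Gm k) (Set.range x) with hA
  obtain ⟨φ, e, he, hφe⟩ : ∃ (φ : A →ₐ[Gm k] Gm (Om k)) (e : T → ℕ), Function.Injective e ∧
      ∀ t : T, φ ⟨x t, Algebra.subset_adjoin ⟨t, rfl⟩⟩ = gm (fun _ : ℕ => revV k (e t)) :=
    rev_emb (κ := Gm k) x T hT _ (revG_indep k)
  let y : Fin 2 × Fin m → A := fun p => ⟨x p, Algebra.subset_adjoin ⟨p, rfl⟩⟩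
  have hrep : ∀ p : Fin 2 × Fin m, ∃ w : ℕ → Om k, gm w = φ (y p) ∧
      ∀ hp : p ∈ T, w = fun _ => revV k (e ⟨p, hp⟩) := by
    intro p
    by_cases hp : p ∈ T
    · exact ⟨fun _ => revV k (e ⟨p, hp⟩), (hφe ⟨p, hp⟩).symm, fun _ => rfl⟩
    · obtain ⟨w, hw⟩ := gm_surj (φ (y p))
      exact ⟨w, hw, fun h => absurd h hp⟩
  choose w hw hwT using hrep
  let P' : ℕ → Fin 2 → PowerSeries (Om k) := fun i j => PowerSeries.mk fun l =>
    if hl : l < m then w (j, ⟨l, hl⟩) i else 0
  let P₁ : Fin 2 → PowerSeries A := fun j => PowerSeries.mk fun l =>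
    if hl : l < m then y (j, ⟨l, hl⟩) else 0
  let Q : Fin 2 → PowerSeries (Gm (Om k)) := fun j =>
    PowerSeries.map (φ : A →+* Gm (Om k)) (P₁ j)
  have hlim : IsLimP P' Q := by
    intro j l
    show PowerSeries.coeff l (PowerSeries.map (φ : A →+* Gm (Om k)) (P₁ j)) = _
    rw [PowerSeries.coeff_map]
    by_cases hl : l < m
    · simp only [P₁, P', PowerSeries.coeff_mk, dif_pos hl]
      exact (hw (j, ⟨l, hl⟩)).symm
    · simp only [P₁, P', PowerSeries.coeff_mk, dif_neg hl]
      rw [map_zero]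
      exact gm_zero.symm
  have hcod : ∀ i, CodLe k (P' i) m C := by
    intro i
    refine ⟨T, hTc, ?_⟩
    have h1 : (fun t : T => PowerSeries.coeff t.1.2.val (P' i t.1.1)) =
        revV k ∘ e := by
      funext t
      have h2 : w t.1 = fun _ => revV k (e t) := hwT t.1 t.2
      have h3 : PowerSeries.coeff t.1.2.val (P' i t.1.1) = w t.1 i := by
        simp only [P', PowerSeries.coeff_mk, dif_pos t.1.2.isLt]
      rw [h3, h2]
      rfl
    rw [h1]
    exact (revV_indep k).comp e he
  have hord : ∀ h, (PowerSeries.X : PowerSeries (Gm (Om k))) ^ n (grp h) ∣ ev Q (f h) := by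
    intro h
    have h1 : (PowerSeries.X : PowerSeries L) ^ n (grp h) ∣ ev P (f h) := ho h
    have h2 : ∀ j, (PowerSeries.X : PowerSeries L) ^ m ∣
        P j - PowerSeries.map (A.val : A →+* L) (P₁ j) := by
      intro j
      rw [PowerSeries.X_pow_dvd_iff]
      intro l hl
      rw [map_sub, PowerSeries.coeff_map]
      simp only [P₁, PowerSeries.coeff_mk, dif_pos hl]
      exact sub_self _
    have h3 := ev_congr h2 (f h)
    have h4 : (PowerSeries.X : PowerSeries L) ^ n (grp h) ∣
        ev (fun j => PowerSeries.map (A.val : A →+* L) (P₁ j)) (f h) := by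
      have h5 := (pow_dvd_pow (PowerSeries.X : PowerSeries L) (hn (grp h))).trans h3
      have h6 := dvd_sub h1 h5
      rwa [sub_sub_cancel] at h6
    rw [← ev_map A.val P₁ (f h)] at h4
    have h7 : (PowerSeries.X : PowerSeries A) ^ n (grp h) ∣ ev P₁ (f h) := by
      rw [PowerSeries.X_pow_dvd_iff] at h4 ⊢
      intro l hl
      have h8 := h4 l hl
      rw [PowerSeries.coeff_map] at h8
      exact Subtype.ext h8
    have h9 : ev Q (f h) = PowerSeries.map (φ : A →+* Gm (Om k)) (ev P₁ (f h)) :=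
      (ev_map φ P₁ (f h)).symm
    rw [h9]
    have h10 := map_dvd (PowerSeries.map (φ : A →+* Gm (Om k))) h7
    rwa [map_pow, PowerSeries.map_X] at h10
  have hall : ∀ᶠ i in Uf, ∀ h, (PowerSeries.X : PowerSeries (Om k)) ^ n (grp h) ∣
      ev (P' i) (c i h) := by
    rw [Filter.eventually_all]
    intro h
    exact (lim_ev_dvd (hc h) hlim (n (grp h))).mp (hord h)
  filter_upwards [hall] with i hi
  exact ⟨P' i, hcod i, hi⟩

end M3
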