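import Pool.Agent.M3.UGen
import Pool.Agent.M3.HomP

/-!
PIECE M3-U04: the largest ball containing an arc.

PROOF. `ball_out`: if `X^(g a) ∣ P 0` and `X^(g b) ∣ P 1` then `cod_vanish` (level `m` large) gives `g (a + b) ≤ C`, so
`g ≤ C` and there is a largest such `g` (`Nat.findGreatest` or strong induction on `C`; `g = 0` always works).
`P' j` from the divisibility; `cod_scale_inv`.  If `X^a ∣ P' 0` and `X^b ∣ P' 1` then `g + 1` would work.
`cod_fin`: `P 0 ≠ 0` and `P 1 ≠ 0`: if `P j = 0` then `cod_vanish` at a level `m > C` with exponents `m`, `0` gives `m ≤ C`.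
`hom_gen`: `P j = X^(g a) * P' 0` resp. `X^(g b) * P' 1` with `Cod K P' 0` (`cod_scale_inv`, `C = g (a + b)`), `hom_scale` (HomP.lean) with
`s = X^g`: `aeval P f = X^(g D) * aeval P' f`, so `X ∣ aeval P' f`, a contradiction to `generic_ne` (CodB.lean).
-/

open MvPolynomial

namespace M3

universe u

section
variable {K : Type u} [Field K] {L : Type u} [Field L] [Algebra K L]

theorem cod_fin {P : Fin 2 → PowerSeries L} {C : ℕ} (hP : Cod K P C) (j : Fin 2) : P j ≠ 0 := by
  intro h0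
  have hj : j = 0 ∨ j = 1 := by omega
  rcases hj with rfl | rfl
  · have h1 := cod_vanish (a := C + 1) (b := 0) (hP (C + 1)) (by rw [h0]; exact dvd_zero _)
      (by rw [pow_zero]; exact one_dvd _) le_rfl (Nat.zero_le _)
    omega
  · have h1 := cod_vanish (a := 0) (b := C + 1) (hP (C + 1))
      (by rw [pow_zero]; exact one_dvd _) (by rw [h0]; exact dvd_zero _) (Nat.zero_le _) le_rfl
    omega

theorem ball_out {a b : ℕ} (ha : 0 < a) {P : Fin 2 → PowerSeries L} {C : ℕ} (hP : Cod K P C) :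
    ∃ (g : ℕ) (P' : Fin 2 → PowerSeries L), P 0 = PowerSeries.X ^ (g * a) * P' 0 ∧
      P 1 = PowerSeries.X ^ (g * b) * P' 1 ∧ g * (a + b) ≤ C ∧ Cod K P' (C - g * (a + b)) ∧
      ¬ ((PowerSeries.X : PowerSeries L) ^ a ∣ P' 0 ∧
        (PowerSeries.X : PowerSeries L) ^ b ∣ P' 1) := by
  classical
  let Q : ℕ → Prop := fun g => (PowerSeries.X : PowerSeries L) ^ (g * a) ∣ P 0 ∧
    (PowerSeries.X : PowerSeries L) ^ (g * b) ∣ P 1
  have hQ0 : Q 0 := by
    refine ⟨?_, ?_⟩
    · rw [Nat.zero_mul, pow_zero]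
      exact one_dvd _
    · rw [Nat.zero_mul, pow_zero]
      exact one_dvd _
  have hQC : ∀ g, Q g → g * (a + b) ≤ C := by
    intro g hg
    have h1 := cod_vanish (hP (g * a + g * b)) hg.1 hg.2 (Nat.le_add_right _ _)
      (Nat.le_add_left _ _)
    rw [Nat.mul_add]
    exact h1
  have hQl : ∀ g, Q g → g ≤ C := by
    intro g hg
    have h1 := hQC g hg
    have h2 : g * 1 ≤ g * (a + b) := Nat.mul_le_mul_left g (by omega)
    omega
  have hg : Q (Nat.findGreatest Q C) := Nat.findGreatest_spec (Nat.zero_le C) hQ0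
  have hmax : ∀ g, Q g → g ≤ Nat.findGreatest Q C := fun g h =>
    Nat.le_findGreatest (hQl g h) h
  set g := Nat.findGreatest Q C with hgdef
  obtain ⟨p0, hp0⟩ := hg.1
  obtain ⟨p1, hp1⟩ := hg.2
  have h0 : P 0 = PowerSeries.X ^ (g * a) * (![p0, p1] : Fin 2 → PowerSeries L) 0 := hp0
  have h1 : P 1 = PowerSeries.X ^ (g * b) * (![p0, p1] : Fin 2 → PowerSeries L) 1 := hp1
  have hc := cod_scale_inv h0 h1 hP
  refine ⟨g, ![p0, p1], h0, h1, hQC g hg, ?_, ?_⟩
  · have h2 : C - g * (a + b) = C - g * a - g * b := by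
      rw [Nat.mul_add, Nat.sub_sub]
    rw [h2]
    exact hc.2
  · rintro ⟨ha', hb'⟩
    have h3 : Q (g + 1) := by
      refine ⟨?_, ?_⟩
      · rw [h0, Nat.add_mul, Nat.one_mul, pow_add]
        exact mul_dvd_mul_left _ ha'
      · rw [h1, Nat.add_mul, Nat.one_mul, pow_add]
        exact mul_dvd_mul_left _ hb'
    have h4 := hmax (g + 1) h3
    omega

/-- homogeneous polynomials do not vanish to higher order at the generic arc of a ball -/
theorem hom_gen {a b g D : ℕ} {P : Fin 2 → PowerSeries L}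
    (h0 : (PowerSeries.X : PowerSeries L) ^ (g * a) ∣ P 0)
    (h1 : (PowerSeries.X : PowerSeries L) ^ (g * b) ∣ P 1) (hP : Cod K P (g * (a + b)))
    {f : MvPolynomial (Fin 2) K} (hf : f ≠ 0) (hh : HomW a b D f) :
    ¬ (PowerSeries.X : PowerSeries L) ^ (g * D + 1) ∣ aeval P f := by
  intro hd
  obtain ⟨p0, hp0⟩ := h0
  obtain ⟨p1, hp1⟩ := h1
  have hc := (cod_scale_inv (P' := ![p0, p1]) (A := g * a) (B := g * b) hp0 hp1 hP).2
  have h2 : g * (a + b) - g * a - g * b = 0 := by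
    rw [Nat.mul_add]
    omega
  rw [h2] at hc
  have h3 := generic_ne hc hf
  apply h3
  have h4 : P = ![((PowerSeries.X : PowerSeries L) ^ g) ^ a * p0,
      ((PowerSeries.X : PowerSeries L) ^ g) ^ b * p1] := by
    funext j
    have hj : j = 0 ∨ j = 1 := by omega
    rcases hj with rfl | rfl
    · rw [hp0, pow_mul]
      rfl
    · rw [hp1, pow_mul]
      rfl
  rw [h4, hom_scale hh, ← pow_mul, pow_succ] at hd
  have h5 := (mul_dvd_mul_iff_left (pow_ne_zero _ PowerSeries.X_ne_zero)).1 hd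
  rw [PowerSeries.X_dvd_iff] at h5
  rw [PowerSeries.coeff_zero_eq_constantCoeff]
  exact h5

end

end M3
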