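import Pool.Agent.M3.Defs

/-!
PROJECT M3, block U: polynomials in two variables over a field and weights, polynomial automorphisms.
-/

open MvPolynomial

namespace M3

universe u

section
variable {K : Type u} [Field K]

/-- all monomials have weight at most `D` -/
def WLe (a b D : ℕ) (f : MvPolynomial (Fin 2) K) : Prop := ∀ e, coeff e f ≠ 0 → wt a b e ≤ D

/-- all monomials have weight at least `m` -/
def WGe (a b m : ℕ) (f : MvPolynomial (Fin 2) K) : Prop := ∀ e, coeff e f ≠ 0 → m ≤ wt a b e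

/-- the part of weight `D` -/
noncomputable def wtop (a b D : ℕ) (f : MvPolynomial (Fin 2) K) : MvPolynomial (Fin 2) K :=
  weightedHomogeneousComponent ![a, b] D f

/-- `χ` is a polynomial automorphism with inverse `θ` -/
def PolAut (χ θ : Fin 2 → MvPolynomial (Fin 2) K) : Prop :=
  (∀ j, aeval χ (θ j) = X j) ∧ ∀ j, aeval θ (χ j) = X j

/-- the inverse of the triangular map `(x - z, y - p(x))` -/
noncomputable def triI (z : K) (p : Polynomial K) : Fin 2 → MvPolynomial (Fin 2) K :=
  ![X 0 + C z, X 1 + Polynomial.aeval (X 0 + C z : MvPolynomial (Fin 2) K) p]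

/-- the triangular map `(x - z, y - p(x))` -/
noncomputable def tri (z : K) (p : Polynomial K) : Fin 2 → MvPolynomial (Fin 2) K :=
  ![X 0 - C z, X 1 - Polynomial.aeval (X 0 : MvPolynomial (Fin 2) K) p]

theorem weight_eq_wt (a b : ℕ) (e : Fin 2 →₀ ℕ) : Finsupp.weight ![a, b] e = wt a b e := by
  rw [Finsupp.weight_apply, Finsupp.sum_fintype _ _ (by simp)]
  simp [wt, Fin.sum_univ_two, mul_comm]

theorem coeff_wtop (a b D : ℕ) (f : MvPolynomial (Fin 2) K) (e : Fin 2 →₀ ℕ) :
    coeff e (wtop a b D f) = if wt a b e = D then coeff e f else 0 := by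
  classical
  rw [wtop, coeff_weightedHomogeneousComponent, weight_eq_wt]

theorem topA_C (a b D : ℕ) (p : MvPolynomial (Fin 2) K) :
    topA a b D (PowerSeries.C p) = PowerSeries.C (wtop a b D p) := by
  ext n : 1
  unfold topA wtop
  rw [PowerSeries.coeff_mk, PowerSeries.coeff_C, PowerSeries.coeff_C]
  split_ifs
  · rfl
  · rw [map_zero]

theorem WLe.mono {a b D D' : ℕ} {f : MvPolynomial (Fin 2) K} (h : WLe a b D f) (hD : D ≤ D') :
    WLe a b D' f := fun e he => (h e he).trans hD

theorem WGe.mono {a b m m' : ℕ} {f : MvPolynomial (Fin 2) K} (h : WGe a b m f) (hm : m' ≤ m) :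
    WGe a b m' f := fun e he => hm.trans (h e he)

theorem PolAut.symm {χ θ : Fin 2 → MvPolynomial (Fin 2) K} (h : PolAut χ θ) : PolAut θ χ :=
  ⟨h.2, h.1⟩

theorem aeval_aeval_pol {R : Type*} [CommRing R] [Algebra K R] (χ : Fin 2 → MvPolynomial (Fin 2) K)
    (P : Fin 2 → R) (f : MvPolynomial (Fin 2) K) :
    aeval P (aeval χ f) = aeval (fun j => aeval P (χ j)) f := by
  rw [← AlgHom.comp_apply, comp_aeval]

theorem PolAut.left {χ θ : Fin 2 → MvPolynomial (Fin 2) K} (h : PolAut χ θ)
    (f : MvPolynomial (Fin 2) K) : aeval χ (aeval θ f) = f := by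
  rw [aeval_aeval_pol]
  simp only [h.1]
  exact aeval_X_left_apply f

theorem PolAut.right {χ θ : Fin 2 → MvPolynomial (Fin 2) K} (h : PolAut χ θ)
    (f : MvPolynomial (Fin 2) K) : aeval θ (aeval χ f) = f := h.symm.left f

theorem PolAut.comp {χ θ ψ φ : Fin 2 → MvPolynomial (Fin 2) K} (h : PolAut χ θ)
    (h' : PolAut ψ φ) :
    PolAut (fun j => aeval ψ (χ j)) (fun j => aeval θ (φ j)) := by
  refine ⟨fun j => ?_, fun j => ?_⟩
  · rw [← aeval_aeval_pol, h.left, h'.1]
  · rw [← aeval_aeval_pol, h'.right, h.2]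

theorem polAut_tri (z : K) (p : Polynomial K) : PolAut (tri z p) (triI z p) := by
  refine ⟨fun j => ?_, fun j => ?_⟩
  · fin_cases j
    · simp [tri, triI]
    · have h := Polynomial.aeval_algHom_apply (aeval (tri z p) : MvPolynomial (Fin 2) K →ₐ[K] _)
        (X 0 + C z) p
      show aeval (tri z p) (X 1 + Polynomial.aeval (X 0 + C z : MvPolynomial (Fin 2) K) p) = X 1
      rw [map_add, ← h]
      simp [tri]
  · fin_cases j
    · simp [tri, triI]
    · have h := Polynomial.aeval_algHom_apply (aeval (triI z p) : MvPolynomial (Fin 2) K →ₐ[K] _)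
        (X 0) p
      show aeval (triI z p) (X 1 - Polynomial.aeval (X 0 : MvPolynomial (Fin 2) K) p) = X 1
      rw [map_sub, ← h]
      simp [triI]

end

end M3
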