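import Pool.Agent.M3.UDef
import Pool.Agent.M3.CodCh

/-!
PIECE M3-U02: arcs and polynomial automorphisms over a field (constant coefficients).

PROOF. `cod_polAut`: level `m`.  Put `R j := aeval P (χ j)`; then `P j = aeval R (θ j)` (`aeval_aeval_pol`, `PolAut`).  So
every coefficient of `P j` below `m` is a polynomial over `K` in the coefficients of `R 0`, `R 1` below `m` (the
coefficient of `X^n` in a product of power series involves only coefficients of index `≤ n`: the truncated series
form a subalgebra; e.g. show by `MvPolynomial.induction_on` in `f` that `coeff n (aeval R f)` lies in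
`IntermediateField.adjoin K (Set.range fun t : Fin 2 × Fin m => coeff t.2.val (R t.1))` for all `n < m`).  Apply
`alg_exchange` (CodB.lean) with `x t := coeff t.2.val (R t.1)`, `y t := coeff t.2.val (P t.1)`, `ι = ι' = Fin 2 × Fin m`
(elements of the adjoined field are algebraic over it), and `T'` the set for `P`.
`cod_scale`: special case of `cod_chA` with `c = 0`, `p = 0`, `N₀ = A`, `N₁ = B` (`ev P (chA 0 0 A B j)` is `X^A * P 0`, `X^B * P 1`
by `ev_add`, `ev_mul`, `ev_xA`, `ev_cA`, `ev_X`); `cod_scale_inv`: `cod_chA_inv`.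
`exists_val`: `Q` from `exists_generic K`, `P := ![X^a' * Q 0, X^b' * Q 1]`, `R j := aeval P (χ j)`.  `aeval R f = aeval P (aeval χ f)`,
and `aeval P g` for `g` with all monomials of weight `≥ m` is a sum of terms `c * X^(a' e 0) Q_0^(e 0) X^(b' e 1) Q_1^(e 1)`
(`aeval_def`, `eval₂_eq'`), each divisible by `X^m` (this is `wge_dvd` for general `P`).
-/

open MvPolynomial

namespace M3

universe u

section
variable {K : Type u} [Field K] {L : Type u} [Field L] [Algebra K L]

private theorem UGen_mul (F : IntermediateField K L) (M : ℕ) {g h : PowerSeries L}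
    (hg : ∀ i < M, PowerSeries.coeff i g ∈ F) (hh : ∀ i < M, PowerSeries.coeff i h ∈ F) :
    ∀ i < M, PowerSeries.coeff i (g * h) ∈ F := by
  intro i hi
  rw [PowerSeries.coeff_mul]
  refine sum_mem fun p hp => ?_
  have hp' := Finset.HasAntidiagonal.mem_antidiagonal.mp hp
  exact mul_mem (hg _ (by omega)) (hh _ (by omega))

private theorem UGen_aeval (F : IntermediateField K L) (M : ℕ) {R : Fin 2 → PowerSeries L}
    (hR : ∀ j, ∀ i < M, PowerSeries.coeff i (R j) ∈ F) (f : MvPolynomial (Fin 2) K) :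
    ∀ i < M, PowerSeries.coeff i (aeval R f) ∈ F := by
  induction f using MvPolynomial.induction_on with
  | C a =>
    intro i _
    have h : aeval R (MvPolynomial.C a) = PowerSeries.C (algebraMap K L a) := by
      rw [MvPolynomial.aeval_C, PowerSeries.algebraMap_apply]
    rw [h, PowerSeries.coeff_C]
    split
    · exact F.algebraMap_mem _
    · exact zero_mem F
  | add p q hp hq =>
    intro i hi
    rw [map_add, map_add]
    exact add_mem (hp i hi) (hq i hi)
  | mul_X p j hp =>
    rw [map_mul, MvPolynomial.aeval_X]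
    exact UGen_mul F M hp (hR j)

theorem cod_polAut {χ θ : Fin 2 → MvPolynomial (Fin 2) K} (hχ : PolAut χ θ)
    {P : Fin 2 → PowerSeries L} {C : ℕ} (hP : Cod K P C) :
    Cod K (fun j => aeval P (χ j)) C := by
  intro m
  obtain ⟨T', hT1, hT2⟩ := hP m
  have hPR : ∀ j, P j = aeval (fun j => aeval P (χ j)) (θ j) := by
    intro j
    rw [← aeval_aeval_pol, hχ.1, MvPolynomial.aeval_X]
  obtain ⟨T, hT3, hT4⟩ := alg_exchange (k := K)
    (fun t : Fin 2 × Fin m => PowerSeries.coeff t.2.val (aeval P (χ t.1)))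
    (fun t : Fin 2 × Fin m => PowerSeries.coeff t.2.val (P t.1)) (by
      intro s
      have hmem : PowerSeries.coeff s.2.val (P s.1) ∈ IntermediateField.adjoin K
          (Set.range (fun t : Fin 2 × Fin m => PowerSeries.coeff t.2.val (aeval P (χ t.1)))) := by
        rw [hPR]
        refine UGen_aeval _ m (fun j i hi => ?_) (θ s.1) s.2.val s.2.isLt
        exact IntermediateField.subset_adjoin _ _ ⟨(j, ⟨i, hi⟩), rfl⟩
      exact isAlgebraic_algebraMap (⟨_, hmem⟩ : IntermediateField.adjoin K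
        (Set.range (fun t : Fin 2 × Fin m => PowerSeries.coeff t.2.val (aeval P (χ t.1))))))
    T' hT2
  exact ⟨T, by omega, hT4⟩

private theorem UGen_chA (P P' : Fin 2 → PowerSeries L) (A B : ℕ)
    (h0 : P 0 = PowerSeries.X ^ A * P' 0) (h1 : P 1 = PowerSeries.X ^ B * P' 1) :
    (fun j => ev P' (chA (0 : PowerSeries K) 0 A B j)) = P := by
  funext j
  fin_cases j
  · change ev P' (cA (0 : PowerSeries K) + PowerSeries.X ^ A * xA 0) = P 0
    rw [ev_add, ev_cA, ev_mul, ev_pow, ev_X, ev_xA, map_zero, zero_add, h0]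
  · change ev P' ((0 : Polynomial (PowerSeries K)).eval₂ cA (xA 0) +
      PowerSeries.X ^ B * xA 1) = P 1
    rw [Polynomial.eval₂_zero, zero_add, ev_mul, ev_pow, ev_X, ev_xA, h1]

theorem cod_scale {P P' : Fin 2 → PowerSeries L} {C A B : ℕ}
    (h0 : P 0 = PowerSeries.X ^ A * P' 0) (h1 : P 1 = PowerSeries.X ^ B * P' 1)
    (hP : Cod K P' C) : Cod K P (C + A + B) := by
  have h := cod_chA (0 : PowerSeries K) 0 A B (fun j _ => by
    rw [Polynomial.coeff_zero]
    exact dvd_zero _) hP
  rwa [UGen_chA P P' A B h0 h1] at h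

theorem cod_scale_inv {P P' : Fin 2 → PowerSeries L} {C A B : ℕ}
    (h0 : P 0 = PowerSeries.X ^ A * P' 0) (h1 : P 1 = PowerSeries.X ^ B * P' 1)
    (hP : Cod K P C) : A + B ≤ C ∧ Cod K P' (C - A - B) := by
  rw [← UGen_chA (K := K) P P' A B h0 h1] at hP
  exact cod_chA_inv (0 : PowerSeries K) 0 A B (fun j _ => by
    rw [Polynomial.coeff_zero]
    exact dvd_zero _) hP

theorem wge_dvd {a b m : ℕ} {P : Fin 2 → PowerSeries L}
    (h0 : (PowerSeries.X : PowerSeries L) ^ a ∣ P 0)
    (h1 : (PowerSeries.X : PowerSeries L) ^ b ∣ P 1) {g : MvPolynomial (Fin 2) K}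
    (hg : WGe a b m g) : (PowerSeries.X : PowerSeries L) ^ m ∣ aeval P g := by
  rw [aeval_def, eval₂_eq']
  refine Finset.dvd_sum fun e he => Dvd.dvd.mul_left ?_ _
  rw [Fin.prod_univ_two]
  have h2 : (PowerSeries.X : PowerSeries L) ^ wt a b e ∣ P 0 ^ e 0 * P 1 ^ e 1 := by
    unfold wt
    rw [pow_add, pow_mul, pow_mul]
    exact mul_dvd_mul (pow_dvd_pow_of_dvd h0 _) (pow_dvd_pow_of_dvd h1 _)
  exact (pow_dvd_pow _ (hg e (mem_support_iff.1 he))).trans h2

/-- the generic arc of the monomial valuation with weights `a'`, `b'` in the coordinates `χ` -/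
theorem exists_val {χ θ : Fin 2 → MvPolynomial (Fin 2) K} (hχ : PolAut χ θ) (a' b' : ℕ) :
    ∃ R : Fin 2 → PowerSeries (Om K), Cod K R (a' + b') ∧
      ∀ (f : MvPolynomial (Fin 2) K) (m : ℕ), WGe a' b' m (aeval χ f) →
        (PowerSeries.X : PowerSeries (Om K)) ^ m ∣ aeval R f := by
  obtain ⟨Q, hQ⟩ := exists_generic K
  have hP : Cod K (![PowerSeries.X ^ a' * Q 0, PowerSeries.X ^ b' * Q 1] :
      Fin 2 → PowerSeries (Om K)) (0 + a' + b') := cod_scale rfl rfl hQ
  rw [zero_add] at hP
  refine ⟨fun j => aeval ![PowerSeries.X ^ a' * Q 0, PowerSeries.X ^ b' * Q 1] (χ j),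
    cod_polAut hχ hP, fun f m hf => ?_⟩
  rw [← aeval_aeval_pol]
  exact wge_dvd (Dvd.intro _ rfl) (Dvd.intro _ rfl) hf

end

end M3
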