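import Pool.Agent.M3.UGen
import Pool.Agent.M3.HomP
import Pool.Agent.M3.Smooth
import Pool.Agent.M3.Ev

/-!
PIECE M3-U05: orders of a state at an arc whose centre is not the origin.

PROOF. Let `x_0 := coeff 0 (P 0)`, `y_0 := coeff 0 (P 1)` in `L`, not both `0` (`h0`, `PowerSeries.X_dvd_iff`).  For
`p ∈ K[x, y]`: `coeff 0 (aeval P p) = aeval ![x_0, y_0] p` (`aeval` and the ring homomorphism `PowerSeries.constantCoeff`).
(1) Two relatively prime homogeneous `p`, `q` (`HomW`) do not both vanish at `(x_0, y_0)`: `hom_coprime` gives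
`A p + B q = X 0^N`, `A' p + B' q = X 1^N`, so `x_0^N = y_0^N = 0`; if `N = 0` then `1 = 0`, a contradiction as well.
(2) `common_factors` for `F`: `s`, `m`, `u`.  All `p ∈ s` with `m h p > 0` for some `h` with `F h ≠ 0` divide `F h`, so they are
homogeneous (`hom_dvd`, `hS.hom`).
(3) If no such `p` vanishes at `(x_0, y_0)`: for `F h ≠ 0`, `coeff 0 (aeval P (F h)) ≠ 0` (product of nonzero elements of `L`), so
`n (grp h) = 0` by `hn`; by `hS.ne` all `n j = 0` and the sum is `0 < C`.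
(4) Otherwise there is such a `p` vanishing at `(x_0, y_0)`, and by (1) no other element of `s` which divides some
`F h ≠ 0` vanishes there.  `aeval P p ≠ 0`, and `X^R ∣ aeval P p` implies `R ≤ C`: by `irr_grad`, (1) for the derivatives
(`hom_pderiv`) and `cod_smooth_zero` (Smooth.lean) with `g := PowerSeries.C p` (`ev_C`, `dA j (PowerSeries.C p) = PowerSeries.C (pderiv j p)`).
Let `R` be the order of `aeval P p` (`R ≤ C`, finite), then for `F h ≠ 0` the order of `aeval P (F h)` is `m h p * R`.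
(5) `hst p`: numbers `B j` with `∑ mu j B j < 1` and for each `j` some `h` in the group `j` with `¬ p^(B j + 1) ∣ F h`; so `F h ≠ 0`,
`m h p ≤ B j` (`mult_le`), `n j ≤ m h p * R ≤ B j * R ≤ B j * C`.  `∑ mu j n j ≤ (∑ mu j B j) * C < C` because `C > 0` (`hS.hmu`).
-/

open MvPolynomial

namespace M3

universe u

section
variable {K : Type u} [Field K] {L : Type u} [Field L] [Algebra K L]

private lemma UPt_coeff_zero (P : Fin 2 → PowerSeries L) (p : MvPolynomial (Fin 2) K) :
    PowerSeries.coeff 0 (aeval P p) = aeval (fun l => PowerSeries.coeff 0 (P l)) p := by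
  induction p using MvPolynomial.induction_on with
  | C a =>
    rw [aeval_C, aeval_C, PowerSeries.algebraMap_apply]
    simp
  | add p q hp hq => rw [map_add, map_add, hp, hq, map_add]
  | mul_X p l hp =>
    have e1 : aeval P (p * X l) = aeval P p * P l := by rw [map_mul, aeval_X]
    have e2 : aeval (fun l => PowerSeries.coeff 0 (P l)) (p * X l) =
        aeval (fun l => PowerSeries.coeff 0 (P l)) p * PowerSeries.coeff 0 (P l) := by
      rw [map_mul, aeval_X]
    rw [e1, e2, ← hp]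
    simp

private lemma UPt_rel {a b : ℕ} (ha : 0 < a) (hb : 0 < b) {p q : MvPolynomial (Fin 2) K}
    {d e : ℕ} (hp : HomW a b d p) (hq : HomW a b e q) (h : IsRelPrime p q)
    {z : Fin 2 → L} (hz : ¬ (z 0 = 0 ∧ z 1 = 0)) (h1 : aeval z p = 0) (h2 : aeval z q = 0) :
    False := by
  obtain ⟨N, ⟨A, B, hAB⟩, A', B', hAB'⟩ := hom_coprime ha hb hp hq h
  have e1 := congrArg (aeval z) hAB
  have e2 := congrArg (aeval z) hAB'
  simp only [map_add, map_mul, map_pow, h1, h2, mul_zero, add_zero, aeval_X] at e1 e2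
  exact hz ⟨eq_zero_of_pow_eq_zero e1.symm, eq_zero_of_pow_eq_zero e2.symm⟩

private lemma UPt_le {n k : ℕ} {v : PowerSeries L} (hv : PowerSeries.coeff 0 v ≠ 0)
    (h : (PowerSeries.X : PowerSeries L) ^ n ∣ PowerSeries.X ^ k * v) : n ≤ k := by
  by_contra hcon
  push Not at hcon
  have h1 : (PowerSeries.X : PowerSeries L) ^ (k + 1) ∣ PowerSeries.X ^ k * v :=
    (pow_dvd_pow _ hcon).trans h
  rw [pow_succ] at h1
  have h2 : (PowerSeries.X : PowerSeries L) ∣ v :=
    (mul_dvd_mul_iff_left (pow_ne_zero k PowerSeries.X_ne_zero)).1 h1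
  rw [PowerSeries.X_dvd_iff, ← PowerSeries.coeff_zero_eq_constantCoeff_apply] at h2
  exact hv h2

private lemma UPt_dA (j : Fin 2) (p : MvPolynomial (Fin 2) K) :
    dA j (PowerSeries.C p) = PowerSeries.C (pderiv j p) := by
  ext n : 1
  unfold dA
  rw [PowerSeries.coeff_mk, PowerSeries.coeff_C, PowerSeries.coeff_C]
  split_ifs
  · rfl
  · rw [map_zero]

private lemma UPt_nv {ι : Type*} (P : Fin 2 → PowerSeries L) (u : K) (hu : u ≠ 0)
    (t : Finset ι) (f : ι → MvPolynomial (Fin 2) K) (m : ι → ℕ)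
    (h : ∀ q ∈ t, m q ≠ 0 → aeval (fun l => PowerSeries.coeff 0 (P l)) (f q) ≠ 0) :
    PowerSeries.coeff 0 (aeval P (C u * ∏ q ∈ t, f q ^ m q)) ≠ 0 := by
  rw [UPt_coeff_zero, map_mul, aeval_C, map_prod]
  refine mul_ne_zero ?_ (Finset.prod_ne_zero_iff.2 ?_)
  · rwa [Ne, map_eq_zero_iff _ (algebraMap K L).injective]
  · intro q hq
    rw [map_pow]
    by_cases hm : m q = 0
    · rw [hm, pow_zero]
      exact one_ne_zero
    · exact pow_ne_zero _ (h q hq hm)

end

theorem plt_pt {K : Type u} [Field K] [CharZero K] {L : Type u} [Field L] [Algebra K L] {r : ℕ}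
    {J : Type} [Fintype J] {a b : ℕ} {mu : Fin r → ℝ} {grp : J → Fin r} {d : Fin r → ℕ}
    {F : J → MvPolynomial (Fin 2) K} (hS : Stt a b mu grp d F)
    (hst : ∀ p, Irreducible p → MLt mu grp F p 1) {P : Fin 2 → PowerSeries L} {C : ℕ}
    (hP : Cod K P C) (hC : 0 < C)
    (h0 : ¬ ((PowerSeries.X : PowerSeries L) ∣ P 0 ∧ (PowerSeries.X : PowerSeries L) ∣ P 1))
    {n : Fin r → ℕ} (hn : ∀ h, (PowerSeries.X : PowerSeries L) ^ n (grp h) ∣ aeval P (F h)) :
    ∑ j, mu j * n j < C := by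
  classical
  have ha := hS.ha
  have hb : 0 < b := lt_of_lt_of_le ha hS.hab
  have hz : ¬ ((fun l => PowerSeries.coeff 0 (P l)) (0 : Fin 2) = 0 ∧
      (fun l => PowerSeries.coeff 0 (P l)) (1 : Fin 2) = 0) := by
    rintro ⟨h1, h2⟩
    apply h0
    rw [PowerSeries.X_dvd_iff, PowerSeries.X_dvd_iff,
      ← PowerSeries.coeff_zero_eq_constantCoeff_apply,
      ← PowerSeries.coeff_zero_eq_constantCoeff_apply]
    exact ⟨h1, h2⟩
  obtain ⟨s, m, u, hs1, hs2, hs3⟩ := common_factors F
  have hdv : ∀ h p, p ∈ s → F h ≠ 0 → p ^ m h p ∣ F h := by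
    intro h p hp hF
    have h1 := Dvd.dvd.mul_left (Finset.dvd_prod_of_mem (fun q => q ^ m h q) hp)
      (MvPolynomial.C (u h))
    rwa [← (hs3 h hF).2] at h1
  have hhom : ∀ h p, p ∈ s → F h ≠ 0 → m h p ≠ 0 → ∃ e, HomW a b e p := by
    intro h p hp hF hm
    exact hom_dvd ha hb hF (hS.hom h) ((dvd_pow_self p hm).trans (hdv h p hp hF))
  by_cases hc : ∃ p ∈ s, (∃ h, F h ≠ 0 ∧ m h p ≠ 0) ∧
      aeval (fun l => PowerSeries.coeff 0 (P l)) p = 0
  · obtain ⟨p, hp, ⟨h₀, hF₀, hm₀⟩, hpz⟩ := hc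
    obtain ⟨e, he⟩ := hhom h₀ p hp hF₀ hm₀
    have hκ : PowerSeries.coeff 0 (ev P (dA 0 (PowerSeries.C p))) ≠ 0 ∨
        PowerSeries.coeff 0 (ev P (dA 1 (PowerSeries.C p))) ≠ 0 := by
      by_contra hcon
      push Not at hcon
      obtain ⟨h1, h2⟩ := hcon
      rw [UPt_dA, ev_C, UPt_coeff_zero] at h1 h2
      exact UPt_rel ha hb (hom_pderiv he 0) (hom_pderiv he 1) (irr_grad ha hb he (hs1 p hp))
        hz h1 h2
    have hsm : ∀ R : ℕ, (PowerSeries.X : PowerSeries L) ^ R ∣ aeval P p → R ≤ C := by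
      intro R hR
      rw [← ev_C] at hR
      exact cod_smooth_zero hκ hR hP
    have hex : ∃ R : ℕ, ¬ (PowerSeries.X : PowerSeries L) ^ (R + 1) ∣ aeval P p := by
      refine ⟨C, fun h => ?_⟩
      have := hsm _ h
      omega
    have hR1 := Nat.find_spec hex
    have hR2 : (PowerSeries.X : PowerSeries L) ^ (Nat.find hex) ∣ aeval P p := by
      rcases Nat.eq_zero_or_pos (Nat.find hex) with h | h
      · rw [h, pow_zero]
        exact one_dvd _
      · have h1 := Nat.find_min hex (Nat.sub_lt h Nat.one_pos)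
        rw [not_not, Nat.sub_add_cancel h] at h1
        exact h1
    generalize Nat.find hex = R at hR1 hR2
    obtain ⟨w, hw⟩ := hR2
    have hw0 : PowerSeries.coeff 0 w ≠ 0 := by
      intro h
      apply hR1
      rw [hw, pow_succ]
      rw [PowerSeries.coeff_zero_eq_constantCoeff_apply] at h
      exact mul_dvd_mul_left _ (PowerSeries.X_dvd_iff.2 h)
    have hRC : R ≤ C := hsm R ⟨w, hw⟩
    have hord : ∀ h, F h ≠ 0 → n (grp h) ≤ R * m h p := by
      intro h hF
      obtain ⟨hu, hfac⟩ := hs3 h hF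
      have h1 := hn h
      have h2 : F h = p ^ m h p * (MvPolynomial.C (u h) * ∏ q ∈ s.erase p, q ^ m h q) := by
        rw [hfac, ← Finset.mul_prod_erase s (fun q => q ^ m h q) hp]
        ring
      have h3 : aeval P (F h) = PowerSeries.X ^ (R * m h p) * (w ^ m h p *
          aeval P (MvPolynomial.C (u h) * ∏ q ∈ s.erase p, q ^ m h q)) := by
        rw [h2, map_mul, map_pow, hw, mul_pow, ← pow_mul, mul_assoc]
      rw [h3] at h1
      refine UPt_le ?_ h1
      have h4 : PowerSeries.coeff 0 (aeval P (MvPolynomial.C (u h) *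
          ∏ q ∈ s.erase p, q ^ m h q)) ≠ 0 := by
        refine UPt_nv P (u h) hu (s.erase p) (fun q => q) (m h) ?_
        intro q hq hmq hqz
        have hqs := Finset.mem_of_mem_erase hq
        obtain ⟨e', he'⟩ := hhom h q hqs hF hmq
        exact UPt_rel ha hb he he' (hs2 p hp q hqs (Finset.ne_of_mem_erase hq).symm) hz hpz hqz
      rw [PowerSeries.coeff_zero_eq_constantCoeff] at h4 hw0 ⊢
      rw [map_mul, map_pow]
      exact mul_ne_zero (pow_ne_zero _ hw0) h4
    obtain ⟨B, hB, hsum⟩ := hst p (hs1 p hp)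
    choose hj hj1 hj2 using hB
    have hjF : ∀ j, F (hj j) ≠ 0 := by
      intro j h
      apply hj2 j
      rw [h]
      exact dvd_zero _
    have hle : ∀ j, n j ≤ C * B j := by
      intro j
      have h1 := hord (hj j) (hjF j)
      rw [hj1 j] at h1
      have h2 := mult_le (hj2 j) (hdv _ p hp (hjF j))
      exact h1.trans (Nat.mul_le_mul hRC h2)
    have hCpos : (0 : ℝ) < C := Nat.cast_pos.2 hC
    calc ∑ j, mu j * (n j : ℝ) ≤ ∑ j, (C : ℝ) * (mu j * B j) := by
          refine Finset.sum_le_sum fun j _ => ?_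
          have h1 : (n j : ℝ) ≤ C * B j := by exact_mod_cast hle j
          calc mu j * (n j : ℝ) ≤ mu j * (C * B j) :=
                mul_le_mul_of_nonneg_left h1 (hS.hmu j).le
            _ = C * (mu j * B j) := by ring
      _ = C * ∑ j, mu j * B j := by rw [Finset.mul_sum]
      _ < C * 1 := mul_lt_mul_of_pos_left hsum hCpos
      _ = C := mul_one _
  · have hnz : ∀ j, n j = 0 := by
      intro j
      obtain ⟨h, rfl, hF⟩ := hS.ne j
      obtain ⟨hu, hfac⟩ := hs3 h hF
      have h1 := hn h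
      have h2 : PowerSeries.coeff 0 (aeval P (F h)) ≠ 0 := by
        rw [hfac]
        refine UPt_nv P (u h) hu s (fun q => q) (m h) ?_
        intro q hq hmq hqz
        exact hc ⟨q, hq, ⟨h, hF, hmq⟩, hqz⟩
      have h3 : (PowerSeries.X : PowerSeries L) ^ n (grp h) ∣
          PowerSeries.X ^ 0 * aeval P (F h) := by
        rw [pow_zero, one_mul]
        exact h1
      have h4 := UPt_le h2 h3
      omega
    have h1 : ∑ j, mu j * (n j : ℝ) = 0 := by
      refine Finset.sum_eq_zero fun j _ => ?_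
      rw [hnz j, Nat.cast_zero, mul_zero]
    rw [h1]
    exact Nat.cast_pos.2 hC

end M3
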