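import Pool.Agent.M3.UBo

/-!
PIECE M3-U06: orders of a state at an arc centred at the origin and outside of the ball.

PROOF. `P 0 ≠ 0`, `P 1 ≠ 0` (`cod_fin`).  Let `A, B ≥ 1` be the orders: `P 0 = X^A * u`, `P 1 = X^B * v`, constant
coefficients of `u`, `v` not zero.  `A + B ≤ C` (`cod_vanish` at a large level).  `A < a` or `B < b` (`hb`), and `A * b ≠ B * a`:
otherwise, as `a`, `b` are coprime, `a ∣ A` and `b ∣ B`, so `A ≥ a` and `B ≥ b`.
Key lemma `ord_low` : let `f` be homogeneous of weight `D` (`HomW a b D f`), `A * b < B * a`, `B₀` a number with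
`¬ X 1 ^ (B₀ + 1) ∣ f`.  Then for `X^n ∣ aeval P f`: `a * n + A * b * B₀ ≤ A * D + B * a * B₀`.  Proof: `f ≠ 0`; let `e` be the monomial of `f`
with least `e 1 =: l`; `l ≤ B₀` (`X 1 ^ (B₀ + 1) ∣ f` iff all `e 1 ≥ B₀ + 1`, `MvPolynomial.X_dvd_iff..`, `monomial` divisibility).
The monomials of `f` are `(m, l')` with `a m + b l' = D`; the term of the monomial `(m, l')` in `aeval P f` has order exactly
`A m + B l'` (coefficients of `u`, `v` nonzero), and `a (A m + B l') = A D + (B a - A b) l'` is strictly increasing in `l'`.  So the order of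
`aeval P f` is `A m + B l` for the least `l`, `a n ≤ A D + (B a - A b) l ≤ A D + (B a - A b) B₀`.
Case `A b < B a`: `hS.my` gives numbers `B j`, `∑ mu j B j < 1`, and members `h_j`; so `a n_j ≤ A d_j + (B a - A b) B_j` and
`a ∑ mu n ≤ A (a + b) + (B a - A b) ∑ mu B < A (a + b) + (B a - A b) = a (A + B)`, so `∑ mu n < A + B ≤ C`.
Case `B a < A b`: the same with the roles of the coordinates exchanged and `hS.mx` (state and prove `ord_low'` for `X 0`:
`¬ X 0 ^ (A₀ + 1) ∣ f`, `X^n ∣ aeval P f` implies `b * n + B * a * A₀ ≤ B * D + A * b * A₀`; it can be deduced from `ord_low` by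
`rename`/swap or proved in the same way; best to prove one lemma with a coordinate `i : Fin 2` or abstractly).
-/

open MvPolynomial

namespace M3

universe u

private theorem upz_fac {L : Type u} [Field L] {f : PowerSeries L} (hf : f ≠ 0) :
    ∃ (A : ℕ) (u : PowerSeries L), PowerSeries.constantCoeff u ≠ 0 ∧ f = PowerSeries.X ^ A * u := by
  classical
  have hex : ∃ n, PowerSeries.coeff n f ≠ 0 := by
    by_contra hcon
    push Not at hcon
    exact hf (PowerSeries.ext fun n => by rw [hcon n, map_zero])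
  obtain ⟨N, hN, hNmin⟩ : ∃ N, PowerSeries.coeff N f ≠ 0 ∧ ∀ m < N, PowerSeries.coeff m f = 0 :=
    ⟨Nat.find hex, Nat.find_spec hex, fun m hm => not_not.1 (Nat.find_min hex hm)⟩
  obtain ⟨u, hu⟩ : (PowerSeries.X : PowerSeries L) ^ N ∣ f := by
    rw [PowerSeries.X_pow_dvd_iff]
    exact hNmin
  refine ⟨N, u, ?_, hu⟩
  intro hz
  apply hN
  have h2 := PowerSeries.coeff_X_pow_mul u N 0
  rw [zero_add] at h2
  rw [hu, h2, PowerSeries.coeff_zero_eq_constantCoeff_apply, hz]

private theorem upz_ord {K : Type u} [Field K] {L : Type u} [Field L] [Algebra K L]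
    {f : MvPolynomial (Fin 2) K} {P : Fin 2 → PowerSeries L} {A B : ℕ} {u v : PowerSeries L}
    (hu : PowerSeries.constantCoeff u ≠ 0) (hv : PowerSeries.constantCoeff v ≠ 0)
    (h0 : P 0 = PowerSeries.X ^ A * u) (h1 : P 1 = PowerSeries.X ^ B * v) {e₀ : Fin 2 →₀ ℕ}
    (he : coeff e₀ f ≠ 0)
    (hmin : ∀ e, coeff e f ≠ 0 → e ≠ e₀ → A * e₀ 0 + B * e₀ 1 < A * e 0 + B * e 1) {n : ℕ}
    (hn : (PowerSeries.X : PowerSeries L) ^ n ∣ aeval P f) : n ≤ A * e₀ 0 + B * e₀ 1 := by
  classical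
  by_contra hlt
  push Not at hlt
  set N := A * e₀ 0 + B * e₀ 1 with hN
  have hterm : ∀ e : Fin 2 →₀ ℕ, aeval P (monomial e (coeff e f)) =
      PowerSeries.X ^ (A * e 0 + B * e 1) *
        (algebraMap K (PowerSeries L) (coeff e f) * (u ^ e 0 * v ^ e 1)) := by
    intro e
    rw [aeval_monomial, Finsupp.prod_fintype _ _ (fun _ => pow_zero _), Fin.prod_univ_two, h0, h1,
      mul_pow, mul_pow, ← pow_mul, ← pow_mul, pow_add]
    ring
  have hdv : (PowerSeries.X : PowerSeries L) ^ (N + 1) ∣ aeval P (monomial e₀ (coeff e₀ f)) := by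
    have h2 : aeval P f = aeval P (monomial e₀ (coeff e₀ f)) +
        ∑ e ∈ f.support.erase e₀, aeval P (monomial e (coeff e f)) := by
      conv_lhs => rw [f.as_sum, map_sum]
      rw [← Finset.add_sum_erase _ _ (mem_support_iff.2 he)]
    have h3 : (PowerSeries.X : PowerSeries L) ^ (N + 1) ∣
        ∑ e ∈ f.support.erase e₀, aeval P (monomial e (coeff e f)) := by
      refine Finset.dvd_sum fun e hes => ?_
      rw [Finset.mem_erase, mem_support_iff] at hes
      rw [hterm e]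
      exact Dvd.dvd.mul_right (pow_dvd_pow _ (hmin e hes.2 hes.1)) _
    have h4 : (PowerSeries.X : PowerSeries L) ^ (N + 1) ∣ aeval P f :=
      (pow_dvd_pow _ (by omega)).trans hn
    rw [h2] at h4
    exact (dvd_add_left h3).1 h4
  rw [hterm e₀, ← hN, PowerSeries.X_pow_dvd_iff] at hdv
  have h5 := hdv N (Nat.lt_succ_self N)
  have h6 := PowerSeries.coeff_X_pow_mul
    (algebraMap K (PowerSeries L) (coeff e₀ f) * (u ^ e₀ 0 * v ^ e₀ 1)) N 0
  rw [zero_add] at h6
  rw [h6, PowerSeries.coeff_zero_eq_constantCoeff_apply, map_mul, map_mul, map_pow, map_pow,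
    PowerSeries.algebraMap_apply, PowerSeries.constantCoeff_C] at h5
  refine (mul_ne_zero ?_ (mul_ne_zero (pow_ne_zero _ hu) (pow_ne_zero _ hv))) h5
  rw [ne_eq, map_eq_zero]
  exact he

private theorem upz_dvd {K : Type u} [Field K] {f : MvPolynomial (Fin 2) K} (i : Fin 2) {m : ℕ}
    (h : ¬ (X i) ^ (m + 1) ∣ f) : ∃ e, coeff e f ≠ 0 ∧ e i ≤ m := by
  classical
  by_contra hcon
  push Not at hcon
  apply h
  rw [f.as_sum]
  refine Finset.dvd_sum fun e he => ?_
  have h1 := hcon e (mem_support_iff.1 he)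
  have h2 : (monomial e (coeff e f) : MvPolynomial (Fin 2) K) =
      X i ^ (m + 1) * monomial (e - Finsupp.single i (m + 1)) (coeff e f) := by
    rw [X_pow_eq_monomial, monomial_mul, one_mul]
    congr 1
    rw [add_tsub_cancel_of_le]
    rw [Finsupp.single_le_iff]
    exact h1
  rw [h2]
  exact dvd_mul_right _ _

private theorem upz_min {K : Type u} [Field K] {f : MvPolynomial (Fin 2) K} (i : Fin 2)
    {m : ℕ} (h : ¬ (X i) ^ (m + 1) ∣ f) :
    ∃ e, coeff e f ≠ 0 ∧ e i ≤ m ∧ ∀ e', coeff e' f ≠ 0 → e i ≤ e' i := by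
  classical
  obtain ⟨e₁, h1, h2⟩ := upz_dvd i h
  obtain ⟨e, he, hmin⟩ := Finset.exists_min_image f.support (fun e => e i)
    ⟨e₁, mem_support_iff.2 h1⟩
  exact ⟨e, mem_support_iff.1 he, (hmin e₁ (mem_support_iff.2 h1)).trans h2,
    fun e' he' => hmin e' (mem_support_iff.2 he')⟩

private theorem upz_low {K : Type u} [Field K] {L : Type u} [Field L] [Algebra K L]
    {a b D : ℕ} (ha : 0 < a)
    {f : MvPolynomial (Fin 2) K} (hD : ∀ e, coeff e f ≠ 0 → wt a b e = D)
    {P : Fin 2 → PowerSeries L} {A B : ℕ} {u v : PowerSeries L}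
    (hu : PowerSeries.constantCoeff u ≠ 0) (hv : PowerSeries.constantCoeff v ≠ 0)
    (h0 : P 0 = PowerSeries.X ^ A * u) (h1 : P 1 = PowerSeries.X ^ B * v)
    (hAB : A * b < B * a) {m : ℕ} (hm : ¬ (X 1) ^ (m + 1) ∣ f) {n : ℕ}
    (hn : (PowerSeries.X : PowerSeries L) ^ n ∣ aeval P f) :
    (a : ℝ) * n ≤ A * D + (B * a - A * b) * m := by
  obtain ⟨e, he, hem, hmin⟩ := upz_min 1 hm
  have h2 := upz_ord hu hv h0 h1 he (fun e' he' hne => by
    have h3 := hD e he
    have h4 := hD e' he'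
    unfold wt at h3 h4
    have h5 := hmin e' he'
    have h6 : e 1 < e' 1 := by
      refine lt_of_le_of_ne h5 fun h7 => hne ?_
      rw [← h7] at h4
      have h8 : a * e' 0 = a * e 0 := by omega
      have h9 := Nat.eq_of_mul_eq_mul_left ha h8
      ext j
      fin_cases j
      · exact h9
      · exact h7.symm
    have h10 : a * (A * e 0 + B * e 1) < a * (A * e' 0 + B * e' 1) := by
      have e1 : (a : ℤ) * e 0 + b * e 1 = D := by exact_mod_cast h3
      have e2 : (a : ℤ) * e' 0 + b * e' 1 = D := by exact_mod_cast h4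
      have e3 : (A : ℤ) * b < B * a := by exact_mod_cast hAB
      have e4 : (e 1 : ℤ) < e' 1 := by exact_mod_cast h6
      zify
      have e5 : (0 : ℤ) < (B * a - A * b) * (e' 1 - e 1) :=
        mul_pos (by linarith) (by linarith)
      have e6 : (a : ℤ) * (A * e' 0 + B * e' 1) - a * (A * e 0 + B * e 1) =
          (B * a - A * b) * (e' 1 - e 1) + A * ((a * e' 0 + b * e' 1) - (a * e 0 + b * e 1)) := by
        ring
      rw [e1, e2] at e6
      linarith
    exact lt_of_mul_lt_mul_left h10 (Nat.zero_le a)) hn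
  have h3 := hD e he
  unfold wt at h3
  have e1 : (a : ℝ) * e 0 + b * e 1 = D := by exact_mod_cast h3
  have e2 : (n : ℝ) ≤ A * e 0 + B * e 1 := by exact_mod_cast h2
  have e3 : (0 : ℝ) < B * a - A * b := by
    have : (A : ℝ) * b < B * a := by exact_mod_cast hAB
    linarith
  have e4 : (e 1 : ℝ) ≤ m := by exact_mod_cast hem
  have e5 : (a : ℝ) * n ≤ a * (A * e 0 + B * e 1) :=
    mul_le_mul_of_nonneg_left e2 (Nat.cast_nonneg a)
  have e6 : (a : ℝ) * (A * e 0 + B * e 1) = A * (a * e 0 + b * e 1) + (B * a - A * b) * e 1 := by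
    ring
  rw [e6, e1] at e5
  have e7 := mul_le_mul_of_nonneg_left e4 e3.le
  linarith

private theorem upz_low' {K : Type u} [Field K] {L : Type u} [Field L] [Algebra K L]
    {a b D : ℕ} (hb : 0 < b)
    {f : MvPolynomial (Fin 2) K} (hD : ∀ e, coeff e f ≠ 0 → wt a b e = D)
    {P : Fin 2 → PowerSeries L} {A B : ℕ} {u v : PowerSeries L}
    (hu : PowerSeries.constantCoeff u ≠ 0) (hv : PowerSeries.constantCoeff v ≠ 0)
    (h0 : P 0 = PowerSeries.X ^ A * u) (h1 : P 1 = PowerSeries.X ^ B * v)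
    (hAB : B * a < A * b) {m : ℕ} (hm : ¬ (X 0) ^ (m + 1) ∣ f) {n : ℕ}
    (hn : (PowerSeries.X : PowerSeries L) ^ n ∣ aeval P f) :
    (b : ℝ) * n ≤ B * D + (A * b - B * a) * m := by
  obtain ⟨e, he, hem, hmin⟩ := upz_min 0 hm
  have h2 := upz_ord hu hv h0 h1 he (fun e' he' hne => by
    have h3 := hD e he
    have h4 := hD e' he'
    unfold wt at h3 h4
    have h5 := hmin e' he'
    have h6 : e 0 < e' 0 := by
      refine lt_of_le_of_ne h5 fun h7 => hne ?_
      rw [← h7] at h4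
      have h8 : b * e' 1 = b * e 1 := by omega
      have h9 := Nat.eq_of_mul_eq_mul_left hb h8
      ext j
      fin_cases j
      · exact h7.symm
      · exact h9
    have h10 : b * (A * e 0 + B * e 1) < b * (A * e' 0 + B * e' 1) := by
      have e1 : (a : ℤ) * e 0 + b * e 1 = D := by exact_mod_cast h3
      have e2 : (a : ℤ) * e' 0 + b * e' 1 = D := by exact_mod_cast h4
      have e3 : (B : ℤ) * a < A * b := by exact_mod_cast hAB
      have e4 : (e 0 : ℤ) < e' 0 := by exact_mod_cast h6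
      zify
      have e5 : (0 : ℤ) < (A * b - B * a) * (e' 0 - e 0) :=
        mul_pos (by linarith) (by linarith)
      have e6 : (b : ℤ) * (A * e' 0 + B * e' 1) - b * (A * e 0 + B * e 1) =
          (A * b - B * a) * (e' 0 - e 0) + B * ((a * e' 0 + b * e' 1) - (a * e 0 + b * e 1)) := by
        ring
      rw [e1, e2] at e6
      linarith
    exact lt_of_mul_lt_mul_left h10 (Nat.zero_le b)) hn
  have h3 := hD e he
  unfold wt at h3
  have e1 : (a : ℝ) * e 0 + b * e 1 = D := by exact_mod_cast h3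
  have e2 : (n : ℝ) ≤ A * e 0 + B * e 1 := by exact_mod_cast h2
  have e3 : (0 : ℝ) < A * b - B * a := by
    have : (B : ℝ) * a < A * b := by exact_mod_cast hAB
    linarith
  have e4 : (e 0 : ℝ) ≤ m := by exact_mod_cast hem
  have e5 : (b : ℝ) * n ≤ b * (A * e 0 + B * e 1) :=
    mul_le_mul_of_nonneg_left e2 (Nat.cast_nonneg b)
  have e6 : (b : ℝ) * (A * e 0 + B * e 1) = B * (a * e 0 + b * e 1) + (A * b - B * a) * e 0 := by
    ring
  rw [e6, e1] at e5
  have e7 := mul_le_mul_of_nonneg_left e4 e3.le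
  linarith

/-- the summation over the groups -/
private theorem upz_sum {r : ℕ} {mu : Fin r → ℝ} (hmu : ∀ j, 0 < mu j) {d n Bf : Fin r → ℕ}
    {a s A t C : ℝ} (ha : 0 < a) (ht : 0 < t) (hd : ∑ j, mu j * d j = s)
    (hB : ∑ j, mu j * Bf j < 1) (h : ∀ j, a * n j ≤ A * d j + t * Bf j)
    (hC : A * s + t ≤ a * C) : ∑ j, mu j * n j < C := by
  have h1 : a * ∑ j, mu j * n j ≤ A * s + t * ∑ j, mu j * Bf j := by
    rw [← hd, Finset.mul_sum, Finset.mul_sum, Finset.mul_sum, ← Finset.sum_add_distrib]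
    refine Finset.sum_le_sum fun j _ => ?_
    have h2 := mul_le_mul_of_nonneg_left (h j) (hmu j).le
    linarith
  have h3 : t * ∑ j, mu j * Bf j < t := by
    have := mul_lt_mul_of_pos_left hB ht
    linarith
  have h4 : a * ∑ j, mu j * n j < a * C := by linarith
  exact lt_of_mul_lt_mul_left h4 ha.le

theorem plt_zero {K : Type u} [Field K] {L : Type u} [Field L] [Algebra K L] {r : ℕ}
    {J : Type} [Fintype J] {a b : ℕ} {mu : Fin r → ℝ} {grp : J → Fin r} {d : Fin r → ℕ}
    {F : J → MvPolynomial (Fin 2) K} (hS : Stt a b mu grp d F) {P : Fin 2 → PowerSeries L} {C : ℕ}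
    (hP : Cod K P C) (h0 : (PowerSeries.X : PowerSeries L) ∣ P 0)
    (h1 : (PowerSeries.X : PowerSeries L) ∣ P 1)
    (hb : ¬ ((PowerSeries.X : PowerSeries L) ^ a ∣ P 0 ∧ (PowerSeries.X : PowerSeries L) ^ b ∣ P 1))
    {n : Fin r → ℕ} (hn : ∀ h, (PowerSeries.X : PowerSeries L) ^ n (grp h) ∣ aeval P (F h)) :
    ∑ j, mu j * n j < C := by
  obtain ⟨A, u, hu, hA⟩ := upz_fac (cod_fin hP 0)
  obtain ⟨B, v, hv, hB⟩ := upz_fac (cod_fin hP 1)
  have hone : ∀ {w : PowerSeries L} {m : ℕ}, PowerSeries.constantCoeff w ≠ 0 →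
      (PowerSeries.X : PowerSeries L) ∣ PowerSeries.X ^ m * w → 1 ≤ m := by
    intro w m hw hd
    by_contra hlt
    have h2 : m = 0 := by omega
    subst h2
    rw [pow_zero, one_mul, PowerSeries.X_dvd_iff] at hd
    exact hw hd
  have hA1 : 1 ≤ A := hone hu (hA ▸ h0)
  have hB1 : 1 ≤ B := hone hv (hB ▸ h1)
  have hdA : (PowerSeries.X : PowerSeries L) ^ A ∣ P 0 := hA ▸ dvd_mul_right _ _
  have hdB : (PowerSeries.X : PowerSeries L) ^ B ∣ P 1 := hB ▸ dvd_mul_right _ _
  have hC : A + B ≤ C := cod_vanish (hP (max A B)) hdA hdB (le_max_left _ _) (le_max_right _ _)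
  have hbpos : 0 < b := lt_of_lt_of_le hS.ha hS.hab
  have hCR : (A : ℝ) + B ≤ C := by exact_mod_cast hC
  have haR : (0 : ℝ) < a := by exact_mod_cast hS.ha
  have hbR : (0 : ℝ) < b := by exact_mod_cast hbpos
  rcases lt_trichotomy (A * b) (B * a) with hlt | heq | hgt
  · obtain ⟨Bf, hBf, hsum⟩ := hS.my
    have ht : (0 : ℝ) < B * a - A * b := by
      have : (A : ℝ) * b < B * a := by exact_mod_cast hlt
      linarith
    refine upz_sum hS.hmu haR ht hS.sum hsum (A := A) (fun j => ?_) ?_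
    · obtain ⟨h, hj, hnd⟩ := hBf j
      subst hj
      exact upz_low hS.ha (hS.hom h) hu hv hA hB hlt hnd (hn h)
    · have := mul_le_mul_of_nonneg_left hCR haR.le
      linarith
  · exfalso
    apply hb
    have ha1 : a ∣ A := by
      refine (hS.cop).dvd_of_dvd_mul_right ?_
      rw [heq]
      exact dvd_mul_left a B
    have hb1 : b ∣ B := by
      refine (hS.cop.symm).dvd_of_dvd_mul_right ?_
      rw [← heq]
      exact dvd_mul_left b A
    exact ⟨(pow_dvd_pow _ (Nat.le_of_dvd hA1 ha1)).trans hdA,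
      (pow_dvd_pow _ (Nat.le_of_dvd hB1 hb1)).trans hdB⟩
  · obtain ⟨Bf, hBf, hsum⟩ := hS.mx
    have ht : (0 : ℝ) < A * b - B * a := by
      have : (B : ℝ) * a < A * b := by exact_mod_cast hgt
      linarith
    refine upz_sum hS.hmu hbR ht hS.sum hsum (A := B) (fun j => ?_) ?_
    · obtain ⟨h, hj, hnd⟩ := hBf j
      subst hj
      exact upz_low' hbpos (hS.hom h) hu hv hA hB hgt hnd (hn h)
    · have := mul_le_mul_of_nonneg_left hCR hbR.le
      linarith

end M3
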