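import Pool.Agent.M3.UDef
import Pool.Agent.M3.DegA

/-!
PIECE M3-U03: passing to top parts (constant coefficients).

PROOF. `deg_top` (DegA.lean) for `R`, level `m`, and the functions `PowerSeries.C f` (`ev_C`, `topA_C`; the coefficients
of `PowerSeries.C f` are `f` and `0`), then `exists_cont` (CodB.lean), again for `PowerSeries.C _`.
-/

open MvPolynomial

namespace M3

universe u

theorem exists_top {K : Type u} [Field K] {L : Type u} [Field L] [Algebra K L]
    {R : Fin 2 → PowerSeries L} {C : ℕ} (hR : Cod K R C) (a b m : ℕ) :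
    ∃ P : Fin 2 → PowerSeries (Om K), Cod K P C ∧
      ∀ (f : MvPolynomial (Fin 2) K) (D r : ℕ), r ≤ m → WLe a b D f →
        (PowerSeries.X : PowerSeries L) ^ r ∣ aeval R f →
        (PowerSeries.X : PowerSeries (Om K)) ^ r ∣ aeval P (wtop a b D f) := by
  obtain ⟨L₀, _, _, P₀, h1, h2⟩ := deg_top R m C (hR m) a b
  obtain ⟨P, h3, h4⟩ := exists_cont P₀ m C h1
  refine ⟨P, h3, ?_⟩
  intro f D r hr hf hd
  have h5 := h2 (PowerSeries.C f) D r hr ?_ (by rw [ev_C]; exact hd)
  · rw [topA_C] at h5
    have h6 := h4 _ r hr h5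
    rwa [ev_C] at h6
  · intro n _ e he
    rw [PowerSeries.coeff_C] at he
    split_ifs at he with h0
    · exact hf e he
    · exact absurd (coeff_zero e) he

end M3
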