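import Pool.Agent.M3.UPt
import Pool.Agent.M3.UPz
import Pool.Agent.M3.UTop

/-!
PROJECT M3, block U: orders of a state at arcs; the valuation is bounded by the weighted degree.
-/

open MvPolynomial

namespace M3

universe u

section
variable {K : Type u} [Field K] {r : ℕ} {J : Type} [Fintype J] {a b : ℕ} {mu : Fin r → ℝ}
  {grp : J → Fin r} {d : Fin r → ℕ} {F : J → MvPolynomial (Fin 2) K}

/-- a state with all masses less than one has log discrepancies at least zero, with equality only at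
the generic arcs of the balls -/
theorem plt_ineq [CharZero K] {L : Type u} [Field L] [Algebra K L] (hS : Stt a b mu grp d F)
    (hst : ∀ p, Irreducible p → MLt mu grp F p 1) {P : Fin 2 → PowerSeries L} {C : ℕ}
    (hP : Cod K P C) {n : Fin r → ℕ}
    (hn : ∀ h, (PowerSeries.X : PowerSeries L) ^ n (grp h) ∣ aeval P (F h)) :
    ∑ j, mu j * n j ≤ C ∧ (∑ j, mu j * n j = C → ∃ g : ℕ, C = g * (a + b) ∧
      (PowerSeries.X : PowerSeries L) ^ (g * a) ∣ P 0 ∧
      (PowerSeries.X : PowerSeries L) ^ (g * b) ∣ P 1) := by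
  obtain ⟨g, P', h0, h1, hg, hP', hb⟩ := ball_out (b := b) hS.ha hP
  have hn' : ∀ h, (PowerSeries.X : PowerSeries L) ^ (n (grp h) - g * d (grp h)) ∣
      aeval P' (F h) := by
    intro h
    have e1 : aeval P (F h) = (PowerSeries.X : PowerSeries L) ^ (g * d (grp h)) *
        aeval P' (F h) := by
      have e2 := hom_scale (hS.hom h) ((PowerSeries.X : PowerSeries L) ^ g) (P' 0) (P' 1)
      rw [← pow_mul, ← pow_mul, ← pow_mul, ← h0, ← h1] at e2
      have e3 : P = ![P 0, P 1] := by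
        funext j; fin_cases j <;> rfl
      have e4 : P' = ![P' 0, P' 1] := by
        funext j; fin_cases j <;> rfl
      rw [e3, e4, e2]
    have e5 := hn h
    rw [e1] at e5
    rcases le_total (n (grp h)) (g * d (grp h)) with h2 | h2
    · rw [Nat.sub_eq_zero_of_le h2, pow_zero]; exact one_dvd _
    · have e6 : n (grp h) = g * d (grp h) + (n (grp h) - g * d (grp h)) := by omega
      rw [e6, pow_add] at e5
      exact (mul_dvd_mul_iff_left (pow_ne_zero _ PowerSeries.X_ne_zero)).1 e5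
  have hle : ∑ j, mu j * (n j : ℝ) ≤
      ∑ j, mu j * ((n j - g * d j : ℕ) : ℝ) + g * (a + b) := by
    have e1 : ((g : ℝ) * (a + b)) = ∑ j, mu j * ((g * d j : ℕ) : ℝ) := by
      rw [← hS.sum, Finset.mul_sum]
      refine Finset.sum_congr rfl fun j _ => ?_
      push_cast; ring
    rw [e1, ← Finset.sum_add_distrib]
    refine Finset.sum_le_sum fun j _ => ?_
    rw [← mul_add]
    refine mul_le_mul_of_nonneg_left ?_ (hS.hmu j).le
    have : n j ≤ (n j - g * d j) + g * d j := by omega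
    exact_mod_cast this
  have hCr : (((C - g * (a + b) : ℕ) : ℝ)) = (C : ℝ) - g * (a + b) := by
    rw [Nat.cast_sub hg]; push_cast; ring
  rcases Nat.eq_zero_or_pos (C - g * (a + b)) with hC | hC
  · rw [hC] at hP'
    have hz : ∀ j, n j - g * d j = 0 := by
      intro j
      obtain ⟨h, hj, hF⟩ := hS.ne j
      by_contra hne
      have h2 := hn' h
      rw [hj] at h2
      have h3 : (PowerSeries.X : PowerSeries L) ∣ aeval P' (F h) :=
        (dvd_pow_self _ hne).trans h2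
      rw [PowerSeries.X_dvd_iff] at h3
      exact generic_ne hP' hF (by rw [PowerSeries.coeff_zero_eq_constantCoeff_apply]; exact h3)
    have hsum0 : ∑ j, mu j * ((n j - g * d j : ℕ) : ℝ) = 0 :=
      Finset.sum_eq_zero fun j _ => by rw [hz j]; simp
    have hCe : C = g * (a + b) := by omega
    refine ⟨?_, fun _ => ⟨g, hCe, ⟨P' 0, h0⟩, ⟨P' 1, h1⟩⟩⟩
    rw [hsum0] at hle
    have : (C : ℝ) = g * (a + b) := by rw [hCe]; push_cast; ring
    linarith
  · have hlt : ∑ j, mu j * ((n j - g * d j : ℕ) : ℝ) < ((C - g * (a + b) : ℕ) : ℝ) := by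
      by_cases h2 : (PowerSeries.X : PowerSeries L) ∣ P' 0 ∧ (PowerSeries.X : PowerSeries L) ∣ P' 1
      · exact plt_zero hS hP' h2.1 h2.2 hb (n := fun j => n j - g * d j) hn'
      · exact plt_pt hS hst hP' hC h2 (n := fun j => n j - g * d j) hn'
    rw [hCr] at hlt
    have hlt' : ∑ j, mu j * (n j : ℝ) < C := by linarith
    exact ⟨hlt'.le, fun h => absurd h hlt'.ne⟩

/-- exact weighted degree -/
theorem exists_deg {f : MvPolynomial (Fin 2) K} (hf : f ≠ 0) {D : ℕ} (hD : WLe a b D f) :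
    ∃ D' ≤ D, WLe a b D' f ∧ wtop a b D' f ≠ 0 := by
  obtain ⟨e0, he0⟩ := MvPolynomial.ne_zero_iff.1 hf
  obtain ⟨e, he, hmax⟩ := Finset.exists_max_image f.support (wt a b)
    ⟨e0, MvPolynomial.mem_support_iff.2 he0⟩
  refine ⟨wt a b e, hD e (MvPolynomial.mem_support_iff.1 he), fun e' he' =>
    hmax e' (MvPolynomial.mem_support_iff.2 he'), ?_⟩
  rw [MvPolynomial.ne_zero_iff]
  refine ⟨e, ?_⟩
  rw [coeff_wtop, if_pos rfl]
  exact MvPolynomial.mem_support_iff.1 he

theorem val_le [CharZero K] (hS : Stt a b mu grp d F)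
    (hst : ∀ p, Irreducible p → MLt mu grp F p 1) {G : J → MvPolynomial (Fin 2) K}
    (hG : ∀ h, WLe a b (d (grp h)) (G h) ∧ wtop a b (d (grp h)) (G h) = F h)
    {χ θ : Fin 2 → MvPolynomial (Fin 2) K} (hχ : PolAut χ θ) {a' b' : ℕ}
    {d' : Fin r → ℕ} (hsum' : ∑ j, mu j * d' j = a' + b')
    (hd' : ∀ h, WGe a' b' (d' (grp h)) (aeval χ (G h))) :
    ∃ g : ℕ, a' + b' = g * (a + b) ∧ ∀ f : MvPolynomial (Fin 2) K, f ≠ 0 → ∀ D, WLe a b D f →
      ¬ WGe a' b' (g * D + 1) (aeval χ f) := by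
  obtain ⟨R, hR, hRf⟩ := exists_val hχ a' b'
  have key : ∀ m : ℕ, (∀ j, d' j ≤ m) → ∃ P : Fin 2 → PowerSeries (Om K), Cod K P (a' + b') ∧
      (∀ (f : MvPolynomial (Fin 2) K) (D r : ℕ), r ≤ m → WLe a b D f →
        (PowerSeries.X : PowerSeries (Om K)) ^ r ∣ aeval R f →
        (PowerSeries.X : PowerSeries (Om K)) ^ r ∣ aeval P (wtop a b D f)) ∧
      ∃ g : ℕ, a' + b' = g * (a + b) ∧
        (PowerSeries.X : PowerSeries (Om K)) ^ (g * a) ∣ P 0 ∧
        (PowerSeries.X : PowerSeries (Om K)) ^ (g * b) ∣ P 1 := by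
    intro m hm
    obtain ⟨P, hP, hPf⟩ := exists_top hR a b m
    refine ⟨P, hP, hPf, ?_⟩
    have h1 : ∀ h, (PowerSeries.X : PowerSeries (Om K)) ^ d' (grp h) ∣ aeval P (F h) := by
      intro h
      have h2 := hPf (G h) (d (grp h)) (d' (grp h)) (hm _) (hG h).1 (hRf _ _ (hd' h))
      rwa [(hG h).2] at h2
    refine (plt_ineq hS hst hP h1).2 ?_
    rw [hsum']
    push_cast
    rfl
  obtain ⟨m0, hm0⟩ : ∃ m0, ∀ j, d' j ≤ m0 :=
    ⟨∑ j, d' j, fun j => Finset.single_le_sum (fun _ _ => Nat.zero_le _) (Finset.mem_univ j)⟩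
  obtain ⟨_, _, _, g, hg, _⟩ := key m0 hm0
  refine ⟨g, hg, fun f hf D hD hW => ?_⟩
  obtain ⟨D', hD', hWL, htop⟩ := exists_deg hf hD
  obtain ⟨P, hP, hPf, g', hg', h0, h1⟩ := key (m0 + (g * D' + 1)) fun j => (hm0 j).trans (by omega)
  have hgg : g' = g := by
    have h2 : g' * (a + b) = g * (a + b) := by rw [← hg', hg]
    exact Nat.eq_of_mul_eq_mul_right (by have := hS.ha; omega) h2
  subst hgg
  have h3 := hPf f D' (g' * D' + 1) (by omega) hWL
    (hRf f _ (hW.mono (by have := Nat.mul_le_mul_left g' hD'; omega)))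
  rw [hg'] at hP
  refine hom_gen h0 h1 hP htop ?_ h3
  intro e he
  rw [coeff_wtop] at he
  by_contra hne
  rw [if_neg hne] at he
  exact he rfl

end

end M3
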