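import Pool.Agent.M3.Deepen
import Pool.Agent.M3.XMain
import Pool.Agent.M3.ArcIn

/-!
PIECE M3-K03: R-ideals `a` with `a^(1+η)` log canonical.

PROOF of `klt_low`. Let `A := logDisc E` (natural number, `exists_logDisc`; if it is `⊤` the claim is trivial),
`n j := E.ordI (b j)`, `e := E.ordI (mm)`, `1 ≤ e`. `t` := smallest number with `n j ≤ s * t` for all `j` with `lam j > 0`
and `t ≥ e`; so `t = e` or there is `j` with `lam j > 0`, `s * (t - 1) < n j`; in both cases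
`3 (t - e) ≤ 3 (t - 1)` and `c * (s * (t - e)) ≤ ∑ lam j * n j` (`c ≤ lam j`). `deepen` with `M := ∑ n j` gives
`E', g, A₁`. For `lam j > 0`: `n j ≤ g * E'.ordI (a j)`, because `a j ≤ b j ⊔ mm^s` and `g * E'.ord f ≥ n j` for
`f ∈ b j`, `g * E'.ord f ≥ s t ≥ n j` for `f ∈ mm^s` (elements of `mm^s`: sums of products of `s` elements of
`mm`, or `ordI` of powers/products (`ordI_prod`, `ordI_mul`) and `ordI_sup`, `ordI_mono`). From `h` for `E'`:
`(1 + η) ∑ lam j * E'.ordI (a j) ≤ A₁`, so `(1 + η) ∑ lam j n j ≤ g A₁ ≤ A + 3 (t - e)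
≤ A + (η / 2) ∑ lam j n j` if `6 ≤ η c s`. So `(1 + η/2) ∑ lam j n j ≤ A`.
-/

open MvPolynomial

namespace M3

open MLD

universe u

private theorem UniKlt_mm_ne {k : Type u} [Field k] : mm k (Fin 3) ≠ ⊥ := by
  intro h
  have h1 : (X 0 : MvPolynomial (Fin 3) k) ∈ mm k (Fin 3) := Ideal.subset_span ⟨0, rfl⟩
  rw [h, Ideal.mem_bot] at h1
  exact X_ne_zero _ h1

private theorem UniKlt_mm_pow_ne {k : Type u} [Field k] (s : ℕ) : mm k (Fin 3) ^ s ≠ ⊥ := by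
  induction s with
  | zero =>
    rw [pow_zero, Ideal.one_eq_top]
    exact top_ne_bot
  | succ s ih =>
    rw [pow_succ]
    intro h
    rcases Ideal.mul_eq_bot.1 h with h | h
    · exact ih h
    · exact UniKlt_mm_ne h

private theorem UniKlt_ordI_pow {k : Type u} [Field k] (E : DivisorOver k (Fin 3)) (s : ℕ) :
    E.ordI (mm k (Fin 3) ^ s) = s * E.ordI (mm k (Fin 3)) := by
  have h := ordI_prod E (Finset.range s) (fun _ => mm k (Fin 3)) fun _ _ => UniKlt_mm_ne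
  rw [Finset.prod_const, Finset.card_range, Finset.sum_const, Finset.card_range,
    smul_eq_mul] at h
  exact h

private theorem UniKlt_mm_le {k : Type u} [Field k] (E : DivisorOver k (Fin 3)) (g t : ℕ)
    (h : ∀ i, (t : ℤ) ≤ g * E.ord (xx k i)) : t ≤ g * E.ordI (mm k (Fin 3)) := by
  by_contra hc
  rw [not_le] at hc
  have h1 : E.ordI (mm k (Fin 3)) + 1 ≤ E.ordI (mm k (Fin 3)) := by
    refine le_ordI_span E UniKlt_mm_ne _ fun f hf _ => ?_
    obtain ⟨i, rfl⟩ := hf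
    have h2 := h i
    by_contra hd
    rw [not_le] at hd
    have h3 : E.ord (xx k i) ≤ (E.ordI (mm k (Fin 3)) : ℤ) := by
      have h4 : E.ord (toFF k (Fin 3) (X i)) = E.ord (xx k i) := rfl
      rw [h4] at hd
      push_cast at hd
      omega
    have h5 : (g : ℤ) * E.ord (xx k i) ≤ g * (E.ordI (mm k (Fin 3)) : ℤ) :=
      mul_le_mul_of_nonneg_left h3 (Int.natCast_nonneg g)
    have h6 : (g : ℤ) * (E.ordI (mm k (Fin 3)) : ℤ) < t := by exact_mod_cast hc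
    omega
  omega

/-- the choice of `t` -/
private theorem UniKlt_t {r : ℕ} (lam : Fin r → ℝ) (hlam : ∀ j, 0 ≤ lam j) (c : ℝ) (hc : 0 < c)
    (hcl : ∀ j, 0 < lam j → c ≤ lam j) (s : ℕ) (hs : 0 < s) (n : Fin r → ℕ) (e : ℕ)
    (he : 1 ≤ e) : ∃ t : ℕ, e ≤ t ∧ (∀ j, 0 < lam j → n j ≤ s * t) ∧
      c * s * ((t - e : ℕ) : ℝ) ≤ ∑ j, lam j * (n j : ℝ) := by
  classical
  have hS : 0 ≤ ∑ j, lam j * (n j : ℝ) :=
    Finset.sum_nonneg fun j _ => mul_nonneg (hlam j) (Nat.cast_nonneg _)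
  have hex : ∃ t : ℕ, e ≤ t ∧ ∀ j, 0 < lam j → n j ≤ s * t := by
    refine ⟨e + ∑ j, n j, by omega, fun j _ => ?_⟩
    have h1 : n j ≤ ∑ j, n j := Finset.single_le_sum (fun _ _ => Nat.zero_le _)
      (Finset.mem_univ j)
    calc n j ≤ ∑ j, n j := h1
      _ ≤ e + ∑ j, n j := by omega
      _ ≤ s * (e + ∑ j, n j) := Nat.le_mul_of_pos_left _ hs
  refine ⟨Nat.find hex, (Nat.find_spec hex).1, (Nat.find_spec hex).2, ?_⟩
  obtain ⟨t, ht⟩ : ∃ t, t = Nat.find hex := ⟨_, rfl⟩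
  have ht1 : e ≤ t := by rw [ht]; exact (Nat.find_spec hex).1
  rw [← ht]
  rcases Nat.eq_or_lt_of_le ht1 with h1 | h1
  · rw [← h1, Nat.sub_self, Nat.cast_zero, mul_zero]
    exact hS
  · have h2 : ¬ (e ≤ t - 1 ∧ ∀ j, 0 < lam j → n j ≤ s * (t - 1)) :=
      Nat.find_min hex (by rw [← ht]; omega)
    have h3 : ∃ j, 0 < lam j ∧ s * (t - 1) < n j := by
      by_contra hcon
      apply h2
      refine ⟨by omega, fun j hj => ?_⟩
      by_contra hd
      rw [not_le] at hd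
      exact hcon ⟨j, hj, hd⟩
    obtain ⟨j, hj, hjn⟩ := h3
    have h4 : s * (t - e) ≤ n j := (Nat.mul_le_mul_left s (by omega)).trans hjn.le
    have h5 : (s : ℝ) * ((t - e : ℕ) : ℝ) ≤ n j := by exact_mod_cast h4
    calc c * s * ((t - e : ℕ) : ℝ) = c * (s * ((t - e : ℕ) : ℝ)) := by ring
      _ ≤ lam j * n j := mul_le_mul (hcl j hj) h5 (by positivity) hj.le
      _ ≤ ∑ j, lam j * (n j : ℝ) := Finset.single_le_sum (f := fun j => lam j * (n j : ℝ))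
          (fun j _ => mul_nonneg (hlam j) (Nat.cast_nonneg _)) (Finset.mem_univ j)

/-- the inequality from the hypothesis on `a` -/
private theorem UniKlt_mld {k : Type u} [Field k] {r : ℕ} (lam : Fin r → ℝ) (η : ℝ)
    (a : Fin r → Ideal (MvPolynomial (Fin 3) k))
    (h : 0 ≤ mld (fun j => (1 + η) * lam j) a) (E : DivisorOver k (Fin 3)) (hE : E.CenterZero)
    (A : ℕ) (hA : E.logDisc ≤ (((A : ℕ) : ℝ) : EReal)) :
    (1 + η) * ∑ j, lam j * (E.ordI (a j) : ℝ) ≤ A := by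
  obtain ⟨B, hB1, hB2, hB⟩ := logDisc_real E _ hA
  have h1 : (0 : EReal) ≤ E.aDisc (fun j => (1 + η) * lam j) a :=
    h.trans (iInf_le (fun E : {E : DivisorOver k (Fin 3) // E.CenterZero} =>
      E.1.aDisc (fun j => (1 + η) * lam j) a) ⟨E, hE⟩)
  unfold DivisorOver.aDisc at h1
  rw [hB, ← EReal.coe_sub, EReal.coe_nonneg] at h1
  have h2 : ∑ j, (1 + η) * lam j * (E.ordI (a j) : ℝ) =
      (1 + η) * ∑ j, lam j * (E.ordI (a j) : ℝ) := by
    rw [Finset.mul_sum]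
    exact Finset.sum_congr rfl fun j _ => mul_assoc _ _ _
  rw [h2] at h1
  linarith

theorem klt_low {k : Type u} [Field k] [CharZero k] {r : ℕ} (lam : Fin r → ℝ)
    (hlam : ∀ j, 0 ≤ lam j) (η c : ℝ) (hη : 0 < η) (hc : 0 < c) (hcl : ∀ j, 0 < lam j → c ≤ lam j)
    (s : ℕ) (hs : 6 ≤ η * c * s) (a b : Fin r → Ideal (MvPolynomial (Fin 3) k))
    (ha : ∀ j, a j ≠ ⊥) (hb : ∀ j, b j ≠ ⊥)
    (hab : ∀ j, a j ⊔ mm k (Fin 3) ^ s = b j ⊔ mm k (Fin 3) ^ s)
    (h : 0 ≤ mld (fun j => (1 + η) * lam j) a) (E : DivisorOver k (Fin 3)) (hE : E.CenterZero)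
    (A : ℕ) (hA : E.logDisc = (((A : ℕ) : ℝ) : EReal)) :
    (1 + η / 2) * ∑ j, lam j * (E.ordI (b j) : ℝ) ≤ A := by
  have hs0 : 0 < s := by
    rcases Nat.eq_zero_or_pos s with h0 | h0
    · rw [h0, Nat.cast_zero, mul_zero] at hs
      linarith
    · exact h0
  have he : 1 ≤ E.ordI (mm k (Fin 3)) := by
    have h1 := ordI_mm_pow E hE 1
    rwa [pow_one] at h1
  obtain ⟨t, ht1, ht2, ht3⟩ := UniKlt_t lam hlam c hc hcl s hs0 (fun j => E.ordI (b j))
    (E.ordI (mm k (Fin 3))) he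
  obtain ⟨E', g, A₁, hg, hE', hA₁, hgA, hord, hxx⟩ := deepen E hE A hA.le t
    (∑ j, E.ordI (b j)) ht1
  have hmm := UniKlt_mm_le E' g t hxx
  have key : ∀ j, 0 < lam j → E.ordI (b j) ≤ g * E'.ordI (a j) := by
    intro j hj
    have h1 : E'.ordI (b j ⊔ mm k (Fin 3) ^ s) ≤ E'.ordI (a j) := by
      refine ordI_mono E' (ha j) ?_
      rw [← hab j]
      exact le_sup_left
    rw [ordI_sup E' (hb j) (UniKlt_mm_pow_ne s)] at h1
    have h2 : E.ordI (b j) ≤ g * E'.ordI (b j) := by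
      obtain ⟨f, hf, hf0, hfo⟩ := ordI_mem E' (hb j)
      have h3 := hord f hf0 (E.ordI (b j)) (ordI_le E hf hf0)
        (Finset.single_le_sum (f := fun j => E.ordI (b j)) (fun _ _ => Nat.zero_le _)
          (Finset.mem_univ j))
      rw [hfo] at h3
      exact_mod_cast h3
    have h4 : E.ordI (b j) ≤ g * E'.ordI (mm k (Fin 3) ^ s) := by
      rw [UniKlt_ordI_pow]
      calc E.ordI (b j) ≤ s * t := ht2 j hj
        _ ≤ s * (g * E'.ordI (mm k (Fin 3))) := Nat.mul_le_mul_left s hmm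
        _ = g * (s * E'.ordI (mm k (Fin 3))) := by ring
    refine le_trans ?_ (Nat.mul_le_mul_left g h1)
    rcases min_choice (E'.ordI (b j)) (E'.ordI (mm k (Fin 3) ^ s)) with h5 | h5
    · rw [h5]; exact h2
    · rw [h5]; exact h4
  have h5 := UniKlt_mld lam η a h E' hE' A₁ hA₁
  have h6 : ∑ j, lam j * (E.ordI (b j) : ℝ) ≤ g * ∑ j, lam j * (E'.ordI (a j) : ℝ) := by
    rw [Finset.mul_sum]
    refine Finset.sum_le_sum fun j _ => ?_
    rcases (hlam j).eq_or_lt with h7 | h7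
    · rw [← h7, zero_mul, zero_mul, mul_zero]
    · have h8 : (E.ordI (b j) : ℝ) ≤ g * (E'.ordI (a j) : ℝ) := by exact_mod_cast key j h7
      calc lam j * (E.ordI (b j) : ℝ) ≤ lam j * (g * (E'.ordI (a j) : ℝ)) :=
            mul_le_mul_of_nonneg_left h8 h7.le
        _ = g * (lam j * (E'.ordI (a j) : ℝ)) := by ring
  have h9 : (g : ℝ) * A₁ ≤ A + 3 * ((t - E.ordI (mm k (Fin 3)) : ℕ) : ℝ) := by
    exact_mod_cast hgA
  have hg0 : (0 : ℝ) ≤ g := Nat.cast_nonneg g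
  obtain ⟨S, hS⟩ : ∃ S, S = ∑ j, lam j * (E.ordI (b j) : ℝ) := ⟨_, rfl⟩
  obtain ⟨S', hS'⟩ : ∃ S', S' = ∑ j, lam j * (E'.ordI (a j) : ℝ) := ⟨_, rfl⟩
  obtain ⟨d, hd⟩ : ∃ d, d = ((t - E.ordI (mm k (Fin 3)) : ℕ) : ℝ) := ⟨_, rfl⟩
  have hd0 : 0 ≤ d := by rw [hd]; exact Nat.cast_nonneg _
  rw [← hS'] at h5 h6
  rw [← hS] at h6 ⊢
  rw [← hd] at h9
  have h10 : c * s * d ≤ S := by
    rw [hd, hS]
    exact ht3
  have h11 : 6 * d ≤ η * S := by
    calc 6 * d ≤ η * c * s * d := mul_le_mul_of_nonneg_right hs hd0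
      _ = η * (c * s * d) := by ring
      _ ≤ η * S := mul_le_mul_of_nonneg_left h10 hη.le
  have h12 : (1 + η) * S ≤ g * A₁ := by
    calc (1 + η) * S ≤ (1 + η) * (g * S') := mul_le_mul_of_nonneg_left h6 (by linarith)
      _ = g * ((1 + η) * S') := by ring
      _ ≤ g * A₁ := mul_le_mul_of_nonneg_left h5 hg0
  linarith

end M3
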