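import Pool.Agent.M3.UniKlt

/-!
PIECE M3-X10: uniformly klt R-ideals; divisors of bounded log discrepancy attain the infimum.
-/

open MvPolynomial Filter

namespace M3

open MLD

universe u

section
variable {k : Type u} [Field k] [CharZero k]

/-- `A(E) ≥ 3 ord_E m` -/
theorem three_mm_le (E : DivisorOver k (Fin 3)) (hE : E.CenterZero) (A : ℕ)
    (hA : E.logDisc = (((A : ℕ) : ℝ) : EReal)) : 3 * E.ordI (mm k (Fin 3)) ≤ A := by
  obtain ⟨i₀, e, -, he, -, h3, -⟩ := div_to_arc E hE A hA.le 0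
  have h1 : ((E.ordI (mm k (Fin 3)) : ℕ) : ℤ) ≤ E.ord (toFF k (Fin 3) (X i₀)) :=
    ordI_le E (Ideal.subset_span ⟨i₀, rfl⟩) (X_ne_zero i₀)
  have h2 : E.ord (toFF k (Fin 3) (X i₀)) = e := he
  rw [h2] at h1
  have h4 : E.ordI (mm k (Fin 3)) ≤ e := by exact_mod_cast h1
  omega

theorem klt_eps {r : ℕ} (lam : Fin r → ℝ)
    (hlam : ∀ j, 0 ≤ lam j) (η c : ℝ) (hη : 0 < η) (hc : 0 < c) (hcl : ∀ j, 0 < lam j → c ≤ lam j)
    (s : ℕ) (hs : 6 ≤ η * c * s) (a b : Fin r → Ideal (MvPolynomial (Fin 3) k))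
    (ha : ∀ j, a j ≠ ⊥) (hb : ∀ j, b j ≠ ⊥)
    (hab : ∀ j, a j ⊔ mm k (Fin 3) ^ s = b j ⊔ mm k (Fin 3) ^ s)
    (h : 0 ≤ mld (fun j => (1 + η) * lam j) a) :
    0 ≤ mld (Fin.cons (3 * η / (2 + η)) lam : Fin (r + 1) → ℝ)
      (Fin.cons (mm k (Fin 3)) b : Fin (r + 1) → Ideal (MvPolynomial (Fin 3) k)) := by
  refine Q1_le_mld _ _ _ fun E hE => ?_
  by_cases ht : E.logDisc = ⊤
  · unfold DivisorOver.aDisc
    rw [ht, EReal.top_sub_coe]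
    exact le_top
  · obtain ⟨A, hA⟩ := exists_logDisc E ht
    have h1 := klt_low lam hlam η c hη hc hcl s hs a b ha hb hab h E hE A hA
    have h2 := three_mm_le E hE A hA
    rw [Q1_aDisc E _ _ hA, Fin.sum_univ_succ]
    simp only [Fin.cons_zero, Fin.cons_succ]
    have h3 : (3 : ℝ) * (E.ordI (mm k (Fin 3)) : ℝ) ≤ A := by exact_mod_cast h2
    have h4 : (0 : ℝ) < 2 + η := by linarith
    have h5 : 3 * η / (2 + η) * (E.ordI (mm k (Fin 3)) : ℝ) ≤ η / (2 + η) * A := by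
      have h6 : 3 * η / (2 + η) * (E.ordI (mm k (Fin 3)) : ℝ) =
          η / (2 + η) * (3 * (E.ordI (mm k (Fin 3)) : ℝ)) := by ring
      rw [h6]
      exact mul_le_mul_of_nonneg_left h3 (by positivity)
    have h7 : ∑ j, lam j * (E.ordI (b j) : ℝ) ≤ 2 / (2 + η) * A := by
      rw [div_mul_eq_mul_div, le_div_iff₀ h4]
      nlinarith
    have h8 : η / (2 + η) * A + 2 / (2 + η) * A = (A : ℝ) := by
      field_simp
      ring
    have h9 : (0 : ℝ) ≤ A - (3 * η / (2 + η) * (E.ordI (mm k (Fin 3)) : ℝ) +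
        ∑ j, lam j * (E.ordI (b j) : ℝ)) := by linarith
    exact_mod_cast h9

end

section
variable {k : Type u} [Field k] [IsAlgClosed k] [CharZero k]

omit [IsAlgClosed k] [CharZero k] in
theorem sup_pow_mono {a b : Ideal (MvPolynomial (Fin 3) k)} {s s' : ℕ} (h : s' ≤ s)
    (hab : a ⊔ mm k (Fin 3) ^ s = b ⊔ mm k (Fin 3) ^ s) :
    a ⊔ mm k (Fin 3) ^ s' = b ⊔ mm k (Fin 3) ^ s' := by
  have h1 : mm k (Fin 3) ^ s ≤ mm k (Fin 3) ^ s' := Ideal.pow_le_pow_right h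
  have h2 : ∀ c : Ideal (MvPolynomial (Fin 3) k), c ⊔ mm k (Fin 3) ^ s' =
      (c ⊔ mm k (Fin 3) ^ s) ⊔ mm k (Fin 3) ^ s' := by
    intro c
    rw [sup_assoc, sup_eq_right.2 h1]
  rw [h2 a, h2 b, hab]

/-- uniform ideal-adic semicontinuity for R-ideals `a` with log canonical `a^(1+η)` -/
theorem tklt_main (S : Set ℝ) (hS : S.Finite) (hS0 : ∀ t ∈ S, 0 ≤ t) (η : ℝ) (hη : 0 < η) :
    ∃ s : ℕ, 1 ≤ s ∧ ∀ (r : ℕ) (lam : Fin r → ℝ)
      (a b : Fin r → Ideal (MvPolynomial (Fin 3) k)), (∀ j, lam j ∈ S) → (∀ j, a j ≠ ⊥) →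
      (∀ j, b j ≠ ⊥) → (∀ j, a j ⊔ mm k (Fin 3) ^ s = b j ⊔ mm k (Fin 3) ^ s) →
      0 ≤ mld (fun j => (1 + η) * lam j) a → 0 ≤ mld lam b ∧ mld lam a = mld lam b := by
  classical
  obtain ⟨c, hc, hcS⟩ : ∃ c : ℝ, 0 < c ∧ ∀ t ∈ S, 0 < t → c ≤ t := by
    by_cases hne : (hS.toFinset.filter fun t => 0 < t).Nonempty
    · obtain ⟨t₀, ht₀, hmin⟩ := Finset.exists_min_image (hS.toFinset.filter fun t => 0 < t) id hne
      rw [Finset.mem_filter] at ht₀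
      refine ⟨t₀, ht₀.2, fun t ht ht0 => ?_⟩
      exact hmin t (Finset.mem_filter.2 ⟨hS.mem_toFinset.2 ht, ht0⟩)
    · refine ⟨1, one_pos, fun t ht ht0 => ?_⟩
      exact absurd ⟨t, Finset.mem_filter.2 ⟨hS.mem_toFinset.2 ht, ht0⟩⟩ hne
  have hε : 0 < 3 * η / (2 + η) := by positivity
  obtain ⟨s₁, hs₁, hs₁'⟩ := teps_main (k := k) S hS hS0 (3 * η / (2 + η)) hε
  obtain ⟨s₂, hs₂⟩ := exists_nat_ge (6 / (η * c))
  refine ⟨max s₁ s₂, hs₁.trans (le_max_left _ _), fun r lam a b hlam ha hb hab h => ?_⟩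
  have hlam0 : ∀ j, 0 ≤ lam j := fun j => hS0 _ (hlam j)
  have hcl : ∀ j, 0 < lam j → c ≤ lam j := fun j hj => hcS _ (hlam j) hj
  have hs : 6 ≤ η * c * (max s₁ s₂ : ℕ) := by
    rw [div_le_iff₀ (by positivity)] at hs₂
    have h1 : (s₂ : ℝ) ≤ ((max s₁ s₂ : ℕ) : ℝ) := by exact_mod_cast le_max_right s₁ s₂
    have h2 : (s₂ : ℝ) * (η * c) ≤ ((max s₁ s₂ : ℕ) : ℝ) * (η * c) :=
      mul_le_mul_of_nonneg_right h1 (by positivity)
    linarith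
  have h1 := klt_eps lam hlam0 η c hη hc hcl _ hs a b ha hb hab h
  have h2 := klt_eps lam hlam0 η c hη hc hcl _ hs a a ha ha (fun _ => rfl) h
  have h3 := hs₁' r lam a b hlam ha hb (fun j => sup_pow_mono (le_max_left _ _) (hab j)) h2 h1
  obtain ⟨N, hN⟩ := exists_nat_ge (3 / (3 * η / (2 + η)))
  obtain ⟨h4, h5⟩ := teps_eq lam hlam0 _ hε b h1 N hN
  exact ⟨by rw [h5]; exact h4, h3⟩

/-- the infimum over the divisors with `ord_E m ≤ N` is attained with bounded log discrepancy -/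
theorem att_fixed {r : ℕ} (lam : Fin r → ℝ) (hlam : ∀ j, 0 ≤ lam j) (N : ℕ) (hN : 1 ≤ N) :
    ∃ ℓ : ℕ, ∀ a : Fin r → Ideal (MvPolynomial (Fin 3) k), (∀ j, a j ≠ ⊥) →
      0 ≤ mldLe N lam a →
        ∃ E : DivisorOver k (Fin 3), E.CenterZero ∧ E.ordI (mm k (Fin 3)) ≤ N ∧
          E.logDisc ≤ ((ℓ : ℝ) : EReal) ∧ E.aDisc lam a = mldLe N lam a := by
  classical
  obtain ⟨r', ι, h1, h2⟩ := xmain_drop (k := k) lam hlam
  obtain ⟨ℓ, hℓ⟩ := bddN (k := k) lam hlam N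
  obtain ⟨B, -, hB⟩ := Q1_exists_s (fun i => lam (ι i)) (fun i => (h1 i).le) ℓ
  refine ⟨ℓ, fun a ha h0 => ?_⟩
  let V : Set EReal := {v | ∃ E : DivisorOver k (Fin 3), E.CenterZero ∧
    E.ordI (mm k (Fin 3)) ≤ N ∧ E.logDisc ≤ ((ℓ : ℝ) : EReal) ∧ E.aDisc lam a = v}
  have hVfin : V.Finite := by
    let F : (Fin (ℓ + 1)) × (Fin r' → Fin (B + 1)) → EReal := fun p =>
      (((p.1.val : ℝ) - ∑ i, lam (ι i) * ((p.2 i).val : ℝ) : ℝ) : EReal)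
    refine (Set.finite_range F).subset ?_
    rintro v ⟨E, hE, hEN, hl, rfl⟩
    have ht : E.logDisc ≠ ⊤ := by
      intro ht
      rw [ht, top_le_iff] at hl
      exact EReal.coe_ne_top _ hl
    obtain ⟨A, hA⟩ := exists_logDisc E ht
    have hAl : A ≤ ℓ := by
      rw [hA] at hl
      exact_mod_cast EReal.coe_le_coe_iff.1 hl
    have h3 := h0.trans (mldLe_le lam a E hE hEN)
    rw [h2 E a, Q1_aDisc E _ _ hA] at h3 ⊢
    have h4 : (0 : ℝ) ≤ A - ∑ i, lam (ι i) * (E.ordI (a (ι i)) : ℝ) := by exact_mod_cast h3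
    have h5 : ∀ i, E.ordI (a (ι i)) < B + 1 := by
      intro i
      by_contra hcon
      have h6 : B ≤ E.ordI (a (ι i)) := by omega
      have h7 : lam (ι i) * (B : ℝ) ≤ lam (ι i) * (E.ordI (a (ι i)) : ℝ) :=
        mul_le_mul_of_nonneg_left (by exact_mod_cast h6) (h1 i).le
      have h8 : lam (ι i) * (E.ordI (a (ι i)) : ℝ) ≤
          ∑ i, lam (ι i) * (E.ordI (a (ι i)) : ℝ) :=
        Finset.single_le_sum (f := fun i => lam (ι i) * (E.ordI (a (ι i)) : ℝ))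
          (fun i _ => mul_nonneg (h1 i).le (Nat.cast_nonneg _)) (Finset.mem_univ i)
      have h9 := hB i (h1 i)
      have h10 : (A : ℝ) ≤ ℓ := by exact_mod_cast hAl
      linarith
    exact ⟨(⟨A, by omega⟩, fun i => ⟨E.ordI (a (ι i)), h5 i⟩), rfl⟩
  have hVne : V.Nonempty := by
    obtain ⟨E₃, hE₃, hN₃, -⟩ := Bdd3_blowup k
    obtain ⟨E', hE', hN', hl, -⟩ := hℓ a ha E₃ hE₃ (hN₃.trans hN)
    exact ⟨_, E', hE', hN', hl, rfl⟩
  obtain ⟨v, ⟨E, hE, hEN, hl, rfl⟩, hmin⟩ := Set.exists_min_image V id hVfin hVne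
  refine ⟨E, hE, hEN, hl, le_antisymm (le_mldLe lam a _ fun E₁ hE₁ hN₁ => ?_)
    (mldLe_le lam a E hE hEN)⟩
  obtain ⟨E', hE', hN', hl', h3⟩ := hℓ a ha E₁ hE₁ hN₁
  have h4 := h0.trans (mldLe_le lam a E' hE' hN')
  rcases h3 with h3 | h3
  · exact absurd h4 (not_le.2 h3)
  · exact (hmin _ ⟨E', hE', hN', hl', rfl⟩).trans h3

theorem att_main (S : Set ℝ) (hS : S.Finite) (hS0 : ∀ t ∈ S, 0 ≤ t) (N : ℕ) (hN : 1 ≤ N) :
    ∃ ℓ : ℕ, ∀ (r : ℕ) (lam : Fin r → ℝ) (a : Fin r → Ideal (MvPolynomial (Fin 3) k)),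
      (∀ j, lam j ∈ S) → (∀ j, a j ≠ ⊥) → 0 ≤ mldLe N lam a →
        ∃ E : DivisorOver k (Fin 3), E.CenterZero ∧ E.ordI (mm k (Fin 3)) ≤ N ∧
          E.logDisc ≤ ((ℓ : ℝ) : EReal) ∧ E.aDisc lam a = mldLe N lam a := by
  classical
  obtain ⟨R, t, ht, hg⟩ := xmain_fin S hS
  obtain ⟨ℓ, hℓ⟩ := att_fixed (k := k) t (fun i => hS0 _ (ht i)) N hN
  refine ⟨ℓ, fun r lam a hlam ha h0 => ?_⟩
  obtain ⟨g, hg⟩ := hg r lam hlam
  have h1 : mldLe N lam a =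
      mldLe N t (fun i => ∏ j ∈ Finset.univ.filter (fun j => g j = i), a j) := by
    unfold mldLe
    exact iInf_congr fun E => xmain_group lam t g hg a ha E.1
  rw [h1] at h0 ⊢
  obtain ⟨E, hE, hEN, hl, h2⟩ := hℓ _ (fun i => xmain_ne a ha _) h0
  exact ⟨E, hE, hEN, hl, by rw [xmain_group lam t g hg a ha E, h2]⟩

end

end M3
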