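import Pool.Agent.M3.ArcOut
import Pool.Agent.M3.LDisc
import Pool.Agent.M3.Rev
import Pool.Agent.M3.GenSeq

/-!
PIECE M3-X07: divisors from arcs for a sequence of ideals; the limit is bounded below.

PROOFS. `dvs_of_arc`: take `m := ℓ + e * (∑ j, μ j)`, `s := m`; for almost all `i` the statement `hH s` and `hd` hold.
`arc_to_div` (level `m`) gives `E, g, A₁`. For `p h i ≠ 0`: `n j + e * μ j ≤ m` (`j = grp h`), so
`n j + e μ j ≤ g * ord (p h i)`; `ord_gen` for the ideal `a i j` (`S h := grp h = j`, `v := n j + e μ j ≤ s`).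
`mult_bdd`: `M` with `3 < lam j * M` for all `j` (`Q1_exists_s`). For almost all `i`, `hneg 3 i` holds; suppose for such an
`i` there is `j` such that all `f ∈ a i j` have only monomials of degree `> M`. `exists_generic k` gives `Q`, `Cod k Q 0`;
`arc_to_div` with `i₀ = 0`, `e = 1`, `m = M`, `C = 0`: `E, g, A₁`; for `f ∈ a i j`, `f ≠ 0`, `μ := M`, `n := 0`:
`M ≤ g * ord f`, so `M ≤ g * E.ordI (a i j)`. `aDisc_le` with `B = 3`, `n j := M` and zero for the others,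
`V := 3 - lam j * M < 0`: `E.aDisc lam (a i) < 0`, `E.logDisc ≤ A₁ ≤ g A₁ ≤ 3`: contradiction.
`low_limit`: `K := 3 * e`. Let `Cod (Gm k) P C`, `OrdGe grp f P n`, and suppose
`C - ∑ lam j * n j < - 3 e`. Let `m₀ := (∑ j, n j) + e * (∑ j, μ j)`. `reverse_transfer` with level `m₀ + 1`
(`hP : CodLe (Gm k) P (m₀ + 1) C`): for almost all `i` there is `P'` over `Om k` with `CodLe k P' (m₀ + 1) C` and
`OrdGe grp (c i) P' n`. `dvs_of_arc` with `ℓ := ∑ j, n j` gives `E, g, A₁`, `g * A₁ ≤ C + 3 e`,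
`n j + e * μ j ≤ g * ordI (a i j)`. `aDisc_le` with `B = C + 3 e`, `V := C + 3 e - ∑ lam j * n j < 0`:
`E.aDisc lam (a i) < 0`; and `E.logDisc ≤ A₁ ≤ C + 3 e`: contradiction to `hneg (C + 3 e)` for almost all `i`
(the filter is `NeBot`).
-/

open MvPolynomial Filter

namespace M3

open MLD

universe u

theorem dvs_of_arc {k : Type u} [Field k] [CharZero k] {r : ℕ}
    (a : ℕ → Fin r → Ideal (MvPolynomial (Fin 3) k)) (ha : ∀ i j, a i j ≠ ⊥) {J : Type} [Fintype J]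
    (grp : J → Fin r) (p : J → ℕ → MvPolynomial (Fin 3) k) (μ : Fin r → ℕ)
    (hd : ∀ᶠ i in Uf, ∀ h, ∀ d < μ (grp h), homogeneousComponent d (p h i) = 0)
    (hH : ∀ s : ℕ, ∀ᶠ i in Uf, ∀ j, ∀ q ∈ a i j, ∃ H : J → MvPolynomial (Fin 3) k,
      (∀ h, ¬ grp h = j → H h = 0) ∧
      ∀ m : Fin 3 →₀ ℕ, m.degree < s → coeff m (q - ∑ h, H h * p h i) = 0)
    (i₀ : Fin 3) (e : ℕ) (he : 0 < e) (ℓ : ℕ) :
    ∀ᶠ i in Uf, ∀ (L : Type u) [Field L] [Algebra k L] (Q : Fin 2 → PowerSeries L) (C : ℕ)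
      (n : Fin r → ℕ), (∀ j, n j ≤ ℓ) → CodLe k Q (ℓ + e * (∑ j, μ j) + 1) C →
      OrdGe grp (fun h => cone i₀ e (μ (grp h)) (p h i)) Q n →
      ∃ (E : DivisorOver k (Fin 3)) (g A₁ : ℕ), 0 < g ∧ E.CenterZero ∧
        E.ordI (mm k (Fin 3)) ≤ e ∧
        E.logDisc ≤ (((A₁ : ℕ) : ℝ) : EReal) ∧ g * A₁ ≤ C + 3 * e ∧
        ∀ j, n j + e * μ j ≤ g * E.ordI (a i j) := by
  filter_upwards [hd, hH (ℓ + e * (∑ j, μ j))] with i hdi hHi
  intro L _ _ Q C n hn hcod hord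
  obtain ⟨E, g, A₁, hg, hE, hEe, hlog, hgA, hdiv⟩ :=
    arc_to_div i₀ e he (ℓ + e * (∑ j, μ j)) Q C hcod
  refine ⟨E, g, A₁, hg, hE, hEe, hlog, hgA, fun j => ?_⟩
  have hμ : μ j ≤ ∑ j, μ j := Finset.single_le_sum (fun _ _ => Nat.zero_le _) (Finset.mem_univ j)
  have hv : n j + e * μ j ≤ ℓ + e * (∑ j, μ j) :=
    Nat.add_le_add (hn j) (Nat.mul_le_mul_left e hμ)
  refine ord_gen E hE (a i j) (ha i j) (fun h => grp h = j) (fun h => p h i) g _ _ hg hv ?_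
    (hHi j)
  intro h hh hne
  refine hdiv (p h i) (μ j) (n j) hne ?_ hv ?_
  · intro d hd'
    exact hdi h d (by rw [hh]; exact hd')
  · have h1 : (PowerSeries.X : PowerSeries L) ^ n (grp h) ∣
        ev Q (cone i₀ e (μ (grp h)) (p h i)) := hord h
    rw [hh] at h1
    exact h1

theorem mult_bdd {k : Type u} [Field k] [CharZero k] {r : ℕ} {lam : Fin r → ℝ}
    (hlam : ∀ j, 0 < lam j) (a : ℕ → Fin r → Ideal (MvPolynomial (Fin 3) k))
    (ha : ∀ i j, a i j ≠ ⊥) (N : ℕ) (hN : 1 ≤ N)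
    (hneg : ∀ ℓ : ℕ, ∀ᶠ i in Uf, ∀ E : DivisorOver k (Fin 3), E.CenterZero →
      E.ordI (mm k (Fin 3)) ≤ N → E.logDisc ≤ ((ℓ : ℝ) : EReal) → ¬ E.aDisc lam (a i) < 0) :
    ∃ M : ℕ, ∀ᶠ i in Uf, ∀ j, ∃ f ∈ a i j, ∃ m : Fin 3 →₀ ℕ, m.degree ≤ M ∧ coeff m f ≠ 0 := by
  classical
  obtain ⟨M, hM⟩ : ∃ M : ℕ, ∀ j, (3 : ℝ) < lam j * M := by
    have h1 : ∀ j, ∃ M : ℕ, (3 : ℝ) < lam j * M := by
      intro j
      obtain ⟨M, hM⟩ := exists_nat_gt (3 / lam j)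
      refine ⟨M, ?_⟩
      rw [div_lt_iff₀ (hlam j)] at hM
      linarith [mul_comm (M : ℝ) (lam j)]
    choose N hN using h1
    refine ⟨∑ j, N j, fun j => (hN j).trans_le ?_⟩
    refine mul_le_mul_of_nonneg_left ?_ (hlam j).le
    exact_mod_cast Finset.single_le_sum (f := N) (fun _ _ => Nat.zero_le _) (Finset.mem_univ j)
  refine ⟨M, ?_⟩
  filter_upwards [hneg 3] with i hi
  intro j
  by_contra hcon
  push Not at hcon
  obtain ⟨Q, hQ⟩ := exists_generic k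
  obtain ⟨E, g, A₁, hg, hE, hEN, hlog, hgA, -⟩ := arc_to_div 0 1 one_pos M Q 0 (hQ (M + 1))
  have hA3 : g * A₁ ≤ 3 := by omega
  have hA1 : A₁ ≤ 3 := le_trans (Nat.le_mul_of_pos_left A₁ hg) hA3
  have h1 : M ≤ g * E.ordI (a i j) := by
    refine ord_gen E hE (a i j) (ha i j) (J := Fin 0) (fun _ => False) (fun _ => 0) g M M hg le_rfl
      (fun h => h.elim0) ?_
    intro q hq
    refine ⟨fun _ => 0, fun _ _ => rfl, fun m hm => ?_⟩
    rw [Finset.univ_eq_empty, Finset.sum_empty, sub_zero]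
    exact hcon q hq m hm.le
  have h2 := (aDisc_le (fun j => (hlam j).le) (a i) E g A₁ 3 hg hlog hA3
    (fun j' => if j' = j then M else 0) ?_ (3 - lam j * M) ?_).1 (by linarith [hM j])
  · refine hi E hE (hEN.trans hN) (hlog.trans ?_) h2
    exact_mod_cast hA1
  · intro j'
    show (if j' = j then M else 0) ≤ _
    split_ifs with hj
    · rw [hj]
      exact h1
    · exact Nat.zero_le _
  · have h3 : ∑ j', lam j' * (((if j' = j then M else 0 : ℕ)) : ℝ) = lam j * M := by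
      rw [Finset.sum_eq_single j]
      · rw [if_pos rfl]
      · intro j' _ hj
        rw [if_neg hj, Nat.cast_zero, mul_zero]
      · intro hj
        exact absurd (Finset.mem_univ j) hj
    rw [h3]
    norm_num

theorem low_limit {k : Type u} [Field k] [IsAlgClosed k] [CharZero k] {r : ℕ} {lam : Fin r → ℝ}
    (hlam : ∀ j, 0 < lam j) (a : ℕ → Fin r → Ideal (MvPolynomial (Fin 3) k))
    (ha : ∀ i j, a i j ≠ ⊥) {J : Type} [Fintype J]
    (grp : J → Fin r) (p : J → ℕ → MvPolynomial (Fin 3) k) (μ : Fin r → ℕ)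
    (hd : ∀ᶠ i in Uf, ∀ h, ∀ d < μ (grp h), homogeneousComponent d (p h i) = 0)
    (hH : ∀ s : ℕ, ∀ᶠ i in Uf, ∀ j, ∀ q ∈ a i j, ∃ H : J → MvPolynomial (Fin 3) k,
      (∀ h, ¬ grp h = j → H h = 0) ∧
      ∀ m : Fin 3 →₀ ℕ, m.degree < s → coeff m (q - ∑ h, H h * p h i) = 0)
    (i₀ : Fin 3) (e : ℕ) (he : 0 < e) {f : J → AA (Gm k)}
    (hc : ∀ h, IsLim (fun i => cone i₀ e (μ (grp h)) (p h i)) (f h)) (N : ℕ) (heN : e ≤ N)
    (hneg : ∀ ℓ : ℕ, ∀ᶠ i in Uf, ∀ E : DivisorOver k (Fin 3), E.CenterZero →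
      E.ordI (mm k (Fin 3)) ≤ N → E.logDisc ≤ ((ℓ : ℝ) : EReal) → ¬ E.aDisc lam (a i) < 0) : LowB lam grp f := by
  refine ⟨3 * e, ?_⟩
  intro L _ _ P C n hcod hord
  by_contra hcon
  push Not at hcon
  have hn : ∀ j, n j ≤ ∑ j, n j := fun j =>
    Finset.single_le_sum (fun _ _ => Nat.zero_le _) (Finset.mem_univ j)
  have h1 := reverse_transfer (c := fun i h => cone i₀ e (μ (grp h)) (p h i)) hc P
    ((∑ j, n j) + e * (∑ j, μ j) + 1) C (hcod _) n (fun j => (hn j).trans (by omega)) hord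
  have h2 := dvs_of_arc a ha grp p μ hd hH i₀ e he (∑ j, n j)
  obtain ⟨i, ⟨P', hP', hO'⟩, h2i, hni⟩ := (h1.and (h2.and (hneg (C + 3 * e)))).exists
  obtain ⟨E, g, A₁, hg, hE, hEN, hlog, hgA, hord'⟩ := h2i (Om k) P' C n hn hP' hO'
  have hV : ((C + 3 * e : ℕ) : ℝ) - ∑ j, lam j * ((n j + e * μ j : ℕ) : ℝ) ≤
      (C : ℝ) + 3 * e - ∑ j, lam j * n j := by
    have h3 : ∑ j, lam j * (n j : ℝ) ≤ ∑ j, lam j * ((n j + e * μ j : ℕ) : ℝ) := by
      refine Finset.sum_le_sum fun j _ => mul_le_mul_of_nonneg_left ?_ (hlam j).le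
      exact_mod_cast Nat.le_add_right _ _
    push_cast at h3 ⊢
    linarith
  have h4 := (aDisc_le (fun j => (hlam j).le) (a i) E g A₁ (C + 3 * e) hg hlog hgA
    (fun j => n j + e * μ j) hord' _ hV).1 (by linarith)
  refine hni E hE (hEN.trans heN) (hlog.trans ?_) h4
  have h5 : A₁ ≤ C + 3 * e := le_trans (Nat.le_mul_of_pos_left A₁ hg) hgA
  exact_mod_cast h5

end M3
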